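import Pool.Agent.H.MP_60a1a2_co.RFBasic

/-! # Minors: monotonicity, contraction, duality of uniform matroids -/

set_option autoImplicit false

namespace Pool.Agent.H.MP_60a1a2_co

variable {α : Type*} [DecidableEq α]

theorem HasM.mono {M : RF α} {G G' : Finset α} (hG : G ⊆ G') {τ : Type} [DecidableEq τ]
    {h : Finset τ → ℕ} (hm : HasM M G h) : HasM M G' h := by
  obtain ⟨C, f, hC, hinj, hf, hr⟩ := hm
  refine ⟨C, f, hC.trans hG, hinj, fun t => ?_, hr⟩
  have h1 := hf t
  rw [Finset.mem_sdiff] at h1 ⊢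
  exact ⟨hG h1.1, h1.2⟩

/-- minors of `M / C0` are minors of `M` (use `C ∪ C0` and `RF.con_add`) -/
theorem HasM.of_con {M : RF α} {C0 G G' : Finset α} (hC : C0 ⊆ G') (hG : G ⊆ G' \ C0)
    {τ : Type} [DecidableEq τ] {h : Finset τ → ℕ} (hm : HasM (M.con C0) G h) :
    HasM M G' h := by
  obtain ⟨C, f, hCG, hinj, hf, hr⟩ := hm
  refine ⟨C ∪ C0, f, Finset.union_subset ((hCG.trans hG).trans Finset.sdiff_subset) hC, hinj,
    fun t => ?_, fun J => ?_⟩
  · have h1 := hf t
    rw [Finset.mem_sdiff] at h1 ⊢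
    have h2 := hG h1.1
    rw [Finset.mem_sdiff] at h2
    refine ⟨h2.1, fun h3 => ?_⟩
    rcases Finset.mem_union.1 h3 with h4 | h4
    · exact h1.2 h4
    · exact h2.2 h4
  · have h1 := M.con_add C0 (J.image f ∪ C)
    have h2 := M.con_add C0 C
    have h3 := hr J
    rw [Finset.union_assoc] at h1
    omega

/-- only the ranks of subsets of the ground set matter -/
theorem HasM.congr {M M' : RF α} {G : Finset α} (hr : ∀ X ⊆ G, M'.r X = M.r X)
    {τ : Type} [DecidableEq τ] {h : Finset τ → ℕ} (hm : HasM M G h) : HasM M' G h := by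
  obtain ⟨C, f, hCG, hinj, hf, hr'⟩ := hm
  refine ⟨C, f, hCG, hinj, hf, fun J => ?_⟩
  rw [hr _ hCG, hr _ (Finset.union_subset (Finset.image_subset_iff.2 fun t _ =>
    (Finset.mem_sdiff.1 (hf t)).1) hCG)]
  exact hr' J

/-- uniform matroids are self-dual.

Proof.  Let `C`, `f` be given for `M.dual E` (`C ⊆ G ⊆ E`), `X` = image of `f` (`2 * k` elements).
Take `C' = (E \ C) \ X` and the same `f`.  For `J : Finset (Fin (2 * k))` let `J'` be the
complement of `J`.  By `dual_add` with `X' = J'.image f ∪ C`: `E \ X' = J.image f ∪ C'`, so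
`(M.dual E).r (J'.image f ∪ C) + M.r E = J'.card + C.card + M.r (J.image f ∪ C')`; subtract the
same for `J = ∅`: `M.r (J.image f ∪ C') - M.r C' = (min J'.card k - min (2 * k) k) + J.card
= min J.card k` (with `J'.card = 2 * k - J.card`). -/
theorem HasM.unif_dual {M : RF α} {E G : Finset α} (hG : G ⊆ E) {k : ℕ}
    (hm : HasM (M.dual E) G (unif k)) : HasM M E (unif k) := by
  obtain ⟨C, f, hCG, hinj, hf, hr⟩ := hm
  have hfE : ∀ t, f t ∈ E := fun t => hG (Finset.mem_sdiff.1 (hf t)).1
  have hfC : ∀ t, f t ∉ C := fun t => (Finset.mem_sdiff.1 (hf t)).2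
  have hCE : C ⊆ E := hCG.trans hG
  have key : ∀ J : Finset (Fin (2 * k)), (M.dual E).r C + min Jᶜ.card k + M.r E =
      Jᶜ.card + C.card + M.r (J.image f ∪ ((E \ C) \ Finset.univ.image f)) := by
    intro J
    have h1 : Jᶜ.image f ∪ C ⊆ E := Finset.union_subset (Finset.image_subset_iff.2 fun t _ =>
      hfE t) hCE
    have h2 := M.dual_add h1
    have h3 : (Jᶜ.image f ∪ C).card = Jᶜ.card + C.card := by
      rw [Finset.card_union_of_disjoint, Finset.card_image_of_injective _ hinj]
      rw [Finset.disjoint_left]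
      intro x hx hxC
      obtain ⟨t, _, rfl⟩ := Finset.mem_image.1 hx
      exact hfC t hxC
    have h4 : E \ (Jᶜ.image f ∪ C) = J.image f ∪ ((E \ C) \ Finset.univ.image f) := by
      ext x
      simp only [Finset.mem_sdiff, Finset.mem_union, Finset.mem_image, Finset.mem_compl,
        Finset.mem_univ, true_and, not_or]
      constructor
      · rintro ⟨hxE, hx1, hx2⟩
        by_cases hx : ∃ t, f t = x
        · obtain ⟨t, rfl⟩ := hx
          left
          refine ⟨t, ?_, rfl⟩
          by_contra hcon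
          exact hx1 ⟨t, hcon, rfl⟩
        · exact Or.inr ⟨⟨hxE, hx2⟩, hx⟩
      · rintro (⟨t, ht, rfl⟩ | ⟨⟨hxE, hxC⟩, hx⟩)
        · refine ⟨hfE t, ?_, hfC t⟩
          rintro ⟨t', ht', h5⟩
          exact ht' (by rw [hinj h5]; exact ht)
        · refine ⟨hxE, ?_, hxC⟩
          rintro ⟨t, _, h5⟩
          exact hx ⟨t, h5⟩
    have h5 := hr Jᶜ
    unfold unif at h5
    rw [h3, h4] at h2
    omega
  refine ⟨(E \ C) \ Finset.univ.image f, f, Finset.sdiff_subset.trans Finset.sdiff_subset, hinj,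
    fun t => ?_, fun J => ?_⟩
  · rw [Finset.mem_sdiff]
    refine ⟨hfE t, fun h => ?_⟩
    rw [Finset.mem_sdiff] at h
    exact h.2 (Finset.mem_image_of_mem f (Finset.mem_univ t))
  · have h1 := key J
    have h2 := key ∅
    have h3 : J.card + Jᶜ.card = 2 * k := by
      rw [Finset.card_add_card_compl, Fintype.card_fin]
    have h4 : (∅ : Finset (Fin (2 * k)))ᶜ.card = 2 * k := by
      rw [Finset.compl_empty, Finset.card_univ, Fintype.card_fin]
    rw [h4, Finset.image_empty, Finset.empty_union] at h2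
    unfold unif
    omega

end Pool.Agent.H.MP_60a1a2_co
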