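import Pool.Agent.H.MP_60a1a2_co.Reduce
import Pool.Agent.H.MP_60a1a2_co.UnifDual

/-! # Part A: the hypotheses -/

set_option autoImplicit false

namespace Pool.Agent.H.MP_60a1a2_co

variable {α : Type*} [DecidableEq α]

/-- interconnected clique and coclique minors: `M / C1` restricted to the edges of `V` is a
clique, the dual of `M / C2` restricted to the edges of `W` is a clique -/
structure Conf (M : RF α) (E C1 C2 : Finset α) (e1 : ℕ → ℕ → α) (V : Finset ℕ)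
    (e2 : ℕ → ℕ → α) (W : Finset ℕ) (n : ℕ) : Prop where
  hC1 : C1 ⊆ E
  hE1 : ed e1 V ⊆ E \ C1
  clq : IsK (M.con C1) e1 V
  hC2 : C2 ⊆ E
  hE2 : ed e2 W ⊆ E \ C2
  cocl : IsK ((M.con C2).dual (ed e2 W)) e2 W
  dsj : Disjoint (ed e1 V) (ed e2 W)
  kap : ∀ X, ed e1 V ⊆ X → X ⊆ E → Disjoint X (ed e2 W) → n + M.r E ≤ M.r X + M.r (E \ X)
  cardW : n ≤ W.card

end Pool.Agent.H.MP_60a1a2_co
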