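import Pool.Agent.H.MP_60a1a2_co.RFBasic

/-! # The mixed linking lemma -/

set_option autoImplicit false

namespace Pool.Agent.H.MP_60a1a2_co

variable {α : Type*} [DecidableEq α]

/-- the conclusion of the linking lemma -/
def LinkC (L : ℕ) (M : RF α) (E A B : Finset α) : Prop :=
  ∃ C ⊆ E \ (A ∪ B), (∀ Y ⊆ A, M.r (Y ∪ C) = M.r Y + M.r C) ∧
    (∀ Y ⊆ B, M.r (Y ∪ (A ∪ C)) + M.r (E \ B) = M.r (Y ∪ (E \ B)) + M.r (A ∪ C)) ∧
    L + M.r (A ∪ B ∪ C) + M.r C ≤ M.r (A ∪ C) + M.r (B ∪ C)

/-- the hypothesis of the linking lemma -/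
def LinkH (L : ℕ) (M : RF α) (E A B : Finset α) : Prop :=
  ∀ X, A ⊆ X → X ⊆ E → Disjoint X B → L + M.r E ≤ M.r X + M.r (E \ X)

theorem Link_con1 {M : RF α} {x : α} (h1 : M.r {x} = 1) (Z : Finset α) :
    (M.con {x}).r Z + 1 = M.r (insert x Z) := by
  have h := M.con_add {x} Z
  rw [h1] at h
  rw [h, Finset.union_comm, ← Finset.insert_eq]

theorem Link_one {M : RF α} {x : α} {A : Finset α} (hin : ¬ M.In A x) : M.r {x} = 1 := by
  have a1 : ¬ M.In ∅ x := fun h => hin (M.in_mono h (Finset.empty_subset _))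
  have a2 := M.not_in a1
  have a3 : insert x (∅ : Finset α) = {x} := by simp
  rw [a3, M.r_empty] at a2
  omega

theorem Link_contr {L : ℕ} {M : RF α} {E A B : Finset α} {x : α} (hxE : x ∈ E) (hxA : x ∉ A)
    (hxB : x ∉ B) (hin : ¬ M.In A x) (h : LinkC L (M.con {x}) (E.erase x) A B) :
    LinkC L M E A B := by
  have tr := Link_con1 (Link_one hin)
  obtain ⟨C, hC, c1, c2, c3⟩ := h
  have hAY : ∀ Y ⊆ A, M.r (insert x Y) = M.r Y + 1 := fun Y hY =>
    M.not_in (fun h => hin (M.in_mono h hY))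
  refine ⟨insert x C, ?_, ?_, ?_, ?_⟩
  · apply Finset.insert_subset
    · simp [hxE, hxA, hxB]
    · exact hC.trans (Finset.sdiff_subset_sdiff (Finset.erase_subset _ _) (Finset.Subset.refl _))
  · intro Y hY
    have e1 := tr (Y ∪ C)
    have e2 := tr Y
    have e3 := tr C
    have e4 := c1 Y hY
    have e5 := hAY Y hY
    rw [Finset.union_insert]
    omega
  · intro Y hY
    have e1 := tr (Y ∪ (A ∪ C))
    have e2 := tr (E.erase x \ B)
    have e3 := tr (Y ∪ (E.erase x \ B))
    have e4 := tr (A ∪ C)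
    have e5 := c2 Y hY
    have f1 : insert x (E.erase x \ B) = E \ B := by
      ext a
      simp only [Finset.mem_insert, Finset.mem_sdiff, Finset.mem_erase]
      by_cases hax : a = x
      · subst hax
        simp [hxE, hxB]
      · simp [hax]
    have f2 : insert x (Y ∪ (E.erase x \ B)) = Y ∪ (E \ B) := by
      rw [← f1, Finset.union_insert]
    rw [f1] at e2
    rw [f2] at e3
    rw [Finset.union_insert, Finset.union_insert]
    omega
  · have e1 := tr (A ∪ B ∪ C)
    have e2 := tr C
    have e3 := tr (A ∪ C)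
    have e4 := tr (B ∪ C)
    rw [Finset.union_insert, Finset.union_insert, Finset.union_insert]
    omega

theorem Link_del {L : ℕ} {M : RF α} {E A B : Finset α} {x : α} (hxE : x ∈ E)
    (hxB : x ∉ B) (hin : M.In (E.erase x \ B) x) (h : LinkC L M (E.erase x) A B) :
    LinkC L M E A B := by
  obtain ⟨C, hC, c1, c2, c3⟩ := h
  have f1 : insert x (E.erase x \ B) = E \ B := by
    ext a
    simp only [Finset.mem_insert, Finset.mem_sdiff, Finset.mem_erase]
    by_cases hax : a = x
    · subst hax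
      simp [hxE, hxB]
    · simp [hax]
  refine ⟨C, hC.trans (Finset.sdiff_subset_sdiff (Finset.erase_subset _ _)
    (Finset.Subset.refl _)), c1, ?_, c3⟩
  intro Y hY
  have e1 := c2 Y hY
  have e2 : M.r (E \ B) = M.r (E.erase x \ B) := by
    rw [← f1]; exact hin
  have e3 : M.r (Y ∪ (E \ B)) = M.r (Y ∪ (E.erase x \ B)) := by
    have h2 : M.In (Y ∪ (E.erase x \ B)) x := M.in_mono hin Finset.subset_union_right
    rw [← f1, Finset.union_insert]
    exact h2
  omega

theorem Link_step {L : ℕ} {M : RF α} {E A B : Finset α} {x : α} (hA : A ⊆ E) (hB : B ⊆ E)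
    (hAB : Disjoint A B) (hxE : x ∈ E) (hxA : x ∉ A) (hxB : x ∉ B) (h : LinkH L M E A B) :
    (¬ M.In A x ∧ LinkH L (M.con {x}) (E.erase x) A B) ∨
      (M.In (E.erase x \ B) x ∧ LinkH L M (E.erase x) A B) := by
  have hAT : A ⊆ E.erase x \ B := by
    intro a ha
    simp only [Finset.mem_sdiff, Finset.mem_erase]
    exact ⟨⟨fun h0 => hxA (h0 ▸ ha), hA ha⟩, Finset.disjoint_left.1 hAB ha⟩
  have hTE : E.erase x \ B ⊆ E.erase x := Finset.sdiff_subset
  have hXT : ∀ X, X ⊆ E.erase x → Disjoint X B → X ⊆ E.erase x \ B := fun X h1 h2 a ha =>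
    Finset.mem_sdiff.2 ⟨h1 ha, Finset.disjoint_left.1 h2 ha⟩
  have g0 : insert x (E.erase x) = E := Finset.insert_erase hxE
  have g1 : ∀ X, x ∉ X → insert x (E.erase x \ X) = E \ X := by
    intro X hX
    ext a
    simp only [Finset.mem_insert, Finset.mem_sdiff, Finset.mem_erase]
    by_cases hax : a = x
    · subst hax
      simp [hxE, hX]
    · simp [hax]
  have g2 : ∀ X, E \ insert x X = E.erase x \ X := by
    intro X
    ext a
    simp only [Finset.mem_insert, Finset.mem_sdiff, Finset.mem_erase]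
    tauto
  have hnx : ∀ X, X ⊆ E.erase x → x ∉ X := fun X hX hx => (Finset.mem_erase.1 (hX hx)).1 rfl
  have hins : ∀ X, A ⊆ X → X ⊆ E.erase x → Disjoint X B →
      L + M.r E ≤ M.r (insert x X) + M.r (E.erase x \ X) := by
    intro X h1 h2 h3
    have h4 := h (insert x X) (h1.trans (Finset.subset_insert _ _))
      (Finset.insert_subset hxE (h2.trans (Finset.erase_subset _ _)))
      (Finset.disjoint_insert_left.2 ⟨hxB, h3⟩)
    rw [g2] at h4
    exact h4
  by_cases hT : M.In (E.erase x \ B) x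
  swap
  · left
    have hnA : ¬ M.In A x := fun h0 => hT (M.in_mono h0 hAT)
    have tr := Link_con1 (Link_one hnA)
    refine ⟨hnA, ?_⟩
    intro X h1 h2 h3
    have e1 := tr (E.erase x)
    have e2 := tr X
    have e3 := tr (E.erase x \ X)
    have e4 := h X h1 (h2.trans (Finset.erase_subset _ _)) h3
    have e5 : M.r (insert x X) = M.r X + 1 := M.not_in (fun h0 => hT (M.in_mono h0 (hXT X h2 h3)))
    rw [g0] at e1
    rw [g1 X (hnx X h2)] at e3
    omega
  · have hrE : M.r E = M.r (E.erase x) := by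
      have h1 : M.In (E.erase x) x := M.in_mono hT hTE
      unfold RF.In at h1
      rw [g0] at h1
      exact h1
    by_cases hAin : M.In A x
    · right
      refine ⟨hT, ?_⟩
      intro X h1 h2 h3
      have e1 := hins X h1 h2 h3
      have e2 : M.r (insert x X) = M.r X := M.in_mono hAin h1
      omega
    · by_contra hcon
      push_neg at hcon
      have k1 := hcon.1 hAin
      have k2 := hcon.2 hT
      unfold LinkH at k1 k2
      push_neg at k1 k2
      obtain ⟨X2, p1, p2, p3, p4⟩ := k1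
      obtain ⟨X1, q1, q2, q3, q4⟩ := k2
      have tr := Link_con1 (Link_one hAin)
      have e1 := tr (E.erase x)
      have e2 := tr X2
      have e3 := tr (E.erase x \ X2)
      rw [g0] at e1
      rw [g1 X2 (hnx X2 p2)] at e3
      have s1 := M.submod X1 (insert x X2)
      have s2 := M.submod (E.erase x \ X1) (E \ X2)
      have x1 := hnx X1 q2
      have x2 := hnx X2 p2
      have f1 : X1 ∪ insert x X2 = insert x (X1 ∪ X2) := Finset.union_insert _ _ _
      have f2 : X1 ∩ insert x X2 = X1 ∩ X2 := by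
        ext a
        simp only [Finset.mem_inter, Finset.mem_insert]
        by_cases hax : a = x
        · subst hax
          simp [x1]
        · simp [hax]
      have f3 : (E.erase x \ X1) ∪ (E \ X2) = E \ (X1 ∩ X2) := by
        ext a
        simp only [Finset.mem_union, Finset.mem_inter, Finset.mem_sdiff, Finset.mem_erase]
        by_cases hax : a = x
        · subst hax
          simp [x1, x2, hxE]
        · simp [hax]
          tauto
      have f4 : (E.erase x \ X1) ∩ (E \ X2) = E.erase x \ (X1 ∪ X2) := by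
        ext a
        simp only [Finset.mem_union, Finset.mem_inter, Finset.mem_sdiff, Finset.mem_erase]
        tauto
      rw [f1, f2] at s1
      rw [f3, f4] at s2
      have t1 := h (X1 ∩ X2) (Finset.subset_inter q1 p1)
        (Finset.inter_subset_left.trans (q2.trans (Finset.erase_subset _ _)))
        (q3.mono_left Finset.inter_subset_left)
      have t2 := hins (X1 ∪ X2) (q1.trans Finset.subset_union_left) (Finset.union_subset q2 p2)
        (Finset.disjoint_union_left.2 ⟨q3, p3⟩)
      omega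

/-- We can remove all elements outside `A ∪ B` by contraction (of `C`) and deletion, keeping the
restriction to `A`, the contraction to `B` and the connectivity.

Proof by strong induction on `(E \ (A ∪ B)).card`, for all `M`, `E`.  If `E = A ∪ B` take `C = ∅`
(`E \ A = B`, `E \ B = A`).  Otherwise let `x ∈ E \ (A ∪ B)`, `E' = E.erase x`,
`T = E' \ B` (so `E \ B = insert x T`, `A ⊆ T`).
Contraction step (`M' = M.con {x}`), allowed if `¬ M.In A x`: note `M.r {x} = 1`
(a loop is in every closure).  If `h` holds for `M'`, `E'`, the induction hypothesis gives `C'`;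
put `C = insert x C'`.  All ranks are translated by `M'.r Y + 1 = M.r (insert x Y)`
(`M.con_add`), and `M.r (insert x Y) = M.r Y + 1` for `Y ⊆ A` (by `M.in_mono` `x` is not in the
closure of `Y`).  First claim: `M.r (Y ∪ C) = M'.r (Y ∪ C') + 1 = M'.r Y + M'.r C' + 1
= M.r Y + M.r C`, since `M'.r Y = M.r Y` and `M'.r C' + 1 = M.r C`.  Second claim:
`Z ∪ (E' \ B)` becomes `Z ∪ (E \ B)` after insertion of `x`.  Third claim: direct.
Deletion step (`M' = M`, `E'`), allowed if `M.In T x`: if `h` holds for `M`, `E'`, the induction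
hypothesis gives `C`; the second claim for `E` follows since `M.r (Z ∪ (E \ B)) = M.r (Z ∪ T)` and
`M.r (E \ B) = M.r T` (`x` is in the closure of `T`).
Case 1: `¬ M.In T x`.  Then `¬ M.In A x`, contract.  For `A ⊆ X ⊆ E'`, `X` disjoint from `B` we have
`X ⊆ T`, so `x` is not in the closure of `X`: `M'.r X = M.r X`; and `M'.r (E' \ X) + 1 =
M.r (E \ X)`, `M'.r E' + 1 = M.r E`.  So `h` for `(M', E')` is `h X`.
Case 2: `M.In A x`.  Delete (`A ⊆ T`).  For `A ⊆ X ⊆ E'` use `h (insert x X)`:
`M.r (insert x X) = M.r X`, `E \ insert x X = E' \ X`, `M.r E = M.r E'`.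
Case 3: `M.In T x`, `¬ M.In A x`.  Both steps are allowed; one of them satisfies `h`.  Suppose
not: there are `X1` (bad for the deletion): `M.r X1 + M.r (E' \ X1) < L + M.r E'`, and `X2` (bad
for the contraction): `M'.r X2 + M'.r (E' \ X2) < L + M'.r E'`, that is
`M.r (insert x X2) + M.r (E \ X2) < L + 1 + M.r E` (`E \ X2 = insert x (E' \ X2)`).  Also
`M.r E' = M.r E` (`T ⊆ E'`).  Submodularity: `M.r X1 + M.r (insert x X2) ≥
M.r (insert x (X1 ∪ X2)) + M.r (X1 ∩ X2)` and `M.r (E' \ X1) + M.r (E \ X2) ≥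
M.r (E \ (X1 ∩ X2)) + M.r (E \ insert x (X1 ∪ X2))`.  By `h` for `X1 ∩ X2` and for
`insert x (X1 ∪ X2)` the sum of the right-hand sides is at least `2 L + 2 M.r E`, but the sum of
the left-hand sides is at most `2 L + 2 M.r E - 1`. -/
theorem link (L : ℕ) (n : ℕ) : ∀ (M : RF α) (E A B : Finset α), A ⊆ E → B ⊆ E → Disjoint A B →
    (∀ X, A ⊆ X → X ⊆ E → Disjoint X B → L + M.r E ≤ M.r X + M.r (E \ X)) →
    (E \ (A ∪ B)).card = n →
    ∃ C ⊆ E \ (A ∪ B), (∀ Y ⊆ A, M.r (Y ∪ C) = M.r Y + M.r C) ∧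
      (∀ Y ⊆ B, M.r (Y ∪ (A ∪ C)) + M.r (E \ B) = M.r (Y ∪ (E \ B)) + M.r (A ∪ C)) ∧
      L + M.r (A ∪ B ∪ C) + M.r C ≤ M.r (A ∪ C) + M.r (B ∪ C) := by
  induction n with
  | zero =>
    intro M E A B hA hB hAB h hn
    have h0 : E \ (A ∪ B) = ∅ := Finset.card_eq_zero.1 hn
    have hE : E = A ∪ B := Finset.Subset.antisymm (Finset.sdiff_eq_empty_iff_subset.1 h0)
      (Finset.union_subset hA hB)
    have f1 : E \ A = B := by
      rw [hE, Finset.union_sdiff_left, Finset.sdiff_eq_self_of_disjoint hAB.symm]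
    have f2 : E \ B = A := by
      rw [hE, Finset.union_sdiff_right, Finset.sdiff_eq_self_of_disjoint hAB]
    refine ⟨∅, Finset.empty_subset _, ?_, ?_, ?_⟩
    · intro Y _
      rw [Finset.union_empty, M.r_empty, Nat.add_zero]
    · intro Y _
      rw [f2, Finset.union_empty]
    · have h1 := h A (Finset.Subset.refl _) hA hAB
      rw [f1, hE] at h1
      simp only [Finset.union_empty, M.r_empty]
      omega
  | succ n ih =>
    intro M E A B hA hB hAB h hn
    have hne : (E \ (A ∪ B)).Nonempty := Finset.card_pos.1 (by omega)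
    obtain ⟨x, hx⟩ := hne
    obtain ⟨hxE, hxAB⟩ := Finset.mem_sdiff.1 hx
    have hxA : x ∉ A := fun h0 => hxAB (Finset.mem_union_left _ h0)
    have hxB : x ∉ B := fun h0 => hxAB (Finset.mem_union_right _ h0)
    have hA' : A ⊆ E.erase x := fun a ha => Finset.mem_erase.2 ⟨fun h0 => hxA (h0 ▸ ha), hA ha⟩
    have hB' : B ⊆ E.erase x := fun a ha => Finset.mem_erase.2 ⟨fun h0 => hxB (h0 ▸ ha), hB ha⟩
    have hn' : (E.erase x \ (A ∪ B)).card = n := by
      rw [Finset.erase_sdiff_comm, Finset.card_erase_of_mem hx]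
      omega
    rcases Link_step hA hB hAB hxE hxA hxB h with ⟨h1, h2⟩ | ⟨h1, h2⟩
    · exact Link_contr hxE hxA hxB h1 (ih (M.con {x}) (E.erase x) A B hA' hB' hAB h2 hn')
    · exact Link_del hxE hxB h1 (ih M (E.erase x) A B hA' hB' hAB h2 hn')

end Pool.Agent.H.MP_60a1a2_co
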