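import Pool.Agent.H.MP_60a1a2_co.KLib

/-! # Connectivity of minors -/

set_option autoImplicit false

namespace Pool.Agent.H.MP_60a1a2_co

variable {α : Type*} [DecidableEq α]

/-- The connectivity of a set in a minor (on `E2`, `C2` contracted) is at most the connectivity in
the matroid; `K` is the dual of the minor.

Proof.  Let `Y = A ∩ E2`, so `E2 \ A = E2 \ Y`.  By `dual_add` and `con_add` (as in
`RF.dual_con`) `K.r Y + M.r (E2 ∪ C2) = Y.card + M.r ((E2 \ Y) ∪ C2)`, the same for `E2 \ Y` (with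
`E2 \ (E2 \ Y) = Y`), and `K.r E2 + M.r (E2 ∪ C2) = E2.card + M.r C2`.  So the claim is
`M.r (Y ∪ C2) + M.r ((E2 \ Y) ∪ C2) + M.r E ≤ M.r A + M.r (E \ A) + M.r (E2 ∪ C2) + M.r C2`.
Submodularity five times:
(1) `M.r A + M.r C2 ≥ M.r (A ∪ C2) + M.r (A ∩ C2)`;
(2) `M.r (E \ A) + M.r C2 ≥ M.r ((E \ A) ∪ C2) + M.r ((E \ A) ∩ C2)`;
(3) `M.r (A ∩ C2) + M.r ((E \ A) ∩ C2) ≥ M.r C2` (`r_union_le`);
(4) `M.r (A ∪ C2) + M.r (E2 ∪ C2) ≥ M.r (A ∪ C2 ∪ E2) + M.r (Y ∪ C2)`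
(`(A ∪ C2) ∩ (E2 ∪ C2) = Y ∪ C2`);
(5) `M.r ((E \ A) ∪ C2) + M.r (A ∪ C2 ∪ E2) ≥ M.r E + M.r ((E2 \ Y) ∪ C2)`
(union `E`, intersection `(E2 \ Y) ∪ C2`).  Add up. -/
theorem minor_conn (M : RF α) (E C2 E2 A : Finset α) (hC : C2 ⊆ E) (h2 : E2 ⊆ E \ C2)
    (hA : A ⊆ E) :
    ((M.con C2).dual E2).r (A ∩ E2) + ((M.con C2).dual E2).r (E2 \ A) + M.r E ≤
      M.r A + M.r (E \ A) + ((M.con C2).dual E2).r E2 := by
  have hE2 : E2 ⊆ E := h2.trans Finset.sdiff_subset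
  have hY : A ∩ E2 ⊆ E2 := Finset.inter_subset_right
  have hs : E2 \ A = E2 \ (A ∩ E2) := by
    ext a
    simp only [Finset.mem_sdiff, Finset.mem_inter]
    tauto
  have hs2 : E2 \ (E2 \ A) = A ∩ E2 := by
    ext a
    simp only [Finset.mem_sdiff, Finset.mem_inter]
    tauto
  have k1 := (M.con C2).dual_add hY
  have k2 := (M.con C2).dual_add (Finset.sdiff_subset (s := E2) (t := A))
  have k3 := (M.con C2).dual_add (Finset.Subset.refl E2)
  have c1 := M.con_add C2 E2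
  have c2 := M.con_add C2 (E2 \ A)
  have c3 := M.con_add C2 (A ∩ E2)
  rw [← hs] at k1
  rw [hs2] at k2
  rw [Finset.sdiff_self, (M.con C2).r_empty] at k3
  have hcard : (E2 \ A).card + (A ∩ E2).card = E2.card := by
    rw [hs]
    exact Finset.card_sdiff_add_card_eq_card hY
  have s1 := M.submod A C2
  have s2 := M.submod (E \ A) C2
  have s3 := M.r_union_le (A ∩ C2) ((E \ A) ∩ C2)
  have e3 : A ∩ C2 ∪ (E \ A) ∩ C2 = C2 := by
    ext a
    simp only [Finset.mem_union, Finset.mem_inter, Finset.mem_sdiff]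
    have := @hC a
    tauto
  rw [e3] at s3
  have s4 := M.submod (A ∪ C2) (E2 ∪ C2)
  have e4 : (A ∪ C2) ∩ (E2 ∪ C2) = A ∩ E2 ∪ C2 := by
    ext a
    simp only [Finset.mem_union, Finset.mem_inter]
    tauto
  rw [e4] at s4
  have s5 := M.submod (E \ A ∪ C2) (A ∪ C2 ∪ (E2 ∪ C2))
  have e5 : E \ A ∪ C2 ∪ (A ∪ C2 ∪ (E2 ∪ C2)) = E := by
    ext a
    simp only [Finset.mem_union, Finset.mem_sdiff]
    have q1 := @hC a
    have q2 := @hE2 a
    have q3 := @hA a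
    tauto
  have e6 : (E \ A ∪ C2) ∩ (A ∪ C2 ∪ (E2 ∪ C2)) = E2 \ A ∪ C2 := by
    ext a
    simp only [Finset.mem_union, Finset.mem_sdiff, Finset.mem_inter]
    have q2 := @hE2 a
    tauto
  rw [e5, e6] at s5
  omega

/-- Sets of small connectivity which miss a large clique, or meet the edges in a set of small
rank, meet the edges in a set of rank at most the connectivity.

Proof.  Let `K = (M.con C2).dual (ed e2 W)`, `Y = A ∩ ed e2 W`.  By `IsK.compl` either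
`K.r Y + 1 = W.card` or `K.r (ed e2 W \ Y) + 1 = W.card` (`ed e2 W \ A = ed e2 W \ Y`).  In the
second case `minor_conn` gives `K.r Y ≤ N` (`K.r (ed e2 W) + 1 = W.card` by `IsK.rank`).  In the
first case `minor_conn` gives `K.r (ed e2 W \ A) ≤ N`; if `K.r Y ≤ 2 * N` this contradicts
`2 * N + 1 < W.card`; if `W3 ⊆ W`, `Disjoint A (ed e2 W3)`, `N + 1 < W3.card` then
`ed e2 W3 ⊆ ed e2 W \ A` and `K.r (ed e2 W3) + 1 = W3.card` (`IsK.sub`, `IsK.rank`), again a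
contradiction. -/
theorem small_of_conn (M : RF α) (E C2 A : Finset α) (e2 : ℕ → ℕ → α) (W : Finset ℕ) (N : ℕ)
    (hC : C2 ⊆ E) (h2 : ed e2 W ⊆ E \ C2) (hK : IsK ((M.con C2).dual (ed e2 W)) e2 W)
    (hA : A ⊆ E) (hc : M.r A + M.r (E \ A) ≤ N + M.r E) (hW : W.Nonempty)
    (hs : (((M.con C2).dual (ed e2 W)).r (A ∩ ed e2 W) ≤ 2 * N ∧ 2 * N + 1 < W.card) ∨
      ∃ W3 ⊆ W, N + 1 < W3.card ∧ Disjoint A (ed e2 W3)) :
    ((M.con C2).dual (ed e2 W)).r (A ∩ ed e2 W) ≤ N := by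
  have hm := minor_conn M E C2 (ed e2 W) A hC h2 hA
  have hr := hK.rank hW
  have hc2 := hK.compl hW (Finset.inter_subset_right (s₁ := A) (s₂ := ed e2 W))
  have hs2 : ed e2 W \ (A ∩ ed e2 W) = ed e2 W \ A := by
    ext a
    simp only [Finset.mem_sdiff, Finset.mem_inter]
    tauto
  rw [hs2] at hc2
  rcases hc2 with h1 | h1
  · exfalso
    rcases hs with ⟨h3, h4⟩ | ⟨W3, hW3, hcard, hd⟩
    · omega
    · have hne : W3.Nonempty := by
        rw [← Finset.card_pos]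
        omega
      have h5 := (hK.sub hW3).rank hne
      have h6 : ed e2 W3 ⊆ ed e2 W \ A := by
        intro x hx
        rw [Finset.mem_sdiff]
        exact ⟨ed_mono hW3 hx, fun hxA => (Finset.disjoint_left.1 hd) hxA hx⟩
      have h7 := ((M.con C2).dual (ed e2 W)).mono h6
      omega
  · omega

end Pool.Agent.H.MP_60a1a2_co
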