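import Pool.Agent.H.MP_60a1a2_co.ADefs
import Pool.Agent.H.MP_60a1a2_co.MinConn
import Pool.Agent.H.MP_60a1a2_co.Link

/-! # Part A: the configuration of type I -/

set_option autoImplicit false

namespace Pool.Agent.H.MP_60a1a2_co

variable {α : Type*} [DecidableEq α]

/-- From the clique of the lift to a configuration of type I.

Proof.  Let `A = ed e1 V'`, `B = ed e2 W3`, `E2 = E \ F`, `M3 = M.con C1`, `E3 = E2 \ C1`,
`K = (M.con C2).dual (ed e2 W)`.
Connectivity of `A` and `B` in `M3`: let `A ⊆ Y ⊆ E3`, `Y` disjoint from `B`.  Put `Y' = Y ∪ C1`;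
it contains `A ∪ C1`, is contained in `E2 ⊆ E` and disjoint from `B`.
Claim: `N1 + M.r E ≤ M.r Y' + M.r (E \ Y')`.  If not, `small_of_conn` (second alternative, with
`N := N1`, `W3`) gives `K.r (Y' ∩ ed e2 W) ≤ N1` and `h.kst` gives a contradiction.
By `con_add`: `M3.r Y + M.r C1 = M.r Y'`; `M3.r (E3 \ Y) + M.r C1 = M.r ((E3 \ Y) ∪ C1) ≥
M.r (E2 \ Y')`; `M3.r E3 + M.r C1 = M.r E2` (`C1 ⊆ E2`); `M.r (E \ Y') ≤ M.r (E2 \ Y') + F.card`;
`M.r E2 ≤ M.r E`; `M.r C1 ≤ c`.  With `N1 = L + 3 * k + c` we get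
`L + M3.r E3 ≤ M3.r Y + M3.r (E3 \ Y)`.
`link` (for `M3, E3, A, B`) gives `C3 ⊆ E3 \ (A ∪ B)`.  Take `C = C1 ∪ C3`,
`M.con C = M3.con C3` (`con_con_eq`), `M4 = M3.con C3`.
`clq`: for `Y ⊆ A`: `M4.r Y = M3.r Y` (first property of `link` and `con_add`), use `IsK.congr`.
`cocl`: for `Y ⊆ B`: `(M4.con A).r Y = M3.r (Y ∪ (A ∪ C3)) - M3.r (A ∪ C3)
= M3.r (Y ∪ (E3 \ B)) - M3.r (E3 \ B) = M.r (Y ∪ (E2 \ B)) - M.r (E2 \ B)`
(`(E3 \ B) ∪ C1 = E2 \ B`).  So for `Y ⊆ B`, by `dual_add` for `(M4.con A).dual B`: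
`((M4.con A).dual B).r Y = Y.card + M.r (E2 \ Y) - M.r E2` (`(B \ Y) ∪ (E2 \ B) = E2 \ Y`).
And `((M.dual E).con F).r Y` is the same: `(M.dual E).r (Y ∪ F) + M.r E = Y.card + F.card +
M.r (E2 \ Y)`, `(M.dual E).r F + M.r E = F.card + M.r E2`.  Use `IsK.congr`.
`lam`: third property of `link` and `con_add` for `M3`, `C3`. -/
theorem endStep {M : RF α} {E C1 C2 : Finset α} {e1 : ℕ → ℕ → α} {V' : Finset ℕ}
    {e2 : ℕ → ℕ → α} {W W3 : Finset ℕ} {F : Finset α} {L k c : ℕ}
    (h : St M E (ed e1 V' ∪ C1) C2 e2 W (L + 3 * k + c)) (hW3 : W3 ⊆ W)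
    (hcard : L + 3 * k + c + 1 < W3.card) (hC1 : Disjoint (ed e1 V') C1) (hc : C1.card ≤ c)
    (hF : F ⊆ ed e2 W) (hFc : F.card ≤ 3 * k) (hFB : Disjoint F (ed e2 W3))
    (hXF : Disjoint (ed e1 V' ∪ C1) F) (hXB : Disjoint (ed e1 V' ∪ C1) (ed e2 W3))
    (hclq : IsK (M.con C1) e1 V') (hK : IsK ((M.dual E).con F) e2 W3) :
    ∃ C : Finset α, C ⊆ E ∧ ed e1 V' ∪ ed e2 W3 ⊆ E \ C ∧
      TypeI (M.con C) e1 V' e2 W3 L := by
  have hWne : W.Nonempty := by
    have h3 : W3.Nonempty := Finset.card_pos.1 (by omega)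
    exact h3.mono hW3
  have hBW : ed e2 W3 ⊆ ed e2 W := ed_mono hW3
  have mA : ∀ x, x ∈ ed e1 V' → x ∈ E ∧ x ∉ F ∧ x ∉ C1 ∧ x ∉ ed e2 W3 := by
    intro x hx
    exact ⟨h.hX (Finset.mem_union_left _ hx),
      Finset.disjoint_left.1 hXF (Finset.mem_union_left _ hx),
      Finset.disjoint_left.1 hC1 hx,
      Finset.disjoint_left.1 hXB (Finset.mem_union_left _ hx)⟩
  have mC : ∀ x, x ∈ C1 → x ∈ E ∧ x ∉ F ∧ x ∉ ed e2 W3 := by
    intro x hx
    exact ⟨h.hX (Finset.mem_union_right _ hx),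
      Finset.disjoint_left.1 hXF (Finset.mem_union_right _ hx),
      Finset.disjoint_left.1 hXB (Finset.mem_union_right _ hx)⟩
  have mB : ∀ x, x ∈ ed e2 W3 → x ∈ E ∧ x ∉ F ∧ x ∉ C1 ∧ x ∉ ed e1 V' := by
    intro x hx
    exact ⟨(Finset.mem_sdiff.1 (h.hE (hBW hx))).1,
      fun hf => Finset.disjoint_left.1 hFB hf hx,
      fun hf => (mC x hf).2.2 hx, fun hf => (mA x hf).2.2.2 hx⟩
  have mF : ∀ x, x ∈ F → x ∈ E := fun x hx => (Finset.mem_sdiff.1 (h.hE (hF hx))).1
  generalize hA0 : ed e1 V' = A at *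
  generalize hB0 : ed e2 W3 = B at *
  have hAB : Disjoint A B := by
    rw [Finset.disjoint_left]
    intro x hx
    exact (mA x hx).2.2.2
  have hAE3 : A ⊆ (E \ F) \ C1 := by
    intro x hx
    have := mA x hx
    simp only [Finset.mem_sdiff]
    tauto
  have hBE3 : B ⊆ (E \ F) \ C1 := by
    intro x hx
    have := mB x hx
    simp only [Finset.mem_sdiff]
    tauto
  have hE3C : ((E \ F) \ C1) ∪ C1 = E \ F := by
    ext x
    simp only [Finset.mem_sdiff, Finset.mem_union]
    have := mC x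
    tauto
  have c3 := M.con_add C1 ((E \ F) \ C1)
  rw [hE3C] at c3
  have c6 := M.le_card C1
  have c5 : M.r (E \ F) ≤ M.r E := M.mono Finset.sdiff_subset
  have hconn : ∀ Y, A ⊆ Y → Y ⊆ (E \ F) \ C1 → Disjoint Y B →
      L + (M.con C1).r ((E \ F) \ C1) ≤
        (M.con C1).r Y + (M.con C1).r (((E \ F) \ C1) \ Y) := by
    intro Y hAY hYE hYB
    have hYE' : Y ∪ C1 ⊆ E := by
      intro x hx
      rw [Finset.mem_union] at hx
      rcases hx with hx | hx
      · have := hYE hx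
        simp only [Finset.mem_sdiff] at this
        exact this.1.1
      · exact (mC x hx).1
    have hYB' : Disjoint (Y ∪ C1) B := by
      rw [Finset.disjoint_left]
      intro x hx
      rw [Finset.mem_union] at hx
      rcases hx with hx | hx
      · exact Finset.disjoint_left.1 hYB hx
      · exact (mC x hx).2.2
    have hXY : A ∪ C1 ⊆ Y ∪ C1 := Finset.union_subset_union_left hAY
    have hclaim : (L + 3 * k + c) + M.r E ≤ M.r (Y ∪ C1) + M.r (E \ (Y ∪ C1)) := by
      by_contra hlt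
      have h1 := small_of_conn M E C2 (Y ∪ C1) e2 W (L + 3 * k + c) h.hC h.hE h.cocl hYE'
        (by omega) hWne (Or.inr ⟨W3, hW3, hcard, by rw [hB0]; exact hYB'⟩)
      exact hlt (h.kst (Y ∪ C1) hXY hYE' h1)
    have c1 := M.con_add C1 Y
    have c2 := M.con_add C1 (((E \ F) \ C1) \ Y)
    have c2' : M.r ((E \ F) \ (Y ∪ C1)) ≤ M.r ((((E \ F) \ C1) \ Y) ∪ C1) := by
      apply M.mono
      intro x
      simp only [Finset.mem_sdiff, Finset.mem_union]
      tauto
    have c4 : M.r (E \ (Y ∪ C1)) ≤ M.r ((E \ F) \ (Y ∪ C1)) + F.card := by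
      refine le_trans (M.mono ?_) (M.r_union_le_card _ F)
      intro x
      simp only [Finset.mem_sdiff, Finset.mem_union]
      tauto
    omega
  obtain ⟨C3, hC3, p1, p2, p3⟩ := link L _ (M.con C1) ((E \ F) \ C1) A B hAE3 hBE3 hAB hconn rfl
  have mC3 : ∀ x, x ∈ C3 → x ∈ E ∧ x ∉ F ∧ x ∉ C1 ∧ x ∉ A ∧ x ∉ B := by
    intro x hx
    have := hC3 hx
    simp only [Finset.mem_sdiff, Finset.mem_union] at this
    tauto
  refine ⟨C1 ∪ C3, ?_, ?_, ?_⟩
  · intro x hx
    rw [Finset.mem_union] at hx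
    rcases hx with hx | hx
    · exact (mC x hx).1
    · exact (mC3 x hx).1
  · intro x hx
    have h1 := mA x
    have h2 := mB x
    have h3 := mC3 x
    simp only [Finset.mem_sdiff, Finset.mem_union] at hx ⊢
    tauto
  · rw [← M.con_con_eq]
    have q1 := (M.con C1).con_add C3 A
    have q2 := (M.con C1).con_add C3 B
    have q3 := (M.con C1).con_add C3 (A ∪ B)
    refine ⟨?_, ?_, ?_, ?_⟩
    · apply hclq.congr
      intro Y hY
      rw [hA0] at hY
      have h1 := (M.con C1).con_add C3 Y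
      rw [p1 Y hY] at h1
      omega
    · rw [hA0, hB0]
      exact hAB
    · rw [hA0, hB0]
      apply hK.congr
      intro Y hY
      rw [hB0] at hY
      -- ranks of subsets of `B` after contraction of `A`
      have hZ : ∀ Z ⊆ B, (((M.con C1).con C3).con A).r Z + M.r ((E \ F) \ B) =
          M.r (Z ∪ ((E \ F) \ B)) := by
        intro Z hZB
        have h1 := ((M.con C1).con C3).con_add A Z
        have h2 := (M.con C1).con_add C3 (Z ∪ A)
        have h3 := p2 Z hZB
        have h4 := M.con_add C1 (Z ∪ (((E \ F) \ C1) \ B))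
        have h5 := M.con_add C1 (((E \ F) \ C1) \ B)
        have e1 : Z ∪ A ∪ C3 = Z ∪ (A ∪ C3) := Finset.union_assoc _ _ _
        have e2 : Z ∪ (((E \ F) \ C1) \ B) ∪ C1 = Z ∪ ((E \ F) \ B) := by
          ext x
          simp only [Finset.mem_sdiff, Finset.mem_union]
          have := mC x
          tauto
        have e3 : (((E \ F) \ C1) \ B) ∪ C1 = (E \ F) \ B := by
          ext x
          simp only [Finset.mem_sdiff, Finset.mem_union]
          have := mC x
          tauto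
        rw [e1] at h2
        rw [e2] at h4
        rw [e3] at h5
        omega
      have z1 := hZ B (Finset.Subset.refl B)
      have z2 := hZ (B \ Y) Finset.sdiff_subset
      have e4 : B ∪ ((E \ F) \ B) = E \ F := by
        ext x
        simp only [Finset.mem_sdiff, Finset.mem_union]
        have := mB x
        tauto
      have e5 : (B \ Y) ∪ ((E \ F) \ B) = (E \ F) \ Y := by
        ext x
        simp only [Finset.mem_sdiff, Finset.mem_union]
        have := mB x
        have := @hY x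
        tauto
      rw [e4] at z1
      rw [e5] at z2
      have d1 := (((M.con C1).con C3).con A).dual_add hY
      have d2 := (M.dual E).con_add F Y
      have hYF : Y ∪ F ⊆ E := by
        intro x hx
        rw [Finset.mem_union] at hx
        rcases hx with hx | hx
        · exact (mB x (hY hx)).1
        · exact mF x hx
      have d3 := M.dual_add hYF
      have d4 := M.dual_add (E := E) (X := F) (fun x hx => mF x hx)
      have e6 : (Y ∪ F).card = Y.card + F.card := by
        apply Finset.card_union_of_disjoint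
        rw [Finset.disjoint_left]
        intro x hx
        exact (mB x (hY hx)).2.1
      have e7 : E \ (Y ∪ F) = (E \ F) \ Y := by
        ext x
        simp only [Finset.mem_sdiff, Finset.mem_union]
        tauto
      rw [e6, e7] at d3
      omega
    · rw [hA0, hB0]
      omega

end Pool.Agent.H.MP_60a1a2_co
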