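import Pool.Agent.H.MP_60a1a2_co.RFBasic

/-! # Cliques: complements, touched vertices, independent parts -/

set_option autoImplicit false

namespace Pool.Agent.H.MP_60a1a2_co

variable {α : Type*} [DecidableEq α]

/-- A set of edges or its complement is connected and spanning.

Proof.  Write `i ~ j` if `i = j` or `M.In Z (e i j)`; by `Tri.trans` (and `symm`) this is an
equivalence relation on `W`.  If all vertices are equivalent then `Z` spans `ed e W`
(`M.r_eq_of_in`), so the first alternative holds.  Otherwise fix `u`, `v` not equivalent.  Every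
edge `e i j` with `i`, `j` not equivalent is not in `Z` (`M.in_of_mem`), so it lies in the
complement `C = ed e W \ Z`.  Every vertex `j` has `M.In C (e u j)` (for `j ≠ u`): if `j` is not
equivalent to `u` this is clear; if `j ~ u` then `e u v` and `e v j` are both in `C`, use
`Tri.trans`.  By `Tri.star_spans` and `M.r_eq_of_in` the set `C` has full rank. -/
theorem IsK.compl {M : RF α} {e : ℕ → ℕ → α} {W : Finset ℕ} (h : IsK M e W) (hW : W.Nonempty)
    {Z : Finset α} (hZ : Z ⊆ ed e W) :
    M.r Z + 1 = W.card ∨ M.r (ed e W \ Z) + 1 = W.card := by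
  have hrank := h.rank hW
  by_cases hall : ∃ u ∈ W, ∀ j ∈ W, j ≠ u → M.In Z (e u j)
  · left
    obtain ⟨u, hu, hj⟩ := hall
    have h1 := M.r_eq_of_in hZ (h.tri.star_spans h.isE hu hj)
    omega
  · right
    push Not at hall
    obtain ⟨u, hu⟩ := hW
    obtain ⟨v, hv, hvu, hnot⟩ := hall u hu
    have hC : ∀ i ∈ W, ∀ j ∈ W, i ≠ j → ¬ M.In Z (e i j) → M.In (ed e W \ Z) (e i j) := by
      intro i hi j hj hij hn
      apply M.in_of_mem
      rw [Finset.mem_sdiff]
      exact ⟨ed_mem hi hj hij, fun hz => hn (M.in_of_mem hz)⟩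
    have hs : ∀ j ∈ W, j ≠ u → M.In (ed e W \ Z) (e u j) := by
      intro j hj hju
      by_cases hin : M.In Z (e u j)
      · have hjv : j ≠ v := by
          rintro rfl
          exact hnot hin
        have hvj : ¬ M.In Z (e v j) := by
          intro hc
          rw [h.isE.symm v hv j hj] at hc
          exact hnot (h.tri.trans hu hj hv (Ne.symm hju) hjv (Ne.symm hvu) hin hc)
        exact h.tri.trans hu hv hj (Ne.symm hvu) (Ne.symm hjv) (Ne.symm hju)
          (hC u hu v hv (Ne.symm hvu) hnot) (hC v hv j hj (Ne.symm hjv) hvj)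
      · exact hC u hu j hj (Ne.symm hju) hin
    have h1 := M.r_eq_of_in (Finset.sdiff_subset (s := ed e W) (t := Z))
      (h.tri.star_spans h.isE hu hs)
    omega

/-- A set of edges of rank `r` touches at most `2r` vertices.

Proof.  Let `I ⊆ Z` be a basis (`M.exists_basis`), `I.card = M.r Z`.  Let `T` be the set of the
vertices `i ∈ W` with `∃ j ∈ W, i ≠ j ∧ e i j ∈ I`.  Every element of `I` is `e i j` for exactly
one unordered pair (`IsE.inj`), so `T.card ≤ 2 * I.card` (`T` is the union over `x ∈ I` of the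
two-element sets of the ends, `Finset.card_biUnion_le`).  Let `e i j ∈ Z`, `i ≠ j` in `W`; it is in
the closure of `I`.  If `i ∉ T` then `I ⊆ ed e (W.erase i)` and `IsK.leaf` gives a contradiction;
same for `j`. -/
theorem IsK.touched {M : RF α} {e : ℕ → ℕ → α} {W : Finset ℕ} (h : IsK M e W)
    {Z : Finset α} (hZ : Z ⊆ ed e W) :
    ∃ T ⊆ W, T.card ≤ 2 * M.r Z ∧ Z ⊆ ed e T := by
  classical
  obtain ⟨I, hIZ, hIind, hIcard⟩ := M.exists_basis Z
  have hrZ : M.r Z = M.r I := by omega
  refine ⟨W.filter (fun i => ∃ j ∈ W, i ≠ j ∧ e i j ∈ I), Finset.filter_subset _ _, ?_, ?_⟩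
  · have h1 : W.filter (fun i => ∃ j ∈ W, i ≠ j ∧ e i j ∈ I) ⊆
        I.biUnion (fun x => W.filter (fun i => ∃ j ∈ W, i ≠ j ∧ e i j = x)) := by
      intro i hi
      rw [Finset.mem_filter] at hi
      obtain ⟨hiW, j, hj, hij, hx⟩ := hi
      rw [Finset.mem_biUnion]
      exact ⟨e i j, hx, Finset.mem_filter.2 ⟨hiW, j, hj, hij, rfl⟩⟩
    have h2 : ∀ x ∈ I, (W.filter (fun i => ∃ j ∈ W, i ≠ j ∧ e i j = x)).card ≤ 2 := by
      intro x hx
      obtain ⟨a, ha, b, hb, hab, rfl⟩ := mem_ed.1 (hZ (hIZ hx))
      have h3 : W.filter (fun i => ∃ j ∈ W, i ≠ j ∧ e i j = e a b) ⊆ {a, b} := by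
        intro i hi
        rw [Finset.mem_filter] at hi
        obtain ⟨hiW, j, hj, hij, heq⟩ := hi
        rw [Finset.mem_insert, Finset.mem_singleton]
        rcases h.isE.inj i hiW j hj a ha b hb hij hab heq with h4 | h4
        · exact Or.inl h4.1
        · exact Or.inr h4.1
      exact (Finset.card_le_card h3).trans Finset.card_le_two
    calc (W.filter (fun i => ∃ j ∈ W, i ≠ j ∧ e i j ∈ I)).card
        ≤ (I.biUnion (fun x => W.filter (fun i => ∃ j ∈ W, i ≠ j ∧ e i j = x))).card :=
          Finset.card_le_card h1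
      _ ≤ ∑ x ∈ I, (W.filter (fun i => ∃ j ∈ W, i ≠ j ∧ e i j = x)).card :=
          Finset.card_biUnion_le
      _ ≤ ∑ _x ∈ I, 2 := Finset.sum_le_sum h2
      _ = 2 * M.r Z := by rw [Finset.sum_const, smul_eq_mul, hIcard, mul_comm]
  · have key : ∀ i ∈ W, ∀ j ∈ W, i ≠ j → M.In I (e i j) →
        i ∈ W.filter (fun i => ∃ j ∈ W, i ≠ j ∧ e i j ∈ I) := by
      intro i hi j hj hij hin
      by_contra hcon
      have hno : ∀ k ∈ W, i ≠ k → e i k ∉ I := by
        intro k hk hik hmem
        exact hcon (Finset.mem_filter.2 ⟨hi, k, hk, hik, hmem⟩)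
      have hI : I ⊆ ed e (W.erase i) := by
        intro y hy
        obtain ⟨a, ha, b, hb, hab, rfl⟩ := mem_ed.1 (hZ (hIZ hy))
        have hai : a ≠ i := by
          rintro rfl
          exact hno b hb hab hy
        have hbi : b ≠ i := by
          rintro rfl
          rw [h.isE.symm a ha b hb] at hy
          exact hno a ha (Ne.symm hab) hy
        exact ed_mem (Finset.mem_erase.2 ⟨hai, ha⟩) (Finset.mem_erase.2 ⟨hbi, hb⟩) hab
      exact h.leaf hi hj hij hI hin
    intro x hx
    obtain ⟨i, hi, j, hj, hij, rfl⟩ := mem_ed.1 (hZ hx)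
    have hin := M.in_of_r_eq hIZ hrZ hx
    have hin' := hin
    rw [h.isE.symm i hi j hj] at hin'
    exact ed_mem (key i hi j hj hij hin) (key j hj i hi (Ne.symm hij) hin') hij

/-- Adding a clique on new vertices.

Proof.  Let `w ∈ U`.  Show by induction on `S ⊆ U.erase w` that
`M.r (I ∪ S.image (e w)) = M.r I + S.card`: for a new `j ∈ U`, `j ∉ S`, `j ≠ w`, the set
`I ∪ S.image (e w)` is contained in `ed e (W.erase j)`, so by `IsK.leaf` (for `e j w = e w j`)
`e w j` is not in its closure, use `M.not_in`.  For `S = U.erase w` we get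
`M.r (I ∪ star e w U) = M.r I + (U.card - 1)`, and `I ∪ star e w U` spans `I ∪ ed e U`
(`Tri.star_spans`, `M.r_eq_of_in`). -/
theorem IsK.add_clique {M : RF α} {e : ℕ → ℕ → α} {W U : Finset ℕ} (h : IsK M e W)
    (hU : U ⊆ W) (hne : U.Nonempty) {I : Finset α} (hI : I ⊆ ed e (W \ U)) :
    M.r (I ∪ ed e U) + 1 = M.r I + U.card := by
  obtain ⟨w, hw⟩ := hne
  have key : ∀ S : Finset ℕ, S ⊆ U.erase w → M.r (I ∪ S.image (e w)) = M.r I + S.card := by
    intro S
    induction S using Finset.induction_on with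
    | empty => intro _; simp
    | insert j S hjS ih =>
      intro hS
      have hj : j ∈ U.erase w := hS (Finset.mem_insert_self j S)
      have hjw : j ≠ w := (Finset.mem_erase.1 hj).1
      have hjU : j ∈ U := (Finset.mem_erase.1 hj).2
      have hS' : S ⊆ U.erase w := (Finset.subset_insert j S).trans hS
      have h1 := ih hS'
      have hsub : I ∪ S.image (e w) ⊆ ed e (W.erase j) := by
        intro y hy
        rw [Finset.mem_union] at hy
        rcases hy with hy | hy
        · refine ed_mono ?_ (hI hy)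
          intro a ha
          rw [Finset.mem_sdiff] at ha
          refine Finset.mem_erase.2 ⟨?_, ha.1⟩
          rintro rfl
          exact ha.2 hjU
        · obtain ⟨s, hs, rfl⟩ := Finset.mem_image.1 hy
          have hs2 := Finset.mem_erase.1 (hS' hs)
          refine ed_mem (Finset.mem_erase.2 ⟨Ne.symm hjw, hU hw⟩)
            (Finset.mem_erase.2 ⟨?_, hU hs2.2⟩) (Ne.symm hs2.1)
          rintro rfl
          exact hjS hs
      have h2 : ¬ M.In (I ∪ S.image (e w)) (e w j) := by
        rw [h.isE.symm w (hU hw) j (hU hjU)]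
        exact h.leaf (hU hjU) (hU hw) hjw hsub
      have h3 := M.not_in h2
      rw [Finset.image_insert, Finset.union_insert, h3, h1, Finset.card_insert_of_notMem hjS]
      ring
  have h1 := key (U.erase w) (Finset.Subset.refl _)
  have h2 : M.r (I ∪ ed e U) = M.r (I ∪ star e w U) := by
    apply M.r_eq_of_in (Finset.union_subset_union_right (star_subset hw))
    intro y hy
    rw [Finset.mem_union] at hy
    rcases hy with hy | hy
    · exact M.in_of_mem (Finset.mem_union_left _ hy)
    · refine (h.tri.mono hU).star_spans (h.isE.mono hU) hw ?_ y hy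
      intro j hj hjw
      exact M.in_of_mem (Finset.mem_union_right _ (mem_star.2 ⟨j, hj, hjw, rfl⟩))
  have h3 := Finset.card_erase_add_one hw
  have h4 : M.r (I ∪ star e w U) = M.r I + (U.erase w).card := h1
  omega

end Pool.Agent.H.MP_60a1a2_co
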