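import Pool.Agent.H.MP_60a1a2_co.RFBasic

/-! # Small well-linked subsets -/

set_option autoImplicit false

namespace Pool.Agent.H.MP_60a1a2_co

variable {α : Type*} [DecidableEq α]

/-- the admissible sets -/
def kapS_adm (E B Y : Finset α) : Finset (Finset α) :=
  (E \ B).powerset.filter (fun X => Y ∩ (E \ B) ⊆ X)

theorem kapS_mem {E B Y X : Finset α} :
    X ∈ kapS_adm E B Y ↔ X ⊆ E \ B ∧ Y ∩ (E \ B) ⊆ X := by
  simp [kapS_adm]

theorem kapS_ne (E B Y : Finset α) : (kapS_adm E B Y).Nonempty :=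
  ⟨E \ B, kapS_mem.2 ⟨Finset.Subset.refl _, Finset.inter_subset_right⟩⟩

/-- the connectivity value -/
def kapS_v (M : RF α) (E X : Finset α) : ℕ := M.r X + M.r (E \ X) - M.r E

theorem kapS_v_add (M : RF α) {E X : Finset α} (h : X ⊆ E) :
    kapS_v M E X + M.r E = M.r X + M.r (E \ X) := by
  have h1 := M.r_union_le X (E \ X)
  rw [Finset.union_sdiff_of_subset h] at h1
  unfold kapS_v
  omega

/-- the minimal connectivity value of an admissible set -/
def kapS_k (M : RF α) (E B Y : Finset α) : ℕ :=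
  (kapS_adm E B Y).inf' (kapS_ne E B Y) (kapS_v M E)

theorem kapS_ex (M : RF α) (E B Y : Finset α) :
    ∃ X, X ⊆ E \ B ∧ Y ∩ (E \ B) ⊆ X ∧ kapS_k M E B Y = kapS_v M E X := by
  obtain ⟨X, hX, h⟩ := Finset.exists_mem_eq_inf' (kapS_ne E B Y) (kapS_v M E)
  rw [kapS_mem] at hX
  exact ⟨X, hX.1, hX.2, h⟩

theorem kapS_le (M : RF α) {E B Y X : Finset α} (h1 : X ⊆ E \ B) (h2 : Y ∩ (E \ B) ⊆ X) :
    kapS_k M E B Y ≤ kapS_v M E X :=
  Finset.inf'_le _ (kapS_mem.2 ⟨h1, h2⟩)

/-- the rank function -/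
def kapS_R (M : RF α) (E B : Finset α) : RF α where
  r := kapS_k M E B
  le_card := by
    intro Y
    have hs : Y ∩ (E \ B) ⊆ E := Finset.inter_subset_right.trans Finset.sdiff_subset
    have h1 := kapS_le M (E := E) (B := B) (Y := Y) (X := Y ∩ (E \ B))
      Finset.inter_subset_right (Finset.Subset.refl _)
    have h2 := kapS_v_add M hs
    have h3 := M.le_card (Y ∩ (E \ B))
    have h4 : M.r (E \ (Y ∩ (E \ B))) ≤ M.r E := M.mono Finset.sdiff_subset
    have h5 : (Y ∩ (E \ B)).card ≤ Y.card := Finset.card_le_card Finset.inter_subset_left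
    omega
  mono := by
    intro Y Y' h
    obtain ⟨X, hX1, hX2, hX3⟩ := kapS_ex M E B Y'
    rw [hX3]
    exact kapS_le M hX1 ((Finset.inter_subset_inter_right h).trans hX2)
  submod := by
    intro Y Y'
    obtain ⟨X, hX1, hX2, hX3⟩ := kapS_ex M E B Y
    obtain ⟨X', hX1', hX2', hX3'⟩ := kapS_ex M E B Y'
    have hXE : X ⊆ E := hX1.trans Finset.sdiff_subset
    have hXE' : X' ⊆ E := hX1'.trans Finset.sdiff_subset
    have hu : X ∪ X' ⊆ E \ B := Finset.union_subset hX1 hX1'
    have hi : X ∩ X' ⊆ E \ B := Finset.inter_subset_left.trans hX1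
    have h1 := kapS_le M (E := E) (B := B) (Y := Y ∪ Y') (X := X ∪ X') hu (by
      intro a
      have ha := @hX2 a
      have hb := @hX2' a
      simp only [Finset.mem_inter, Finset.mem_union] at ha hb ⊢
      tauto)
    have h2 := kapS_le M (E := E) (B := B) (Y := Y ∩ Y') (X := X ∩ X') hi (by
      intro a
      have ha := @hX2 a
      have hb := @hX2' a
      simp only [Finset.mem_inter] at ha hb ⊢
      tauto)
    have h3 := M.submod X X'
    have h4 := M.submod (E \ X) (E \ X')
    have h5 : (E \ X) ∪ (E \ X') = E \ (X ∩ X') := by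
      ext a; simp only [Finset.mem_union, Finset.mem_sdiff, Finset.mem_inter]; tauto
    have h6 : (E \ X) ∩ (E \ X') = E \ (X ∪ X') := by
      ext a; simp only [Finset.mem_union, Finset.mem_sdiff, Finset.mem_inter]; tauto
    rw [h5, h6] at h4
    have k1 := kapS_v_add M hXE
    have k2 := kapS_v_add M hXE'
    have k3 := kapS_v_add M (Finset.union_subset hXE hXE')
    have k4 := kapS_v_add M (E := E) (X := X ∩ X') (Finset.inter_subset_left.trans hXE)
    omega

/-- If the connectivity between `A` and `B` is at least `N` then some `S ⊆ A` with `N` elements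
has connectivity at least `N` to `B`.

Proof.  For `Y ⊆ E \ B` let `k(Y)` be the minimum of `M.r X + M.r (E \ X) - M.r E` over the sets
`X` in `(E \ B).powerset` with `Y ⊆ X` (nonempty set of values; `M.r E ≤ M.r X + M.r (E \ X)` by
`M.r_union_le`).  `k` is monotone (fewer `X`), `k(Y) ≤ Y.card` (take `X = Y`:
`M.r Y + M.r (E \ Y) - M.r E ≤ M.r Y ≤ Y.card`), and submodular: if `X`, `X'` are optimal for
`Y`, `Y'` then `X ∪ X'` and `X ∩ X'` are admissible for `Y ∪ Y'`, `Y ∩ Y'`, and by submodularity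
of `M.r` (for `X, X'` and for `E \ X, E \ X'`) the sum of the values does not increase.  So
`r Y := k (Y ∩ (E \ B))` defines a rank function `R : RF α`.  By assumption `R.r A ≥ N`, so
`R.exists_ind` gives `S ⊆ A` with `R.r S = S.card = N`, which says exactly the claim. -/
theorem exists_S (M : RF α) (E A B : Finset α) (hA : A ⊆ E) (hAB : Disjoint A B)
    (N : ℕ) (h : ∀ X, A ⊆ X → X ⊆ E → Disjoint X B → N + M.r E ≤ M.r X + M.r (E \ X)) :
    ∃ S ⊆ A, S.card = N ∧
      ∀ X, S ⊆ X → X ⊆ E → Disjoint X B → N + M.r E ≤ M.r X + M.r (E \ X) := by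
  have hN : N ≤ (kapS_R M E B).r A := by
    obtain ⟨X, hX1, hX2, hX3⟩ := kapS_ex M E B A
    have hAs : A ⊆ E \ B := by
      intro a ha
      rw [Finset.mem_sdiff]
      exact ⟨hA ha, fun hb => (Finset.disjoint_left.1 hAB) ha hb⟩
    rw [Finset.inter_eq_left.2 hAs] at hX2
    have hXE : X ⊆ E := hX1.trans Finset.sdiff_subset
    have hXB : Disjoint X B := by
      rw [Finset.disjoint_left]
      intro a ha hb
      exact (Finset.mem_sdiff.1 (hX1 ha)).2 hb
    have h1 := h X hX2 hXE hXB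
    have h2 := kapS_v_add M hXE
    show N ≤ kapS_k M E B A
    omega
  obtain ⟨S, hS1, hS2, hS3⟩ := (kapS_R M E B).exists_ind hN
  refine ⟨S, hS1, hS3, ?_⟩
  intro X hSX hXE hXB
  have hXs : X ⊆ E \ B := by
    intro a ha
    rw [Finset.mem_sdiff]
    exact ⟨hXE ha, fun hb => (Finset.disjoint_left.1 hXB) ha hb⟩
  have h1 := kapS_le M (E := E) (B := B) (Y := S) (X := X) hXs
    (Finset.inter_subset_left.trans hSX)
  have h2 := kapS_v_add M hXE
  have h3 : (kapS_R M E B).r S = kapS_k M E B S := rfl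
  omega

end Pool.Agent.H.MP_60a1a2_co
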