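import Pool.Agent.H.MP_60a1a2_co.ADefs
import Pool.Agent.H.MP_60a1a2_co.KapS
import Pool.Agent.H.MP_60a1a2_co.KLib

/-! # Part A: the initial state -/

set_option autoImplicit false

namespace Pool.Agent.H.MP_60a1a2_co

variable {α : Type*} [DecidableEq α]

/-- The initial state.

Proof.  Let `N = 4 * N1 ^ 2 + N1`.  `exists_S` (with `A = ed e1 V`, `B = ed e2 W`, `kap` and
`N ≤ n`) gives `S ⊆ ed e1 V`, `S.card = N`.  Choose for every `s ∈ S` vertices `i ≠ j` in `V` with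
`e1 i j = s`; let `V'` be the set of all these vertices: `V' ⊆ V`, `V'.card ≤ 2 * N`,
`S ⊆ ed e1 V'`.  Let `X = ed e1 V' ∪ C1`.  `M.r X = (M.con C1).r (ed e1 V') + M.r C1 ≤ 2 * N + c`
(`con_add`, `Tri.rank_le` or `le_card`; if `V' = ∅` then `ed e1 V' = ∅`).
State: `hX`, `hC`, `hE`, `cocl` are clear.  `kst`: let `K = (M.con C2).dual (ed e2 W)`, `X ⊆ A ⊆ E`,
`K.r (A ∩ ed e2 W) ≤ N1`.  `IsK.touched` gives `T`, `T.card ≤ 2 * N1`, `A ∩ ed e2 W ⊆ ed e2 T`, so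
`(A ∩ ed e2 W).card ≤ T.card * T.card ≤ 4 * N1 ^ 2` (`ed` is an image of `offDiag`).  Let
`A' = A \ ed e2 W`.  `S ⊆ A'` (`S ⊆ ed e1 V` is disjoint from `ed e2 W`), so
`N + M.r E ≤ M.r A' + M.r (E \ A')`, `M.r A' ≤ M.r A`, and `E \ A' ⊆ (E \ A) ∪ (A ∩ ed e2 W)`, so
`M.r (E \ A') ≤ M.r (E \ A) + 4 * N1 ^ 2`. -/
theorem initState {M : RF α} {E C1 C2 : Finset α} {e1 : ℕ → ℕ → α} {V : Finset ℕ}
    {e2 : ℕ → ℕ → α} {W : Finset ℕ} {n N1 c : ℕ} (h : Conf M E C1 C2 e1 V e2 W n)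
    (hn : 4 * N1 ^ 2 + N1 ≤ n) (hc : C1.card ≤ c) :
    ∃ V' ⊆ V, St M E (ed e1 V' ∪ C1) C2 e2 W N1 ∧
      M.r (ed e1 V' ∪ C1) ≤ 2 * (4 * N1 ^ 2 + N1) + c := by
  have hEV : ed e1 V ⊆ E := h.hE1.trans Finset.sdiff_subset
  obtain ⟨S, hS, hScard, hk⟩ := exists_S M E (ed e1 V) (ed e2 W) hEV h.dsj (4 * N1 ^ 2 + N1)
    (fun X h1 h2 h3 => by
      have := h.kap X h1 h2 h3
      omega)
  have hp0 : ∀ s, ∃ p : ℕ × ℕ, s ∈ S → p.1 ∈ V ∧ p.2 ∈ V ∧ p.1 ≠ p.2 ∧ e1 p.1 p.2 = s := by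
    intro s
    by_cases hs : s ∈ S
    · obtain ⟨i, hi, j, hj, hij, he⟩ := mem_ed.1 (hS hs)
      exact ⟨(i, j), fun _ => ⟨hi, hj, hij, he⟩⟩
    · exact ⟨(0, 0), fun h => absurd h hs⟩
  choose p hp using hp0
  set V' : Finset ℕ := S.image (fun s => (p s).1) ∪ S.image (fun s => (p s).2) with hV'
  have hV'V : V' ⊆ V := by
    intro i hi
    rw [hV', Finset.mem_union, Finset.mem_image, Finset.mem_image] at hi
    rcases hi with ⟨s, hs, rfl⟩ | ⟨s, hs, rfl⟩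
    · exact (hp s hs).1
    · exact (hp s hs).2.1
  have hV'card : V'.card ≤ 2 * (4 * N1 ^ 2 + N1) := by
    have h1 : V'.card ≤ (S.image (fun s => (p s).1)).card + (S.image (fun s => (p s).2)).card :=
      Finset.card_union_le _ _
    have h2 : (S.image (fun s => (p s).1)).card ≤ S.card := Finset.card_image_le
    have h3 : (S.image (fun s => (p s).2)).card ≤ S.card := Finset.card_image_le
    omega
  have hSV' : S ⊆ ed e1 V' := by
    intro s hs
    obtain ⟨h1, h2, h3, h4⟩ := hp s hs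
    rw [mem_ed]
    exact ⟨(p s).1, Finset.mem_union_left _ (Finset.mem_image_of_mem _ hs), (p s).2,
      Finset.mem_union_right _ (Finset.mem_image_of_mem _ hs), h3, h4⟩
  refine ⟨V', hV'V, ⟨?_, h.hC2, h.hE2, h.cocl, ?_⟩, ?_⟩
  · exact Finset.union_subset ((ed_mono hV'V).trans hEV) h.hC1
  · intro A hXA hAE hA
    obtain ⟨T, -, hTc, hTe⟩ := h.cocl.touched (Z := A ∩ ed e2 W) Finset.inter_subset_right
    have hc1 : (A ∩ ed e2 W).card ≤ 4 * N1 ^ 2 := by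
      have h1 : (A ∩ ed e2 W).card ≤ (ed e2 T).card := Finset.card_le_card hTe
      have h2 : (ed e2 T).card ≤ T.offDiag.card := Finset.card_image_le
      have h3 : T.offDiag.card ≤ T.card * T.card := by
        rw [Finset.offDiag_card]
        omega
      have h4 : T.card ≤ 2 * N1 := hTc.trans (Nat.mul_le_mul_left 2 hA)
      have h5 : T.card * T.card ≤ (2 * N1) * (2 * N1) := Nat.mul_le_mul h4 h4
      have h6 : (2 * N1) * (2 * N1) = 4 * N1 ^ 2 := by ring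
      omega
    have hSA : S ⊆ A \ ed e2 W := by
      intro s hs
      rw [Finset.mem_sdiff]
      exact ⟨hXA (Finset.mem_union_left _ (hSV' hs)), Finset.disjoint_left.1 h.dsj (hS hs)⟩
    have h1 := hk (A \ ed e2 W) hSA (Finset.sdiff_subset.trans hAE) Finset.sdiff_disjoint
    have h2 : M.r (A \ ed e2 W) ≤ M.r A := M.mono Finset.sdiff_subset
    have h3 : E \ (A \ ed e2 W) ⊆ (E \ A) ∪ (A ∩ ed e2 W) := by
      intro x
      simp only [Finset.mem_union, Finset.mem_sdiff, Finset.mem_inter]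
      tauto
    have h4 := (M.mono h3).trans (M.dual_aux _ _)
    omega
  · have h1 := M.con_add C1 (ed e1 V')
    have h2 := M.le_card C1
    have h3 : (M.con C1).r (ed e1 V') ≤ 2 * (4 * N1 ^ 2 + N1) := by
      rcases V'.eq_empty_or_nonempty with h0 | hne
      · rw [h0]
        have h4 : ed e1 (∅ : Finset ℕ) = ∅ := by simp [ed]
        rw [h4, RF.r_empty]
        omega
      · have h4 := (h.clq.tri.mono hV'V).rank_le (h.clq.isE.mono hV'V) hne
        omega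
    omega

end Pool.Agent.H.MP_60a1a2_co
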