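import Pool.Agent.H.MP_60a1a2_co.RamInf

/-! # Ramsey theorems for lexicographically increasing block sequences -/

set_option autoImplicit false

namespace Pool.Agent.H.MP_60a1a2_co

theorem RamLex_lex {j K : ℕ} (m n : Fin (j * K)) (h : m < n) :
    (finProdFinEquiv.symm m).1 < (finProdFinEquiv.symm n).1 ∨
      ((finProdFinEquiv.symm m).1 = (finProdFinEquiv.symm n).1 ∧
        (finProdFinEquiv.symm m).2 < (finProdFinEquiv.symm n).2) := by
  obtain ⟨⟨i, t⟩, rfl⟩ := finProdFinEquiv.surjective m
  obtain ⟨⟨i', t'⟩, rfl⟩ := finProdFinEquiv.surjective n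
  rw [Equiv.symm_apply_apply, Equiv.symm_apply_apply]
  have h1 : (t : ℕ) + K * i < t' + K * i' := h
  rcases lt_trichotomy i i' with h2 | h2 | h2
  · exact Or.inl h2
  · right
    refine ⟨h2, ?_⟩
    rw [h2] at h1
    have : (t : ℕ) < t' := by omega
    exact this
  · exfalso
    have h3 : (i' : ℕ) + 1 ≤ i := h2
    have h4 : K * ((i' : ℕ) + 1) ≤ K * i := Nat.mul_le_mul_left K h3
    have h5 := t'.isLt
    rw [mul_add, mul_one] at h4
    omega

theorem RamLex_one (j K : ℕ) (c : (Fin j → Fin K → ℕ) → Prop) (H : Set ℕ) (hH : H.Infinite) :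
    ∃ H' ⊆ H, H'.Infinite ∧
      ((∀ f : Fin j → Fin K → ℕ, LexInc f → (∀ i t, f i t ∈ H') → c f) ∨
      (∀ f : Fin j → Fin K → ℕ, LexInc f → (∀ i t, f i t ∈ H') → ¬ c f)) := by
  obtain ⟨H', hsub, hinf, hhom⟩ := ramsey_inf (j * K) (fun s => ∃ h : s.card = j * K,
    c (fun i t => s.orderEmbOfFin h (finProdFinEquiv (i, t)))) H hH
  have key : ∀ f : Fin j → Fin K → ℕ, LexInc f → (∀ i t, f i t ∈ H') →
      ∃ s : Finset ℕ, (s : Set ℕ) ⊆ H' ∧ s.card = j * K ∧
        ((∃ h : s.card = j * K, c (fun i t => s.orderEmbOfFin h (finProdFinEquiv (i, t)))) ↔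
          c f) := by
    intro f hf hfH
    have hmono : StrictMono fun n : Fin (j * K) =>
        f (finProdFinEquiv.symm n).1 (finProdFinEquiv.symm n).2 :=
      fun m n h => hf _ _ _ _ (RamLex_lex m n h)
    have hcard : (Finset.univ.image fun n : Fin (j * K) =>
        f (finProdFinEquiv.symm n).1 (finProdFinEquiv.symm n).2).card = j * K := by
      rw [Finset.card_image_of_injective _ hmono.injective, Finset.card_univ, Fintype.card_fin]
    refine ⟨Finset.univ.image fun n : Fin (j * K) =>
        f (finProdFinEquiv.symm n).1 (finProdFinEquiv.symm n).2, ?_, hcard, ?_⟩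
    · intro x hx
      rw [Finset.mem_coe, Finset.mem_image] at hx
      obtain ⟨n, _, rfl⟩ := hx
      exact hfH _ _
    · have huniq := Finset.orderEmbOfFin_unique hcard
        (f := fun n : Fin (j * K) => f (finProdFinEquiv.symm n).1 (finProdFinEquiv.symm n).2)
        (fun n => Finset.mem_image_of_mem _ (Finset.mem_univ n)) hmono
      have h1 : (fun i t => (Finset.univ.image fun n : Fin (j * K) =>
          f (finProdFinEquiv.symm n).1 (finProdFinEquiv.symm n).2).orderEmbOfFin hcard
            (finProdFinEquiv (i, t))) = f := by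
        funext i t
        have h2 := congrFun huniq (finProdFinEquiv (i, t))
        simp only [Equiv.symm_apply_apply] at h2
        exact h2.symm
      constructor
      · rintro ⟨h, hc⟩
        rw [h1] at hc
        exact hc
      · intro hc
        refine ⟨hcard, ?_⟩
        rw [h1]
        exact hc
  refine ⟨H', hsub, hinf, ?_⟩
  rcases hhom with h | h
  · left
    intro f hf hfH
    obtain ⟨s, h1, h2, h3⟩ := key f hf hfH
    exact h3.1 (h s h1 h2)
  · right
    intro f hf hfH hc
    obtain ⟨s, h1, h2, h3⟩ := key f hf hfH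
    exact h s h1 h2 (h3.2 hc)

/-- Infinite Ramsey theorem for block sequences.

Proof.  Induction on `J`.  For one `j` apply `ramsey_inf` with `r = j * K` to the colouring `c'` of
the finite sets `s`: `c' s` iff `∃ h : s.card = j * K`, `c j (fun i t => s.orderEmbOfFin h
(finProdFinEquiv (i, t)))`.  (`finProdFinEquiv (i, t)` is `t + K * i`, so it preserves the
lexicographic order.)  If `f` is `LexInc` with values in `H'` then
`g = fun n => f (finProdFinEquiv.symm n).1 (finProdFinEquiv.symm n).2` is strictly monotone on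
`Fin (j * K)`; with `s = univ.image g` (`j * K` elements) `Finset.orderEmbOfFin_unique` says that
`g` is the enumeration of `s`, so `c' s ↔ c j f`. -/
theorem ramsey_lex_inf (J K : ℕ) (c : (j : ℕ) → (Fin j → Fin K → ℕ) → Prop) :
    ∃ H : Set ℕ, H.Infinite ∧ ∀ j ≤ J,
      (∀ f : Fin j → Fin K → ℕ, LexInc f → (∀ i t, f i t ∈ H) → c j f) ∨
      (∀ f : Fin j → Fin K → ℕ, LexInc f → (∀ i t, f i t ∈ H) → ¬ c j f) := by
  induction J with
  | zero =>
    obtain ⟨H, -, hinf, hhom⟩ := RamLex_one 0 K (c 0) Set.univ Set.infinite_univ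
    refine ⟨H, hinf, fun j hj => ?_⟩
    obtain rfl : j = 0 := Nat.le_zero.1 hj
    exact hhom
  | succ J ih =>
    obtain ⟨H, hinf, hhom⟩ := ih
    obtain ⟨H', hsub, hinf', hhom'⟩ := RamLex_one (J + 1) K (c (J + 1)) H hinf
    refine ⟨H', hinf', fun j hj => ?_⟩
    rcases Nat.lt_or_eq_of_le hj with h | h
    · rcases hhom j (Nat.lt_succ_iff.1 h) with h1 | h1
      · left
        exact fun f hf hfH => h1 f hf fun i t => hsub (hfH i t)
      · right
        exact fun f hf hfH => h1 f hf fun i t => hsub (hfH i t)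
    · subst h
      exact hhom'

/-- Finite Ramsey theorem for block sequences.

Proof.  Suppose that for every `n` there are `c_n`, `W_n` with `n ≤ W_n.card` without a good `H`.
Let `w_n i` be the `i`-th element of `W_n` (`W_n.orderEmbOfFin`, or any strictly increasing
function on `{i | i < n}` with values in `W_n`).  Let `U = Filter.hyperfilter ℕ` and
`c j f` iff for `U`-almost all `n`, `c_n j (fun i t => w_n (f i t))`.  `ramsey_lex_inf` gives an
infinite `H∞`; let `S` be a subset of `H∞` with `m` elements (`Set.Infinite.exists_subset_card_eq`).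
There are finitely many pairs `(j, f)` with `j ≤ J` and values of `f` in `S`; for `U`-almost all `n`
we have for all these pairs `c_n j (w_n ∘ f) ↔ c j f` (ultrafilter: either the property or its
negation holds almost everywhere; finite intersection), and `n` is larger than all elements of `S`.
Take such an `n`: `H = S.image w_n` is good for `c_n` (a `LexInc` `f'` with values in `H` is
`w_n ∘ f` with `f` `LexInc`, values in `S`), a contradiction. -/
theorem ramsey_lex_fin (J K m : ℕ) : ∃ n : ℕ, ∀ (c : (j : ℕ) → (Fin j → Fin K → ℕ) → Prop)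
    (W : Finset ℕ), n ≤ W.card → ∃ H ⊆ W, H.card = m ∧ ∀ j ≤ J,
      (∀ f : Fin j → Fin K → ℕ, LexInc f → (∀ i t, f i t ∈ H) → c j f) ∨
      (∀ f : Fin j → Fin K → ℕ, LexInc f → (∀ i t, f i t ∈ H) → ¬ c j f) := by
  by_contra hcon
  have h : ∀ n : ℕ, ∃ (c : (j : ℕ) → (Fin j → Fin K → ℕ) → Prop) (W : Finset ℕ), n ≤ W.card ∧
      ¬ ∃ H ⊆ W, H.card = m ∧ ∀ j ≤ J,
      (∀ f : Fin j → Fin K → ℕ, LexInc f → (∀ i t, f i t ∈ H) → c j f) ∨
      (∀ f : Fin j → Fin K → ℕ, LexInc f → (∀ i t, f i t ∈ H) → ¬ c j f) := by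
    intro n
    by_contra h'
    apply hcon
    refine ⟨n, fun c W hW => ?_⟩
    by_contra h''
    exact h' ⟨c, W, hW, h''⟩
  choose c W hW hbad using h
  let w : ℕ → ℕ → ℕ := fun n i => if hi : i < (W n).card then (W n).orderEmbOfFin rfl ⟨i, hi⟩ else 0
  have hwW : ∀ n i, i < n → w n i ∈ W n := by
    intro n i hi
    have h1 : i < (W n).card := lt_of_lt_of_le hi (hW n)
    simp only [w, dif_pos h1]
    exact Finset.orderEmbOfFin_mem _ _ _
  have hwmono : ∀ n i i', i < i' → i' < n → w n i < w n i' := by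
    intro n i i' hii hi'
    have h1 : i' < (W n).card := lt_of_lt_of_le hi' (hW n)
    have h2 : i < (W n).card := hii.trans h1
    simp only [w, dif_pos h1, dif_pos h2]
    exact ((W n).orderEmbOfFin rfl).lt_iff_lt.2 hii
  let U : Ultrafilter ℕ := Filter.hyperfilter ℕ
  obtain ⟨H, hinf, hhom⟩ := ramsey_lex_inf J K
    (fun j f => ∀ᶠ n in (U : Filter ℕ), c n j (fun i t => w n (f i t)))
  obtain ⟨S, hSH, hSm⟩ := hinf.exists_subset_card_eq m
  have h1 : ∀ᶠ n in (U : Filter ℕ), ∀ j ∈ Set.Iic J, ∀ f : Fin j → Fin K → S,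
      (c n j (fun i t => w n (f i t)) ↔
        ∀ᶠ n in (U : Filter ℕ), c n j (fun i t => w n (f i t))) := by
    rw [Filter.eventually_all_finite (Set.finite_Iic J)]
    intro j _
    rw [Filter.eventually_all]
    intro f
    by_cases hf : ∀ᶠ n in (U : Filter ℕ), c n j (fun i t => w n (f i t))
    · filter_upwards [hf] with n hn
      exact iff_of_true hn hf
    · have hf2 := Ultrafilter.eventually_not.2 hf
      filter_upwards [hf2] with n hn
      exact iff_of_false hn hf
  have h2 : ∀ᶠ n in (U : Filter ℕ), ∀ s ∈ S, s < n := by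
    have h3 : ∀ᶠ n in Filter.atTop, S.sup id < n := Filter.eventually_gt_atTop _
    have h4 : ∀ᶠ n in (U : Filter ℕ), S.sup id < n := by
      apply Filter.Eventually.filter_mono _ h3
      rw [← Nat.cofinite_eq_atTop]
      exact Filter.hyperfilter_le_cofinite
    filter_upwards [h4] with n hn s hs
    exact lt_of_le_of_lt (Finset.le_sup (f := id) hs) hn
  obtain ⟨n, hn1, hn2⟩ := (h1.and h2).exists
  apply hbad n
  have hinj : Set.InjOn (w n) (S : Set ℕ) := by
    intro x hx y hy hxy
    rcases lt_trichotomy x y with h3 | h3 | h3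
    · exact absurd hxy (hwmono n x y h3 (hn2 y hy)).ne
    · exact h3
    · exact absurd hxy (hwmono n y x h3 (hn2 x hx)).ne'
  have hlift : ∀ (j : ℕ) (f' : Fin j → Fin K → ℕ), LexInc f' → (∀ i t, f' i t ∈ S.image (w n)) →
      ∃ f : Fin j → Fin K → S, LexInc (fun i t => (f i t : ℕ)) ∧
        (fun i t => w n (f i t)) = f' := by
    intro j f' hf' hfH
    have h3 : ∀ i t, ∃ s : S, w n s = f' i t := by
      intro i t
      obtain ⟨s, hs, hs2⟩ := Finset.mem_image.1 (hfH i t)
      exact ⟨⟨s, hs⟩, hs2⟩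
    choose f hf using h3
    refine ⟨f, ?_, funext fun i => funext fun t => hf i t⟩
    intro i i' t t' hlt
    have h4 := hf' i i' t t' hlt
    rw [← hf, ← hf] at h4
    by_contra h5
    have h5' : (f i' t' : ℕ) ≤ f i t := not_lt.1 h5
    rcases lt_or_eq_of_le h5' with h6 | h6
    · exact absurd h4 (lt_asymm (hwmono n _ _ h6 (hn2 _ (f i t).2)))
    · rw [h6] at h4
      exact absurd h4 (lt_irrefl _)
  refine ⟨S.image (w n), ?_, ?_, fun j hj => ?_⟩
  · intro x hx
    obtain ⟨s, hs, rfl⟩ := Finset.mem_image.1 hx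
    exact hwW n s (hn2 s hs)
  · rw [Finset.card_image_of_injOn hinj, hSm]
  · rcases hhom j hj with h3 | h3
    · left
      intro f' hf' hfH
      obtain ⟨f, hf1, hf2⟩ := hlift j f' hf' hfH
      rw [← hf2]
      exact (hn1 j hj f).2 (h3 _ hf1 fun i t => hSH (f i t).2)
    · right
      intro f' hf' hfH hc
      obtain ⟨f, hf1, hf2⟩ := hlift j f' hf' hfH
      rw [← hf2] at hc
      exact h3 _ hf1 (fun i t => hSH (f i t).2) ((hn1 j hj f).1 hc)

end Pool.Agent.H.MP_60a1a2_co
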