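import Pool.Agent.H.MP_60a1a2_co.TriA
import Pool.Agent.H.MP_60a1a2_co.RamLex

/-! # Triangles: a clique of the lift after a bounded contraction -/

set_option autoImplicit false

namespace Pool.Agent.H.MP_60a1a2_co

variable {α : Type*} [DecidableEq α]

/-- the edges on the image of `u` are the edges of the triangle -/
theorem trib_ed_subset {e : ℕ → ℕ → α} {W : Finset ℕ} (hE : IsE e W) (u : Fin 3 → ℕ)
    (hu : ∀ t, u t ∈ W) : ed e (Finset.univ.image u) ⊆ tri3 e u := by
  intro x hx
  obtain ⟨i, hi, j, hj, hij, rfl⟩ := mem_ed.1 hx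
  obtain ⟨s, _, rfl⟩ := Finset.mem_image.1 hi
  obtain ⟨t, _, rfl⟩ := Finset.mem_image.1 hj
  unfold tri3
  simp only [Finset.mem_insert, Finset.mem_singleton]
  fin_cases s <;> fin_cases t
  · exact absurd rfl hij
  · exact Or.inl rfl
  · exact Or.inr (Or.inr rfl)
  · exact Or.inl (hE.symm _ (hu 1) _ (hu 0))
  · exact absurd rfl hij
  · exact Or.inr (Or.inl rfl)
  · exact Or.inr (Or.inr (hE.symm _ (hu 2) _ (hu 0)))
  · exact Or.inr (Or.inl (hE.symm _ (hu 2) _ (hu 1)))
  · exact absurd rfl hij

theorem trib_tri3_card (e : ℕ → ℕ → α) (u : Fin 3 → ℕ) : (tri3 e u).card ≤ 3 :=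
  Finset.card_le_three

theorem trib_tris_card (e : ℕ → ℕ → α) {n : ℕ} (T : Fin n → Fin 3 → ℕ) (J : Finset (Fin n)) :
    (tris e T J).card ≤ 3 * J.card := by
  unfold tris
  rw [mul_comm]
  exact Finset.card_biUnion_le_card_mul _ _ _ (fun i _ => trib_tri3_card e (T i))

/-- an element of a triangle is an edge between different vertices of it -/
theorem trib_mem_tri3 {e : ℕ → ℕ → α} {u : Fin 3 → ℕ} (hu : Function.Injective u) {x : α}
    (hx : x ∈ tri3 e u) : ∃ s t : Fin 3, u s ≠ u t ∧ e (u s) (u t) = x := by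
  unfold tri3 at hx
  simp only [Finset.mem_insert, Finset.mem_singleton] at hx
  rcases hx with rfl | rfl | rfl
  · exact ⟨0, 1, fun h => absurd (hu h) (by decide), rfl⟩
  · exact ⟨1, 2, fun h => absurd (hu h) (by decide), rfl⟩
  · exact ⟨0, 2, fun h => absurd (hu h) (by decide), rfl⟩

theorem trib_mem_tris {e : ℕ → ℕ → α} {n : ℕ} {T : Fin n → Fin 3 → ℕ}
    (hinj : ∀ i i' t t', T i t = T i' t' → i = i' ∧ t = t') {J : Finset (Fin n)} {x : α}
    (hx : x ∈ tris e T J) : ∃ (i : Fin n) (s t : Fin 3), T i s ≠ T i t ∧ e (T i s) (T i t) = x := by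
  unfold tris at hx
  obtain ⟨i, _, hi⟩ := Finset.mem_biUnion.1 hx
  obtain ⟨s, t, h1, h2⟩ := trib_mem_tri3 (fun a b hab => (hinj i i a b hab).2) hi
  exact ⟨i, s, t, h1, h2⟩

theorem trib_tris_subset {e : ℕ → ℕ → α} {n : ℕ} {T : Fin n → Fin 3 → ℕ} {V : Finset ℕ}
    (hinj : ∀ i i' t t', T i t = T i' t' → i = i' ∧ t = t') (hV : ∀ i t, T i t ∈ V)
    (J : Finset (Fin n)) : tris e T J ⊆ ed e V := by
  intro x hx
  obtain ⟨i, s, t, h1, rfl⟩ := trib_mem_tris hinj hx
  exact ed_mem (hV i s) (hV i t) h1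

/-- If the triangles of `T` are independent in the lift `L` but become dependent when any triangle
on `W3` is added, then `L / (the triangles)` restricted to the edges of `W3` is a clique.

Proof.  Let `F = tris e T univ`, `L.r F = 3 * ρ`, `K.r F = 2 * ρ` (`tris_rank`).
`Tri` for `L.con F` on `W3`: let `i, j, k ∈ W3` be different.  By the symmetry of `e` the triangle
`{e i j, e j k, e i k}` is `tri3 e u` for the increasing enumeration `u` of `{i, j, k}`; by
assumption `L.r (F ∪ tri3 e u) ≤ 3 * ρ + 2`.  The increment of `K` from `F` to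
`F ∪ {e i j, e j k}` is 2 (`IsK.add_clique` for `U = {i, j, k}`, `{e i j, e j k}` spans
`ed e {i, j, k}` in `K`), so `L.r (F ∪ {e i j, e j k}) ≥ 3 * ρ + 2` by `Lift`.  So
`L.In (F ∪ {e i j, e j k}) (e i k)`, use `RF.con_in`.
Rank: `L.r (F ∪ ed e W3) ≥ L.r F + (K.r (F ∪ ed e W3) - K.r F)` (`Lift`)
`= L.r F + W3.card - 1` (`IsK.add_clique`), use `RF.con_add`. -/
theorem tri_clique {L K : RF α} {e : ℕ → ℕ → α} {W : Finset ℕ} (hK : IsK K e W)
    (hL : Lift L K e W) (ρ : ℕ) (T : Fin ρ → Fin 3 → ℕ) (W3 : Finset ℕ) (hW3 : W3 ⊆ W)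
    (hT : ∀ i t, T i t ∈ W \ W3) (hinj : ∀ i i' t t', T i t = T i' t' → i = i' ∧ t = t')
    (h1 : L.r (tris e T Finset.univ) = 3 * ρ)
    (h2 : ∀ u : Fin 3 → ℕ, StrictMono u → (∀ t, u t ∈ W3) →
      L.r (tris e T Finset.univ ∪ tri3 e u) < 3 * (ρ + 1)) :
    IsK (L.con (tris e T Finset.univ)) e W3 := by
  set F := tris e T Finset.univ with hF
  have hFW3 : F ⊆ ed e (W \ W3) := trib_tris_subset hinj hT _
  have hFW : F ⊆ ed e W := hFW3.trans (ed_mono Finset.sdiff_subset)
  refine ⟨hK.isE.mono hW3, ?_, ?_⟩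
  · intro i hi j hj k hk hij hjk hik
    rw [RF.con_in]
    set U : Finset ℕ := {i, j, k} with hU
    have hUW3 : U ⊆ W3 := by
      intro a ha
      simp only [hU, Finset.mem_insert, Finset.mem_singleton] at ha
      rcases ha with rfl | rfl | rfl <;> assumption
    have hUW : U ⊆ W := hUW3.trans hW3
    have hUcard : U.card = 3 := by
      rw [hU, Finset.card_eq_three]
      exact ⟨i, j, k, hij, hik, hjk, rfl⟩
    have hiU : i ∈ U := by simp [hU]
    have hjU : j ∈ U := by simp [hU]
    have hkU : k ∈ U := by simp [hU]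
    have hFU : F ⊆ ed e (W \ U) := hFW3.trans (ed_mono (Finset.sdiff_subset_sdiff (Finset.Subset.refl W) hUW3))
    have a1 := hK.add_clique hUW ⟨i, hiU⟩ hFU
    set A : Finset α := {e i j, e j k} with hA
    have hAU : A ⊆ ed e U := by
      intro x hx
      simp only [hA, Finset.mem_insert, Finset.mem_singleton] at hx
      rcases hx with rfl | rfl
      · exact ed_mem hiU hjU hij
      · exact ed_mem hjU hkU hjk
    have hspan : ∀ x ∈ ed e U, K.In A x := by
      apply (hK.tri.mono hUW).star_spans (hK.isE.mono hUW) hjU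
      intro l hl hlj
      simp only [hU, Finset.mem_insert, Finset.mem_singleton] at hl
      rcases hl with rfl | rfl | rfl
      · apply K.in_of_mem
        rw [hK.isE.symm j (hUW hjU) l (hUW hiU)]
        simp [hA]
      · exact absurd rfl hlj
      · apply K.in_of_mem
        simp [hA]
    have a2 : K.r (F ∪ ed e U) = K.r (A ∪ F) := by
      apply K.r_eq_of_in
      · intro x hx
        rcases Finset.mem_union.1 hx with h | h
        · exact Finset.mem_union_right _ (hAU h)
        · exact Finset.mem_union_left _ h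
      · intro x hx
        rcases Finset.mem_union.1 hx with h | h
        · exact K.in_of_mem (Finset.mem_union_right _ h)
        · exact K.in_mono (hspan x h) Finset.subset_union_left
    have a3 := hL F (A ∪ F) Finset.subset_union_right
      (Finset.union_subset (hAU.trans (ed_mono hUW)) hFW)
    have a4 : L.r (insert (e i k) (A ∪ F)) < 3 * (ρ + 1) := by
      set u := U.orderEmbOfFin hUcard with hu
      have b1 := h2 u u.strictMono (fun t => hUW3 (Finset.orderEmbOfFin_mem U hUcard t))
      refine lt_of_le_of_lt (L.mono ?_) b1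
      have b2 : ed e U ⊆ tri3 e u := by
        have := trib_ed_subset hK.isE u
          (fun t => hUW (Finset.orderEmbOfFin_mem U hUcard t))
        rwa [Finset.image_orderEmbOfFin_univ] at this
      intro x hx
      rcases Finset.mem_insert.1 hx with h | h
      · rw [h]
        exact Finset.mem_union_right _ (b2 (ed_mem hiU hkU hik))
      · rcases Finset.mem_union.1 h with h | h
        · exact Finset.mem_union_right _ (b2 (hAU h))
        · exact Finset.mem_union_left _ h
    have a5 : L.r (A ∪ F) ≤ L.r (insert (e i k) (A ∪ F)) := L.mono (Finset.subset_insert _ _)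
    unfold RF.In
    rw [hUcard] at a1
    omega
  · rcases W3.eq_empty_or_nonempty with h0 | h0
    · rw [h0]; simp
    · have a1 := hK.add_clique hW3 h0 hFW3
      have a2 := hL F (F ∪ ed e W3) Finset.subset_union_left
        (Finset.union_subset hFW (ed_mono hW3))
      have a3 := L.con_add F (ed e W3)
      rw [Finset.union_comm] at a3
      omega

/-- consecutive blocks of an enumeration -/
theorem trib_blocks {m' : ℕ} {H : Finset ℕ} (h : Fin m' → ℕ) (hmono : StrictMono h)
    (hH : ∀ i, h i ∈ H) (j : ℕ) (hj : 3 * j ≤ m') :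
    ∃ T : Fin j → Fin 3 → ℕ, LexInc T ∧ (∀ i t, T i t ∈ H) ∧
      ∀ i t, ∀ s : Fin m', 3 * j ≤ (s : ℕ) → T i t < h s := by
  refine ⟨fun i t => h ⟨3 * (i : ℕ) + (t : ℕ), by have := i.2; have := t.2; omega⟩,
    ?_, fun i t => hH _, ?_⟩
  · intro i i' t t' hlt
    apply hmono
    rw [Fin.lt_def]
    simp only
    have := t.2
    have := t'.2
    rcases hlt with h1 | ⟨h1, h2⟩
    · rw [Fin.lt_def] at h1; omega
    · rw [Fin.lt_def] at h2; rw [h1]; omega
  · intro i t s hs
    apply hmono
    rw [Fin.lt_def]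
    simp only
    have := i.2
    have := t.2
    omega

theorem trib_inj {j : ℕ} {T : Fin j → Fin 3 → ℕ} (h : LexInc T) :
    ∀ i i' t t', T i t = T i' t' → i = i' ∧ t = t' := by
  intro i i' t t' heq
  have h1 : i = i' := by
    by_contra hne
    rcases lt_or_gt_of_ne hne with hlt | hlt
    · exact absurd heq (h i i' t t' (Or.inl hlt)).ne
    · exact absurd heq (h i' i t' t (Or.inl hlt)).ne'
  refine ⟨h1, ?_⟩
  by_contra hne
  rcases lt_or_gt_of_ne hne with hlt | hlt
  · exact absurd heq (h i i' t t' (Or.inr ⟨h1, hlt⟩)).ne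
  · exact absurd heq (h i' i t' t (Or.inr ⟨h1.symm, hlt⟩)).ne'

theorem trib_sub {n j : ℕ} {T : Fin n → Fin 3 → ℕ} (h : LexInc T) {J : Finset (Fin n)}
    (hJ : J.card = j) (e : ℕ → ℕ → α) : LexInc (fun i => T (J.orderEmbOfFin hJ i)) ∧
      tris e T J = tris e (fun i => T (J.orderEmbOfFin hJ i)) Finset.univ := by
  constructor
  · intro i i' t t' hlt
    apply h
    rcases hlt with h1 | ⟨h1, h2⟩
    · exact Or.inl ((J.orderEmbOfFin hJ).strictMono h1)
    · exact Or.inr ⟨by rw [h1], h2⟩
  · unfold tris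
    conv_lhs => rw [← Finset.image_orderEmbOfFin_univ J hJ]
    rw [Finset.image_biUnion]

theorem trib_snoc {j : ℕ} {T : Fin j → Fin 3 → ℕ} (h : LexInc T) {u : Fin 3 → ℕ}
    (hu : StrictMono u) (hlt : ∀ i t s, T i t < u s) (e : ℕ → ℕ → α) :
    ∃ f : Fin (j + 1) → Fin 3 → ℕ, LexInc f ∧ (∀ i t, (∃ i', f i t = T i' t) ∨ f i t = u t) ∧
      tris e f Finset.univ = tris e T Finset.univ ∪ tri3 e u := by
  refine ⟨Fin.snoc T u, ?_, ?_, ?_⟩
  · intro i i' t t' hl
    induction i using Fin.lastCases with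
    | last =>
      induction i' using Fin.lastCases with
      | last =>
        rcases hl with h1 | ⟨_, h2⟩
        · exact absurd h1 (lt_irrefl _)
        · simp only [Fin.snoc_last]; exact hu h2
      | cast b =>
        exfalso
        rcases hl with h1 | ⟨h1, _⟩
        · exact absurd h1 (not_lt.2 (Fin.le_last _))
        · exact absurd h1.symm (Fin.castSucc_lt_last b).ne
    | cast a =>
      induction i' using Fin.lastCases with
      | last =>
        simp only [Fin.snoc_last, Fin.snoc_castSucc]; exact hlt a t t'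
      | cast b =>
        simp only [Fin.snoc_castSucc]
        apply h
        rcases hl with h1 | ⟨h1, h2⟩
        · exact Or.inl (Fin.castSucc_lt_castSucc_iff.1 h1)
        · exact Or.inr ⟨Fin.castSucc_injective _ h1, h2⟩
  · intro i t
    refine Fin.lastCases ?_ (fun a => ?_) i
    · right; simp
    · left; exact ⟨a, by simp⟩
  · ext x
    simp only [tris, Finset.mem_biUnion, Finset.mem_univ, true_and, Finset.mem_union]
    constructor
    · rintro ⟨i, hi⟩
      revert hi
      refine Fin.lastCases ?_ (fun a => ?_) i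
      · intro hi; right; simpa using hi
      · intro hi; left; exact ⟨a, by simpa using hi⟩
    · rintro (⟨a, ha⟩ | hx)
      · exact ⟨a.castSucc, by simpa using ha⟩
      · exact ⟨Fin.last j, by simpa using hx⟩

/-- Lifts of large cliques by a bounded amount have a uniform minor or become cliques after the
contraction of few elements.

Proof.  Apply `ramsey_lex_fin` with `J = y + 1`, block length `3`, size
`m' = 3 * (y + 1 + k) + m`, to the colouring: `c j f` iff `L.r (tris e f univ) = 3 * j`.  Get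
`H ⊆ W`, `H.card = m'`.  Say that `j ≤ y + 1` is good if the first alternative holds.  `0` is good.
`y + 1` is not good: there is a `LexInc` `f` with values in `H` (take the first `3 * (y + 1)`
elements of `H`), and `L.r (tris ..) ≤ K.r (tris ..) + y = 2 * (y + 1) + y < 3 * (y + 1)`
(`L.r X ≤ K.r X + y` for all `X ⊆ ed e W`, from `Lift` for `X ⊆ ed e W` and `hy`).
Let `ρ` be the largest number `≤ y + 1` such that `ρ` is good; then `ρ ≤ y`, `ρ + 1` is not good, so all
block sequences of length `ρ + 1` in `H` are dependent (`L.r < 3 * (ρ + 1)`, because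
`tris` has at most `3 * (ρ + 1)` elements).
If `k ≤ ρ`: let `T : Fin (ρ + k) → Fin 3 → ℕ` be the first `3 * (ρ + k)` elements of `H` in blocks;
apply `tri_unif` (for `J.card = ρ` use `f i = T (J.orderEmbOfFin _ i)`, which is `LexInc`, and
`tris e T J = tris e f univ`).
If `ρ < k`: `T` = the first `3 * ρ` elements of `H` in blocks, `W3` = the other elements of `H`
(at least `m`), `tri_clique`; for `u` increasing in `W3` the sequence `T` followed by `u` is
`LexInc`.  `F = tris e T univ`, `F.card ≤ 3 * ρ ≤ 3 * k`; `F` is disjoint from `ed e W3` because the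
vertices are different (`IsE.inj`). -/
theorem tri_ramsey.{u} (k y m : ℕ) : ∃ n : ℕ, ∀ {α : Type u} [DecidableEq α] (L K : RF α)
    (e : ℕ → ℕ → α) (W : Finset ℕ), IsK K e W → n ≤ W.card → Lift L K e W →
    L.r (ed e W) ≤ K.r (ed e W) + y →
    HasM L (ed e W) (unif k) ∨ ∃ (F : Finset α) (W3 : Finset ℕ), W3 ⊆ W ∧ m ≤ W3.card ∧
      F ⊆ ed e W ∧ Disjoint F (ed e W3) ∧ F.card ≤ 3 * k ∧ IsK (L.con F) e W3 := by
  obtain ⟨n, hn⟩ := ramsey_lex_fin (y + 1) 3 (3 * (y + 1 + k) + m)
  refine ⟨n, ?_⟩
  intro α _ L K e W hK hWn hL hy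
  obtain ⟨H, hHW, hHc, hH⟩ := hn (fun j f => L.r (tris e f Finset.univ) = 3 * j) W hWn
  set h := H.orderEmbOfFin hHc with hh
  have hmem : ∀ i, h i ∈ H := Finset.orderEmbOfFin_mem H hHc
  have hub : ∀ X ⊆ ed e W, L.r X ≤ K.r X + y := by
    intro X hX
    have := hL X (ed e W) hX (Finset.Subset.refl _)
    omega
  have htl : ∀ (j : ℕ) (f : Fin j → Fin 3 → ℕ), L.r (tris e f Finset.univ) ≤ 3 * j := by
    intro j f
    have h1 := L.le_card (tris e f Finset.univ)
    have h2 := trib_tris_card e f Finset.univ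
    rw [Finset.card_univ, Fintype.card_fin] at h2
    omega
  -- the good numbers
  let good : ℕ → Prop := fun j => ∀ f : Fin j → Fin 3 → ℕ, LexInc f → (∀ i t, f i t ∈ H) →
    L.r (tris e f Finset.univ) = 3 * j
  have hbad : ∀ j ≤ y + 1, ¬ good j → ∀ f : Fin j → Fin 3 → ℕ, LexInc f → (∀ i t, f i t ∈ H) →
      L.r (tris e f Finset.univ) < 3 * j := by
    intro j hj hng f hf hfH
    rcases hH j hj with h1 | h1
    · exact absurd h1 hng
    · have h2 := h1 f hf hfH
      have h3 := htl j f
      omega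
  have hg0 : good 0 := by
    intro f _ _
    have := htl 0 f
    omega
  have hgy : ¬ good (y + 1) := by
    intro hg
    obtain ⟨T, hT1, hT2, _⟩ := trib_blocks h h.strictMono hmem (y + 1) (by omega)
    have h1 := hg T hT1 hT2
    have hTW : ∀ i t, T i t ∈ W := fun i t => hHW (hT2 i t)
    have h2 := tris_rank hK T hTW (trib_inj hT1) Finset.univ
    have h3 := hub _ (trib_tris_subset (e := e) (trib_inj hT1) hTW Finset.univ)
    rw [Finset.card_univ, Fintype.card_fin] at h2
    omega
  obtain ⟨ρ, hρy, hρg, hρn⟩ : ∃ ρ ≤ y, good ρ ∧ ¬ good (ρ + 1) := by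
    by_contra hcon
    push Not at hcon
    have : ∀ j ≤ y + 1, good j := by
      intro j
      induction j with
      | zero => intro _; exact hg0
      | succ i ih => intro hi; exact hcon i (by omega) (ih (by omega))
    exact hgy (this _ le_rfl)
  have hρb := hbad (ρ + 1) (by omega) hρn
  by_cases hk : k ≤ ρ
  · left
    obtain ⟨T, hT1, hT2, _⟩ := trib_blocks h h.strictMono hmem (ρ + k) (by omega)
    refine tri_unif hK hL ρ k hk T (fun i t => hHW (hT2 i t)) (trib_inj hT1) ?_ ?_
    · intro J hJ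
      obtain ⟨a1, a2⟩ := trib_sub hT1 hJ e
      rw [a2]
      exact hρg _ a1 (fun i t => hT2 _ t)
    · intro J hJ
      obtain ⟨a1, a2⟩ := trib_sub hT1 hJ e
      rw [a2]
      exact hρb _ a1 (fun i t => hT2 _ t)
  · right
    push Not at hk
    obtain ⟨T, hT1, hT2, hT3⟩ := trib_blocks h h.strictMono hmem ρ (by omega)
    set W3 : Finset ℕ := (Finset.univ.filter (fun s : Fin (3 * (y + 1 + k) + m) =>
      3 * ρ ≤ (s : ℕ))).image h with hW3
    have hW3H : W3 ⊆ H := by
      intro x hx
      obtain ⟨s, _, rfl⟩ := Finset.mem_image.1 hx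
      exact hmem s
    have hlt : ∀ i t, ∀ w ∈ W3, T i t < w := by
      intro i t w hw
      obtain ⟨s, hs, rfl⟩ := Finset.mem_image.1 hw
      exact hT3 i t s (Finset.mem_filter.1 hs).2
    have hTW3 : ∀ i t, T i t ∈ W \ W3 := fun i t =>
      Finset.mem_sdiff.2 ⟨hHW (hT2 i t), fun hc => lt_irrefl _ (hlt i t _ hc)⟩
    have hcard : m ≤ W3.card := by
      rw [hW3, Finset.card_image_of_injective _ h.injective]
      have : (Finset.univ.image (fun i : Fin m =>
          (⟨3 * ρ + (i : ℕ), by have := i.2; omega⟩ : Fin (3 * (y + 1 + k) + m)))).card = m := by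
        rw [Finset.card_image_of_injective, Finset.card_univ, Fintype.card_fin]
        intro a b hab
        simp only [Fin.mk.injEq] at hab
        exact Fin.ext (by omega)
      refine this.symm.le.trans (Finset.card_le_card ?_)
      intro x hx
      obtain ⟨i, _, rfl⟩ := Finset.mem_image.1 hx
      simp
    have hTWW : ∀ i t, T i t ∈ W := fun i t => hHW (hT2 i t)
    refine ⟨tris e T Finset.univ, W3, hW3H.trans hHW, hcard,
      trib_tris_subset (trib_inj hT1) hTWW _, ?_, ?_, ?_⟩
    · rw [Finset.disjoint_left]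
      intro x hx hx3
      obtain ⟨i, s, t, hne, rfl⟩ := trib_mem_tris (trib_inj hT1) hx
      obtain ⟨a, ha, b, hb, hab, heq⟩ := mem_ed.1 hx3
      rcases hK.isE.inj a (hHW (hW3H ha)) b (hHW (hW3H hb)) _ (hTWW i s) _ (hTWW i t) hab hne
        heq with h1 | h1
      · exact (Finset.mem_sdiff.1 (hTW3 i s)).2 (h1.1 ▸ ha)
      · exact (Finset.mem_sdiff.1 (hTW3 i t)).2 (h1.1 ▸ ha)
    · have := trib_tris_card e T Finset.univ
      rw [Finset.card_univ, Fintype.card_fin] at this
      omega
    · refine tri_clique hK hL ρ T W3 (hW3H.trans hHW) hTW3 (trib_inj hT1) (hρg T hT1 hT2) ?_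
      intro u hu huW
      obtain ⟨f, hf1, hf2, hf3⟩ := trib_snoc hT1 hu (fun i t s => hlt i t _ (huW s)) e
      rw [← hf3]
      apply hρb f hf1
      intro i t
      rcases hf2 i t with ⟨i', hi'⟩ | hi'
      · rw [hi']; exact hT2 i' t
      · rw [hi']; exact hW3H (huW t)

end Pool.Agent.H.MP_60a1a2_co
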