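import Pool.Agent.H.MP_60a1a2_co.ADefs
import Pool.Agent.H.MP_60a1a2_co.TriB

/-! # Part A: the clique of the lift -/

set_option autoImplicit false

namespace Pool.Agent.H.MP_60a1a2_co

/-- A set `A` which contains everything except edges, with bounded connectivity, which meets the
edges in a set of small rank: the dual of `M` on the other edges is a bounded lift of a clique.

Proof.  `n` = `2 * N + n0` with `n0` from `tri_ramsey k y m`.  Let
`K = (M.con C2).dual (ed e2 W)`, `Y0 = A ∩ ed e2 W`.  `IsK.touched` gives `T ⊆ W`,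
`T.card ≤ 2 * N`, `Y0 ⊆ ed e2 T`.  Let `W1 = W \ T`, `W1.card ≥ n0`; `ed e2 W1` is disjoint from
`A` (an element would be `e2 i j` with `i, j ∈ W1` and `e2 i' j'` with `i', j' ∈ T`, contradicting
`IsE.inj`).  Let `L = M.dual E`, `D = (E \ C2) \ ed e2 W`; `D ⊆ A` because `E \ ed e2 W ⊆ A`.  For
`X ⊆ ed e2 W`: `K.r X = (L.con D).r X` (`RF.dual_con`), so `K.r X + L.r D = L.r (X ∪ D)`.
`Lift L K e2 W1`: for `X ⊆ Y`: `RF.incr` (`X ⊆ X ∪ D`, `U = Y`).
Bound: for `Y = ed e2 W1`: `L.r Y + L.r D ≤ L.r (Y ∪ D) + y`.  First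
`L.r A + L.r (E \ A) ≤ L.r E + y` (`dual_add` for `A`, `E \ A`, `E`, and `hc`).  Then by
submodularity `L.r Y + L.r A ≥ ...`: `L.r (Y ∪ A) + L.r (E \ A) ≥ L.r E + L.r Y`
(union `E`, intersection `Y`, as `Y ⊆ E \ A`), `L.r (Y ∪ D) + L.r A ≥ L.r (Y ∪ A) + L.r D`
(intersection `D`, as `D ⊆ A`, `Y` is disjoint from `A`); add the three inequalities.
Apply `tri_ramsey` to `L`, `K`, `W1` (`IsK.sub`).  In the first case `HasM.unif_dual` (with
`G = ed e2 W1 ⊆ E`). -/
theorem midStep.{u} (N y k m : ℕ) : ∃ n : ℕ, ∀ {α : Type u} [DecidableEq α] (M : RF α)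
    (E C2 A : Finset α) (e2 : ℕ → ℕ → α) (W : Finset ℕ), C2 ⊆ E → ed e2 W ⊆ E \ C2 →
    IsK ((M.con C2).dual (ed e2 W)) e2 W → n ≤ W.card → A ⊆ E → E \ ed e2 W ⊆ A →
    ((M.con C2).dual (ed e2 W)).r (A ∩ ed e2 W) ≤ N →
    M.r A + M.r (E \ A) ≤ y + M.r E →
    HasM M E (unif k) ∨ ∃ (F : Finset α) (W3 : Finset ℕ), W3 ⊆ W ∧ m ≤ W3.card ∧
      F ⊆ ed e2 W ∧ Disjoint F (ed e2 W3) ∧ Disjoint A F ∧ Disjoint A (ed e2 W3) ∧
      F.card ≤ 3 * k ∧ IsK ((M.dual E).con F) e2 W3 := by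
  obtain ⟨n0, hn0⟩ := tri_ramsey k y m
  refine ⟨2 * N + n0, ?_⟩
  intro α _ M E C2 A e2 W hC2 hE2 hK hW hA hEA hN hc
  set K := (M.con C2).dual (ed e2 W) with hKdef
  obtain ⟨T, hTW, hTc, hT⟩ := hK.touched (Z := A ∩ ed e2 W) Finset.inter_subset_right
  set W1 := W \ T with hW1
  have hW1W : W1 ⊆ W := Finset.sdiff_subset
  have hW1c : n0 ≤ W1.card := by
    have := Finset.card_sdiff_add_card_eq_card hTW
    rw [← hW1] at this
    omega
  have hEW : ed e2 W ⊆ E := hE2.trans Finset.sdiff_subset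
  have hYW : ed e2 W1 ⊆ ed e2 W := ed_mono hW1W
  have hdis : Disjoint A (ed e2 W1) := by
    rw [Finset.disjoint_left]
    intro x hxA hx
    have hx2 := hT (Finset.mem_inter.2 ⟨hxA, hYW hx⟩)
    obtain ⟨i, hi, j, hj, hij, rfl⟩ := mem_ed.1 hx
    obtain ⟨i', hi', j', hj', hij', heq⟩ := mem_ed.1 hx2
    rcases hK.isE.inj i' (hTW hi') j' (hTW hj') i (hW1W hi) j (hW1W hj) hij' hij heq with h1 | h1
    · exact (Finset.mem_sdiff.1 hi).2 (h1.1 ▸ hi')
    · exact (Finset.mem_sdiff.1 hj).2 (h1.1 ▸ hi')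
  set L := M.dual E with hL
  set D := (E \ C2) \ ed e2 W with hD
  have hDA : D ⊆ A := by
    intro x hx
    simp only [hD, Finset.mem_sdiff] at hx
    exact hEA (Finset.mem_sdiff.2 ⟨hx.1.1, hx.2⟩)
  have hKL : ∀ X ⊆ ed e2 W, K.r X + L.r D = L.r (X ∪ D) := by
    intro X hX
    have h1 := M.dual_con hC2 hE2 hX
    have h2 := L.con_add D X
    rw [← hKdef] at h1
    rw [h1]
    exact h2
  have hlift : Lift L K e2 W1 := by
    intro X Y hXY hY
    have hYW' := hY.trans hYW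
    have h1 := L.incr (X := X) (Y := X ∪ D) Finset.subset_union_left Y
    have h2 : (X ∪ D) ∪ Y = Y ∪ D := by
      ext a
      simp only [Finset.mem_union]
      have := @hXY a
      tauto
    rw [h2, Finset.union_eq_right.2 hXY] at h1
    have h3 := hKL X (hXY.trans hYW')
    have h4 := hKL Y hYW'
    omega
  set Y := ed e2 W1 with hY
  have hYE : Y ⊆ E := hYW.trans hEW
  have hdis' : ∀ x, x ∈ A → x ∉ Y := fun x hx hxY => (Finset.disjoint_left.1 hdis) hx hxY
  have hbd : L.r Y ≤ K.r Y + y := by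
    have a1 := M.dual_add hA
    have a2 := M.dual_add (E := E) (X := E \ A) Finset.sdiff_subset
    have a3 := M.dual_add (Finset.Subset.refl E)
    rw [Finset.sdiff_sdiff_eq_self hA] at a2
    rw [Finset.sdiff_self, M.r_empty] at a3
    have a4 := Finset.card_sdiff_add_card_eq_card hA
    rw [← hL] at a1 a2 a3
    have b1 := L.submod (Y ∪ A) (E \ A)
    have b2 : (Y ∪ A) ∪ (E \ A) = E := by
      ext a
      simp only [Finset.mem_union, Finset.mem_sdiff]
      have := @hYE a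
      have := @hA a
      tauto
    have b3 : (Y ∪ A) ∩ (E \ A) = Y := by
      ext a
      simp only [Finset.mem_union, Finset.mem_sdiff, Finset.mem_inter]
      have := @hYE a
      have := hdis' a
      tauto
    rw [b2, b3] at b1
    have c1 := L.submod (Y ∪ D) A
    have c2 : (Y ∪ D) ∪ A = Y ∪ A := by
      ext a
      simp only [Finset.mem_union]
      have := @hDA a
      tauto
    have c3 : (Y ∪ D) ∩ A = D := by
      ext a
      simp only [Finset.mem_union, Finset.mem_inter]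
      have := @hDA a
      have := hdis' a
      tauto
    rw [c2, c3] at c1
    have d1 := hKL Y hYW
    omega
  rcases hn0 L K e2 W1 (hK.sub hW1W) hW1c hlift hbd with h | ⟨F, W3, h1, h2, h3, h4, h5, h6⟩
  · exact Or.inl (HasM.unif_dual hYE h)
  · right
    exact ⟨F, W3, h1.trans hW1W, h2, h3.trans hYW, h4, Finset.disjoint_of_subset_right h3 hdis,
      Finset.disjoint_of_subset_right (ed_mono h1) hdis, h5, h6⟩

end Pool.Agent.H.MP_60a1a2_co
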