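import Pool.Agent.H.MP_60a1a2_co.Defs

/-! # Additive systems: basic lemmas -/

set_option autoImplicit false

namespace Pool.Agent.H.MP_60a1a2_co

variable {β : Type} [DecidableEq β] {P : β → Prop} {K : ℕ} {g : Finset (Finset β) → ℕ}

theorem DF.subset {F G : Finset (Finset β)} (h : DF P G) (hF : F ⊆ G) : DF P F :=
  ⟨fun A hA => h.1 A (hF hA), fun A hA B hB => h.2 A (hF hA) B (hF hB)⟩

theorem DF.empty : DF P (∅ : Finset (Finset β)) := by
  constructor
  · intro A hA; simp at hA
  · intro A hA; simp at hA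

theorem DF.insert_iff {F : Finset (Finset β)} {A : Finset β} :
    DF P (insert A F) ↔ DF P F ∧ A.Nonempty ∧ (∀ x ∈ A, P x) ∧ ∀ B ∈ F, A ≠ B → Disjoint A B := by
  constructor
  · intro h
    have hA := h.1 A (Finset.mem_insert_self A F)
    exact ⟨h.subset (Finset.subset_insert A F), hA.1, hA.2, fun B hB hAB =>
      h.2 A (Finset.mem_insert_self A F) B (Finset.mem_insert_of_mem hB) hAB⟩
  · rintro ⟨h1, h2, h3, h4⟩
    constructor
    · intro B hB
      rw [Finset.mem_insert] at hB
      rcases hB with rfl | hB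
      · exact ⟨h2, h3⟩
      · exact h1.1 B hB
    · intro B hB C hC hBC
      rw [Finset.mem_insert] at hB hC
      rcases hB with rfl | hB
      · rcases hC with rfl | hC
        · exact absurd rfl hBC
        · exact h4 C hC hBC
      · rcases hC with rfl | hC
        · exact (h4 B hB (Ne.symm hBC)).symm
        · exact h1.2 B hB C hC hBC

theorem ASLib_mono_union (h : AS P K g) (F H : Finset (Finset β)) (hH : DF P (F ∪ H)) :
    g F ≤ g (F ∪ H) ∧ g (F ∪ H) ≤ g F + H.card := by
  induction H using Finset.induction_on with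
  | empty => simp
  | insert A H hA ih =>
    rw [Finset.union_insert] at hH ⊢
    have h1 := ih (hH.subset (Finset.subset_insert _ _))
    have h2 := h.mono A (F ∪ H) hH
    have h3 := h.unit A (F ∪ H) hH
    rw [Finset.card_insert_of_notMem hA]
    omega

/-- monotonicity (induction on `G \ F`) -/
theorem AS.mono' (h : AS P K g) {F G : Finset (Finset β)} (hG : DF P G) (hF : F ⊆ G) :
    g F ≤ g G := by
  have h1 : F ∪ (G \ F) = G := Finset.union_sdiff_of_subset hF
  have h2 := ASLib_mono_union h F (G \ F) (by rw [h1]; exact hG)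
  rw [h1] at h2
  exact h2.1

/-- the rank grows by at most the number of new sets (induction on `G \ F`) -/
theorem AS.unit' (h : AS P K g) {F G : Finset (Finset β)} (hG : DF P G) (hF : F ⊆ G) :
    g G ≤ g F + (G \ F).card := by
  have h1 : F ∪ (G \ F) = G := Finset.union_sdiff_of_subset hF
  have h2 := ASLib_mono_union h F (G \ F) (by rw [h1]; exact hG)
  rw [h1] at h2
  exact h2.2

theorem ASLib_zmono_union (h : AS P K g) (F H : Finset (Finset β)) (A : Finset β)
    (hA : g (insert A F) = g F) (hG : DF P (insert A (F ∪ H))) (hAG : A ∉ F ∪ H) :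
    g (insert A (F ∪ H)) = g (F ∪ H) := by
  induction H using Finset.induction_on with
  | empty => simpa using hA
  | insert B H hB ih =>
    rw [Finset.union_insert] at hG hAG ⊢
    have h0 : insert A (F ∪ H) ⊆ insert A (insert B (F ∪ H)) :=
      Finset.insert_subset_insert _ (Finset.subset_insert _ _)
    have h1 := ih (hG.subset h0) (fun h2 => hAG (Finset.mem_insert_of_mem h2))
    by_cases hBF : B ∈ F ∪ H
    · rw [Finset.insert_eq_of_mem hBF]
      exact h1
    · have hAB : A ≠ B := by
        intro h2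
        apply hAG
        rw [h2]
        exact Finset.mem_insert_self _ _
      have hAF : A ∉ F ∪ H := fun h2 => hAG (Finset.mem_insert_of_mem h2)
      have h3 := h.sub A B (F ∪ H) hG hAF hBF hAB
      have h4 := h.mono A (insert B (F ∪ H)) hG
      omega

/-- Monotonicity of the closure.

Proof.  Induction on `G \ F` (insert one set `B` at a time, `B ≠ A`, `B ∉ F`): by `h.sub A B F`,
`g (insert A (insert B F)) + g F ≤ g (insert A F) + g (insert B F) = g F + g (insert B F)`, so
`g (insert A (insert B F)) ≤ g (insert B F)`; the other inequality is `h.mono`. -/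
theorem AS.zmono (h : AS P K g) {F G : Finset (Finset β)} {A : Finset β} (hA : Z P g F A)
    (hF : F ⊆ G) (hG : DF P (insert A G)) (hAG : A ∉ G) : Z P g G A := by
  refine ⟨hG, hAG, ?_⟩
  have h1 : F ∪ (G \ F) = G := Finset.union_sdiff_of_subset hF
  have h2 := ASLib_zmono_union h F (G \ F) A hA.2.2 (by rw [h1]; exact hG) (by rw [h1]; exact hAG)
  rw [h1] at h2
  exact h2

theorem ASLib_not_self_disj {A : Finset β} (hA : A.Nonempty) (h : Disjoint A A) : False := by
  rw [disjoint_self] at h
  exact hA.ne_empty h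

/-- Disjoint unions.

Proof.  `A ≠ B` (nonempty, disjoint).  By `sub`, `g (insert A (insert B F)) ≤ g F`, by `mrg`
`g (insert (A ∪ B) F) ≤ g (insert A (insert B F)) ≤ g F`, and `mono`.  `A ∪ B ∉ F` because the
members of `F` are disjoint from `A` (or equal to `A`, excluded). -/
theorem AS.zunion (h : AS P K g) {F : Finset (Finset β)} {A B : Finset β} (hA : Z P g F A)
    (hB : Z P g F B) (hAB : Disjoint A B) : Z P g F (A ∪ B) := by
  obtain ⟨hA1, hA2, hA3⟩ := hA
  obtain ⟨hB1, hB2, hB3⟩ := hB
  have a1 := DF.insert_iff.1 hA1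
  have b1 := DF.insert_iff.1 hB1
  have hne : A ≠ B := by
    rintro rfl
    exact ASLib_not_self_disj a1.2.1 hAB
  have hDF : DF P (insert A (insert B F)) := by
    rw [DF.insert_iff]
    refine ⟨hB1, a1.2.1, a1.2.2.1, ?_⟩
    intro C hC hAC
    rw [Finset.mem_insert] at hC
    rcases hC with rfl | hC
    · exact hAB
    · exact a1.2.2.2 C hC hAC
  have hnot : A ∪ B ∉ F := by
    intro hm
    have hne2 : A ≠ A ∪ B := by
      intro h2
      apply hA2
      rw [h2]
      exact hm
    have h3 := a1.2.2.2 _ hm hne2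
    exact ASLib_not_self_disj a1.2.1 (Finset.disjoint_of_subset_right Finset.subset_union_left h3)
  have hDU : DF P (insert (A ∪ B) F) := by
    rw [DF.insert_iff]
    refine ⟨a1.1, a1.2.1.mono Finset.subset_union_left, ?_, ?_⟩
    · intro x hx
      rw [Finset.mem_union] at hx
      rcases hx with hx | hx
      · exact a1.2.2.1 x hx
      · exact b1.2.2.1 x hx
    · intro C hC _
      rw [Finset.disjoint_union_left]
      exact ⟨a1.2.2.2 C hC (fun h2 => hA2 (h2 ▸ hC)), b1.2.2.2 C hC (fun h2 => hB2 (h2 ▸ hC))⟩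
  refine ⟨hDU, hnot, ?_⟩
  have h1 := h.sub A B F hDF hA2 hB2 hne
  have h2 := h.mrg A B F hDF hA2 hB2 hne
  have h3 := h.mono (A ∪ B) F hDU
  omega

theorem ASLib_split {F : Finset (Finset β)} {A B : Finset β}
    (hAB : DF P (insert (A ∪ B) F)) (hn : A ∪ B ∉ F) (hd : Disjoint A B) (hA : A.Nonempty)
    (hB : B.Nonempty) : DF P (insert A (insert B F)) ∧ A ∉ F ∧ B ∉ F ∧ A ≠ B := by
  have a1 := DF.insert_iff.1 hAB
  have hd2 : ∀ C ∈ F, Disjoint (A ∪ B) C := fun C hC =>
    a1.2.2.2 C hC (fun h2 => hn (h2 ▸ hC))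
  have hne : A ≠ B := by
    rintro rfl
    exact ASLib_not_self_disj hA hd
  have hAF : A ∉ F := by
    intro hm
    exact ASLib_not_self_disj hA
      (Finset.disjoint_of_subset_left Finset.subset_union_left (hd2 A hm))
  have hBF : B ∉ F := by
    intro hm
    exact ASLib_not_self_disj hB
      (Finset.disjoint_of_subset_left Finset.subset_union_right (hd2 B hm))
  refine ⟨?_, hAF, hBF, hne⟩
  rw [DF.insert_iff, DF.insert_iff]
  refine ⟨⟨a1.1, hB, fun x hx => a1.2.2.1 x (Finset.mem_union_right _ hx), fun C hC _ =>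
    Finset.disjoint_of_subset_left Finset.subset_union_right (hd2 C hC)⟩, hA,
    fun x hx => a1.2.2.1 x (Finset.mem_union_left _ hx), ?_⟩
  intro C hC _
  rw [Finset.mem_insert] at hC
  rcases hC with rfl | hC
  · exact hd
  · exact Finset.disjoint_of_subset_left Finset.subset_union_left (hd2 C hC)

/-- Moving a set into the family.

Proof.  By `spl`: `g (insert A (insert B F)) + g F ≤ g (insert A F) + g (insert (A ∪ B) F)
= g (insert A F) + g F`, so `g (insert B (insert A F)) ≤ g (insert A F)`. -/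
theorem AS.zmove (h : AS P K g) {F : Finset (Finset β)} {A B : Finset β}
    (hAB : Z P g F (A ∪ B)) (hd : Disjoint A B) (hA : A.Nonempty) (hB : B.Nonempty) :
    Z P g (insert A F) B := by
  obtain ⟨h1, h2, h3⟩ := hAB
  obtain ⟨h4, h5, h6, h7⟩ := ASLib_split h1 h2 hd hA hB
  have h8 := h.spl A B F h4 h5 h6 h7
  have h9 : insert B (insert A F) = insert A (insert B F) := Finset.insert_comm _ _ _
  have h10 := h.mono B (insert A F) (by rw [h9]; exact h4)
  refine ⟨by rw [h9]; exact h4, ?_, ?_⟩
  · rw [Finset.mem_insert]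
    rintro (h11 | h11)
    · exact h7 h11.symm
    · exact h6 h11
  · rw [h9] at h10 ⊢
    omega

/-- Differences.

Proof.  By `zmove` `g (insert B (insert A F)) = g (insert A F) = g F`, and
`g F ≤ g (insert B F) ≤ g (insert A (insert B F))`. -/
theorem AS.zdiff (h : AS P K g) {F : Finset (Finset β)} {A B : Finset β} (hA : Z P g F A)
    (hAB : Z P g F (A ∪ B)) (hd : Disjoint A B) (hB : B.Nonempty) : Z P g F B := by
  have hAn : A.Nonempty := (DF.insert_iff.1 hA.1).2.1
  have h0 := h.zmove hAB hd hAn hB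
  obtain ⟨h1, h2, h3⟩ := hAB
  obtain ⟨h4, h5, h6, h7⟩ := ASLib_split h1 h2 hd hAn hB
  have h8 : DF P (insert B F) := h4.subset (Finset.subset_insert _ _)
  refine ⟨h8, h6, ?_⟩
  have h9 := h0.2.2
  have h10 := hA.2.2
  have h11 := h.mono B F h8
  have h12 := h.mono A (insert B F) h4
  have h13 : insert B (insert A F) = insert A (insert B F) := Finset.insert_comm _ _ _
  rw [h13] at h9
  omega

/-- Adding sets in the closure does not change the rank (induction on `G`, `zmono`). -/
theorem AS.zfam (h : AS P K g) {F G : Finset (Finset β)} (hFG : DF P (F ∪ G))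
    (hG : ∀ A ∈ G, A ∈ F ∨ Z P g F A) : g (F ∪ G) = g F := by
  induction G using Finset.induction_on with
  | empty => simp
  | insert A G hA ih =>
    rw [Finset.union_insert] at hFG ⊢
    have h1 := ih (hFG.subset (Finset.subset_insert _ _))
      (fun B hB => hG B (Finset.mem_insert_of_mem hB))
    by_cases hAF : A ∈ F ∪ G
    · rw [Finset.insert_eq_of_mem hAF]
      exact h1
    · have h2 : Z P g F A := by
        rcases hG A (Finset.mem_insert_self _ _) with h3 | h3
        · exact absurd (Finset.mem_union_left _ h3) hAF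
        · exact h3
      have h3 := h.zmono h2 Finset.subset_union_left hFG hAF
      rw [h3.2.2, h1]

/-- Transitivity of the closure.

Proof.  `g (insert B (F ∪ G)) = g (F ∪ G) = g F` (`zfam`), and
`g F ≤ g (insert B F) ≤ g (insert B (F ∪ G))`. -/
theorem AS.ztrans (h : AS P K g) {F G : Finset (Finset β)} {B : Finset β}
    (hG : ∀ A ∈ G, A ∈ F ∨ Z P g F A) (hB : Z P g (F ∪ G) B) : Z P g F B := by
  obtain ⟨h1, h2, h3⟩ := hB
  have h4 := h.zfam (h1.subset (Finset.subset_insert _ _)) hG
  have h5 : insert B F ⊆ insert B (F ∪ G) :=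
    Finset.insert_subset_insert _ Finset.subset_union_left
  have h6 := h.mono' h1 h5
  have h7 : DF P (insert B F) := h1.subset h5
  have h8 := h.mono B F h7
  refine ⟨h7, fun h9 => h2 (Finset.mem_union_left _ h9), ?_⟩
  omega

/-- Exchange.

Proof.  `B ∉ F`, and `B ∉ insert A F`.  `g (insert B F) = g F + 1` (not in the closure, `unit`,
`mono`), `g (insert A F) ≤ g F + 1`, so `g (insert A (insert B F)) = g (insert A F) ≤
g (insert B F)`, and `mono`. -/
theorem AS.zswap (h : AS P K g) {F : Finset (Finset β)} {A B : Finset β}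
    (hAF : A ∉ F) (hB : Z P g (insert A F) B) (hn : ¬ Z P g F B) : Z P g (insert B F) A := by
  obtain ⟨h1, h2, h3⟩ := hB
  have h4 : insert B (insert A F) = insert A (insert B F) := Finset.insert_comm _ _ _
  have h1' := h1
  rw [h4] at h1' h3
  have hBF : B ∉ F := fun h5 => h2 (Finset.mem_insert_of_mem h5)
  have hDB : DF P (insert B F) := h1'.subset (Finset.subset_insert _ _)
  have hDA : DF P (insert A F) := h1.subset (Finset.subset_insert _ _)
  have h5 := h.mono B F hDB
  have h6 := h.unit A F hDA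
  have h7 := h.mono A (insert B F) h1'
  have h8 : g (insert B F) ≠ g F := fun h9 => hn ⟨hDB, hBF, h9⟩
  refine ⟨h1', ?_, ?_⟩
  · rw [Finset.mem_insert]
    rintro (h9 | h9)
    · apply h2
      rw [h9]
      exact Finset.mem_insert_self _ _
    · exact hAF h9
  · omega

/-- A basis of a family over another one.

Proof.  Take `I ⊆ G` with `g (F ∪ I) = g F + I.card` of maximal cardinality (`∅` is possible); every
`A ∈ G` outside `F ∪ I` is in the closure of `F ∪ I` (otherwise `insert A I` is larger; note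
`I ∩ F = ∅` unless trivial: if `A ∈ I ∩ F` then `g (F ∪ I) ≤ g F + (I.erase A).card`, so
`I` is disjoint from `F`).  By `zfam` `g (F ∪ G) = g (F ∪ I ∪ G) = g (F ∪ I)`. -/
theorem AS.zbasis (h : AS P K g) {F G : Finset (Finset β)} (hFG : DF P (F ∪ G)) :
    ∃ I ⊆ G, g (F ∪ I) = g F + I.card ∧ g (F ∪ G) = g (F ∪ I) := by
  induction G using Finset.induction_on with
  | empty => exact ⟨∅, Finset.Subset.refl _, by simp, rfl⟩
  | insert A G hA ih =>
    rw [Finset.union_insert] at hFG ⊢
    obtain ⟨I, hI, h1, h2⟩ := ih (hFG.subset (Finset.subset_insert _ _))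
    by_cases hAF : A ∈ F ∪ G
    · rw [Finset.insert_eq_of_mem hAF]
      exact ⟨I, hI.trans (Finset.subset_insert _ _), h1, h2⟩
    · have hFI : F ∪ I ⊆ F ∪ G := Finset.union_subset_union_right hI
      have hAI : A ∉ F ∪ I := fun h3 => hAF (hFI h3)
      have hs : insert A (F ∪ I) ⊆ insert A (F ∪ G) := Finset.insert_subset_insert _ hFI
      have hD : DF P (insert A (F ∪ I)) := hFG.subset hs
      by_cases h3 : g (insert A (F ∪ I)) = g (F ∪ I)
      · have h4 := h.zmono (⟨hD, hAI, h3⟩ : Z P g (F ∪ I) A) hFI hFG hAF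
        exact ⟨I, hI.trans (Finset.subset_insert _ _), h1, by rw [h4.2.2, h2]⟩
      · have h4 := h.mono A (F ∪ I) hD
        have h5 := h.unit A (F ∪ I) hD
        have h6 := h.unit A (F ∪ G) hFG
        have h7 := h.mono' hFG hs
        refine ⟨insert A I, Finset.insert_subset_insert _ hI, ?_, ?_⟩
        · rw [Finset.union_insert, Finset.card_insert_of_notMem (fun h8 => hA (hI h8))]
          omega
        · rw [Finset.union_insert]
          omega

/-- Independent families are hereditary (`unit'` for `F ∪ J ⊆ F ∪ I`). -/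
theorem AS.ind_subset (h : AS P K g) {F I J : Finset (Finset β)} (hFI : DF P (F ∪ I))
    (hI : g (F ∪ I) = g F + I.card) (hJ : J ⊆ I) : g (F ∪ J) = g F + J.card := by
  have hs : F ∪ J ⊆ F ∪ I := Finset.union_subset_union_right hJ
  have h1 := (ASLib_mono_union h F J (hFI.subset hs)).2
  have h2 := h.unit' hFI hs
  have h3 : ((F ∪ I) \ (F ∪ J)).card ≤ (I \ J).card := by
    apply Finset.card_le_card
    intro x
    simp only [Finset.mem_sdiff, Finset.mem_union]
    tauto
  have h4 := Finset.card_sdiff_add_card_eq_card hJ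
  omega

theorem ASLib_mapF_insert {β' : Type} [DecidableEq β'] (φ : β' → β) (A : Finset β')
    (F : Finset (Finset β')) : mapF φ (insert A F) = insert (A.image φ) (mapF φ F) := by
  unfold mapF
  rw [Finset.image_insert]

theorem ASLib_image_disj {β' : Type} [DecidableEq β'] (φ : β' → β) (P' : β' → Prop)
    (hφ : ∀ x y, P' x → P' y → φ x = φ y → x = y) {A B : Finset β'} (hA : ∀ x ∈ A, P' x)
    (hB : ∀ x ∈ B, P' x) (h : Disjoint A B) : Disjoint (A.image φ) (B.image φ) := by
  rw [Finset.disjoint_left] at h ⊢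
  intro y hy hy'
  rw [Finset.mem_image] at hy hy'
  obtain ⟨a, ha, rfl⟩ := hy
  obtain ⟨b, hb, hab⟩ := hy'
  have h1 := hφ b a (hB b hb) (hA a ha) hab
  exact h ha (h1 ▸ hb)

theorem ASLib_mapF_DF {β' : Type} [DecidableEq β'] (φ : β' → β) (P' : β' → Prop)
    (hφ : ∀ x y, P' x → P' y → φ x = φ y → x = y) (hP : ∀ x, P' x → P (φ x))
    {F : Finset (Finset β')} (hF : DF P' F) : DF P (mapF φ F) := by
  constructor
  · intro A hA
    unfold mapF at hA
    rw [Finset.mem_image] at hA
    obtain ⟨B, hB, rfl⟩ := hA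
    refine ⟨(hF.1 B hB).1.image φ, ?_⟩
    intro x hx
    rw [Finset.mem_image] at hx
    obtain ⟨y, hy, rfl⟩ := hx
    exact hP y ((hF.1 B hB).2 y hy)
  · intro A hA B hB hAB
    unfold mapF at hA hB
    rw [Finset.mem_image] at hA hB
    obtain ⟨A', hA', rfl⟩ := hA
    obtain ⟨B', hB', rfl⟩ := hB
    have hne : A' ≠ B' := by
      rintro rfl
      exact hAB rfl
    exact ASLib_image_disj φ P' hφ (hF.1 A' hA').2 (hF.1 B' hB').2 (hF.2 A' hA' B' hB' hne)

theorem ASLib_image_ne {β' : Type} [DecidableEq β'] (φ : β' → β) (P' : β' → Prop)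
    (hφ : ∀ x y, P' x → P' y → φ x = φ y → x = y) {A B : Finset β'} (hA : ∀ x ∈ A, P' x)
    (hB : ∀ x ∈ B, P' x) (hn : A.Nonempty) (h : Disjoint A B) : A.image φ ≠ B.image φ := by
  intro h1
  have h2 := ASLib_image_disj φ P' hφ hA hB h
  rw [← h1] at h2
  exact ASLib_not_self_disj (hn.image φ) h2

theorem ASLib_mapF_not {β' : Type} [DecidableEq β'] (φ : β' → β) (P' : β' → Prop)
    (hφ : ∀ x y, P' x → P' y → φ x = φ y → x = y)
    {F : Finset (Finset β')} {A : Finset β'} (hF : DF P' F) (hA : ∀ x ∈ A, P' x)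
    (hn : A.Nonempty) (hd : ∀ B ∈ F, Disjoint A B) : A.image φ ∉ mapF φ F := by
  intro h
  unfold mapF at h
  rw [Finset.mem_image] at h
  obtain ⟨B, hB, hBA⟩ := h
  exact ASLib_image_ne φ P' hφ hA (hF.1 B hB).2 hn (hd B hB) hBA.symm

/-- Restriction of the predicate, renaming of the elements by a map which is injective on the
allowed elements.

Proof.  `mapF φ (insert A F) = insert (A.image φ) (mapF φ F)`, images of disjoint sets of allowed
elements are disjoint, images of different nonempty disjoint sets are different,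
`(A ∪ B).image φ = A.image φ ∪ B.image φ`. -/
theorem AS.comap {β' : Type} [DecidableEq β'] (h : AS P K g) (φ : β' → β) (P' : β' → Prop)
    (hφ : ∀ x y, P' x → P' y → φ x = φ y → x = y) (hP : ∀ x, P' x → P (φ x)) :
    AS P' K (fun F => g (mapF φ F)) := by
  have key : ∀ A B F, DF P' (insert A (insert B F)) → A ∉ F → B ∉ F → A ≠ B →
      DF P (insert (A.image φ) (insert (B.image φ) (mapF φ F))) ∧ A.image φ ∉ mapF φ F ∧
      B.image φ ∉ mapF φ F ∧ A.image φ ≠ B.image φ := by
    intro A B F hD hA hB hAB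
    have h1 := DF.insert_iff.1 hD
    have h2 := DF.insert_iff.1 h1.1
    refine ⟨?_, ?_, ?_, ?_⟩
    · rw [← ASLib_mapF_insert, ← ASLib_mapF_insert]
      exact ASLib_mapF_DF φ P' hφ hP hD
    · exact ASLib_mapF_not φ P' hφ h2.1 h1.2.2.1 h1.2.1 (fun C hC =>
        h1.2.2.2 C (Finset.mem_insert_of_mem hC) (fun h3 => hA (h3 ▸ hC)))
    · exact ASLib_mapF_not φ P' hφ h2.1 h2.2.2.1 h2.2.1 (fun C hC =>
        h2.2.2.2 C hC (fun h3 => hB (h3 ▸ hC)))
    · exact ASLib_image_ne φ P' hφ h1.2.2.1 h2.2.2.1 h1.2.1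
        (h1.2.2.2 B (Finset.mem_insert_self _ _) hAB)
  constructor
  · show g (mapF φ ∅) = 0
    unfold mapF
    rw [Finset.image_empty]
    exact h.zero
  · intro F hF
    exact h.bd _ (ASLib_mapF_DF φ P' hφ hP hF)
  · intro A F hF
    have h1 := ASLib_mapF_DF φ P' hφ hP hF
    show g (mapF φ F) ≤ g (mapF φ (insert A F))
    rw [ASLib_mapF_insert] at h1 ⊢
    exact h.mono _ _ h1
  · intro A F hF
    have h1 := ASLib_mapF_DF φ P' hφ hP hF
    show g (mapF φ (insert A F)) ≤ g (mapF φ F) + 1
    rw [ASLib_mapF_insert] at h1 ⊢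
    exact h.unit _ _ h1
  · intro A B F hD hA hB hAB
    obtain ⟨h1, h2, h3, h4⟩ := key A B F hD hA hB hAB
    show g (mapF φ (insert A (insert B F))) + g (mapF φ F) ≤
      g (mapF φ (insert A F)) + g (mapF φ (insert B F))
    rw [ASLib_mapF_insert, ASLib_mapF_insert, ASLib_mapF_insert]
    exact h.sub _ _ _ h1 h2 h3 h4
  · intro A B F hD hA hB hAB
    obtain ⟨h1, h2, h3, h4⟩ := key A B F hD hA hB hAB
    show g (mapF φ (insert A (insert B F))) + g (mapF φ F) ≤
      g (mapF φ (insert A F)) + g (mapF φ (insert (A ∪ B) F))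
    rw [ASLib_mapF_insert, ASLib_mapF_insert, ASLib_mapF_insert, ASLib_mapF_insert,
      Finset.image_union]
    exact h.spl _ _ _ h1 h2 h3 h4
  · intro A B F hD hA hB hAB
    obtain ⟨h1, h2, h3, h4⟩ := key A B F hD hA hB hAB
    show g (mapF φ (insert (A ∪ B) F)) ≤ g (mapF φ (insert A (insert B F)))
    rw [ASLib_mapF_insert, ASLib_mapF_insert, ASLib_mapF_insert, Finset.image_union]
    exact h.mrg _ _ _ h1 h2 h3 h4

/-- Contraction of a family `F0`; the new allowed elements are outside the members of `F0`.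

Proof.  All axioms for `F` follow from those for `F0 ∪ F` (`insert A (F0 ∪ F)`; a set `A` with
elements outside the members of `F0` is not in `F0`, and `g F0 ≤ g (F0 ∪ F)` by `mono'`). -/
theorem AS.con (h : AS P K g) {F0 : Finset (Finset β)} (hF0 : DF P F0) :
    AS (fun x => P x ∧ ∀ A ∈ F0, x ∉ A) K (fun F => g (F0 ∪ F) - g F0) := by
  have hU : ∀ F, DF (fun x => P x ∧ ∀ A ∈ F0, x ∉ A) F → DF P (F0 ∪ F) := by
    intro F hF
    have hd : ∀ A ∈ F0, ∀ B ∈ F, Disjoint A B := by
      intro A hA B hB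
      rw [Finset.disjoint_left]
      intro x hxA hxB
      exact ((hF.1 B hB).2 x hxB).2 A hA hxA
    constructor
    · intro A hA
      rw [Finset.mem_union] at hA
      rcases hA with hA | hA
      · exact hF0.1 A hA
      · exact ⟨(hF.1 A hA).1, fun x hx => ((hF.1 A hA).2 x hx).1⟩
    · intro A hA B hB hAB
      rw [Finset.mem_union] at hA hB
      rcases hA with hA | hA
      · rcases hB with hB | hB
        · exact hF0.2 A hA B hB hAB
        · exact hd A hA B hB
      · rcases hB with hB | hB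
        · exact (hd B hB A hA).symm
        · exact hF.2 A hA B hB hAB
  have hge : ∀ F, DF (fun x => P x ∧ ∀ A ∈ F0, x ∉ A) F → g F0 ≤ g (F0 ∪ F) := fun F hF =>
    h.mono' (hU F hF) Finset.subset_union_left
  have hnot : ∀ A F, DF (fun x => P x ∧ ∀ A ∈ F0, x ∉ A) (insert A F) → A ∉ F0 := by
    intro A F hF hA
    have h1 := (DF.insert_iff.1 hF)
    obtain ⟨x, hx⟩ := h1.2.1
    exact (h1.2.2.1 x hx).2 A hA hx
  constructor
  · show g (F0 ∪ ∅) - g F0 = 0
    rw [Finset.union_empty]
    omega
  · intro F hF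
    have h1 := h.bd _ (hU F hF)
    show g (F0 ∪ F) - g F0 ≤ K
    omega
  · intro A F hF
    have h1 := hU _ hF
    rw [Finset.union_insert] at h1
    have h2 := h.mono A (F0 ∪ F) h1
    show g (F0 ∪ F) - g F0 ≤ g (F0 ∪ insert A F) - g F0
    rw [Finset.union_insert]
    omega
  · intro A F hF
    have h1 := hU _ hF
    rw [Finset.union_insert] at h1
    have h2 := h.unit A (F0 ∪ F) h1
    show g (F0 ∪ insert A F) - g F0 ≤ g (F0 ∪ F) - g F0 + 1
    rw [Finset.union_insert]
    omega
  · intro A B F hD hA hB hAB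
    have hDB := hD.subset (Finset.subset_insert A (insert B F))
    have hDF := hDB.subset (Finset.subset_insert B F)
    have hDA : DF (fun x => P x ∧ ∀ A ∈ F0, x ∉ A) (insert A F) :=
      hD.subset (Finset.insert_subset_insert _ (Finset.subset_insert _ _))
    have hA0 := hnot _ _ hD
    have hB0 := hnot _ _ hDB
    have h1 := hU _ hD
    have g1 := hge _ hD
    have g2 := hge _ hDF
    have g3 := hge _ hDB
    have g4 := hge _ hDA
    rw [Finset.union_insert, Finset.union_insert] at h1 g1
    rw [Finset.union_insert] at g3 g4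
    have h2 := h.sub A B (F0 ∪ F) h1 (by simp [hA0, hA]) (by simp [hB0, hB]) hAB
    show g (F0 ∪ insert A (insert B F)) - g F0 + (g (F0 ∪ F) - g F0) ≤
      g (F0 ∪ insert A F) - g F0 + (g (F0 ∪ insert B F) - g F0)
    rw [Finset.union_insert, Finset.union_insert, Finset.union_insert]
    omega
  · intro A B F hD hA hB hAB
    have hDB := hD.subset (Finset.subset_insert A (insert B F))
    have hDF := hDB.subset (Finset.subset_insert B F)
    have hDA : DF (fun x => P x ∧ ∀ A ∈ F0, x ∉ A) (insert A F) :=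
      hD.subset (Finset.insert_subset_insert _ (Finset.subset_insert _ _))
    have hA0 := hnot _ _ hD
    have hB0 := hnot _ _ hDB
    have h1 := hU _ hD
    have g1 := hge _ hD
    have g2 := hge _ hDF
    have g4 := hge _ hDA
    have a1 := DF.insert_iff.1 hD
    have b1 := DF.insert_iff.1 a1.1
    have hDU : DF (fun x => P x ∧ ∀ A ∈ F0, x ∉ A) (insert (A ∪ B) F) := by
      rw [DF.insert_iff]
      refine ⟨hDF, a1.2.1.mono Finset.subset_union_left, ?_, ?_⟩
      · intro x hx
        rw [Finset.mem_union] at hx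
        rcases hx with hx | hx
        · exact a1.2.2.1 x hx
        · exact b1.2.2.1 x hx
      · intro C hC _
        rw [Finset.disjoint_union_left]
        exact ⟨a1.2.2.2 C (Finset.mem_insert_of_mem hC) (fun h2 => hA (h2 ▸ hC)),
          b1.2.2.2 C hC (fun h2 => hB (h2 ▸ hC))⟩
    have g5 := hge _ hDU
    rw [Finset.union_insert, Finset.union_insert] at h1 g1
    rw [Finset.union_insert] at g4 g5
    have h2 := h.spl A B (F0 ∪ F) h1 (by simp [hA0, hA]) (by simp [hB0, hB]) hAB
    show g (F0 ∪ insert A (insert B F)) - g F0 + (g (F0 ∪ F) - g F0) ≤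
      g (F0 ∪ insert A F) - g F0 + (g (F0 ∪ insert (A ∪ B) F) - g F0)
    rw [Finset.union_insert, Finset.union_insert, Finset.union_insert, Finset.union_insert]
    omega
  · intro A B F hD hA hB hAB
    have hDB := hD.subset (Finset.subset_insert A (insert B F))
    have hA0 := hnot _ _ hD
    have hB0 := hnot _ _ hDB
    have h1 := hU _ hD
    rw [Finset.union_insert, Finset.union_insert] at h1
    have h2 := h.mrg A B (F0 ∪ F) h1 (by simp [hA0, hA]) (by simp [hB0, hB]) hAB
    show g (F0 ∪ insert (A ∪ B) F) - g F0 ≤ g (F0 ∪ insert A (insert B F)) - g F0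
    rw [Finset.union_insert, Finset.union_insert, Finset.union_insert]
    omega

end Pool.Agent.H.MP_60a1a2_co
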