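import Mathlib

/-! # The notions of the problem for Mathlib's matroids -/

set_option autoImplicit false

namespace Pool.Agent.H.MP_60a1a2_co

/-- `N` is isomorphic to the cycle matroid `M(K_n)` of the complete graph: the elements correspond
to the edges (the pairs of different vertices), and the independent sets to the forests -/
def IsMK {α : Type*} (N : Matroid α) (n : ℕ) : Prop :=
  ∃ φ : α → Sym2 (Fin n), Set.BijOn φ N.E {x | ¬ x.IsDiag} ∧
    ∀ I ⊆ N.E, N.Indep I ↔ (SimpleGraph.fromEdgeSet (φ '' I)).IsAcyclic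

/-- the minors `N1`, `N2` of `M` have disjoint ground sets and are `n`-interconnected -/
def Interconnected {α : Type*} (M N1 N2 : Matroid α) (n : ℕ) : Prop :=
  Disjoint N1.E N2.E ∧ ∀ X, N1.E ⊆ X → X ⊆ M.E \ N2.E →
    (n : ℕ∞) + M.eRank ≤ M.eRk X + M.eRk (M.E \ X)

/-- `M` has a `U_{k,2k}`-minor -/
def HasUMinor {α : Type*} (M : Matroid α) (k : ℕ) : Prop :=
  ∃ N : Matroid α, N ≤m M ∧ N.E.encard = (2 * k : ℕ) ∧ ∀ I ⊆ N.E, N.Indep I ↔ I.encard ≤ k

/-- `M` has a `PG(k,p)`-minor: the elements of the minor correspond to the points of the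
projective space of `(ZMod p)^(k+1)`, independence is linear independence -/
def HasPGMinor {α : Type*} (M : Matroid α) (k p : ℕ) [Fact p.Prime] : Prop :=
  ∃ N : Matroid α, N ≤m M ∧
    ∃ φ : Projectivization (ZMod p) (Fin (k + 1) → ZMod p) → α, Set.BijOn φ Set.univ N.E ∧
      ∀ I : Set (Projectivization (ZMod p) (Fin (k + 1) → ZMod p)),
        N.Indep (φ '' I) ↔ LinearIndependent (ZMod p) (fun x : I => x.1.rep)

end Pool.Agent.H.MP_60a1a2_co
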