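import Pool.Agent.H.MP_60a1a2_co.BrRank
import Pool.Agent.H.MP_60a1a2_co.BrDefs

/-! # From cycle matroids to cliques -/

set_option autoImplicit false

namespace Pool.Agent.H.MP_60a1a2_co

/-- A star is acyclic.

Proof: `SimpleGraph.isAcyclic_iff_forall_edge_isBridge`: the graph with the edges `s(v, w)`,
`w ∈ S`, without the edge `s(v, w)`: `w` has no neighbour, so it is not reachable from `v ≠ w`.
Or: a cycle has a vertex different from `v`, which has two different neighbours on the cycle, but
`v` is its only neighbour. -/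
theorem star_acyclic {n : ℕ} (v : Fin n) (S : Set (Fin n)) :
    (SimpleGraph.fromEdgeSet ((fun w => s(v, w)) '' S)).IsAcyclic := by
  refine (SimpleGraph.isAcyclic_starGraph v).anti ?_
  intro a b hab
  rw [SimpleGraph.fromEdgeSet_adj] at hab
  obtain ⟨⟨w, -, hw⟩, hne⟩ := hab
  rw [SimpleGraph.starGraph_adj]
  refine ⟨hne, ?_⟩
  rcases Sym2.eq_iff.1 hw with ⟨h1, _⟩ | ⟨h1, _⟩
  · exact Or.inl h1.symm
  · exact Or.inr h1.symm

/-- A triangle is not acyclic. -/
theorem tri_not_acyclic {n : ℕ} {i j l : Fin n} (hij : i ≠ j) (hjl : j ≠ l) (hil : i ≠ l) :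
    ¬ (SimpleGraph.fromEdgeSet ({s(i, j), s(j, l), s(i, l)} : Set (Sym2 (Fin n)))).IsAcyclic := by
  intro h
  rw [SimpleGraph.isAcyclic_iff_forall_adj_isBridge] at h
  have hil' : (SimpleGraph.fromEdgeSet
      ({s(i, j), s(j, l), s(i, l)} : Set (Sym2 (Fin n)))).Adj i l := by
    rw [SimpleGraph.fromEdgeSet_adj]
    exact ⟨by simp, hil⟩
  have h1 := h hil'
  rw [SimpleGraph.isBridge_iff] at h1
  apply h1
  have a1 : ((SimpleGraph.fromEdgeSet ({s(i, j), s(j, l), s(i, l)} :
      Set (Sym2 (Fin n)))).deleteEdges {s(i, l)}).Adj i j := by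
    rw [SimpleGraph.deleteEdges_adj, SimpleGraph.fromEdgeSet_adj]
    refine ⟨⟨by simp, hij⟩, ?_⟩
    rw [Set.mem_singleton_iff, Sym2.eq_iff]
    rintro (⟨_, h2⟩ | ⟨h2, _⟩)
    · exact hjl h2
    · exact hil h2
  have a2 : ((SimpleGraph.fromEdgeSet ({s(i, j), s(j, l), s(i, l)} :
      Set (Sym2 (Fin n)))).deleteEdges {s(i, l)}).Adj j l := by
    rw [SimpleGraph.deleteEdges_adj, SimpleGraph.fromEdgeSet_adj]
    refine ⟨⟨by simp, hjl⟩, ?_⟩
    rw [Set.mem_singleton_iff, Sym2.eq_iff]
    rintro (⟨h2, _⟩ | ⟨_, h2⟩)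
    · exact hij h2.symm
    · exact hil h2.symm
  exact a1.reachable.trans a2.reachable

/-- The clique of a cycle matroid of a complete graph.

Proof.  `N.E` is nonempty (`2 ≤ n`), let `a0 ∈ N.E`.  Define `e i j` for `i ≠ j`, `i, j < n` as the
element of `N.E` with `φ (e i j) = s(i, j)` (`Set.BijOn.surjOn`), and `a0` otherwise (make it
symmetric: choose a function `ψ : Sym2 (Fin n) → α`, right inverse of `φ` on the non-diagonal
pairs, and `e i j = ψ s(i, j)`, so symmetry is clear).
`IsE`: `Sym2.eq_iff`.  The edges are exactly `N.E` (`Set.BijOn`).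
`Tri`: `{e i j, e j l}` is independent (`φ` of it is a subset of the star of `j`, `star_acyclic`),
so its rank is 2; `{e i j, e j l, e i l}` is not independent (`tri_not_acyclic`), so its rank is at
most 2 (`rf_indep`).
Rank: the star of `0` is independent with `n - 1` elements (`star_acyclic`, `star_card`). -/
theorem isK_of_isMK {α : Type*} [DecidableEq α] {N : Matroid α} {n : ℕ} (hn : 2 ≤ n)
    (h : IsMK N n) : ∃ e : ℕ → ℕ → α, IsK (rf N) e (Finset.range n) ∧
      ((ed e (Finset.range n) : Finset α) : Set α) = N.E := by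
  obtain ⟨φ, hφ, hind⟩ := h
  have hψ : ∀ x : Sym2 (Fin n), ∃ a : α, ¬ x.IsDiag → a ∈ N.E ∧ φ a = x := by
    intro x
    by_cases hx : x.IsDiag
    · obtain ⟨a, _, _⟩ := hφ.surjOn (a := s((⟨0, by omega⟩ : Fin n), ⟨1, by omega⟩)) (by
        simp)
      exact ⟨a, fun h => absurd hx h⟩
    · obtain ⟨a, ha, ha2⟩ := hφ.surjOn hx
      exact ⟨a, fun _ => ⟨ha, ha2⟩⟩
  choose ψ hψ using hψ
  let z : Fin n := ⟨0, by omega⟩
  let p : ℕ → Fin n := fun i => if h : i < n then ⟨i, h⟩ else z
  have hp : ∀ i (hi : i < n), p i = ⟨i, hi⟩ := fun i hi => dif_pos hi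
  have hpne : ∀ i j, i < n → j < n → i ≠ j → p i ≠ p j := by
    intro i j hi hj hij he
    rw [hp i hi, hp j hj] at he
    exact hij (congrArg Fin.val he)
  let e : ℕ → ℕ → α := fun i j => ψ s(p i, p j)
  have hE : ∀ i j, i < n → j < n → i ≠ j → e i j ∈ N.E ∧ φ (e i j) = s(p i, p j) := by
    intro i j hi hj hij
    apply hψ
    rw [Sym2.mk_isDiag_iff]
    exact hpne i j hi hj hij
  have isE : IsE e (Finset.range n) := by
    constructor
    · intro i _ j _
      change ψ s(p i, p j) = ψ s(p j, p i)
      rw [Sym2.eq_swap]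
    · intro i hi j hj k hk l hl hij hkl he
      rw [Finset.mem_range] at hi hj hk hl
      have h1 := (hE i j hi hj hij).2
      have h2 := (hE k l hk hl hkl).2
      rw [he, h2, Sym2.eq_iff, hp i hi, hp j hj, hp k hk, hp l hl] at h1
      rcases h1 with ⟨h3, h4⟩ | ⟨h3, h4⟩
      · exact Or.inl ⟨(congrArg Fin.val h3).symm, (congrArg Fin.val h4).symm⟩
      · exact Or.inr ⟨(congrArg Fin.val h4).symm, (congrArg Fin.val h3).symm⟩
  have hsub : ∀ x ∈ ed e (Finset.range n), x ∈ N.E := by
    intro x hx
    obtain ⟨i, hi, j, hj, hij, rfl⟩ := mem_ed.1 hx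
    exact (hE i j (Finset.mem_range.1 hi) (Finset.mem_range.1 hj) hij).1
  refine ⟨e, ⟨isE, ?_, ?_⟩, ?_⟩
  · intro i hi j hj k hk hij hjk hik
    rw [Finset.mem_range] at hi hj hk
    have f1 := hE i j hi hj hij
    have f2 := hE j k hj hk hjk
    have f3 := hE i k hi hk hik
    have n12 : e i j ≠ e j k := by
      intro he
      rcases isE.inj i (Finset.mem_range.2 hi) j (Finset.mem_range.2 hj) j
        (Finset.mem_range.2 hj) k (Finset.mem_range.2 hk) hij hjk he with ⟨h1, _⟩ | ⟨h1, _⟩
      · exact hij h1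
      · exact hik h1
    have c2 : (rf N).r {e i j, e j k} = 2 := by
      have hI : N.Indep (({e i j, e j k} : Finset α) : Set α) := by
        rw [hind _ (by
          intro x hx
          rw [Finset.coe_insert, Finset.coe_singleton] at hx
          rcases hx with rfl | hx
          · exact f1.1
          · rw [Set.mem_singleton_iff] at hx
            rw [hx]
            exact f2.1)]
        have e1 : φ '' (({e i j, e j k} : Finset α) : Set α)
            = (fun w => s(p j, w)) '' ({p i, p k} : Set (Fin n)) := by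
          rw [Finset.coe_insert, Finset.coe_singleton, Set.image_pair, Set.image_pair, f1.2, f2.2,
            Sym2.eq_swap]
        rw [e1]
        exact star_acyclic _ _
      rw [rf_indep] at hI
      rw [hI, Finset.card_pair n12]
    have c3 : (rf N).r (insert (e i k) {e i j, e j k}) ≤ 2 := by
      by_contra hc
      have h4 := (rf N).le_card (insert (e i k) {e i j, e j k})
      have h5 : (insert (e i k) ({e i j, e j k} : Finset α)).card ≤ 3 := Finset.card_le_three
      have h6 : N.Indep ((insert (e i k) ({e i j, e j k} : Finset α) : Finset α) : Set α) := by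
        rw [rf_indep]
        omega
      rw [hind _ (by
          intro x hx
          rw [Finset.coe_insert, Finset.coe_insert, Finset.coe_singleton] at hx
          rcases hx with rfl | rfl | hx
          · exact f3.1
          · exact f1.1
          · rw [Set.mem_singleton_iff] at hx
            rw [hx]
            exact f2.1)] at h6
      apply tri_not_acyclic (hpne i j hi hj hij) (hpne j k hj hk hjk) (hpne i k hi hk hik)
      have e1 : φ '' ((insert (e i k) ({e i j, e j k} : Finset α) : Finset α) : Set α)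
          = {s(p i, p j), s(p j, p k), s(p i, p k)} := by
        rw [Finset.coe_insert, Finset.coe_insert, Finset.coe_singleton, Set.image_insert_eq,
          Set.image_pair, f1.2, f2.2, f3.2, Set.insert_comm, Set.pair_comm (s(p i, p k))]
      rwa [e1] at h6
    have c4 : (rf N).r {e i j, e j k} ≤ (rf N).r (insert (e i k) {e i j, e j k}) :=
      (rf N).mono (Finset.subset_insert _ _)
    unfold RF.In
    omega
  · have h0 : 0 ∈ Finset.range n := Finset.mem_range.2 (by omega)
    have h1 := star_card isE h0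
    have h2 : N.Indep ((star e 0 (Finset.range n) : Finset α) : Set α) := by
      rw [hind _ (by
        intro x hx
        exact hsub x (star_subset h0 hx))]
      have e1 : φ '' ((star e 0 (Finset.range n) : Finset α) : Set α)
          ⊆ (fun w => s(p 0, w)) '' (Set.univ : Set (Fin n)) := by
        rintro _ ⟨x, hx, rfl⟩
        obtain ⟨j, hj, hj0, rfl⟩ := mem_star.1 hx
        refine ⟨p j, trivial, ?_⟩
        exact (hE 0 j (by omega) (Finset.mem_range.1 hj) (Ne.symm hj0)).2.symm
      exact (star_acyclic _ _).anti (SimpleGraph.fromEdgeSet_mono e1)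
    rw [rf_indep] at h2
    have h3 : (rf N).r (star e 0 (Finset.range n)) ≤ (rf N).r (ed e (Finset.range n)) :=
      (rf N).mono (star_subset h0)
    omega
  · ext x
    constructor
    · exact hsub x
    · intro hx
      have h1 := hφ.mapsTo hx
      rw [Finset.mem_coe, mem_ed]
      induction hq : φ x using Sym2.ind with
      | _ a b =>
        rw [hq] at h1
        have hab : a ≠ b := h1
        have ha := hp a.1 a.2
        have hb := hp b.1 b.2
        have hab' : a.1 ≠ b.1 := fun h => hab (Fin.ext h)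
        refine ⟨a.1, Finset.mem_range.2 a.2, b.1, Finset.mem_range.2 b.2, hab', ?_⟩
        have f := hE a.1 b.1 a.2 b.2 hab'
        apply hφ.injOn f.1 hx
        rw [f.2, hq, ha, hb]

end Pool.Agent.H.MP_60a1a2_co
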