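import Pool.Agent.H.MP_60a1a2_co.BrRank
import Pool.Agent.H.MP_60a1a2_co.BrDefs

/-! # From minors of the rank function to minors of the matroid -/

set_option autoImplicit false

namespace Pool.Agent.H.MP_60a1a2_co

variable {α : Type*} [DecidableEq α]

/-- A minor with a given rank function.

Proof.  `N = (M ／ C) ↾ (Set.range f)`; `Set.range f ⊆ M.E \ C`, so `N` is a minor
(`N = M ／ C ＼ D` with `D = (M.E \ C) \ Set.range f`, `Matroid.delete_eq_restrict`).  For a finite set
`J`: `f '' J` is independent in `N` iff it is independent in `M ／ C` iff (`rf_indep`,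
`rf_contract`, `con_add`) `(rf M).r (J.image f ∪ C) = (rf M).r C + J.card` iff `h J = J.card`. -/
theorem minor_of_hasM {M : Matroid α} {E : Finset α} (hE : (E : Set α) = M.E) {τ : Type}
    [DecidableEq τ] {h : Finset τ → ℕ} (hm : HasM (rf M) E h) :
    ∃ (N : Matroid α) (f : τ → α), N ≤m M ∧ Set.BijOn f Set.univ N.E ∧
      ∀ J : Finset τ, N.Indep (f '' (J : Set τ)) ↔ h J = J.card := by
  obtain ⟨C, f, hC, hf, hfG, hr⟩ := hm
  have hsub : Set.range f ⊆ (M.E \ (C : Set α)) := by
    rintro _ ⟨t, rfl⟩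
    have h1 := hfG t
    rw [Finset.mem_sdiff] at h1
    rw [← hE]
    exact ⟨h1.1, h1.2⟩
  refine ⟨Matroid.delete (Matroid.contract M (C : Set α)) ((M.E \ (C : Set α)) \ Set.range f), f,
    Matroid.contract_delete_isMinor _ _ _, ?_, ?_⟩
  · have h1 : (Matroid.delete (Matroid.contract M (C : Set α))
        ((M.E \ (C : Set α)) \ Set.range f)).E = Set.range f := by
      rw [Matroid.delete_ground, Matroid.contract_ground, Set.sdiff_sdiff_cancel_left hsub]
    rw [h1]
    refine ⟨fun t _ => ⟨t, rfl⟩, hf.injOn, ?_⟩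
    rintro _ ⟨t, rfl⟩
    exact ⟨t, trivial, rfl⟩
  · intro J
    rw [Matroid.delete_indep_iff]
    have hd : Disjoint (f '' (J : Set τ)) ((M.E \ (C : Set α)) \ Set.range f) := by
      rw [Set.disjoint_left]
      rintro _ ⟨t, -, rfl⟩ h2
      exact h2.2 ⟨t, rfl⟩
    rw [and_iff_left hd, ← Finset.coe_image, rf_indep,
      rf_contract M E C (J.image f) hE hC (fun x hx => by
        obtain ⟨t, -, rfl⟩ := Finset.mem_image.1 hx
        exact hfG t), Finset.card_image_of_injective _ hf]
    have h3 := (rf M).con_add C (J.image f)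
    have h4 := hr J
    constructor
    · intro h5
      omega
    · intro h5
      omega

/-- `min J.card k = J.card ↔ J.card ≤ k`; every subset of `N.E` is `f '' J`. -/
theorem hasUMinor {M : Matroid α} {E : Finset α} (hE : (E : Set α) = M.E) {k : ℕ}
    (hm : HasM (rf M) E (unif k)) : HasUMinor M k := by
  classical
  obtain ⟨N, f, hN, hf, hI⟩ := minor_of_hasM hE hm
  have hinj : Function.Injective f := Set.injOn_univ.1 hf.injOn
  refine ⟨N, hN, ?_, ?_⟩
  · rw [← hf.image_eq, hinj.encard_image, Set.encard_univ, ENat.card_eq_coe_fintype_card,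
      Fintype.card_fin]
  · intro I hIE
    obtain ⟨J, rfl⟩ : ∃ J : Finset (Fin (2 * k)), f '' (J : Set (Fin (2 * k))) = I := by
      refine ⟨(f ⁻¹' I).toFinite.toFinset, ?_⟩
      rw [Set.Finite.coe_toFinset, Set.image_preimage_eq_iff]
      intro x hx
      have h1 := hIE hx
      rw [← hf.image_eq] at h1
      obtain ⟨t, -, ht⟩ := h1
      exact ⟨t, ht⟩
    rw [hI, hinj.encard_image, Set.encard_coe_eq_coe_finsetCard, Nat.cast_le]
    unfold unif
    omega

open Classical in
/-- `finrank (span (rep '' J)) = J.card ↔ LinearIndependent` (for example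
`linearIndependent_iff_card_eq_finrank_span`); all sets of points are finite. -/
theorem hasPGMinor {M : Matroid α} {E : Finset α} (hE : (E : Set α) = M.E) {k p : ℕ}
    [Fact p.Prime] (hm : HasM (rf M) E (pg p k)) : HasPGMinor M k p := by
  obtain ⟨N, f, hN, hf, hI⟩ := minor_of_hasM hE hm
  refine ⟨N, hN, f, hf, ?_⟩
  intro I
  obtain ⟨J, rfl⟩ : ∃ J : Finset (Projectivization (ZMod p) (Fin (k + 1) → ZMod p)),
      (J : Set (Projectivization (ZMod p) (Fin (k + 1) → ZMod p))) = I :=
    ⟨I.toFinite.toFinset, Set.Finite.coe_toFinset _⟩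
  rw [hI]
  have h1 := linearIndependent_iff_card_eq_finrank_span (R := ZMod p)
    (b := fun x : (J : Set (Projectivization (ZMod p) (Fin (k + 1) → ZMod p))) => x.1.rep)
  rw [h1]
  have h2 : Set.range (fun x : (J : Set (Projectivization (ZMod p) (Fin (k + 1) → ZMod p))) =>
      x.1.rep) = (fun x : Projectivization (ZMod p) (Fin (k + 1) → ZMod p) => x.rep) '' (J : Set _) := by
    ext x
    constructor
    · rintro ⟨y, rfl⟩
      exact ⟨y.1, y.2, rfl⟩
    · rintro ⟨y, hy, rfl⟩
      exact ⟨⟨y, hy⟩, rfl⟩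
  rw [h2]
  have h3 : Fintype.card (J : Set (Projectivization (ZMod p) (Fin (k + 1) → ZMod p))) = J.card := by
    rw [← Set.toFinset_card, Finset.toFinset_coe]
  rw [h3]
  exact eq_comm

end Pool.Agent.H.MP_60a1a2_co
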