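import Pool.Agent.H.MP_60a1a2_co.RFBasic

/-! # Rank functions of finite matroids -/

set_option autoImplicit false

namespace Pool.Agent.H.MP_60a1a2_co

open Matroid

variable {α : Type*} [DecidableEq α]

theorem eRk_ne_top (M : Matroid α) (X : Finset α) : M.eRk (X : Set α) ≠ ⊤ := by
  have h := M.eRk_le_encard (X : Set α)
  intro h0
  rw [h0, top_le_iff, Set.encard_eq_top_iff] at h
  exact h X.finite_toSet

/-- the rank function of a matroid (`M.eRk` on finite sets) -/
noncomputable def rf (M : Matroid α) : RF α where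
  r := fun X => (M.eRk (X : Set α)).toNat
  le_card := by
    intro X
    have h := M.eRk_le_encard (X : Set α)
    rw [Set.encard_coe_eq_coe_finsetCard] at h
    exact ENat.toNat_le_of_le_coe h
  mono := by
    intro X Y h
    exact ENat.toNat_le_toNat (M.eRk_mono (by exact_mod_cast h)) (eRk_ne_top M Y)
  submod := by
    intro X Y
    have h := M.eRk_inter_add_eRk_union_le (X : Set α) (Y : Set α)
    rw [← Finset.coe_inter, ← Finset.coe_union] at h
    have h1 := ENat.coe_toNat (eRk_ne_top M X)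
    have h2 := ENat.coe_toNat (eRk_ne_top M Y)
    have h3 := ENat.coe_toNat (eRk_ne_top M (X ∪ Y))
    have h4 := ENat.coe_toNat (eRk_ne_top M (X ∩ Y))
    rw [← h1, ← h2, ← h3, ← h4] at h
    have h5 : (M.eRk (↑(X ∩ Y))).toNat + (M.eRk (↑(X ∪ Y))).toNat ≤
        (M.eRk (X : Set α)).toNat + (M.eRk (Y : Set α)).toNat := by
      exact_mod_cast h
    omega

theorem rf_coe (M : Matroid α) (X : Finset α) : (((rf M).r X : ℕ) : ℕ∞) = M.eRk (X : Set α) :=
  ENat.coe_toNat (eRk_ne_top M X)

/-- independence (`Matroid.indep_iff_eRk_eq_encard_of_finite`) -/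
theorem rf_indep (M : Matroid α) (I : Finset α) :
    M.Indep (I : Set α) ↔ (rf M).r I = I.card := by
  rw [Matroid.indep_iff_eRk_eq_encard_of_finite I.finite_toSet, ← rf_coe,
    Set.encard_coe_eq_coe_finsetCard]
  exact Nat.cast_inj

/-- deletion (`Matroid.restrict_eRk_eq'`, `X ∩ M.E` does not meet `D`; `Matroid.eRk_inter_ground`) -/
theorem rf_delete (M : Matroid α) (D : Set α) (X : Finset α) (hX : Disjoint (X : Set α) D) :
    (rf (M ＼ D)).r X = (rf M).r X := by
  have h : (((rf (M ＼ D)).r X : ℕ) : ℕ∞) = (((rf M).r X : ℕ) : ℕ∞) := by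
    rw [rf_coe, rf_coe, Matroid.delete_eq_restrict, Matroid.restrict_eRk_eq']
    have h1 : (X : Set α) ∩ (M.E \ D) = (X : Set α) ∩ M.E := by
      ext a
      simp only [Set.mem_inter_iff, Set.mem_sdiff]
      have hd : a ∈ (X : Set α) → a ∉ D := fun ha => Set.disjoint_left.1 hX ha
      tauto
    rw [h1, Matroid.eRk_inter_ground]
  exact_mod_cast h

theorem BrRank_dual (M : Matroid α) (E X : Finset α) (hE : (E : Set α) = M.E) (hX : X ⊆ E) :
    (rf M✶).r X + (rf M).r E = (rf M).r (E \ X) + X.card := by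
  have hX' : (X : Set α) ⊆ M.E := by
    rw [← hE]
    exact_mod_cast hX
  have h := M.eRk_dual_add_eRank (X : Set α) hX'
  rw [Matroid.eRank_def, ← hE, ← Finset.coe_sdiff, ← rf_coe, ← rf_coe, ← rf_coe,
    Set.encard_coe_eq_coe_finsetCard] at h
  exact_mod_cast h

/-- dual (`Matroid.eRk_dual_add_eRank`) -/
theorem rf_dual (M : Matroid α) (E X : Finset α) (hE : (E : Set α) = M.E) (hX : X ⊆ E) :
    (rf M✶).r X = ((rf M).dual E).r X := by
  have h1 := BrRank_dual M E X hE hX
  have h2 := (rf M).dual_add hX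
  omega

/-- Contraction.

Proof.  `M ／ C = (M✶ ＼ C)✶` (definition, `Matroid.dual_delete_dual`); the dual rank formula
`Matroid.eRk_dual_add_eRank` for `M✶ ＼ C` and for `M✶` (with `M✶✶ = M`) gives for
`X ⊆ M.E \ C`: `(M ／ C).eRk X + M.eRk C = M.eRk (X ∪ C)` (all numbers are finite).  Or with a basis
`I` of `C` and a basis of `X ∪ C` containing `I` (`Matroid.Indep.contract_indep_iff`,
`IsBasis.contract_eq_contract_delete`).  `C ⊆ E`, `X ⊆ E \ C`, `E` is the ground set. -/
theorem rf_contract (M : Matroid α) (E C X : Finset α) (hE : (E : Set α) = M.E) (hC : C ⊆ E)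
    (hX : X ⊆ E \ C) : (rf (M ／ (C : Set α))).r X = ((rf M).con C).r X := by
  have hN : (((E \ C : Finset α)) : Set α) = (M✶ ＼ (C : Set α)).E := by
    rw [Matroid.delete_ground, Matroid.dual_ground, ← hE, Finset.coe_sdiff]
  have h1 := BrRank_dual (M✶ ＼ (C : Set α)) (E \ C) X hN hX
  rw [Matroid.dual_delete_dual] at h1
  have d1 : Disjoint (((E \ C : Finset α)) : Set α) (C : Set α) := by
    rw [Finset.disjoint_coe]
    exact Finset.sdiff_disjoint
  have d2 : Disjoint ((((E \ C) \ X : Finset α)) : Set α) (C : Set α) := by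
    rw [Finset.disjoint_coe]
    exact Finset.sdiff_disjoint.mono_left Finset.sdiff_subset
  rw [rf_delete _ _ _ d1, rf_delete _ _ _ d2] at h1
  have h2 := BrRank_dual M E (E \ C) hE Finset.sdiff_subset
  have h3 := BrRank_dual M E ((E \ C) \ X) hE (Finset.sdiff_subset.trans Finset.sdiff_subset)
  have e1 : E \ (E \ C) = C := by
    ext a
    simp only [Finset.mem_sdiff]
    have := @hC a
    tauto
  have e2 : E \ ((E \ C) \ X) = X ∪ C := by
    ext a
    simp only [Finset.mem_sdiff, Finset.mem_union]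
    have q1 := @hC a
    have q2 := @hX a
    simp only [Finset.mem_sdiff] at q2
    tauto
  rw [e1] at h2
  rw [e2] at h3
  have h4 := (rf M).con_add C X
  have h5 := Finset.card_sdiff_add_card_eq_card hX
  omega

end Pool.Agent.H.MP_60a1a2_co
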