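import Mathlib

/-! # Colourings in which no given set is separated, and the numerical inequality -/

set_option autoImplicit false

namespace Pool.Agent.H.MP_60a1a2_co

/-- functions which use the colours of `J` on `A` and the others outside `A` -/
def Color_D (K : ℕ) (V A : Finset ℕ) (J : Finset (Fin (K + 1))) :
    Finset ({v // v ∈ V} → Fin (K + 1)) :=
  Fintype.piFinset fun v => if (v : ℕ) ∈ A then J else Jᶜ

theorem Color_D_card (K : ℕ) (V A : Finset ℕ) (J : Finset (Fin (K + 1))) (hA : A ⊆ V)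
    (hne : A.Nonempty) (hAV : A ≠ V) : (Color_D K V A J).card ≤ K ^ V.card := by
  unfold Color_D
  rw [Fintype.card_piFinset]
  have hJc : J.card + Jᶜ.card = K + 1 := by
    rw [Finset.card_add_card_compl, Fintype.card_fin]
  by_cases h0 : J.card = 0
  · obtain ⟨a, ha⟩ := hne
    rw [Finset.prod_eq_zero (Finset.mem_univ (⟨a, hA ha⟩ : {v // v ∈ V}))]
    · exact Nat.zero_le _
    · simp only [ha, if_true]
      exact h0
  by_cases h1 : Jᶜ.card = 0
  · obtain ⟨b, hb, hbA⟩ : ∃ b ∈ V, b ∉ A := by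
      by_contra hcon
      push Not at hcon
      exact hAV (Finset.Subset.antisymm hA hcon)
    rw [Finset.prod_eq_zero (Finset.mem_univ (⟨b, hb⟩ : {v // v ∈ V}))]
    · exact Nat.zero_le _
    · simp only [hbA, if_false]
      exact h1
  calc ∏ v : {v // v ∈ V}, (if (v : ℕ) ∈ A then J else Jᶜ).card
      ≤ K ^ (Finset.univ : Finset {v // v ∈ V}).card := by
        apply Finset.prod_le_pow_card
        intro v _
        by_cases hv : (v : ℕ) ∈ A
        · rw [if_pos hv]
          omega
        · rw [if_neg hv]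
          omega
    _ = K ^ V.card := by
        rw [Finset.card_univ, Fintype.card_coe]

/-- A surjective colouring such that for every `A ∈ S` some colour occurs in `A` and outside `A`.

Proof.  Count the functions `c : V → Fin (K + 1)` (functions on the subtype `{v // v ∈ V}`);
there are `(K + 1) ^ V.card`.  For a colour `i` the functions which omit `i` are functions into a
set of size `K`: `K ^ V.card`.  For `A ∈ S` the functions for which no colour occurs both in `A` and
in `V \ A` belong, with `J` = the set of the colours on `A`, to the set `D J` of the functions with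
values in `J` on `A` and in the complement of `J` on `V \ A`; `J` is nonempty (`A` is nonempty) and
the complement of `J` is nonempty (`V \ A` is nonempty), so both have at most `K` elements, and
`D J` has `J.card ^ A.card * (K + 1 - J.card) ^ (V \ A).card ≤ K ^ V.card` elements; there are
`2 ^ (K + 1)` sets `J` (`Fintype.card_pi`, `Finset.card_pi` or `Fintype.piFinset`).  By `hcard`
some function is in none of the bad sets; extend it to `ℕ` arbitrarily. -/
theorem coloring (K : ℕ) (V : Finset ℕ) (S : Finset (Finset ℕ))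
    (hS : ∀ A ∈ S, A ⊆ V ∧ A.Nonempty ∧ A ≠ V)
    (hcard : S.card * (2 ^ (K + 1) * K ^ V.card) + (K + 1) * K ^ V.card < (K + 1) ^ V.card) :
    ∃ χ : ℕ → Fin (K + 1), (∀ i, ∃ v ∈ V, χ v = i) ∧
      ∀ A ∈ S, ∃ u ∈ A, ∃ v ∈ V \ A, χ u = χ v := by
  classical
  have hb1 : (S.biUnion fun A => (Finset.univ : Finset (Finset (Fin (K + 1)))).biUnion fun J =>
      Color_D K V A J).card ≤ S.card * (2 ^ (K + 1) * K ^ V.card) := by
    apply Finset.card_biUnion_le_card_mul
    intro A hA
    obtain ⟨h1, h2, h3⟩ := hS A hA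
    have h4 := Finset.card_biUnion_le_card_mul (Finset.univ : Finset (Finset (Fin (K + 1))))
      (fun J => Color_D K V A J) (K ^ V.card) (fun J _ => Color_D_card K V A J h1 h2 h3)
    rw [Finset.card_univ, Fintype.card_finset, Fintype.card_fin] at h4
    exact h4
  have hb2 : ((Finset.univ : Finset (Fin (K + 1))).biUnion fun i =>
      (Fintype.piFinset fun _ : {v // v ∈ V} => ({i}ᶜ : Finset (Fin (K + 1))))).card
        ≤ (K + 1) * K ^ V.card := by
    have h4 := Finset.card_biUnion_le_card_mul (Finset.univ : Finset (Fin (K + 1)))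
      (fun i => Fintype.piFinset fun _ : {v // v ∈ V} => ({i}ᶜ : Finset (Fin (K + 1))))
      (K ^ V.card) (fun i _ => by
        rw [Fintype.card_piFinset, Finset.prod_const, Finset.card_univ, Fintype.card_coe,
          Finset.card_compl, Fintype.card_fin, Finset.card_singleton, Nat.add_sub_cancel])
    rw [Finset.card_univ, Fintype.card_fin] at h4
    exact h4
  have htot : (Finset.univ : Finset ({v // v ∈ V} → Fin (K + 1))).card = (K + 1) ^ V.card := by
    rw [Finset.card_univ, Fintype.card_fun, Fintype.card_fin, Fintype.card_coe]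
  have hlt : ((S.biUnion fun A => (Finset.univ : Finset (Finset (Fin (K + 1)))).biUnion fun J =>
      Color_D K V A J) ∪ ((Finset.univ : Finset (Fin (K + 1))).biUnion fun i =>
      (Fintype.piFinset fun _ : {v // v ∈ V} => ({i}ᶜ : Finset (Fin (K + 1)))))).card
      < (Finset.univ : Finset ({v // v ∈ V} → Fin (K + 1))).card := by
    rw [htot]
    refine lt_of_le_of_lt (Finset.card_union_le _ _) ?_
    omega
  obtain ⟨c, -, hc⟩ := Finset.exists_mem_notMem_of_card_lt_card hlt
  rw [Finset.mem_union, not_or] at hc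
  obtain ⟨hc1, hc2⟩ := hc
  refine ⟨fun n => if h : n ∈ V then c ⟨n, h⟩ else 0, ?_, ?_⟩
  · intro i
    by_contra hcon
    push Not at hcon
    apply hc2
    rw [Finset.mem_biUnion]
    refine ⟨i, Finset.mem_univ i, ?_⟩
    rw [Fintype.mem_piFinset]
    intro v
    rw [Finset.mem_compl, Finset.mem_singleton]
    have h1 := hcon v v.2
    rw [dif_pos v.2] at h1
    exact h1
  · intro A hA
    obtain ⟨h1, h2, h3⟩ := hS A hA
    by_contra hcon
    push Not at hcon
    apply hc1
    rw [Finset.mem_biUnion]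
    refine ⟨A, hA, ?_⟩
    rw [Finset.mem_biUnion]
    refine ⟨Finset.univ.filter fun j => ∃ v : {v // v ∈ V}, (v : ℕ) ∈ A ∧ c v = j,
      Finset.mem_univ _, ?_⟩
    unfold Color_D
    rw [Fintype.mem_piFinset]
    intro v
    by_cases hv : (v : ℕ) ∈ A
    · rw [if_pos hv, Finset.mem_filter]
      exact ⟨Finset.mem_univ _, v, hv, rfl⟩
    · rw [if_neg hv, Finset.mem_compl, Finset.mem_filter]
      rintro ⟨-, u, hu, huv⟩
      have h4 := hcon u hu v (Finset.mem_sdiff.2 ⟨v.2, hv⟩)
      rw [dif_pos u.2, dif_pos v.2] at h4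
      exact h4 huv

/-- number of subsets with at most `t` elements

Proof: for `t = 0` only the empty set.  Every subset with at most `t` elements is the set of the
values in `X` of some function `Fin t → Option X` (or: induction on `t`: every such set is
`s` or `insert x s` with `s` of size `≤ t - 1`). -/
theorem card_small {α : Type*} [DecidableEq α] (X : Finset α) (t : ℕ) :
    (X.powerset.filter (fun s => s.card ≤ t)).card ≤ (X.card + 1) ^ t := by
  induction t with
  | zero =>
    rw [pow_zero]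
    apply Finset.card_le_one.2
    intro a ha b hb
    rw [Finset.mem_filter] at ha hb
    rw [Finset.card_eq_zero.1 (Nat.le_zero.1 ha.2), Finset.card_eq_zero.1 (Nat.le_zero.1 hb.2)]
  | succ t ih =>
    have hsub : X.powerset.filter (fun s => s.card ≤ t + 1) ⊆
        ((X.powerset.filter (fun s => s.card ≤ t)) ×ˢ X.insertNone).image
          (fun q => q.2.elim q.1 (fun x => insert x q.1)) := by
      intro s hs
      rw [Finset.mem_filter, Finset.mem_powerset] at hs
      rw [Finset.mem_image]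
      by_cases hst : s.card ≤ t
      · refine ⟨(s, none), ?_, rfl⟩
        rw [Finset.mem_product, Finset.mem_filter, Finset.mem_powerset]
        exact ⟨⟨hs.1, hst⟩, Finset.none_mem_insertNone⟩
      · obtain ⟨x, hx⟩ : s.Nonempty := Finset.card_pos.1 (by omega)
        refine ⟨(s.erase x, some x), ?_, ?_⟩
        · rw [Finset.mem_product, Finset.mem_filter, Finset.mem_powerset]
          refine ⟨⟨(Finset.erase_subset x s).trans hs.1, ?_⟩, ?_⟩
          · rw [Finset.card_erase_of_mem hx]
            omega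
          · rw [Finset.some_mem_insertNone]
            exact hs.1 hx
        · exact Finset.insert_erase hx
    calc (X.powerset.filter (fun s => s.card ≤ t + 1)).card
        ≤ (((X.powerset.filter (fun s => s.card ≤ t)) ×ˢ X.insertNone).image
          (fun q => q.2.elim q.1 (fun x => insert x q.1))).card := Finset.card_le_card hsub
      _ ≤ ((X.powerset.filter (fun s => s.card ≤ t)) ×ˢ X.insertNone).card :=
          Finset.card_image_le
      _ = (X.powerset.filter (fun s => s.card ≤ t)).card * (X.card + 1) := by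
          rw [Finset.card_product, Finset.card_insertNone]
      _ ≤ (X.card + 1) ^ t * (X.card + 1) := Nat.mul_le_mul_right _ ih
      _ = (X.card + 1) ^ (t + 1) := (pow_succ _ _).symm

/-- The numerical inequality.

Proof.  The left side is at most `(2 ^ (K + 1) + K + 1) * ((L + 1) ^ t * ((L + 1) ^ 2 + 1) ^ t) *
K ^ (L + 1)`, a polynomial in `L` times `K ^ (L + 1)`, and `(K / (K + 1)) ^ (L + 1) * polynomial`
tends to `0` (for example `tendsto_pow_const_mul_const_pow_of_abs_lt_one`). -/
theorem ineq (K t : ℕ) : ∃ L0 : ℕ, ∀ L ≥ L0,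
    ((L + 1) ^ t * ((L + 1) ^ 2 + 1) ^ t) * (2 ^ (K + 1) * K ^ (L + 1)) +
      (K + 1) * K ^ (L + 1) < (K + 1) ^ (L + 1) := by
  have hr : |(K : ℝ) / (K + 1)| < 1 := by
    rw [abs_of_nonneg (by positivity), div_lt_one (by positivity)]
    linarith
  have h1 := tendsto_pow_const_mul_const_pow_of_abs_lt_one (3 * t) hr
  have hC : (0 : ℝ) < 1 / (2 ^ t * 2 ^ (K + 1) + (K + 1)) := by positivity
  have h2 := h1.eventually (gt_mem_nhds hC)
  obtain ⟨N, hN⟩ := Filter.eventually_atTop.1 h2
  refine ⟨N, fun L hL => ?_⟩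
  have h3 := hN (L + 1) (by omega)
  have hn1 : (1 : ℝ) ≤ ((L + 1 : ℕ) : ℝ) := by
    push_cast
    have : (0 : ℝ) ≤ L := Nat.cast_nonneg L
    linarith
  obtain ⟨n, hn⟩ : ∃ n : ℕ, n = L + 1 := ⟨_, rfl⟩
  rw [← hn] at h3 hn1 ⊢
  have hKp : (0 : ℝ) < ((K : ℝ) + 1) ^ n := by positivity
  have h4 : (2 ^ t * 2 ^ (K + 1) + (K + 1)) * ((n : ℝ) ^ (3 * t) * (K : ℝ) ^ n)
      < ((K : ℝ) + 1) ^ n := by
    rw [div_pow, ← mul_div_assoc, div_lt_div_iff₀ hKp (by positivity)] at h3
    linarith
  have h5 : ((n : ℝ) ^ t * ((n : ℝ) ^ 2 + 1) ^ t) ≤ 2 ^ t * (n : ℝ) ^ (3 * t) := by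
    have h6 : (n : ℝ) ^ 2 + 1 ≤ 2 * (n : ℝ) ^ 2 := by nlinarith
    have h7 : ((n : ℝ) ^ 2 + 1) ^ t ≤ (2 * (n : ℝ) ^ 2) ^ t :=
      pow_le_pow_left₀ (by positivity) h6 t
    calc ((n : ℝ) ^ t * ((n : ℝ) ^ 2 + 1) ^ t) ≤ (n : ℝ) ^ t * (2 * (n : ℝ) ^ 2) ^ t :=
          mul_le_mul_of_nonneg_left h7 (by positivity)
      _ = 2 ^ t * (n : ℝ) ^ (3 * t) := by
          rw [mul_pow, ← pow_mul, pow_mul']
          ring
  have h8 : (1 : ℝ) ≤ (n : ℝ) ^ (3 * t) := one_le_pow₀ hn1
  have hKn : (0 : ℝ) ≤ (K : ℝ) ^ n := by positivity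
  have h9 : ((n : ℝ) ^ t * ((n : ℝ) ^ 2 + 1) ^ t) * (2 ^ (K + 1) * (K : ℝ) ^ n) +
      ((K : ℝ) + 1) * (K : ℝ) ^ n < ((K : ℝ) + 1) ^ n := by
    refine lt_of_le_of_lt ?_ h4
    have h10 : ((n : ℝ) ^ t * ((n : ℝ) ^ 2 + 1) ^ t) * (2 ^ (K + 1) * (K : ℝ) ^ n)
        ≤ (2 ^ t * (n : ℝ) ^ (3 * t)) * (2 ^ (K + 1) * (K : ℝ) ^ n) :=
      mul_le_mul_of_nonneg_right h5 (by positivity)
    have h11 : ((K : ℝ) + 1) * (K : ℝ) ^ n ≤ ((K : ℝ) + 1) * ((n : ℝ) ^ (3 * t) * (K : ℝ) ^ n) := by
      apply mul_le_mul_of_nonneg_left _ (by positivity)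
      exact le_mul_of_one_le_left hKn h8
    calc ((n : ℝ) ^ t * ((n : ℝ) ^ 2 + 1) ^ t) * (2 ^ (K + 1) * (K : ℝ) ^ n) +
          ((K : ℝ) + 1) * (K : ℝ) ^ n
        ≤ (2 ^ t * (n : ℝ) ^ (3 * t)) * (2 ^ (K + 1) * (K : ℝ) ^ n) +
          ((K : ℝ) + 1) * ((n : ℝ) ^ (3 * t) * (K : ℝ) ^ n) := add_le_add h10 h11
      _ = (2 ^ t * 2 ^ (K + 1) + (K + 1)) * ((n : ℝ) ^ (3 * t) * (K : ℝ) ^ n) := by ring
  exact_mod_cast h9

end Pool.Agent.H.MP_60a1a2_co
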