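import Pool.Agent.H.MP_60a1a2_co.ASLib

/-! # Homogeneous systems: uniform minor or a small family spanning all later blocks -/

set_option autoImplicit false

namespace Pool.Agent.H.MP_60a1a2_co

/-- the standard increasing sequence of blocks -/
private def dichFn (K : ℕ) (i : ℕ) (t : Fin K) : ℚ := (i : ℚ) * K + ((t : ℕ) : ℚ)

/-- the family of the standard blocks with index in `J` -/
private def dichB (K : ℕ) (J : Finset ℕ) : Finset (Finset (Fin K × ℚ)) :=
  J.image (fun i => blk (dichFn K i))

private theorem dich_lt {K i i' : ℕ} {t t' : Fin K} (h : i < i' ∨ (i = i' ∧ t < t')) :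
    dichFn K i t < dichFn K i' t' := by
  unfold dichFn
  rcases h with h | ⟨rfl, h⟩
  · have h1 : ((t : ℕ) : ℚ) + 1 ≤ K := by exact_mod_cast t.2
    have h2 : (i : ℚ) + 1 ≤ i' := by exact_mod_cast h
    have h3 : (0 : ℚ) ≤ ((t' : ℕ) : ℚ) := Nat.cast_nonneg _
    have h4 : (0 : ℚ) ≤ (K : ℚ) := Nat.cast_nonneg _
    nlinarith
  · have h1 : ((t : ℕ) : ℚ) < ((t' : ℕ) : ℚ) := by exact_mod_cast h
    linarith

private theorem dich_blk_nonempty {K : ℕ} (hK : 1 ≤ K) (u : Fin K → ℚ) : (blk u).Nonempty := by
  unfold blk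
  exact ⟨_, Finset.mem_image_of_mem _ (Finset.mem_univ (⟨0, hK⟩ : Fin K))⟩

private theorem dich_mem_blk {K : ℕ} (u : Fin K → ℚ) (x : Fin K × ℚ) :
    x ∈ blk u ↔ u x.1 = x.2 := by
  unfold blk
  rw [Finset.mem_image]
  constructor
  · rintro ⟨t, -, rfl⟩
    rfl
  · intro h
    exact ⟨x.1, Finset.mem_univ _, by rw [h]⟩

private theorem dich_lexinc_disj {j K : ℕ} {f : Fin j → Fin K → ℚ} (hf : LexInc f) {i i' : Fin j}
    (h : i ≠ i') : Disjoint (blk (f i)) (blk (f i')) := by
  rw [Finset.disjoint_left]
  intro x hx hx'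
  rw [dich_mem_blk] at hx hx'
  rcases lt_or_gt_of_ne h with h' | h'
  · have := hf i i' x.1 x.1 (Or.inl h')
    rw [hx, hx'] at this
    exact lt_irrefl _ this
  · have := hf i' i x.1 x.1 (Or.inl h')
    rw [hx, hx'] at this
    exact lt_irrefl _ this

private theorem dich_blks_DF {j K : ℕ} (hK : 1 ≤ K) {f : Fin j → Fin K → ℚ} (hf : LexInc f) :
    DF (fun _ => True) (blks f) := by
  constructor
  · intro A hA
    unfold blks at hA
    rw [Finset.mem_image] at hA
    obtain ⟨i, -, rfl⟩ := hA
    exact ⟨dich_blk_nonempty hK _, fun _ _ => trivial⟩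
  · intro A hA B hB hAB
    unfold blks at hA hB
    rw [Finset.mem_image] at hA hB
    obtain ⟨i, -, rfl⟩ := hA
    obtain ⟨i', -, rfl⟩ := hB
    exact dich_lexinc_disj hf (fun h => hAB (by rw [h]))

private theorem dich_inj {K : ℕ} (hK : 1 ≤ K) :
    Function.Injective (fun i => blk (dichFn K i)) := by
  intro i i' h
  by_contra hne
  simp only at h
  have hx : ((⟨0, hK⟩ : Fin K), dichFn K i ⟨0, hK⟩) ∈ blk (dichFn K i) := by
    rw [dich_mem_blk]
  rw [h, dich_mem_blk] at hx
  rcases lt_or_gt_of_ne hne with h' | h'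
  · have := dich_lt (K := K) (t := ⟨0, hK⟩) (t' := ⟨0, hK⟩) (Or.inl h')
    simp only at hx
    rw [hx] at this
    exact lt_irrefl _ this
  · have := dich_lt (K := K) (t := ⟨0, hK⟩) (t' := ⟨0, hK⟩) (Or.inl h')
    simp only at hx
    rw [hx] at this
    exact lt_irrefl _ this

private theorem dich_B_eq {K : ℕ} (J : Finset ℕ) {j : ℕ} (hj : J.card = j) :
    ∃ f : Fin j → Fin K → ℚ, LexInc f ∧ blks f = dichB K J := by
  refine ⟨fun i => dichFn K (J.orderEmbOfFin hj i), ?_, ?_⟩
  · intro i i' t t' h
    apply dich_lt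
    rcases h with h | ⟨rfl, h⟩
    · exact Or.inl ((J.orderEmbOfFin hj).strictMono h)
    · exact Or.inr ⟨rfl, h⟩
  · unfold blks dichB
    ext A
    rw [Finset.mem_image, Finset.mem_image]
    constructor
    · rintro ⟨i, -, rfl⟩
      exact ⟨_, Finset.orderEmbOfFin_mem J hj i, rfl⟩
    · rintro ⟨n, hn, rfl⟩
      have : n ∈ Set.range (J.orderEmbOfFin hj) := by
        rw [Finset.range_orderEmbOfFin]; exact hn
      obtain ⟨i, rfl⟩ := this
      exact ⟨i, Finset.mem_univ _, rfl⟩

private theorem dich_B_DF {K : ℕ} (hK : 1 ≤ K) (J : Finset ℕ) :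
    DF (fun _ => True) (dichB K J) := by
  obtain ⟨f, hf, he⟩ := dich_B_eq (K := K) J rfl
  rw [← he]
  exact dich_blks_DF hK hf

private theorem dich_B_card {K : ℕ} (hK : 1 ≤ K) (J : Finset ℕ) : (dichB K J).card = J.card :=
  Finset.card_image_of_injective _ (dich_inj hK)

private theorem dich_rank {K : ℕ} (hK : 1 ≤ K) {g : Finset (Finset (Fin K × ℚ)) → ℕ}
    (hg : AS (fun _ => True) K g) {ρ : ℕ}
    (h1 : ∀ f : Fin ρ → Fin K → ℚ, LexInc f → g (blks f) = ρ)
    (h2 : ∀ f : Fin (ρ + 1) → Fin K → ℚ, LexInc f → g (blks f) ≤ ρ) (J : Finset ℕ) :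
    g (dichB K J) = min J.card ρ := by
  have e1 : ∀ J : Finset ℕ, J.card = ρ → g (dichB K J) = ρ := by
    intro J hJ
    obtain ⟨f, hf, he⟩ := dich_B_eq (K := K) J hJ
    rw [← he]; exact h1 f hf
  have e2 : ∀ J : Finset ℕ, J.card = ρ + 1 → g (dichB K J) ≤ ρ := by
    intro J hJ
    obtain ⟨f, hf, he⟩ := dich_B_eq (K := K) J hJ
    rw [← he]; exact h2 f hf
  rcases le_total J.card ρ with hc | hc
  · rw [min_eq_left hc]
    obtain ⟨J', hJ', hc'⟩ := Infinite.exists_superset_card_eq J ρ hc
    have hsub : dichB K J ⊆ dichB K J' := Finset.image_subset_image hJ'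
    have a1 := hg.unit' (dich_B_DF hK J') hsub
    rw [Finset.card_sdiff_of_subset hsub, dich_B_card hK, dich_B_card hK, hc', e1 J' hc'] at a1
    have a2 := hg.unit' (dich_B_DF hK J) (Finset.empty_subset _)
    rw [hg.zero, Finset.sdiff_empty, dich_B_card hK] at a2
    omega
  · rw [min_eq_right hc]
    obtain ⟨J', hJ', hc'⟩ := Finset.exists_subset_card_eq hc
    have hsub : dichB K J' ⊆ dichB K J := Finset.image_subset_image hJ'
    have hun : dichB K J' ∪ dichB K J = dichB K J := Finset.union_eq_right.2 hsub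
    have hz := hg.zfam (F := dichB K J') (G := dichB K J) (by rw [hun]; exact dich_B_DF hK J) ?_
    · rw [hun, e1 J' hc'] at hz
      exact hz
    · intro A hA
      by_cases hAJ : A ∈ dichB K J'
      · exact Or.inl hAJ
      · right
        unfold dichB at hA
        rw [Finset.mem_image] at hA
        obtain ⟨i, hi, rfl⟩ := hA
        have hiJ : i ∉ J' := fun h => hAJ (Finset.mem_image_of_mem _ h)
        have hins : insert (blk (dichFn K i)) (dichB K J') = dichB K (insert i J') := by
          unfold dichB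
          rw [Finset.image_insert]
        refine ⟨?_, hAJ, ?_⟩
        · rw [hins]; exact dich_B_DF hK _
        · apply le_antisymm
          · rw [hins, e1 J' hc']
            apply e2
            rw [Finset.card_insert_of_notMem hiJ, hc']
          · apply hg.mono
            rw [hins]; exact dich_B_DF hK _

/-- The dichotomy.

Proof.  Call `j` good if the first alternative of `hH j` holds.  `0` is good if `Fin 0`: the only `f`
has `blks f = ∅`, rank `0` (if the second alternative is given for `j = 0`, it is impossible: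
`g < 0`).  No `j > K` is good (`AS.bd`, there are `LexInc` functions).  Let `ρ` be the largest good
`j` (`Nat.findGreatest` or the maximum of the good `j ≤ K`); `ρ + 1` is not good, so all `LexInc`
sequences of `ρ + 1` blocks have rank `≤ ρ` (second alternative).
Blocks of a `LexInc` `f` are nonempty (`1 ≤ K`), pairwise disjoint and different.
Case `k ≤ ρ`.  `f : Fin (ρ + k) → Fin K → ℚ`, `f i t = i * K + t`.  For `J : Finset (Fin (ρ + k))`
let `b J = J.image (fun i => blk (f i))`.  If `J.card = ρ` then `g (b J) = ρ` (`J` in increasing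
order, `J.orderEmbOfFin`, composed with `f` is `LexInc`, first alternative for `ρ`); if
`J.card = ρ + 1` then `g (b J) ≤ ρ`.  So `g (b J) = min J.card ρ`: for `J.card ≤ ρ` extend `J` to
`J'` with `ρ` elements, `ρ = g (b J') ≤ g (b J) + (ρ - J.card)` (`AS.unit'`); for `J.card > ρ` take
`J' ⊆ J` with `ρ` elements, all other blocks are in the closure of `b J'`, `AS.zfam`.
The minor: `F = b {i | i < ρ - k}`, `B t = blk (f (ρ - k + t))` for `t : Fin (2 * k)`:
`g (F ∪ J.image B) = min (ρ - k + J.card) ρ = (ρ - k) + min J.card k`.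
Case `ρ < k`.  `F0 = blks f` with `f : Fin ρ → Fin K → ℚ`, `f i t = i * K + t - ρ * K` (negative);
`g F0 = ρ`.  For `u` strictly increasing with positive values `Fin.snoc f u` is `LexInc`, with the
blocks `insert (blk u) F0`, so `g (insert (blk u) F0) ≤ ρ`, and `≥ g F0` by `AS.mono`. -/
theorem dich (K k : ℕ) (hK : 1 ≤ K) (hk : 1 ≤ k)
    (g : Finset (Finset (Fin K × ℚ)) → ℕ) (hg : AS (fun _ => True) K g) (hH : Hom g) :
    Out (fun _ => True) g (unif k) ∨ ∃ F0 : Finset (Finset (Fin K × ℚ)),
      DF (fun _ => True) F0 ∧ (∀ A ∈ F0, ∀ x ∈ A, x.2 < 0) ∧ g F0 < k ∧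
      ∀ u : Fin K → ℚ, StrictMono u → (∀ t, 0 < u t) → g (insert (blk u) F0) = g F0 := by
  classical
  -- the number `ρ`
  obtain ⟨ρ, h1, h2'⟩ : ∃ ρ : ℕ, (∀ f : Fin ρ → Fin K → ℚ, LexInc f → g (blks f) = ρ) ∧
      ¬ (∀ f : Fin (ρ + 1) → Fin K → ℚ, LexInc f → g (blks f) = ρ + 1) := by
    by_contra hno
    push Not at hno
    have hall : ∀ j : ℕ, ∀ f : Fin j → Fin K → ℚ, LexInc f → g (blks f) = j := by
      intro j
      induction j with
      | zero =>
        intro f _
        have : blks f = ∅ := by
          unfold blks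
          simp
        rw [this, hg.zero]
      | succ j ih => exact hno j ih
    obtain ⟨f, hf, -⟩ := dich_B_eq (K := K) (Finset.range (K + 1)) (Finset.card_range _)
    have h3 := hall _ f hf
    have h4 := hg.bd _ (dich_blks_DF hK hf)
    omega
  have h2 : ∀ f : Fin (ρ + 1) → Fin K → ℚ, LexInc f → g (blks f) ≤ ρ := by
    rcases hH (ρ + 1) with h | h
    · exact absurd h h2'
    · intro f hf
      have := h f hf
      omega
  rcases le_or_gt k ρ with hkρ | hkρ
  · left
    have hr := dich_rank hK hg h1 h2
    have hset : ∀ J : Finset (Fin (2 * k)),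
        dichB K (Finset.range (ρ - k)) ∪ J.image (fun t : Fin (2 * k) => blk (dichFn K (ρ - k + (t : ℕ)))) =
          dichB K (Finset.range (ρ - k) ∪ J.image (fun t : Fin (2 * k) => ρ - k + (t : ℕ))) := by
      intro J
      unfold dichB
      rw [Finset.image_union, Finset.image_image]
      rfl
    have hcard : ∀ J : Finset (Fin (2 * k)),
        (Finset.range (ρ - k) ∪ J.image (fun t : Fin (2 * k) => ρ - k + (t : ℕ))).card = (ρ - k) + J.card := by
      intro J
      rw [Finset.card_union_of_disjoint, Finset.card_range, Finset.card_image_of_injective]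
      · intro a b hab
        simp only at hab
        exact Fin.ext (by omega)
      · rw [Finset.disjoint_left]
        intro x hx hx'
        rw [Finset.mem_range] at hx
        rw [Finset.mem_image] at hx'
        obtain ⟨t, -, rfl⟩ := hx'
        omega
    refine ⟨dichB K (Finset.range (ρ - k)), fun t => blk (dichFn K (ρ - k + (t : ℕ))), ?_, ?_, ?_,
      ?_⟩
    · intro a b hab
      have := dich_inj hK hab
      exact Fin.ext (by omega)
    · intro t ht
      unfold dichB at ht
      rw [Finset.mem_image] at ht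
      obtain ⟨i, hi, he⟩ := ht
      have := dich_inj hK he
      rw [Finset.mem_range] at hi
      omega
    · rw [hset]; exact dich_B_DF hK _
    · intro J
      rw [hset, hr, hr, hcard, Finset.card_range]
      unfold unif
      omega
  · right
    set f : Fin ρ → Fin K → ℚ := fun i t => dichFn K (i : ℕ) t - (ρ : ℚ) * K with hfdef
    have hf : LexInc f := by
      intro i i' t t' h
      have : dichFn K (i : ℕ) t < dichFn K (i' : ℕ) t' := by
        apply dich_lt
        rcases h with h | ⟨rfl, h⟩
        · exact Or.inl h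
        · exact Or.inr ⟨rfl, h⟩
      simp only [hfdef]
      linarith
    have hneg : ∀ i t, f i t < 0 := by
      intro i t
      simp only [hfdef, dichFn]
      have h3 : ((t : ℕ) : ℚ) + 1 ≤ K := by exact_mod_cast t.2
      have h4 : ((i : ℕ) : ℚ) + 1 ≤ ρ := by exact_mod_cast i.2
      have h5 : (0 : ℚ) ≤ (K : ℚ) := Nat.cast_nonneg _
      nlinarith
    refine ⟨blks f, dich_blks_DF hK hf, ?_, ?_, ?_⟩
    · intro A hA x hx
      unfold blks at hA
      rw [Finset.mem_image] at hA
      obtain ⟨i, -, rfl⟩ := hA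
      rw [dich_mem_blk] at hx
      rw [← hx]
      exact hneg _ _
    · rw [h1 f hf]; exact hkρ
    · intro u hu hpos
      have hsn : LexInc (Fin.snoc f u : Fin (ρ + 1) → Fin K → ℚ) := by
        intro i i' t t'
        refine Fin.lastCases ?_ (fun i => ?_) i
        · refine Fin.lastCases ?_ (fun i' => ?_) i'
          · intro h
            simp only [Fin.snoc_last]
            rcases h with h | ⟨-, h⟩
            · exact absurd h (lt_irrefl _)
            · exact hu h
          · intro h
            exfalso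
            rcases h with h | ⟨h, -⟩
            · exact absurd h (not_lt.2 (Fin.castSucc_lt_last i').le)
            · exact (Fin.castSucc_lt_last i').ne' h
        · refine Fin.lastCases ?_ (fun i' => ?_) i'
          · intro h
            simp only [Fin.snoc_last, Fin.snoc_castSucc]
            exact (hneg i t).trans (hpos t')
          · intro h
            simp only [Fin.snoc_castSucc]
            apply hf
            rcases h with h | ⟨h, h'⟩
            · exact Or.inl (Fin.castSucc_lt_castSucc_iff.1 h)
            · exact Or.inr ⟨Fin.castSucc_injective _ h, h'⟩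
      have hbl : blks (Fin.snoc f u : Fin (ρ + 1) → Fin K → ℚ) = insert (blk u) (blks f) := by
        unfold blks
        ext A
        rw [Finset.mem_insert, Finset.mem_image, Finset.mem_image]
        constructor
        · rintro ⟨i, -, rfl⟩
          refine Fin.lastCases ?_ (fun i => ?_) i
          · left
            rw [Fin.snoc_last]
          · right
            refine ⟨i, Finset.mem_univ _, ?_⟩
            rw [Fin.snoc_castSucc]
        · rintro (rfl | ⟨i, -, rfl⟩)
          · exact ⟨Fin.last ρ, Finset.mem_univ _, by rw [Fin.snoc_last]⟩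
          · exact ⟨i.castSucc, Finset.mem_univ _, by rw [Fin.snoc_castSucc]⟩
      apply le_antisymm
      · rw [h1 f hf, ← hbl]
        exact h2 _ hsn
      · apply hg.mono
        rw [← hbl]
        exact dich_blks_DF hK hsn

end Pool.Agent.H.MP_60a1a2_co
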