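import Pool.Agent.H.MP_60a1a2_co.ASLib

/-! # Limits of additive systems, transfer of minors -/

set_option autoImplicit false

namespace Pool.Agent.H.MP_60a1a2_co

variable {β β' : Type} [DecidableEq β] [DecidableEq β']

omit [DecidableEq β] in
theorem LimAS_df {P P' : β → Prop} (hP : ∀ x, P' x → P x) {F : Finset (Finset β)}
    (h : DF P' F) : DF P F :=
  ⟨fun A hA => ⟨(h.1 A hA).1, fun x hx => hP x ((h.1 A hA).2 x hx)⟩, h.2⟩

omit [DecidableEq β] in
theorem LimAS_ev (P : ℕ → β → Prop) (P' : β → Prop) (l : Filter ℕ)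
    (hP : ∀ x, P' x → ∀ᶠ n in l, P n x) {F : Finset (Finset β)} (h : DF P' F) :
    ∀ᶠ n in l, DF (P n) F := by
  have h1 : ∀ᶠ n in l, ∀ A ∈ F, ∀ x ∈ A, P n x := by
    rw [Filter.eventually_all_finset]
    intro A hA
    rw [Filter.eventually_all_finset]
    intro x hx
    exact hP x ((h.1 A hA).2 x hx)
  filter_upwards [h1] with n hn
  exact ⟨fun A hA => ⟨(h.1 A hA).1, hn A hA⟩, h.2⟩

theorem LimAS_union {P : β → Prop} {F : Finset (Finset β)} {A B : Finset β}
    (h : DF P (insert A (insert B F))) (hA : A ∉ F) (hB : B ∉ F) (_ : A ≠ B) :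
    DF P (insert (A ∪ B) F) := by
  have h1 := DF.insert_iff.1 h
  have h2 := DF.insert_iff.1 h1.1
  rw [DF.insert_iff]
  refine ⟨h2.1, h1.2.1.mono Finset.subset_union_left, ?_, ?_⟩
  · intro x hx
    rcases Finset.mem_union.1 hx with hx | hx
    · exact h1.2.2.1 x hx
    · exact h2.2.2.1 x hx
  · intro C hC _
    rw [Finset.disjoint_union_left]
    refine ⟨h1.2.2.2 C (Finset.mem_insert_of_mem hC) ?_, h2.2.2.2 C hC ?_⟩
    · rintro rfl
      exact hA hC
    · rintro rfl
      exact hB hC

/-- Limits of additive systems.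

Proof.  Let `U = Filter.hyperfilter ℕ` (an ultrafilter with `U ≤ atTop`, since `cofinite = atTop`
on `ℕ`).  For a family `F` with `DF P' F` we have `DF (P n) F` for `U`-almost all `n` (finitely many
elements), so `g n F ≤ K` for almost all `n`, and there is exactly one `v` with `g n F = v` for
almost all `n` (finite union of sets in an ultrafilter); let `g' F` be this `v` (and `0` if
`DF P' F` fails).  Every axiom for `g'` concerns finitely many families with `DF P'`
(`DF P' (insert (A ∪ B) F)` follows from `DF P' (insert A (insert B F))`); for almost all `n` all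
the values agree with those of `g n` and the axiom holds for `g n`.  The last statement: for
almost all `n` all values for `F ∈ S` agree, and `n ≥ N` for almost all `n`; the filter is
nontrivial. -/
theorem limAS (K : ℕ) (P : ℕ → β → Prop) (g : ℕ → Finset (Finset β) → ℕ)
    (hg : ∀ n, AS (P n) K (g n)) (P' : β → Prop)
    (hP : ∀ x, P' x → ∀ᶠ n in Filter.atTop, P n x) :
    ∃ g' : Finset (Finset β) → ℕ, AS P' K g' ∧
      ∀ S : Finset (Finset (Finset β)), (∀ F ∈ S, DF P' F) → ∀ N : ℕ,
        ∃ n, N ≤ n ∧ ∀ F ∈ S, g n F = g' F := by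
  classical
  let U : Ultrafilter ℕ := Filter.hyperfilter ℕ
  have hU : (U : Filter ℕ) ≤ Filter.atTop := by
    rw [← Nat.cofinite_eq_atTop]
    exact Filter.hyperfilter_le_cofinite
  have hPU : ∀ x, P' x → ∀ᶠ n in (U : Filter ℕ), P n x := fun x hx =>
    (hP x hx).filter_mono hU
  have hex : ∀ F, DF P' F → ∃ v, ∀ᶠ n in (U : Filter ℕ), g n F = v := by
    intro F hF
    by_contra hcon
    push Not at hcon
    have h1 : ∀ᶠ n in (U : Filter ℕ), ∀ v ∈ Finset.range (K + 1), ¬ g n F = v := by
      rw [Filter.eventually_all_finset]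
      intro v _
      exact hcon v
    obtain ⟨n, hn1, hn2⟩ := (h1.and (LimAS_ev P P' U hPU hF)).exists
    exact hn1 (g n F) (Finset.mem_range.2 (Nat.lt_succ_of_le ((hg n).bd F hn2))) rfl
  let g' : Finset (Finset β) → ℕ := fun F =>
    if h : ∃ v, ∀ᶠ n in (U : Filter ℕ), g n F = v then h.choose else 0
  have hg' : ∀ F, DF P' F → ∀ᶠ n in (U : Filter ℕ), g n F = g' F := by
    intro F hF
    have h := hex F hF
    simp only [g', dif_pos h]
    exact h.choose_spec
  have key : ∀ S : Finset (Finset (Finset β)), (∀ F ∈ S, DF P' F) → ∀ N : ℕ,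
      ∃ n, N ≤ n ∧ ∀ F ∈ S, DF (P n) F ∧ g n F = g' F := by
    intro S hS N
    have h1 : ∀ᶠ n in (U : Filter ℕ), ∀ F ∈ S, DF (P n) F ∧ g n F = g' F := by
      rw [Filter.eventually_all_finset]
      intro F hF
      exact (LimAS_ev P P' U hPU (hS F hF)).and (hg' F (hS F hF))
    have h2 : ∀ᶠ n in (U : Filter ℕ), N ≤ n := (Filter.eventually_ge_atTop N).filter_mono hU
    obtain ⟨n, hn1, hn2⟩ := (h1.and h2).exists
    exact ⟨n, hn2, hn1⟩
  refine ⟨g', ?_, fun S hS N => ?_⟩
  · refine ⟨?_, ?_, ?_, ?_, ?_, ?_, ?_⟩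
    · obtain ⟨n, -, hn⟩ := key {∅} (by
        intro F hF
        rw [Finset.mem_singleton.1 hF]
        exact DF.empty) 0
      rw [← (hn ∅ (Finset.mem_singleton_self _)).2]
      exact (hg n).zero
    · intro F hF
      obtain ⟨n, -, hn⟩ := key {F} (by
        intro G hG
        rw [Finset.mem_singleton.1 hG]
        exact hF) 0
      have h1 := hn F (Finset.mem_singleton_self _)
      rw [← h1.2]
      exact (hg n).bd F h1.1
    · intro A F hF
      obtain ⟨n, -, hn⟩ := key {insert A F, F} (by
        intro G hG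
        rw [Finset.mem_insert, Finset.mem_singleton] at hG
        rcases hG with rfl | rfl
        · exact hF
        · exact hF.subset (Finset.subset_insert _ _)) 0
      have h1 := hn (insert A F) (by simp)
      have h2 := hn F (by simp)
      rw [← h1.2, ← h2.2]
      exact (hg n).mono A F h1.1
    · intro A F hF
      obtain ⟨n, -, hn⟩ := key {insert A F, F} (by
        intro G hG
        rw [Finset.mem_insert, Finset.mem_singleton] at hG
        rcases hG with rfl | rfl
        · exact hF
        · exact hF.subset (Finset.subset_insert _ _)) 0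
      have h1 := hn (insert A F) (by simp)
      have h2 := hn F (by simp)
      rw [← h1.2, ← h2.2]
      exact (hg n).unit A F h1.1
    · intro A B F hF hA hB hAB
      obtain ⟨n, -, hn⟩ := key {insert A (insert B F), insert A F, insert B F, F} (by
        intro G hG
        simp only [Finset.mem_insert, Finset.mem_singleton] at hG
        rcases hG with rfl | rfl | rfl | rfl
        · exact hF
        · exact hF.subset (Finset.insert_subset_insert _ (Finset.subset_insert _ _))
        · exact hF.subset (Finset.subset_insert _ _)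
        · exact hF.subset ((Finset.subset_insert _ _).trans (Finset.subset_insert _ _))) 0
      have h1 := hn (insert A (insert B F)) (by simp)
      have h2 := hn (insert A F) (by simp)
      have h3 := hn (insert B F) (by simp)
      have h4 := hn F (by simp)
      rw [← h1.2, ← h2.2, ← h3.2, ← h4.2]
      exact (hg n).sub A B F h1.1 hA hB hAB
    · intro A B F hF hA hB hAB
      obtain ⟨n, -, hn⟩ := key {insert A (insert B F), insert A F, insert (A ∪ B) F, F} (by
        intro G hG
        simp only [Finset.mem_insert, Finset.mem_singleton] at hG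
        rcases hG with rfl | rfl | rfl | rfl
        · exact hF
        · exact hF.subset (Finset.insert_subset_insert _ (Finset.subset_insert _ _))
        · exact LimAS_union hF hA hB hAB
        · exact hF.subset ((Finset.subset_insert _ _).trans (Finset.subset_insert _ _))) 0
      have h1 := hn (insert A (insert B F)) (by simp)
      have h2 := hn (insert A F) (by simp)
      have h3 := hn (insert (A ∪ B) F) (by simp)
      have h4 := hn F (by simp)
      rw [← h1.2, ← h2.2, ← h3.2, ← h4.2]
      exact (hg n).spl A B F h1.1 hA hB hAB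
    · intro A B F hF hA hB hAB
      obtain ⟨n, -, hn⟩ := key {insert A (insert B F), insert (A ∪ B) F} (by
        intro G hG
        simp only [Finset.mem_insert, Finset.mem_singleton] at hG
        rcases hG with rfl | rfl
        · exact hF
        · exact LimAS_union hF hA hB hAB) 0
      have h1 := hn (insert A (insert B F)) (by simp)
      have h3 := hn (insert (A ∪ B) F) (by simp)
      rw [← h1.2, ← h3.2]
      exact (hg n).mrg A B F h1.1 hA hB hAB
  · obtain ⟨n, hn1, hn2⟩ := key S hS N
    exact ⟨n, hn1, fun F hF => (hn2 F hF).2⟩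

/-- Minors of a limit are minors of some member of the sequence.

Proof.  Take `S` = the set of all families `F ∪ J.image B` (`J : Finset τ`), and `N` so large that
`P n x` holds for all `n ≥ N` and all elements `x` of the members of `F` and of the `B t`. -/
theorem Out.lim (P : ℕ → β → Prop) (g : ℕ → Finset (Finset β) → ℕ) (P' : β → Prop)
    (hP : ∀ x, P' x → ∀ᶠ n in Filter.atTop, P n x) (g' : Finset (Finset β) → ℕ)
    (hg' : ∀ S : Finset (Finset (Finset β)), (∀ F ∈ S, DF P' F) → ∀ N : ℕ,
        ∃ n, N ≤ n ∧ ∀ F ∈ S, g n F = g' F) {τ : Type} [DecidableEq τ] [Fintype τ]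
    {h : Finset τ → ℕ} (ho : Out P' g' h) : ∃ n, Out (P n) (g n) h := by
  obtain ⟨F, B, hinj, hBF, hdf, hrk⟩ := ho
  obtain ⟨N, hN⟩ := Filter.eventually_atTop.1 (LimAS_ev P P' Filter.atTop hP hdf)
  have hsub : ∀ J : Finset τ, F ∪ J.image B ⊆ F ∪ Finset.univ.image B := fun J =>
    Finset.union_subset_union_right (Finset.image_subset_image (Finset.subset_univ J))
  obtain ⟨n, hn1, hn2⟩ := hg' (Finset.univ.image fun J : Finset τ => F ∪ J.image B) (by
    intro G hG
    obtain ⟨J, -, rfl⟩ := Finset.mem_image.1 hG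
    exact hdf.subset (hsub J)) N
  have h1 : ∀ J : Finset τ, g n (F ∪ J.image B) = g' (F ∪ J.image B) := fun J =>
    hn2 _ (Finset.mem_image_of_mem _ (Finset.mem_univ J))
  have h2 : g n F = g' F := by
    have := h1 ∅
    rwa [Finset.image_empty, Finset.union_empty] at this
  refine ⟨n, F, B, hinj, hBF, hN n hn1, fun J => ?_⟩
  rw [h1, h2]
  exact hrk J

omit [DecidableEq β'] in
theorem LimAS_img {φ : β' → β} {P' : β' → Prop}
    (hφ : ∀ x y, P' x → P' y → φ x = φ y → x = y) {X Y : Finset β'} (hX : ∀ x ∈ X, P' x)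
    (hY : ∀ x ∈ Y, P' x) (h : X.image φ = Y.image φ) : X = Y := by
  have key : ∀ Z W : Finset β', (∀ x ∈ Z, P' x) → (∀ x ∈ W, P' x) → Z.image φ ⊆ W.image φ →
      Z ⊆ W := by
    intro Z W hZ hW hs x hx
    obtain ⟨y, hy, hyx⟩ := Finset.mem_image.1 (hs (Finset.mem_image_of_mem φ hx))
    rw [hφ x y (hZ x hx) (hW y hy) hyx.symm]
    exact hy
  exact Finset.Subset.antisymm (key X Y hX hY (by rw [h])) (key Y X hY hX (by rw [h]))

/-- Minors after renaming.

Proof: the families `mapF φ F`, `(B t).image φ`; `mapF φ (F ∪ J.image B) = mapF φ F ∪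
J.image (fun t => (B t).image φ)`; injectivity on allowed elements keeps disjointness and
differences. -/
theorem Out.map {P : β → Prop} {g : Finset (Finset β) → ℕ} (φ : β' → β) (P' : β' → Prop)
    (hφ : ∀ x y, P' x → P' y → φ x = φ y → x = y) (hP : ∀ x, P' x → P (φ x))
    {τ : Type} [DecidableEq τ] [Fintype τ] {h : Finset τ → ℕ}
    (ho : Out P' (fun F => g (mapF φ F)) h) : Out P g h := by
  obtain ⟨F, B, hinj, hBF, hdf, hrk⟩ := ho
  have hB : ∀ t, B t ∈ F ∪ Finset.univ.image B := fun t =>
    Finset.mem_union_right _ (Finset.mem_image_of_mem B (Finset.mem_univ t))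
  have hmap : ∀ J : Finset τ, mapF φ (F ∪ J.image B) =
      mapF φ F ∪ J.image (fun t => (B t).image φ) := by
    intro J
    unfold mapF
    rw [Finset.image_union, Finset.image_image]
    rfl
  refine ⟨mapF φ F, fun t => (B t).image φ, ?_, ?_, ?_, fun J => ?_⟩
  · intro t t' htt
    exact hinj (LimAS_img hφ (hdf.1 _ (hB t)).2 (hdf.1 _ (hB t')).2 htt)
  · intro t ht
    unfold mapF at ht
    obtain ⟨A, hA, hAt⟩ := Finset.mem_image.1 ht
    have h1 := LimAS_img hφ (hdf.1 _ (Finset.mem_union_left _ hA)).2 (hdf.1 _ (hB t)).2 hAt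
    rw [h1] at hA
    exact hBF t hA
  · rw [← hmap]
    unfold mapF
    constructor
    · intro A hA
      obtain ⟨A', hA', rfl⟩ := Finset.mem_image.1 hA
      refine ⟨(hdf.1 A' hA').1.image φ, fun x hx => ?_⟩
      obtain ⟨y, hy, rfl⟩ := Finset.mem_image.1 hx
      exact hP y ((hdf.1 A' hA').2 y hy)
    · intro A hA C hC hAC
      obtain ⟨A', hA', rfl⟩ := Finset.mem_image.1 hA
      obtain ⟨C', hC', rfl⟩ := Finset.mem_image.1 hC
      have h1 : A' ≠ C' := by
        rintro rfl
        exact hAC rfl
      have h2 := hdf.2 A' hA' C' hC' h1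
      rw [Finset.disjoint_left]
      intro x hx hx'
      obtain ⟨y, hy, rfl⟩ := Finset.mem_image.1 hx
      obtain ⟨z, hz, hzy⟩ := Finset.mem_image.1 hx'
      have h3 := hφ z y ((hdf.1 C' hC').2 z hz) ((hdf.1 A' hA').2 y hy) hzy
      rw [h3] at hz
      exact Finset.disjoint_left.1 h2 hy hz
  · have h1 := hrk J
    simp only [hmap] at h1
    exact h1

/-- Minors of a contraction (`F0 ∪ F` instead of `F`; the sets of the family `F` and the `B t` are
not in `F0` because they are nonempty and avoid the members of `F0`;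
`g F0 ≤ g (F0 ∪ F)` by `AS.mono'`). -/
theorem Out.con {P : β → Prop} {K : ℕ} {g : Finset (Finset β) → ℕ} (hg : AS P K g)
    {F0 : Finset (Finset β)} (hF0 : DF P F0) {P' : β → Prop}
    (hP' : ∀ x, P' x → P x ∧ ∀ A ∈ F0, x ∉ A) {τ : Type} [DecidableEq τ] [Fintype τ]
    {h : Finset τ → ℕ} (ho : Out P' (fun F => g (F0 ∪ F) - g F0) h) : Out P g h := by
  obtain ⟨F, B, hinj, hBF, hdf, hrk⟩ := ho
  have hB : ∀ t, B t ∈ F ∪ Finset.univ.image B := fun t =>
    Finset.mem_union_right _ (Finset.mem_image_of_mem B (Finset.mem_univ t))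
  have hcross : ∀ A ∈ F0, ∀ C ∈ F ∪ Finset.univ.image B, Disjoint A C := by
    intro A hA C hC
    rw [Finset.disjoint_left]
    intro x hx hx'
    exact (hP' x ((hdf.1 C hC).2 x hx')).2 A hA hx
  have hall : DF P (F0 ∪ (F ∪ Finset.univ.image B)) := by
    constructor
    · intro A hA
      rcases Finset.mem_union.1 hA with hA | hA
      · exact hF0.1 A hA
      · exact ⟨(hdf.1 A hA).1, fun x hx => (hP' x ((hdf.1 A hA).2 x hx)).1⟩
    · intro A hA C hC hAC
      rcases Finset.mem_union.1 hA with hA | hA
      · rcases Finset.mem_union.1 hC with hC | hC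
        · exact hF0.2 A hA C hC hAC
        · exact hcross A hA C hC
      · rcases Finset.mem_union.1 hC with hC | hC
        · exact (hcross C hC A hA).symm
        · exact hdf.2 A hA C hC hAC
  refine ⟨F0 ∪ F, B, hinj, fun t ht => ?_, ?_, fun J => ?_⟩
  · rcases Finset.mem_union.1 ht with ht | ht
    · obtain ⟨x, hx⟩ := (hdf.1 _ (hB t)).1
      exact (hP' x ((hdf.1 _ (hB t)).2 x hx)).2 _ ht hx
    · exact hBF t ht
  · rw [Finset.union_assoc]
    exact hall
  · have h1 := hrk J
    have hsub : F0 ∪ (F ∪ J.image B) ⊆ F0 ∪ (F ∪ Finset.univ.image B) :=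
      Finset.union_subset_union_right (Finset.union_subset_union_right
        (Finset.image_subset_image (Finset.subset_univ J)))
    have h2 : g F0 ≤ g (F0 ∪ (F ∪ J.image B)) :=
      hg.mono' (hall.subset hsub) Finset.subset_union_left
    have h3 : g F0 ≤ g (F0 ∪ F) := hg.mono' (hall.subset
      (Finset.union_subset_union_right Finset.subset_union_left)) Finset.subset_union_left
    rw [Finset.union_assoc]
    simp only at h1
    omega

/-- weakening of the predicate -/
theorem AS.mono_pred {P P' : β → Prop} {K : ℕ} {g : Finset (Finset β) → ℕ} (hg : AS P K g)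
    (hP : ∀ x, P' x → P x) : AS P' K g where
  zero := hg.zero
  bd F hF := hg.bd F (LimAS_df hP hF)
  mono A F hF := hg.mono A F (LimAS_df hP hF)
  unit A F hF := hg.unit A F (LimAS_df hP hF)
  sub A B F hF := hg.sub A B F (LimAS_df hP hF)
  spl A B F hF := hg.spl A B F (LimAS_df hP hF)
  mrg A B F hF := hg.mrg A B F (LimAS_df hP hF)

end Pool.Agent.H.MP_60a1a2_co
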