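import Pool.Agent.H.MP_60a1a2_co.Tors
import Pool.Agent.H.MP_60a1a2_co.LimAS

/-! # The exchange system -/

set_option autoImplicit false

namespace Pool.Agent.H.MP_60a1a2_co

private theorem ExQ_small (s : Finset ℚ) : ∃ δ : ℚ, 0 < δ ∧ ∀ q ∈ s, 0 < q → δ < q := by
  induction s using Finset.induction_on with
  | empty => exact ⟨1, one_pos, by simp⟩
  | insert a s ha ih =>
    obtain ⟨δ, h1, h2⟩ := ih
    by_cases h : 0 < a
    · refine ⟨min δ (a / 2), lt_min h1 (by linarith), ?_⟩
      intro q hq hq0
      rcases Finset.mem_insert.1 hq with rfl | hq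
      · exact lt_of_le_of_lt (min_le_right _ _) (by linarith)
      · exact lt_of_le_of_lt (min_le_left _ _) (h2 q hq hq0)
    · refine ⟨δ, h1, ?_⟩
      intro q hq hq0
      rcases Finset.mem_insert.1 hq with rfl | hq
      · exact absurd hq0 h
      · exact h2 q hq hq0

private theorem ExQ_large (s : Finset ℚ) : ∃ M : ℚ, 0 < M ∧ ∀ q ∈ s, q < M := by
  induction s using Finset.induction_on with
  | empty => exact ⟨1, one_pos, by simp⟩
  | insert a s ha ih =>
    obtain ⟨M, h1, h2⟩ := ih
    refine ⟨max M (a + 1), lt_max_of_lt_left h1, ?_⟩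
    intro q hq
    rcases Finset.mem_insert.1 hq with rfl | hq
    · exact lt_max_of_lt_right (by linarith)
    · exact lt_max_of_lt_left (h2 q hq)

/-- the sequence used for the common complement -/
private def ExQ_c {K : ℕ} (i : Fin K) (δ M : ℚ) : Fin K → ℚ :=
  fun t => if t < i then ((t : ℕ) + 1 : ℚ) * (δ / (K + 1)) else M + (t : ℕ)

private theorem ExQ_c_lt {K : ℕ} {i : Fin K} {δ M : ℚ} (hδ : 0 < δ) {t : Fin K} (h : t < i) :
    0 < ExQ_c i δ M t ∧ ExQ_c i δ M t < δ := by
  unfold ExQ_c
  rw [if_pos h]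
  have hK : (0 : ℚ) < (K : ℚ) + 1 := by positivity
  have ht : ((t : ℕ) : ℚ) + 1 < (K : ℚ) + 1 := by
    have : (t : ℕ) < K := t.isLt
    have : ((t : ℕ) : ℚ) < K := by exact_mod_cast this
    linarith
  constructor
  · positivity
  · rw [mul_div_assoc', div_lt_iff₀ hK]
    nlinarith

private theorem ExQ_c_gt {K : ℕ} {i : Fin K} {δ M : ℚ} {t : Fin K} (h : i < t) :
    M ≤ ExQ_c i δ M t := by
  unfold ExQ_c
  rw [if_neg (not_lt.2 h.le)]
  have : (0 : ℚ) ≤ ((t : ℕ) : ℚ) := by positivity
  linarith

private theorem ExQ_mono {K : ℕ} {i : Fin K} {δ M q : ℚ} (hδ : 0 < δ) (h1 : δ < q) (h2 : q < M) :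
    StrictMono (Function.update (ExQ_c i δ M) i q) ∧
      ∀ t, 0 < Function.update (ExQ_c i δ M) i q t := by
  constructor
  · intro a b hab
    rcases lt_trichotomy a i with ha | ha | ha
    · rw [Function.update_of_ne ha.ne]
      have e1 := (ExQ_c_lt (M := M) hδ ha).2
      rcases lt_trichotomy b i with hb | hb | hb
      · rw [Function.update_of_ne hb.ne]
        unfold ExQ_c
        rw [if_pos ha, if_pos hb]
        have hK : (0 : ℚ) < δ / ((K : ℚ) + 1) := by positivity
        have : ((a : ℕ) : ℚ) < ((b : ℕ) : ℚ) := by exact_mod_cast (Fin.lt_def.1 hab)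
        exact mul_lt_mul_of_pos_right (by linarith) hK
      · rw [hb, Function.update_self]
        linarith
      · rw [Function.update_of_ne hb.ne']
        have e2 := ExQ_c_gt (δ := δ) (M := M) hb
        linarith
    · rw [ha, Function.update_self]
      have hb : i < b := ha ▸ hab
      rw [Function.update_of_ne hb.ne']
      have e2 := ExQ_c_gt (δ := δ) (M := M) hb
      linarith
    · have hb : i < b := ha.trans hab
      rw [Function.update_of_ne ha.ne', Function.update_of_ne hb.ne']
      unfold ExQ_c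
      rw [if_neg (not_lt.2 ha.le), if_neg (not_lt.2 hb.le)]
      have : ((a : ℕ) : ℚ) < ((b : ℕ) : ℚ) := by exact_mod_cast (Fin.lt_def.1 hab)
      linarith
  · intro a
    rcases lt_trichotomy a i with ha | ha | ha
    · rw [Function.update_of_ne ha.ne]
      exact (ExQ_c_lt (M := M) hδ ha).1
    · rw [ha, Function.update_self]
      linarith
    · rw [Function.update_of_ne ha.ne']
      have e2 := ExQ_c_gt (δ := δ) (M := M) ha
      linarith

private theorem ExQ_blk {K : ℕ} (c : Fin K → ℚ) (i : Fin K) (q : ℚ) :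
    insert (i, q) ((Finset.univ.erase i).image (fun t => (t, c t)))
      = blk (Function.update c i q) := by
  unfold blk
  conv_rhs => rw [← Finset.insert_erase (Finset.mem_univ i)]
  rw [Finset.image_insert, Function.update_self]
  congr 1
  apply Finset.image_congr
  intro t ht
  have : t ≠ i := Finset.ne_of_mem_erase ht
  simp only [Function.update_of_ne this]

/-- The contraction of `F0` is an exchange system on the elements with positive index.

Proof.  `as`: `AS.con` and `AS.mono_pred`.  `inf`: infinitely many positive rationals.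
`ex`: let `u = (i, q)`, `u' = (i, q')`, `q, q' > 0`, `X` finite.  Choose rationals
`c_0 < ... < c_{i-1}` in the open interval `(0, min q q')` and `c_{i+1} < ... < c_{K-1}` larger than
`max q q'`, none of them the second component of an element of `X` (infinite sets;
for example the points of an infinite set of rationals without the finitely many forbidden
ones; one can also take `c_t = (t + 1) * δ` for `t < i` and `c_t = (t + 1) * M` for `t > i`
with a suitable small `δ > 0` and large `M`, avoiding finitely many values: for small `δ` all the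
`(t + 1) * δ` are positive and smaller than all positive second components of elements of `X` and
than `q`, `q'`; for large `M` they are larger than everything).
`R = {(t, c_t) | t ≠ i}`.  `insert u R = blk u1` with `u1 t = c_t` for `t ≠ i`, `u1 i = q`,
strictly increasing and positive, so its rank in the contraction is
`g (F0 ∪ {blk u1}) - g F0 = 0`; the same for `u'`. -/
theorem exQ (K : ℕ) (g : Finset (Finset (Fin K × ℚ)) → ℕ)
    (hg : AS (fun _ => True) K g) (F0 : Finset (Finset (Fin K × ℚ)))
    (hF0 : DF (fun _ => True) F0) (hneg : ∀ A ∈ F0, ∀ x ∈ A, x.2 < 0)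
    (hb : ∀ u : Fin K → ℚ, StrictMono u → (∀ t, 0 < u t) → g (insert (blk u) F0) = g F0) :
    Ex (fun x : Fin K × ℚ => 0 < x.2) Prod.fst K (fun F => g (F0 ∪ F) - g F0) := by
  have hpos : ∀ x : Fin K × ℚ, 0 < x.2 → ∀ A ∈ F0, x ∉ A := by
    intro x hx A hA hxA
    have := hneg A hA x hxA
    linarith
  refine ⟨(hg.con hF0).mono_pred (fun x hx => ⟨trivial, hpos x hx⟩), ?_, ?_⟩
  · rintro ⟨i, q⟩ ⟨i', q'⟩ hq hq' hii X
    simp only at hii hq hq'
    subst hii
    obtain ⟨δ, hδ0, hδ⟩ := ExQ_small (insert q (insert q' (X.image Prod.snd)))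
    obtain ⟨M, hM0, hM⟩ := ExQ_large (insert q (insert q' (X.image Prod.snd)))
    have hδq : δ < q := hδ q (by simp) hq
    have hδq' : δ < q' := hδ q' (by simp) hq'
    have hMq : q < M := hM q (by simp)
    have hMq' : q' < M := hM q' (by simp)
    have hmem : ∀ x ∈ (Finset.univ.erase i).image (fun t => (t, ExQ_c i δ M t)),
        x.1 ≠ i ∧ x.2 = ExQ_c i δ M x.1 := by
      intro x hx
      obtain ⟨t, ht, rfl⟩ := Finset.mem_image.1 hx
      exact ⟨Finset.ne_of_mem_erase ht, rfl⟩
    have key : ∀ q : ℚ, δ < q → q < M →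
        g (F0 ∪ {insert (i, q) ((Finset.univ.erase i).image (fun t => (t, ExQ_c i δ M t)))})
          - g F0 = 0 := by
      intro q h1 h2
      have h3 := ExQ_mono (i := i) hδ0 h1 h2
      rw [ExQ_blk, Finset.union_comm, ← Finset.insert_eq, hb _ h3.1 h3.2, Nat.sub_self]
    refine ⟨(Finset.univ.erase i).image (fun t => (t, ExQ_c i δ M t)), ?_, ?_, ?_, ?_,
      key q hδq hMq, key q' hδq' hMq'⟩
    · intro x hx
      obtain ⟨h1, h2⟩ := hmem x hx
      rw [h2]
      rcases lt_or_gt_of_ne h1 with h | h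
      · exact (ExQ_c_lt (M := M) hδ0 h).1
      · exact lt_of_lt_of_le hM0 (ExQ_c_gt h)
    · rw [Finset.disjoint_left]
      intro x hx hxX
      obtain ⟨h1, h2⟩ := hmem x hx
      have h3 : x.2 ∈ insert q (insert q' (X.image Prod.snd)) :=
        Finset.mem_insert_of_mem (Finset.mem_insert_of_mem (Finset.mem_image_of_mem Prod.snd hxX))
      rcases lt_or_gt_of_ne h1 with h | h
      · have h4 := ExQ_c_lt (M := M) hδ0 h
        rw [← h2] at h4
        have h5 := hδ _ h3 h4.1
        linarith [h4.2]
      · have h4 := ExQ_c_gt (δ := δ) (M := M) h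
        rw [← h2] at h4
        have h5 := hM _ h3
        linarith
    · intro h
      exact (hmem _ h).1 rfl
    · intro h
      exact (hmem _ h).1 rfl
  · intro i X
    obtain ⟨M, hM0, hM⟩ := ExQ_large (X.image Prod.snd)
    refine ⟨(i, M), hM0, ?_, rfl⟩
    intro h
    exact lt_irrefl _ (hM M (Finset.mem_image_of_mem Prod.snd h))

/-- Independent types in the contraction.

Proof.  Let `R = row K 1` (singletons `{(t, 1)}`), `DF (F0 ∪ R)`.  `AS.zbasis` gives `I ⊆ R` with
`g (F0 ∪ I) = g F0 + I.card` and `g (F0 ∪ R) = g (F0 ∪ I)`; `g (F0 ∪ R) ≥ g R = K = 2 * k`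
(`AS.mono'`), `g F0 < k`, so `I.card ≥ k + 1`.  Choose `J ⊆ I` with `k + 1` elements
(`AS.ind_subset`: `g (F0 ∪ J) = g F0 + (k + 1)`), enumerate it:
`J = {{(τ i, 1)} | i : Fin (k + 1)}` with `τ` injective.  Use `ind_of_rep` with `x i = (τ i, 1)`. -/
theorem indQ (k : ℕ) (g : Finset (Finset (Fin (2 * k) × ℚ)) → ℕ)
    (hg : AS (fun _ => True) (2 * k) g) (hrow : ∀ q, g (row (2 * k) q) = 2 * k)
    (F0 : Finset (Finset (Fin (2 * k) × ℚ)))
    (hF0 : DF (fun _ => True) F0) (hneg : ∀ A ∈ F0, ∀ x ∈ A, x.2 < 0) (hlt : g F0 < k)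
    (hex : Ex (fun x : Fin (2 * k) × ℚ => 0 < x.2) Prod.fst (2 * k)
      (fun F => g (F0 ∪ F) - g F0)) :
    ∃ τ : Fin (k + 1) → Fin (2 * k), Function.Injective τ ∧
      Ind (fun x : Fin (2 * k) × ℚ => 0 < x.2) Prod.fst (fun F => g (F0 ∪ F) - g F0) τ := by
  classical
  have hRm : ∀ A, A ∈ row (2 * k) (1 : ℚ) → ∃ t : Fin (2 * k), A = {(t, (1 : ℚ))} := by
    intro A hA
    unfold row at hA
    obtain ⟨t, _, rfl⟩ := Finset.mem_image.1 hA
    exact ⟨t, rfl⟩
  have hdis : ∀ A ∈ F0, ∀ t : Fin (2 * k), Disjoint A {(t, (1 : ℚ))} := by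
    intro A hA t
    rw [Finset.disjoint_singleton_right]
    intro h
    have := hneg A hA _ h
    simp only at this
    linarith
  have hFR : DF (fun _ => True) (F0 ∪ row (2 * k) (1 : ℚ)) := by
    constructor
    · intro A hA
      rcases Finset.mem_union.1 hA with hA | hA
      · exact hF0.1 A hA
      · obtain ⟨t, rfl⟩ := hRm A hA
        exact ⟨Finset.singleton_nonempty _, fun _ _ => trivial⟩
    · intro A hA B hB hAB
      rcases Finset.mem_union.1 hA with hA | hA
      · rcases Finset.mem_union.1 hB with hB | hB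
        · exact hF0.2 A hA B hB hAB
        · obtain ⟨t, rfl⟩ := hRm B hB
          exact hdis A hA t
      · rcases Finset.mem_union.1 hB with hB | hB
        · obtain ⟨t, rfl⟩ := hRm A hA
          exact (hdis B hB t).symm
        · obtain ⟨t, rfl⟩ := hRm A hA
          obtain ⟨t', rfl⟩ := hRm B hB
          rw [Finset.disjoint_singleton]
          intro h
          exact hAB (by rw [h])
  obtain ⟨I, hI1, hI2, hI3⟩ := hg.zbasis hFR
  have h1 : g (row (2 * k) (1 : ℚ)) ≤ g (F0 ∪ row (2 * k) (1 : ℚ)) :=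
    hg.mono' hFR Finset.subset_union_right
  rw [hrow, hI3, hI2] at h1
  obtain ⟨J, hJ1, hJ2⟩ := Finset.exists_subset_card_eq (show k + 1 ≤ I.card by omega)
  have hFI : DF (fun _ => True) (F0 ∪ I) := hFR.subset (Finset.union_subset_union_right hI1)
  have hJ3 := hg.ind_subset hFI hI2 hJ1
  have hsinj : Function.Injective (fun t : Fin (2 * k) => ({(t, (1 : ℚ))} : Finset _)) := by
    intro a b hab
    have := Finset.singleton_injective hab
    exact (Prod.mk.inj this).1
  set T : Finset (Fin (2 * k)) := Finset.univ.filter (fun t => {(t, (1 : ℚ))} ∈ J) with hT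
  have hTJ : T.image (fun t => ({(t, (1 : ℚ))} : Finset _)) = J := by
    ext A
    rw [Finset.mem_image]
    constructor
    · rintro ⟨t, ht, rfl⟩
      exact (Finset.mem_filter.1 ht).2
    · intro hA
      obtain ⟨t, rfl⟩ := hRm A (hI1 (hJ1 hA))
      exact ⟨t, Finset.mem_filter.2 ⟨Finset.mem_univ _, hA⟩, rfl⟩
  have hTc : T.card = k + 1 := by
    rw [← hJ2, ← hTJ, Finset.card_image_of_injective _ hsinj]
  have hτ : Function.Injective (T.orderEmbOfFin hTc) := (T.orderEmbOfFin hTc).injective
  refine ⟨T.orderEmbOfFin hTc, hτ, ?_⟩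
  apply ind_of_rep hex hτ (fun i => (T.orderEmbOfFin hTc i, (1 : ℚ)))
  · intro i
    exact ⟨one_pos, rfl⟩
  · have himg : Finset.univ.image
        (fun i => ({(T.orderEmbOfFin hTc i, (1 : ℚ))} : Finset (Fin (2 * k) × ℚ))) = J := by
      conv_rhs => rw [← hTJ]
      have h5 : Finset.univ.image (T.orderEmbOfFin hTc) = T := by
        ext t
        rw [Finset.mem_image]
        constructor
        · rintro ⟨i, _, rfl⟩
          exact T.orderEmbOfFin_mem hTc i
        · intro ht
          have : t ∈ Set.range (T.orderEmbOfFin hTc) := by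
            rw [Finset.range_orderEmbOfFin]
            exact ht
          obtain ⟨i, hi⟩ := this
          exact ⟨i, Finset.mem_univ _, hi⟩
      conv_rhs => rw [← h5]
      rw [Finset.image_image]
      rfl
    rw [himg, hJ3, hJ2]
    omega

end Pool.Agent.H.MP_60a1a2_co
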