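import Pool.Agent.H.MP_60a1a2_co.Tors

/-! # Types of prime order give a projective geometry -/

set_option autoImplicit false

namespace Pool.Agent.H.MP_60a1a2_co

variable {β κ : Type} [DecidableEq β] [DecidableEq κ] [Fintype κ] {P : β → Prop} {ty : β → κ}
  {K : ℕ} {g : Finset (Finset β) → ℕ}

/-- the natural vector of a vector over `ZMod p` -/
def lft {n p : ℕ} (τ : Fin n → κ) (w : Fin n → ZMod p) : κ → ℕ :=
  ∑ i : Fin n, (w i).val • E1 (τ i)

theorem PGCase_lft_zero {n p : ℕ} (τ : Fin n → κ) : lft τ (0 : Fin n → ZMod p) = 0 := by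
  unfold lft
  simp

theorem PGCase_lft_add {n p : ℕ} [Fact p.Prime] (τ : Fin n → κ) (w w' : Fin n → ZMod p) :
    lft τ w + lft τ w' =
      (∑ i : Fin n, (((w i).val + (w' i).val) / p) • (p • E1 (τ i))) + lft τ (w + w') := by
  unfold lft
  rw [← Finset.sum_add_distrib, ← Finset.sum_add_distrib]
  apply Finset.sum_congr rfl
  intro i _
  rw [← add_smul, Pi.add_apply, ZMod.val_add, smul_smul, ← add_smul]
  congr 1
  rw [mul_comm]
  exact (Nat.div_add_mod _ _).symm

theorem PGCase_lft_ne {n p : ℕ} [Fact p.Prime] {τ : Fin n → κ} (hτ : Function.Injective τ)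
    {w : Fin n → ZMod p} (hw : w ≠ 0) : lft τ w ≠ 0 := by
  intro h0
  apply hw
  funext i
  have h1 := congrFun h0 (τ i)
  unfold lft at h1
  rw [Finset.sum_apply] at h1
  rw [Finset.sum_eq_single i] at h1
  · simp only [Pi.smul_apply, E1, Pi.single_eq_same, Pi.zero_apply, smul_eq_mul, mul_one] at h1
    rw [Pi.zero_apply]
    exact (ZMod.val_eq_zero _).1 h1
  · intro j _ hj
    have : τ i ≠ τ j := fun h => hj (hτ h).symm
    simp [E1, Pi.single_apply, this]
  · intro h
    exact absurd (Finset.mem_univ i) h

theorem PGCase_lft_single {n p : ℕ} [Fact p.Prime] (τ : Fin n → κ) (i : Fin n) :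
    lft τ (Pi.single i 1 : Fin n → ZMod p) = E1 (τ i) := by
  unfold lft
  rw [Finset.sum_eq_single i]
  · rw [Pi.single_eq_same]
    have h1 : Fact (1 < p) := ⟨(Fact.out : p.Prime).one_lt⟩
    rw [ZMod.val_one, one_smul]
  · intro j _ hj
    rw [Pi.single_eq_of_ne hj]
    simp
  · intro h
    exact absurd (Finset.mem_univ i) h

/-- The vectors over `ZMod p` in the closure form a submodule.

Proof.  Zero: `lft τ 0 = 0`.  Sums: `(w i).val + (w' i).val = (w i + w' i).val + p * ε i` with
`ε i = ((w i).val + (w' i).val) / p` (`ZMod.val_add`, `Nat.div_add_mod`), so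
`lft τ w + lft τ w' = (∑ i, ε i • (p • E1 (τ i))) + lft τ (w + w')`; the first sum is in the closure
(`Lam.mono`, `Lam.smul`, `Lam.sum`), use `Lam.add` and `Lam.cancel`.  Scalars: `c • w` is
`c.val • w` (a repeated sum; induction on `c.val`, or use an `AddSubmonoid` and
`AddSubgroup`, closure under negatives follows from `-w = (p - 1) • w`). -/
theorem lam_submodule (h : Ex P ty K g) {n p : ℕ} [Fact p.Prime] {τ : Fin n → κ}
    (hp : ∀ i, Lam P ty g ∅ (p • E1 (τ i))) {F : Finset (Finset β)} (hF : DF P F) :
    ∃ V : Submodule (ZMod p) (Fin n → ZMod p), ∀ w, w ∈ V ↔ Lam P ty g F (lft τ w) := by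
  have hzero : Lam P ty g F (lft τ (0 : Fin n → ZMod p)) := by
    left; exact PGCase_lft_zero τ
  have hadd : ∀ w w' : Fin n → ZMod p, Lam P ty g F (lft τ w) → Lam P ty g F (lft τ w') →
      Lam P ty g F (lft τ (w + w')) := by
    intro w w' hw hw'
    have h1 := Lam.add h hF hw hw'
    rw [PGCase_lft_add] at h1
    refine Lam.cancel h hF ?_ h1
    apply Lam.sum h hF
    intro i _
    exact Lam.smul h hF (Lam.mono h hF (Finset.empty_subset F) (hp i)) _
  have hn : ∀ (m : ℕ) (w : Fin n → ZMod p), Lam P ty g F (lft τ w) →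
      Lam P ty g F (lft τ (m • w)) := by
    intro m w hw
    induction m with
    | zero => rw [zero_smul]; exact hzero
    | succ m ih => rw [succ_nsmul]; exact hadd _ _ ih hw
  refine ⟨{ carrier := {w | Lam P ty g F (lft τ w)}
            zero_mem' := hzero
            add_mem' := fun {w w'} hw hw' => hadd w w' hw hw'
            smul_mem' := ?_ }, fun w => Iff.rfl⟩
  intro c w hw
  have h1 : c • w = c.val • w := by
    rw [← Nat.cast_smul_eq_nsmul (ZMod p), ZMod.natCast_zmod_val]
  rw [h1]
  exact hn _ _ hw

/-- The projective geometry.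

Proof.  `ℙ = Projectivization (ZMod p) (Fin (k + 1) → ZMod p)` is finite; `Fintype.ofFinite`.
`lft τ w ≠ 0` for `w ≠ 0` (`τ` is injective, so the value at `τ i` is `(w i).val`).  `Ex.real`:
pairwise disjoint realizations `B x` of `lft τ x.rep` (nonempty, so `B` is injective); `F = ∅`.
Let `J : Finset ℙ`, `V0 = span {x.rep | x ∈ J}`, `r = finrank V0`.
Upper bound: there is `J' ⊆ J` with `J'.card = r` whose representatives span `V0`
(`exists_linearIndependent` or a basis extracted from the spanning set).  For `x ∈ J` the vector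
`x.rep` lies in the submodule of `lam_submodule` for the family `J'.image B` (it contains
the representatives of `J'` by `Lam.mem`), so `g (J.image B) = g (J'.image B ∪ J.image B)
= g (J'.image B) ≤ r` (`Lam.fam`, `AS.unit'`).
Lower bound: let `V1` be a complement of `V0`, of dimension `k + 1 - r`, with a basis
`w_1, ..., w_s`, `s = k + 1 - r` (nonzero vectors); let `D_t` be pairwise disjoint realizations of
`lft τ w_t`, disjoint from all `B x` (`Ex.real`).  For the family
`G = J.image B ∪ {D_t}` the submodule of `lam_submodule` contains `V0` and `V1`, so it is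
everything; in particular `Lam G (E1 (τ i))` for all `i` (`lft τ (Pi.single i 1) = E1 (τ i)`).
By `Ind` `k + 1 ≤ g G ≤ g (J.image B) + s` (`AS.unit'`), so `r ≤ g (J.image B)`. -/
theorem pgcase (h : Ex P ty K g) {k p : ℕ} [Fact p.Prime] {τ : Fin (k + 1) → κ}
    (hτ : Function.Injective τ) (hI : Ind P ty g τ)
    (hp : ∀ i, Lam P ty g ∅ (p • E1 (τ i))) : Good P g k := by
  classical
  have hfinite : Finite (Projectivization (ZMod p) (Fin (k + 1) → ZMod p)) := inferInstance
  have hfin : Fintype (Projectivization (ZMod p) (Fin (k + 1) → ZMod p)) := Fintype.ofFinite _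
  obtain ⟨B, hB1, hB2⟩ := h.real
    (τ := Projectivization (ZMod p) (Fin (k + 1) → ZMod p)) (fun x => lft τ x.rep) ∅
  have hBne : ∀ x, (B x).Nonempty := by
    intro x
    rw [Finset.nonempty_iff_ne_empty]
    intro h0
    have h1 := (hB1 x).1
    rw [h0, cnt_empty] at h1
    exact PGCase_lft_ne hτ x.rep_nonzero h1.symm
  have hBinj : Function.Injective B := by
    intro x y hxy
    by_contra hne
    have h1 := hB2 x y hne
    rw [hxy, Finset.disjoint_self_iff_empty] at h1
    exact (hBne y).ne_empty h1
  have hDF : ∀ J : Finset (Projectivization (ZMod p) (Fin (k + 1) → ZMod p)),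
      DF P (J.image B) := by
    intro J
    constructor
    · intro A hA
      obtain ⟨x, _, rfl⟩ := Finset.mem_image.1 hA
      exact ⟨hBne x, (hB1 x).2.1⟩
    · intro A hA A' hA' hne
      obtain ⟨x, _, rfl⟩ := Finset.mem_image.1 hA
      obtain ⟨y, _, rfl⟩ := Finset.mem_image.1 hA'
      exact hB2 x y (fun hxy => hne (by rw [hxy]))
  right
  refine ⟨p, inferInstance, hfin, ∅, B, hBinj, fun t => Finset.notMem_empty _, ?_, ?_⟩
  · rw [Finset.empty_union]
    exact hDF _
  intro J
  rw [Finset.empty_union, h.as.zero, zero_add]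
  unfold pg
  set V0 : Submodule (ZMod p) (Fin (k + 1) → ZMod p) := Submodule.span (ZMod p)
    ((fun x : Projectivization (ZMod p) (Fin (k + 1) → ZMod p) => x.rep) '' (J : Set _)) with hV0
  apply le_antisymm
  · -- upper bound
    obtain ⟨b, hb1, hb2, hb3⟩ := exists_linearIndependent (ZMod p)
      ((fun x : Projectivization (ZMod p) (Fin (k + 1) → ZMod p) => x.rep) '' (J : Set _))
    have hbfin : Fintype b := Fintype.ofFinite b
    have hcard : Module.finrank (ZMod p) V0 = b.toFinset.card := by
      rw [hV0, ← hb2]
      exact finrank_span_set_eq_card hb3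
    set J' := J.filter (fun x => x.rep ∈ b) with hJ'
    have hJ'J : J' ⊆ J := Finset.filter_subset _ _
    have hJ'card : J'.card ≤ b.toFinset.card := by
      apply Finset.card_le_card_of_injOn (fun x => x.rep)
      · intro x hx
        have hx' := (Finset.mem_filter.1 hx).2
        simpa using hx'
      · intro x _ y _ hxy
        have hxy' : x.rep = y.rep := hxy
        rw [← x.mk_rep, ← y.mk_rep]
        congr 1
    obtain ⟨V, hV⟩ := lam_submodule (p := p) h hp (hDF J')
    have hbV : b ⊆ V := by
      intro w hw
      obtain ⟨x, hx, rfl⟩ := hb1 hw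
      have hxJ' : x ∈ J' := Finset.mem_filter.2 ⟨hx, hw⟩
      have h1 := Lam.mem h (hDF J') (Finset.mem_image_of_mem B hxJ')
      rw [(hB1 x).1] at h1
      exact (hV _).2 h1
    have hV0V : V0 ≤ V := by
      rw [hV0, ← hb2, Submodule.span_le]
      exact hbV
    have hunion : J'.image B ∪ J.image B = J.image B :=
      Finset.union_eq_right.2 (Finset.image_subset_image hJ'J)
    have h2 : g (J.image B) = g (J'.image B) := by
      rw [← hunion]
      apply Lam.fam h
      · rw [hunion]; exact hDF J
      · intro A hA
        obtain ⟨x, hx, rfl⟩ := Finset.mem_image.1 hA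
        rw [(hB1 x).1]
        apply (hV _).1
        apply hV0V
        exact Submodule.subset_span (Set.mem_image_of_mem _ hx)
    have h3 := h.as.unit' (hDF J') (Finset.empty_subset _)
    rw [h.as.zero, zero_add, Finset.sdiff_empty] at h3
    have h4 : (J'.image B).card ≤ J'.card := Finset.card_image_le
    rw [hcard, h2]
    omega
  · -- lower bound
    obtain ⟨V1, hV1⟩ := Submodule.exists_isCompl V0
    have hdim := Submodule.finrank_add_eq_of_isCompl hV1
    rw [Module.finrank_fin_fun] at hdim
    have bas := Module.finBasis (ZMod p) V1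
    obtain ⟨D, hD1, hD2⟩ := h.real (τ := Fin (Module.finrank (ZMod p) V1))
      (fun t => lft τ (bas t : Fin (k + 1) → ZMod p)) (Finset.univ.biUnion B)
    have hDne : ∀ t, (D t).Nonempty := by
      intro t
      rw [Finset.nonempty_iff_ne_empty]
      intro h0
      have h1 := (hD1 t).1
      rw [h0, cnt_empty] at h1
      refine PGCase_lft_ne hτ (w := (bas t : Fin (k + 1) → ZMod p)) ?_ h1.symm
      intro h2
      exact bas.ne_zero t (Subtype.ext h2)
    have hDB : ∀ t x, Disjoint (D t) (B x) := by
      intro t x
      exact (hD1 t).2.2.mono_right (Finset.subset_biUnion_of_mem B (Finset.mem_univ x))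
    have hG : DF P (J.image B ∪ Finset.univ.image D) := by
      constructor
      · intro A hA
        rcases Finset.mem_union.1 hA with hA | hA
        · obtain ⟨x, _, rfl⟩ := Finset.mem_image.1 hA
          exact ⟨hBne x, (hB1 x).2.1⟩
        · obtain ⟨t, _, rfl⟩ := Finset.mem_image.1 hA
          exact ⟨hDne t, (hD1 t).2.1⟩
      · intro A hA A' hA' hne
        rcases Finset.mem_union.1 hA with hA | hA
        · obtain ⟨x, _, rfl⟩ := Finset.mem_image.1 hA
          rcases Finset.mem_union.1 hA' with hA' | hA'
          · obtain ⟨y, _, rfl⟩ := Finset.mem_image.1 hA'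
            exact hB2 x y (fun hxy => hne (by rw [hxy]))
          · obtain ⟨t, _, rfl⟩ := Finset.mem_image.1 hA'
            exact (hDB t x).symm
        · obtain ⟨t, _, rfl⟩ := Finset.mem_image.1 hA
          rcases Finset.mem_union.1 hA' with hA' | hA'
          · obtain ⟨y, _, rfl⟩ := Finset.mem_image.1 hA'
            exact hDB t y
          · obtain ⟨s, _, rfl⟩ := Finset.mem_image.1 hA'
            exact hD2 t s (fun hts => hne (by rw [hts]))
    obtain ⟨V, hV⟩ := lam_submodule (p := p) h hp hG
    have hV0V : V0 ≤ V := by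
      rw [hV0, Submodule.span_le]
      rintro w ⟨x, hx, rfl⟩
      have h1 := Lam.mem h hG (Finset.mem_union_left _ (Finset.mem_image_of_mem B hx))
      rw [(hB1 x).1] at h1
      exact (hV _).2 h1
    have hV1V : V1 ≤ V := by
      have h1 : ∀ t, (bas t : Fin (k + 1) → ZMod p) ∈ V := by
        intro t
        have h2 := Lam.mem h hG
          (Finset.mem_union_right _ (Finset.mem_image_of_mem D (Finset.mem_univ t)))
        rw [(hD1 t).1] at h2
        exact (hV _).2 h2
      intro w hw
      have h2 := bas.sum_repr ⟨w, hw⟩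
      have h3 := congrArg (fun z : V1 => (z : Fin (k + 1) → ZMod p)) h2
      simp only [Submodule.coe_sum, Submodule.coe_smul] at h3
      rw [← h3]
      exact Submodule.sum_mem _ (fun t _ => Submodule.smul_mem _ _ (h1 t))
    have htop : V = ⊤ := by
      rw [eq_top_iff, ← hV1.sup_eq_top]
      exact sup_le hV0V hV1V
    have h5 := hI _ hG Finset.univ (by
      intro i _
      rw [← PGCase_lft_single (p := p) τ i]
      apply (hV _).1
      rw [htop]
      exact Submodule.mem_top)
    rw [Finset.card_univ, Fintype.card_fin] at h5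
    have h6 := h.as.unit' hG (Finset.subset_union_left (s₁ := J.image B))
    have h7 : ((J.image B ∪ Finset.univ.image D) \ J.image B).card ≤
        Module.finrank (ZMod p) V1 := by
      calc ((J.image B ∪ Finset.univ.image D) \ J.image B).card
          ≤ (Finset.univ.image D).card := by
            apply Finset.card_le_card
            intro A hA
            rcases Finset.mem_sdiff.1 hA with ⟨hA1, hA2⟩
            rcases Finset.mem_union.1 hA1 with hA3 | hA3
            · exact absurd hA3 hA2
            · exact hA3
        _ ≤ (Finset.univ : Finset (Fin (Module.finrank (ZMod p) V1))).card :=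
            Finset.card_image_le
        _ = Module.finrank (ZMod p) V1 := by rw [Finset.card_univ, Fintype.card_fin]
    omega

end Pool.Agent.H.MP_60a1a2_co
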