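import Mathlib

/-! # Cramer's rule for Vandermonde vectors, with natural coefficients -/

set_option autoImplicit false

namespace Pool.Agent.H.MP_60a1a2_co

/-- For `k` different numbers `y_s`, a positive multiple of every unit vector is a difference of
combinations with natural coefficients of the vectors `(y_s^j)_j`.

Proof.  Let `A = Matrix.vandermonde (fun s => (y s : ℤ))` (entries `A s j = y_s ^ j`), `det A ≠ 0`
(`Matrix.det_vandermonde_ne_zero_iff`).  `adjugate A * A = det A • 1`, so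
`∑ s, (adjugate A) i s * y_s ^ j = det A * (if i = j then 1 else 0)`.  Let `σ = ±1` be the sign of
`det A`, `c s = σ * (adjugate A) i s`, `m = (det A).natAbs`, `cp s = (c s).toNat`,
`cm s = (- c s).toNat`, so `cp s - cm s = c s` in `ℤ`. -/
theorem vand (k : ℕ) (y : Fin k → ℕ) (hy : Function.Injective y) (i : Fin k) :
    ∃ (m : ℕ) (cp cm : Fin k → ℕ), 1 ≤ m ∧ ∀ j : Fin k,
      m * (if i = j then 1 else 0) + ∑ s, cm s * y s ^ (j : ℕ) =
        ∑ s, cp s * y s ^ (j : ℕ) := by
  classical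
  set A : Matrix (Fin k) (Fin k) ℤ := Matrix.vandermonde (fun s => (y s : ℤ)) with hA
  have hdet : A.det ≠ 0 := by
    rw [hA, Matrix.det_vandermonde_ne_zero_iff]
    intro a b hab
    have hab2 : ((y a : ℕ) : ℤ) = (y b : ℤ) := hab
    exact hy (by exact_mod_cast hab2)
  have hadj : ∀ j : Fin k, ∑ s, A.adjugate i s * (y s : ℤ) ^ (j : ℕ) =
      A.det * (if i = j then 1 else 0) := by
    intro j
    have h1 := congrFun (congrFun (Matrix.adjugate_mul A) i) j
    rw [Matrix.mul_apply, Matrix.smul_apply, Matrix.one_apply, smul_eq_mul] at h1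
    rw [← h1]
    apply Finset.sum_congr rfl
    intro s _
    rw [hA, Matrix.vandermonde_apply]
  obtain ⟨σ, hσ⟩ : ∃ σ : ℤ, σ * A.det = (A.det.natAbs : ℤ) := by
    rcases Int.natAbs_eq A.det with h | h
    · exact ⟨1, by rw [one_mul]; exact h⟩
    · refine ⟨-1, ?_⟩
      have h2 : -1 * A.det = -A.det := by ring
      rw [h2]
      omega
  refine ⟨A.det.natAbs, fun s => (σ * A.adjugate i s).toNat,
    fun s => (-(σ * A.adjugate i s)).toNat, ?_, ?_⟩
  · exact Nat.one_le_iff_ne_zero.2 (Int.natAbs_ne_zero.2 hdet)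
  · intro j
    have hc : ∀ s, (((σ * A.adjugate i s).toNat : ℕ) : ℤ) =
        σ * A.adjugate i s + (((-(σ * A.adjugate i s)).toNat : ℕ) : ℤ) := by
      intro s
      omega
    have hZ : (((A.det.natAbs * (if i = j then 1 else 0) +
        ∑ s, (-(σ * A.adjugate i s)).toNat * y s ^ (j : ℕ) : ℕ)) : ℤ) =
        ((∑ s, (σ * A.adjugate i s).toNat * y s ^ (j : ℕ) : ℕ) : ℤ) := by
      push_cast
      have h3 : ∑ s, (((σ * A.adjugate i s).toNat : ℕ) : ℤ) * (y s : ℤ) ^ (j : ℕ) =
          ∑ s, (σ * (A.adjugate i s * (y s : ℤ) ^ (j : ℕ)) +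
            (((-(σ * A.adjugate i s)).toNat : ℕ) : ℤ) * (y s : ℤ) ^ (j : ℕ)) := by
        apply Finset.sum_congr rfl
        intro s _
        rw [hc s]
        ring
      have h4 : (∑ s, (((σ * A.adjugate i s).toNat : ℕ) : ℤ) * (y s : ℤ) ^ (j : ℕ)) =
          σ * A.det * (if i = j then 1 else 0) +
            ∑ s, (((-(σ * A.adjugate i s)).toNat : ℕ) : ℤ) * (y s : ℤ) ^ (j : ℕ) := by
        rw [h3, Finset.sum_add_distrib, ← Finset.mul_sum, hadj j, mul_assoc]
      rw [hσ] at h4
      simp only [Int.natCast_natAbs] at h4 ⊢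
      simp only [Int.toNat_eq_max] at h4 ⊢
      exact h4.symm
    exact_mod_cast hZ

end Pool.Agent.H.MP_60a1a2_co
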