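import Pool.Agent.H.MP_60a1a2_co.Tors
import Pool.Agent.H.MP_60a1a2_co.Vand

/-! # Types of infinite order give a uniform minor -/

set_option autoImplicit false

namespace Pool.Agent.H.MP_60a1a2_co

variable {β κ : Type} [DecidableEq β] [DecidableEq κ] [Fintype κ] {P : β → Prop} {ty : β → κ}
  {K : ℕ} {g : Finset (Finset β) → ℕ}

/-- the Vandermonde vectors -/
def vvec {k : ℕ} (τ : Fin k → κ) (y : ℕ) : κ → ℕ := ∑ i : Fin k, (y ^ (i : ℕ)) • E1 (τ i)

theorem UCase_sum {k l : ℕ} (τ : Fin k → κ) (y : Fin l → ℕ) (c : Fin l → ℕ) :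
    ∑ s, c s • vvec τ (y s) = ∑ j : Fin k, (∑ s, c s * y s ^ (j : ℕ)) • E1 (τ j) := by
  unfold vvec
  simp_rw [Finset.smul_sum, smul_smul, Finset.sum_smul]
  rw [Finset.sum_comm]

theorem UCase_single {k : ℕ} (τ : Fin k → κ) (m : ℕ) (i : Fin k) :
    m • E1 (τ i) = ∑ j : Fin k, (m * (if i = j then 1 else 0)) • E1 (τ j) := by
  rw [Finset.sum_eq_single i]
  · simp
  · intro j _ hj
    rw [if_neg (Ne.symm hj)]
    simp
  · intro h
    exact absurd (Finset.mem_univ i) h

theorem UCase_E1_ne (i : κ) {m : ℕ} (hm : 1 ≤ m) : m • E1 i ≠ 0 := by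
  intro h0
  have h1 := congrFun h0 i
  simp [E1] at h1
  omega

theorem UCase_vvec_ne {k : ℕ} {τ : Fin k → κ} (hτ : Function.Injective τ) (hk : 0 < k) {y : ℕ}
    (hy : 1 ≤ y) : vvec τ y ≠ 0 := by
  intro h0
  have h1 := congrFun h0 (τ ⟨0, hk⟩)
  unfold vvec at h1
  rw [Finset.sum_apply, Finset.sum_eq_single (⟨0, hk⟩ : Fin k)] at h1
  · simp [E1] at h1
  · intro j _ hj
    have : τ ⟨0, hk⟩ ≠ τ j := fun h => hj (hτ h).symm
    simp [E1, this]
  · intro h
    exact absurd (Finset.mem_univ _) h

/-- images of families of disjoint sets -/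
theorem UCase_DF {ι : Type} [DecidableEq ι] {B : ι → Finset β} (h1 : ∀ i, (B i).Nonempty)
    (h2 : ∀ i, ∀ x ∈ B i, P x) (h3 : ∀ i j, i ≠ j → Disjoint (B i) (B j)) (J : Finset ι) :
    DF P (J.image B) := by
  constructor
  · intro A hA
    obtain ⟨x, _, rfl⟩ := Finset.mem_image.1 hA
    exact ⟨h1 x, h2 x⟩
  · intro A hA A' hA' hne
    obtain ⟨x, _, rfl⟩ := Finset.mem_image.1 hA
    obtain ⟨y, _, rfl⟩ := Finset.mem_image.1 hA'
    exact h3 x y (fun hxy => hne (by rw [hxy]))

theorem UCase_DF_union {F G : Finset (Finset β)} (hF : DF P F) (hG : DF P G)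
    (hd : ∀ A ∈ F, ∀ B ∈ G, Disjoint A B) : DF P (F ∪ G) := by
  constructor
  · intro A hA
    rcases Finset.mem_union.1 hA with hA | hA
    · exact hF.1 A hA
    · exact hG.1 A hA
  · intro A hA A' hA' hne
    rcases Finset.mem_union.1 hA with hA | hA
    · rcases Finset.mem_union.1 hA' with hA' | hA'
      · exact hF.2 A hA A' hA' hne
      · exact hd A hA A' hA'
    · rcases Finset.mem_union.1 hA' with hA' | hA'
      · exact (hd A' hA' A hA).symm
      · exact hG.2 A hA A' hA' hne

/-- `k` Vandermonde vectors in the closure force rank at least `k`.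

Proof.  For `i : Fin k` by `vand` there are `m_i ≥ 1` and natural coefficients with
`m_i • E1 (τ i) + ∑ s, cm s • vvec τ (y s) = ∑ s, cp s • vvec τ (y s)` (compare coefficients of
`E1 (τ j)`: `∑ s, c s • vvec τ (y s) = ∑ j, (∑ s, c s * y s ^ j) • E1 (τ j)`).  By `Lam.sum`,
`Lam.smul`, `Lam.cancel` `m_i • E1 (τ i)` is in the closure of `F`.  Let `D i` be disjoint
realizations of `m_i • E1 (τ i)`, disjoint from the members of `F` (`Ex.real`), `G` the family of
the `D i`.  By `Lam.par` (no type has finite order) `E1 (τ i)` is in the closure of `{D i}`, so of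
`F ∪ G` (`Lam.mono`).  By `Ind` (`S = univ`) `k ≤ g (F ∪ G)`, and `g (F ∪ G) = g F`
(`Lam.fam`). -/
theorem vvec_rank (h : Ex P ty K g) {k : ℕ} {τ : Fin k → κ} (hI : Ind P ty g τ)
    (hinf : ∀ i, ∀ m, 1 ≤ m → ¬ Lam P ty g ∅ (m • E1 (τ i))) (y : Fin k → ℕ)
    (hy : Function.Injective y) {F : Finset (Finset β)} (hF : DF P F)
    (hv : ∀ s, Lam P ty g F (vvec τ (y s))) : k ≤ g F := by
  classical
  have key : ∀ i : Fin k, ∃ m : ℕ, 1 ≤ m ∧ Lam P ty g F (m • E1 (τ i)) := by
    intro i
    obtain ⟨m, cp, cm, hm, hc⟩ := vand k y hy i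
    refine ⟨m, hm, ?_⟩
    have h1 : (∑ s, cm s • vvec τ (y s)) + m • E1 (τ i) = ∑ s, cp s • vvec τ (y s) := by
      rw [UCase_sum, UCase_sum, UCase_single τ m i, ← Finset.sum_add_distrib]
      apply Finset.sum_congr rfl
      intro j _
      rw [← add_smul, add_comm, hc j]
    have h2 : Lam P ty g F (∑ s, cm s • vvec τ (y s)) :=
      Lam.sum h hF _ _ (fun s _ => Lam.smul h hF (hv s) _)
    have h3 : Lam P ty g F (∑ s, cp s • vvec τ (y s)) :=
      Lam.sum h hF _ _ (fun s _ => Lam.smul h hF (hv s) _)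
    rw [← h1] at h3
    exact Lam.cancel h hF h2 h3
  choose m hm1 hm2 using key
  obtain ⟨D, hD1, hD2⟩ := h.real (τ := Fin k) (fun i => m i • E1 (τ i)) (F.biUnion id)
  have hDne : ∀ i, (D i).Nonempty := by
    intro i
    rw [Finset.nonempty_iff_ne_empty]
    intro h0
    have h1 := (hD1 i).1
    rw [h0, cnt_empty] at h1
    exact UCase_E1_ne _ (hm1 i) h1.symm
  have hG : DF P (Finset.univ.image D) :=
    UCase_DF hDne (fun i => (hD1 i).2.1) hD2 _
  have hFG : DF P (F ∪ Finset.univ.image D) := by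
    apply UCase_DF_union hF hG
    intro A hA A' hA'
    obtain ⟨i, _, rfl⟩ := Finset.mem_image.1 hA'
    exact ((hD1 i).2.2.mono_right (Finset.subset_biUnion_of_mem id hA)).symm
  have h1 := hI _ hFG Finset.univ (by
    intro i _
    have h2 := Lam.par h (hD1 i).1 (hD1 i).2.1 (hinf i (m i) (hm1 i))
    refine Lam.mono h hFG ?_ h2
    rw [Finset.singleton_subset_iff]
    exact Finset.mem_union_right _ (Finset.mem_image_of_mem D (Finset.mem_univ i)))
  rw [Finset.card_univ, Fintype.card_fin] at h1
  have h2 := Lam.fam h hFG (by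
    intro A hA
    obtain ⟨i, _, rfl⟩ := Finset.mem_image.1 hA
    rw [(hD1 i).1]
    exact hm2 i)
  omega

/-- The uniform minor.

Proof.  If `k = 0` take `F = ∅` and the empty function.  Let `v s = vvec τ (s + 1)` for
`s : Fin (2 * k)`; these vectors are not zero (coefficient of `E1 (τ 0)` positive; use that the
value at `τ 0` is at least `1`).  `Ex.real` gives pairwise disjoint `B s` (nonempty, so `B` is
injective); take `F = ∅`.  Upper bound: let `Y i` (`i : Fin k`) be disjoint realizations of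
`E1 (τ i)`, disjoint from all `B s`, `F0` their family, `g F0 ≤ k`; all `v s` are in the closure of
`F0` (`Lam.sum`, `Lam.smul`, `Lam.mem`), so `g (univ.image B) ≤ g (F0 ∪ univ.image B) = g F0 ≤ k`
(`Lam.fam`).  Also `g (J.image B) ≤ J.card` (`AS.unit'` from `∅`).  Lower bound for
`J.card = k`: `vvec_rank` with `y` an enumeration of `{s + 1 | s ∈ J}` (`Lam.mem`).
For `J.card ≤ k` extend to `J' ⊇ J` with `k` elements:
`k ≤ g (J'.image B) ≤ g (J.image B) + (k - J.card)` (`AS.unit'`).  For `J.card ≥ k` take a subset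
with `k` elements and use monotonicity. -/
theorem ucase (h : Ex P ty K g) {k : ℕ} {τ : Fin k → κ} (hτ : Function.Injective τ)
    (hI : Ind P ty g τ)
    (hinf : ∀ i, ∀ m, 1 ≤ m → ¬ Lam P ty g ∅ (m • E1 (τ i))) : Out P g (unif k) := by
  classical
  rcases Nat.eq_zero_or_pos k with hk | hk
  · subst hk
    have he : ∀ J : Finset (Fin (2 * 0)), J = ∅ := by
      intro J
      ext x
      exact absurd x.2 (by omega)
    refine ⟨∅, fun _ => ∅, ?_, fun t => Finset.notMem_empty _, ?_, ?_⟩
    · intro x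
      exact absurd x.2 (by omega)
    · rw [he Finset.univ, Finset.image_empty, Finset.empty_union]
      exact DF.empty
    · intro J
      rw [he J, Finset.image_empty, Finset.empty_union, h.as.zero]
      simp [unif]
  obtain ⟨B, hB1, hB2⟩ := h.real (τ := Fin (2 * k)) (fun s => vvec τ ((s : ℕ) + 1)) ∅
  have hBne : ∀ s, (B s).Nonempty := by
    intro s
    rw [Finset.nonempty_iff_ne_empty]
    intro h0
    have h1 := (hB1 s).1
    rw [h0, cnt_empty] at h1
    exact UCase_vvec_ne hτ hk (by omega) h1.symm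
  have hBinj : Function.Injective B := by
    intro x y hxy
    by_contra hne
    have h1 := hB2 x y hne
    rw [hxy, Finset.disjoint_self_iff_empty] at h1
    exact (hBne y).ne_empty h1
  have hDF : ∀ J : Finset (Fin (2 * k)), DF P (J.image B) :=
    fun J => UCase_DF hBne (fun i => (hB1 i).2.1) hB2 J
  refine ⟨∅, B, hBinj, fun t => Finset.notMem_empty _, ?_, ?_⟩
  · rw [Finset.empty_union]
    exact hDF _
  -- upper bounds
  have hcard : ∀ J : Finset (Fin (2 * k)), g (J.image B) ≤ J.card := by
    intro J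
    have h1 := h.as.unit' (hDF J) (Finset.empty_subset _)
    rw [h.as.zero, zero_add, Finset.sdiff_empty] at h1
    exact h1.trans Finset.card_image_le
  have hup : g (Finset.univ.image B) ≤ k := by
    obtain ⟨Y, hY1, hY2⟩ := h.real (τ := Fin k) (fun i => E1 (τ i)) (Finset.univ.biUnion B)
    have hYne : ∀ i, (Y i).Nonempty := by
      intro i
      rw [Finset.nonempty_iff_ne_empty]
      intro h0
      have h1 := (hY1 i).1
      rw [h0, cnt_empty] at h1
      have h2 := UCase_E1_ne (τ i) (le_refl 1)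
      rw [one_smul] at h2
      exact h2 h1.symm
    have hF0 : DF P (Finset.univ.image Y) :=
      UCase_DF hYne (fun i => (hY1 i).2.1) hY2 _
    have hF0B : DF P (Finset.univ.image Y ∪ Finset.univ.image B) := by
      apply UCase_DF_union hF0 (hDF _)
      intro A hA A' hA'
      obtain ⟨i, _, rfl⟩ := Finset.mem_image.1 hA
      obtain ⟨s, _, rfl⟩ := Finset.mem_image.1 hA'
      exact (hY1 i).2.2.mono_right (Finset.subset_biUnion_of_mem B (Finset.mem_univ s))
    have h1 := Lam.fam h hF0B (by
      intro A hA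
      obtain ⟨s, _, rfl⟩ := Finset.mem_image.1 hA
      rw [(hB1 s).1]
      unfold vvec
      apply Lam.sum h hF0
      intro i _
      apply Lam.smul h hF0
      rw [← (hY1 i).1]
      exact Lam.mem h hF0 (Finset.mem_image_of_mem Y (Finset.mem_univ i)))
    have h2 := h.as.mono' hF0B (Finset.subset_union_right (s₁ := Finset.univ.image Y))
    have h3 := h.as.unit' hF0 (Finset.empty_subset _)
    rw [h.as.zero, zero_add, Finset.sdiff_empty] at h3
    have h4 : (Finset.univ.image Y).card ≤ k := by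
      have h5 : (Finset.univ.image Y).card ≤ (Finset.univ : Finset (Fin k)).card :=
        Finset.card_image_le
      rwa [Finset.card_univ, Fintype.card_fin] at h5
    omega
  have hupJ : ∀ J : Finset (Fin (2 * k)), g (J.image B) ≤ k := by
    intro J
    exact (h.as.mono' (hDF Finset.univ) (Finset.image_subset_image (Finset.subset_univ J))).trans
      hup
  -- lower bounds
  have hlow : ∀ J : Finset (Fin (2 * k)), J.card = k → k ≤ g (J.image B) := by
    intro J hJ
    refine vvec_rank h hI hinf (fun s => ((J.orderEmbOfFin hJ s : Fin (2 * k)) : ℕ) + 1) ?_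
      (hDF J) ?_
    · intro s t hst
      have h1 : ((J.orderEmbOfFin hJ s : Fin (2 * k)) : ℕ) =
          ((J.orderEmbOfFin hJ t : Fin (2 * k)) : ℕ) := by
        simpa using hst
      exact (J.orderEmbOfFin hJ).injective (Fin.ext h1)
    · intro s
      have h1 := Lam.mem h (hDF J) (Finset.mem_image_of_mem B (J.orderEmbOfFin_mem hJ s))
      rw [(hB1 _).1] at h1
      exact h1
  intro J
  rw [Finset.empty_union, h.as.zero, zero_add]
  unfold unif
  rcases le_total J.card k with hJ | hJ
  · rw [min_eq_left hJ]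
    apply le_antisymm (hcard J)
    obtain ⟨J', hJJ', hJ'⟩ := Finset.exists_superset_card_eq hJ
      (by rw [Fintype.card_fin]; omega)
    have h1 := hlow J' hJ'
    have h2 := h.as.unit' (hDF J') (Finset.image_subset_image hJJ')
    have h3 : ((J'.image B) \ (J.image B)).card ≤ k - J.card := by
      calc ((J'.image B) \ (J.image B)).card ≤ ((J' \ J).image B).card := by
            apply Finset.card_le_card
            intro A hA
            obtain ⟨hA1, hA2⟩ := Finset.mem_sdiff.1 hA
            obtain ⟨s, hs, rfl⟩ := Finset.mem_image.1 hA1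
            apply Finset.mem_image_of_mem
            rw [Finset.mem_sdiff]
            exact ⟨hs, fun hsJ => hA2 (Finset.mem_image_of_mem B hsJ)⟩
        _ ≤ (J' \ J).card := Finset.card_image_le
        _ = k - J.card := by rw [Finset.card_sdiff_of_subset hJJ', hJ']
    omega
  · rw [min_eq_right hJ]
    apply le_antisymm (hupJ J)
    obtain ⟨J', hJJ', hJ'⟩ := Finset.exists_subset_card_eq hJ
    have h1 := hlow J' hJ'
    have h2 := h.as.mono' (hDF J) (Finset.image_subset_image hJJ')
    omega

end Pool.Agent.H.MP_60a1a2_co
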