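import Pool.Agent.H.MP_60a1a2_co.HomLim
import Pool.Agent.H.MP_60a1a2_co.Dich
import Pool.Agent.H.MP_60a1a2_co.ExQ
import Pool.Agent.H.MP_60a1a2_co.UCase
import Pool.Agent.H.MP_60a1a2_co.PGCase

/-! # The main theorem on additive systems -/

set_option autoImplicit false

namespace Pool.Agent.H.MP_60a1a2_co

theorem Ind.castSucc {β κ : Type} [DecidableEq β] [DecidableEq κ] {P : β → Prop} {ty : β → κ}
    {g : Finset (Finset β) → ℕ} {n : ℕ} {τ : Fin (n + 1) → κ} (h : Ind P ty g τ) :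
    Ind P ty g (fun i : Fin n => τ i.castSucc) := by
  intro F hF S hS
  have h1 := h F hF (S.map Fin.castSuccEmb) (by
    intro i hi
    rw [Finset.mem_map] at hi
    obtain ⟨j, hj, rfl⟩ := hi
    exact hS j hj)
  rwa [Finset.card_map] at h1

/-- homogeneous systems over the rational numbers are good -/
theorem coreQ (k : ℕ) (hk : 1 ≤ k) (g : Finset (Finset (Fin (2 * k) × ℚ)) → ℕ)
    (hg : AS (fun _ => True) (2 * k) g) (hrow : ∀ q, g (row (2 * k) q) = 2 * k) (hH : Hom g) :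
    Good (fun _ => True) g k := by
  classical
  rcases dich (2 * k) k (by omega) hk g hg hH with h | ⟨F0, hF0, hneg, hlt, hb⟩
  · exact Or.inl h
  · have hex := exQ (2 * k) g hg F0 hF0 hneg hb
    obtain ⟨τ, hτ, hI⟩ := indQ k g hg hrow F0 hF0 hneg hlt hex
    have hcon : Good (fun x : Fin (2 * k) × ℚ => 0 < x.2) (fun F => g (F0 ∪ F) - g F0) k := by
      rcases tors_dich hex (by omega) hI with h1 | ⟨p, hp, h1⟩
      · left
        exact ucase hex (τ := fun i : Fin k => τ i.castSucc)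
          (fun a b hab => Fin.castSucc_injective k (hτ hab)) hI.castSucc (fun i => h1 i.castSucc)
      · have : Fact p.Prime := ⟨hp⟩
        exact pgcase hex hτ hI h1
    have hP' : ∀ x : Fin (2 * k) × ℚ, 0 < x.2 → True ∧ ∀ A ∈ F0, x ∉ A := by
      intro x hx
      refine ⟨trivial, fun A hA hxA => ?_⟩
      exact absurd (hneg A hA x hxA) (not_lt.2 hx.le)
    rcases hcon with h | ⟨p, hp, hfin, h⟩
    · exact Or.inl (Out.con hg hF0 hP' h)
    · exact Or.inr ⟨p, hp, hfin, Out.con hg hF0 hP' h⟩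

/-- large finite systems are good -/
theorem coreFin (k : ℕ) (hk : 1 ≤ k) : ∃ C : ℕ, ∀ g : Finset (Finset (Fin (2 * k) × ℕ)) → ℕ,
    AS (fun x : Fin (2 * k) × ℕ => x.2 < C) (2 * k) g →
    (∀ c < C, g (row (2 * k) c) = 2 * k) → Good (fun x : Fin (2 * k) × ℕ => x.2 < C) g k := by
  by_contra hcon
  push Not at hcon
  choose g h1 h2 h3 using hcon
  obtain ⟨g1, a1, a2, a3⟩ := limNat (2 * k) k g h1 (fun n c hc => h2 n c hc) h3
  obtain ⟨g2, b1, b2, b3, b4⟩ := limQ (2 * k) k (by omega) g1 a1 a2 a3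
  exact b4 (coreQ k hk g2 b1 b2 b3)

end Pool.Agent.H.MP_60a1a2_co
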