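import Mathlib

/-! # Basic definitions

Rank functions on all finite subsets of a type, contraction, dual, cliques, minors,
and the additive systems of families of sets. -/

set_option autoImplicit false

namespace Pool.Agent.H.MP_60a1a2_co

/-- a matroid rank function, defined on all finite subsets of `α` -/
structure RF (α : Type*) [DecidableEq α] where
  r : Finset α → ℕ
  le_card : ∀ X, r X ≤ X.card
  mono : ∀ {X Y}, X ⊆ Y → r X ≤ r Y
  submod : ∀ X Y, r (X ∪ Y) + r (X ∩ Y) ≤ r X + r Y

section

variable {α : Type*} [DecidableEq α]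

namespace RF

/-- contraction of `C` (the elements of `C` become loops) -/
def con (M : RF α) (C : Finset α) : RF α where
  r := fun X => M.r (X ∪ C) - M.r C
  le_card := by
    intro X
    have h1 := M.submod X C
    have h2 := M.le_card X
    omega
  mono := by
    intro X Y h
    have h1 : M.r (X ∪ C) ≤ M.r (Y ∪ C) := M.mono (Finset.union_subset_union_left h)
    omega
  submod := by
    intro X Y
    have h1 := M.submod (X ∪ C) (Y ∪ C)
    have h2 : (X ∪ C) ∪ (Y ∪ C) = (X ∪ Y) ∪ C := by
      ext a; simp only [Finset.mem_union]; tauto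
    have h3 : (X ∪ C) ∩ (Y ∪ C) = (X ∩ Y) ∪ C := by
      ext a; simp only [Finset.mem_union, Finset.mem_inter]; tauto
    rw [h2, h3] at h1
    have h4 : M.r C ≤ M.r (X ∪ C) := M.mono Finset.subset_union_right
    have h5 : M.r C ≤ M.r (Y ∪ C) := M.mono Finset.subset_union_right
    have h6 : M.r C ≤ M.r ((X ∪ Y) ∪ C) := M.mono Finset.subset_union_right
    have h7 : M.r C ≤ M.r ((X ∩ Y) ∪ C) := M.mono Finset.subset_union_right
    omega

theorem dual_aux (M : RF α) (X Y : Finset α) : M.r (X ∪ Y) ≤ M.r X + Y.card := by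
  have h1 := M.submod X Y
  have h2 := M.le_card Y
  omega

/-- the dual on the ground set `E` (the other elements are loops) -/
def dual (M : RF α) (E : Finset α) : RF α where
  r := fun X => (X ∩ E).card + M.r (E \ X) - M.r E
  le_card := by
    intro X
    have h1 : M.r (E \ X) ≤ M.r E := M.mono Finset.sdiff_subset
    have h2 : (X ∩ E).card ≤ X.card := Finset.card_le_card Finset.inter_subset_left
    omega
  mono := by
    intro X Y h
    have h1 : E \ X ⊆ (E \ Y) ∪ ((Y ∩ E) \ (X ∩ E)) := by
      intro a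
      simp only [Finset.mem_union, Finset.mem_sdiff, Finset.mem_inter]
      tauto
    have h2 := (M.mono h1).trans (M.dual_aux _ _)
    have h3 : ((Y ∩ E) \ (X ∩ E)).card + (X ∩ E).card = (Y ∩ E).card :=
      Finset.card_sdiff_add_card_eq_card (Finset.inter_subset_inter_right h)
    omega
  submod := by
    intro X Y
    have h1 := M.submod (E \ X) (E \ Y)
    have h2 : (E \ X) ∪ (E \ Y) = E \ (X ∩ Y) := by
      ext a; simp only [Finset.mem_union, Finset.mem_sdiff, Finset.mem_inter]; tauto
    have h3 : (E \ X) ∩ (E \ Y) = E \ (X ∪ Y) := by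
      ext a; simp only [Finset.mem_union, Finset.mem_sdiff, Finset.mem_inter]; tauto
    rw [h2, h3] at h1
    have h4 := Finset.card_union_add_card_inter (X ∩ E) (Y ∩ E)
    have h5 : (X ∩ E) ∪ (Y ∩ E) = (X ∪ Y) ∩ E := by
      ext a; simp only [Finset.mem_union, Finset.mem_inter]; tauto
    have h6 : (X ∩ E) ∩ (Y ∩ E) = (X ∩ Y) ∩ E := by
      ext a; simp only [Finset.mem_inter]; tauto
    rw [h5, h6] at h4
    have key : ∀ Z : Finset α, M.r E ≤ (Z ∩ E).card + M.r (E \ Z) := by
      intro Z
      have h7 : E ⊆ (E \ Z) ∪ (Z ∩ E) := by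
        intro a
        simp only [Finset.mem_union, Finset.mem_sdiff, Finset.mem_inter]
        tauto
      have h8 := (M.mono h7).trans (M.dual_aux _ _)
      omega
    have k1 := key X
    have k2 := key Y
    have k3 := key (X ∪ Y)
    have k4 := key (X ∩ Y)
    omega

/-- `x` is in the closure of `X` -/
def In (M : RF α) (X : Finset α) (x : α) : Prop := M.r (insert x X) = M.r X

end RF

/-- the edges of the complete graph on `V` -/
def ed (e : ℕ → ℕ → α) (V : Finset ℕ) : Finset α := V.offDiag.image (fun p => e p.1 p.2)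

/-- `e` labels the edges of the complete graph on `V` -/
structure IsE (e : ℕ → ℕ → α) (V : Finset ℕ) : Prop where
  symm : ∀ i ∈ V, ∀ j ∈ V, e i j = e j i
  inj : ∀ i ∈ V, ∀ j ∈ V, ∀ k ∈ V, ∀ l ∈ V, i ≠ j → k ≠ l → e i j = e k l →
    (i = k ∧ j = l) ∨ (i = l ∧ j = k)

/-- the third edge of a triangle is in the closure of the other two -/
def Tri (M : RF α) (e : ℕ → ℕ → α) (V : Finset ℕ) : Prop :=
  ∀ i ∈ V, ∀ j ∈ V, ∀ k ∈ V, i ≠ j → j ≠ k → i ≠ k → M.In {e i j, e j k} (e i k)

/-- the restriction of `M` to the edges of `V` is the cycle matroid of the complete graph -/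
structure IsK (M : RF α) (e : ℕ → ℕ → α) (V : Finset ℕ) : Prop where
  isE : IsE e V
  tri : Tri M e V
  rk : V.card ≤ M.r (ed e V) + 1

/-- the star of `w` in the complete graph on `W` -/
def star (e : ℕ → ℕ → α) (w : ℕ) (W : Finset ℕ) : Finset α := (W.erase w).image (e w)

/-- a complete graph as a restriction, the complementary contraction is the dual of a complete
graph, and the connectivity is at least `L` -/
structure TypeI (M : RF α) (e1 : ℕ → ℕ → α) (V : Finset ℕ) (e2 : ℕ → ℕ → α) (W : Finset ℕ)
    (L : ℕ) : Prop where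
  clq : IsK M e1 V
  dsj : Disjoint (ed e1 V) (ed e2 W)
  cocl : IsK ((M.con (ed e1 V)).dual (ed e2 W)) e2 W
  lam : L + M.r (ed e1 V ∪ ed e2 W) ≤ M.r (ed e1 V) + M.r (ed e2 W)

/-- `M`, on the ground set `G`, has a minor with the rank function `h` -/
def HasM (M : RF α) (G : Finset α) {τ : Type} [DecidableEq τ] (h : Finset τ → ℕ) : Prop :=
  ∃ (C : Finset α) (f : τ → α), C ⊆ G ∧ Function.Injective f ∧ (∀ t, f t ∈ G \ C) ∧
    ∀ J : Finset τ, M.r (J.image f ∪ C) = M.r C + h J

end

/-- the rank function of `U_{k,2k}` -/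
def unif (k : ℕ) : Finset (Fin (2 * k)) → ℕ := fun J => min J.card k

/-- the rank function of `PG(k,p)` -/
noncomputable def pg (p k : ℕ) [Fact p.Prime] :
    Finset (Projectivization (ZMod p) (Fin (k + 1) → ZMod p)) → ℕ := fun J =>
  Module.finrank (ZMod p) (Submodule.span (ZMod p)
    ((fun x : Projectivization (ZMod p) (Fin (k + 1) → ZMod p) => x.rep) '' (J : Set _)))

section

variable {β : Type} [DecidableEq β]

/-- disjoint families of nonempty finite sets of elements with `P` -/
def DF (P : β → Prop) (F : Finset (Finset β)) : Prop :=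
  (∀ A ∈ F, A.Nonempty ∧ ∀ x ∈ A, P x) ∧ ∀ A ∈ F, ∀ B ∈ F, A ≠ B → Disjoint A B

/-- additive systems: a rank function on disjoint families, in which the union of two sets
behaves like a sum -/
structure AS (P : β → Prop) (K : ℕ) (g : Finset (Finset β) → ℕ) : Prop where
  zero : g ∅ = 0
  bd : ∀ F, DF P F → g F ≤ K
  mono : ∀ A F, DF P (insert A F) → g F ≤ g (insert A F)
  unit : ∀ A F, DF P (insert A F) → g (insert A F) ≤ g F + 1
  sub : ∀ A B F, DF P (insert A (insert B F)) → A ∉ F → B ∉ F → A ≠ B →
    g (insert A (insert B F)) + g F ≤ g (insert A F) + g (insert B F)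
  spl : ∀ A B F, DF P (insert A (insert B F)) → A ∉ F → B ∉ F → A ≠ B →
    g (insert A (insert B F)) + g F ≤ g (insert A F) + g (insert (A ∪ B) F)
  mrg : ∀ A B F, DF P (insert A (insert B F)) → A ∉ F → B ∉ F → A ≠ B →
    g (insert (A ∪ B) F) ≤ g (insert A (insert B F))

/-- the set `A` (disjoint from the members of `F`) is in the closure of the family `F` -/
def Z (P : β → Prop) (g : Finset (Finset β) → ℕ) (F : Finset (Finset β)) (A : Finset β) : Prop :=
  DF P (insert A F) ∧ A ∉ F ∧ g (insert A F) = g F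

/-- a minor of the system (contraction of `F`) with the rank function `h` -/
def Out (P : β → Prop) (g : Finset (Finset β) → ℕ) {τ : Type} [DecidableEq τ] [Fintype τ]
    (h : Finset τ → ℕ) : Prop :=
  ∃ (F : Finset (Finset β)) (B : τ → Finset β), Function.Injective B ∧ (∀ t, B t ∉ F) ∧
    DF P (F ∪ Finset.univ.image B) ∧ ∀ J : Finset τ, g (F ∪ J.image B) = g F + h J

open Classical in
/-- the conclusion for additive systems -/
def Good (P : β → Prop) (g : Finset (Finset β) → ℕ) (k : ℕ) : Prop :=
  Out P g (unif k) ∨ ∃ (p : ℕ) (_ : Fact p.Prime),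
    ∃ (_ : Fintype (Projectivization (ZMod p) (Fin (k + 1) → ZMod p))), Out P g (pg p k)

/-- renaming of the elements -/
def mapF {β' : Type} (φ : β' → β) (F : Finset (Finset β')) : Finset (Finset β) :=
  F.image (fun A => A.image φ)

/-- number of elements of every type -/
def cnt {κ : Type} [DecidableEq κ] (ty : β → κ) (A : Finset β) : κ → ℕ :=
  fun i => (A.filter (fun x => ty x = i)).card

/-- exchange systems: elements of the same type have common complements -/
structure Ex {κ : Type} (P : β → Prop) (ty : β → κ) (K : ℕ) (g : Finset (Finset β) → ℕ) :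
    Prop where
  as : AS P K g
  ex : ∀ u u', P u → P u' → ty u = ty u' → ∀ X : Finset β, ∃ R : Finset β, (∀ x ∈ R, P x) ∧
    Disjoint R X ∧ u ∉ R ∧ u' ∉ R ∧ g {insert u R} = 0 ∧ g {insert u' R} = 0
  inf : ∀ (i : κ) (X : Finset β), ∃ x, P x ∧ x ∉ X ∧ ty x = i

/-- the vector `v` is in the closure of the family `F` -/
def Lam {κ : Type} [DecidableEq κ] (P : β → Prop) (ty : β → κ) (g : Finset (Finset β) → ℕ)
    (F : Finset (Finset β)) (v : κ → ℕ) : Prop :=
  v = 0 ∨ ∃ A, cnt ty A = v ∧ Z P g F A

end

/-- the block with one element of every type -/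
def blk {K : ℕ} {ι : Type} [DecidableEq ι] (u : Fin K → ι) : Finset (Fin K × ι) :=
  Finset.univ.image (fun t => (t, u t))

/-- the row of the index `c` (singletons) -/
def row (K : ℕ) {ι : Type} [DecidableEq ι] (c : ι) : Finset (Finset (Fin K × ι)) :=
  Finset.univ.image (fun t : Fin K => {(t, c)})

/-- lexicographically increasing -/
def LexInc {j K : ℕ} {ι : Type} [LT ι] (f : Fin j → Fin K → ι) : Prop :=
  ∀ (i i' : Fin j) (t t' : Fin K), (i < i' ∨ (i = i' ∧ t < t')) → f i t < f i' t'

/-- the family of the blocks of `f` -/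
def blks {j K : ℕ} {ι : Type} [DecidableEq ι] (f : Fin j → Fin K → ι) :
    Finset (Finset (Fin K × ι)) :=
  Finset.univ.image (fun i => blk (f i))

/-- homogeneous systems -/
def Hom {K : ℕ} {ι : Type} [DecidableEq ι] [LT ι] (g : Finset (Finset (Fin K × ι)) → ℕ) : Prop :=
  ∀ j : ℕ, (∀ f : Fin j → Fin K → ι, LexInc f → g (blks f) = j) ∨
    (∀ f : Fin j → Fin K → ι, LexInc f → g (blks f) < j)

end Pool.Agent.H.MP_60a1a2_co
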