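import Pool.Agent.H.MP_60a1a2_co.ASLib

/-! # Exchange systems: only the numbers of elements of every type matter -/

set_option autoImplicit false

namespace Pool.Agent.H.MP_60a1a2_co

variable {β κ : Type} [DecidableEq β] {P : β → Prop} {ty : β → κ} {K : ℕ}
  {g : Finset (Finset β) → ℕ}

/-- A set with rank `0` is in the closure of every family (of disjoint sets).

Proof: `Z P g ∅ A` because `g {A} = 0 = g ∅`; `AS.zmono`. -/
theorem AS.z_of_zero (h : AS P K g) {F : Finset (Finset β)} {A : Finset β} (hA : g {A} = 0)
    (hF : DF P (insert A F)) (hAF : A ∉ F) : Z P g F A := by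
  have h0 : Z P g ∅ A := by
    refine ⟨hF.subset (Finset.insert_subset_insert A (Finset.empty_subset F)), by simp, ?_⟩
    rw [h.zero]
    exact hA
  exact h.zmono h0 (Finset.empty_subset F) hF hAF

theorem Exch_not_mem {F : Finset (Finset β)} {A : Finset β} (hF : DF P (insert A F))
    (hAF : A ∉ F) {B : Finset β} (hB : B ∈ F) {x : β} (hx : x ∈ A) : x ∉ B := by
  have hne : A ≠ B := fun h => hAF (h ▸ hB)
  have hd := hF.2 A (Finset.mem_insert_self A F) B (Finset.mem_insert_of_mem hB) hne
  exact Finset.disjoint_left.1 hd hx

theorem Exch_P {F : Finset (Finset β)} {A : Finset β} (hF : DF P F) (hA : A ∈ F)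
    {x : β} (hx : x ∈ A) : P x := (hF.1 A hA).2 x hx

/-- Exchange of one element.

Proof.  Let `X` be the union of the members of `F` together with `S`, `u`, `u'`; take `R` from
`h.ex u u'` for `X`.  `P u` and `P` on `S` follow from `hZ`.  `insert u' R` is in the closure of `F`
(`z_of_zero`; it is nonempty, its elements satisfy `P`, and it is disjoint from the members of `F`),
so `insert u S ∪ insert u' R` is in the closure (`zunion`; disjoint because `u' ∉ insert u S`,
`u ∉ R`, `R` is disjoint from `S`).  This set is `insert u R ∪ insert u' S`.  `insert u R` is in the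
closure of `F` (`z_of_zero`), so by `zdiff` `insert u' S` is in the closure. -/
theorem Ex.exch (h : Ex P ty K g) {F : Finset (Finset β)} {S : Finset β} {u u' : β}
    (hZ : Z P g F (insert u S)) (hu : u ∉ S) (hu' : u' ∉ insert u S) (hty : ty u = ty u')
    (hP : P u') (hF : ∀ A ∈ F, u' ∉ A) : Z P g F (insert u' S) := by
  have hPS : ∀ x ∈ insert u S, P x := (hZ.1.1 _ (Finset.mem_insert_self _ _)).2
  have hPu : P u := hPS u (Finset.mem_insert_self u S)
  have hDF : DF P F := hZ.1.subset (Finset.subset_insert _ F)
  have huF : ∀ A ∈ F, u ∉ A := fun A hA =>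
    Exch_not_mem hZ.1 hZ.2.1 hA (Finset.mem_insert_self u S)
  obtain ⟨R, hRP, hRX, huR, hu'R, hg, hg'⟩ := h.ex u u' hPu hP hty (F.sup id ∪ S)
  have hRF : ∀ A ∈ F, Disjoint R A := by
    intro A hA
    refine Finset.disjoint_of_subset_right ?_ hRX
    exact (Finset.le_sup (f := id) hA).trans Finset.subset_union_left
  have hRS : Disjoint R S := Finset.disjoint_of_subset_right Finset.subset_union_right hRX
  have hne : u ≠ u' := by
    intro he
    exact hu' (he ▸ Finset.mem_insert_self u S)
  have hu'S : u' ∉ S := fun hm => hu' (Finset.mem_insert_of_mem hm)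
  have key : ∀ w, P w → (∀ A ∈ F, w ∉ A) → w ∉ R → g {insert w R} = 0 →
      Z P g F (insert w R) := by
    intro w hw hwF hwR hgw
    refine h.as.z_of_zero hgw ?_ ?_
    · rw [DF.insert_iff]
      refine ⟨hDF, ⟨w, Finset.mem_insert_self w R⟩, ?_, ?_⟩
      · intro x hx
        rw [Finset.mem_insert] at hx
        rcases hx with rfl | hx
        · exact hw
        · exact hRP x hx
      · intro B hB _
        rw [Finset.disjoint_insert_left]
        exact ⟨hwF B hB, hRF B hB⟩
    · intro hm
      exact hwF _ hm (Finset.mem_insert_self w R)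
  have h1 := key u' hP hF hu'R hg'
  have h2 := key u hPu huF huR hg
  have hd1 : Disjoint (insert u S) (insert u' R) := by
    rw [Finset.disjoint_insert_left, Finset.disjoint_insert_right, Finset.mem_insert]
    refine ⟨?_, hu'S, hRS.symm⟩
    rintro (he | hm)
    · exact hne he
    · exact huR hm
  have h3 := h.as.zunion hZ h1 hd1
  have he : insert u S ∪ insert u' R = insert u R ∪ insert u' S := by
    ext x
    simp only [Finset.mem_union, Finset.mem_insert]
    tauto
  rw [he] at h3
  refine h.as.zdiff h2 h3 ?_ ⟨u', Finset.mem_insert_self u' S⟩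
  rw [Finset.disjoint_insert_left, Finset.disjoint_insert_right, Finset.mem_insert]
  refine ⟨?_, hu'R, hRS⟩
  rintro (he | hm)
  · exact hne he
  · exact hu hm

theorem Exch_exists [DecidableEq κ] {A A' : Finset β} (hc : cnt ty A = cnt ty A') {u : β}
    (hu : u ∈ A) (hu' : u ∉ A') : ∃ u' ∈ A', u' ∉ A ∧ ty u' = ty u := by
  by_contra hcon
  push Not at hcon
  have h1 : A'.filter (fun x => ty x = ty u) ⊂ A.filter (fun x => ty x = ty u) := by
    rw [Finset.ssubset_iff_of_subset]
    · refine ⟨u, ?_, ?_⟩
      · simp [hu]
      · simp [hu']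
    · intro x hx
      rw [Finset.mem_filter] at hx ⊢
      refine ⟨?_, hx.2⟩
      by_contra hxA
      exact hcon x hx.1 hxA hx.2
  have h2 := Finset.card_lt_card h1
  have h3 := congrFun hc (ty u)
  unfold cnt at h3
  omega

theorem Exch_mem [DecidableEq κ] {A A' : Finset β} (hc : cnt ty A = cnt ty A') {u : β}
    (hu : u ∈ A) : ∃ u' ∈ A', ty u' = ty u := by
  by_cases h : u ∈ A'
  · exact ⟨u, h, rfl⟩
  · obtain ⟨u', h1, _, h2⟩ := Exch_exists hc hu h
    exact ⟨u', h1, h2⟩

theorem Exch_cnt_union [DecidableEq κ] {A B : Finset β} (hd : Disjoint A B) (i : κ) :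
    cnt ty (A ∪ B) i = cnt ty A i + cnt ty B i := by
  unfold cnt
  rw [Finset.filter_union, Finset.card_union_of_disjoint]
  exact Finset.disjoint_filter_filter hd

theorem Exch_cnt_insert [DecidableEq κ] {A : Finset β} {u : β} (hu : u ∉ A) (i : κ) :
    cnt ty (insert u A) i = cnt ty A i + if ty u = i then 1 else 0 := by
  unfold cnt
  rw [Finset.filter_insert]
  split_ifs with h
  · rw [Finset.card_insert_of_notMem]
    intro hm
    exact hu (Finset.mem_filter.1 hm).1
  · rfl

theorem Exch_cnt_erase [DecidableEq κ] {A : Finset β} {u : β} (hu : u ∈ A) (i : κ) :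
    cnt ty A i = cnt ty (A.erase u) i + if ty u = i then 1 else 0 := by
  have h := Exch_cnt_insert (ty := ty) (Finset.notMem_erase u A) i
  rw [Finset.insert_erase hu] at h
  exact h

theorem Exch_cnt_erase2 [DecidableEq κ] {A A' : Finset β} {u u' : β} (hu : u ∈ A)
    (hu' : u' ∈ A') (hty : ty u = ty u') (hc : cnt ty A = cnt ty A') :
    cnt ty (A.erase u) = cnt ty (A'.erase u') := by
  funext i
  have h1 := Exch_cnt_erase (ty := ty) hu i
  have h2 := Exch_cnt_erase (ty := ty) hu' i
  have h3 := congrFun hc i
  rw [hty] at h1
  omega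

theorem Exch_cnt_zero [DecidableEq κ] {A A' : Finset β} (hc : cnt ty A = cnt ty A')
    (hA : A = ∅) : A' = ∅ := by
  by_contra hne
  obtain ⟨x, hx⟩ := Finset.nonempty_iff_ne_empty.2 hne
  obtain ⟨y, hy, _⟩ := Exch_mem hc.symm hx
  rw [hA] at hy
  simp at hy

/-- Only the numbers of elements of every type matter.

Proof by induction on `(A \ A').card`.  If `A \ A' = ∅` then `A ⊆ A'` and the cardinalities agree
(sum of `cnt`: `A.card = ∑ i ∈ A.image ty, cnt ty A i`; or argue directly: an element of `A' \ A` of
type `i` would give `cnt ty A i < cnt ty A' i`), so `A = A'`.  Otherwise let `u ∈ A \ A'` of type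
`i`; because `cnt ty A i = cnt ty A' i` there is `u' ∈ A' \ A` of type `i`.  By `exch` with
`S = A.erase u` the set `insert u' (A.erase u)` is in the closure, it has the same numbers, and
`(insert u' (A.erase u)) \ A'` is smaller. -/
theorem Ex.cnt_congr [DecidableEq κ] (h : Ex P ty K g) {F : Finset (Finset β)}
    {A A' : Finset β} (hA : Z P g F A) (hc : cnt ty A = cnt ty A')
    (hA' : DF P (insert A' F)) (hAF : A' ∉ F) : Z P g F A' := by
  have main : ∀ n : ℕ, ∀ A : Finset β, (A \ A').card = n → Z P g F A → cnt ty A = cnt ty A' →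
      Z P g F A' := by
    intro n
    induction n with
    | zero =>
      intro A hcard hA hc
      have hsub : A ⊆ A' := by
        rw [Finset.card_eq_zero, Finset.sdiff_eq_empty_iff_subset] at hcard
        exact hcard
      have hsub' : A' ⊆ A := by
        intro x hx
        by_contra hxA
        obtain ⟨y, hy, hyA, _⟩ := Exch_exists hc.symm hx hxA
        exact hyA (hsub hy)
      have he : A = A' := Finset.Subset.antisymm hsub hsub'
      rw [← he]
      exact hA
    | succ n ih =>
      intro A hcard hA hc
      have hne : (A \ A').Nonempty := by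
        rw [← Finset.card_pos, hcard]; omega
      obtain ⟨u, hu⟩ := hne
      rw [Finset.mem_sdiff] at hu
      obtain ⟨u', hu'A', hu'A, hty⟩ := Exch_exists hc hu.1 hu.2
      have hZ : Z P g F (insert u (A.erase u)) := by
        rw [Finset.insert_erase hu.1]
        exact hA
      have h1 : Z P g F (insert u' (A.erase u)) := by
        refine h.exch hZ (Finset.notMem_erase u A) ?_ hty.symm ?_ ?_
        · rw [Finset.insert_erase hu.1]
          exact hu'A
        · exact Exch_P hA' (Finset.mem_insert_self A' F) hu'A'
        · intro B hB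
          exact Exch_not_mem hA' hAF hB hu'A'
      have hu'e : u' ∉ A.erase u := fun hm => hu'A (Finset.mem_of_mem_erase hm)
      refine ih _ ?_ h1 ?_
      · have he : insert u' (A.erase u) \ A' = (A \ A').erase u := by
          ext x
          simp only [Finset.mem_sdiff, Finset.mem_insert, Finset.mem_erase]
          constructor
          · rintro ⟨hx1 | ⟨hx1, hx2⟩, hx3⟩
            · exact absurd (hx1 ▸ hu'A') hx3
            · exact ⟨hx1, hx2, hx3⟩
          · rintro ⟨hx1, hx2, hx3⟩
            exact ⟨Or.inr ⟨hx1, hx2⟩, hx3⟩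
        rw [he, Finset.card_erase_of_mem (Finset.mem_sdiff.2 hu), hcard]
        rfl
      · rw [← hc]
        funext i
        rw [Exch_cnt_insert hu'e, Exch_cnt_erase hu.1 i, hty]
  exact main _ A rfl hA hc

theorem Exch_zero_union (h : AS P K g) {C D : Finset β} (hC : g {C} = 0) (hD : g {D} = 0)
    (hCn : C.Nonempty) (hDn : D.Nonempty) (hCP : ∀ x ∈ C, P x) (hDP : ∀ x ∈ D, P x)
    (hd : Disjoint C D) : g {C ∪ D} = 0 := by
  have key : ∀ E : Finset β, g {E} = 0 → E.Nonempty → (∀ x ∈ E, P x) → Z P g ∅ E := by
    intro E hE hEn hEP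
    refine h.z_of_zero hE ?_ (by simp)
    rw [DF.insert_iff]
    exact ⟨DF.empty, hEn, hEP, fun B hB => by simp at hB⟩
  have h1 := h.zunion (key C hC hCn hCP) (key D hD hDn hDP) hd
  have h2 := h1.2.2
  rw [h.zero] at h2
  exact h2

/-- Common complements of two disjoint sets with the same numbers.

Proof.  Induction on `A.card` (for all `A'` and `X`).  `A = ∅`: then `A' = ∅`, excluded by
nonemptiness; so treat the statement with the conclusion `A = ∅ ∧ A' = ∅ ∨ ...`, or start with one
element: `h.ex`.  Step: `u ∈ A`, `u' ∈ A'` of the same type, `B = A.erase u`, `B' = A'.erase u'`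
nonempty; `R1` for `B, B'` and `X ∪ A ∪ A'`; `R2` from `h.ex u u'` for `X ∪ A ∪ A' ∪ R1`; take
`R = R1 ∪ R2`: `A ∪ R = (B ∪ R1) ∪ insert u R2`, a disjoint union of two sets of rank `0`, so of
rank `0` (`zunion` for the empty family). -/
theorem Ex.compl [DecidableEq κ] (h : Ex P ty K g) (A A' : Finset β) (hA : A.Nonempty)
    (hPA : ∀ x ∈ A, P x) (hPA' : ∀ x ∈ A', P x) (hd : Disjoint A A')
    (hc : cnt ty A = cnt ty A') (X : Finset β) :
    ∃ R : Finset β, (∀ x ∈ R, P x) ∧ Disjoint R (X ∪ A ∪ A') ∧ g {A ∪ R} = 0 ∧
      g {A' ∪ R} = 0 := by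
  have main : ∀ n : ℕ, ∀ A A' X : Finset β, A.card = n → A.Nonempty → (∀ x ∈ A, P x) →
      (∀ x ∈ A', P x) → Disjoint A A' → cnt ty A = cnt ty A' →
      ∃ R : Finset β, (∀ x ∈ R, P x) ∧ Disjoint R (X ∪ A ∪ A') ∧ g {A ∪ R} = 0 ∧
      g {A' ∪ R} = 0 := by
    intro n
    induction n with
    | zero =>
      intro A A' X hcard hA
      rw [Finset.card_eq_zero] at hcard
      rw [hcard] at hA
      exact absurd hA (by simp)
    | succ n ih =>
      intro A A' X hcard hA hPA hPA' hd hc
      obtain ⟨u, hu⟩ := hA
      obtain ⟨u', hu', hty⟩ := Exch_mem hc hu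
      have hne : u ≠ u' := fun he => (Finset.disjoint_left.1 hd hu) (he ▸ hu')
      have hcB := Exch_cnt_erase2 hu hu' hty.symm hc
      by_cases hB : A.erase u = ∅
      · have hB' : A'.erase u' = ∅ := Exch_cnt_zero hcB hB
        obtain ⟨R, hRP, hRX, huR, hu'R, hg, hg'⟩ :=
          h.ex u u' (hPA u hu) (hPA' u' hu') hty.symm (X ∪ A ∪ A')
        refine ⟨R, hRP, hRX, ?_, ?_⟩
        · have he : A ∪ R = insert u R := by
            rw [← Finset.insert_erase hu, hB]
            rfl
          rw [he]; exact hg
        · have he : A' ∪ R = insert u' R := by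
            rw [← Finset.insert_erase hu', hB']
            rfl
          rw [he]; exact hg'
      · have hBn : (A.erase u).Nonempty := Finset.nonempty_iff_ne_empty.2 hB
        have hB'n : (A'.erase u').Nonempty := by
          rw [Finset.nonempty_iff_ne_empty]
          intro he
          exact hB (Exch_cnt_zero hcB.symm he)
        have hPB : ∀ x ∈ A.erase u, P x := fun x hx => hPA x (Finset.mem_of_mem_erase hx)
        have hPB' : ∀ x ∈ A'.erase u', P x := fun x hx => hPA' x (Finset.mem_of_mem_erase hx)
        have hdB : Disjoint (A.erase u) (A'.erase u') :=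
          Finset.disjoint_of_subset_left (Finset.erase_subset u A)
            (Finset.disjoint_of_subset_right (Finset.erase_subset u' A') hd)
        have hcardB : (A.erase u).card = n := by
          rw [Finset.card_erase_of_mem hu, hcard]
          rfl
        obtain ⟨R1, hR1P, hR1X, hg1, hg1'⟩ :=
          ih (A.erase u) (A'.erase u') (X ∪ A ∪ A') hcardB hBn hPB hPB' hdB hcB
        obtain ⟨R2, hR2P, hR2X, huR2, hu'R2, hg2, hg2'⟩ :=
          h.ex u u' (hPA u hu) (hPA' u' hu') hty.symm (X ∪ A ∪ A' ∪ R1)
        have hR1XA : Disjoint R1 (X ∪ A ∪ A') := by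
          refine Finset.disjoint_of_subset_right ?_ hR1X
          intro x hx
          simp only [Finset.mem_union] at hx ⊢
          tauto
        have hR2XA : Disjoint R2 (X ∪ A ∪ A') :=
          Finset.disjoint_of_subset_right Finset.subset_union_left hR2X
        have hR2R1 : Disjoint R2 R1 :=
          Finset.disjoint_of_subset_right Finset.subset_union_right hR2X
        have key : ∀ (C : Finset β) (w : β), w ∈ C → C ⊆ X ∪ A ∪ A' → (∀ x ∈ C, P x) →
            (C.erase w).Nonempty → g {C.erase w ∪ R1} = 0 → g {insert w R2} = 0 →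
            g {C ∪ (R1 ∪ R2)} = 0 := by
          intro C w hw hC hCP hCn hgC hgw
          have he : C ∪ (R1 ∪ R2) = (C.erase w ∪ R1) ∪ insert w R2 := by
            ext x
            simp only [Finset.mem_union, Finset.mem_insert, Finset.mem_erase]
            by_cases hxw : x = w
            · subst hxw; simp [hw]
            · tauto
          rw [he]
          have hwR1 : w ∉ R1 := fun hm => Finset.disjoint_left.1 hR1XA hm (hC hw)
          refine Exch_zero_union h.as hgC hgw (hCn.mono Finset.subset_union_left)
            ⟨w, Finset.mem_insert_self w R2⟩ ?_ ?_ ?_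
          · intro x hx
            rw [Finset.mem_union] at hx
            rcases hx with hx | hx
            · exact hCP x (Finset.mem_of_mem_erase hx)
            · exact hR1P x hx
          · intro x hx
            rw [Finset.mem_insert] at hx
            rcases hx with rfl | hx
            · exact hCP _ hw
            · exact hR2P x hx
          · rw [Finset.disjoint_insert_right, Finset.disjoint_union_left, Finset.mem_union]
            refine ⟨?_, ?_, hR2R1.symm⟩
            · rintro (hm | hm)
              · exact Finset.notMem_erase w C hm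
              · exact hwR1 hm
            · refine Finset.disjoint_of_subset_left ?_ hR2XA.symm
              exact (Finset.erase_subset w C).trans hC
        refine ⟨R1 ∪ R2, ?_, ?_, ?_, ?_⟩
        · intro x hx
          rw [Finset.mem_union] at hx
          rcases hx with hx | hx
          · exact hR1P x hx
          · exact hR2P x hx
        · rw [Finset.disjoint_union_left]
          exact ⟨hR1XA, hR2XA⟩
        · refine key A u hu ?_ hPA hBn hg1 hg2
          intro x hx
          simp only [Finset.mem_union]
          tauto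
        · refine key A' u' hu' ?_ hPA' hB'n hg1' hg2'
          intro x hx
          simp only [Finset.mem_union]
          tauto
  exact main _ A A' X rfl hA hPA hPA' hd hc

/-- A copy of a member of the family is in the closure.

Proof.  `A'` is disjoint from all members of `F`, in particular from `A`.  Let `X` be the union of
the members of `F`, and `R` from `Ex.compl`.  Let `F' = F.erase A`.  If `R = ∅` then
`g {A'} = 0` and `z_of_zero` applies.  Otherwise `A ∪ R` is in the closure of `F'` (`z_of_zero`), so
`R` is in the closure of `insert A F' = F` (`zmove`); `A' ∪ R` is in the closure of `F`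
(`z_of_zero`); by `zdiff` (`R ∪ A'`) `A'` is in the closure of `F`. -/
theorem Ex.copy [DecidableEq κ] (h : Ex P ty K g) {F : Finset (Finset β)} {A A' : Finset β}
    (hAF : A ∈ F) (hc : cnt ty A = cnt ty A') (hA' : DF P (insert A' F)) (hAF' : A' ∉ F) :
    Z P g F A' := by
  have hDF : DF P F := hA'.subset (Finset.subset_insert _ F)
  have hAn : A.Nonempty := (hDF.1 A hAF).1
  have hPA : ∀ x ∈ A, P x := (hDF.1 A hAF).2
  have hA'n : A'.Nonempty := (hA'.1 A' (Finset.mem_insert_self _ _)).1
  have hPA' : ∀ x ∈ A', P x := (hA'.1 A' (Finset.mem_insert_self _ _)).2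
  have hd : Disjoint A A' := by
    refine hA'.2 A (Finset.mem_insert_of_mem hAF) A' (Finset.mem_insert_self _ _) ?_
    intro he
    exact hAF' (he ▸ hAF)
  obtain ⟨R, hRP, hRX, hg, hg'⟩ := h.compl A A' hAn hPA hPA' hd hc (F.sup id)
  have hRF : ∀ B ∈ F, Disjoint R B := by
    intro B hB
    refine Finset.disjoint_of_subset_right ?_ hRX
    intro x hx
    simp only [Finset.mem_union]
    left; left
    exact (Finset.le_sup (f := id) hB : B ⊆ F.sup id) hx
  have hRA' : Disjoint R A' :=
    Finset.disjoint_of_subset_right Finset.subset_union_right hRX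
  have hRA : Disjoint R A := hRF A hAF
  by_cases hR : R = ∅
  · subst hR
    rw [Finset.union_empty] at hg'
    exact h.as.z_of_zero hg' hA' hAF'
  · have hRn : R.Nonempty := Finset.nonempty_iff_ne_empty.2 hR
    have h1 : Z P g (F.erase A) (A ∪ R) := by
      refine h.as.z_of_zero hg ?_ ?_
      · rw [DF.insert_iff]
        refine ⟨hDF.subset (Finset.erase_subset _ _), hAn.mono Finset.subset_union_left, ?_, ?_⟩
        · intro x hx
          rw [Finset.mem_union] at hx
          rcases hx with hx | hx
          · exact hPA x hx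
          · exact hRP x hx
        · intro B hB _
          rw [Finset.mem_erase] at hB
          rw [Finset.disjoint_union_left]
          exact ⟨hDF.2 A hAF B hB.2 hB.1.symm, hRF B hB.2⟩
      · intro hm
        rw [Finset.mem_erase] at hm
        have hd2 := hRF _ hm.2
        obtain ⟨x, hx⟩ := hRn
        exact Finset.disjoint_left.1 hd2 hx (Finset.mem_union_right A hx)
    have h2 : Z P g F R := by
      have h3 := h.as.zmove h1 hRA.symm hAn hRn
      rw [Finset.insert_erase hAF] at h3
      exact h3
    have h4 : Z P g F (R ∪ A') := by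
      rw [Finset.union_comm]
      refine h.as.z_of_zero hg' ?_ ?_
      · rw [DF.insert_iff]
        refine ⟨hDF, hA'n.mono Finset.subset_union_left, ?_, ?_⟩
        · intro x hx
          rw [Finset.mem_union] at hx
          rcases hx with hx | hx
          · exact hPA' x hx
          · exact hRP x hx
        · intro B hB _
          rw [Finset.disjoint_union_left]
          refine ⟨?_, hRF B hB⟩
          refine hA'.2 A' (Finset.mem_insert_self _ _) B (Finset.mem_insert_of_mem hB) ?_
          intro he
          exact hAF' (he ▸ hB)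
      · intro hm
        have hd2 := hRF _ hm
        obtain ⟨x, hx⟩ := hRn
        exact Finset.disjoint_left.1 hd2 hx (Finset.mem_union_right A' hx)
    exact h.as.zdiff h2 h4 hRA' hA'n

theorem Exch_real0 (h : Ex P ty K g) (i : κ) (n : ℕ) (X : Finset β) :
    ∃ B : Finset β, B.card = n ∧ (∀ x ∈ B, P x ∧ ty x = i) ∧ Disjoint B X := by
  induction n with
  | zero => exact ⟨∅, by simp, by simp, by simp⟩
  | succ n ih =>
    obtain ⟨B, hB1, hB2, hB3⟩ := ih
    obtain ⟨x, hx1, hx2, hx3⟩ := h.inf i (X ∪ B)
    rw [Finset.mem_union, not_or] at hx2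
    refine ⟨insert x B, ?_, ?_, ?_⟩
    · rw [Finset.card_insert_of_notMem hx2.2, hB1]
    · intro y hy
      rw [Finset.mem_insert] at hy
      rcases hy with rfl | hy
      · exact ⟨hx1, hx3⟩
      · exact hB2 y hy
    · rw [Finset.disjoint_insert_left]
      exact ⟨hx2.1, hB3⟩

theorem Exch_real1 [DecidableEq κ] [Fintype κ] (h : Ex P ty K g) (v : κ → ℕ) (X : Finset β) :
    ∃ B : Finset β, cnt ty B = v ∧ (∀ x ∈ B, P x) ∧ Disjoint B X := by
  have main : ∀ s : Finset κ, ∃ B : Finset β, (∀ i, cnt ty B i = if i ∈ s then v i else 0) ∧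
      (∀ x ∈ B, P x) ∧ Disjoint B X := by
    intro s
    induction s using Finset.induction_on with
    | empty => exact ⟨∅, by intro i; simp [cnt], by simp, by simp⟩
    | insert i s his ih =>
      obtain ⟨B, hB1, hB2, hB3⟩ := ih
      obtain ⟨C, hC1, hC2, hC3⟩ := Exch_real0 h i (v i) (X ∪ B)
      rw [Finset.disjoint_union_right] at hC3
      refine ⟨B ∪ C, ?_, ?_, ?_⟩
      · intro j
        rw [Exch_cnt_union hC3.2.symm, hB1 j]
        by_cases hj : j = i
        · subst hj
          have h1 : cnt ty C j = v j := by
            unfold cnt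
            rw [Finset.filter_true_of_mem (fun x hx => (hC2 x hx).2), hC1]
          rw [h1]
          simp [his]
        · have h1 : cnt ty C j = 0 := by
            unfold cnt
            rw [Finset.card_eq_zero, Finset.filter_eq_empty_iff]
            intro x hx he
            exact hj (he.symm.trans (hC2 x hx).2)
          rw [h1]
          simp [hj]
      · intro x hx
        rw [Finset.mem_union] at hx
        rcases hx with hx | hx
        · exact hB2 x hx
        · exact (hC2 x hx).1
      · rw [Finset.disjoint_union_left]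
        exact ⟨hB3, hC3.1⟩
  obtain ⟨B, hB1, hB2, hB3⟩ := main Finset.univ
  exact ⟨B, by funext i; simp [hB1 i], hB2, hB3⟩

/-- Realization of vectors by disjoint sets.

Proof.  One set: for `i : κ` choose `v i` elements of type `i` outside the forbidden set one after
another (`h.inf`); `κ` is finite.  Several sets: induction over `τ` (for example with
`Finset.induction_on` for subsets of `τ`), adding the sets already constructed to the forbidden
set. -/
theorem Ex.real [DecidableEq κ] [Fintype κ] (h : Ex P ty K g) {τ : Type} [Fintype τ]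
    (v : τ → κ → ℕ) (X : Finset β) :
    ∃ B : τ → Finset β, (∀ t, cnt ty (B t) = v t ∧ (∀ x ∈ B t, P x) ∧ Disjoint (B t) X) ∧
      ∀ s t, s ≠ t → Disjoint (B s) (B t) := by
  classical
  have main : ∀ T : Finset τ, ∃ B : τ → Finset β,
      (∀ t ∈ T, cnt ty (B t) = v t ∧ (∀ x ∈ B t, P x) ∧ Disjoint (B t) X) ∧
      ∀ s ∈ T, ∀ t ∈ T, s ≠ t → Disjoint (B s) (B t) := by
    intro T
    induction T using Finset.induction_on with
    | empty => exact ⟨fun _ => ∅, by simp, by simp⟩
    | insert a T haT ih =>
      obtain ⟨B, hB1, hB2⟩ := ih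
      obtain ⟨C, hC1, hC2, hC3⟩ := Exch_real1 h (v a) (X ∪ T.biUnion B)
      rw [Finset.disjoint_union_right] at hC3
      have hCB : ∀ t ∈ T, Disjoint C (B t) := fun t ht =>
        Finset.disjoint_of_subset_right (Finset.subset_biUnion_of_mem B ht) hC3.2
      have hne : ∀ t ∈ T, t ≠ a := fun t ht he => haT (he ▸ ht)
      refine ⟨Function.update B a C, ?_, ?_⟩
      · intro t ht
        rw [Finset.mem_insert] at ht
        rcases ht with rfl | ht
        · rw [Function.update_self]
          exact ⟨hC1, hC2, hC3.1⟩
        · rw [Function.update_of_ne (hne t ht)]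
          exact hB1 t ht
      · intro s hs t ht hst
        rw [Finset.mem_insert] at hs ht
        rcases hs with rfl | hs
        · rcases ht with rfl | ht
          · exact absurd rfl hst
          · rw [Function.update_self, Function.update_of_ne (hne t ht)]
            exact hCB t ht
        · rcases ht with rfl | ht
          · rw [Function.update_self, Function.update_of_ne (hne s hs)]
            exact (hCB s hs).symm
          · rw [Function.update_of_ne (hne s hs), Function.update_of_ne (hne t ht)]
            exact hB2 s hs t ht hst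
  obtain ⟨B, hB1, hB2⟩ := main Finset.univ
  exact ⟨B, fun t => hB1 t (Finset.mem_univ t),
    fun s t hst => hB2 s (Finset.mem_univ s) t (Finset.mem_univ t) hst⟩

end Pool.Agent.H.MP_60a1a2_co
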