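import Pool.Agent.H.MP_60a1a2_co.Spread

/-! # Many disjoint bases after a contraction in a spanning clique -/

set_option autoImplicit false

namespace Pool.Agent.H.MP_60a1a2_co

/-- Many disjoint sets of `K` elements of `T0` which are bases after the contraction of a set `Q` of
edges of a spanning clique.

Proof.  `L0` from `spread K (C * K)`.  Let `L = N.r T0`, `T' ⊆ T0` a basis (`RF.exists_basis`),
`T'.card = L`.  Let `v0 ∈ V` (`V` is nonempty: otherwise `N.r T0 = 0` and, if `L0 = 0`, take
`L0 + 1` instead), `S0 = star e v0 V`: independent, spans `ed e V`, `S0.card + 1 = V.card`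
(`IsK.star_ind`, `star_card`, `Tri.rank_star`).  All of `T0` is in the closure of `ed e V`.
`RF.exists_ext` for `T' ⊆ T' ∪ S0`: basis `B ⊇ T'`, `B.card = N.r (T' ∪ S0) = V.card - 1`.
`F = B \ T' ⊆ S0`, `F.card = V.card - 1 - L`.  `U = {v ∈ V | v ≠ v0 ∧ e v0 v ∈ F}`,
`U.card = F.card`, `V1 = V \ U`, `V1.card = L + 1`, `v0 ∈ V1`.  `N1 = N.con F`.
`IsK N1 e V1`: `IsE.mono`, `Tri.con`, `Tri.mono`; rank: `N1.r (ed e V1) + F.card =
N.r (ed e V1 ∪ F) ≥ N.r S0 = V.card - 1` (`S0 ⊆ ed e V1 ∪ F`).
`N1.r T' + F.card = N.r (T' ∪ F) = B.card`, so `N1.r T' = L`; `N1.r (ed e V1 ∪ T') ≤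
N.r (ed e V ∪ T0) - F.card = L`, and `≥ L`.
`spread` gives `Q1 ⊆ ed e V1`.  `Q = F ∪ Q1`: `N.r Q = F.card + N1.r Q1 = V.card - 1 - K`.
The sets `T c` are chosen one after another: if `D` is the union of the previous ones
(`D.card ≤ C * K`, `D ⊆ T'`) then `N1.r ((T' \ D) ∪ Q1) = L`, so
`(N1.con Q1).r (T' \ D) = K`, `RF.exists_ind` gives `T c ⊆ T' \ D` with `K` elements and
`(N1.con Q1).r (T c) = K`, so `N1.r (T c ∪ Q1) = L` and `N.r (T c ∪ Q) = L + F.card`. -/
theorem fat.{u} (K C : ℕ) : ∃ L0 : ℕ, ∀ {α : Type u} [DecidableEq α] (N : RF α)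
    (e : ℕ → ℕ → α) (V : Finset ℕ) (T0 : Finset α), IsK N e V →
    N.r (ed e V ∪ T0) = N.r (ed e V) → L0 ≤ N.r T0 →
    ∃ Q ⊆ ed e V, N.r Q + K = N.r (ed e V) ∧ ∃ T : ℕ → Finset α,
      (∀ c < C, T c ⊆ T0 ∧ (T c).card = K ∧ N.r (T c ∪ Q) = N.r (ed e V)) ∧
      ∀ c < C, ∀ c' < C, c ≠ c' → Disjoint (T c) (T c') := by
  obtain ⟨L0, hspread⟩ := spread.{u} K (C * K)
  refine ⟨L0 + 1, ?_⟩
  intro α _ N e V T0 hK hT0 hL
  have hVne : V.Nonempty := by
    rcases V.eq_empty_or_nonempty with h0 | h0
    · exfalso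
      subst h0
      have h1 : ed e ∅ = (∅ : Finset α) := by
        unfold ed
        simp
      rw [h1, Finset.empty_union, N.r_empty] at hT0
      omega
    · exact h0
  obtain ⟨v0, hv0⟩ := hVne
  have hS0 := hK.star_ind hv0
  have hS0c := star_card hK.isE hv0
  have hS0r := hK.tri.rank_star hK.isE hv0
  obtain ⟨T', hT'0, hT'i, hT'c⟩ := N.exists_basis T0
  obtain ⟨B, hTB, hBX, hBi, hBc⟩ := N.exists_ext (I := T') (X := T' ∪ star e v0 V)
    Finset.subset_union_left hT'i
  have hBr : B.card = N.r (ed e V) := by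
    rw [hBc]
    apply le_antisymm
    · rw [← hT0]
      apply N.mono
      intro x hx
      rcases Finset.mem_union.1 hx with h | h
      · exact Finset.mem_union_right _ (hT'0 h)
      · exact Finset.mem_union_left _ (star_subset hv0 h)
    · rw [hS0r]
      exact N.mono Finset.subset_union_right
  have hFS : B \ T' ⊆ star e v0 V := by
    intro x hx
    have h1 := Finset.mem_sdiff.1 hx
    rcases Finset.mem_union.1 (hBX h1.1) with h | h
    · exact absurd h h1.2
    · exact h
  have hFc : (B \ T').card + T'.card = B.card := Finset.card_sdiff_add_card_eq_card hTB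
  obtain ⟨F, hF⟩ : ∃ F, F = B \ T' := ⟨_, rfl⟩
  rw [← hF] at hFS hFc
  have hFi : N.r F = F.card := N.ind_subset hFS hS0
  -- the vertices which are removed
  obtain ⟨U, hU⟩ : ∃ U, U = V.filter (fun v => v ≠ v0 ∧ e v0 v ∈ F) := ⟨_, rfl⟩
  have hUV : U ⊆ V := by
    rw [hU]
    exact Finset.filter_subset _ _
  have hUF : F = U.image (e v0) := by
    ext x
    rw [Finset.mem_image]
    constructor
    · intro hx
      obtain ⟨j, hj, hjv, rfl⟩ := mem_star.1 (hFS hx)
      refine ⟨j, ?_, rfl⟩
      rw [hU]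
      exact Finset.mem_filter.2 ⟨hj, hjv, hx⟩
    · rintro ⟨j, hj, rfl⟩
      rw [hU] at hj
      exact (Finset.mem_filter.1 hj).2.2
  have hUc : U.card = F.card := by
    rw [hUF, Finset.card_image_of_injOn]
    intro i hi j hj hij
    rw [Finset.mem_coe, hU, Finset.mem_filter] at hi hj
    rcases hK.isE.inj v0 hv0 i hi.1 v0 hv0 j hj.1 (Ne.symm hi.2.1) (Ne.symm hj.2.1) hij with h1 | h1
    · exact h1.2
    · exact absurd h1.1.symm hj.2.1
  obtain ⟨V1, hV1⟩ : ∃ V1, V1 = V \ U := ⟨_, rfl⟩
  have hV1V : V1 ⊆ V := by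
    rw [hV1]
    exact Finset.sdiff_subset
  have hV1c : V1.card + U.card = V.card := by
    rw [hV1]
    exact Finset.card_sdiff_add_card_eq_card hUV
  have hv01 : v0 ∈ V1 := by
    rw [hV1, Finset.mem_sdiff, hU, Finset.mem_filter]
    exact ⟨hv0, fun h => h.2.1 rfl⟩
  have hSsub : star e v0 V ⊆ ed e V1 ∪ F := by
    intro x hx
    obtain ⟨j, hj, hjv, rfl⟩ := mem_star.1 hx
    by_cases hxF : e v0 j ∈ F
    · exact Finset.mem_union_right _ hxF
    · apply Finset.mem_union_left
      apply ed_mem hv01 _ (Ne.symm hjv)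
      rw [hV1, Finset.mem_sdiff, hU, Finset.mem_filter]
      exact ⟨hj, fun h => hxF h.2.2⟩
  have hFV : F ⊆ ed e V := hFS.trans (star_subset hv0)
  -- the contraction
  have hK1 : IsK (N.con F) e V1 := by
    refine ⟨hK.isE.mono hV1V, (hK.tri.mono hV1V).con F, ?_⟩
    have h1 := N.con_add F (ed e V1)
    have h2 := N.mono hSsub
    omega
  have hr1 : (N.con F).r T' = T'.card := by
    have h1 := N.con_add F T'
    have h2 : T' ∪ F = B := by
      rw [hF]
      exact Finset.union_sdiff_of_subset hTB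
    rw [h2] at h1
    omega
  have hr2 : (N.con F).r (ed e V1 ∪ T') = T'.card := by
    have h1 := N.con_add F (ed e V1 ∪ T')
    have h2 : N.r (ed e V1 ∪ T' ∪ F) ≤ N.r (ed e V ∪ T0) := by
      apply N.mono
      intro x hx
      rcases Finset.mem_union.1 hx with h | h
      · rcases Finset.mem_union.1 h with h | h
        · exact Finset.mem_union_left _ (ed_mono hV1V h)
        · exact Finset.mem_union_right _ (hT'0 h)
      · exact Finset.mem_union_left _ (hFV h)
    have h3 : (N.con F).r T' ≤ (N.con F).r (ed e V1 ∪ T') :=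
      (N.con F).mono Finset.subset_union_right
    omega
  obtain ⟨Q1, hQ1, hQ1r, hQ1s⟩ := hspread (N.con F) e V1 T' T'.card (by omega) hK1 (by omega) rfl
    hr1 hr2
  have hQr : ∀ I : Finset α, (N.con F).r (I ∪ Q1) + N.r F = N.r (I ∪ (F ∪ Q1)) := by
    intro I
    have h1 := N.con_add F (I ∪ Q1)
    have h2 : I ∪ Q1 ∪ F = I ∪ (F ∪ Q1) := by
      ext a; simp only [Finset.mem_union]; tauto
    rw [h2] at h1
    exact h1
  refine ⟨F ∪ Q1, Finset.union_subset hFV (hQ1.trans (ed_mono hV1V)), ?_, ?_⟩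
  · have h1 := hQr ∅
    rw [Finset.empty_union, Finset.empty_union] at h1
    omega
  · have hind : ∀ n ≤ C, ∃ T : ℕ → Finset α,
        (∀ c < n, T c ⊆ T' ∧ (T c).card = K ∧ N.r (T c ∪ (F ∪ Q1)) = N.r (ed e V)) ∧
        ∀ c < n, ∀ c' < n, c ≠ c' → Disjoint (T c) (T c') := by
      intro n
      induction n with
      | zero =>
        intro _
        exact ⟨fun _ => ∅, fun c hc => absurd hc (by omega), fun c hc => absurd hc (by omega)⟩
      | succ n ih =>
        intro hn
        obtain ⟨T, hT1, hT2⟩ := ih (by omega)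
        obtain ⟨D, hD⟩ : ∃ D, D = (Finset.range n).biUnion T := ⟨_, rfl⟩
        have hDT : D ⊆ T' := by
          rw [hD]
          intro x hx
          obtain ⟨c, hc, hxc⟩ := Finset.mem_biUnion.1 hx
          exact (hT1 c (Finset.mem_range.1 hc)).1 hxc
        have hDc : D.card ≤ C * K := by
          have h1 : D.card ≤ n * K := by
            rw [hD]
            refine le_trans (Finset.card_biUnion_le_card_mul _ _ K ?_) ?_
            · intro c hc
              exact le_of_eq (hT1 c (Finset.mem_range.1 hc)).2.1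
            · rw [Finset.card_range]
          exact h1.trans (Nat.mul_le_mul_right K (by omega))
        have h1 := hQ1s D hDT hDc
        have h2 := (N.con F).con_add Q1 (T' \ D)
        obtain ⟨I, hI, hIi, hIc⟩ := ((N.con F).con Q1).exists_ind (X := T' \ D) (n := K) (by omega)
        have h3 := (N.con F).con_add Q1 I
        have h4 := hQr I
        have hIT : I ⊆ T' := hI.trans Finset.sdiff_subset
        have hId : ∀ c < n, Disjoint (T c) I := by
          intro c hc
          rw [Finset.disjoint_left]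
          intro x hx hxI
          have h5 := (Finset.mem_sdiff.1 (hI hxI)).2
          apply h5
          rw [hD]
          exact Finset.mem_biUnion.2 ⟨c, Finset.mem_range.2 hc, hx⟩
        refine ⟨fun c => if c = n then I else T c, ?_, ?_⟩
        · intro c hc
          by_cases hcn : c = n
          · simp only [if_pos hcn]
            exact ⟨hIT, hIc, by omega⟩
          · simp only [if_neg hcn]
            exact hT1 c (by omega)
        · intro c hc c' hc' hcc
          by_cases hcn : c = n
          · have hcn' : c' ≠ n := fun h => hcc (hcn.trans h.symm)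
            simp only [if_pos hcn, if_neg hcn']
            exact (hId c' (by omega)).symm
          · by_cases hcn' : c' = n
            · simp only [if_neg hcn, if_pos hcn']
              exact hId c (by omega)
            · simp only [if_neg hcn, if_neg hcn']
              exact hT2 c (by omega) c' (by omega) hcc
    obtain ⟨T, hT1, hT2⟩ := hind C le_rfl
    exact ⟨T, fun c hc => ⟨(hT1 c hc).1.trans hT'0, (hT1 c hc).2⟩, hT2⟩

end Pool.Agent.H.MP_60a1a2_co
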