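import Pool.Agent.H.MP_60a1a2_co.Main2
import Pool.Agent.H.MP_60a1a2_co.BrK
import Pool.Agent.H.MP_60a1a2_co.BrMinor

/-! # The theorem for finite matroids -/

set_option autoImplicit false

namespace Pool.Agent.H.MP_60a1a2_co

open Matroid

/-- the configuration given by two interconnected minors -/
theorem conf_of {α : Type*} [DecidableEq α] {M : Matroid α} {E : Finset α}
    (hE : (E : Set α) = M.E) {C1 D1 C2 D2 : Finset α} (hC1 : C1 ⊆ E)
    (hC2 : C2 ⊆ E) {a b n : ℕ} (ha : 2 ≤ a) (hb : 2 ≤ b) (hnb : n ≤ b)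
    (h1 : IsMK (M ／ (C1 : Set α) ＼ (D1 : Set α)) a)
    (h2 : IsMK (M ／ (C2 : Set α) ＼ (D2 : Set α))✶ b)
    (hint : Interconnected M (M ／ (C1 : Set α) ＼ (D1 : Set α)) (M ／ (C2 : Set α) ＼ (D2 : Set α)) n)
    {c : ℕ} (hr : M.eRk (M ／ (C1 : Set α) ＼ (D1 : Set α)).E ≤
      (M ／ (C1 : Set α) ＼ (D1 : Set α)).eRank + c) :
    ∃ (e1 : ℕ → ℕ → α) (e2 : ℕ → ℕ → α),
      Conf (rf M) E C1 C2 e1 (Finset.range a) e2 (Finset.range b) n ∧
      (rf M).r (ed e1 (Finset.range a)) ≤ (Finset.range a).card + c := by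
  set N1 := M ／ (C1 : Set α) ＼ (D1 : Set α) with hN1
  set N2 := M ／ (C2 : Set α) ＼ (D2 : Set α) with hN2
  obtain ⟨e1, hK1, hed1⟩ := isK_of_isMK ha h1
  obtain ⟨e2, hK2, hed2⟩ := isK_of_isMK hb h2
  have hed2' : ((ed e2 (Finset.range b) : Finset α) : Set α) = N2.E := by
    rw [hed2, Matroid.dual_ground]
  have hN1E : N1.E = (M.E \ (C1 : Set α)) \ (D1 : Set α) := rfl
  have hN2E : N2.E = (M.E \ (C2 : Set α)) \ (D2 : Set α) := rfl
  have hs1 : ed e1 (Finset.range a) ⊆ E \ C1 := by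
    intro x hx
    have hx' : x ∈ ((ed e1 (Finset.range a) : Finset α) : Set α) := hx
    rw [hed1, hN1E, ← hE] at hx'
    rw [Finset.mem_sdiff]
    exact ⟨hx'.1.1, fun h => hx'.1.2 h⟩
  have hs2 : ed e2 (Finset.range b) ⊆ E \ C2 := by
    intro x hx
    have hx' : x ∈ ((ed e2 (Finset.range b) : Finset α) : Set α) := hx
    rw [hed2', hN2E, ← hE] at hx'
    rw [Finset.mem_sdiff]
    exact ⟨hx'.1.1, fun h => hx'.1.2 h⟩
  have hd1 : ∀ X ⊆ ed e1 (Finset.range a), Disjoint (X : Set α) (D1 : Set α) := by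
    intro X hX
    rw [Set.disjoint_left]
    intro x hx
    have hx' : x ∈ ((ed e1 (Finset.range a) : Finset α) : Set α) := hX hx
    rw [hed1, hN1E] at hx'
    exact hx'.2
  have hd2 : ∀ X ⊆ ed e2 (Finset.range b), Disjoint (X : Set α) (D2 : Set α) := by
    intro X hX
    rw [Set.disjoint_left]
    intro x hx
    have hx' : x ∈ ((ed e2 (Finset.range b) : Finset α) : Set α) := hX hx
    rw [hed2', hN2E] at hx'
    exact hx'.2
  have hr1 : ∀ X ⊆ ed e1 (Finset.range a), ((rf M).con C1).r X = (rf N1).r X := by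
    intro X hX
    rw [hN1, rf_delete _ _ _ (hd1 X hX), rf_contract M E C1 X hE hC1 (hX.trans hs1)]
  have hr2 : ∀ X ⊆ ed e2 (Finset.range b), ((rf M).con C2).r X = (rf N2).r X := by
    intro X hX
    rw [hN2, rf_delete _ _ _ (hd2 X hX), rf_contract M E C2 X hE hC2 (hX.trans hs2)]
  refine ⟨e1, e2, ⟨hC1, hs1, hK1.congr hr1, hC2, hs2, hK2.congr ?_, ?_, ?_, ?_⟩, ?_⟩
  · intro X hX
    rw [rf_dual N2 (ed e2 (Finset.range b)) X hed2' hX]
    have b1 := ((rf M).con C2).dual_add hX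
    have b2 := (rf N2).dual_add hX
    rw [hr2 _ (Finset.Subset.refl _), hr2 _ Finset.sdiff_subset] at b1
    omega
  · have := hint.1
    rw [← hed1, ← hed2'] at this
    exact_mod_cast this
  · intro X hX hXE hXd
    have hX1 : N1.E ⊆ (X : Set α) := by
      rw [← hed1]
      exact_mod_cast hX
    have hX2 : (X : Set α) ⊆ M.E \ N2.E := by
      intro x hx
      refine ⟨?_, ?_⟩
      · rw [← hE]
        exact hXE hx
      · rw [← hed2']
        intro h
        exact Finset.disjoint_left.1 hXd hx h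
    have h := hint.2 (X : Set α) hX1 hX2
    rw [Matroid.eRank_def, ← hE, ← Finset.coe_sdiff, ← rf_coe, ← rf_coe, ← rf_coe] at h
    exact_mod_cast h
  · rw [Finset.card_range]
    exact hnb
  · have h3 : (((rf M).r (ed e1 (Finset.range a)) : ℕ) : ℕ∞) ≤
        (((rf N1).r (ed e1 (Finset.range a)) : ℕ) : ℕ∞) + c := by
      rw [rf_coe, rf_coe, hed1, ← Matroid.eRank_def]
      exact hr
    have h4 : (rf M).r (ed e1 (Finset.range a)) ≤ (rf N1).r (ed e1 (Finset.range a)) + c := by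
      exact_mod_cast h3
    have h5 := hK1.rank (by rw [Finset.nonempty_range_iff]; omega)
    omega

open Classical in
/-- from the rank function to the matroid -/
theorem concl {α : Type*} {M : Matroid α} {E : Finset α} (hE : (E : Set α) = M.E)
    {k : ℕ} (h : HasM (rf M) E (unif k) ∨ HasPG (rf M) E k) :
    HasUMinor M k ∨ ∃ (p : ℕ) (_ : Fact p.Prime), HasPGMinor M k p := by
  rcases h with h | ⟨p, hp, h⟩
  · exact Or.inl (hasUMinor hE h)
  · exact Or.inr ⟨p, hp, hasPGMinor hE h⟩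

/-- connectivity of the dual -/
theorem Interconnected.dual {α : Type*} {M N1 N2 : Matroid α} (hM : M.E.Finite)
    (h1 : N1.E ⊆ M.E) {n : ℕ} (h : Interconnected M N1 N2 n) :
    Interconnected M✶ N2✶ N1✶ n := by
  classical
  refine ⟨h.1.symm, ?_⟩
  intro X hX hX2
  set E := hM.toFinset with hEdef
  have hE : (E : Set α) = M.E := hM.coe_toFinset
  have hXE : X ⊆ M.E := hX2.trans Set.sdiff_subset
  have hXfin : X.Finite := hM.subset hXE
  obtain ⟨Y, hY⟩ : ∃ Y : Finset α, (Y : Set α) = X := ⟨hXfin.toFinset, hXfin.coe_toFinset⟩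
  subst hY
  have hYE : Y ⊆ E := by
    intro x hx
    have : x ∈ (E : Set α) := by
      rw [hE]
      exact hXE hx
    exact this
  have h2 := h.2 (M.E \ (Y : Set α)) (by
    intro x hx
    exact ⟨h1 hx, fun hxY => (hX2 hxY).2 hx⟩) (by
    intro x hx
    exact ⟨hx.1, fun hx2 => hx.2 (hX hx2)⟩)
  have hdd : M.E \ (M.E \ (Y : Set α)) = (Y : Set α) := by
    rw [← hE]
    ext x
    simp only [Set.mem_sdiff, Finset.mem_coe]
    constructor
    · rintro ⟨a, b⟩
      by_contra hc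
      exact b ⟨a, hc⟩
    · intro a
      exact ⟨hYE a, fun b => b.2 a⟩
  rw [hdd, Matroid.eRank_def, ← hE, ← Finset.coe_sdiff, ← rf_coe, ← rf_coe, ← rf_coe] at h2
  have h3 : n + (rf M).r E ≤ (rf M).r (E \ Y) + (rf M).r Y := by exact_mod_cast h2
  rw [Matroid.eRank_def]
  simp only [Matroid.dual_ground]
  rw [← hE, ← Finset.coe_sdiff, ← rf_coe, ← rf_coe, ← rf_coe,
    rf_dual M E E hE (Finset.Subset.refl E), rf_dual M E Y hE hYE,
    rf_dual M E (E \ Y) hE Finset.sdiff_subset]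
  have b1 := (rf M).dual_add (Finset.Subset.refl E)
  have b2 := (rf M).dual_add hYE
  have b3 := (rf M).dual_add (E := E) (X := E \ Y) Finset.sdiff_subset
  have hdd' : E \ (E \ Y) = Y := by
    ext x
    simp only [Finset.mem_sdiff]
    have := @hYE x
    tauto
  rw [Finset.sdiff_self, (rf M).r_empty] at b1
  rw [hdd'] at b3
  have hc := Finset.card_sdiff_add_card_eq_card hYE
  have h4 : n + ((rf M).dual E).r E ≤ ((rf M).dual E).r Y + ((rf M).dual E).r (E \ Y) := by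
    omega
  exact_mod_cast h4

/-- The theorem for finite matroids. -/
theorem final_main.{u} (k c : ℕ) : ∃ n : ℕ, ∀ a b : ℕ, n ≤ a → n ≤ b →
    ∀ {α : Type u} (M N₁ N₂ : Matroid α) [M.Finite], N₁ ≤m M → N₂ ≤m M →
    IsMK N₁ a → IsMK N₂✶ b → Interconnected M N₁ N₂ n →
    (M.eRk N₁.E ≤ N₁.eRank + c ∨ M✶.eRk N₂.E ≤ N₂✶.eRank + c) →
    HasUMinor M k ∨ ∃ (p : ℕ) (_ : Fact p.Prime), HasPGMinor M k p := by
  classical
  obtain ⟨n0, hn0⟩ := main2.{u} k c
  refine ⟨n0 + 2, ?_⟩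
  intro a b ha hb α M N₁ N₂ _ hN1 hN2 hK1 hK2 hint hr
  have hfin : M.E.Finite := M.ground_finite
  have hE : (hfin.toFinset : Set α) = M.E := hfin.coe_toFinset
  set E := hfin.toFinset with hEdef
  have hint0 : ∀ {M' N N' : Matroid α}, Interconnected M' N N' (n0 + 2) →
      Interconnected M' N N' n0 := by
    intro M' N N' h
    refine ⟨h.1, fun X hX hX' => le_trans ?_ (h.2 X hX hX')⟩
    gcongr
    omega
  obtain ⟨C1, D1, hC1, hD1, hCD1, rfl⟩ := hN1.exists_eq_contract_delete_disjoint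
  obtain ⟨C2, D2, hC2, hD2, hCD2, rfl⟩ := hN2.exists_eq_contract_delete_disjoint
  have hf : ∀ S : Set α, S ⊆ M.E → ∃ T : Finset α, (T : Set α) = S ∧ T ⊆ E := by
    intro S hS
    refine ⟨(hfin.subset hS).toFinset, Set.Finite.coe_toFinset _, ?_⟩
    intro x hx
    rw [Set.Finite.mem_toFinset] at hx
    have : x ∈ (E : Set α) := by
      rw [hE]
      exact hS hx
    exact this
  obtain ⟨C1, rfl, hC1'⟩ := hf C1 hC1
  obtain ⟨D1, rfl, hD1'⟩ := hf D1 hD1
  obtain ⟨C2, rfl, hC2'⟩ := hf C2 hC2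
  obtain ⟨D2, rfl, hD2'⟩ := hf D2 hD2
  rcases hr with hr | hr
  · obtain ⟨e1, e2, hconf, hrk⟩ := conf_of hE (D1 := D1) (D2 := D2) hC1' hC2' (n := n0) (a := a)
      (b := b) (by omega) (by omega) (by omega) hK1 hK2 (hint0 hint) hr
    exact concl hE (hn0 (rf M) E C1 C2 e1 _ e2 _ hconf (by rw [Finset.card_range]; omega) hrk).1
  · have hd := (hint0 hint).dual hfin (by
      intro x hx
      exact hx.1.1)
    have hE' : (E : Set α) = M✶.E := hE
    have e1' : (M ／ (C1 : Set α) ＼ (D1 : Set α))✶ = M✶ ／ (D1 : Set α) ＼ (C1 : Set α) := by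
      rw [Matroid.dual_contract_delete, ← Matroid.contract_delete_comm _ hCD1.symm]
    have e2' : (M ／ (C2 : Set α) ＼ (D2 : Set α))✶ = M✶ ／ (D2 : Set α) ＼ (C2 : Set α) := by
      rw [Matroid.dual_contract_delete, ← Matroid.contract_delete_comm _ hCD2.symm]
    have hr' : M✶.eRk (M ／ (C2 : Set α) ＼ (D2 : Set α))✶.E ≤
        (M ／ (C2 : Set α) ＼ (D2 : Set α))✶.eRank + c := hr
    have hK1' : IsMK (M ／ (C1 : Set α) ＼ (D1 : Set α))✶✶ a := by
      rw [Matroid.dual_dual]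
      exact hK1
    rw [e2'] at hK2 hr'
    rw [e1'] at hK1'
    rw [e1', e2'] at hd
    obtain ⟨e1, e2, hconf, hrk⟩ := conf_of hE' (D1 := C2) (D2 := C1) hD2' hD1' (n := n0) (a := b)
      (b := a) (by omega) (by omega) (by omega) hK2 hK1' hd hr'
    exact concl hE ((hn0 (rf M✶) E D2 D1 e1 _ e2 _ hconf
      (by rw [Finset.card_range]; omega) hrk).2 (rf M) (fun X hX => rf_dual M E X hE hX))

end Pool.Agent.H.MP_60a1a2_co
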