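import Pool.Agent.H.MP_60a1a2_co.RFBasic
import Pool.Agent.H.MP_60a1a2_co.ASLib

/-! # The additive system of a matroid with triangles -/

set_option autoImplicit false

namespace Pool.Agent.H.MP_60a1a2_co

variable {α : Type*} [DecidableEq α]

/-- the edges with both ends in the same part of the partition given by a family -/
def Zed (e : ℕ → ℕ → α) (W : Finset ℕ) (F : Finset (Finset ℕ)) : Finset α :=
  (W.offDiag.filter (fun q => ∀ A ∈ F, (q.1 ∈ A ↔ q.2 ∈ A))).image (fun q => e q.1 q.2)

/-- the rank function of the system -/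
def gR (R : RF α) (e : ℕ → ℕ → α) (W : Finset ℕ) (F : Finset (Finset ℕ)) : ℕ :=
  F.card + R.r (Zed e W F) - R.r (ed e W)

theorem mem_Zed {e : ℕ → ℕ → α} {W : Finset ℕ} {F : Finset (Finset ℕ)} {x : α} :
    x ∈ Zed e W F ↔
      ∃ i ∈ W, ∃ j ∈ W, i ≠ j ∧ (∀ A ∈ F, (i ∈ A ↔ j ∈ A)) ∧ e i j = x := by
  unfold Zed
  simp only [Finset.mem_image, Finset.mem_filter, Finset.mem_offDiag, Prod.exists]
  constructor
  · rintro ⟨i, j, ⟨⟨h1, h2, h3⟩, h4⟩, h5⟩
    exact ⟨i, h1, j, h2, h3, h4, h5⟩
  · rintro ⟨i, h1, j, h2, h3, h4, h5⟩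
    exact ⟨i, j, ⟨⟨h1, h2, h3⟩, h4⟩, h5⟩

theorem Zed_empty (e : ℕ → ℕ → α) (W : Finset ℕ) : Zed e W ∅ = ed e W := by
  ext x
  rw [mem_Zed, mem_ed]
  simp

theorem Zed_anti (e : ℕ → ℕ → α) (W : Finset ℕ) {F G : Finset (Finset ℕ)} (h : F ⊆ G) :
    Zed e W G ⊆ Zed e W F := by
  intro x hx
  obtain ⟨i, hi, j, hj, hij, hA, rfl⟩ := mem_Zed.1 hx
  exact mem_Zed.2 ⟨i, hi, j, hj, hij, fun A hA' => hA A (h hA'), rfl⟩


/-- the closure relation on the vertices -/
def GRc (R : RF α) (e : ℕ → ℕ → α) (X : Finset α) (i j : ℕ) : Prop := i = j ∨ R.In X (e i j)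

theorem GRc_symm {R : RF α} {e : ℕ → ℕ → α} {W : Finset ℕ} (hE : IsE e W) {X : Finset α}
    {i j : ℕ} (hi : i ∈ W) (hj : j ∈ W) (h : GRc R e X i j) : GRc R e X j i := by
  rcases h with h | h
  · exact Or.inl h.symm
  · right
    rw [hE.symm j hj i hi]
    exact h

theorem GRc_trans {R : RF α} {e : ℕ → ℕ → α} {W : Finset ℕ} (hT : Tri R e W) {X : Finset α}
    {i j k : ℕ} (hi : i ∈ W) (hj : j ∈ W) (hk : k ∈ W) (h1 : GRc R e X i j)
    (h2 : GRc R e X j k) : GRc R e X i k := by
  rcases h1 with h1 | h1
  · subst h1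
    exact h2
  · rcases h2 with h2 | h2
    · subst h2
      exact Or.inr h1
    · by_cases h3 : i = j
      · subst h3
        exact Or.inr h2
      · by_cases h4 : j = k
        · subst h4
          exact Or.inr h1
        · by_cases h5 : i = k
          · exact Or.inl h5
          · exact Or.inr (hT.trans hi hj hk h3 h4 h5 h1 h2)

theorem GRc_mono {R : RF α} {e : ℕ → ℕ → α} {X Y : Finset α} (hXY : X ⊆ Y) {i j : ℕ}
    (h : GRc R e X i j) : GRc R e Y i j := by
  rcases h with h | h
  · exact Or.inl h
  · exact Or.inr (R.in_mono h hXY)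

theorem GRc_Zed (R : RF α) {e : ℕ → ℕ → α} {W : Finset ℕ} {F : Finset (Finset ℕ)} {i j : ℕ}
    (hi : i ∈ W) (hj : j ∈ W) (h : ∀ A ∈ F, (i ∈ A ↔ j ∈ A)) : GRc R e (Zed e W F) i j := by
  by_cases hij : i = j
  · exact Or.inl hij
  · exact Or.inr (R.in_of_mem (mem_Zed.2 ⟨i, hi, j, hj, hij, h, rfl⟩))

theorem GRc_le {R : RF α} {e : ℕ → ℕ → α} {W : Finset ℕ} {F : Finset (Finset ℕ)} {X : Finset α}
    (h : ∀ i ∈ W, ∀ j ∈ W, i ≠ j → (∀ A ∈ F, (i ∈ A ↔ j ∈ A)) → GRc R e X i j) :
    R.r (Zed e W F) ≤ R.r X := by
  have h1 : ∀ y ∈ Zed e W F, R.In X y := by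
    intro y hy
    obtain ⟨i, hi, j, hj, hij, hA, rfl⟩ := mem_Zed.1 hy
    rcases h i hi j hj hij hA with h2 | h2
    · exact absurd h2 hij
    · exact h2
  rw [← R.r_union_of_in h1]
  exact R.mono Finset.subset_union_right

/-- a symmetric version: only the pairs with `i ∈ A`, `j ∉ A` have to be checked -/
theorem GRc_wlog {R : RF α} {e : ℕ → ℕ → α} {W : Finset ℕ} (hE : IsE e W)
    {F : Finset (Finset ℕ)} {X : Finset α} (A : Finset ℕ)
    (h1 : ∀ i ∈ W, ∀ j ∈ W, (∀ B ∈ F, (i ∈ B ↔ j ∈ B)) → (i ∈ A ↔ j ∈ A) → GRc R e X i j)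
    (h2 : ∀ i ∈ W, ∀ j ∈ W, (∀ B ∈ F, (i ∈ B ↔ j ∈ B)) → i ∈ A → j ∉ A → GRc R e X i j) :
    R.r (Zed e W F) ≤ R.r X := by
  apply GRc_le
  intro i hi j hj _ hF
  by_cases hiA : i ∈ A
  · by_cases hjA : j ∈ A
    · exact h1 i hi j hj hF (by tauto)
    · exact h2 i hi j hj hF hiA hjA
  · by_cases hjA : j ∈ A
    · exact GRc_symm hE hj hi (h2 j hj i hi (fun B hB => (hF B hB).symm) hjA hiA)
    · exact h1 i hi j hj hF (by tauto)

/-- Adding one set to the family: the rank drops by at most one.

Proof.  `A ⊆ W` is nonempty, `w0 ∉ A`, `A` is disjoint from the members of `F` (or a member, trivial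
case).  Let `a ∈ A`.  Every element of `Zed e W F` is in the closure of
`insert (e w0 a) (Zed e W (insert A F))`: let `i ≠ j` be in the same part of `F`.  If `i, j` are both in
`A` or both outside, `e i j ∈ Zed e W (insert A F)`.  Otherwise say `i ∈ A`, `j ∉ A`; since `A` is
disjoint from the members of `F`, `i` is in no member of `F`, so `j` is in no member; then `i = a` or
`e i a ∈ Zed e W (insert A F)`, `j = w0` or `e w0 j ∈ Zed e W (insert A F)` (both are in no
member of `insert A F`); use `Tri.trans` (with the symmetry of `e`). -/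
theorem Zed_insert_le {R : RF α} {e : ℕ → ℕ → α} {W : Finset ℕ} {w0 : ℕ} (hE : IsE e W)
    (hT : Tri R e W) (hw0 : w0 ∈ W) {A : Finset ℕ} {F : Finset (Finset ℕ)}
    (h : DF (fun x => x ∈ W ∧ x ≠ w0) (insert A F)) :
    R.r (Zed e W F) ≤ R.r (Zed e W (insert A F)) + 1 := by
  by_cases hAF : A ∈ F
  · rw [Finset.insert_eq_self.2 hAF]
    omega
  obtain ⟨hF, ⟨a, ha⟩, hAW, hAd⟩ := DF.insert_iff.1 h
  have hdis : ∀ i ∈ A, ∀ B ∈ F, i ∉ B := fun i hi B hB hiB =>
    Finset.disjoint_left.1 (hAd B hB (fun h1 => hAF (h1 ▸ hB))) hi hiB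
  have hw0F : ∀ B ∈ F, w0 ∉ B := fun B hB hw => ((hF.1 B hB).2 w0 hw).2 rfl
  have hw0A : w0 ∉ A := fun hw => (hAW w0 hw).2 rfl
  have haW := (hAW a ha).1
  have hX : Zed e W (insert A F) ⊆ insert (e w0 a) (Zed e W (insert A F)) :=
    Finset.subset_insert _ _
  have key : R.r (Zed e W F) ≤ R.r (insert (e w0 a) (Zed e W (insert A F))) := by
    apply GRc_wlog hE A
    · intro i hi j hj h1 h2
      apply GRc_mono hX
      apply GRc_Zed R hi hj
      intro B hB
      rcases Finset.mem_insert.1 hB with rfl | hB
      · exact h2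
      · exact h1 B hB
    · intro i hi j hj h1 hiA hjA
      have s1 : GRc R e (insert (e w0 a) (Zed e W (insert A F))) i a := by
        apply GRc_mono hX
        apply GRc_Zed R hi haW
        intro B hB
        rcases Finset.mem_insert.1 hB with rfl | hB
        · tauto
        · have := hdis i hiA B hB
          have := hdis a ha B hB
          tauto
      have s2 : GRc R e (insert (e w0 a) (Zed e W (insert A F))) a w0 := by
        apply GRc_symm hE hw0 haW
        right
        exact R.in_of_mem (Finset.mem_insert_self _ _)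
      have s3 : GRc R e (insert (e w0 a) (Zed e W (insert A F))) w0 j := by
        apply GRc_mono hX
        apply GRc_Zed R hw0 hj
        intro B hB
        rcases Finset.mem_insert.1 hB with rfl | hB
        · tauto
        · have := hdis i hiA B hB
          have := h1 B hB
          have := hw0F B hB
          tauto
      exact GRc_trans hT hi hw0 hj (GRc_trans hT hi haW hw0 s1 s2) s3
  exact key.trans (R.r_insert_le _ _)

/-- no truncation in the definition of `gR` (induction on `F`, `Zed_insert_le`, `Zed_empty`) -/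
theorem gR_add {R : RF α} {e : ℕ → ℕ → α} {W : Finset ℕ} {w0 : ℕ} (hE : IsE e W)
    (hT : Tri R e W) (hw0 : w0 ∈ W) {F : Finset (Finset ℕ)}
    (h : DF (fun x => x ∈ W ∧ x ≠ w0) F) :
    gR R e W F + R.r (ed e W) = F.card + R.r (Zed e W F) := by
  have key : R.r (ed e W) ≤ F.card + R.r (Zed e W F) := by
    induction F using Finset.induction_on with
    | empty => rw [Zed_empty]; simp
    | insert A F hA ih =>
      have h1 := ih (DF.insert_iff.1 h).1
      have h2 := Zed_insert_le hE hT hw0 h
      rw [Finset.card_insert_of_notMem hA]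
      omega
  unfold gR
  omega

/-- Upper bound for the rank of the edges inside the parts.

Proof.  Choose `a_A ∈ A` for every `A ∈ F`.  The edges `e a_A x` (`A ∈ F`, `x ∈ A`, `x ≠ a_A`) and
`e w0 x` (`x ∈ W` in no member, `x ≠ w0`) span `Zed e W F` (`Tri.trans`), and their number is at
most `W.card - F.card - 1`: they are indexed by the vertices of `W` different from `w0` and the
`a_A`. -/
theorem Zed_rank_le {R : RF α} {e : ℕ → ℕ → α} {W : Finset ℕ} {w0 : ℕ} (hE : IsE e W)
    (hT : Tri R e W) (hw0 : w0 ∈ W) {F : Finset (Finset ℕ)}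
    (h : DF (fun x => x ∈ W ∧ x ≠ w0) F) : R.r (Zed e W F) + F.card + 1 ≤ W.card := by
  classical
  have hne : ∀ A : Finset ℕ, ∃ a, A ∈ F → a ∈ A := by
    intro A
    by_cases hA : A ∈ F
    · obtain ⟨a, ha⟩ := (h.1 A hA).1
      exact ⟨a, fun _ => ha⟩
    · exact ⟨0, fun h => absurd h hA⟩
  choose a ha using hne
  have huniq : ∀ A ∈ F, ∀ B ∈ F, ∀ x, x ∈ A → x ∈ B → A = B := by
    intro A hA B hB x hxA hxB
    by_contra hne
    exact Finset.disjoint_left.1 (h.2 A hA B hB hne) hxA hxB
  have hrep : ∃ rep : ℕ → ℕ, (∀ A ∈ F, ∀ i ∈ A, rep i = a A) ∧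
      (∀ i, (∀ A ∈ F, i ∉ A) → rep i = w0) := by
    refine ⟨fun i => if hi : ∃ A, A ∈ F ∧ i ∈ A then a (Classical.choose hi) else w0, ?_, ?_⟩
    · intro A hA i hi
      have hex : ∃ A, A ∈ F ∧ i ∈ A := ⟨A, hA, hi⟩
      have hc := Classical.choose_spec hex
      simp only [dif_pos hex]
      rw [huniq _ hc.1 A hA i hc.2 hi]
    · intro i hi
      have hex : ¬ ∃ A, A ∈ F ∧ i ∈ A := by
        rintro ⟨A, hA, hiA⟩
        exact hi A hA hiA
      simp only [dif_neg hex]
  obtain ⟨rep, hrep1, hrep2⟩ := hrep
  have hT1 : w0 ∉ F.image a := by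
    intro hw
    obtain ⟨A, hA, hAa⟩ := Finset.mem_image.1 hw
    exact ((h.1 A hA).2 w0 (hAa ▸ ha A hA)).2 rfl
  have hcardT : (insert w0 (F.image a)).card = F.card + 1 := by
    rw [Finset.card_insert_of_notMem hT1, Finset.card_image_of_injOn]
    intro A hA B hB hAB
    have hA' : A ∈ F := hA
    have hB' : B ∈ F := hB
    have hAB' : a A = a B := hAB
    exact huniq A hA' B hB' (a A) (ha A hA') (hAB' ▸ ha B hB')
  have hTW : insert w0 (F.image a) ⊆ W := by
    intro x hx
    rcases Finset.mem_insert.1 hx with rfl | hx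
    · exact hw0
    · obtain ⟨A, hA, rfl⟩ := Finset.mem_image.1 hx
      exact ((h.1 A hA).2 _ (ha A hA)).1
  have hrepW : ∀ i ∈ W, rep i ∈ W := by
    intro i hi
    by_cases hex : ∃ A, A ∈ F ∧ i ∈ A
    · obtain ⟨A, hA, hiA⟩ := hex
      rw [hrep1 A hA i hiA]
      exact ((h.1 A hA).2 _ (ha A hA)).1
    · rw [hrep2 i (fun A hA hiA => hex ⟨A, hA, hiA⟩)]
      exact hw0
  have hle : R.r (Zed e W F) ≤
      R.r ((W \ insert w0 (F.image a)).image (fun i => e (rep i) i)) := by
    have s1 : ∀ i ∈ W,
        GRc R e ((W \ insert w0 (F.image a)).image (fun i => e (rep i) i)) (rep i) i := by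
      intro i hi
      by_cases hiT : i ∈ insert w0 (F.image a)
      · left
        rcases Finset.mem_insert.1 hiT with rfl | hiT
        · exact hrep2 i (fun A hA hiA => ((h.1 A hA).2 i hiA).2 rfl)
        · obtain ⟨A, hA, rfl⟩ := Finset.mem_image.1 hiT
          exact hrep1 A hA _ (ha A hA)
      · right
        apply R.in_of_mem
        exact Finset.mem_image.2 ⟨i, Finset.mem_sdiff.2 ⟨hi, hiT⟩, rfl⟩
    apply GRc_le
    intro i hi j hj _ hF
    have hij : rep i = rep j := by
      by_cases hex : ∃ A, A ∈ F ∧ i ∈ A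
      · obtain ⟨A, hA, hiA⟩ := hex
        rw [hrep1 A hA i hiA, hrep1 A hA j ((hF A hA).1 hiA)]
      · rw [hrep2 i (fun A hA hiA => hex ⟨A, hA, hiA⟩),
          hrep2 j (fun A hA hjA => hex ⟨A, hA, (hF A hA).2 hjA⟩)]
    have s2 := GRc_symm hE (hrepW i hi) hi (s1 i hi)
    have s3 := s1 j hj
    rw [← hij] at s3
    exact GRc_trans hT hi (hrepW i hi) hj s2 s3
  have h1 := R.le_card ((W \ insert w0 (F.image a)).image (fun i => e (rep i) i))
  have h2 : ((W \ insert w0 (F.image a)).image (fun i => e (rep i) i)).card ≤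
      (W \ insert w0 (F.image a)).card := Finset.card_image_le
  have h3 := Finset.card_sdiff_add_card_eq_card hTW
  omega

theorem GR_union {P : ℕ → Prop} {A B : Finset ℕ} {F : Finset (Finset ℕ)}
    (h : DF P (insert A (insert B F))) (hA : A ∉ insert B F) (hB : B ∉ F) :
    DF P (insert (A ∪ B) F) := by
  obtain ⟨h1, h2, h3, h4⟩ := DF.insert_iff.1 h
  obtain ⟨k1, k2, k3, k4⟩ := DF.insert_iff.1 h1
  refine DF.insert_iff.2 ⟨k1, ?_, ?_, ?_⟩
  · obtain ⟨x, hx⟩ := h2
    exact ⟨x, Finset.mem_union_left _ hx⟩
  · intro x hx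
    rcases Finset.mem_union.1 hx with hx | hx
    · exact h3 x hx
    · exact k3 x hx
  · intro C hC _
    rw [Finset.disjoint_union_left]
    refine ⟨h4 C (Finset.mem_insert_of_mem hC) ?_, k4 C hC ?_⟩
    · intro h5
      exact hA (h5 ▸ Finset.mem_insert_of_mem hC)
    · intro h5
      exact hB (h5 ▸ hC)

theorem GR_union_notMem {P : ℕ → Prop} {A B : Finset ℕ} {F : Finset (Finset ℕ)}
    (h : DF P (insert A (insert B F))) (hA : A ∉ F) : A ∪ B ∉ F := by
  intro hm
  obtain ⟨h1, ⟨x, hx⟩, h3, h4⟩ := DF.insert_iff.1 h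
  have h5 : A ≠ A ∪ B := by
    intro h6
    rw [← h6] at hm
    exact hA hm
  exact Finset.disjoint_left.1 (h4 (A ∪ B) (Finset.mem_insert_of_mem hm) h5) hx
    (Finset.mem_union_left _ hx)

/-- The additive system.

Proof.  Use `gR_add` for all families which occur (`insert A F`, `insert B F`,
`insert (A ∪ B) F`, `insert A (insert B F)`, which are `DF` families, with the numbers of sets
`F.card + 1`, `F.card + 2`; note `A ∪ B ∉ F`).
`zero`: `Zed_empty`.  `bd`: `Zed_rank_le` and `hK`.  `mono`: `Zed_insert_le` (if `A ∈ F` trivial).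
`unit`: `Zed_anti`.
`sub`: `Zed (insert A (insert B F)) ⊆ Zed (insert A F) ∩ Zed (insert B F)`, equality
holds (an element of the intersection is `e i j = e i' j'`, by `IsE.inj` the same pair up to
order).  Every element of `Zed F` is in the closure of the union `U` of `Zed (insert A F)` and
`Zed (insert B F)`: for every `x ∈ W` in no member of `F`, `x ≠ w0`, `e w0 x ∈ U` (if `x ∉ A` it is in
the first set, if `x ∈ A` then `x ∉ B` and it is in the second); pairs inside a member of `F` are in
both; use `Tri.trans`.  Then submodularity of `R.r`.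
`spl`: the same with `Zed (insert A F)` and `Zed (insert (A ∪ B) F)`; the intersection is
`Zed (insert A (insert B F))` (`A`, `B` disjoint); for `x ∉ A` `e w0 x` is in the first set; for
`x ∈ A` take `b ∈ B`: `e w0 b` is in the first set, `e b x` in the second.
`mrg`: `R.r (Zed (insert (A ∪ B) F)) ≤ R.r (Zed (insert A (insert B F))) + 1`: add the edge
`e a b` with `a ∈ A`, `b ∈ B`. -/
theorem AS_gR {R : RF α} {e : ℕ → ℕ → α} {W : Finset ℕ} {w0 K : ℕ} (hE : IsE e W)
    (hT : Tri R e W) (hw0 : w0 ∈ W) (hK : W.card ≤ R.r (ed e W) + K + 1) :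
    AS (fun x => x ∈ W ∧ x ≠ w0) K (gR R e W) := by
  have hw0F : ∀ {F : Finset (Finset ℕ)}, DF (fun x => x ∈ W ∧ x ≠ w0) F → ∀ B ∈ F, w0 ∉ B :=
    fun hF B hB hw => ((hF.1 B hB).2 w0 hw).2 rfl
  have hadd : ∀ {F : Finset (Finset ℕ)}, DF (fun x => x ∈ W ∧ x ≠ w0) F →
      gR R e W F + R.r (ed e W) = F.card + R.r (Zed e W F) := fun hF => gR_add hE hT hw0 hF
  have hdisj : ∀ {A : Finset ℕ} {F : Finset (Finset ℕ)},
      DF (fun x => x ∈ W ∧ x ≠ w0) (insert A F) → A ∉ F → ∀ i ∈ A, ∀ B ∈ F, i ∉ B := by
    intro A F h hAF i hi B hB hiB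
    exact Finset.disjoint_left.1 (h.2 A (Finset.mem_insert_self A F) B
      (Finset.mem_insert_of_mem hB) (fun h1 => hAF (h1 ▸ hB))) hi hiB
  constructor
  · unfold gR
    rw [Zed_empty]
    simp
  · intro F hF
    have h1 := hadd hF
    have h2 := Zed_rank_le hE hT hw0 hF
    omega
  · intro A F h
    by_cases hAF : A ∈ F
    · rw [Finset.insert_eq_self.2 hAF]
    · have h1 := hadd h
      have h2 := hadd (h.subset (Finset.subset_insert A F))
      have h3 := Zed_insert_le hE hT hw0 h
      rw [Finset.card_insert_of_notMem hAF] at h1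
      omega
  · intro A F h
    by_cases hAF : A ∈ F
    · rw [Finset.insert_eq_self.2 hAF]
      omega
    · have h1 := hadd h
      have h2 := hadd (h.subset (Finset.subset_insert A F))
      have h3 := R.mono (Zed_anti e W (Finset.subset_insert A F))
      rw [Finset.card_insert_of_notMem hAF] at h1
      omega
  · intro A B F h hA hB hAB
    have hABF : A ∉ insert B F := by
      intro hm
      rcases Finset.mem_insert.1 hm with hm | hm
      · exact hAB hm
      · exact hA hm
    have d1 : DF (fun x => x ∈ W ∧ x ≠ w0) (insert B F) := h.subset (Finset.subset_insert _ _)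
    have d2 : DF (fun x => x ∈ W ∧ x ≠ w0) F := d1.subset (Finset.subset_insert _ _)
    have d3 : DF (fun x => x ∈ W ∧ x ≠ w0) (insert A F) :=
      h.subset (Finset.insert_subset_insert A (Finset.subset_insert B F))
    have c1 := hadd h
    have c2 := hadd d2
    have c3 := hadd d3
    have c4 := hadd d1
    rw [Finset.card_insert_of_notMem hABF, Finset.card_insert_of_notMem hB] at c1
    rw [Finset.card_insert_of_notMem hA] at c3
    rw [Finset.card_insert_of_notMem hB] at c4
    have m1 := R.submod (Zed e W (insert A F)) (Zed e W (insert B F))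
    have m2 : R.r (Zed e W (insert A (insert B F))) ≤
        R.r (Zed e W (insert A F) ∩ Zed e W (insert B F)) :=
      R.mono (Finset.subset_inter (Zed_anti e W (Finset.insert_subset_insert A
        (Finset.subset_insert B F))) (Zed_anti e W (Finset.subset_insert A _)))
    have m3 : R.r (Zed e W F) ≤ R.r (Zed e W (insert A F) ∪ Zed e W (insert B F)) := by
      apply GRc_wlog hE A
      · intro i hi j hj h1 h2
        apply GRc_mono Finset.subset_union_left
        apply GRc_Zed R hi hj
        intro C hC
        rcases Finset.mem_insert.1 hC with rfl | hC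
        · exact h2
        · exact h1 C hC
      · intro i hi j hj h1 hiA hjA
        have s1 : GRc R e (Zed e W (insert A F) ∪ Zed e W (insert B F)) i w0 := by
          apply GRc_mono Finset.subset_union_right
          apply GRc_Zed R hi hw0
          intro C hC
          have h3 := hw0F d1 C hC
          have h4 := hdisj h hABF i hiA C hC
          tauto
        have s2 : GRc R e (Zed e W (insert A F) ∪ Zed e W (insert B F)) w0 j := by
          apply GRc_mono Finset.subset_union_left
          apply GRc_Zed R hw0 hj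
          intro C hC
          have h3 := hw0F d3 C hC
          rcases Finset.mem_insert.1 hC with rfl | hC
          · tauto
          · have h4 := hdisj d3 hA i hiA C hC
            have h5 := h1 C hC
            tauto
        exact GRc_trans hT hi hw0 hj s1 s2
    omega
  · intro A B F h hA hB hAB
    have hABF : A ∉ insert B F := by
      intro hm
      rcases Finset.mem_insert.1 hm with hm | hm
      · exact hAB hm
      · exact hA hm
    have d1 : DF (fun x => x ∈ W ∧ x ≠ w0) (insert B F) := h.subset (Finset.subset_insert _ _)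
    have d2 : DF (fun x => x ∈ W ∧ x ≠ w0) F := d1.subset (Finset.subset_insert _ _)
    have d3 : DF (fun x => x ∈ W ∧ x ≠ w0) (insert A F) :=
      h.subset (Finset.insert_subset_insert A (Finset.subset_insert B F))
    have d4 := GR_union h hABF hB
    have hAB' := GR_union_notMem h hA
    have c1 := hadd h
    have c2 := hadd d2
    have c3 := hadd d3
    have c4 := hadd d4
    rw [Finset.card_insert_of_notMem hABF, Finset.card_insert_of_notMem hB] at c1
    rw [Finset.card_insert_of_notMem hA] at c3
    rw [Finset.card_insert_of_notMem hAB'] at c4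
    have m1 := R.submod (Zed e W (insert A F)) (Zed e W (insert (A ∪ B) F))
    have m2 : R.r (Zed e W (insert A (insert B F))) ≤
        R.r (Zed e W (insert A F) ∩ Zed e W (insert (A ∪ B) F)) := by
      apply R.mono
      apply Finset.subset_inter (Zed_anti e W (Finset.insert_subset_insert A
        (Finset.subset_insert B F)))
      intro x hx
      obtain ⟨i, hi, j, hj, hij, hC, rfl⟩ := mem_Zed.1 hx
      refine mem_Zed.2 ⟨i, hi, j, hj, hij, ?_, rfl⟩
      intro C hC'
      rcases Finset.mem_insert.1 hC' with rfl | hC'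
      · have h3 := hC A (Finset.mem_insert_self _ _)
        have h4 := hC B (Finset.mem_insert_of_mem (Finset.mem_insert_self _ _))
        rw [Finset.mem_union, Finset.mem_union]
        tauto
      · exact hC C (Finset.mem_insert_of_mem (Finset.mem_insert_of_mem hC'))
    have m3 : R.r (Zed e W F) ≤ R.r (Zed e W (insert A F) ∪ Zed e W (insert (A ∪ B) F)) := by
      obtain ⟨b, hb⟩ := (h.1 B (Finset.mem_insert_of_mem (Finset.mem_insert_self _ _))).1
      have hbW := ((h.1 B (Finset.mem_insert_of_mem (Finset.mem_insert_self _ _))).2 b hb).1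
      apply GRc_wlog hE A
      · intro i hi j hj h1 h2
        apply GRc_mono Finset.subset_union_left
        apply GRc_Zed R hi hj
        intro C hC
        rcases Finset.mem_insert.1 hC with rfl | hC
        · exact h2
        · exact h1 C hC
      · intro i hi j hj h1 hiA hjA
        have s1 : GRc R e (Zed e W (insert A F) ∪ Zed e W (insert (A ∪ B) F)) i b := by
          apply GRc_mono Finset.subset_union_right
          apply GRc_Zed R hi hbW
          intro C hC
          rcases Finset.mem_insert.1 hC with rfl | hC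
          · rw [Finset.mem_union, Finset.mem_union]
            tauto
          · have h3 := hdisj d3 hA i hiA C hC
            have h4 := hdisj d1 hB b hb C hC
            tauto
        have s2 : GRc R e (Zed e W (insert A F) ∪ Zed e W (insert (A ∪ B) F)) b j := by
          apply GRc_mono Finset.subset_union_left
          apply GRc_Zed R hbW hj
          intro C hC
          rcases Finset.mem_insert.1 hC with rfl | hC
          · have h3 : b ∉ C := fun hbA =>
              hdisj h hABF b hbA B (Finset.mem_insert_self _ _) hb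
            tauto
          · have h3 := hdisj d3 hA i hiA C hC
            have h4 := hdisj d1 hB b hb C hC
            have h5 := h1 C hC
            tauto
        exact GRc_trans hT hi hbW hj s1 s2
    omega
  · intro A B F h hA hB hAB
    have hABF : A ∉ insert B F := by
      intro hm
      rcases Finset.mem_insert.1 hm with hm | hm
      · exact hAB hm
      · exact hA hm
    have d1 : DF (fun x => x ∈ W ∧ x ≠ w0) (insert B F) := h.subset (Finset.subset_insert _ _)
    have d3 : DF (fun x => x ∈ W ∧ x ≠ w0) (insert A F) :=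
      h.subset (Finset.insert_subset_insert A (Finset.subset_insert B F))
    have d4 := GR_union h hABF hB
    have hAB' := GR_union_notMem h hA
    have c1 := hadd h
    have c4 := hadd d4
    rw [Finset.card_insert_of_notMem hABF, Finset.card_insert_of_notMem hB] at c1
    rw [Finset.card_insert_of_notMem hAB'] at c4
    obtain ⟨a, ha⟩ := (h.1 A (Finset.mem_insert_self _ _)).1
    have haW := ((h.1 A (Finset.mem_insert_self _ _)).2 a ha).1
    obtain ⟨b, hb⟩ := (h.1 B (Finset.mem_insert_of_mem (Finset.mem_insert_self _ _))).1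
    have hbW := ((h.1 B (Finset.mem_insert_of_mem (Finset.mem_insert_self _ _))).2 b hb).1
    have hdAB : ∀ x ∈ A, x ∉ B := fun x hx => hdisj h hABF x hx B (Finset.mem_insert_self _ _)
    have key : R.r (Zed e W (insert (A ∪ B) F)) ≤
        R.r (insert (e a b) (Zed e W (insert A (insert B F)))) := by
      have hX : Zed e W (insert A (insert B F)) ⊆
          insert (e a b) (Zed e W (insert A (insert B F))) := Finset.subset_insert _ _
      apply GRc_wlog hE A
      · intro i hi j hj h1 h2
        apply GRc_mono hX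
        apply GRc_Zed R hi hj
        intro C hC
        rcases Finset.mem_insert.1 hC with rfl | hC
        · exact h2
        · rcases Finset.mem_insert.1 hC with rfl | hC
          · have h3 := h1 (A ∪ C) (Finset.mem_insert_self _ _)
            rw [Finset.mem_union, Finset.mem_union] at h3
            have h4 := hdAB i
            have h5 := hdAB j
            tauto
          · exact h1 C (Finset.mem_insert_of_mem hC)
      · intro i hi j hj h1 hiA hjA
        have hjB : j ∈ B := by
          have h3 := h1 (A ∪ B) (Finset.mem_insert_self _ _)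
          rw [Finset.mem_union, Finset.mem_union] at h3
          tauto
        have s1 : GRc R e (insert (e a b) (Zed e W (insert A (insert B F)))) i a := by
          apply GRc_mono hX
          apply GRc_Zed R hi haW
          intro C hC
          rcases Finset.mem_insert.1 hC with rfl | hC
          · tauto
          · have h3 := hdisj h hABF i hiA C hC
            have h4 := hdisj h hABF a ha C hC
            tauto
        have s2 : GRc R e (insert (e a b) (Zed e W (insert A (insert B F)))) a b := by
          right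
          exact R.in_of_mem (Finset.mem_insert_self _ _)
        have s3 : GRc R e (insert (e a b) (Zed e W (insert A (insert B F)))) b j := by
          apply GRc_mono hX
          apply GRc_Zed R hbW hj
          intro C hC
          rcases Finset.mem_insert.1 hC with rfl | hC
          · have h3 : b ∉ C := fun hbA => hdAB b hbA hb
            tauto
          · rcases Finset.mem_insert.1 hC with rfl | hC
            · tauto
            · have h3 := hdisj d1 hB b hb C hC
              have h4 := hdisj d1 hB j hjB C hC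
              tauto
        exact GRc_trans hT hi hbW hj (GRc_trans hT hi haW hbW s1 s2) s3
    have key2 := R.r_insert_le (e a b) (Zed e W (insert A (insert B F)))
    omega

end Pool.Agent.H.MP_60a1a2_co
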