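import Pool.Agent.H.MP_60a1a2_co.LimAS
import Pool.Agent.H.MP_60a1a2_co.RamLex

/-! # From finite systems to homogeneous systems indexed by the rational numbers -/

set_option autoImplicit false

namespace Pool.Agent.H.MP_60a1a2_co

theorem Good.lim {β : Type} [DecidableEq β] (P : ℕ → β → Prop)
    (g : ℕ → Finset (Finset β) → ℕ) (P' : β → Prop)
    (hP : ∀ x, P' x → ∀ᶠ n in Filter.atTop, P n x) (g' : Finset (Finset β) → ℕ)
    (hg' : ∀ S : Finset (Finset (Finset β)), (∀ F ∈ S, DF P' F) → ∀ N : ℕ,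
        ∃ n, N ≤ n ∧ ∀ F ∈ S, g n F = g' F) {k : ℕ} (ho : Good P' g' k) :
    ∃ n, Good (P n) (g n) k := by
  classical
  rcases ho with ho | ⟨p, hp, hfin, ho⟩
  · obtain ⟨n, hn⟩ := Out.lim P g P' hP g' hg' ho
    exact ⟨n, Or.inl hn⟩
  · obtain ⟨n, hn⟩ := Out.lim P g P' hP g' hg' ho
    exact ⟨n, Or.inr ⟨p, hp, hfin, hn⟩⟩

theorem Good.map {β β' : Type} [DecidableEq β] [DecidableEq β'] {P : β → Prop}
    {g : Finset (Finset β) → ℕ} (φ : β' → β) (P' : β' → Prop)
    (hφ : ∀ x y, P' x → P' y → φ x = φ y → x = y) (hP : ∀ x, P' x → P (φ x)) {k : ℕ}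
    (ho : Good P' (fun F => g (mapF φ F)) k) : Good P g k := by
  classical
  rcases ho with ho | ⟨p, hp, hfin, ho⟩
  · exact Or.inl (Out.map φ P' hφ hP ho)
  · exact Or.inr ⟨p, hp, hfin, Out.map φ P' hφ hP ho⟩

theorem HomLim_row_DF {K : ℕ} {ι : Type} [DecidableEq ι] (c : ι) :
    DF (fun _ : Fin K × ι => True) (row K c) := by
  constructor
  · intro A hA
    obtain ⟨t, -, rfl⟩ := Finset.mem_image.1 hA
    exact ⟨Finset.singleton_nonempty _, fun _ _ => trivial⟩
  · intro A hA B hB hAB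
    obtain ⟨t, -, rfl⟩ := Finset.mem_image.1 hA
    obtain ⟨t', -, rfl⟩ := Finset.mem_image.1 hB
    rw [Finset.disjoint_singleton]
    intro h
    exact hAB (by rw [h])

theorem HomLim_blks_DF {j K : ℕ} {ι : Type} [DecidableEq ι] [Preorder ι] (hK : 1 ≤ K)
    (f : Fin j → Fin K → ι) (hf : LexInc f) : DF (fun _ : Fin K × ι => True) (blks f) := by
  constructor
  · intro A hA
    obtain ⟨i, -, rfl⟩ := Finset.mem_image.1 hA
    exact ⟨⟨(⟨0, hK⟩, f i ⟨0, hK⟩), Finset.mem_image.2 ⟨⟨0, hK⟩, Finset.mem_univ _, rfl⟩⟩,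
      fun _ _ => trivial⟩
  · intro A hA B hB hAB
    obtain ⟨i, -, rfl⟩ := Finset.mem_image.1 hA
    obtain ⟨i', -, rfl⟩ := Finset.mem_image.1 hB
    rw [Finset.disjoint_left]
    intro x hx hx'
    obtain ⟨t, -, rfl⟩ := Finset.mem_image.1 hx
    obtain ⟨t', -, h⟩ := Finset.mem_image.1 hx'
    have h1 : t' = t := (Prod.ext_iff.1 h).1
    have h2 : f i' t' = f i t := (Prod.ext_iff.1 h).2
    rw [h1] at h2
    rcases lt_trichotomy i i' with h3 | h3 | h3
    · exact absurd h2 (hf i i' t t (Or.inl h3)).ne'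
    · exact hAB (by rw [h3])
    · exact absurd h2 (hf i' i t t (Or.inl h3)).ne

theorem HomLim_mapF_row {K : ℕ} {ι κ : Type} [DecidableEq ι] [DecidableEq κ] (ψ : ι → κ)
    (c : ι) : mapF (fun x : Fin K × ι => (x.1, ψ x.2)) (row K c) = row K (ψ c) := by
  rw [mapF, row, row, Finset.image_image]
  refine Finset.image_congr fun t _ => ?_
  simp

theorem HomLim_mapF_blks {j K : ℕ} {ι κ : Type} [DecidableEq ι] [DecidableEq κ] (ψ : ι → κ)
    (f : Fin j → Fin K → ι) :
    mapF (fun x : Fin K × ι => (x.1, ψ x.2)) (blks f) = blks (fun i t => ψ (f i t)) := by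
  rw [mapF, blks, blks, Finset.image_image]
  refine Finset.image_congr fun i _ => ?_
  simp only [Function.comp_def, blk, Finset.image_image]

theorem HomLim_blks_card {j K : ℕ} {ι : Type} [DecidableEq ι] (f : Fin j → Fin K → ι) :
    (blks f).card ≤ j := by
  refine Finset.card_image_le.trans ?_
  simp

/-- The limit over the natural numbers.

Proof: `limAS` for `P n x = (x.2 < n)`; rows: the family `row K c` satisfies `DF`
(different singletons), and agrees with `g n` for some `n > c`; `Good.lim`. -/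
theorem limNat (K k : ℕ) (g : ℕ → Finset (Finset (Fin K × ℕ)) → ℕ)
    (hg : ∀ n, AS (fun x : Fin K × ℕ => x.2 < n) K (g n))
    (hrow : ∀ n c, c < n → g n (row K c) = K)
    (hbad : ∀ n, ¬ Good (fun x : Fin K × ℕ => x.2 < n) (g n) k) :
    ∃ g' : Finset (Finset (Fin K × ℕ)) → ℕ, AS (fun _ => True) K g' ∧
      (∀ c, g' (row K c) = K) ∧ ¬ Good (fun _ => True) g' k := by
  obtain ⟨g', hAS, hag⟩ := limAS K (fun n (x : Fin K × ℕ) => x.2 < n) g hg (fun _ => True)
    (fun x _ => Filter.eventually_gt_atTop x.2)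
  refine ⟨g', hAS, fun c => ?_, fun ho => ?_⟩
  · obtain ⟨n, hn, h⟩ := hag {row K c} (fun F hF => by
      rw [Finset.mem_singleton.1 hF]
      exact HomLim_row_DF c) (c + 1)
    rw [← h _ (Finset.mem_singleton_self _)]
    exact hrow n c hn
  · obtain ⟨n, hn⟩ := Good.lim (fun n (x : Fin K × ℕ) => x.2 < n) g (fun _ => True)
      (fun x _ => Filter.eventually_gt_atTop x.2) g' hag ho
    exact hbad n hn

/-- The homogeneous limit over the rational numbers.

Proof.  `ramsey_lex_inf` with `J = K` and the colouring `c j f` iff `g (blks f) = j` gives an infinite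
homogeneous `H ⊆ ℕ`; let `η : ℕ → ℕ` be strictly increasing with values in `H`
(`Nat.nth`, or `Nat.orderEmbeddingOfSet`).  Let `q_0, q_1, ...` be an enumeration of `ℚ`
(`Denumerable.eqv` or any surjection `ℕ → ℚ`), and
`φ n (i, q) = (i, η (card {l < n | q_l < q}))`.  For `q < q'` with `q = q_l`, `l < n`, the second
component of `φ n (i, q)` is smaller than that of `φ n (i, q')`.  Let
`P n x` iff `x.2` is among `q_0, ..., q_{n-1}`; `φ n` is injective on `P n`.  `g n F = g (mapF (φ n) F)`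
is an additive system for `P n` (`AS.comap`).  `limAS` (with `P' = True`) gives `g'`.
Rows: `mapF (φ n) (row K q) = row K (η _)`.  Not good: `Good.lim`, `Good.map`.
`Hom g'`: let `j > K`: `g' (blks f) ≤ K < j` (`AS.bd`; `blks f` satisfies `DF` because `1 ≤ K`,
blocks of a `LexInc` `f` are nonempty and pairwise disjoint).  `j ≤ K`: in the first case of the
homogeneity of `H`: for `LexInc` `f : Fin j → Fin K → ℚ` there is a large `n` (all values of `f`
among `q_0, ..., q_{n-1}`) with `g' (blks f) = g (mapF (φ n) (blks f)) = g (blks f')` where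
`f' i t = η (card {l < n | q_l < f i t})` is `LexInc` with values in `H`.  Second case: the same,
`g (blks f') ≠ j`, and `g (blks f') ≤ j` (at most `j` sets: `AS.unit'` from `∅`), so `< j`. -/
theorem limQ (K k : ℕ) (hK : 1 ≤ K) (g : Finset (Finset (Fin K × ℕ)) → ℕ)
    (hg : AS (fun _ => True) K g) (hrow : ∀ c, g (row K c) = K)
    (hbad : ¬ Good (fun _ => True) g k) :
    ∃ g' : Finset (Finset (Fin K × ℚ)) → ℕ, AS (fun _ => True) K g' ∧
      (∀ q, g' (row K q) = K) ∧ Hom g' ∧ ¬ Good (fun _ => True) g' k := by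
  classical
  obtain ⟨H, hH, hhom⟩ := ramsey_lex_inf K K (fun j f => g (blks f) = j)
  obtain ⟨η, hη1, hη2⟩ : ∃ η : ℕ → ℕ, StrictMono η ∧ ∀ n, η n ∈ H :=
    ⟨Nat.nth (· ∈ H), Nat.nth_strictMono hH, fun n => Nat.nth_mem_of_infinite hH n⟩
  obtain ⟨q⟩ : Nonempty (ℕ ≃ ℚ) := ⟨(Denumerable.eqv ℚ).symm⟩
  obtain ⟨rk, hrk⟩ : ∃ rk : ℕ → ℚ → ℕ, ∀ n x x', x < x' → (∃ l < n, q l = x) →
      rk n x < rk n x' := by
    refine ⟨fun n x => ((Finset.range n).filter (fun l => q l < x)).card, ?_⟩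
    rintro n x x' hx ⟨l, hl, rfl⟩
    apply Finset.card_lt_card
    refine ⟨fun a ha => ?_, fun h => ?_⟩
    · rw [Finset.mem_filter] at ha ⊢
      exact ⟨ha.1, ha.2.trans hx⟩
    · have h1 := h (Finset.mem_filter.2 ⟨Finset.mem_range.2 hl, hx⟩)
      exact absurd (Finset.mem_filter.1 h1).2 (lt_irrefl _)
  obtain ⟨ψ, hψ⟩ : ∃ ψ : ℕ → ℚ → ℕ, ψ = fun n x => η (rk n x) := ⟨_, rfl⟩
  have hψ1 : ∀ n x x', x < x' → (∃ l < n, q l = x) → ψ n x < ψ n x' := by
    intro n x x' hx hl
    rw [hψ]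
    exact hη1 (hrk n x x' hx hl)
  have hψ2 : ∀ n x, ψ n x ∈ H := by
    intro n x
    rw [hψ]
    exact hη2 _
  have hinj : ∀ n, ∀ x y : Fin K × ℚ, (∃ l < n, q l = x.2) → (∃ l < n, q l = y.2) →
      (fun x : Fin K × ℚ => (x.1, ψ n x.2)) x = (fun x : Fin K × ℚ => (x.1, ψ n x.2)) y →
      x = y := by
    intro n x y hx hy hxy
    have h1 : x.1 = y.1 := (Prod.ext_iff.1 hxy).1
    have h2 : ψ n x.2 = ψ n y.2 := (Prod.ext_iff.1 hxy).2
    refine Prod.ext h1 ?_
    rcases lt_trichotomy x.2 y.2 with h3 | h3 | h3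
    · exact absurd h2 (hψ1 n _ _ h3 hx).ne
    · exact h3
    · exact absurd h2 (hψ1 n _ _ h3 hy).ne'
  have hev : ∀ x : Fin K × ℚ, True → ∀ᶠ n in Filter.atTop, ∃ l < n, q l = x.2 := by
    intro x _
    filter_upwards [Filter.eventually_gt_atTop (q.symm x.2)] with n hn
    exact ⟨q.symm x.2, hn, q.apply_symm_apply x.2⟩
  have hG : ∀ n, AS (fun x : Fin K × ℚ => ∃ l < n, q l = x.2) K
      (fun F => g (mapF (fun x : Fin K × ℚ => (x.1, ψ n x.2)) F)) := fun n =>
    AS.comap hg _ _ (hinj n) (fun _ _ => trivial)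
  obtain ⟨g', hAS, hag⟩ := limAS K (fun n (x : Fin K × ℚ) => ∃ l < n, q l = x.2)
    (fun n F => g (mapF (fun x : Fin K × ℚ => (x.1, ψ n x.2)) F)) hG (fun _ => True) hev
  refine ⟨g', hAS, fun c => ?_, fun j => ?_, fun ho => ?_⟩
  · obtain ⟨n, hn, h⟩ := hag {row K c} (fun F hF => by
      rw [Finset.mem_singleton.1 hF]
      exact HomLim_row_DF c) 0
    rw [← h _ (Finset.mem_singleton_self _)]
    show g (mapF (fun x : Fin K × ℚ => (x.1, ψ n x.2)) (row K c)) = K
    rw [HomLim_mapF_row]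
    exact hrow _
  · rcases Nat.lt_or_ge K j with hj | hj
    · right
      intro f hf
      exact lt_of_le_of_lt (hAS.bd _ (HomLim_blks_DF hK f hf)) hj
    · have key : ∀ f : Fin j → Fin K → ℚ, LexInc f → ∃ f' : Fin j → Fin K → ℕ, LexInc f' ∧
          (∀ i t, f' i t ∈ H) ∧ g' (blks f) = g (blks f') := by
        intro f hf
        obtain ⟨n, hn, h⟩ := hag {blks f} (fun F hF => by
          rw [Finset.mem_singleton.1 hF]
          exact HomLim_blks_DF hK f hf)
          ((Finset.univ.sup fun x : Fin j × Fin K => q.symm (f x.1 x.2)) + 1)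
        refine ⟨fun i t => ψ n (f i t), ?_, fun i t => hψ2 _ _, ?_⟩
        · intro i i' t t' hlt
          refine hψ1 n _ _ (hf i i' t t' hlt) ⟨q.symm (f i t), ?_, q.apply_symm_apply _⟩
          have h1 := Finset.le_sup (f := fun x : Fin j × Fin K => q.symm (f x.1 x.2))
            (Finset.mem_univ (i, t))
          exact lt_of_lt_of_le (Nat.lt_succ_of_le h1) hn
        · rw [← h _ (Finset.mem_singleton_self _), ← HomLim_mapF_blks]
      rcases hhom j hj with h | h
      · left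
        intro f hf
        obtain ⟨f', h1, h2, h3⟩ := key f hf
        rw [h3]
        exact h f' h1 h2
      · right
        intro f hf
        obtain ⟨f', h1, h2, h3⟩ := key f hf
        rw [h3]
        have h4 := hg.unit' (HomLim_blks_DF hK f' h1) (Finset.empty_subset _)
        rw [hg.zero, Finset.sdiff_empty, zero_add] at h4
        exact lt_of_le_of_ne (h4.trans (HomLim_blks_card f')) (h f' h1 h2)
  · obtain ⟨n, hn⟩ := Good.lim (fun n (x : Fin K × ℚ) => ∃ l < n, q l = x.2)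
      (fun n F => g (mapF (fun x : Fin K × ℚ => (x.1, ψ n x.2)) F)) (fun _ => True) hev g' hag ho
    exact hbad (Good.map _ _ (hinj n) (fun _ _ => trivial) hn)

end Pool.Agent.H.MP_60a1a2_co
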