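import Pool.Agent.H.MP_60a1a2_co.LcLoop

/-! # Cocliques after the contraction of a set of linear cost -/

set_option autoImplicit false

namespace Pool.Agent.H.MP_60a1a2_co

variable {α : Type*} [DecidableEq α]

/-- Uniform minors of a contraction; the contracted set may meet the ground set. -/
theorem lc_of_con {M : RF α} {C0 G G' : Finset α} (hC : C0 ⊆ G') (hG : G ⊆ G') {k : ℕ}
    (hm : HasM (M.con C0) G (unif k)) : HasM M G' (unif k) := by
  obtain ⟨C, f, hCG, hinj, hf, hr⟩ := hm
  refine ⟨C ∪ C0, f, Finset.union_subset (hCG.trans hG) hC, hinj, fun t => ?_, fun J => ?_⟩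
  · have h1 := Finset.mem_sdiff.1 (hf t)
    rw [Finset.mem_sdiff, Finset.mem_union, not_or]
    refine ⟨hG h1.1, h1.2, fun hcon => ?_⟩
    have h2 := hr {t}
    have hk : 0 < k := by
      have := t.2
      omega
    have h3 : unif k ({t} : Finset (Fin (2 * k))) = 1 := by
      unfold unif
      rw [Finset.card_singleton]
      exact min_eq_left hk
    rw [h3, Finset.image_singleton] at h2
    have h4 : (M.con C0).In C (f t) := M.con_in.2 (M.in_of_mem (Finset.mem_union_right _ hcon))
    unfold RF.In at h4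
    have h5 : ({f t} : Finset α) ∪ C = insert (f t) C := by
      ext x
      simp
    rw [h5] at h2
    omega
  · have h1 := hr J
    have h2 := M.con_add C0 (J.image f ∪ C)
    have h3 := M.con_add C0 C
    rw [Finset.union_assoc] at h2
    omega

/-- The edges of a coclique are not in the contracted set (a clique with at least three vertices
has no coloops). -/
theorem lc_disj {M : RF α} {A : Finset α} {e : ℕ → ℕ → α} {W : Finset ℕ}
    (h : IsK ((M.con A).dual (ed e W)) e W) (hW : 3 ≤ W.card) : Disjoint (ed e W) A := by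
  rw [Finset.disjoint_left]
  intro x hx hxA
  obtain ⟨i, hi, j, hj, hij, rfl⟩ := mem_ed.1 hx
  have hex : ∃ l ∈ W, l ∉ ({i, j} : Finset ℕ) := by
    by_contra hcon
    push Not at hcon
    have h1 : W ⊆ {i, j} := fun l hl => hcon l hl
    have h2 := (Finset.card_le_card h1).trans Finset.card_le_two
    omega
  obtain ⟨l, hl, hlij⟩ := hex
  rw [Finset.mem_insert, Finset.mem_singleton, not_or] at hlij
  have htri := h.tri i hi l hl j hj (Ne.symm hlij.1) hlij.2 hij
  unfold RF.In at htri
  have hS : ({e i l, e l j} : Finset α) ⊆ ed e W := by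
    intro y hy
    rw [Finset.mem_insert, Finset.mem_singleton] at hy
    rcases hy with rfl | rfl
    · exact ed_mem hi hl (Ne.symm hlij.1)
    · exact ed_mem hl hj hlij.2
  have hxS : e i j ∉ ({e i l, e l j} : Finset α) := by
    intro hy
    rw [Finset.mem_insert, Finset.mem_singleton] at hy
    rcases hy with hy | hy
    · rcases h.isE.inj i hi j hj i hi l hl hij (Ne.symm hlij.1) hy with h1 | h1
      · exact hlij.2 h1.2.symm
      · exact hij h1.2.symm
    · rcases h.isE.inj i hi j hj l hl j hj hij hlij.2 hy with h1 | h1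
      · exact hlij.1 h1.1.symm
      · exact hij h1.1
  have hins : insert (e i j) ({e i l, e l j} : Finset α) ⊆ ed e W := Finset.insert_subset hx hS
  have d1 := (M.con A).dual_add hins
  have d2 := (M.con A).dual_add hS
  rw [Finset.card_insert_of_notMem hxS] at d1
  have h3 : (M.con A).r (ed e W \ {e i l, e l j}) =
      (M.con A).r (ed e W \ insert (e i j) {e i l, e l j}) := by
    apply (M.con A).r_eq_of_in (Finset.sdiff_subset_sdiff (Finset.Subset.refl _)
      (Finset.subset_insert _ _))
    intro y hy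
    by_cases hyx : y = e i j
    · subst hyx
      exact M.con_in.2 (M.in_of_mem (Finset.mem_union_right _ hxA))
    · apply (M.con A).in_of_mem
      rw [Finset.mem_sdiff] at hy ⊢
      refine ⟨hy.1, fun h4 => ?_⟩
      rcases Finset.mem_insert.1 h4 with h5 | h5
      · exact hyx h5
      · exact hy.2 h5
  omega

/-- After the contraction of a set `Y` whose local connectivity with the coclique in `M / C2` is at
most `c * |W|` we still have a large coclique. -/
theorem lc_cocl.{u} (k c m : ℕ) : ∃ n : ℕ, ∀ {α : Type u} [DecidableEq α] (M : RF α)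
    (E C2 Y : Finset α) (e2 : ℕ → ℕ → α) (W : Finset ℕ), C2 ⊆ E → ed e2 W ⊆ E \ C2 →
    IsK ((M.con C2).dual (ed e2 W)) e2 W → n ≤ W.card → Y ⊆ E →
    M.r (C2 ∪ Y) + M.r (C2 ∪ ed e2 W) ≤ M.r C2 + M.r (C2 ∪ Y ∪ ed e2 W) + c * W.card →
    HasM M E (unif k) ∨
    ∃ (F2 : Finset α) (W' : Finset ℕ) (e' : ℕ → ℕ → α), ed e' W' ⊆ ed e2 W ∧ m ≤ W'.card ∧
      Disjoint (ed e' W') Y ∧
      IsK ((M.con (C2 ∪ Y ∪ (ed e2 W \ (F2 ∪ ed e' W')))).dual (ed e' W')) e' W' ∧
      m ≤ ((M.con C2).dual (ed e2 W)).r (ed e' W') := by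
  obtain ⟨n, hn⟩ := lc_main.{u} k (c + 1) (m + 3)
  refine ⟨n + 1, ?_⟩
  intro α _ M E C2 Y e2 W hC2 hW hK hWn hY hr
  have hLift : Lift ((M.con (C2 ∪ Y)).dual (ed e2 W)) ((M.con C2).dual (ed e2 W)) e2 W :=
    lift_dual (lift_con M C2 Y e2 W)
  have hWne : W.Nonempty := by
    rw [← Finset.card_pos]
    omega
  have hrk : ((M.con (C2 ∪ Y)).dual (ed e2 W)).r (ed e2 W) ≤ (c + 1) * W.card := by
    have h1 := (M.con (C2 ∪ Y)).dual_add (Finset.Subset.refl (ed e2 W))
    have h2 := (M.con C2).dual_add (Finset.Subset.refl (ed e2 W))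
    rw [Finset.sdiff_self, RF.r_empty] at h1 h2
    have h3 := M.con_add (C2 ∪ Y) (ed e2 W)
    have h4 := M.con_add C2 (ed e2 W)
    have h5 : ed e2 W ∪ (C2 ∪ Y) = C2 ∪ Y ∪ ed e2 W := Finset.union_comm _ _
    have h6 : ed e2 W ∪ C2 = C2 ∪ ed e2 W := Finset.union_comm _ _
    rw [h5] at h3
    rw [h6] at h4
    have h7 := hK.rank hWne
    have h8 : (c + 1) * W.card = c * W.card + W.card := by ring
    omega
  rcases hn _ _ e2 W hK hLift (by omega) hrk with h | ⟨F, W', e', h1, h2, h3, h4, h5⟩
  · left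
    refine lc_of_con (C0 := C2 ∪ Y) (Finset.union_subset hC2 hY) (hW.trans Finset.sdiff_subset)
      (HasM.unif_dual (Finset.Subset.refl _) h)
  · right
    have hF : F ⊆ ed e2 W := Finset.subset_union_left.trans h1
    have hG : ed e' W' ⊆ ed e2 W := Finset.subset_union_right.trans h1
    have hK' : IsK ((M.con (C2 ∪ Y ∪ (ed e2 W \ (F ∪ ed e' W')))).dual (ed e' W')) e' W' := by
      refine IsK.congr h4 fun X hX => ?_
      rw [dual_con_sub hF hG h2 hX, RF.con_con_eq]
    refine ⟨F, W', e', hG, by omega, ?_, hK', by omega⟩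
    have h6 := lc_disj hK' (by omega)
    refine Finset.disjoint_of_subset_right ?_ h6
    intro x hx
    simp only [Finset.mem_union]
    tauto

end Pool.Agent.H.MP_60a1a2_co
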