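import Pool.Agent.H.MP_60a1a2_co.BrDefs

/-! # Presentations of linear cost -/

set_option autoImplicit false

namespace Pool.Agent.H.MP_60a1a2_co

open Matroid

/-- For some set `X ⊆ C₁` and some restriction `N ≅ M(K_m)` of `N₁`, `m ≥ n`: the rank of the
ground set of `N` in `M / X` is at most `c * m`, or it is dependent in `M / X` for all
`M(K_{c+1})`-restrictions of `N`; and the local connectivity of `X ∪ E(N)` and `E(N₂)` in `M / C₂`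
is at most `l`. -/
def Cheap {α : Type*} (M : Matroid α) (C₁ C₂ : Set α) (N₁ N₂ : Matroid α) (c n l : ℕ) : Prop :=
  ∃ (X : Set α) (N : Matroid α) (m : ℕ), X ⊆ C₁ ∧ N ≤r N₁ ∧ IsMK N m ∧ n ≤ m ∧
    ((M ／ X).eRk N.E ≤ (c * m : ℕ) ∨
      ∀ N' : Matroid α, N' ≤r N → IsMK N' (c + 1) → ¬ (M ／ X).Indep N'.E) ∧
    M.eRk (C₂ ∪ X ∪ N.E) + M.eRk (C₂ ∪ N₂.E) ≤
      M.eRk C₂ + M.eRk (C₂ ∪ X ∪ N.E ∪ N₂.E) + (l : ℕ)

end Pool.Agent.H.MP_60a1a2_co
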