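import Pool.Agent.H.MP_60a1a2_co.LfBip

/-! # Cliques from bipartite graphs of small rank, second part -/

set_option autoImplicit false

namespace Pool.Agent.H.MP_60a1a2_co

variable {α : Type*} [DecidableEq α]

/-- the edge with the index `p` -/
def lfBip2E (e : ℕ → ℕ → α) (a b : ℕ → ℕ) (p : ℕ × ℕ) : α := e (a p.1) (b p.2)

/-- an edge in a new row -/
theorem lfBip2_row {K : RF α} {e : ℕ → ℕ → α} {V : Finset ℕ} (hK : IsK K e V) {a b : ℕ → ℕ}
    {p q : ℕ} (hb : BOK V a b p q) {P : Finset (ℕ × ℕ)} (hP : ∀ x ∈ P, x.1 < p ∧ x.2 < q)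
    {i j : ℕ} (hi : i < p) (hj : j < q) (hPi : ∀ x ∈ P, x.1 ≠ i) :
    K.r ((insert (i, j) P).image (lfBip2E e a b)) = K.r (P.image (lfBip2E e a b)) + 1 := by
  rw [Finset.image_insert]
  apply K.not_in
  apply hK.leaf (hb.aV i hi) (hb.bV j hj) (hb.ab i hi j hj)
  intro y hy
  obtain ⟨x, hx, rfl⟩ := Finset.mem_image.1 hy
  obtain ⟨h1, h2⟩ := hP x hx
  refine ed_mem (Finset.mem_erase.2 ⟨fun h => hPi x hx (hb.ainj _ h1 _ hi h), hb.aV _ h1⟩)
    (Finset.mem_erase.2 ⟨fun h => hb.ab i hi _ h2 h.symm, hb.bV _ h2⟩) (hb.ab _ h1 _ h2)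

/-- an edge in a new column -/
theorem lfBip2_col {K : RF α} {e : ℕ → ℕ → α} {V : Finset ℕ} (hK : IsK K e V) {a b : ℕ → ℕ}
    {p q : ℕ} (hb : BOK V a b p q) {P : Finset (ℕ × ℕ)} (hP : ∀ x ∈ P, x.1 < p ∧ x.2 < q)
    {i j : ℕ} (hi : i < p) (hj : j < q) (hPj : ∀ x ∈ P, x.2 ≠ j) :
    K.r ((insert (i, j) P).image (lfBip2E e a b)) = K.r (P.image (lfBip2E e a b)) + 1 := by
  rw [Finset.image_insert]
  apply K.not_in
  have h0 : lfBip2E e a b (i, j) = e (b j) (a i) := hK.isE.symm _ (hb.aV i hi) _ (hb.bV j hj)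
  rw [h0]
  apply hK.leaf (hb.bV j hj) (hb.aV i hi) (Ne.symm (hb.ab i hi j hj))
  intro y hy
  obtain ⟨x, hx, rfl⟩ := Finset.mem_image.1 hy
  obtain ⟨h1, h2⟩ := hP x hx
  refine ed_mem (Finset.mem_erase.2 ⟨hb.ab _ h1 j hj, hb.aV _ h1⟩)
    (Finset.mem_erase.2 ⟨fun h => hPj x hx (hb.binj _ h2 _ hj h), hb.bV _ h2⟩) (hb.ab _ h1 _ h2)

/-- the indices used in the lower bound -/
def lfBip2I (g h n : ℕ) : Finset (ℕ × ℕ) :=
  (Finset.range (g + 1) ×ˢ Finset.range (h + 1)) ∪
    ((Finset.range (n + 1)).image (fun t => (g + t, h + t)) ∪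
      (Finset.range (n + 1)).image (fun t => (g, h + t)))

theorem mem_lfBip2I {g h n : ℕ} {x : ℕ × ℕ} : x ∈ lfBip2I g h n ↔
    (x.1 < g + 1 ∧ x.2 < h + 1) ∨ (∃ t < n + 1, x = (g + t, h + t)) ∨
      ∃ t < n + 1, x = (g, h + t) := by
  unfold lfBip2I
  simp only [Finset.mem_union, Finset.mem_product, Finset.mem_range, Finset.mem_image]
  constructor
  · rintro (h1 | ⟨t, ht, h1⟩ | ⟨t, ht, h1⟩)
    · exact Or.inl h1
    · exact Or.inr (Or.inl ⟨t, ht, h1.symm⟩)
    · exact Or.inr (Or.inr ⟨t, ht, h1.symm⟩)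
  · rintro (h1 | ⟨t, ht, h1⟩ | ⟨t, ht, h1⟩)
    · exact Or.inl h1
    · exact Or.inr (Or.inl ⟨t, ht, h1.symm⟩)
    · exact Or.inr (Or.inr ⟨t, ht, h1.symm⟩)

theorem lfBip2_ind {K : RF α} {e : ℕ → ℕ → α} {V : Finset ℕ} (hK : IsK K e V) {a b : ℕ → ℕ}
    {g h N : ℕ} (hb : BOK V a b (g + 1 + N) (h + 1 + N)) {n : ℕ} (hn : n ≤ N) :
    K.r (bp e a b (g + 1) (h + 1)) + 2 * n ≤ K.r ((lfBip2I g h n).image (lfBip2E e a b)) := by
  induction n with
  | zero =>
    apply K.mono
    unfold bp lfBip2I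
    exact Finset.image_subset_image Finset.subset_union_left
  | succ n ih =>
    have h1 := ih (by omega)
    have hP : ∀ x ∈ lfBip2I g h n, x.1 < g + 1 + N ∧ x.2 < h + 1 + N := by
      intro x hx
      rcases mem_lfBip2I.1 hx with ⟨h2, h3⟩ | ⟨t, ht, rfl⟩ | ⟨t, ht, rfl⟩
      · omega
      · exact ⟨by show g + t < _; omega, by show h + t < _; omega⟩
      · exact ⟨by show g < _; omega, by show h + t < _; omega⟩
    have h2 := lfBip2_col hK hb hP (i := g) (j := h + n + 1) (by omega) (by omega) (by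
      intro x hx
      rcases mem_lfBip2I.1 hx with ⟨h2, h3⟩ | ⟨t, ht, rfl⟩ | ⟨t, ht, rfl⟩
      · omega
      · show h + t ≠ _; omega
      · show h + t ≠ _; omega)
    have hQ : ∀ x ∈ insert (g, h + n + 1) (lfBip2I g h n), x.1 < g + 1 + N ∧
        x.2 < h + 1 + N := by
      intro x hx
      rcases Finset.mem_insert.1 hx with rfl | hx
      · exact ⟨by show g < _; omega, by show h + n + 1 < _; omega⟩
      · exact hP x hx
    have h3 := lfBip2_row hK hb hQ (i := g + n + 1) (j := h + n + 1) (by omega) (by omega) (by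
      intro x hx
      rcases Finset.mem_insert.1 hx with rfl | hx
      · show g ≠ _; omega
      · rcases mem_lfBip2I.1 hx with ⟨h2, h3⟩ | ⟨t, ht, rfl⟩ | ⟨t, ht, rfl⟩
        · omega
        · show g + t ≠ _; omega
        · show g ≠ _; omega)
    have h4 : insert (g + n + 1, h + n + 1) (insert (g, h + n + 1) (lfBip2I g h n)) ⊆
        lfBip2I g h (n + 1) := by
      intro x hx
      rcases Finset.mem_insert.1 hx with rfl | hx
      · exact mem_lfBip2I.2 (Or.inr (Or.inl ⟨n + 1, by omega, rfl⟩))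
      · rcases Finset.mem_insert.1 hx with rfl | hx
        · exact mem_lfBip2I.2 (Or.inr (Or.inr ⟨n + 1, by omega, rfl⟩))
        · rcases mem_lfBip2I.1 hx with h2 | ⟨t, ht, rfl⟩ | ⟨t, ht, rfl⟩
          · exact mem_lfBip2I.2 (Or.inl h2)
          · exact mem_lfBip2I.2 (Or.inr (Or.inl ⟨t, by omega, rfl⟩))
          · exact mem_lfBip2I.2 (Or.inr (Or.inr ⟨t, by omega, rfl⟩))
    have h5 := K.mono (Finset.image_subset_image (f := lfBip2E e a b) h4)
    omega

/-- A lower bound for the rank.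

Proof.  Show by induction on `n ≤ N` that
`S n = bp e a b (g + 1) (h + 1) ∪ (range (n + 1)).image (fun t => e (a (g + t)) (b (h + t))) ∪
(range (n + 1)).image (fun t => e (a g) (b (h + t)))` has rank at least
`K.r (bp e a b (g + 1) (h + 1)) + 2 * n`.  Step: `e (a g) (b (h + n + 1))` has the new vertex
`b (h + n + 1)`, then `e (a (g + n + 1)) (b (h + n + 1))` has the new vertex `a (g + n + 1)`
(`IsK.leaf`, `RF.not_in`; `IsE.symm` to put the new vertex first).  For `1 ≤ t`:
`e (a g) (b (h + t)) = be e a b g h 0 t`, and for `t = 0` it is in `bp`. -/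
theorem bip_lower {K : RF α} {e : ℕ → ℕ → α} {V : Finset ℕ} (hK : IsK K e V) {a b : ℕ → ℕ}
    {g h N : ℕ} (hb : BOK V a b (g + 1 + N) (h + 1 + N)) :
    K.r (bp e a b (g + 1) (h + 1)) + 2 * N ≤
      K.r (bF e a b g h N ∪ ed (be e a b g h) (Finset.range (N + 1))) := by
  refine (lfBip2_ind hK hb le_rfl).trans (K.mono ?_)
  intro y hy
  obtain ⟨x, hx, rfl⟩ := Finset.mem_image.1 hy
  rcases mem_lfBip2I.1 hx with ⟨h1, h2⟩ | ⟨t, ht, rfl⟩ | ⟨t, ht, rfl⟩
  · exact Finset.mem_union_left _ (Finset.mem_union_left _ (mem_bp.2 ⟨x.1, h1, x.2, h2, rfl⟩))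
  · exact Finset.mem_union_left _ (Finset.mem_union_right _ (Finset.mem_image.2
      ⟨t, Finset.mem_range.2 ht, rfl⟩))
  · rcases Nat.eq_zero_or_pos t with rfl | h0
    · exact Finset.mem_union_left _ (Finset.mem_union_left _
        (mem_bp.2 ⟨g, by omega, h, by omega, rfl⟩))
    · apply Finset.mem_union_right
      have h1 : lfBip2E e a b (g, h + t) = be e a b g h 0 t := by
        unfold be lfBip2E
        rw [Nat.zero_min, Nat.zero_max]
        rfl
      rw [h1]
      exact ed_mem (Finset.mem_range.2 (by omega)) (Finset.mem_range.2 ht) (by omega)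

/-- equal, or joined by an edge in the closure of `Z` -/
def LfBip2R (K : RF α) (e : ℕ → ℕ → α) (Z : Finset α) (x y : ℕ) : Prop :=
  x = y ∨ K.In Z (e x y)

theorem LfBip2R.symm {K : RF α} {e : ℕ → ℕ → α} {V : Finset ℕ} (hK : IsK K e V) {Z : Finset α}
    {x y : ℕ} (hx : x ∈ V) (hy : y ∈ V) (h : LfBip2R K e Z x y) : LfBip2R K e Z y x := by
  rcases h with h | h
  · exact Or.inl h.symm
  · right
    rw [hK.isE.symm y hy x hx]
    exact h

theorem LfBip2R.trans {K : RF α} {e : ℕ → ℕ → α} {V : Finset ℕ} (hK : IsK K e V) {Z : Finset α}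
    {x y z : ℕ} (hx : x ∈ V) (hy : y ∈ V) (hz : z ∈ V) (h : LfBip2R K e Z x y)
    (h' : LfBip2R K e Z y z) : LfBip2R K e Z x z := by
  by_cases hxy : x = y
  · rw [hxy]
    exact h'
  by_cases hyz : y = z
  · rw [← hyz]
    exact h
  by_cases hxz : x = z
  · exact Or.inl hxz
  rcases h with h | h
  · exact absurd h hxy
  rcases h' with h' | h'
  · exact absurd h' hyz
  exact Or.inr (hK.tri.trans hx hy hz hxy hyz hxz h h')

/-- In the clique matroid the contraction gives a clique.

Proof.  `be_isE`.  `Tri`: let `i, j, k` be different, `F = bF e a b g h N`.  For a set `Z` with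
`F ⊆ Z` say that the classes `t`, `t'` are joined if `K.In Z (e x y)` for all different
`x ∈ {a (g + t), b (h + t)}`, `y ∈ {a (g + t'), b (h + t')}`.  The element `e (a (g + t)) (b (h + t))`
is in `F`.  If `be e a b g h t t' ∈ Z` with `t ≠ t'` then the classes are joined (`Tri.trans` with the
matching edges of `t` and of `t'`), and if `t`, `t'` and `t'`, `t''` are joined then `t`, `t''` are
joined (`Tri.trans`).  Apply this to `Z = {be i j, be j k} ∪ F` and use `RF.con_in`.
`rk`: `(K.con F).r (ed ..) + K.r F = K.r (ed .. ∪ F)` (`con_add`), `bF_rank` and `bip_lower`. -/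
theorem bip_K {K : RF α} {e : ℕ → ℕ → α} {V : Finset ℕ} (hK : IsK K e V) {a b : ℕ → ℕ}
    {g h N : ℕ} (hb : BOK V a b (g + 1 + N) (h + 1 + N)) :
    IsK (K.con (bF e a b g h N)) (be e a b g h) (Finset.range (N + 1)) := by
  refine ⟨be_isE hK.isE hb, ?_, ?_⟩
  · intro i hi j hj k hk hij hjk hik
    rw [Finset.mem_range] at hi hj hk
    rw [RF.con_in]
    have hAV : ∀ t, t < N + 1 → a (g + t) ∈ V := fun t ht => hb.aV _ (by omega)
    have hBV : ∀ t, t < N + 1 → b (h + t) ∈ V := fun t ht => hb.bV _ (by omega)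
    have hm : ∀ t, t < N + 1 → LfBip2R K e ({be e a b g h i j, be e a b g h j k} ∪
        bF e a b g h N) (a (g + t)) (b (h + t)) := by
      intro t ht
      right
      apply K.in_of_mem
      apply Finset.mem_union_right
      unfold bF
      exact Finset.mem_union_right _ (Finset.mem_image.2 ⟨t, Finset.mem_range.2 ht, rfl⟩)
    have hcls : ∀ t s, t < N + 1 → s < N + 1 → be e a b g h t s ∈
        ({be e a b g h i j, be e a b g h j k} ∪ bF e a b g h N : Finset α) →
        LfBip2R K e ({be e a b g h i j, be e a b g h j k} ∪ bF e a b g h N)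
          (a (g + t)) (a (g + s)) := by
      intro t s ht hs hmem
      have h1 := K.in_of_mem hmem
      unfold be at h1
      rcases le_total t s with hts | hts
      · rw [min_eq_left hts, max_eq_right hts] at h1
        exact LfBip2R.trans hK (hAV t ht) (hBV s hs) (hAV s hs) (Or.inr h1)
          ((hm s hs).symm hK (hAV s hs) (hBV s hs))
      · rw [min_eq_right hts, max_eq_left hts] at h1
        exact LfBip2R.trans hK (hAV t ht) (hBV t ht) (hAV s hs) (hm t ht)
          (LfBip2R.symm hK (hAV s hs) (hBV t ht) (Or.inr h1))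
    have h1 := hcls i j hi hj (Finset.mem_union_left _ (Finset.mem_insert_self _ _))
    have h2 := hcls j k hj hk (Finset.mem_union_left _
      (Finset.mem_insert_of_mem (Finset.mem_singleton_self _)))
    have h3 := h1.trans hK (hAV i hi) (hAV j hj) (hAV k hk) h2
    have h4 : LfBip2R K e ({be e a b g h i j, be e a b g h j k} ∪ bF e a b g h N)
        (a (g + min i k)) (b (h + max i k)) := by
      rcases le_total i k with hik' | hik'
      · rw [min_eq_left hik', max_eq_right hik']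
        exact h3.trans hK (hAV i hi) (hAV k hk) (hBV k hk) (hm k hk)
      · rw [min_eq_right hik', max_eq_left hik']
        exact (h3.symm hK (hAV i hi) (hAV k hk)).trans hK (hAV k hk) (hAV i hi) (hBV i hi)
          (hm i hi)
    rcases h4 with h4 | h4
    · exact absurd h4 (hb.ab _ (by omega) _ (by omega))
    · exact h4
  · rw [Finset.card_range]
    have h1 := K.con_add (bF e a b g h N) (ed (be e a b g h) (Finset.range (N + 1)))
    rw [Finset.union_comm] at h1
    have h2 := bF_rank hK hb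
    have h3 := bip_lower hK hb
    omega

/-- A bipartite graph of small rank in a lift of a clique matroid gives a clique.

Proof.  Let `F = bF e a b g h N`, `Y = F ∪ ed (be ..) (range (N + 1))`, `P0 = bp e a b (g + 1) (h + 1)`.
`L.r F ≥ L.r P0 + N`: `Lift` for `P0 ⊆ F` and `bF_rank`.  `L.r Y ≤ L.r P0 + 2 * N` (`bF_sub`,
`hr`).  So `L.r Y ≤ L.r F + N`, and `K.r Y ≥ K.r F + N` (`bip_lower`, `bF_rank`).  For
`X ⊆ ed (be ..) (range (N + 1))` `Lift` for `F ⊆ X ∪ F` and for `X ∪ F ⊆ Y` gives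
`L.r (X ∪ F) - L.r F = K.r (X ∪ F) - K.r F`.  So `IsK (L.con F)` by `bip_K` and `IsK.congr`
(`con_add`).  `L.r F ≤ (g + 1) * (h + 1) + N` (`r_union_le_card`: `F` is the union of `P0` and of the
matching edges with `1 ≤ t ≤ N`, `P0.card ≤ (g + 1) * (h + 1)`), and
`K.r Y ≥ 2 * N` by `bip_lower`.  All sets are in `ed e V` by `bF_sub`, `bp_sub`. -/
theorem bip_clique {L K : RF α} {e : ℕ → ℕ → α} {V : Finset ℕ} (hK : IsK K e V)
    (hL : Lift L K e V) {a b : ℕ → ℕ} {g h N m : ℕ}
    (hb : BOK V a b (g + 1 + N) (h + 1 + N)) (hN : m + (g + 1) * (h + 1) ≤ N)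
    (hr : L.r (bp e a b (g + 1 + N) (h + 1 + N)) ≤ L.r (bp e a b (g + 1) (h + 1)) + 2 * N) :
    ∃ (F : Finset α) (V' : Finset ℕ) (e' : ℕ → ℕ → α), F ∪ ed e' V' ⊆ ed e V ∧
      Disjoint F (ed e' V') ∧ m ≤ V'.card ∧ IsK (L.con F) e' V' ∧
      L.r F + m ≤ K.r (F ∪ ed e' V') := by
  have hYV : bF e a b g h N ∪ ed (be e a b g h) (Finset.range (N + 1)) ⊆ ed e V :=
    bF_sub.trans (bp_sub hb)
  have hPF : bp e a b (g + 1) (h + 1) ⊆ bF e a b g h N := Finset.subset_union_left
  have h1 := hL _ _ hPF (Finset.subset_union_left.trans hYV)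
  have h2 := bF_rank hK hb
  have h3 := bip_lower hK hb
  have h4 := L.mono (bF_sub (e := e) (a := a) (b := b) (g := g) (h := h) (N := N))
  refine ⟨bF e a b g h N, Finset.range (N + 1), be e a b g h, hYV, bF_disj hK.isE hb, ?_, ?_, ?_⟩
  · rw [Finset.card_range]
    omega
  · apply (bip_K hK hb).congr
    intro X hX
    have hXY : X ∪ bF e a b g h N ⊆
        bF e a b g h N ∪ ed (be e a b g h) (Finset.range (N + 1)) := by
      rw [Finset.union_comm X]
      exact Finset.union_subset_union_right hX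
    have e1 := hL (bF e a b g h N) (X ∪ bF e a b g h N) Finset.subset_union_right
      (hXY.trans hYV)
    have e2 := hL _ _ hXY hYV
    have e3 := L.con_add (bF e a b g h N) X
    have e4 := K.con_add (bF e a b g h N) X
    omega
  · have h5 : bF e a b g h N ⊆ bp e a b (g + 1) (h + 1) ∪
        (Finset.Ioc 0 N).image (fun t => e (a (g + t)) (b (h + t))) := by
      intro x hx
      rcases Finset.mem_union.1 hx with hx | hx
      · exact Finset.mem_union_left _ hx
      · obtain ⟨t, ht, rfl⟩ := Finset.mem_image.1 hx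
        rw [Finset.mem_range] at ht
        rcases Nat.eq_zero_or_pos t with rfl | h0
        · exact Finset.mem_union_left _ (mem_bp.2 ⟨g, by omega, h, by omega, rfl⟩)
        · exact Finset.mem_union_right _ (Finset.mem_image.2
            ⟨t, Finset.mem_Ioc.2 ⟨h0, by omega⟩, rfl⟩)
    have h6 := L.mono h5
    have h7 := L.r_union_le_card (bp e a b (g + 1) (h + 1))
      ((Finset.Ioc 0 N).image (fun t => e (a (g + t)) (b (h + t))))
    have h8 : ((Finset.Ioc 0 N).image (fun t => e (a (g + t)) (b (h + t)))).card ≤ N := by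
      refine Finset.card_image_le.trans ?_
      rw [Nat.card_Ioc]
      omega
    have h9 := L.le_card (bp e a b (g + 1) (h + 1))
    have h10 : (bp e a b (g + 1) (h + 1)).card ≤ (g + 1) * (h + 1) := by
      unfold bp
      refine Finset.card_image_le.trans ?_
      rw [Finset.card_product, Finset.card_range, Finset.card_range]
    omega

end Pool.Agent.H.MP_60a1a2_co
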