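import Pool.Agent.H.MP_60a1a2_co.LfDefs

/-! # Rank functions on pairs of natural numbers (definitions and basic lemmas) -/

set_option autoImplicit false

namespace Pool.Agent.H.MP_60a1a2_co

/-- the pairs `i < j` of elements of `V` -/
def prs (V : Finset ℕ) : Finset (ℕ × ℕ) := V.offDiag.filter (fun p => p.1 < p.2)

/-- the vertices of a set of pairs -/
def vs (X : Finset (ℕ × ℕ)) : Finset ℕ := X.image Prod.fst ∪ X.image Prod.snd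

/-- all pairs are increasing -/
def Up (X : Finset (ℕ × ℕ)) : Prop := ∀ p ∈ X, p.1 < p.2

/-- moving the vertices -/
def mp (φ : ℕ → ℕ) (X : Finset (ℕ × ℕ)) : Finset (ℕ × ℕ) := X.image (Prod.map φ φ)

/-- homogeneity: the rank does not change when the vertices are moved by a strictly increasing
map -/
def PHom (R : RF (ℕ × ℕ)) : Prop :=
  ∀ (X : Finset (ℕ × ℕ)) (φ : ℕ → ℕ), Up X → StrictMonoOn φ (vs X : Set ℕ) →
    R.r (mp φ X) = R.r X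

/-- an element with a vertex which is not used is free -/
def Pf (R : RF (ℕ × ℕ)) : Prop :=
  ∀ (X : Finset (ℕ × ℕ)) (p : ℕ × ℕ), Up X → p.1 < p.2 → (p.1 ∉ vs X ∨ p.2 ∉ vs X) →
    R.r (insert p X) = R.r X + 1

/-- the rectangle of the first `g` rows and the next `h` columns -/
def rect (g h : ℕ) : Finset (ℕ × ℕ) := Finset.range g ×ˢ Finset.Ico g (g + h)

/-- counterexamples on `n` vertices -/
structure Cex (R : RF (ℕ × ℕ)) (n s k : ℕ) : Prop where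
  fresh : ∀ X ⊆ prs (Finset.range n), ∀ p ∈ prs (Finset.range n), (p.1 ∉ vs X ∨ p.2 ∉ vs X) →
    R.r (insert p X) = R.r X + 1
  dep : ∀ S ⊆ Finset.range n, S.card = s → R.r (prs S) < (prs S).card
  nou : ¬ HasM R (prs (Finset.range n)) (unif k)

theorem mem_prs {V : Finset ℕ} {p : ℕ × ℕ} : p ∈ prs V ↔ p.1 ∈ V ∧ p.2 ∈ V ∧ p.1 < p.2 := by
  unfold prs
  rw [Finset.mem_filter, Finset.mem_offDiag]
  constructor
  · rintro ⟨⟨h1, h2, _⟩, h4⟩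
    exact ⟨h1, h2, h4⟩
  · rintro ⟨h1, h2, h4⟩
    exact ⟨⟨h1, h2, h4.ne⟩, h4⟩

theorem mem_vs {X : Finset (ℕ × ℕ)} {x : ℕ} : x ∈ vs X ↔ ∃ p ∈ X, p.1 = x ∨ p.2 = x := by
  unfold vs
  simp only [Finset.mem_union, Finset.mem_image]
  constructor
  · rintro (⟨p, hp, h⟩ | ⟨p, hp, h⟩)
    · exact ⟨p, hp, Or.inl h⟩
    · exact ⟨p, hp, Or.inr h⟩
  · rintro ⟨p, hp, h | h⟩
    · exact Or.inl ⟨p, hp, h⟩
    · exact Or.inr ⟨p, hp, h⟩

theorem vs_fst {X : Finset (ℕ × ℕ)} {p : ℕ × ℕ} (hp : p ∈ X) : p.1 ∈ vs X :=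
  mem_vs.2 ⟨p, hp, Or.inl rfl⟩

theorem vs_snd {X : Finset (ℕ × ℕ)} {p : ℕ × ℕ} (hp : p ∈ X) : p.2 ∈ vs X :=
  mem_vs.2 ⟨p, hp, Or.inr rfl⟩

theorem vs_mono {X Y : Finset (ℕ × ℕ)} (h : X ⊆ Y) : vs X ⊆ vs Y := by
  intro x hx
  obtain ⟨p, hp, h1⟩ := mem_vs.1 hx
  exact mem_vs.2 ⟨p, h hp, h1⟩

theorem vs_insert (p : ℕ × ℕ) (X : Finset (ℕ × ℕ)) :
    vs (insert p X) = insert p.1 (insert p.2 (vs X)) := by
  ext x
  simp only [mem_vs, Finset.mem_insert]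
  constructor
  · rintro ⟨q, rfl | hq, h | h⟩
    · exact Or.inl h.symm
    · exact Or.inr (Or.inl h.symm)
    · exact Or.inr (Or.inr ⟨q, hq, Or.inl h⟩)
    · exact Or.inr (Or.inr ⟨q, hq, Or.inr h⟩)
  · rintro (rfl | rfl | ⟨q, hq, h⟩)
    · exact ⟨p, Or.inl rfl, Or.inl rfl⟩
    · exact ⟨p, Or.inl rfl, Or.inr rfl⟩
    · exact ⟨q, Or.inr hq, h⟩

theorem vs_prs_sub (V : Finset ℕ) : vs (prs V) ⊆ V := by
  intro x hx
  obtain ⟨p, hp, h⟩ := mem_vs.1 hx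
  have h1 := mem_prs.1 hp
  rcases h with rfl | rfl
  · exact h1.1
  · exact h1.2.1

theorem prs_mono {V W : Finset ℕ} (h : V ⊆ W) : prs V ⊆ prs W := by
  intro p hp
  have h1 := mem_prs.1 hp
  exact mem_prs.2 ⟨h h1.1, h h1.2.1, h1.2.2⟩

theorem Up.sub {X Y : Finset (ℕ × ℕ)} (h : Up Y) (hX : X ⊆ Y) : Up X := fun p hp => h p (hX hp)

theorem up_prs (V : Finset ℕ) : Up (prs V) := fun _ hp => (mem_prs.1 hp).2.2

theorem up_insert {X : Finset (ℕ × ℕ)} (h : Up X) {p : ℕ × ℕ} (hp : p.1 < p.2) :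
    Up (insert p X) := by
  intro q hq
  rcases Finset.mem_insert.1 hq with rfl | hq
  · exact hp
  · exact h q hq

/-- a set of increasing pairs is contained in the pairs of any set which contains its vertices -/
theorem Up.sub_prs {X : Finset (ℕ × ℕ)} (h : Up X) {V : Finset ℕ} (hV : vs X ⊆ V) : X ⊆ prs V :=
  fun p hp => mem_prs.2 ⟨hV (vs_fst hp), hV (vs_snd hp), h p hp⟩

theorem mem_mp {φ : ℕ → ℕ} {X : Finset (ℕ × ℕ)} {q : ℕ × ℕ} :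
    q ∈ mp φ X ↔ ∃ p ∈ X, φ p.1 = q.1 ∧ φ p.2 = q.2 := by
  unfold mp
  simp only [Finset.mem_image]
  constructor
  · rintro ⟨p, hp, rfl⟩
    exact ⟨p, hp, rfl, rfl⟩
  · rintro ⟨p, hp, h1, h2⟩
    exact ⟨p, hp, Prod.ext h1 h2⟩

theorem mp_union (φ : ℕ → ℕ) (X Y : Finset (ℕ × ℕ)) : mp φ (X ∪ Y) = mp φ X ∪ mp φ Y :=
  Finset.image_union _ _

theorem mp_insert (φ : ℕ → ℕ) (p : ℕ × ℕ) (X : Finset (ℕ × ℕ)) :
    mp φ (insert p X) = insert (φ p.1, φ p.2) (mp φ X) := Finset.image_insert _ _ _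

theorem mp_mono (φ : ℕ → ℕ) {X Y : Finset (ℕ × ℕ)} (h : X ⊆ Y) : mp φ X ⊆ mp φ Y :=
  Finset.image_subset_image h

theorem mp_mp (φ ψ : ℕ → ℕ) (X : Finset (ℕ × ℕ)) : mp ψ (mp φ X) = mp (ψ ∘ φ) X := by
  unfold mp
  rw [Finset.image_image]
  rfl

theorem mp_congr {φ ψ : ℕ → ℕ} {X : Finset (ℕ × ℕ)} (h : ∀ x ∈ vs X, φ x = ψ x) :
    mp φ X = mp ψ X := by
  unfold mp
  apply Finset.image_congr
  intro p hp
  exact Prod.ext (h _ (vs_fst hp)) (h _ (vs_snd hp))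

theorem vs_mp (φ : ℕ → ℕ) (X : Finset (ℕ × ℕ)) : vs (mp φ X) = (vs X).image φ := by
  ext x
  simp only [mem_vs, Finset.mem_image]
  constructor
  · rintro ⟨q, hq, h⟩
    obtain ⟨p, hp, h1, h2⟩ := mem_mp.1 hq
    rcases h with rfl | rfl
    · exact ⟨p.1, ⟨p, hp, Or.inl rfl⟩, h1⟩
    · exact ⟨p.2, ⟨p, hp, Or.inr rfl⟩, h2⟩
  · rintro ⟨y, ⟨p, hp, h⟩, rfl⟩
    refine ⟨(φ p.1, φ p.2), mem_mp.2 ⟨p, hp, rfl, rfl⟩, ?_⟩
    rcases h with rfl | rfl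
    · exact Or.inl rfl
    · exact Or.inr rfl

theorem Up.mp {X : Finset (ℕ × ℕ)} (h : Up X) {φ : ℕ → ℕ} (hφ : StrictMonoOn φ (vs X : Set ℕ)) :
    Up (Pool.Agent.H.MP_60a1a2_co.mp φ X) := by
  intro q hq
  obtain ⟨p, hp, h1, h2⟩ := mem_mp.1 hq
  rw [← h1, ← h2]
  exact hφ (vs_fst hp) (vs_snd hp) (h p hp)

theorem up_rect (g h : ℕ) : Up (rect g h) := by
  intro p hp
  unfold rect at hp
  rw [Finset.mem_product, Finset.mem_range, Finset.mem_Ico] at hp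
  omega

theorem vs_rect_sub (g h : ℕ) : vs (rect g h) ⊆ Finset.range (g + h) := by
  intro x hx
  obtain ⟨p, hp, h1⟩ := mem_vs.1 hx
  unfold rect at hp
  rw [Finset.mem_product, Finset.mem_range, Finset.mem_Ico] at hp
  rw [Finset.mem_range]
  omega

end Pool.Agent.H.MP_60a1a2_co
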