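import Pool.Agent.H.MP_60a1a2_co.TriA
import Pool.Agent.H.MP_60a1a2_co.LfPDefs

/-! # Renaming the vertices of a counterexample -/

set_option autoImplicit false

namespace Pool.Agent.H.MP_60a1a2_co

variable {α : Type*} [DecidableEq α]

/-- the labelling of pairs -/
def lab (e : ℕ → ℕ → α) (v : ℕ → ℕ) (p : ℕ × ℕ) : α := e (v p.1) (v p.2)

/-- The labelling is injective on increasing pairs (`IsE.inj`; the second alternative
`p.1 = q.2`, `p.2 = q.1` contradicts `p.1 < p.2`, `q.1 < q.2`). -/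
theorem lab_inj {e : ℕ → ℕ → α} {V : Finset ℕ} (hE : IsE e V) {v : ℕ → ℕ} {n : ℕ}
    (hv : ∀ i < n, v i ∈ V) (hi : ∀ i < n, ∀ j < n, v i = v j → i = j) {p q : ℕ × ℕ}
    (hp : p ∈ prs (Finset.range n)) (hq : q ∈ prs (Finset.range n))
    (h : lab e v p = lab e v q) : p = q := by
  obtain ⟨hp1, hp2, hp3⟩ := mem_prs.1 hp
  obtain ⟨hq1, hq2, hq3⟩ := mem_prs.1 hq
  rw [Finset.mem_range] at hp1 hp2 hq1 hq2
  have h1 : v p.1 ≠ v p.2 := fun h1 => hp3.ne (hi _ hp1 _ hp2 h1)
  have h2 : v q.1 ≠ v q.2 := fun h1 => hq3.ne (hi _ hq1 _ hq2 h1)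
  rcases hE.inj _ (hv _ hp1) _ (hv _ hp2) _ (hv _ hq1) _ (hv _ hq2) h1 h2 h with h3 | h3
  · exact Prod.ext (hi _ hp1 _ hq1 h3.1) (hi _ hp2 _ hq2 h3.2)
  · have h4 := hi _ hp1 _ hq2 h3.1
    have h5 := hi _ hp2 _ hq1 h3.2
    omega

/-- The image of the pairs of `S` are the edges of the image of `S` (`IsE.symm` for decreasing
pairs). -/
theorem lab_prs {e : ℕ → ℕ → α} {V : Finset ℕ} (hE : IsE e V) {v : ℕ → ℕ} {n : ℕ}
    (hv : ∀ i < n, v i ∈ V) (hi : ∀ i < n, ∀ j < n, v i = v j → i = j) {S : Finset ℕ}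
    (hS : S ⊆ Finset.range n) : (prs S).image (lab e v) = ed e (S.image v) := by
  ext x
  constructor
  · intro hx
    obtain ⟨p, hp, rfl⟩ := Finset.mem_image.1 hx
    obtain ⟨hp1, hp2, hp3⟩ := mem_prs.1 hp
    have h1 := Finset.mem_range.1 (hS hp1)
    have h2 := Finset.mem_range.1 (hS hp2)
    exact ed_mem (Finset.mem_image_of_mem _ hp1) (Finset.mem_image_of_mem _ hp2)
      (fun h => hp3.ne (hi _ h1 _ h2 h))
  · intro hx
    obtain ⟨a, ha, b, hb, hab, rfl⟩ := mem_ed.1 hx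
    obtain ⟨i, hiS, rfl⟩ := Finset.mem_image.1 ha
    obtain ⟨j, hjS, rfl⟩ := Finset.mem_image.1 hb
    have h1 := Finset.mem_range.1 (hS hiS)
    have h2 := Finset.mem_range.1 (hS hjS)
    rcases lt_trichotomy i j with h3 | h3 | h3
    · exact Finset.mem_image.2 ⟨(i, j), mem_prs.2 ⟨hiS, hjS, h3⟩, rfl⟩
    · rw [h3] at hab
      exact absurd rfl hab
    · rw [hE.symm _ (hv _ h1) _ (hv _ h2)]
      exact Finset.mem_image.2 ⟨(j, i), mem_prs.2 ⟨hjS, hiS, h3⟩, rfl⟩

/-- the image of a set of pairs is contained in the edges of `V` -/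
theorem lfCex_sub {e : ℕ → ℕ → α} {V : Finset ℕ} (hE : IsE e V) {v : ℕ → ℕ} {n : ℕ}
    (hv : ∀ i < n, v i ∈ V) (hi : ∀ i < n, ∀ j < n, v i = v j → i = j)
    {X : Finset (ℕ × ℕ)} (hX : X ⊆ prs (Finset.range n)) : X.image (lab e v) ⊆ ed e V := by
  refine (Finset.image_subset_image hX).trans ?_
  rw [lab_prs hE hv hi (Finset.Subset.refl _)]
  refine ed_mono ?_
  intro a ha
  obtain ⟨i, hi1, rfl⟩ := Finset.mem_image.1 ha
  exact hv _ (Finset.mem_range.1 hi1)

/-- sets which avoid a vertex -/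
theorem lfCex_avoid {e : ℕ → ℕ → α} {V : Finset ℕ} {v : ℕ → ℕ} {n : ℕ}
    (hv : ∀ i < n, v i ∈ V) (hi : ∀ i < n, ∀ j < n, v i = v j → i = j)
    {X : Finset (ℕ × ℕ)} (hX : X ⊆ prs (Finset.range n)) {w : ℕ} (hw : w < n)
    (hwX : w ∉ vs X) : X.image (lab e v) ⊆ ed e (V.erase (v w)) := by
  intro x hx
  obtain ⟨q, hq, rfl⟩ := Finset.mem_image.1 hx
  obtain ⟨hq1, hq2, hq3⟩ := mem_prs.1 (hX hq)
  rw [Finset.mem_range] at hq1 hq2
  refine ed_mem (Finset.mem_erase.2 ⟨?_, hv _ hq1⟩) (Finset.mem_erase.2 ⟨?_, hv _ hq2⟩)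
    (fun h => hq3.ne (hi _ hq1 _ hq2 h))
  · intro h
    have := hi _ hq1 _ hw h
    rw [← this] at hwX
    exact hwX (vs_fst hq)
  · intro h
    have := hi _ hq2 _ hw h
    rw [← this] at hwX
    exact hwX (vs_snd hq)

/-- Counterexamples in the standard form.

Proof.  Let `v i` be the `i`-th element of `V` (`V.orderEmbOfFin rfl`, and `0` for `i ≥ V.card`), or
any injective enumeration.  Let `R = L.map (lab e v)`.
`fresh`: let `X ⊆ prs (range n)`, `p ∈ prs (range n)`, say `p.1 ∉ vs X` (the other case is the same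
with `IsE.symm`).  `X.image (lab e v) ⊆ ed e (V.erase (v p.1))`, so `IsK.leaf` and `RF.not_in` give
`K.r (insert (lab e v p) (X.image (lab e v))) = K.r (X.image (lab e v)) + 1`; `Lift` gives `≥` for
`L`, and `r_insert_le`.
`dep`: `lab_prs`, `(prs S).card = ((prs S).image (lab e v)).card` (`Finset.card_image_of_injOn`,
`lab_inj`), `(S.image v).card = s`.
`nou`: if `C`, `f` are given for `R` take `C' = C.image (lab e v)`, `f' = lab e v ∘ f` (injective and
not in `C'` by `lab_inj`; `Finset.image_union`, `Finset.image_image`); the image is in `ed e V` by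
`lab_prs` for `range n`. -/
theorem cex_of {L K : RF α} {e : ℕ → ℕ → α} {V : Finset ℕ} (hK : IsK K e V)
    (hL : Lift L K e V) {n s k : ℕ} (hn : n ≤ V.card)
    (hs : ∀ V0 ⊆ V, V0.card = s → L.r (ed e V0) < (ed e V0).card)
    (hu : ¬ HasM L (ed e V) (unif k)) :
    ∃ v : ℕ → ℕ, (∀ i < n, v i ∈ V) ∧ (∀ i < n, ∀ j < n, v i = v j → i = j) ∧
      Cex (L.map (lab e v)) n s k := by
  classical
  obtain ⟨v, hv, hi⟩ : ∃ v : ℕ → ℕ, (∀ i < n, v i ∈ V) ∧
      (∀ i < n, ∀ j < n, v i = v j → i = j) := by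
    refine ⟨fun i => if h : i < V.card then V.orderEmbOfFin rfl ⟨i, h⟩ else 0, ?_, ?_⟩
    · intro i hin
      have h1 : i < V.card := lt_of_lt_of_le hin hn
      simp only [h1, dif_pos]
      exact Finset.orderEmbOfFin_mem V rfl _
    · intro i hin j hjn h
      have h1 : i < V.card := lt_of_lt_of_le hin hn
      have h2 : j < V.card := lt_of_lt_of_le hjn hn
      simp only [h1, h2, dif_pos] at h
      have h3 := (V.orderEmbOfFin rfl).injective h
      exact congrArg Fin.val h3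
  refine ⟨v, hv, hi, ?_, ?_, ?_⟩
  · intro X hX p hp hpX
    rw [RF.map_r, RF.map_r, Finset.image_insert]
    obtain ⟨hp1, hp2, hp3⟩ := mem_prs.1 hp
    rw [Finset.mem_range] at hp1 hp2
    have hne : v p.1 ≠ v p.2 := fun h => hp3.ne (hi _ hp1 _ hp2 h)
    have hnin : ¬ K.In (X.image (lab e v)) (lab e v p) := by
      rcases hpX with h | h
      · exact hK.leaf (hv _ hp1) (hv _ hp2) hne (lfCex_avoid hv hi hX hp1 h)
      · have h1 : lab e v p = e (v p.2) (v p.1) := hK.isE.symm _ (hv _ hp1) _ (hv _ hp2)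
        rw [h1]
        exact hK.leaf (hv _ hp2) (hv _ hp1) hne.symm (lfCex_avoid hv hi hX hp2 h)
    have h2 := K.not_in hnin
    have hsub : insert (lab e v p) (X.image (lab e v)) ⊆ ed e V := by
      refine Finset.insert_subset ?_ (lfCex_sub hK.isE hv hi hX)
      exact ed_mem (hv _ hp1) (hv _ hp2) hne
    have h3 := hL _ _ (Finset.subset_insert (lab e v p) (X.image (lab e v))) hsub
    have h4 := L.r_insert_le (lab e v p) (X.image (lab e v))
    omega
  · intro S hS hSc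
    have hSinj : Set.InjOn v (S : Set ℕ) := by
      intro i hi1 j hj1 h
      exact hi _ (Finset.mem_range.1 (hS hi1)) _ (Finset.mem_range.1 (hS hj1)) h
    have h1 : (prs S).card = ((prs S).image (lab e v)).card := by
      rw [Finset.card_image_of_injOn]
      intro p hp q hq h
      exact lab_inj hK.isE hv hi (prs_mono hS hp) (prs_mono hS hq) h
    rw [RF.map_r, h1, lab_prs hK.isE hv hi hS]
    refine hs _ ?_ ?_
    · intro a ha
      obtain ⟨i, hi1, rfl⟩ := Finset.mem_image.1 ha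
      exact hv _ (Finset.mem_range.1 (hS hi1))
    · rw [Finset.card_image_of_injOn hSinj, hSc]
  · rintro ⟨C, f, hC, hf, hfC, hr⟩
    apply hu
    have hsub : (prs (Finset.range n)).image (lab e v) ⊆ ed e V :=
      lfCex_sub hK.isE hv hi (Finset.Subset.refl _)
    have hfm : ∀ t, f t ∈ prs (Finset.range n) := fun t => (Finset.mem_sdiff.1 (hfC t)).1
    refine ⟨C.image (lab e v), fun t => lab e v (f t), (Finset.image_subset_image hC).trans hsub,
      ?_, ?_, ?_⟩
    · intro t t' h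
      exact hf (lab_inj hK.isE hv hi (hfm t) (hfm t') h)
    · intro t
      refine Finset.mem_sdiff.2 ⟨hsub (Finset.mem_image_of_mem _ (hfm t)), ?_⟩
      intro h
      obtain ⟨c, hc, hce⟩ := Finset.mem_image.1 h
      have h1 := lab_inj hK.isE hv hi (hC hc) (hfm t) hce
      rw [h1] at hc
      exact (Finset.mem_sdiff.1 (hfC t)).2 hc
    · intro J
      have h1 := hr J
      rw [RF.map_r, RF.map_r, Finset.image_union, Finset.image_image] at h1
      exact h1

end Pool.Agent.H.MP_60a1a2_co
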