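import Pool.Agent.H.MP_60a1a2_co.LfPCore
import Pool.Agent.H.MP_60a1a2_co.LfBip2
import Pool.Agent.H.MP_60a1a2_co.LfCex

/-! # Lifts of cliques: the combinatorial core -/

set_option autoImplicit false

namespace Pool.Agent.H.MP_60a1a2_co

theorem LfLTz_img {α : Type*} [DecidableEq α] (e : ℕ → ℕ → α) (v η : ℕ → ℕ) (p q w : ℕ) :
    (mp η (Finset.range p ×ˢ Finset.Ico w (w + q))).image (lab e v) =
      bp e (fun i => v (η i)) (fun j => v (η (w + j))) p q := by
  ext x
  rw [Finset.mem_image, mem_bp]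
  constructor
  · rintro ⟨y, hy, rfl⟩
    obtain ⟨z, hz, h1, h2⟩ := mem_mp.1 hy
    rw [Finset.mem_product, Finset.mem_range, Finset.mem_Ico] at hz
    refine ⟨z.1, hz.1, z.2 - w, by omega, ?_⟩
    have h3 : w + (z.2 - w) = z.2 := by omega
    show e (v (η z.1)) (v (η (w + (z.2 - w)))) = e (v y.1) (v y.2)
    rw [h3, h1, h2]
  · rintro ⟨i, hi, j, hj, rfl⟩
    refine ⟨(η i, η (w + j)), mem_mp.2 ⟨(i, w + j), ?_, rfl, rfl⟩, rfl⟩
    rw [Finset.mem_product, Finset.mem_range, Finset.mem_Ico]
    exact ⟨hi, Nat.le_add_right w j, Nat.add_lt_add_left hj w⟩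

/-- If `L` is a lift of the cycle matroid of a large complete graph in which the edges of every
`s` vertices are dependent, then `L` has a uniform minor or the contraction of some set `F` gives
a clique, whose rank together with `F` in `K` is much larger than the rank of `F` in `L`.

Proof.  Otherwise (`by_contra`, `push_neg`, `choose`) for every `n` there are `α n`, `L n`, `K n`, `e n`,
`V n` with `n ≤ (V n).card` without the conclusion.  `cex_of` gives `v n` and
`Cex ((L n).map (lab (e n) (v n))) n s k` for all `n`.  `pair_core` gives `g`, `h`; apply it with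
`N = m + (g + 1) * (h + 1)` and get `n`, `η`.  Let `a i = v n (η i)`,
`b j = v n (η (g + 1 + N + j))`; `BOK (V n) a b (g + 1 + N) (h + 1 + N)` by injectivity.  The images of
`mp η (rect (g + 1 + N) (h + 1 + N))` and of
`mp η (range (g + 1) ×ˢ Ico (g + 1 + N) (g + 1 + N + (h + 1)))` under `lab (e n) (v n)` are
`bp (e n) a b (g + 1 + N) (h + 1 + N)` and `bp (e n) a b (g + 1) (h + 1)`.  `bip_clique` gives the
second alternative, a contradiction. -/
theorem lt0.{u} (k s m : ℕ) : ∃ a0 : ℕ, ∀ {α : Type u} [DecidableEq α] (L K : RF α)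
    (e : ℕ → ℕ → α) (V : Finset ℕ), IsK K e V → a0 ≤ V.card → Lift L K e V →
    (∀ V0 ⊆ V, V0.card = s → L.r (ed e V0) < (ed e V0).card) →
    HasM L (ed e V) (unif k) ∨ ∃ (F : Finset α) (V' : Finset ℕ) (e' : ℕ → ℕ → α),
      F ∪ ed e' V' ⊆ ed e V ∧ Disjoint F (ed e' V') ∧ m ≤ V'.card ∧ IsK (L.con F) e' V' ∧
      L.r F + m ≤ K.r (F ∪ ed e' V') := by
  by_contra hcon
  have key : ∀ n : ℕ, ∃ R : RF (ℕ × ℕ), Cex R n s k ∧ ∀ (g h N : ℕ) (η : ℕ → ℕ),
      StrictMono η → (∀ i < g + 1 + N + (h + 1 + N), η i < n) →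
      m + (g + 1) * (h + 1) ≤ N →
      ¬ (R.r (mp η (rect (g + 1 + N) (h + 1 + N))) ≤
        R.r (mp η (Finset.range (g + 1) ×ˢ
          Finset.Ico (g + 1 + N) (g + 1 + N + (h + 1)))) + 2 * N) := by
    intro n
    by_contra hn
    apply hcon
    refine ⟨n, ?_⟩
    intro α _ L K e V hK hV hL hs
    by_contra hnot
    rw [not_or] at hnot
    obtain ⟨hu, hF⟩ := hnot
    obtain ⟨v, hv, hvi, hC⟩ := cex_of hK hL hV hs hu
    apply hn
    refine ⟨L.map (lab e v), hC, ?_⟩
    intro g h N η hη hlt hN hr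
    apply hF
    have hinj : ∀ i < g + 1 + N + (h + 1 + N), ∀ j < g + 1 + N + (h + 1 + N),
        v (η i) = v (η j) → i = j := fun i hi j hj hij =>
      hη.injective (hvi _ (hlt i hi) _ (hlt j hj) hij)
    have hb : BOK V (fun i => v (η i)) (fun j => v (η (g + 1 + N + j)))
        (g + 1 + N) (h + 1 + N) := by
      refine ⟨?_, ?_, ?_, ?_, ?_⟩
      · intro i hi
        exact hv _ (hlt i (by omega))
      · intro j hj
        exact hv _ (hlt _ (by omega))
      · intro i hi i' hi' hii
        exact hinj i (by omega) i' (by omega) hii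
      · intro j hj j' hj' hjj
        have := hinj (g + 1 + N + j) (by omega) (g + 1 + N + j') (by omega) hjj
        omega
      · intro i hi j hj hij
        have := hinj i (by omega) (g + 1 + N + j) (by omega) hij
        omega
    rw [RF.map_r, RF.map_r, rect, LfLTz_img, LfLTz_img] at hr
    exact bip_clique hK hL hb hN hr
  choose R hR hR2 using key
  obtain ⟨g, h, hgh⟩ := pair_core hR
  obtain ⟨n, η, hη, hlt, hle⟩ := hgh (m + (g + 1) * (h + 1))
  exact hR2 n g h _ η hη hlt le_rfl hle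

end Pool.Agent.H.MP_60a1a2_co
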