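import Pool.Agent.H.MP_60a1a2_co.LfAc
import Pool.Agent.H.MP_60a1a2_co.LfLTz

/-! # The relative lift theorem

The coclique is only required to be non-free over the contraction set `D2 \ C1`. -/

set_option autoImplicit false

namespace Pool.Agent.H.MP_60a1a2_co

/-- removing a set from the second set -/
theorem kap_rm {α : Type*} [DecidableEq α] {M : RF α} {E A F B : Finset α} {m : ℕ}
    (hA : Disjoint A F) (hk : Kap M E A (F ∪ B) (F.card + m)) : Kap M E A B m := by
  intro X hX hXE hXB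
  have h1 := hk (X \ F) (by
      intro x hx
      rw [Finset.mem_sdiff]
      exact ⟨hX hx, fun h => Finset.disjoint_left.1 hA hx h⟩)
    (Finset.sdiff_subset.trans hXE) (by
      rw [Finset.disjoint_left]
      intro x hx hx2
      rw [Finset.mem_sdiff] at hx
      rcases Finset.mem_union.1 hx2 with h | h
      · exact hx.2 h
      · exact Finset.disjoint_left.1 hXB hx.1 h)
  have h2 : M.r (X \ F) ≤ M.r X := M.mono Finset.sdiff_subset
  have h3 : E \ (X \ F) ⊆ (E \ X) ∪ F := by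
    intro x
    simp only [Finset.mem_sdiff, Finset.mem_union]
    tauto
  have h4 := (M.mono h3).trans (M.r_union_le_card (E \ X) F)
  omega

/-- The relative lift theorem. -/
theorem g_main.{u} (k s : ℕ) : ∃ n : ℕ, ∀ {α : Type u} [DecidableEq α] (M : RF α)
    (E C1 C2 : Finset α) (e1 : ℕ → ℕ → α) (V : Finset ℕ) (e2 : ℕ → ℕ → α) (W : Finset ℕ),
    Conf M E C1 C2 e1 V e2 W n → n ≤ V.card →
    (∀ W0 ⊆ W, W0.card = s →
      ((M.dual E).con (((E \ C2) \ ed e2 W) \ C1)).r (ed e2 W0) < (ed e2 W0).card) →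
    Fin2 M E k := by
  obtain ⟨w, hw⟩ := main3.{u} k
  obtain ⟨m, hm⟩ : ∃ m, m = 4 * w * w + w + (w + 1) := ⟨_, rfl⟩
  obtain ⟨a0, ha0⟩ := lt0.{u} k s m
  obtain ⟨n0, hn0⟩ := hw (max w ((w + 1) * (w + 1)) + a0 * a0)
  refine ⟨n0 + a0 + (4 * (a0 * a0 + m) * (a0 * a0 + m) + (a0 * a0 + m)), ?_⟩
  intro α _ M E C1 C2 e1 V e2 W hconf hV hs
  obtain ⟨D2, hD2⟩ : ∃ D2, D2 = (E \ C2) \ ed e2 W := ⟨_, rfl⟩
  obtain ⟨L, hLdef⟩ : ∃ L, L = (M.dual E).con (D2 \ C1) := ⟨_, rfl⟩
  obtain ⟨K, hKdef⟩ : ∃ K, K = (M.dual E).con D2 := ⟨_, rfl⟩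
  rw [← hD2] at hs
  rw [← hLdef] at hs
  have hW := hconf.cardW
  have hedE : ed e2 W ⊆ E := hconf.hE2.trans Finset.sdiff_subset
  have hD2E : D2 ⊆ E := by
    rw [hD2]
    exact Finset.sdiff_subset.trans Finset.sdiff_subset
  have hKeq : ∀ X ⊆ ed e2 W, K.r X = ((M.con C2).dual (ed e2 W)).r X := by
    intro X hX
    rw [hKdef, hD2, M.dual_con hconf.hC2 hconf.hE2 hX]
  have hKK : IsK K e2 W := hconf.cocl.congr hKeq
  have hLift : Lift L K e2 W := by
    have h1 := lift_con (M.dual E) (D2 \ C1) (D2 ∩ C1) e2 W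
    have h2 : (D2 \ C1) ∪ (D2 ∩ C1) = D2 := by
      ext x
      simp only [Finset.mem_union, Finset.mem_sdiff, Finset.mem_inter]
      tauto
    rw [h2, ← hLdef, ← hKdef] at h1
    exact h1
  obtain ⟨W0, hW0, hW0c⟩ := Finset.exists_subset_card_eq (show a0 ≤ W.card by omega)
  have hdD2 : Disjoint (ed e2 W) D2 := by
    rw [hD2]
    exact Finset.disjoint_sdiff
  rcases ha0 L K e2 W0 (hKK.sub hW0) (by omega)
    (fun X Y hXY hY => hLift X Y hXY (hY.trans (ed_mono hW0)))
    (fun W1 hW1 hc => hs W1 (hW1.trans hW0) hc) with h | h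
  · apply Fin2.of_unif
    have h1 : HasM (M.dual E) E (unif k) := by
      rw [hLdef] at h
      refine HasM.of_con (Finset.sdiff_subset.trans hD2E) ?_ h
      intro x hx
      have hx' := ed_mono hW0 hx
      rw [Finset.mem_sdiff, Finset.mem_sdiff]
      exact ⟨hedE hx', fun h2 => Finset.disjoint_left.1 hdD2 hx' h2.1⟩
    exact HasM.unif_dual (Finset.Subset.refl E) h1
  obtain ⟨F, V', e', hsub, hdis, hmc, hKF, hrk⟩ := h
  obtain ⟨F0, hF0, hF0i, hF0c⟩ := L.exists_basis F
  have hLin : ∀ x ∈ F, L.In F0 x := fun x hx => L.in_of_r_eq hF0 (by omega) hx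
  have hKin : ∀ x ∈ F, K.In F0 x := by
    intro x hx
    have h1 : insert x F0 ⊆ ed e2 W := by
      intro y hy
      rcases Finset.mem_insert.1 hy with rfl | hy
      · exact ed_mono hW0 (hsub (Finset.mem_union_left _ hx))
      · exact ed_mono hW0 (hsub (Finset.mem_union_left _ (hF0 hy)))
    have h2 := hLift F0 (insert x F0) (Finset.subset_insert _ _) h1
    have h3 := hLin x hx
    have h4 : K.r F0 ≤ K.r (insert x F0) := K.mono (Finset.subset_insert _ _)
    unfold RF.In at h3 ⊢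
    omega
  have hFW0 : F ⊆ ed e2 W0 := Finset.subset_union_left.trans hsub
  have hEW0 : ed e' V' ⊆ ed e2 W0 := Finset.subset_union_right.trans hsub
  have hFW : F ⊆ ed e2 W := hFW0.trans (ed_mono hW0)
  have hEW : ed e' V' ⊆ ed e2 W := hEW0.trans (ed_mono hW0)
  have hF0W : F0 ⊆ ed e2 W := hF0.trans hFW
  have hF0card : F0.card ≤ a0 * a0 := by
    have h1 := Finset.card_le_card (hF0.trans hFW0)
    have h2 := ed_card_le e2 W0
    rw [hW0c] at h2
    omega
  have hLF0 : IsK (L.con F0) e' V' := by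
    refine hKF.congr ?_
    intro X hX
    have h1 := L.con_add F X
    have h2 := L.con_add F0 X
    have h3 : L.r (X ∪ F) = L.r (X ∪ F0) := by
      refine L.r_eq_of_in (Finset.union_subset_union_right hF0) ?_
      intro y hy
      rcases Finset.mem_union.1 hy with hy | hy
      · exact L.in_of_mem (Finset.mem_union_left _ hy)
      · exact L.in_mono (hLin y hy) Finset.subset_union_right
    omega
  have hKF0 : K.r (F0 ∪ ed e' V') = K.r (F ∪ ed e' V') := by
    refine (K.r_eq_of_in (Finset.union_subset_union_left hF0) ?_).symm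
    intro y hy
    rcases Finset.mem_union.1 hy with hy | hy
    · exact K.in_mono (hKin y hy) Finset.subset_union_left
    · exact K.in_of_mem (Finset.mem_union_right _ hy)
  have hF0dis : Disjoint F0 (ed e' V') := Finset.disjoint_of_subset_left hF0 hdis
  -- the new cocliques
  have hcocl : ∀ W2 ⊆ V', IsK ((M.con (((E \ (D2 \ C1)) \ F0) \ ed e' W2)).dual (ed e' W2)) e' W2 := by
    intro W2 hW2
    refine (hLF0.sub hW2).congr ?_
    intro X hX
    have hW2W : ed e' W2 ⊆ ed e2 W := (ed_mono hW2).trans hEW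
    rw [M.dual_con (E := E) (Finset.sdiff_subset.trans (Finset.sdiff_subset.trans
      Finset.sdiff_subset)) (by
        intro x hx
        rw [Finset.mem_sdiff]
        exact ⟨hedE (hW2W hx), fun h => (Finset.mem_sdiff.1 h).2 hx⟩) hX]
    rw [hLdef, (M.dual E).con_con_eq]
    congr 2
    ext x
    simp only [Finset.mem_sdiff, Finset.mem_union]
    have q1 := @hD2E x
    have q2 : x ∈ F0 → x ∈ E := fun h => hedE (hF0W h)
    have q3 : x ∈ F0 → x ∉ ed e' W2 := fun h h2 =>
      Finset.disjoint_left.1 hF0dis h (ed_mono hW2 h2)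
    have q4 : x ∈ ed e' W2 → x ∉ D2 := fun h h2 => Finset.disjoint_left.1 hdD2 (hW2W h) h2
    tauto
  obtain ⟨W2, hW2, hW2c⟩ := Finset.exists_subset_card_eq (show w + 1 ≤ V'.card by omega)
  obtain ⟨C', hC'⟩ : ∃ C', C' = ((E \ (D2 \ C1)) \ F0) \ ed e' W2 := ⟨_, rfl⟩
  have hK2 := hcocl W2 hW2
  rw [← hC'] at hK2
  have hK3 := hcocl V' (Finset.Subset.refl _)
  have hW2W : ed e' W2 ⊆ ed e2 W := (ed_mono hW2).trans hEW
  have hV'ne : V'.Nonempty := by
    rw [← Finset.card_pos]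
    omega
  have hW2ne : W2.Nonempty := by
    rw [← Finset.card_pos]
    omega
  have hE1d : Disjoint (ed e1 V) (ed e2 W) := hconf.dsj
  -- connectivity
  have kap1 : Kap M E (ed e1 V) (F0 ∪ ed e' V') (F0.card + m) := by
    refine kap_sub_dual hconf.hC2 hconf.hE2 hconf.cocl hconf.dsj hconf.kap
      (Finset.union_subset hF0W hEW) ?_ ?_
    · rw [← hKeq _ (Finset.union_subset hF0W hEW), hKF0]
      omega
    · have h1 : F0.card + m ≤ a0 * a0 + m := by omega
      have h2 : 4 * (F0.card + m) * (F0.card + m) ≤ 4 * (a0 * a0 + m) * (a0 * a0 + m) :=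
        Nat.mul_le_mul (Nat.mul_le_mul_left 4 h1) h1
      omega
  have kap2 : Kap M E (ed e1 V) (ed e' V') m := by
    refine kap_rm (F := F0) ?_ kap1
    exact Finset.disjoint_of_subset_right hF0W hE1d
  have hkap : Kap M E (ed e1 V) (ed e' W2) w := by
    refine kap_sub_dual (Finset.sdiff_subset.trans (Finset.sdiff_subset.trans
      Finset.sdiff_subset)) ?_ hK3 (Finset.disjoint_of_subset_right hEW hE1d) kap2 (ed_mono hW2)
      ?_ (by omega)
    · intro x hx
      rw [Finset.mem_sdiff]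
      exact ⟨hedE (hEW hx), fun h => (Finset.mem_sdiff.1 h).2 hx⟩
    · have h1 := (hK3.sub hW2).rank hW2ne
      omega
  have hcl : ∀ x ∈ C1, M.In C' x ∨ x ∈ F0 ∪ ed e' W2 := by
    intro x hx
    by_cases h1 : x ∈ F0 ∪ ed e' W2
    · exact Or.inr h1
    · left
      apply M.in_of_mem
      rw [hC']
      rw [Finset.mem_union, not_or] at h1
      simp only [Finset.mem_sdiff]
      exact ⟨⟨⟨hconf.hC1 hx, fun h => h.2 hx⟩, h1.1⟩, h1.2⟩
  have hE2W2 : ed e' W2 ⊆ E := hW2W.trans hedE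
  have hd2 : Disjoint (ed e1 V) (ed e' W2) := Finset.disjoint_of_subset_right hW2W hE1d
  obtain ⟨Z, hZ, hZin, hZk, hZr⟩ := ac_step hconf.hC1 hconf.hE1 hconf.clq hE2W2 hd2 hcl hkap
  have hZC1 : Z ⊆ C1 := hZ.trans Finset.sdiff_subset
  have hZE : Z ⊆ E := hZC1.trans hconf.hC1
  have hC'E : C' ⊆ E := by
    rw [hC']
    exact Finset.sdiff_subset.trans (Finset.sdiff_subset.trans Finset.sdiff_subset)
  have hcon : Conf (M.con Z) (E \ Z) (C1 \ Z) (C' \ Z) e1 V e' W2 w := by
    refine ⟨?_, ?_, ?_, ?_, ?_, ?_, hd2, hZk, by omega⟩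
    · exact Finset.sdiff_subset_sdiff hconf.hC1 (Finset.Subset.refl _)
    · intro a ha
      have h1 := Finset.mem_sdiff.1 (hconf.hE1 ha)
      simp only [Finset.mem_sdiff]
      exact ⟨⟨h1.1, fun h => h1.2 (hZC1 h)⟩, fun h => h1.2 h.1⟩
    · rw [M.con_con_eq, Finset.union_sdiff_of_subset hZC1]
      exact hconf.clq
    · exact Finset.sdiff_subset_sdiff hC'E (Finset.Subset.refl _)
    · intro a ha
      simp only [Finset.mem_sdiff]
      refine ⟨⟨hE2W2 ha, fun h => (Finset.mem_sdiff.1 (hZ h)).2 ha⟩, fun h => ?_⟩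
      rw [hC'] at h
      exact (Finset.mem_sdiff.1 h.1).2 ha
    · rw [M.con_con_eq, Finset.union_sdiff_self_eq_union, Finset.union_comm,
        LfAc_con_eq M hZin]
      exact hK2
  have hcard : (ed e' W2).card ≤ (w + 1) * (w + 1) := by
    have := ed_card_le e' W2
    rwa [hW2c] at this
  have hfin := hn0 (M.con Z) (E \ Z) (C1 \ Z) (C' \ Z) e1 V e' W2 hcon (by omega) (by
    refine hZr.trans ?_
    have : max w (ed e' W2).card ≤ max w ((w + 1) * (w + 1)) := max_le_max le_rfl hcard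
    omega)
  exact Fin2.of_con hZE hfin

end Pool.Agent.H.MP_60a1a2_co
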