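import Pool.Agent.H.MP_60a1a2_co.LfBd

/-! # Sharp forms: nested contraction sets and small connectivity -/

set_option autoImplicit false

namespace Pool.Agent.H.MP_60a1a2_co

/-- The theorem if the clique has large rank over `C1 ∪ C2 ∪ ed e2 W`. -/
theorem nstar_main.{u} (k : ℕ) : ∃ n : ℕ, ∀ {α : Type u} [DecidableEq α] (M : RF α)
    (E C1 C2 : Finset α) (e1 : ℕ → ℕ → α) (V : Finset ℕ) (e2 : ℕ → ℕ → α) (W : Finset ℕ),
    Conf M E C1 C2 e1 V e2 W n → n ≤ (M.con (C1 ∪ C2 ∪ ed e2 W)).r (ed e1 V) →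
    Fin2 M E k := by
  obtain ⟨n0, hn0⟩ := nested0.{u} k
  refine ⟨(4 * n0 * n0 + n0) + n0 + 1, ?_⟩
  intro α _ M E C1 C2 e1 V e2 W h hr
  obtain ⟨A, hA⟩ : ∃ A, A = C1 ∪ C2 ∪ ed e2 W := ⟨_, rfl⟩
  rw [← hA] at hr
  have hE1 : ed e1 V ⊆ E := h.hE1.trans Finset.sdiff_subset
  have hE2 : ed e2 W ⊆ E := h.hE2.trans Finset.sdiff_subset
  have hAE : A ⊆ E := by
    rw [hA]
    exact Finset.union_subset (Finset.union_subset h.hC1 h.hC2) hE2
  have hVne : V.Nonempty := by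
    by_contra hcon
    rw [Finset.not_nonempty_iff_eq_empty] at hcon
    subst hcon
    have h1 : ed e1 (∅ : Finset ℕ) = ∅ := by simp [ed]
    rw [h1, RF.r_empty] at hr
    omega
  have hKr := h.clq.rank hVne
  have hl : Lift (M.con C1) (M.con A) e1 V := by
    have h1 := lift_con M C1 (C2 ∪ ed e2 W) e1 V
    rw [← Finset.union_assoc, ← hA] at h1
    exact h1
  obtain ⟨V1, hV1, hV1c, hQ⟩ : ∃ V1 ⊆ V,
      V.card ≤ V1.card + ((M.con C1).r (ed e1 V) - (M.con A).r (ed e1 V)) ∧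
      IsK (M.con A) e1 V1 := quot_clique h.clq hl (by omega)
  have hl2 := hl ∅ (ed e1 V) (Finset.empty_subset _) (Finset.Subset.refl _)
  rw [RF.r_empty, RF.r_empty] at hl2
  have hK1 : IsK (M.con C1) e1 V1 := h.clq.sub hV1
  have hV1ne : V1.Nonempty := by
    rw [← Finset.card_pos]
    omega
  have r1 := hK1.rank hV1ne
  have k1 : Kap M E (ed e1 V1) (ed e2 W) n0 :=
    kap_sub h.hC1 h.hE1 h.clq h.dsj h.kap (ed_mono hV1) (by omega) (by omega)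
  have hdisj := ed_disj_con hQ
  have hcW := h.cardW
  refine hn0 M E A C2 e1 V1 e2 W hAE ?_ hQ ?_ ?_ h.cocl k1 (by omega) (by omega)
  · intro x hx
    exact Finset.mem_sdiff.2 ⟨hE1 (ed_mono hV1 hx), Finset.disjoint_left.1 hdisj hx⟩
  · rw [hA]
    intro x hx
    exact Finset.mem_union_left _ (Finset.mem_union_right _ hx)
  · rw [hA]
    intro x hx
    exact Finset.mem_sdiff.2 ⟨Finset.mem_union_right _ hx, (Finset.mem_sdiff.1 (h.hE2 hx)).2⟩

/-- The theorem for connectivity less than the sizes of the cliques.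

Proof.  `n0` from `nested0 k`, `B = 4 * n0 * n0 + n0`, `w0 = 4 * B * B + B`; for `w` let
`n = w0 + w + 1 + B + n0`.  Let `X` be given, `Y = E \ X` (so `ed e2 W ⊆ Y`, `E \ Y = X`).
* `K = M.con C1`, `Q = M.con (C1 ∪ Y)`; `Lift K Q e1 V` (`lift_con`), `K.r (ed e1 V) ≤
  Q.r (ed e1 V) + w` by `conn_con` (`S = ed e1 V`, `C = C1`) and `con_add`.  `quot_clique` gives
  `V1 ⊆ V`, `V.card ≤ V1.card + w`, `IsK Q e1 V1`.
* `K' = (M.con C2).dual (ed e2 W)`, `Q' = (M.con (C2 \ X)).dual (ed e2 W)`.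
  `Lift (M.con (C2 \ X)) (M.con C2) e2 W` (`lift_con` with `D = C2 ∩ X`), so `Lift K' Q' e2 W`
  (`lift_dual`).  `K'.r (ed e2 W) ≤ Q'.r (ed e2 W) + w`: by `dual_add` this is
  `(M.con (C2 \ X)).r (ed e2 W) ≤ (M.con C2).r (ed e2 W) + w`; `conn_con` for `Y` instead of `X`,
  `S = ed e2 W`, `C = C2 \ X` gives
  `M.r (ed e2 W ∪ C) + M.r (C ∪ X) ≤ M.r (ed e2 W ∪ C ∪ X) + M.r C + w`, and `incr` for
  `C2 ⊆ C ∪ X` gives `M.r (ed e2 W ∪ (C ∪ X)) - M.r (C ∪ X) ≤ M.r (ed e2 W ∪ C2) - M.r C2`.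
  `quot_clique` gives `W1 ⊆ W`, `W.card ≤ W1.card + w`, `IsK Q' e2 W1`; `cocl_sub` gives
  `IsK ((M.con C').dual (ed e2 W1)) e2 W1` for `C' = (C2 \ X) ∪ (ed e2 W \ ed e2 W1) ⊆ Y`.
* `Kap M E (ed e1 V1) (ed e2 W) B` by `kap_sub` (rank `V1.card - 1 ≥ B` in `K`), then
  `Kap M E (ed e1 V1) (ed e2 W1) n0` by `kap_sub_dual` (rank `W1.card - 1 ≥ n0` in `K'`).
Apply `nested0` with `A = C1 ∪ Y` and `C'` (`ed e1 V1` is disjoint from `A` by `ed_disj_con`;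
`ed e2 W1 ⊆ Y`, disjoint from `C'`). -/
theorem bd_sharp.{u} (k : ℕ) : ∃ w0 : ℕ, ∀ {α : Type u} [DecidableEq α]
    (M : RF α) (E C1 C2 : Finset α) (e1 : ℕ → ℕ → α) (V : Finset ℕ) (e2 : ℕ → ℕ → α)
    (W : Finset ℕ) (w : ℕ), Conf M E C1 C2 e1 V e2 W w0 → w + w0 ≤ V.card → w + w0 ≤ W.card →
    (∃ X, ed e1 V ⊆ X ∧ X ⊆ E ∧ Disjoint X (ed e2 W) ∧ M.r X + M.r (E \ X) ≤ w + M.r E) →
    Fin2 M E k := by
  obtain ⟨n0, hn0⟩ := nested0.{u} k
  refine ⟨(4 * (4 * n0 * n0 + n0) * (4 * n0 * n0 + n0) + (4 * n0 * n0 + n0)) + 1 +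
      (4 * n0 * n0 + n0) + n0, ?_⟩
  intro α _ M E C1 C2 e1 V e2 W w h' hV hW ⟨X, hVX, hXE, hXW, hconn⟩
  have h : Conf M E C1 C2 e1 V e2 W
      (4 * (4 * n0 * n0 + n0) * (4 * n0 * n0 + n0) + (4 * n0 * n0 + n0)) :=
    ⟨h'.hC1, h'.hE1, h'.clq, h'.hC2, h'.hE2, h'.cocl, h'.dsj, Kap.le h'.kap (by omega),
      le_trans (by omega) h'.cardW⟩
  clear h'
  generalize hB : 4 * n0 * n0 + n0 = B at h hV hW
  generalize hw0 : 4 * B * B + B = w0 at h hV hW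
  have hE1 : ed e1 V ⊆ E := h.hE1.trans Finset.sdiff_subset
  have hE2 : ed e2 W ⊆ E := h.hE2.trans Finset.sdiff_subset
  have hWY : ed e2 W ⊆ E \ X := by
    intro x hx
    exact Finset.mem_sdiff.2 ⟨hE2 hx, fun hxX => (Finset.disjoint_left.1 hXW) hxX hx⟩
  have hYE : E \ X ⊆ E := Finset.sdiff_subset
  have hEY : E \ (E \ X) = X := Finset.sdiff_sdiff_eq_self hXE
  -- the first clique
  obtain ⟨V1, hV1, hV1c, hQ⟩ : ∃ V1 ⊆ V, V.card ≤ V1.card + w ∧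
      IsK (M.con (C1 ∪ (E \ X))) e1 V1 := by
    refine quot_clique h.clq (lift_con M C1 (E \ X) e1 V) ?_
    have c1 := conn_con hXE hVX h.hC1 hconn
    have c2 := M.con_add C1 (ed e1 V)
    have c3 := M.con_add (C1 ∪ (E \ X)) (ed e1 V)
    rw [← Finset.union_assoc] at c3
    omega
  -- the second clique
  have hC'E : C2 \ X ⊆ E := Finset.sdiff_subset.trans h.hC2
  have hsplit : (C2 \ X) ∪ (C2 ∩ X) = C2 := by
    ext a
    simp only [Finset.mem_union, Finset.mem_inter, Finset.mem_sdiff]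
    tauto
  obtain ⟨W1, hW1, hW1c, hQ'⟩ : ∃ W1 ⊆ W, W.card ≤ W1.card + w ∧
      IsK ((M.con (C2 \ X)).dual (ed e2 W)) e2 W1 := by
    have hl := lift_con M (C2 \ X) (C2 ∩ X) e2 W
    rw [hsplit] at hl
    refine quot_clique h.cocl (lift_dual hl) ?_
    have hconn' : M.r (E \ X) + M.r (E \ (E \ X)) ≤ w + M.r E := by
      rw [hEY]
      omega
    have c1 := conn_con hYE hWY hC'E hconn'
    rw [hEY] at c1
    have hsub : C2 ⊆ (C2 \ X) ∪ X := by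
      intro a ha
      simp only [Finset.mem_union, Finset.mem_sdiff]
      tauto
    have c2 := M.incr hsub (ed e2 W)
    have c3 := M.con_add C2 (ed e2 W)
    have c4 := M.con_add (C2 \ X) (ed e2 W)
    have c5 := (M.con C2).dual_add (Finset.Subset.refl (ed e2 W))
    have c6 := (M.con (C2 \ X)).dual_add (Finset.Subset.refl (ed e2 W))
    rw [Finset.sdiff_self, RF.r_empty] at c5 c6
    have c7 : (C2 \ X) ∪ X ∪ ed e2 W = ed e2 W ∪ (C2 \ X) ∪ X := by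
      rw [Finset.union_comm, Finset.union_assoc]
    have c8 : C2 ∪ ed e2 W = ed e2 W ∪ C2 := Finset.union_comm _ _
    rw [c7, c8] at c2
    omega
  have hcc := cocl_sub (ed_mono hW1) hQ'
  -- connectivity
  have hK1 : IsK (M.con C1) e1 V1 := h.clq.sub hV1
  have hK2 : IsK ((M.con C2).dual (ed e2 W)) e2 W1 := h.cocl.sub hW1
  have hV1ne : V1.Nonempty := by
    rw [← Finset.card_pos]
    omega
  have hW1ne : W1.Nonempty := by
    rw [← Finset.card_pos]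
    omega
  have r1 := hK1.rank hV1ne
  have r2 := hK2.rank hW1ne
  have k1 : Kap M E (ed e1 V1) (ed e2 W) B :=
    kap_sub h.hC1 h.hE1 h.clq h.dsj h.kap (ed_mono hV1) (by omega) hw0.le
  have k2 : Kap M E (ed e1 V1) (ed e2 W1) n0 :=
    kap_sub_dual h.hC2 h.hE2 h.cocl (Finset.disjoint_of_subset_left (ed_mono hV1) h.dsj) k1
      (ed_mono hW1) (by omega) hB.le
  have hdisj := ed_disj_con hQ
  refine hn0 M E (C1 ∪ (E \ X)) ((C2 \ X) ∪ (ed e2 W \ ed e2 W1)) e1 V1 e2 W1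
    (Finset.union_subset h.hC1 hYE) ?_ hQ ?_ ?_ hcc k2 (by omega) (by omega)
  · intro x hx
    exact Finset.mem_sdiff.2 ⟨hE1 (ed_mono hV1 hx), Finset.disjoint_left.1 hdisj hx⟩
  · intro x hx
    rcases Finset.mem_union.1 hx with hx | hx
    · obtain ⟨h1, h2⟩ := Finset.mem_sdiff.1 hx
      exact Finset.mem_union_right _ (Finset.mem_sdiff.2 ⟨h.hC2 h1, h2⟩)
    · exact Finset.mem_union_right _ (hWY (Finset.mem_sdiff.1 hx).1)
  · intro x hx
    have hxW := ed_mono hW1 hx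
    refine Finset.mem_sdiff.2 ⟨Finset.mem_union_right _ (hWY hxW), ?_⟩
    intro hx2
    rcases Finset.mem_union.1 hx2 with hx2 | hx2
    · exact (Finset.mem_sdiff.1 (h.hE2 hxW)).2 (Finset.mem_sdiff.1 hx2).1
    · exact (Finset.mem_sdiff.1 hx2).2 hx

end Pool.Agent.H.MP_60a1a2_co
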