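import Pool.Agent.H.MP_60a1a2_co.LfMat
import Pool.Agent.H.MP_60a1a2_co.LfG
import Pool.Agent.H.MP_60a1a2_co.LfSharp

/-! # The new theorems for finite matroids -/

set_option autoImplicit false

namespace Pool.Agent.H.MP_60a1a2_co

open Matroid

/-- finite subsets of the ground set -/
theorem lf_fin {α : Type*} {M : Matroid α} (hfin : M.E.Finite) {S : Set α} (hS : S ⊆ M.E) :
    ∃ T : Finset α, (T : Set α) = S ∧ T ⊆ hfin.toFinset := by
  refine ⟨(hfin.subset hS).toFinset, Set.Finite.coe_toFinset _, ?_⟩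
  intro x hx
  rw [Set.Finite.mem_toFinset] at hx ⊢
  exact hS hx

theorem Interconnected.le {α : Type*} {M N N' : Matroid α} {n n' : ℕ}
    (h : Interconnected M N N' n) (hn : n' ≤ n) : Interconnected M N N' n' := by
  refine ⟨h.1, fun X hX hX' => le_trans ?_ (h.2 X hX hX')⟩
  gcongr

/-- the dual of a minor -/
theorem lf_dual {α : Type*} (M : Matroid α) {C D : Set α} (h : Disjoint C D) :
    (M ／ C ＼ D)✶ = M✶ ／ D ＼ C := by
  rw [Matroid.dual_contract_delete, ← Matroid.contract_delete_comm _ h.symm]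

open Classical in
/-- The conclusion for the matroid. -/
theorem lf_concl {α : Type*} {M : Matroid α} {E : Finset α}
    (hE : (E : Set α) = M.E) {k : ℕ} (h : Fin2 (rf M) E k ∨ Fin2 (rf M✶) E k) :
    HasUMinor M k ∨ ∃ (p : ℕ) (_ : Fact p.Prime), HasPGMinor M k p := by
  rcases h with h | h
  · exact concl hE h.1
  · exact concl hE (h.2 (rf M) (fun X hX => rf_dual M E X hE hX))

theorem Conf.le {α : Type*} [DecidableEq α] {M : RF α} {E C1 C2 : Finset α} {e1 : ℕ → ℕ → α}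
    {V : Finset ℕ} {e2 : ℕ → ℕ → α} {W : Finset ℕ} {n n' : ℕ} (h : Conf M E C1 C2 e1 V e2 W n)
    (hn : n' ≤ n) : Conf M E C1 C2 e1 V e2 W n' :=
  ⟨h.hC1, h.hE1, h.clq, h.hC2, h.hE2, h.cocl, h.dsj, Kap.le h.kap hn, hn.trans h.cardW⟩

/-- independence in a contraction of the dual -/
theorem lf_indep {α : Type*} [DecidableEq α] {M : Matroid α} {E : Finset α}
    (hE : (E : Set α) = M.E) {D I : Finset α} (hD : D ⊆ E) (hI : I ⊆ E \ D)
    (h : (((rf M).dual E).con D).r I = I.card) : (M✶ ／ (D : Set α)).Indep (I : Set α) := by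
  have hE' : (E : Set α) = M✶.E := hE
  rw [rf_indep, rf_contract M✶ E D I hE' hD hI]
  have h1 := ((rf M).dual E).con_add D I
  have h2 := (rf M✶).con_add D I
  rw [rf_dual M E _ hE hD, rf_dual M E _ hE (Finset.union_subset (hI.trans Finset.sdiff_subset) hD)]
    at h2
  omega

/-- The reduction to the free case: the conclusion of the question holds, or there are subcliques
whose edge sets are independent over `C₁ \ D₂` in `M` and over `D₂ \ C₁` in the dual of `M`. -/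
theorem final_free.{u} (k s : ℕ) : ∃ n : ℕ, ∀ a b : ℕ, n ≤ a → n ≤ b →
    ∀ {α : Type u} (M : Matroid α) (C₁ D₁ C₂ D₂ : Set α) [M.Finite], C₁ ⊆ M.E → D₁ ⊆ M.E →
    Disjoint C₁ D₁ → C₂ ⊆ M.E → D₂ ⊆ M.E → Disjoint C₂ D₂ →
    IsMK (M ／ C₁ ＼ D₁) a → IsMK (M ／ C₂ ＼ D₂)✶ b →
    Interconnected M (M ／ C₁ ＼ D₁) (M ／ C₂ ＼ D₂) n →
    (HasUMinor M k ∨ ∃ (p : ℕ) (_ : Fact p.Prime), HasPGMinor M k p) ∨
    ∃ N₁' N₂' : Matroid α, N₁' ≤r M ／ C₁ ＼ D₁ ∧ N₂'✶ ≤r (M ／ C₂ ＼ D₂)✶ ∧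
      IsMK N₁' (s + 1) ∧ IsMK N₂'✶ (s + 1) ∧ Interconnected M N₁' N₂' s ∧
      (M ／ (C₁ \ D₂)).Indep N₁'.E ∧ (M✶ ／ (D₂ \ C₁)).Indep N₂'.E := by
  classical
  obtain ⟨n0, hn0⟩ := g_main.{u} k (s + 1)
  refine ⟨n0 + 2 + (8 * s * s + s), ?_⟩
  intro a b ha hb α M C₁ D₁ C₂ D₂ _ hC1 hD1 hCD1 hC2 hD2 hCD2 hK1 hK2 hint
  by_cases hgoal : HasUMinor M k ∨ ∃ (p : ℕ) (_ : Fact p.Prime), HasPGMinor M k p
  · exact Or.inl hgoal
  right
  have hfin : M.E.Finite := M.ground_finite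
  have hE : (hfin.toFinset : Set α) = M.E := hfin.coe_toFinset
  obtain ⟨C1, rfl, hC1'⟩ := lf_fin hfin hC1
  obtain ⟨D1, rfl, hD1'⟩ := lf_fin hfin hD1
  obtain ⟨C2, rfl, hC2'⟩ := lf_fin hfin hC2
  obtain ⟨D2, rfl, hD2'⟩ := lf_fin hfin hD2
  set E := hfin.toFinset with hEdef
  obtain ⟨e1, e2, hconf, hed1, hed2, hMK1, hMK2, hr1, hr2⟩ := conf_of2 hE (D1 := D1) (D2 := D2)
    hC1' hC2' (n := n0 + 2 + (8 * s * s + s)) (a := a) (b := b) (by omega) (by omega) hb hK1 hK2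
    hint
  have hdint := hint.dual hfin (by
      intro x hx
      exact hx.1.1)
  have hE' : (E : Set α) = M✶.E := hE
  have e1' := lf_dual M hCD1
  have e2' := lf_dual M hCD2
  have hK1' : IsMK (M ／ (C1 : Set α) ＼ (D1 : Set α))✶✶ a := by
    rw [Matroid.dual_dual]
    exact hK1
  have hK2' := hK2
  rw [e2'] at hK2'
  rw [e1'] at hK1'
  rw [e1', e2'] at hdint
  obtain ⟨f1, f2, hconf', hfd1, hfd2, hMK3, hMK4, hr3, hr4⟩ := conf_of2 hE' (D1 := C2) (D2 := C1)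
    hD2' hD1' (n := n0 + 2 + (8 * s * s + s)) (a := b) (b := a) (by omega) (by omega) ha hK2' hK1'
    hdint
  have hCDf : Disjoint C2 D2 := by exact_mod_cast hCD2
  have hCDf1 : Disjoint C1 D1 := by exact_mod_cast hCD1
  have hg2 : ed e2 (Finset.range b) = (E \ C2) \ D2 := by
    apply Finset.coe_injective
    rw [hed2, Finset.coe_sdiff, Finset.coe_sdiff, hE]
    rfl
  have hg1 : ed f2 (Finset.range a) = (E \ D1) \ C1 := by
    apply Finset.coe_injective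
    rw [hfd2, Finset.coe_sdiff, Finset.coe_sdiff, hE]
    rfl
  have hDD2 : (E \ C2) \ ed e2 (Finset.range b) = D2 := by
    rw [hg2]
    ext x
    simp only [Finset.mem_sdiff]
    have q1 := @hD2' x
    have q2 : x ∈ C2 → x ∉ D2 := fun h => Finset.disjoint_left.1 hCDf h
    tauto
  have hDD1 : (E \ D1) \ ed f2 (Finset.range a) = C1 := by
    rw [hg1]
    ext x
    simp only [Finset.mem_sdiff]
    have q1 := @hC1' x
    have q2 : x ∈ C1 → x ∉ D1 := fun h => Finset.disjoint_left.1 hCDf1 h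
    tauto
  -- independent subcliques
  have hind2 : ∃ W0 ⊆ Finset.range b, W0.card = s + 1 ∧
      (((rf M).dual E).con (D2 \ C1)).r (ed e2 W0) = (ed e2 W0).card := by
    by_contra hcon
    push Not at hcon
    apply hgoal
    refine lf_concl hE (Or.inl (hn0 (rf M) E C1 C2 e1 _ e2 _ (hconf.le (by omega))
      (by rw [Finset.card_range]; omega) ?_))
    intro W0 hW0 hc
    rw [hDD2]
    exact lt_of_le_of_ne (RF.le_card _ _) (hcon W0 hW0 hc)
  have hind1 : ∃ V0 ⊆ Finset.range a, V0.card = s + 1 ∧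
      (((rf M✶).dual E).con (C1 \ D2)).r (ed f2 V0) = (ed f2 V0).card := by
    by_contra hcon
    push Not at hcon
    apply hgoal
    refine lf_concl hE (Or.inr (hn0 (rf M✶) E D2 D1 f1 _ f2 _ (hconf'.le (by omega))
      (by rw [Finset.card_range]; omega) ?_))
    intro W0 hW0 hc
    rw [hDD1]
    exact lt_of_le_of_ne (RF.le_card _ _) (hcon W0 hW0 hc)
  obtain ⟨V0, hV0, hVc, hVi⟩ := hind1
  obtain ⟨W0, hW0, hWc, hWi⟩ := hind2
  have hfe : ed f2 (Finset.range a) = ed e1 (Finset.range a) := by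
    apply Finset.coe_injective
    rw [hfd2, hed1, ← e1', Matroid.dual_ground]
  have hsV : ed f2 V0 ⊆ ed e1 (Finset.range a) := by
    rw [← hfe]
    exact ed_mono hV0
  have hsW : ed e2 W0 ⊆ ed e2 (Finset.range b) := ed_mono hW0
  have hVE : ed f2 V0 ⊆ E \ C1 := hsV.trans hconf.hE1
  have hWE : ed e2 W0 ⊆ E \ D2 := by
    intro x hx
    have h1 := hsW hx
    rw [hg2, Finset.mem_sdiff, Finset.mem_sdiff] at h1
    rw [Finset.mem_sdiff]
    exact ⟨h1.1.1, h1.2⟩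
  have hVK := (hconf'.cocl.sub hV0).rank (by rw [← Finset.card_pos]; omega)
  have hWK := (hconf.cocl.sub hW0).rank (by rw [← Finset.card_pos]; omega)
  have hVr : ((rf M).con C1).r (ed f2 V0) = s := by
    rw [hr1 _ hsV]
    rw [hr4 _ (ed_mono hV0), ← e1', Matroid.dual_dual] at hVK
    omega
  have hkap := kap_both hconf.hC1 hconf.hE1 hconf.clq hconf.hC2 hconf.hE2 hconf.cocl hconf.dsj
    (n := n0 + 2 + (8 * s * s + s)) hconf.kap hsV hsW (q := s) (by omega) (by omega) (by omega)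
  refine ⟨(M ／ (C1 : Set α) ＼ (D1 : Set α)).restrict ((ed f2 V0 : Finset α) : Set α),
    ((M ／ (C2 : Set α) ＼ (D2 : Set α))✶.restrict ((ed e2 W0 : Finset α) : Set α))✶, ?_, ?_, ?_, ?_,
    ?_, ?_, ?_⟩
  · have hR1 : ((ed f2 V0 : Finset α) : Set α) ⊆ (M ／ (C1 : Set α) ＼ (D1 : Set α)).E := by
      rw [← hed1]
      exact_mod_cast hsV
    exact Matroid.restrict_isRestriction _ _ hR1
  · have hR2 : ((ed e2 W0 : Finset α) : Set α) ⊆ (M ／ (C2 : Set α) ＼ (D2 : Set α))✶.E := by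
      rw [Matroid.dual_ground, ← hed2]
      exact_mod_cast hsW
    rw [Matroid.dual_dual]
    exact Matroid.restrict_isRestriction _ _ hR2
  · have h := hMK4 V0 hV0 (by omega)
    rw [← e1', Matroid.dual_dual, hVc] at h
    exact h
  · have h := hMK2 W0 hW0 (by omega)
    rw [hWc] at h
    rw [Matroid.dual_dual]
    exact h
  · have g1 : ((M ／ (C1 : Set α) ＼ (D1 : Set α)).restrict ((ed f2 V0 : Finset α) : Set α)).E =
        ((ed f2 V0 : Finset α) : Set α) := rfl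
    have g2 : ((M ／ (C2 : Set α) ＼ (D2 : Set α))✶.restrict ((ed e2 W0 : Finset α) : Set α))✶.E =
        ((ed e2 W0 : Finset α) : Set α) := rfl
    refine ⟨?_, ?_⟩
    · rw [g1, g2]
      exact_mod_cast Finset.disjoint_of_subset_left hsV
        (Finset.disjoint_of_subset_right hsW hconf.dsj)
    · intro X hX hX2
      rw [g1] at hX
      rw [g2] at hX2
      obtain ⟨Y, rfl, hYE⟩ := lf_fin hfin (hX2.trans Set.sdiff_subset)
      have h := hkap Y (by exact_mod_cast hX) hYE (by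
        rw [Finset.disjoint_left]
        intro x hx hx2
        exact (hX2 hx).2 hx2)
      rw [Matroid.eRank_def, ← hE, ← Finset.coe_sdiff, ← rf_coe, ← rf_coe, ← rf_coe]
      exact_mod_cast h
  · have g1 : ((M ／ (C1 : Set α) ＼ (D1 : Set α)).restrict ((ed f2 V0 : Finset α) : Set α)).E =
        ((ed f2 V0 : Finset α) : Set α) := rfl
    have h := lf_indep hE' (D := C1 \ D2) (I := ed f2 V0) (Finset.sdiff_subset.trans hC1') (by
      intro x hx
      have h1 := Finset.mem_sdiff.1 (hVE hx)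
      exact Finset.mem_sdiff.2 ⟨h1.1, fun h2 => h1.2 (Finset.mem_sdiff.1 h2).1⟩) hVi
    rw [Matroid.dual_dual, Finset.coe_sdiff] at h
    rw [g1]
    exact h
  · have g2 : ((M ／ (C2 : Set α) ＼ (D2 : Set α))✶.restrict ((ed e2 W0 : Finset α) : Set α))✶.E =
        ((ed e2 W0 : Finset α) : Set α) := rfl
    have h := lf_indep hE (D := D2 \ C1) (I := ed e2 W0) (Finset.sdiff_subset.trans hD2') (by
      intro x hx
      have h1 := Finset.mem_sdiff.1 (hWE hx)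
      exact Finset.mem_sdiff.2 ⟨h1.1, fun h2 => h1.2 (Finset.mem_sdiff.1 h2).1⟩) hWi
    rw [Finset.coe_sdiff] at h
    rw [g2]
    exact h

/-- Large rank over `C₁ ∪ C₂ ∪ E(N₂)`. -/
theorem final_nested.{u} (k : ℕ) : ∃ n : ℕ, ∀ a b : ℕ, n ≤ a → n ≤ b →
    ∀ {α : Type u} (M : Matroid α) (C₁ D₁ C₂ D₂ : Set α) [M.Finite], C₁ ⊆ M.E → D₁ ⊆ M.E →
    Disjoint C₁ D₁ → C₂ ⊆ M.E → D₂ ⊆ M.E → Disjoint C₂ D₂ →
    IsMK (M ／ C₁ ＼ D₁) a → IsMK (M ／ C₂ ＼ D₂)✶ b →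
    Interconnected M (M ／ C₁ ＼ D₁) (M ／ C₂ ＼ D₂) n →
    (M.eRk (C₁ ∪ (M.E \ D₂)) + n ≤ M.eRk ((M.E \ D₁) ∪ (M.E \ D₂)) ∨
      M✶.eRk (D₂ ∪ (M.E \ C₁)) + n ≤ M✶.eRk ((M.E \ C₂) ∪ (M.E \ C₁))) →
    HasUMinor M k ∨ ∃ (p : ℕ) (_ : Fact p.Prime), HasPGMinor M k p := by
  classical
  obtain ⟨n1, hn1⟩ := nstar_main.{u} k
  refine ⟨n1 + 2, ?_⟩
  intro a b ha hb α M C₁ D₁ C₂ D₂ _ hC1 hD1 hCD1 hC2 hD2 hCD2 hK1 hK2 hint hr
  have hfin : M.E.Finite := M.ground_finite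
  have hE : (hfin.toFinset : Set α) = M.E := hfin.coe_toFinset
  obtain ⟨C1, rfl, hC1'⟩ := lf_fin hfin hC1
  obtain ⟨D1, rfl, hD1'⟩ := lf_fin hfin hD1
  obtain ⟨C2, rfl, hC2'⟩ := lf_fin hfin hC2
  obtain ⟨D2, rfl, hD2'⟩ := lf_fin hfin hD2
  set E := hfin.toFinset with hEdef
  obtain ⟨e1, e2, hconf, hed1, hed2, -, -, -, -⟩ := conf_of2 hE (D1 := D1) (D2 := D2) hC1' hC2'
    (n := n1 + 2) (a := a) (b := b) (by omega) (by omega) hb hK1 hK2 hint
  have hdint := hint.dual hfin (by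
      intro x hx
      exact hx.1.1)
  have hE' : (E : Set α) = M✶.E := hE
  have e1' := lf_dual M hCD1
  have e2' := lf_dual M hCD2
  have hK1' : IsMK (M ／ (C1 : Set α) ＼ (D1 : Set α))✶✶ a := by
    rw [Matroid.dual_dual]
    exact hK1
  have hK2' := hK2
  rw [e2'] at hK2'
  rw [e1'] at hK1'
  rw [e1', e2'] at hdint
  obtain ⟨f1, f2, hconf', hfd1, hfd2, -, -, -, -⟩ := conf_of2 hE' (D1 := C2) (D2 := C1) hD2' hD1'
    (n := n1 + 2) (a := b) (b := a) (by omega) (by omega) ha hK2' hK1' hdint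
  have hg2 : ed e2 (Finset.range b) = (E \ C2) \ D2 := by
    apply Finset.coe_injective
    rw [hed2, Finset.coe_sdiff, Finset.coe_sdiff, hE]
    rfl
  have hg1 : ed f2 (Finset.range a) = (E \ D1) \ C1 := by
    apply Finset.coe_injective
    rw [hfd2, Finset.coe_sdiff, Finset.coe_sdiff, hE]
    rfl
  have hg3 : ed e1 (Finset.range a) = (E \ C1) \ D1 := by
    apply Finset.coe_injective
    rw [hed1, Finset.coe_sdiff, Finset.coe_sdiff, hE]
    rfl
  have hg4 : ed f1 (Finset.range b) = (E \ D2) \ C2 := by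
    apply Finset.coe_injective
    rw [hfd1, Finset.coe_sdiff, Finset.coe_sdiff, hE]
    rfl
  have hCDf : Disjoint C2 D2 := by exact_mod_cast hCD2
  have hCDf1 : Disjoint C1 D1 := by exact_mod_cast hCD1
  have s3 : C1 ∪ C2 ∪ ed e2 (Finset.range b) = C1 ∪ (E \ D2) := by
    rw [hg2]
    ext x
    simp only [Finset.mem_union, Finset.mem_sdiff]
    have q1 := @hC2' x
    have q2 : x ∈ C2 → x ∉ D2 := fun h => Finset.disjoint_left.1 hCDf h
    tauto
  have s4 : D2 ∪ D1 ∪ ed f2 (Finset.range a) = D2 ∪ (E \ C1) := by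
    rw [hg1]
    ext x
    simp only [Finset.mem_union, Finset.mem_sdiff]
    have q1 := @hD1' x
    have q2 : x ∈ C1 → x ∉ D1 := fun h => Finset.disjoint_left.1 hCDf1 h
    tauto
  have s5 : ed e1 (Finset.range a) ∪ (C1 ∪ (E \ D2)) = (E \ D1) ∪ (E \ D2) := by
    rw [hg3]
    ext x
    simp only [Finset.mem_union, Finset.mem_sdiff]
    have q1 := @hC1' x
    have q2 : x ∈ C1 → x ∉ D1 := fun h => Finset.disjoint_left.1 hCDf1 h
    tauto
  have s6 : ed f1 (Finset.range b) ∪ (D2 ∪ (E \ C1)) = (E \ C2) ∪ (E \ C1) := by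
    rw [hg4]
    ext x
    simp only [Finset.mem_union, Finset.mem_sdiff]
    have q1 := @hD2' x
    have q2 : x ∈ C2 → x ∉ D2 := fun h => Finset.disjoint_left.1 hCDf h
    tauto
  rcases hr with hr | hr
  · refine lf_concl hE (Or.inl (hn1 (rf M) E C1 C2 e1 _ e2 _ (hconf.le (by omega)) ?_))
    have h1 := (rf M).con_add (C1 ∪ (E \ D2)) (ed e1 (Finset.range a))
    rw [s5] at h1
    rw [s3]
    rw [← hE, ← Finset.coe_sdiff, ← Finset.coe_sdiff, ← Finset.coe_union, ← Finset.coe_union,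
      ← rf_coe, ← rf_coe] at hr
    have h2 : (rf M).r (C1 ∪ (E \ D2)) + (n1 + 2) ≤ (rf M).r ((E \ D1) ∪ (E \ D2)) := by
      exact_mod_cast hr
    omega
  · refine lf_concl hE (Or.inr (hn1 (rf M✶) E D2 D1 f1 _ f2 _ (hconf'.le (by omega)) ?_))
    have h1 := (rf M✶).con_add (D2 ∪ (E \ C1)) (ed f1 (Finset.range b))
    rw [s6] at h1
    rw [s4]
    rw [← hE, ← Finset.coe_sdiff, ← Finset.coe_sdiff, ← Finset.coe_union, ← Finset.coe_union,
      ← rf_coe, ← rf_coe] at hr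
    have h2 : (rf M✶).r (D2 ∪ (E \ C1)) + (n1 + 2) ≤ (rf M✶).r ((E \ C2) ∪ (E \ C1)) := by
      exact_mod_cast hr
    omega

/-- Connectivity smaller than the sizes of the cliques. -/
theorem final_conn.{u} (k : ℕ) : ∃ w₀ : ℕ, ∀ a b w : ℕ, w + w₀ ≤ a → w + w₀ ≤ b →
    ∀ {α : Type u} (M N₁ N₂ : Matroid α) [M.Finite], N₁ ≤m M → N₂ ≤m M →
    IsMK N₁ a → IsMK N₂✶ b → Interconnected M N₁ N₂ w₀ →
    (∃ X, N₁.E ⊆ X ∧ X ⊆ M.E \ N₂.E ∧ M.eRk X + M.eRk (M.E \ X) ≤ M.eRank + w) →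
    HasUMinor M k ∨ ∃ (p : ℕ) (_ : Fact p.Prime), HasPGMinor M k p := by
  classical
  obtain ⟨w0, hw0⟩ := bd_sharp.{u} k
  refine ⟨w0 + 2, ?_⟩
  intro a b w ha hb α M N₁ N₂ _ hN1 hN2 hK1 hK2 hint hX
  have hfin : M.E.Finite := M.ground_finite
  have hE : (hfin.toFinset : Set α) = M.E := hfin.coe_toFinset
  obtain ⟨C1, D1, hC1, hD1, hCD1, rfl⟩ := hN1.exists_eq_contract_delete_disjoint
  obtain ⟨C2, D2, hC2, hD2, hCD2, rfl⟩ := hN2.exists_eq_contract_delete_disjoint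
  obtain ⟨C1, rfl, hC1'⟩ := lf_fin hfin hC1
  obtain ⟨C2, rfl, hC2'⟩ := lf_fin hfin hC2
  obtain ⟨D1, rfl, hD1'⟩ := lf_fin hfin hD1
  obtain ⟨D2, rfl, hD2'⟩ := lf_fin hfin hD2
  set E := hfin.toFinset with hEdef
  obtain ⟨e1, e2, hconf, hed1, hed2, -, -, -, -⟩ := conf_of2 hE (D1 := D1) (D2 := D2) hC1' hC2'
    (n := w0 + 2) (a := a) (b := b) (by omega) (by omega) (by omega) hK1 hK2 hint
  obtain ⟨X, hX1, hX2, hX3⟩ := hX
  obtain ⟨X, rfl, hXE⟩ := lf_fin hfin (hX2.trans Set.sdiff_subset)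
  refine lf_concl hE (Or.inl (hw0 (rf M) E C1 C2 e1 _ e2 _ w (hconf.le (by omega))
      (by rw [Finset.card_range]; omega) (by rw [Finset.card_range]; omega)
      ⟨X, ?_, hXE, ?_, ?_⟩))
  · rw [← hed1] at hX1
    exact_mod_cast hX1
  · rw [Finset.disjoint_left]
    intro x hx hx2
    apply (hX2 hx).2
    rw [← hed2]
    exact hx2
  · rw [Matroid.eRank_def, ← hE, ← Finset.coe_sdiff, ← rf_coe, ← rf_coe, ← rf_coe] at hX3
    have : (rf M).r X + (rf M).r (E \ X) ≤ (rf M).r E + w := by exact_mod_cast hX3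
    omega

end Pool.Agent.H.MP_60a1a2_co
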