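import Pool.Agent.H.MP_60a1a2_co.LcMain
import Pool.Agent.H.MP_60a1a2_co.LcDefs
import Pool.Agent.H.MP_60a1a2_co.LfFinal

/-! # The theorem on presentations of linear cost for finite matroids -/

set_option autoImplicit false

namespace Pool.Agent.H.MP_60a1a2_co

open Matroid

/-- one side -/
theorem lc_side.{u} (k : ℕ) : ∃ (w : ℕ) (f : ℕ → ℕ), ∀ a b c d : ℕ, w ≤ a → w ≤ b → f d ≤ b →
    ∀ {α : Type u} [DecidableEq α] (M : Matroid α) (E C1 D1 C2 D2 : Finset α),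
    (E : Set α) = M.E → C1 ⊆ E → C2 ⊆ E →
    IsMK (M ／ (C1 : Set α) ＼ (D1 : Set α)) a → IsMK (M ／ (C2 : Set α) ＼ (D2 : Set α))✶ b →
    Interconnected M (M ／ (C1 : Set α) ＼ (D1 : Set α)) (M ／ (C2 : Set α) ＼ (D2 : Set α)) w →
    Cheap M (C1 : Set α) (C2 : Set α) (M ／ (C1 : Set α) ＼ (D1 : Set α))
      (M ／ (C2 : Set α) ＼ (D2 : Set α)) c (f c) (d * b) →
    Fin2 (rf M) E k := by
  obtain ⟨w, f, hf⟩ := lc_final.{u} k
  refine ⟨w + 2, fun c => f c + w + 2, ?_⟩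
  intro a b c d ha hb hdb α _ M E C1 D1 C2 D2 hE hC1 hC2 hK1 hK2 hint hcheap
  have hdb' : f d + w + 2 ≤ b := hdb
  obtain ⟨e1, e2, hconf, hed1, hed2, -, -, hr1, -⟩ := conf_of2 hE (D1 := D1) (D2 := D2)
    hC1 hC2 (n := w) (a := a) (b := b) (by omega) (by omega) (by omega) hK1 hK2
    (hint.le (by omega))
  obtain ⟨X, N, m, hX, hN, hNK, hm, hcase, hcost⟩ := hcheap
  have hm' : f c + w + 2 ≤ m := hm
  have hfin : M.E.Finite := by
    rw [← hE]
    exact E.finite_toSet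
  have hEX : X ⊆ M.E := by
    rw [← hE]
    exact hX.trans (by exact_mod_cast hC1)
  obtain ⟨X, rfl⟩ : ∃ Y : Finset α, (Y : Set α) = X :=
    ⟨(hfin.subset hEX).toFinset, Set.Finite.coe_toFinset _⟩
  have hX' : X ⊆ C1 := by exact_mod_cast hX
  obtain ⟨e0, hK0, hed0, hMK0⟩ := isK_of_isMK2 (n := m) (by omega) hNK
  obtain ⟨R, hR, hNR⟩ := hN.exists_eq_restrict
  have hNE : N.E = R := by rw [hNR]; rfl
  have hed01 : ed e0 (Finset.range m) ⊆ ed e1 (Finset.range a) := by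
    have h1 : ((ed e0 (Finset.range m) : Finset α) : Set α) ⊆
        ((ed e1 (Finset.range a) : Finset α) : Set α) := by
      rw [hed0, hed1, hNE]
      exact hR
    exact_mod_cast h1
  have hr0 : ∀ Y ⊆ ed e0 (Finset.range m), ((rf M).con C1).r Y = (rf N).r Y := by
    intro Y hY
    rw [hr1 Y (hY.trans hed01)]
    have h2 : (Y : Set α) ⊆ R := by
      rw [← hNE, ← hed0]
      exact_mod_cast hY
    have h3 : (((rf (M ／ (C1 : Set α) ＼ (D1 : Set α))).r Y : ℕ) : ℕ∞) =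
        (((rf N).r Y : ℕ) : ℕ∞) := by
      rw [rf_coe, rf_coe, hNR, Matroid.restrict_eRk_eq _ h2]
    exact_mod_cast h3
  have hE0X : ed e0 (Finset.range m) ⊆ E \ X := by
    intro x hx
    have h1 := Finset.mem_sdiff.1 (hconf.hE1 (hed01 hx))
    exact Finset.mem_sdiff.2 ⟨h1.1, fun h2 => h1.2 (hX' h2)⟩
  have hXE : X ⊆ E := hX'.trans hC1
  have hrX : ∀ Y ⊆ ed e0 (Finset.range m),
      (((rf M).con X).r Y : ℕ∞) = (M ／ (X : Set α)).eRk (Y : Set α) := by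
    intro Y hY
    rw [← rf_contract M E X Y hE hXE (hY.trans hE0X), rf_coe]
  refine hf c d (rf M) E C1 C2 e1 (Finset.range a) e2 (Finset.range b) hconf
    (by rw [Finset.card_range]; omega) X e0 (Finset.range m) hX' hed01 (hK0.congr hr0)
    (by rw [Finset.card_range]; omega) ?_ ?_
  · rcases hcase with h | h
    · left
      rw [Finset.card_range]
      rw [← hed0, ← hrX _ (Finset.Subset.refl _)] at h
      exact_mod_cast h
    · right
      intro V1 hV1 hV1c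
      refine lt_of_le_of_ne (RF.le_card _ _) (fun hcon => ?_)
      have hV1sub : ed e0 V1 ⊆ ed e0 (Finset.range m) := ed_mono hV1
      have hV1N : ((ed e0 V1 : Finset α) : Set α) ⊆ N.E := by
        rw [← hed0]
        exact_mod_cast hV1sub
      refine h (N.restrict ((ed e0 V1 : Finset α) : Set α))
        (Matroid.restrict_isRestriction _ _ hV1N) ?_ ?_
      · have h2 := hMK0 V1 hV1 (by omega)
        rwa [hV1c] at h2
      · show (M ／ (X : Set α)).Indep ((ed e0 V1 : Finset α) : Set α)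
        rw [rf_indep, rf_contract M E X _ hE hXE (hV1sub.trans hE0X)]
        exact hcon
  · rw [Finset.card_range]
    rw [← hed0, ← hed2, ← Finset.coe_union, ← Finset.coe_union, ← Finset.coe_union,
      ← Finset.coe_union, ← rf_coe, ← rf_coe, ← rf_coe, ← rf_coe] at hcost
    exact_mod_cast hcost

/-- The conclusion of the question holds if the clique minor (or dually the coclique minor) has a
presentation of linear cost, or if the connectivity is at most linear. -/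
theorem final_linear.{u} (k : ℕ) : ∃ (w : ℕ) (f : ℕ → ℕ), ∀ a b c d : ℕ, w ≤ a → w ≤ b →
    ∀ {α : Type u} (M : Matroid α) (C₁ D₁ C₂ D₂ : Set α) [M.Finite], C₁ ⊆ M.E → D₁ ⊆ M.E →
    Disjoint C₁ D₁ → C₂ ⊆ M.E → D₂ ⊆ M.E → Disjoint C₂ D₂ →
    IsMK (M ／ C₁ ＼ D₁) a → IsMK (M ／ C₂ ＼ D₂)✶ b →
    Interconnected M (M ／ C₁ ＼ D₁) (M ／ C₂ ＼ D₂) w →
    ((f c ≤ a ∧ f d ≤ b ∧ ∃ A, (M ／ C₁ ＼ D₁).E ⊆ A ∧ A ⊆ M.E \ (M ／ C₂ ＼ D₂).E ∧
        M.eRk A + M.eRk (M.E \ A) ≤ M.eRank + (min (c * a) (d * b) : ℕ)) ∨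
      (f d ≤ b ∧ Cheap M C₁ C₂ (M ／ C₁ ＼ D₁) (M ／ C₂ ＼ D₂) c (f c) (d * b)) ∨
      (f d ≤ a ∧ Cheap M✶ D₂ D₁ (M ／ C₂ ＼ D₂)✶ (M ／ C₁ ＼ D₁)✶ c (f c) (d * a))) →
    HasUMinor M k ∨ ∃ (p : ℕ) (_ : Fact p.Prime), HasPGMinor M k p := by
  classical
  obtain ⟨w1, f1, hf1⟩ := lc_side.{u} k
  obtain ⟨w2, f2, hf2⟩ := lc_conn.{u} k
  refine ⟨w1 + w2 + 2, fun c => f1 c + f2 c, ?_⟩
  intro a b c d ha hb α M C₁ D₁ C₂ D₂ _ hC1 hD1 hCD1 hC2 hD2 hCD2 hK1 hK2 hint hcheap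
  have hfin : M.E.Finite := M.ground_finite
  have hE : (hfin.toFinset : Set α) = M.E := hfin.coe_toFinset
  obtain ⟨C1, rfl, hC1'⟩ := lf_fin hfin hC1
  obtain ⟨D1, rfl, hD1'⟩ := lf_fin hfin hD1
  obtain ⟨C2, rfl, hC2'⟩ := lf_fin hfin hC2
  obtain ⟨D2, rfl, hD2'⟩ := lf_fin hfin hD2
  set E := hfin.toFinset with hEdef
  rcases hcheap with ⟨hca, hdb, A, hA1, hA2, hA3⟩ | ⟨hdb, h⟩ | ⟨hda, h⟩
  · have hca' : f1 c + f2 c ≤ a := hca
    have hdb' : f1 d + f2 d ≤ b := hdb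
    obtain ⟨e1, e2, hconf, hed1, hed2, -, -, -, -⟩ := conf_of2 hE (D1 := D1) (D2 := D2) hC1' hC2'
      (n := w2) (a := a) (b := b) (by omega) (by omega) (by omega) hK1 hK2 (hint.le (by omega))
    obtain ⟨A, rfl, hAE⟩ := lf_fin hfin (hA2.trans Set.sdiff_subset)
    rw [Matroid.eRank_def, ← hE, ← Finset.coe_sdiff, ← rf_coe, ← rf_coe, ← rf_coe] at hA3
    have hA4 : (rf M).r A + (rf M).r (E \ A) ≤ (rf M).r E + min (c * a) (d * b) := by
      exact_mod_cast hA3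
    have hmin1 : min (c * a) (d * b) ≤ c * a := min_le_left _ _
    have hmin2 : min (c * a) (d * b) ≤ d * b := min_le_right _ _
    refine lf_concl hE (Or.inl (hf2 c d (rf M) E C1 C2 e1 _ e2 _ hconf
      (by rw [Finset.card_range]; omega) (by rw [Finset.card_range]; omega)
      ⟨A, ?_, hAE, ?_, ?_, ?_⟩))
    · rw [← hed1] at hA1
      exact_mod_cast hA1
    · rw [Finset.disjoint_left]
      intro x hx hx2
      apply (hA2 hx).2
      rw [← hed2]
      exact hx2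
    · rw [Finset.card_range]
      omega
    · rw [Finset.card_range]
      omega
  · have hdb' : f1 d + f2 d ≤ b := hdb
    obtain ⟨X, N, m, h1, h2, h3, h4, h5, h6⟩ := h
    have h4' : f1 c + f2 c ≤ m := h4
    exact lf_concl hE (Or.inl (hf1 a b c d (by omega) (by omega) (by omega) M E C1 D1 C2 D2 hE
      hC1' hC2' hK1 hK2 (hint.le (by omega)) ⟨X, N, m, h1, h2, h3, by omega, h5, h6⟩))
  · have hda' : f1 d + f2 d ≤ a := hda
    have hdint := (hint.le (show w1 ≤ w1 + w2 + 2 by omega)).dual hfin (by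
      intro x hx
      exact hx.1.1)
    have hE' : (E : Set α) = M✶.E := hE
    have e1' := lf_dual M hCD1
    have e2' := lf_dual M hCD2
    have hK1' : IsMK (M ／ (C1 : Set α) ＼ (D1 : Set α))✶✶ a := by
      rw [Matroid.dual_dual]
      exact hK1
    have hK2' := hK2
    obtain ⟨X, N, m, h1, h2, h3, h4, h5, h6⟩ := h
    have h4' : f1 c + f2 c ≤ m := h4
    rw [e2'] at hK2' h2
    rw [e1'] at hK1' h6
    rw [e1', e2'] at hdint
    exact lf_concl hE (Or.inr (hf1 b a c d (by omega) (by omega) (by omega) M✶ E D2 C2 D1 C1 hE'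
      hD2' hD1' hK2' hK1' hdint ⟨X, N, m, h1, h2, h3, by omega, h5, h6⟩))

end Pool.Agent.H.MP_60a1a2_co
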