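import Pool.Agent.H.MP_60a1a2_co.TriB

/-! # Quotients of cliques -/

set_option autoImplicit false

namespace Pool.Agent.H.MP_60a1a2_co

variable {α : Type*} [DecidableEq α]

/-- A quotient of bounded corank of a clique contains a clique on almost all vertices.

Proof.  Let `w ∈ V` (if `V` is empty take `V1 = ∅`).  `Tri Q e V`: for a triangle `Lift` with
`X = {e i j, e j k}`, `Y = insert (e i k) X`, `K.r Y = K.r X`.  Let `I ⊆ star e w V` be a basis for `Q`
(`exists_basis`), so `I.card = Q.r (star e w V) = Q.r (ed e V)` (`Tri.rank_star`), and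
`V1 = insert w ((V.erase w).filter (fun j => e w j ∈ I))`.  `star e w V1 = I` and
`V1.card = I.card + 1` (`star_card`), `Q.r (ed e V1) ≥ Q.r I = I.card`, so `IsK Q e V1`
(`Tri.mono`, `IsE.mono`).  `V.card - 1 = K.r (ed e V) ≤ Q.r (ed e V) + c = V1.card - 1 + c`
(`IsK.rank`). -/
theorem quot_clique {K Q : RF α} {e : ℕ → ℕ → α} {V : Finset ℕ} (hK : IsK K e V)
    (hL : Lift K Q e V) {c : ℕ} (hc : K.r (ed e V) ≤ Q.r (ed e V) + c) :
    ∃ V1 ⊆ V, V.card ≤ V1.card + c ∧ IsK Q e V1 := by
  have hTri : Tri Q e V := by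
    intro i hi j hj k hk hij hjk hik
    have h1 := hK.tri i hi j hj k hk hij hjk hik
    unfold RF.In at *
    have hsub : insert (e i k) {e i j, e j k} ⊆ ed e V := by
      intro x hx
      simp only [Finset.mem_insert, Finset.mem_singleton] at hx
      rcases hx with rfl | rfl | rfl
      · exact ed_mem hi hk hik
      · exact ed_mem hi hj hij
      · exact ed_mem hj hk hjk
    have h2 := hL {e i j, e j k} (insert (e i k) {e i j, e j k}) (Finset.subset_insert _ _) hsub
    have h3 : Q.r {e i j, e j k} ≤ Q.r (insert (e i k) {e i j, e j k}) :=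
      Q.mono (Finset.subset_insert _ _)
    omega
  rcases V.eq_empty_or_nonempty with h0 | ⟨w, hw⟩
  · subst h0
    refine ⟨∅, Finset.Subset.refl _, by simp, hK.isE, hTri, by simp⟩
  · obtain ⟨I, hI, hIi, hIc⟩ := Q.exists_basis (star e w V)
    have hV1 : insert w ((V.erase w).filter (fun j => e w j ∈ I)) ⊆ V := by
      intro x hx
      rcases Finset.mem_insert.1 hx with rfl | hx
      · exact hw
      · exact Finset.mem_of_mem_erase (Finset.mem_filter.1 hx).1
    have hE1 : IsE e (insert w ((V.erase w).filter (fun j => e w j ∈ I))) := hK.isE.mono hV1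
    have hw1 : w ∈ insert w ((V.erase w).filter (fun j => e w j ∈ I)) :=
      Finset.mem_insert_self _ _
    have hst : star e w (insert w ((V.erase w).filter (fun j => e w j ∈ I))) = I := by
      ext x
      constructor
      · intro hx
        obtain ⟨j, hj, hjw, rfl⟩ := mem_star.1 hx
        rcases Finset.mem_insert.1 hj with rfl | hj
        · exact absurd rfl hjw
        · exact (Finset.mem_filter.1 hj).2
      · intro hx
        obtain ⟨j, hj, hjw, hjx⟩ := mem_star.1 (hI hx)
        refine mem_star.2 ⟨j, ?_, hjw, hjx⟩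
        refine Finset.mem_insert_of_mem (Finset.mem_filter.2 ⟨Finset.mem_erase.2 ⟨hjw, hj⟩, ?_⟩)
        rw [hjx]
        exact hx
    have hc1 := star_card hE1 hw1
    rw [hst] at hc1
    have hr := hTri.rank_star hK.isE hw
    have hr1 : Q.r I ≤ Q.r (ed e (insert w ((V.erase w).filter (fun j => e w j ∈ I)))) := by
      conv_lhs => rw [← hst]
      exact Q.mono (star_subset hw1)
    have hr2 := hK.rank ⟨w, hw⟩
    refine ⟨_, hV1, ?_, hE1, hTri.mono hV1, ?_⟩
    · omega
    · omega

/-- Contraction gives quotients (`RF.incr`, `con_add`). -/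
theorem lift_con (M : RF α) (C D : Finset α) (e : ℕ → ℕ → α) (V : Finset ℕ) :
    Lift (M.con C) (M.con (C ∪ D)) e V := by
  intro X Y hXY _
  have h1 := M.con_add C X
  have h2 := M.con_add C Y
  have h3 := M.con_add (C ∪ D) X
  have h4 := M.con_add (C ∪ D) Y
  have h5 := M.submod (Y ∪ C) (X ∪ (C ∪ D))
  have h6 : (Y ∪ C) ∪ (X ∪ (C ∪ D)) = Y ∪ (C ∪ D) := by
    ext a
    have := @hXY a
    simp only [Finset.mem_union]
    tauto
  have h7 : X ∪ C ⊆ (Y ∪ C) ∩ (X ∪ (C ∪ D)) := by
    intro a
    have := @hXY a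
    simp only [Finset.mem_union, Finset.mem_inter]
    tauto
  have h8 := M.mono h7
  rw [h6] at h5
  have h9 := M.incr hXY (C ∪ D)
  have h10 : M.r C ≤ M.r (C ∪ D) := M.mono Finset.subset_union_left
  omega

/-- The dual of a quotient is a lift.

Proof.  `dual_add` for `X`, `Y` in `G = ed e V` for both; `hL` for `G \ Y ⊆ G \ X`;
the cardinalities are the same on both sides. -/
theorem lift_dual {N Q : RF α} {e : ℕ → ℕ → α} {V : Finset ℕ} (hL : Lift N Q e V) :
    Lift (Q.dual (ed e V)) (N.dual (ed e V)) e V := by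
  intro X Y hXY hY
  have h1 := Q.dual_add (hXY.trans hY)
  have h2 := Q.dual_add hY
  have h3 := N.dual_add (hXY.trans hY)
  have h4 := N.dual_add hY
  have h5 := hL (ed e V \ Y) (ed e V \ X) (Finset.sdiff_subset_sdiff (Finset.Subset.refl _) hXY)
    Finset.sdiff_subset
  omega

/-- Contraction of a subset in the dual.

Proof.  `con_add`, `dual_add` for `N`, `G` and the sets `X ∪ F`, `F`; `dual_add`, `con_add` for the
right side with `G3 \ X` and `G3`: `(G3 \ X) ∪ (G \ (F ∪ G3)) = G \ (X ∪ F)`,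
`G3 ∪ (G \ (F ∪ G3)) = G \ F`, `(X ∪ F).card = X.card + F.card`. -/
theorem dual_con_sub {N : RF α} {G F G3 X : Finset α} (hF : F ⊆ G) (hG : G3 ⊆ G)
    (hd : Disjoint F G3) (hX : X ⊆ G3) :
    ((N.dual G).con F).r X = ((N.con (G \ (F ∪ G3))).dual G3).r X := by
  have hd' : ∀ a, a ∈ F → a ∉ G3 := fun a h1 h2 => Finset.disjoint_left.1 hd h1 h2
  have h1 := (N.dual G).con_add F X
  have h2 := N.dual_add (E := G) (X := X ∪ F) (Finset.union_subset (hX.trans hG) hF)
  have h3 := N.dual_add (E := G) (X := F) hF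
  have h4 := (N.con (G \ (F ∪ G3))).dual_add hX
  have h5 := N.con_add (G \ (F ∪ G3)) (G3 \ X)
  have h6 := N.con_add (G \ (F ∪ G3)) G3
  have h7 : (G3 \ X) ∪ (G \ (F ∪ G3)) = G \ (X ∪ F) := by
    ext a
    have k1 := hd' a
    have k2 := @hF a
    have k3 := @hG a
    have k4 := @hX a
    simp only [Finset.mem_union, Finset.mem_sdiff]
    tauto
  have h8 : G3 ∪ (G \ (F ∪ G3)) = G \ F := by
    ext a
    have k1 := hd' a
    have k2 := @hF a
    have k3 := @hG a
    simp only [Finset.mem_union, Finset.mem_sdiff]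
    tauto
  have h9 : (X ∪ F).card = X.card + F.card := by
    apply Finset.card_union_of_disjoint
    rw [Finset.disjoint_left]
    intro a ha hb
    exact hd' a hb (hX ha)
  rw [h7] at h5
  rw [h8] at h6
  omega

/-- Restriction of a coclique.

Proof.  `IsK.congr` and `dual_con_sub` with `F = ∅` (`con_empty`) and `N = M.con C`
(`con_con_eq`). -/
theorem cocl_sub {M : RF α} {C G : Finset α} {e : ℕ → ℕ → α} {W : Finset ℕ} (hG : ed e W ⊆ G)
    (h : IsK ((M.con C).dual G) e W) :
    IsK ((M.con (C ∪ (G \ ed e W))).dual (ed e W)) e W := by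
  apply h.congr
  intro X hX
  have h1 := dual_con_sub (N := M.con C) (G := G) (F := ∅) (G3 := ed e W) (X := X)
    (Finset.empty_subset _) hG (Finset.disjoint_empty_left _) hX
  rw [RF.con_empty, Finset.empty_union, RF.con_con_eq] at h1
  exact h1.symm

end Pool.Agent.H.MP_60a1a2_co
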