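import Pool.Agent.H.MP_60a1a2_co.LfLTz
import Pool.Agent.H.MP_60a1a2_co.LfQuot
import Pool.Agent.H.MP_60a1a2_co.UnifDual

/-! # Lifts of cliques with linear rank

A lift of a large clique whose rank is at most linear in the number of vertices contains a
uniform minor or, after the contraction of a set of edges, a large clique.  We contract the edge
sets of cliques with a fixed number of vertices which are independent, as long as there are such
cliques. -/

set_option autoImplicit false

namespace Pool.Agent.H.MP_60a1a2_co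

/-- the number of edges -/
theorem lc_card {α : Type*} [DecidableEq α] {e : ℕ → ℕ → α} {V : Finset ℕ} (h : IsE e V) :
    V.card * V.card ≤ 2 * (ed e V).card + V.card := by
  have h1 : V.offDiag.card ≤ 2 * (V.offDiag.image (fun p => e p.1 p.2)).card := by
    apply Finset.card_le_mul_card_image
    intro x hx
    obtain ⟨p, hp, rfl⟩ := Finset.mem_image.1 hx
    have h3 : V.offDiag.filter (fun q => e q.1 q.2 = e p.1 p.2) ⊆ {p, (p.2, p.1)} := by
      intro q hq
      rw [Finset.mem_filter, Finset.mem_offDiag] at hq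
      rw [Finset.mem_offDiag] at hp
      rw [Finset.mem_insert, Finset.mem_singleton]
      rcases h.inj q.1 hq.1.1 q.2 hq.1.2.1 p.1 hp.1 p.2 hp.2.1 hq.1.2.2 hp.2.2 hq.2 with h4 | h4
      · left
        exact Prod.ext h4.1 h4.2
      · right
        exact Prod.ext h4.1 h4.2
    exact (Finset.card_le_card h3).trans Finset.card_le_two
  rw [Finset.offDiag_card] at h1
  have h2 : V.card ≤ V.card * V.card := Nat.le_mul_self _
  unfold ed
  omega

/-- Contraction of the edges of the clique on `W`; one vertex `w` of `W` is kept. -/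
theorem lc_step {α : Type*} [DecidableEq α] {L K : RF α} {e : ℕ → ℕ → α} {V W : Finset ℕ}
    (hK : IsK K e V) (hL : Lift L K e V) (hW : W ⊆ V) {w : ℕ} (hw : w ∈ W) :
    IsK (K.con (ed e W)) e (V \ W.erase w) ∧
    Lift (L.con (ed e W)) (K.con (ed e W)) e (V \ W.erase w) ∧
    Disjoint (ed e (V \ W.erase w)) (ed e W) ∧
    (V \ W.erase w).card + W.card = V.card + 1 ∧
    (L.con (ed e W)).r (ed e (V \ W.erase w)) + L.r (ed e W) ≤ L.r (ed e V) := by
  have hV1 : V \ W.erase w ⊆ V := Finset.sdiff_subset
  have hcard : (V \ W.erase w).card + (W.erase w).card = V.card :=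
    Finset.card_sdiff_add_card_eq_card ((Finset.erase_subset w W).trans hW)
  have hcw := Finset.card_erase_add_one hw
  have hwV1 : w ∈ V \ W.erase w := by
    rw [Finset.mem_sdiff]
    exact ⟨hW hw, fun h => (Finset.mem_erase.1 h).1 rfl⟩
  have hsub : ed e (V \ W.erase w) ∪ ed e W ⊆ ed e V :=
    Finset.union_subset (ed_mono hV1) (ed_mono hW)
  refine ⟨⟨hK.isE.mono hV1, (hK.tri.mono hV1).con _, ?_⟩, ?_, ?_, by omega, ?_⟩
  · have h1 := K.con_add (ed e W) (ed e (V \ W.erase w))
    have h2 : star e w V ⊆ ed e (V \ W.erase w) ∪ ed e W := by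
      intro x hx
      obtain ⟨j, hj, hjw, rfl⟩ := mem_star.1 hx
      rw [Finset.mem_union]
      by_cases hjW : j ∈ W
      · right
        exact ed_mem hw hjW (Ne.symm hjw)
      · left
        exact ed_mem hwV1 (Finset.mem_sdiff.2 ⟨hj, fun h => hjW (Finset.mem_of_mem_erase h)⟩)
          (Ne.symm hjw)
    have h3 := K.mono h2
    have h4 := hK.tri.rank_star hK.isE (hW hw)
    have h5 := hK.rk
    have h6 := (hK.sub hW).rank ⟨w, hw⟩
    omega
  · intro X Y hXY hY
    have h1 := hL (X ∪ ed e W) (Y ∪ ed e W) (Finset.union_subset_union_left hXY)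
      (Finset.union_subset (hY.trans (ed_mono hV1)) (ed_mono hW))
    have h2 := L.con_add (ed e W) X
    have h3 := L.con_add (ed e W) Y
    have h4 := K.con_add (ed e W) X
    have h5 := K.con_add (ed e W) Y
    omega
  · rw [Finset.disjoint_left]
    intro x hx hx2
    obtain ⟨i, hi, j, hj, hij, rfl⟩ := mem_ed.1 hx
    obtain ⟨k, hk, l, hl, hkl, hkl2⟩ := mem_ed.1 hx2
    rw [Finset.mem_sdiff, Finset.mem_erase, not_and] at hi hj
    rcases hK.isE.inj k (hW hk) l (hW hl) i hi.1 j hj.1 hkl hij hkl2 with h | h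
    · obtain ⟨rfl, rfl⟩ := h
      have h1 : k = w := by
        by_contra hc
        exact hi.2 hc hk
      have h2 : l = w := by
        by_contra hc
        exact hj.2 hc hl
      exact hkl (h1.trans h2.symm)
    · obtain ⟨rfl, rfl⟩ := h
      have h1 : k = w := by
        by_contra hc
        exact hj.2 hc hk
      have h2 : l = w := by
        by_contra hc
        exact hi.2 hc hl
      exact hkl (h1.trans h2.symm)
  · have h1 := L.con_add (ed e W) (ed e (V \ W.erase w))
    have h2 := L.mono hsub
    omega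

/-- The loop: `2 * L.r (ed e V) + s * a0 ≤ s * V.card` is an invariant. -/
theorem lc_loop.{u} (k s m : ℕ) (hs : 2 ≤ s) : ∃ a0 : ℕ, ∀ {α : Type u} [DecidableEq α] (N : ℕ)
    (L K : RF α) (e : ℕ → ℕ → α) (V : Finset ℕ), V.card = N → IsK K e V → Lift L K e V →
    2 * L.r (ed e V) + s * a0 ≤ s * V.card →
    HasM L (ed e V) (unif k) ∨ ∃ (F : Finset α) (V' : Finset ℕ) (e' : ℕ → ℕ → α),
      F ∪ ed e' V' ⊆ ed e V ∧ Disjoint F (ed e' V') ∧ m ≤ V'.card ∧ IsK (L.con F) e' V' ∧
      m ≤ K.r (ed e' V') := by
  obtain ⟨a0, ha0⟩ := lt0.{u} k s m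
  refine ⟨a0, ?_⟩
  intro α _ N
  induction N using Nat.strong_induction_on with
  | _ N ih =>
    intro L K e V hN hK hL hr
    by_cases hfree : ∀ V0 ⊆ V, V0.card = s → L.r (ed e V0) < (ed e V0).card
    · have hV : a0 ≤ V.card := Nat.le_of_mul_le_mul_left
        (show s * a0 ≤ s * V.card by omega) (by omega)
      rcases ha0 L K e V hK hV hL hfree with h | ⟨F, V', e', h1, h2, h3, h4, h5⟩
      · exact Or.inl h
      · right
        refine ⟨F, V', e', h1, h2, h3, h4, ?_⟩
        have h6 := hL ∅ F (Finset.empty_subset _) (Finset.subset_union_left.trans h1)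
        rw [K.r_empty, L.r_empty] at h6
        have h7 := K.r_union_le F (ed e' V')
        omega
    · push Not at hfree
      obtain ⟨W, hW, hWs, hWr⟩ := hfree
      have hWne : W.Nonempty := by
        rw [← Finset.card_pos]
        omega
      obtain ⟨w, hw⟩ := hWne
      obtain ⟨s1, s2, s3, s4, s5⟩ := lc_step hK hL hW hw
      have hc := lc_card (hK.isE.mono hW)
      rw [hWs] at hc s4
      have hmul : s * (V \ W.erase w).card + s * s = s * V.card + s := by
        have h1 := congrArg (fun t => s * t) s4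
        simp only [Nat.mul_add, Nat.mul_one] at h1
        exact h1
      have hlt : (V \ W.erase w).card < N := by omega
      have hrec := ih _ hlt (L.con (ed e W)) (K.con (ed e W)) e (V \ W.erase w) rfl s1 s2
        (by omega)
      have hsub1 : ed e (V \ W.erase w) ⊆ ed e V := ed_mono Finset.sdiff_subset
      rcases hrec with h | ⟨F, V', e', h1, h2, h3, h4, h5⟩
      · left
        refine HasM.of_con (ed_mono hW) ?_ h
        intro x hx
        rw [Finset.mem_sdiff]
        exact ⟨hsub1 hx, fun h' => Finset.disjoint_left.1 s3 hx h'⟩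
      · right
        refine ⟨ed e W ∪ F, V', e', ?_, ?_, h3, ?_, ?_⟩
        · rw [Finset.union_assoc]
          exact Finset.union_subset (ed_mono hW) (h1.trans hsub1)
        · rw [Finset.disjoint_union_left]
          refine ⟨?_, h2⟩
          rw [Finset.disjoint_left]
          intro x hx hx2
          exact Finset.disjoint_left.1 s3 (h1 (Finset.mem_union_right _ hx2)) hx
        · rw [← L.con_con_eq]
          exact h4
        · have h6 := K.con_add (ed e W) (ed e' V')
          have h7 := K.r_union_le (ed e' V') (ed e W)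
          omega

/-- A lift of a clique with linear rank has a uniform minor or contains a large clique after a
contraction. -/
theorem lc_main.{u} (k c m : ℕ) : ∃ n : ℕ, ∀ {α : Type u} [DecidableEq α] (L K : RF α)
    (e : ℕ → ℕ → α) (V : Finset ℕ), IsK K e V → Lift L K e V → n ≤ V.card →
    L.r (ed e V) ≤ c * V.card →
    HasM L (ed e V) (unif k) ∨ ∃ (F : Finset α) (V' : Finset ℕ) (e' : ℕ → ℕ → α),
      F ∪ ed e' V' ⊆ ed e V ∧ Disjoint F (ed e' V') ∧ m ≤ V'.card ∧ IsK (L.con F) e' V' ∧
      m ≤ K.r (ed e' V') := by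
  obtain ⟨a0, ha0⟩ := lc_loop.{u} k (4 * c + 2) m (by omega)
  refine ⟨2 * a0, ?_⟩
  intro α _ L K e V hK hL hV hr
  refine ha0 V.card L K e V rfl hK hL ?_
  have h1 : (2 * c + 2) * (2 * a0) ≤ (2 * c + 2) * V.card := Nat.mul_le_mul_left _ hV
  have h2 : (2 * c + 2) * (2 * a0) = 2 * (2 * (c * a0)) + 4 * a0 := by ring
  have h3 : (2 * c + 2) * V.card = 2 * (c * V.card) + 2 * V.card := by ring
  have h4 : (4 * c + 2) * a0 = 4 * (c * a0) + 2 * a0 := by ring
  have h5 : (4 * c + 2) * V.card = 4 * (c * V.card) + 2 * V.card := by ring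
  omega

end Pool.Agent.H.MP_60a1a2_co
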