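import Pool.Agent.H.MP_60a1a2_co.LfQuot
import Pool.Agent.H.MP_60a1a2_co.UnifDual

/-! # Cocliques after the contraction of few elements -/

set_option autoImplicit false

namespace Pool.Agent.H.MP_60a1a2_co

/-- After the contraction of a bounded number of elements we still have a large coclique.

Proof.  `n` from `tri_ramsey k c m`.  Let `G = ed e2 W`, `L = (M.con (C2 ∪ D)).dual G`,
`K = (M.con C2).dual G`; `Lift L K e2 W` by `lift_con` and `lift_dual`.
`L.r G ≤ K.r G + c`: `dual_add` for `X = G` (`G \ G = ∅`, `r_empty`) for both and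
`(M.con C2).r G ≤ (M.con (C2 ∪ D)).r G + D.card` (`con_add`;
`M.r (C2 ∪ D) ≤ M.r C2 + D.card`).  `tri_ramsey`: either `HasM L G (unif k)`, then
`HasM.unif_dual` gives `HasM (M.con (C2 ∪ D)) G (unif k)` and `HasM.of_con` the first alternative
(`G ⊆ E \ (C2 ∪ D)`); or we get `F`, `W3` with `IsK (L.con F) e2 W3`; by `IsK.congr` and
`dual_con_sub` (with `N = M.con (C2 ∪ D)`, `G3 = ed e2 W3`, `con_con_eq`) we get the second. -/
theorem con_cocl.{u} (k c m : ℕ) : ∃ n : ℕ, ∀ {α : Type u} [DecidableEq α] (M : RF α)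
    (E C2 D : Finset α) (e2 : ℕ → ℕ → α) (W : Finset ℕ), C2 ⊆ E → ed e2 W ⊆ E \ C2 →
    IsK ((M.con C2).dual (ed e2 W)) e2 W → n ≤ W.card → D ⊆ E → Disjoint D (ed e2 W) →
    D.card ≤ c → HasM M E (unif k) ∨ ∃ (F2 : Finset α) (W3 : Finset ℕ), W3 ⊆ W ∧ m ≤ W3.card ∧
      F2 ⊆ ed e2 W ∧ Disjoint F2 (ed e2 W3) ∧ F2.card ≤ 3 * k ∧
      IsK ((M.con (C2 ∪ D ∪ (ed e2 W \ (F2 ∪ ed e2 W3)))).dual (ed e2 W3)) e2 W3 := by
  obtain ⟨n, hn⟩ := tri_ramsey.{u} k c m
  refine ⟨n, ?_⟩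
  intro α _ M E C2 D e2 W hC2 hW hK hWn hD hdisj hDc
  have hLift : Lift ((M.con (C2 ∪ D)).dual (ed e2 W)) ((M.con C2).dual (ed e2 W)) e2 W :=
    lift_dual (lift_con M C2 D e2 W)
  have hy : ((M.con (C2 ∪ D)).dual (ed e2 W)).r (ed e2 W) ≤
      ((M.con C2).dual (ed e2 W)).r (ed e2 W) + c := by
    have h1 := (M.con (C2 ∪ D)).dual_add (Finset.Subset.refl (ed e2 W))
    have h2 := (M.con C2).dual_add (Finset.Subset.refl (ed e2 W))
    rw [Finset.sdiff_self, RF.r_empty] at h1 h2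
    have h3 := M.con_add (C2 ∪ D) (ed e2 W)
    have h4 := M.con_add C2 (ed e2 W)
    have h5 := M.dual_aux C2 D
    have h6 : M.r (ed e2 W ∪ C2) ≤ M.r (ed e2 W ∪ (C2 ∪ D)) :=
      M.mono (Finset.union_subset_union_right Finset.subset_union_left)
    omega
  rcases hn _ _ e2 W hK hWn hLift hy with h | ⟨F, W3, h1, h2, h3, h4, h5, h6⟩
  · left
    refine HasM.of_con (C0 := C2 ∪ D) (Finset.union_subset hC2 hD) ?_
      (HasM.unif_dual (Finset.Subset.refl _) h)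
    intro x hx
    have h7 := Finset.mem_sdiff.1 (hW hx)
    rw [Finset.mem_sdiff, Finset.mem_union]
    refine ⟨h7.1, ?_⟩
    rintro (h8 | h8)
    · exact h7.2 h8
    · exact Finset.disjoint_left.1 hdisj h8 hx
  · right
    refine ⟨F, W3, h1, h2, h3, h4, h5, ?_⟩
    refine IsK.congr h6 fun X hX => ?_
    rw [dual_con_sub h3 (ed_mono h1) h4 hX, RF.con_con_eq]

end Pool.Agent.H.MP_60a1a2_co
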