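import Pool.Agent.H.MP_60a1a2_co.Main2

/-! # The conclusion for a rank function and its dual -/

set_option autoImplicit false

namespace Pool.Agent.H.MP_60a1a2_co

/-- the conclusion for `M` and for all rank functions whose dual is `M` -/
def Fin2 {α : Type*} [DecidableEq α] (M : RF α) (E : Finset α) (k : ℕ) : Prop :=
  (HasM M E (unif k) ∨ HasPG M E k) ∧
    ∀ M' : RF α, (∀ X ⊆ E, M.r X = (M'.dual E).r X) → HasM M' E (unif k) ∨ HasPG M' E k

/-- Proof: as in `main2` (`HasM.unif_dual`, `HasM.congr`). -/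
theorem Fin2.of_unif {α : Type*} [DecidableEq α] {M : RF α} {E : Finset α} {k : ℕ}
    (h : HasM M E (unif k)) : Fin2 M E k := by
  refine ⟨Or.inl h, ?_⟩
  intro M' hM'
  left
  exact HasM.unif_dual (Finset.Subset.refl E) (h.congr (fun X hX => (hM' X hX).symm))

/-- Minors of `M.con F` are minors of `M`.

Proof.  The first part: `HasM.of_con`, `HasPG.of_con`.  For the second part let
`M.r X = (M'.dual E).r X` for `X ⊆ E`.  For `X ⊆ E \ F` by `con_add` and `dual_add`
`(M.con F).r X = (M'.dual (E \ F)).r X`: both sides are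
`X.card + M'.r ((E \ F) \ X) - M'.r (E \ F)`.  So the hypothesis gives a minor of `M'` on `E \ F`;
`HasM.mono`, `HasPG.mono`. -/
theorem Fin2.of_con {α : Type*} [DecidableEq α] {M : RF α} {E F : Finset α} {k : ℕ}
    (hF : F ⊆ E) (h : Fin2 (M.con F) (E \ F) k) : Fin2 M E k := by
  obtain ⟨h1, h2⟩ := h
  refine ⟨?_, ?_⟩
  · rcases h1 with h1 | h1
    · exact Or.inl (HasM.of_con hF (Finset.Subset.refl _) h1)
    · exact Or.inr (HasPG.of_con hF (Finset.Subset.refl _) h1)
  · intro M' hM'
    have key : ∀ X ⊆ E \ F, (M.con F).r X = (M'.dual (E \ F)).r X := by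
      intro X hX
      have hXE : X ⊆ E := hX.trans Finset.sdiff_subset
      have hd : Disjoint X F := by
        rw [Finset.disjoint_left]
        intro a ha
        exact (Finset.mem_sdiff.1 (hX ha)).2
      have a1 := M.con_add F X
      have a2 := hM' (X ∪ F) (Finset.union_subset hXE hF)
      have a3 := hM' F hF
      have a4 := M'.dual_add (Finset.union_subset hXE hF)
      have a5 := M'.dual_add hF
      have a6 := M'.dual_add hX
      have a7 : (X ∪ F).card = X.card + F.card := Finset.card_union_of_disjoint hd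
      have a8 : E \ (X ∪ F) = (E \ F) \ X := by
        ext a
        simp only [Finset.mem_sdiff, Finset.mem_union]
        tauto
      rw [a7, a8] at a4
      omega
    rcases h2 M' key with h3 | h3
    · exact Or.inl (HasM.mono Finset.sdiff_subset h3)
    · exact Or.inr (HasPG.mono Finset.sdiff_subset h3)

/-- `pre` with separate bounds.

Proof.  Copy the proof of `pre` in `Pre.lean`: `n = n0 + 1` where `n0` is the number of
`tri_ramsey k (c + 1) (2 * n1 + 2)`; the hypothesis on the connectivity is used at the end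
(`4 * n1 * n1 + n1`), and `n1 ≤ 4 * n1 * n1 + n1 ≤ W.card`. -/
theorem pre2.{u} (k c n1 : ℕ) : ∃ n : ℕ, ∀ {α : Type u} [DecidableEq α] (M : RF α)
    (E C1 C2 : Finset α) (e1 : ℕ → ℕ → α) (V : Finset ℕ) (e2 : ℕ → ℕ → α) (W : Finset ℕ),
    Conf M E C1 C2 e1 V e2 W (4 * n1 * n1 + n1) → n ≤ V.card → M.r (ed e1 V) ≤ V.card + c →
    HasM M E (unif k) ∨ ∃ (F : Finset α) (V' : Finset ℕ), F.card ≤ 3 * k ∧
      Conf M E F C2 e1 V' e2 W n1 := by
  obtain ⟨n0, hn0⟩ := tri_ramsey.{u} k (c + 1) (2 * n1 + 2)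
  refine ⟨n0 + 1, ?_⟩
  intro α _ M E C1 C2 e1 V e2 W h hV hr
  have hK := h.clq
  have hVne : V.Nonempty := by
    rw [← Finset.card_pos]
    omega
  have hKr := hK.rank hVne
  have hL : Lift M (M.con C1) e1 V := by
    intro X Y hXY hY
    have b1 := M.con_add C1 X
    have b2 := M.con_add C1 Y
    have b3 := M.incr (X := Y) (Y := Y) (Finset.Subset.refl Y) C1
    have b4 := M.incr hXY C1
    omega
  rcases hn0 M (M.con C1) e1 V hK (by omega) hL (by omega) with h1 | ⟨F, V', hV', hm, hF, hFd, hFc,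
    hclq⟩
  · left
    exact HasM.mono (h.hE1.trans Finset.sdiff_subset) h1
  · right
    refine ⟨F, V', hFc, ⟨?_, ?_, hclq, h.hC2, h.hE2, h.cocl, ?_, ?_, ?_⟩⟩
    · exact hF.trans (h.hE1.trans Finset.sdiff_subset)
    · intro x hx
      rw [Finset.mem_sdiff]
      refine ⟨(Finset.mem_sdiff.1 (h.hE1 (ed_mono hV' hx))).1, fun hxF => ?_⟩
      exact Finset.disjoint_left.1 hFd hxF hx
    · exact Finset.disjoint_of_subset_left (ed_mono hV') h.dsj
    · intro X hX hXE hXd
      by_contra hcon
      have hcon' := not_le.1 hcon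
      have hm1 := minor_conn' M E C1 (ed e1 V) X h.hC1 h.hE1 hXE
      set K := M.con C1 with hKdef
      have hsub : ed e1 V' ⊆ X ∩ ed e1 V :=
        Finset.subset_inter hX (ed_mono hV')
      have hV'ne : V'.Nonempty := by
        rw [← Finset.card_pos]
        omega
      have hKV' := (hK.sub hV').rank hV'ne
      have hmon := K.mono hsub
      have hsd : ed e1 V \ (X ∩ ed e1 V) = ed e1 V \ X := by
        ext a; simp only [Finset.mem_sdiff, Finset.mem_inter]; tauto
      have hcomp := hK.compl hVne (Z := X ∩ ed e1 V) Finset.inter_subset_right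
      rw [hsd] at hcomp
      have hsmall : K.r (ed e1 V \ X) ≤ n1 := by
        rcases hcomp with h2 | h2
        · omega
        · omega
      obtain ⟨T, hT, hTc, hTs⟩ := hK.touched (Z := ed e1 V \ X) Finset.sdiff_subset
      have hc1 : (ed e1 V \ X).card ≤ (2 * n1) * (2 * n1) :=
        (Finset.card_le_card hTs).trans ((ed_card_le e1 T).trans
          (Nat.mul_le_mul (by omega) (by omega)))
      have hc2 : (2 * n1) * (2 * n1) = 4 * n1 * n1 := by ring
      have hX' := h.kap (X ∪ ed e1 V) Finset.subset_union_right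
        (Finset.union_subset hXE (h.hE1.trans Finset.sdiff_subset))
        (Finset.disjoint_union_left.2 ⟨hXd, h.dsj⟩)
      have hu : X ∪ ed e1 V = X ∪ (ed e1 V \ X) := by
        ext a; simp only [Finset.mem_union, Finset.mem_sdiff]; tauto
      have h3 : M.r (X ∪ ed e1 V) ≤ M.r X + (ed e1 V \ X).card := by
        rw [hu]
        exact M.r_union_le_card _ _
      have h4 : M.r (E \ (X ∪ ed e1 V)) ≤ M.r (E \ X) :=
        M.mono (Finset.sdiff_subset_sdiff (Finset.Subset.refl E) Finset.subset_union_left)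
      omega
    · have := h.cardW
      omega

/-- The main theorem with bounded excess; the bound for the connectivity and for the size of the
coclique depends only on `k`.

Proof.  `n1` from `mainRF k (3 * k)`, `w = 4 * n1 * n1 + n1`, `n` from `pre2 k c n1`; as `main2`. -/
theorem main3.{u} (k : ℕ) : ∃ w : ℕ, ∀ c : ℕ, ∃ n : ℕ, ∀ {α : Type u} [DecidableEq α] (M : RF α)
    (E C1 C2 : Finset α) (e1 : ℕ → ℕ → α) (V : Finset ℕ) (e2 : ℕ → ℕ → α) (W : Finset ℕ),
    Conf M E C1 C2 e1 V e2 W w → n ≤ V.card → M.r (ed e1 V) ≤ V.card + c → Fin2 M E k := by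
  obtain ⟨n1, hn1⟩ := mainRF.{u} k (3 * k)
  refine ⟨4 * n1 * n1 + n1, fun c => ?_⟩
  obtain ⟨n, hn⟩ := pre2.{u} k c n1
  refine ⟨n, ?_⟩
  intro α _ M E C1 C2 e1 V e2 W hconf hV hr
  rcases hn M E C1 C2 e1 V e2 W hconf hV hr with h | ⟨F, V', hF, hC⟩
  · exact Fin2.of_unif h
  · exact hn1 M E F C2 e1 V' e2 W hC hF

end Pool.Agent.H.MP_60a1a2_co
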