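import Pool.Agent.H.MP_60a1a2_co.LfNest
import Pool.Agent.H.MP_60a1a2_co.LfCocl
import Pool.Agent.H.MP_60a1a2_co.LfFin

/-! # The contraction set of the clique is close to the closure of that of the coclique -/

set_option autoImplicit false

namespace Pool.Agent.H.MP_60a1a2_co

theorem LfAc_con_eq {α : Type*} [DecidableEq α] (M : RF α) {C Z : Finset α}
    (h : ∀ x ∈ Z, M.In C x) : M.con (C ∪ Z) = M.con C := by
  have h0 : (M.con (C ∪ Z)).r = (M.con C).r := by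
    funext Y
    have h1 := M.con_add (C ∪ Z) Y
    have h2 := M.con_add C Y
    have h3 := M.r_union_of_in h
    have h4 : M.r ((Y ∪ C) ∪ Z) = M.r (Y ∪ C) :=
      M.r_union_of_in fun x hx => M.in_mono (h x hx) Finset.subset_union_right
    rw [Finset.union_assoc] at h4
    omega
  cases h1 : M.con (C ∪ Z)
  cases h2 : M.con C
  rw [h1, h2] at h0
  simp only at h0
  subst h0
  rfl

/-- The theorem if the rank of `C2 ∪ (C1 \ ed e2 W)` exceeds the rank of `C2` by a bounded number.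

Proof.  `w` from `main3 k`, `n0` from this for the excess `max w ((w + 1) * (w + 1)) + 3 * k`, `nW`
from `con_cocl k c (w + 1)`, `n = n0 + nW + (4 * w * w + w) + w`.
Let `D ⊆ C1 \ ed e2 W` be a basis for `M.con C2` (`exists_basis`):
`D.card = (M.con C2).r (C1 \ ed e2 W) ≤ c` (`con_add`), and every `x ∈ C1 \ ed e2 W` is in the closure
of `C2 ∪ D` in `M` (`in_of_r_eq`, `con_in`).  `con_cocl` gives the uniform minor (`Fin2.of_unif`)
or `F2`, `W3`.  Let `W2 ⊆ W3` with `W2.card = w + 1`,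
`C2' = C2 ∪ D ∪ (ed e2 W \ (F2 ∪ ed e2 W3)) ∪ (ed e2 W3 \ ed e2 W2)`;
`IsK ((M.con C2').dual (ed e2 W2)) e2 W2` by `IsK.sub`, `cocl_sub`.
`Kap M E (ed e1 V) (ed e2 W2) w` by `kap_sub_dual` for the given coclique (`C2`, `W`): the rank of
`ed e2 W2` is `w`.  Every `x ∈ C1` satisfies `M.In C2' x` or `x ∈ F2 ∪ ed e2 W2`: if `x ∉ ed e2 W`
then it is in the closure of `C2 ∪ D`; if `x ∈ ed e2 W` then it is in `F2`, in `ed e2 W2` or in `C2'`.
`ac_step` gives `Z`.  Then `Conf (M.con Z) (E \ Z) (C1 \ Z) (C2' \ Z) e1 V e2 W2 w`: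
`(M.con Z).con (C1 \ Z) = M.con C1`; `(M.con Z).con (C2' \ Z) = M.con (C2' ∪ Z)` and
`M.r (X ∪ (C2' ∪ Z)) = M.r (X ∪ C2')` because `Z` is in the closure of `C2'` (`r_union_of_in`,
`in_mono`), so `IsK.congr` (`con_add`, `dual_add`); `ed e2 W2` is disjoint from `C2'` and from `Z`.
`(M.con Z).r (ed e1 V) ≤ V.card + (max w ((w + 1) * (w + 1)) + 3 * k)` (`ed_card_le`).
`main3` and `Fin2.of_con`. -/
theorem ac_main.{u} (k c : ℕ) : ∃ n : ℕ, ∀ {α : Type u} [DecidableEq α] (M : RF α)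
    (E C1 C2 : Finset α) (e1 : ℕ → ℕ → α) (V : Finset ℕ) (e2 : ℕ → ℕ → α) (W : Finset ℕ),
    Conf M E C1 C2 e1 V e2 W n → n ≤ V.card →
    M.r (C2 ∪ (C1 \ ed e2 W)) ≤ M.r C2 + c → Fin2 M E k := by
  obtain ⟨w, hw⟩ := main3.{u} k
  obtain ⟨n0, hn0⟩ := hw (max w ((w + 1) * (w + 1)) + 3 * k)
  obtain ⟨nW, hnW⟩ := con_cocl.{u} k c (w + 1)
  refine ⟨n0 + nW + (4 * w * w + w) + w, ?_⟩
  intro α _ M E C1 C2 e1 V e2 W hconf hV hr
  obtain ⟨D, hD1, hD2, hD3⟩ := (M.con C2).exists_basis (C1 \ ed e2 W)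
  have hDc : D.card ≤ c := by
    have h1 := M.con_add C2 (C1 \ ed e2 W)
    rw [Finset.union_comm] at h1
    omega
  have hin : ∀ x ∈ C1 \ ed e2 W, M.In (D ∪ C2) x := by
    intro x hx
    rw [← M.con_in]
    exact (M.con C2).in_of_r_eq hD1 (by rw [hD2, hD3]) hx
  have hDE : D ⊆ E := (hD1.trans Finset.sdiff_subset).trans hconf.hC1
  have hDd : Disjoint D (ed e2 W) := by
    rw [Finset.disjoint_left]
    intro a ha hb
    exact (Finset.mem_sdiff.1 (hD1 ha)).2 hb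
  have hW : n0 + nW + (4 * w * w + w) + w ≤ W.card := hconf.cardW
  rcases hnW M E C2 D e2 W hconf.hC2 hconf.hE2 hconf.cocl (by omega) hDE hDd hDc with h | h
  · exact Fin2.of_unif h
  obtain ⟨F2, W3, hW3, hW3c, hF2, hF2d, hF2c, hK3⟩ := h
  obtain ⟨W2, hW2, hW2c⟩ := Finset.exists_subset_card_eq hW3c
  obtain ⟨C2', hC2'⟩ : ∃ C2', C2' = C2 ∪ D ∪ (ed e2 W \ (F2 ∪ ed e2 W3)) ∪
    (ed e2 W3 \ ed e2 W2) := ⟨_, rfl⟩
  have hed32 : ed e2 W2 ⊆ ed e2 W3 := ed_mono hW2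
  have hed3 : ed e2 W3 ⊆ ed e2 W := ed_mono hW3
  have hK2 : IsK ((M.con C2').dual (ed e2 W2)) e2 W2 := by
    rw [hC2']
    exact cocl_sub hed32 (hK3.sub hW2)
  have hW2ne : W2.Nonempty := by
    rw [← Finset.card_pos, hW2c]
    omega
  have hkap : Kap M E (ed e1 V) (ed e2 W2) w := by
    refine kap_sub_dual hconf.hC2 hconf.hE2 hconf.cocl hconf.dsj hconf.kap (hed32.trans hed3) ?_
      (by omega)
    have h1 := (hconf.cocl.sub (hW2.trans hW3)).rank hW2ne
    omega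
  have hcl : ∀ x ∈ C1, M.In C2' x ∨ x ∈ F2 ∪ ed e2 W2 := by
    intro x hx
    by_cases hxW : x ∈ ed e2 W
    · by_cases h1 : x ∈ F2 ∪ ed e2 W2
      · exact Or.inr h1
      · left
        apply M.in_of_mem
        rw [Finset.mem_union, not_or] at h1
        rw [hC2']
        simp only [Finset.mem_union, Finset.mem_sdiff]
        by_cases h3 : x ∈ ed e2 W3
        · exact Or.inr ⟨h3, h1.2⟩
        · exact Or.inl (Or.inr ⟨hxW, fun h => h.elim h1.1 h3⟩)
    · left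
      refine M.in_mono (hin x (Finset.mem_sdiff.2 ⟨hx, hxW⟩)) ?_
      rw [hC2']
      intro a ha
      simp only [Finset.mem_union] at ha ⊢
      tauto
  have hE2W2 : ed e2 W2 ⊆ E := (hed32.trans hed3).trans (hconf.hE2.trans Finset.sdiff_subset)
  have hd2 : Disjoint (ed e1 V) (ed e2 W2) := hconf.dsj.mono_right (hed32.trans hed3)
  obtain ⟨Z, hZ, hZin, hZk, hZr⟩ := ac_step hconf.hC1 hconf.hE1 hconf.clq hE2W2 hd2 hcl hkap
  have hZC1 : Z ⊆ C1 := hZ.trans Finset.sdiff_subset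
  have hZE : Z ⊆ E := hZC1.trans hconf.hC1
  have hC2'E : C2' ⊆ E := by
    rw [hC2']
    intro a ha
    simp only [Finset.mem_union, Finset.mem_sdiff] at ha
    rcases ha with ((ha | ha) | ha) | ha
    · exact hconf.hC2 ha
    · exact hDE ha
    · exact (Finset.mem_sdiff.1 (hconf.hE2 ha.1)).1
    · exact (Finset.mem_sdiff.1 (hconf.hE2 (hed3 ha.1))).1
  have hC2'd : ∀ a ∈ ed e2 W2, a ∉ C2' := by
    intro a ha hb
    have haW : a ∈ ed e2 W := hed3 (hed32 ha)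
    rw [hC2'] at hb
    simp only [Finset.mem_union, Finset.mem_sdiff] at hb
    rcases hb with ((hb | hb) | hb) | hb
    · exact (Finset.mem_sdiff.1 (hconf.hE2 haW)).2 hb
    · exact Finset.disjoint_left.1 hDd hb haW
    · exact hb.2 (Or.inr (hed32 ha))
    · exact hb.2 ha
  have hcon : Conf (M.con Z) (E \ Z) (C1 \ Z) (C2' \ Z) e1 V e2 W2 w := by
    refine ⟨?_, ?_, ?_, ?_, ?_, ?_, hd2, hZk, by omega⟩
    · exact Finset.sdiff_subset_sdiff hconf.hC1 (Finset.Subset.refl _)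
    · intro a ha
      have h1 := Finset.mem_sdiff.1 (hconf.hE1 ha)
      simp only [Finset.mem_sdiff]
      exact ⟨⟨h1.1, fun h => h1.2 (hZC1 h)⟩, fun h => h1.2 h.1⟩
    · rw [M.con_con_eq, Finset.union_sdiff_of_subset hZC1]
      exact hconf.clq
    · exact Finset.sdiff_subset_sdiff hC2'E (Finset.Subset.refl _)
    · intro a ha
      simp only [Finset.mem_sdiff]
      exact ⟨⟨hE2W2 ha, fun h => (Finset.mem_sdiff.1 (hZ h)).2 ha⟩, fun h => hC2'd a ha h.1⟩
    · rw [M.con_con_eq, Finset.union_sdiff_self_eq_union, Finset.union_comm,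
        LfAc_con_eq M hZin]
      exact hK2
  have hcard : (ed e2 W2).card ≤ (w + 1) * (w + 1) := by
    have := ed_card_le e2 W2
    rwa [hW2c] at this
  have hfin := hn0 (M.con Z) (E \ Z) (C1 \ Z) (C2' \ Z) e1 V e2 W2 hcon (by omega) (by
    refine hZr.trans ?_
    have : max w (ed e2 W2).card ≤ max w ((w + 1) * (w + 1)) := max_le_max le_rfl hcard
    omega)
  exact Fin2.of_con hZE hfin

end Pool.Agent.H.MP_60a1a2_co
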