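import Pool.Agent.H.MP_60a1a2_co.BrK

/-! # Subcliques of cycle matroids of complete graphs -/

set_option autoImplicit false

namespace Pool.Agent.H.MP_60a1a2_co

/-- The image of an acyclic graph under an embedding is acyclic.

Proof.  If `s = 0` the graph `G.map f` has no edges.  Otherwise let `h : Fin n → Fin s` be a left
inverse of `f` (`Function.invFun`).  `SimpleGraph.isAcyclic_iff_forall_adj_isBridge`: an edge of
`G.map f` is `f u`, `f v` with `G.Adj u v`; if `f v` was reachable from `f u` in
`(G.map f).deleteEdges {s(f u, f v)}` then, because `h` is a homomorphism of this graph to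
`G.deleteEdges {s(u, v)}` (`Reachable.map`), `v` would be reachable from `u` in
`G.deleteEdges {s(u, v)}`, but `s(u, v)` is a bridge of `G`. -/
theorem map_acyclic {s n : ℕ} (f : Fin s ↪ Fin n) {G : SimpleGraph (Fin s)} (h : G.IsAcyclic) :
    (G.map f).IsAcyclic := by
  rw [SimpleGraph.isAcyclic_iff_forall_adj_isBridge] at h ⊢
  intro a b hab
  obtain ⟨u, v, huv, rfl, rfl⟩ := (SimpleGraph.map_adj f G a b).1 hab
  have hbr := h huv
  rw [SimpleGraph.isBridge_iff] at hbr ⊢
  intro hreach
  apply hbr
  have : Nonempty (Fin s) := ⟨u⟩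
  have hg : ∀ x, Function.invFun f (f x) = x := Function.leftInverse_invFun f.injective
  let φ : (G.map f).deleteEdges {s(f u, f v)} →g G.deleteEdges {s(u, v)} :=
    { toFun := Function.invFun f
      map_rel' := by
        intro a b hab
        rw [SimpleGraph.deleteEdges_adj] at hab
        obtain ⟨a', b', hab', rfl, rfl⟩ := (SimpleGraph.map_adj f G a b).1 hab.1
        rw [hg, hg, SimpleGraph.deleteEdges_adj]
        refine ⟨hab', fun h1 => hab.2 ?_⟩
        rw [Set.mem_singleton_iff] at h1 ⊢
        have h2 := congrArg (Sym2.map f) h1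
        simpa using h2 }
  have h3 := hreach.map φ
  have e1 : φ (f u) = u := hg u
  have e2 : φ (f v) = v := hg v
  rwa [e1, e2] at h3

theorem LfMK_e {α : Type*} [DecidableEq α] {N : Matroid α} {n : ℕ} (hn : 2 ≤ n)
    (h : IsMK N n) : ∃ (e : ℕ → ℕ → α) (φ : α → Sym2 (Fin n)),
      Set.BijOn φ N.E {x | ¬ x.IsDiag} ∧
      (∀ I ⊆ N.E, N.Indep I ↔ (SimpleGraph.fromEdgeSet (φ '' I)).IsAcyclic) ∧
      (∀ i j (hi : i < n) (hj : j < n), i ≠ j →
        e i j ∈ N.E ∧ φ (e i j) = s((⟨i, hi⟩ : Fin n), (⟨j, hj⟩ : Fin n))) ∧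
      IsK (rf N) e (Finset.range n) ∧
      ((ed e (Finset.range n) : Finset α) : Set α) = N.E := by
  obtain ⟨φ, hφ, hind⟩ := h
  have hψ : ∀ x : Sym2 (Fin n), ∃ a : α, ¬ x.IsDiag → a ∈ N.E ∧ φ a = x := by
    intro x
    by_cases hx : x.IsDiag
    · obtain ⟨a, _, _⟩ := hφ.surjOn (a := s((⟨0, by omega⟩ : Fin n), ⟨1, by omega⟩)) (by
        simp)
      exact ⟨a, fun h => absurd hx h⟩
    · obtain ⟨a, ha, ha2⟩ := hφ.surjOn hx
      exact ⟨a, fun _ => ⟨ha, ha2⟩⟩
  choose ψ hψ using hψ
  let z : Fin n := ⟨0, by omega⟩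
  let p : ℕ → Fin n := fun i => if h : i < n then ⟨i, h⟩ else z
  have hp : ∀ i (hi : i < n), p i = ⟨i, hi⟩ := fun i hi => dif_pos hi
  have hpne : ∀ i j, i < n → j < n → i ≠ j → p i ≠ p j := by
    intro i j hi hj hij he
    rw [hp i hi, hp j hj] at he
    exact hij (congrArg Fin.val he)
  let e : ℕ → ℕ → α := fun i j => ψ s(p i, p j)
  have hE : ∀ i j, i < n → j < n → i ≠ j → e i j ∈ N.E ∧ φ (e i j) = s(p i, p j) := by
    intro i j hi hj hij
    apply hψ
    rw [Sym2.mk_isDiag_iff]
    exact hpne i j hi hj hij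
  have isE : IsE e (Finset.range n) := by
    constructor
    · intro i _ j _
      change ψ s(p i, p j) = ψ s(p j, p i)
      rw [Sym2.eq_swap]
    · intro i hi j hj k hk l hl hij hkl he
      rw [Finset.mem_range] at hi hj hk hl
      have h1 := (hE i j hi hj hij).2
      have h2 := (hE k l hk hl hkl).2
      rw [he, h2, Sym2.eq_iff, hp i hi, hp j hj, hp k hk, hp l hl] at h1
      rcases h1 with ⟨h3, h4⟩ | ⟨h3, h4⟩
      · exact Or.inl ⟨(congrArg Fin.val h3).symm, (congrArg Fin.val h4).symm⟩
      · exact Or.inr ⟨(congrArg Fin.val h4).symm, (congrArg Fin.val h3).symm⟩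
  have hsub : ∀ x ∈ ed e (Finset.range n), x ∈ N.E := by
    intro x hx
    obtain ⟨i, hi, j, hj, hij, rfl⟩ := mem_ed.1 hx
    exact (hE i j (Finset.mem_range.1 hi) (Finset.mem_range.1 hj) hij).1
  refine ⟨e, φ, hφ, hind, fun i j hi hj hij => ?_, ⟨isE, ?_, ?_⟩, ?_⟩
  · obtain ⟨h1, h2⟩ := hE i j hi hj hij
    rw [hp i hi, hp j hj] at h2
    exact ⟨h1, h2⟩
  · intro i hi j hj k hk hij hjk hik
    rw [Finset.mem_range] at hi hj hk
    have f1 := hE i j hi hj hij
    have f2 := hE j k hj hk hjk
    have f3 := hE i k hi hk hik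
    have n12 : e i j ≠ e j k := by
      intro he
      rcases isE.inj i (Finset.mem_range.2 hi) j (Finset.mem_range.2 hj) j
        (Finset.mem_range.2 hj) k (Finset.mem_range.2 hk) hij hjk he with ⟨h1, _⟩ | ⟨h1, _⟩
      · exact hij h1
      · exact hik h1
    have c2 : (rf N).r {e i j, e j k} = 2 := by
      have hI : N.Indep (({e i j, e j k} : Finset α) : Set α) := by
        rw [hind _ (by
          intro x hx
          rw [Finset.coe_insert, Finset.coe_singleton] at hx
          rcases hx with rfl | hx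
          · exact f1.1
          · rw [Set.mem_singleton_iff] at hx
            rw [hx]
            exact f2.1)]
        have e1 : φ '' (({e i j, e j k} : Finset α) : Set α)
            = (fun w => s(p j, w)) '' ({p i, p k} : Set (Fin n)) := by
          rw [Finset.coe_insert, Finset.coe_singleton, Set.image_pair, Set.image_pair, f1.2, f2.2,
            Sym2.eq_swap]
        rw [e1]
        exact star_acyclic _ _
      rw [rf_indep] at hI
      rw [hI, Finset.card_pair n12]
    have c3 : (rf N).r (insert (e i k) {e i j, e j k}) ≤ 2 := by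
      by_contra hc
      have h4 := (rf N).le_card (insert (e i k) {e i j, e j k})
      have h5 : (insert (e i k) ({e i j, e j k} : Finset α)).card ≤ 3 := Finset.card_le_three
      have h6 : N.Indep ((insert (e i k) ({e i j, e j k} : Finset α) : Finset α) : Set α) := by
        rw [rf_indep]
        omega
      rw [hind _ (by
          intro x hx
          rw [Finset.coe_insert, Finset.coe_insert, Finset.coe_singleton] at hx
          rcases hx with rfl | rfl | hx
          · exact f3.1
          · exact f1.1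
          · rw [Set.mem_singleton_iff] at hx
            rw [hx]
            exact f2.1)] at h6
      apply tri_not_acyclic (hpne i j hi hj hij) (hpne j k hj hk hjk) (hpne i k hi hk hik)
      have e1 : φ '' ((insert (e i k) ({e i j, e j k} : Finset α) : Finset α) : Set α)
          = {s(p i, p j), s(p j, p k), s(p i, p k)} := by
        rw [Finset.coe_insert, Finset.coe_insert, Finset.coe_singleton, Set.image_insert_eq,
          Set.image_pair, f1.2, f2.2, f3.2, Set.insert_comm, Set.pair_comm (s(p i, p k))]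
      rwa [e1] at h6
    have c4 : (rf N).r {e i j, e j k} ≤ (rf N).r (insert (e i k) {e i j, e j k}) :=
      (rf N).mono (Finset.subset_insert _ _)
    unfold RF.In
    omega
  · have h0 : 0 ∈ Finset.range n := Finset.mem_range.2 (by omega)
    have h1 := star_card isE h0
    have h2 : N.Indep ((star e 0 (Finset.range n) : Finset α) : Set α) := by
      rw [hind _ (by
        intro x hx
        exact hsub x (star_subset h0 hx))]
      have e1 : φ '' ((star e 0 (Finset.range n) : Finset α) : Set α)
          ⊆ (fun w => s(p 0, w)) '' (Set.univ : Set (Fin n)) := by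
        rintro _ ⟨x, hx, rfl⟩
        obtain ⟨j, hj, hj0, rfl⟩ := mem_star.1 hx
        refine ⟨p j, trivial, ?_⟩
        exact (hE 0 j (by omega) (Finset.mem_range.1 hj) (Ne.symm hj0)).2.symm
      exact (star_acyclic _ _).anti (SimpleGraph.fromEdgeSet_mono e1)
    rw [rf_indep] at h2
    have h3 : (rf N).r (star e 0 (Finset.range n)) ≤ (rf N).r (ed e (Finset.range n)) :=
      (rf N).mono (star_subset h0)
    omega
  · ext x
    constructor
    · exact hsub x
    · intro hx
      have h1 := hφ.mapsTo hx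
      rw [Finset.mem_coe, mem_ed]
      induction hq : φ x using Sym2.ind with
      | _ a b =>
        rw [hq] at h1
        have hab : a ≠ b := h1
        have ha := hp a.1 a.2
        have hb := hp b.1 b.2
        have hab' : a.1 ≠ b.1 := fun h => hab (Fin.ext h)
        refine ⟨a.1, Finset.mem_range.2 a.2, b.1, Finset.mem_range.2 b.2, hab', ?_⟩
        have f := hE a.1 b.1 a.2 b.2 hab'
        apply hφ.injOn f.1 hx
        rw [f.2, hq, ha, hb]

/-- As `isK_of_isMK`; in addition the restriction to the edges of a set `V0` of vertices is the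
cycle matroid of the complete graph with `V0.card` vertices.

Proof.  The construction of `e` and the first two statements are in `BrK.lean`: `e i j` is the
element of `N.E` with `φ (e i j) = s(p i, p j)`, where `p i` is `i` as an element of `Fin n`.  Let
`V0 ⊆ range n`, `s = V0.card` and `f : Fin s ↪ Fin n`, `f t = p (V0.orderEmbOfFin rfl t)`.  The
elements of `ed e V0` are the elements `x` of `N.E` such that `φ x = Sym2.map f y` for some
non-diagonal `y : Sym2 (Fin s)`, and `y` is unique (`Sym2.map.injective`).  Let `φ' x = y` for these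
`x` (and arbitrary otherwise; if `s = 0` or `s = 1` then `ed e V0` is empty; if `Sym2 (Fin s)` is
empty (`s = 0`) then use `α` empty or choose differently: `φ' : α → Sym2 (Fin 0)` exists only if `α`
is empty, so we assume `1 ≤ V0.card`).  `φ'` is a bijection of `ed e V0` and the non-diagonal
elements.  For `I ⊆ ed e V0` the graph `fromEdgeSet (φ '' I)` is
`(fromEdgeSet (φ' '' I)).map f`, so (`map_acyclic`, `SimpleGraph.IsAcyclic.of_map`) one is acyclic
iff the other is; independence in the restriction is `Matroid.restrict_indep_iff`. -/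
theorem isK_of_isMK2 {α : Type*} [DecidableEq α] {N : Matroid α} {n : ℕ} (hn : 2 ≤ n)
    (h : IsMK N n) : ∃ e : ℕ → ℕ → α, IsK (rf N) e (Finset.range n) ∧
      ((ed e (Finset.range n) : Finset α) : Set α) = N.E ∧
      ∀ V0 ⊆ Finset.range n, 1 ≤ V0.card →
        IsMK (N.restrict ((ed e V0 : Finset α) : Set α)) V0.card := by
  classical
  obtain ⟨e, φ, hφ, hind, he, hK, hed⟩ := LfMK_e hn h
  refine ⟨e, hK, hed, fun V0 hV0 hV1 => ?_⟩
  have hlt : ∀ i ∈ V0, i < n := fun i hi => Finset.mem_range.1 (hV0 hi)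
  let f : Fin V0.card ↪ Fin n :=
    { toFun := fun t => ⟨V0.orderEmbOfFin rfl t, hlt _ (Finset.orderEmbOfFin_mem V0 rfl t)⟩
      inj' := fun a b hab => (V0.orderEmbOfFin rfl).injective (congrArg Fin.val hab) }
  have hf : ∀ t, (f t : ℕ) = V0.orderEmbOfFin rfl t := fun t => rfl
  have hsurj : ∀ i (hi : i ∈ V0), ∃ t, f t = ⟨i, hlt i hi⟩ := by
    intro i hi
    have h1 : i ∈ Set.range (V0.orderEmbOfFin rfl) := by
      rw [Finset.range_orderEmbOfFin]
      exact hi
    obtain ⟨t, ht⟩ := h1
    exact ⟨t, Fin.ext ht⟩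
  have hsub : ((ed e V0 : Finset α) : Set α) ⊆ N.E := by
    intro x hx
    rw [Finset.mem_coe] at hx
    obtain ⟨i, hi, j, hj, hij, rfl⟩ := mem_ed.1 hx
    exact (he i j (hlt i hi) (hlt j hj) hij).1
  let φ' : α → Sym2 (Fin V0.card) := fun x =>
    if h : ∃ y : Sym2 (Fin V0.card), Sym2.map f y = φ x then h.choose
    else s(⟨0, hV1⟩, ⟨0, hV1⟩)
  have hφ' : ∀ x ∈ ed e V0, Sym2.map f (φ' x) = φ x := by
    intro x hx
    have h1 : ∃ y : Sym2 (Fin V0.card), Sym2.map f y = φ x := by
      obtain ⟨i, hi, j, hj, hij, rfl⟩ := mem_ed.1 hx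
      obtain ⟨a, ha⟩ := hsurj i hi
      obtain ⟨b, hb⟩ := hsurj j hj
      refine ⟨s(a, b), ?_⟩
      rw [Sym2.map_mk, ha, hb]
      exact (he i j (hlt i hi) (hlt j hj) hij).2.symm
    have h2 : φ' x = h1.choose := dif_pos h1
    rw [h2]
    exact h1.choose_spec
  have hsur : ∀ y : Sym2 (Fin V0.card), ¬ y.IsDiag → ∃ x ∈ ed e V0, φ x = Sym2.map f y := by
    intro y hy
    induction y using Sym2.ind with
    | _ a b =>
      rw [Sym2.mk_isDiag_iff] at hy
      have hab : (V0.orderEmbOfFin rfl a : ℕ) ≠ V0.orderEmbOfFin rfl b :=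
        fun h1 => hy ((V0.orderEmbOfFin rfl).injective h1)
      have hma := Finset.orderEmbOfFin_mem V0 rfl a
      have hmb := Finset.orderEmbOfFin_mem V0 rfl b
      refine ⟨e (V0.orderEmbOfFin rfl a) (V0.orderEmbOfFin rfl b),
        mem_ed.2 ⟨_, hma, _, hmb, hab, rfl⟩, ?_⟩
      rw [(he _ _ (hlt _ hma) (hlt _ hmb) hab).2, Sym2.map_mk]
      rfl
  refine ⟨φ', ⟨?_, ?_, ?_⟩, ?_⟩
  · intro x hx
    have h1 : ¬ (φ x).IsDiag := hφ.mapsTo (hsub hx)
    rw [← hφ' x hx, Sym2.isDiag_map f.injective] at h1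
    exact h1
  · intro x hx x' hx' hxx
    apply hφ.injOn (hsub hx) (hsub hx')
    rw [← hφ' x hx, ← hφ' x' hx', hxx]
  · intro y hy
    obtain ⟨x, hx, hxy⟩ := hsur y hy
    refine ⟨x, hx, ?_⟩
    apply Sym2.map.injective f.injective
    rw [hφ' x hx, hxy]
  · intro I hI
    have hI' : I ⊆ ((ed e V0 : Finset α) : Set α) := hI
    rw [Matroid.restrict_indep_iff, hind I (hI'.trans hsub)]
    have hG : SimpleGraph.fromEdgeSet (φ '' I) =
        (SimpleGraph.fromEdgeSet (φ' '' I)).map f := by
      ext a b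
      rw [SimpleGraph.map_adj, SimpleGraph.fromEdgeSet_adj]
      constructor
      · rintro ⟨⟨x, hx, hxab⟩, hab⟩
        have h1 := hφ' x (hI' hx)
        induction hq : φ' x using Sym2.ind with
        | _ u v =>
          rw [hq, Sym2.map_mk, hxab, Sym2.eq_iff] at h1
          rcases h1 with ⟨h1, h2⟩ | ⟨h1, h2⟩
          · refine ⟨u, v, ?_, h1, h2⟩
            rw [SimpleGraph.fromEdgeSet_adj]
            refine ⟨⟨x, hx, hq⟩, ?_⟩
            rintro rfl
            exact hab (h1.symm.trans h2)
          · refine ⟨v, u, ?_, h2, h1⟩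
            rw [SimpleGraph.fromEdgeSet_adj]
            refine ⟨⟨x, hx, hq.trans Sym2.eq_swap⟩, ?_⟩
            rintro rfl
            exact hab (h2.symm.trans h1)
      · rintro ⟨u, v, huv, rfl, rfl⟩
        rw [SimpleGraph.fromEdgeSet_adj] at huv
        obtain ⟨⟨x, hx, hxuv⟩, huv⟩ := huv
        refine ⟨⟨x, hx, ?_⟩, fun h1 => huv (f.injective h1)⟩
        rw [← hφ' x (hI' hx), hxuv, Sym2.map_mk]
    constructor
    · rintro ⟨h1, -⟩
      rw [hG] at h1
      exact h1.of_map f
    · intro h1
      refine ⟨?_, hI'⟩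
      rw [hG]
      exact map_acyclic f h1

end Pool.Agent.H.MP_60a1a2_co
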