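import Pool.Agent.H.MP_60a1a2_co.LfKap
import Pool.Agent.H.MP_60a1a2_co.LfMK
import Pool.Agent.H.MP_60a1a2_co.Final

/-! # Configurations of matroids -/

set_option autoImplicit false

namespace Pool.Agent.H.MP_60a1a2_co

open Matroid

/-- parts of a clique and of a coclique with large rank are highly connected -/
theorem kap_both {α : Type*} [DecidableEq α] {M : RF α} {E C1 C2 F1 F2 : Finset α}
    {e1 e2 : ℕ → ℕ → α} {V W : Finset ℕ} {n q : ℕ}
    (hC1 : C1 ⊆ E) (hE1 : ed e1 V ⊆ E \ C1) (hK : IsK (M.con C1) e1 V)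
    (hC2 : C2 ⊆ E) (hE2 : ed e2 W ⊆ E \ C2) (hD : IsK ((M.con C2).dual (ed e2 W)) e2 W)
    (hd : Disjoint (ed e1 V) (ed e2 W)) (hk : Kap M E (ed e1 V) (ed e2 W) n)
    (hF1 : F1 ⊆ ed e1 V) (hF2 : F2 ⊆ ed e2 W) (hq1 : q ≤ (M.con C1).r F1)
    (hq2 : q ≤ ((M.con C2).dual (ed e2 W)).r F2) (hn : 8 * q * q + q ≤ n) :
    Kap M E F1 F2 q := by
  intro X hX hXE hXd
  rcases Nat.eq_zero_or_pos q with hq0 | hqpos
  · subst hq0
    have h1 := M.r_union_le X (E \ X)
    rw [Finset.union_sdiff_of_subset hXE] at h1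
    omega
  by_contra hcon
  have hcon' := not_le.1 hcon
  set K := M.con C1 with hKdef
  set D := (M.con C2).dual (ed e2 W) with hDdef
  have hm1 := minor_conn' M E C1 (ed e1 V) X hC1 hE1 hXE
  have hm2 := minor_conn M E C2 (ed e2 W) X hC2 hE2 hXE
  rw [← hKdef] at hm1
  rw [← hDdef] at hm2
  have hVne : V.Nonempty := by
    by_contra h
    rw [Finset.not_nonempty_iff_eq_empty] at h
    subst h
    have h1 : F1 ⊆ ∅ := hF1.trans (by simp [ed])
    rw [Finset.subset_empty.1 h1, K.r_empty] at hq1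
    omega
  have hWne : W.Nonempty := by
    by_contra h
    rw [Finset.not_nonempty_iff_eq_empty] at h
    have h1 : F2 ⊆ ∅ := hF2.trans (by simp [ed, h])
    rw [Finset.subset_empty.1 h1, D.r_empty] at hq2
    omega
  have hKr := hK.rank hVne
  have hDr := hD.rank hWne
  have hs1 : F1 ⊆ X ∩ ed e1 V := Finset.subset_inter hX hF1
  have hs2 : F2 ⊆ ed e2 W \ X := by
    intro x hx
    rw [Finset.mem_sdiff]
    exact ⟨hF2 hx, fun h => Finset.disjoint_left.1 hXd h hx⟩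
  have hmon1 := K.mono hs1
  have hmon2 := D.mono hs2
  have hc1 := hK.compl hVne (Z := X ∩ ed e1 V) Finset.inter_subset_right
  have hc2 := hD.compl hWne (Z := X ∩ ed e2 W) Finset.inter_subset_right
  have e1' : ed e1 V \ (X ∩ ed e1 V) = ed e1 V \ X := by
    ext a; simp only [Finset.mem_sdiff, Finset.mem_inter]; tauto
  have e2' : ed e2 W \ (X ∩ ed e2 W) = ed e2 W \ X := by
    ext a; simp only [Finset.mem_sdiff, Finset.mem_inter]; tauto
  rw [e1'] at hc1
  rw [e2'] at hc2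
  have hsm1 : K.r (ed e1 V \ X) ≤ q := by
    rcases hc1 with h2 | h2 <;> omega
  have hsm2 : D.r (X ∩ ed e2 W) ≤ q := by
    rcases hc2 with h2 | h2 <;> omega
  obtain ⟨T1, hT1, hTc1, hTs1⟩ := hK.touched (Z := ed e1 V \ X) Finset.sdiff_subset
  obtain ⟨T2, hT2, hTc2, hTs2⟩ := hD.touched (Z := X ∩ ed e2 W) Finset.inter_subset_right
  have b1 : (ed e1 V \ X).card ≤ (2 * q) * (2 * q) :=
    (Finset.card_le_card hTs1).trans ((ed_card_le e1 T1).trans
      (Nat.mul_le_mul (by omega) (by omega)))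
  have b2 : (X ∩ ed e2 W).card ≤ (2 * q) * (2 * q) :=
    (Finset.card_le_card hTs2).trans ((ed_card_le e2 T2).trans
      (Nat.mul_le_mul (by omega) (by omega)))
  have b3 : (2 * q) * (2 * q) + (2 * q) * (2 * q) = 8 * q * q := by ring
  have hX' := hk ((X ∪ ed e1 V) \ ed e2 W)
    (by
      intro x hx
      rw [Finset.mem_sdiff]
      exact ⟨Finset.mem_union_right _ hx, fun h => Finset.disjoint_left.1 hd hx h⟩)
    (Finset.sdiff_subset.trans (Finset.union_subset hXE (hE1.trans Finset.sdiff_subset)))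
    Finset.sdiff_disjoint
  have hu : (X ∪ ed e1 V) \ ed e2 W ⊆ X ∪ (ed e1 V \ X) := by
    intro a; simp only [Finset.mem_union, Finset.mem_sdiff]; tauto
  have h3 : M.r ((X ∪ ed e1 V) \ ed e2 W) ≤ M.r X + (ed e1 V \ X).card :=
    (M.mono hu).trans (M.r_union_le_card _ _)
  have hu2 : E \ ((X ∪ ed e1 V) \ ed e2 W) ⊆ (E \ X) ∪ (X ∩ ed e2 W) := by
    intro a; simp only [Finset.mem_union, Finset.mem_sdiff, Finset.mem_inter]; tauto
  have h4 : M.r (E \ ((X ∪ ed e1 V) \ ed e2 W)) ≤ M.r (E \ X) + (X ∩ ed e2 W).card :=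
    (M.mono hu2).trans (M.r_union_le_card _ _)
  omega

/-- the configuration given by two interconnected minors, with more information -/
theorem conf_of2 {α : Type*} [DecidableEq α] {M : Matroid α} {E : Finset α}
    (hE : (E : Set α) = M.E) {C1 D1 C2 D2 : Finset α} (hC1 : C1 ⊆ E)
    (hC2 : C2 ⊆ E) {a b n : ℕ} (ha : 2 ≤ a) (hb : 2 ≤ b) (hnb : n ≤ b)
    (h1 : IsMK (M ／ (C1 : Set α) ＼ (D1 : Set α)) a)
    (h2 : IsMK (M ／ (C2 : Set α) ＼ (D2 : Set α))✶ b)
    (hint : Interconnected M (M ／ (C1 : Set α) ＼ (D1 : Set α)) (M ／ (C2 : Set α) ＼ (D2 : Set α)) n) :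
    ∃ (e1 : ℕ → ℕ → α) (e2 : ℕ → ℕ → α),
      Conf (rf M) E C1 C2 e1 (Finset.range a) e2 (Finset.range b) n ∧
      ((ed e1 (Finset.range a) : Finset α) : Set α) = (M ／ (C1 : Set α) ＼ (D1 : Set α)).E ∧
      ((ed e2 (Finset.range b) : Finset α) : Set α) = (M ／ (C2 : Set α) ＼ (D2 : Set α)).E ∧
      (∀ V0 ⊆ Finset.range a, 1 ≤ V0.card →
        IsMK ((M ／ (C1 : Set α) ＼ (D1 : Set α)).restrict ((ed e1 V0 : Finset α) : Set α))
          V0.card) ∧
      (∀ W0 ⊆ Finset.range b, 1 ≤ W0.card →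
        IsMK ((M ／ (C2 : Set α) ＼ (D2 : Set α))✶.restrict ((ed e2 W0 : Finset α) : Set α))
          W0.card) ∧
      (∀ X ⊆ ed e1 (Finset.range a), ((rf M).con C1).r X =
        (rf (M ／ (C1 : Set α) ＼ (D1 : Set α))).r X) ∧
      (∀ X ⊆ ed e2 (Finset.range b), (((rf M).con C2).dual (ed e2 (Finset.range b))).r X =
        (rf (M ／ (C2 : Set α) ＼ (D2 : Set α))✶).r X) := by
  set N1 := M ／ (C1 : Set α) ＼ (D1 : Set α) with hN1
  set N2 := M ／ (C2 : Set α) ＼ (D2 : Set α) with hN2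
  obtain ⟨e1, hK1, hed1, hMK⟩ := isK_of_isMK2 ha h1
  obtain ⟨e2, hK2, hed2, hMK2⟩ := isK_of_isMK2 hb h2
  have hed2' : ((ed e2 (Finset.range b) : Finset α) : Set α) = N2.E := by
    rw [hed2, Matroid.dual_ground]
  have hN1E : N1.E = (M.E \ (C1 : Set α)) \ (D1 : Set α) := rfl
  have hN2E : N2.E = (M.E \ (C2 : Set α)) \ (D2 : Set α) := rfl
  have hs1 : ed e1 (Finset.range a) ⊆ E \ C1 := by
    intro x hx
    have hx' : x ∈ ((ed e1 (Finset.range a) : Finset α) : Set α) := hx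
    rw [hed1, hN1E, ← hE] at hx'
    rw [Finset.mem_sdiff]
    exact ⟨hx'.1.1, fun h => hx'.1.2 h⟩
  have hs2 : ed e2 (Finset.range b) ⊆ E \ C2 := by
    intro x hx
    have hx' : x ∈ ((ed e2 (Finset.range b) : Finset α) : Set α) := hx
    rw [hed2', hN2E, ← hE] at hx'
    rw [Finset.mem_sdiff]
    exact ⟨hx'.1.1, fun h => hx'.1.2 h⟩
  have hd1 : ∀ X ⊆ ed e1 (Finset.range a), Disjoint (X : Set α) (D1 : Set α) := by
    intro X hX
    rw [Set.disjoint_left]
    intro x hx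
    have hx' : x ∈ ((ed e1 (Finset.range a) : Finset α) : Set α) := hX hx
    rw [hed1, hN1E] at hx'
    exact hx'.2
  have hd2 : ∀ X ⊆ ed e2 (Finset.range b), Disjoint (X : Set α) (D2 : Set α) := by
    intro X hX
    rw [Set.disjoint_left]
    intro x hx
    have hx' : x ∈ ((ed e2 (Finset.range b) : Finset α) : Set α) := hX hx
    rw [hed2', hN2E] at hx'
    exact hx'.2
  have hr1 : ∀ X ⊆ ed e1 (Finset.range a), ((rf M).con C1).r X = (rf N1).r X := by
    intro X hX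
    rw [hN1, rf_delete _ _ _ (hd1 X hX), rf_contract M E C1 X hE hC1 (hX.trans hs1)]
  have hr2 : ∀ X ⊆ ed e2 (Finset.range b), ((rf M).con C2).r X = (rf N2).r X := by
    intro X hX
    rw [hN2, rf_delete _ _ _ (hd2 X hX), rf_contract M E C2 X hE hC2 (hX.trans hs2)]
  have hr3 : ∀ X ⊆ ed e2 (Finset.range b), (((rf M).con C2).dual (ed e2 (Finset.range b))).r X =
      (rf N2✶).r X := by
    intro X hX
    rw [rf_dual N2 (ed e2 (Finset.range b)) X hed2' hX]
    have b1 := ((rf M).con C2).dual_add hX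
    have b2 := (rf N2).dual_add hX
    rw [hr2 _ (Finset.Subset.refl _), hr2 _ Finset.sdiff_subset] at b1
    omega
  refine ⟨e1, e2, ⟨hC1, hs1, hK1.congr hr1, hC2, hs2, hK2.congr hr3, ?_, ?_, ?_⟩, hed1, hed2',
    hMK, hMK2, hr1, hr3⟩
  · have := hint.1
    rw [← hed1, ← hed2'] at this
    exact_mod_cast this
  · intro X hX hXE hXd
    have hX1 : N1.E ⊆ (X : Set α) := by
      rw [← hed1]
      exact_mod_cast hX
    have hX2 : (X : Set α) ⊆ M.E \ N2.E := by
      intro x hx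
      refine ⟨?_, ?_⟩
      · rw [← hE]
        exact hXE hx
      · rw [← hed2']
        intro h
        exact Finset.disjoint_left.1 hXd hx h
    have h := hint.2 (X : Set α) hX1 hX2
    rw [Matroid.eRank_def, ← hE, ← Finset.coe_sdiff, ← rf_coe, ← rf_coe, ← rf_coe] at h
    exact_mod_cast h
  · rw [Finset.card_range]
    exact hnb

end Pool.Agent.H.MP_60a1a2_co
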