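import Pool.Agent.H.MP_60a1a2_co.LcCocl
import Pool.Agent.H.MP_60a1a2_co.LfAc
import Pool.Agent.H.MP_60a1a2_co.LfBd
import Pool.Agent.H.MP_60a1a2_co.LfMat

/-! # The theorem for presentations of linear cost -/

set_option autoImplicit false

namespace Pool.Agent.H.MP_60a1a2_co

/-- The conclusion if we are given a large clique in `M.con Y`, where the edges of the clique are
edges of the given clique, and the local connectivity of `Y` with the coclique in `M / C2` is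
linear. -/
theorem lc_join.{u} (k : ℕ) : ∃ w B : ℕ, ∀ c : ℕ, ∃ n : ℕ, ∀ {α : Type u} [DecidableEq α]
    (M : RF α) (E C1 C2 : Finset α) (e1 : ℕ → ℕ → α) (V : Finset ℕ) (e2 : ℕ → ℕ → α)
    (W : Finset ℕ), Conf M E C1 C2 e1 V e2 W w → n ≤ W.card →
    ∀ (Y : Finset α) (e' : ℕ → ℕ → α) (V' : Finset ℕ), Y ⊆ E → ed e' V' ⊆ ed e1 V →
    IsK (M.con Y) e' V' → B ≤ V'.card → B ≤ (M.con C1).r (ed e' V') →
    M.r (C2 ∪ Y) + M.r (C2 ∪ ed e2 W) ≤ M.r C2 + M.r (C2 ∪ Y ∪ ed e2 W) + c * W.card →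
    Fin2 M E k := by
  obtain ⟨q, hq⟩ := ac_main.{u} k 0
  refine ⟨8 * q * q + q, q, ?_⟩
  intro c
  obtain ⟨n, hn⟩ := lc_cocl.{u} k c q
  refine ⟨n, ?_⟩
  intro α _ M E C1 C2 e1 V e2 W hc hWn Y e' V' hY hE' hK' hV' hr' hcost
  rcases hn M E C2 Y e2 W hc.hC2 hc.hE2 hc.cocl hWn hY hcost with
    h | ⟨F2, W', e'', hG, hW', hGY, hcc, hr''⟩
  · exact Fin2.of_unif h
  have hkap : Kap M E (ed e' V') (ed e'' W') q :=
    kap_both hc.hC1 hc.hE1 hc.clq hc.hC2 hc.hE2 hc.cocl hc.dsj hc.kap hE' hG hr' hr'' le_rfl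
  have hC2'' : C2 ∪ Y ∪ (ed e2 W \ (F2 ∪ ed e'' W')) ⊆ E :=
    Finset.union_subset (Finset.union_subset hc.hC2 hY)
      (Finset.sdiff_subset.trans (hc.hE2.trans Finset.sdiff_subset))
  have hconf : Conf M E Y (C2 ∪ Y ∪ (ed e2 W \ (F2 ∪ ed e'' W'))) e' V' e'' W' q := by
    refine ⟨hY, ?_, hK', hC2'', ?_, hcc, ?_, hkap, hW'⟩
    · intro x hx
      exact Finset.mem_sdiff.2 ⟨(Finset.mem_sdiff.1 (hc.hE1 (hE' hx))).1,
        Finset.disjoint_left.1 (ed_disj_con hK') hx⟩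
    · intro x hx
      have h1 := Finset.mem_sdiff.1 (hc.hE2 (hG hx))
      rw [Finset.mem_sdiff, Finset.mem_union, Finset.mem_union, Finset.mem_sdiff]
      refine ⟨h1.1, ?_⟩
      rintro ((h2 | h2) | h2)
      · exact h1.2 h2
      · exact Finset.disjoint_left.1 hGY hx h2
      · exact h2.2 (Finset.mem_union_right _ hx)
    · exact Finset.disjoint_of_subset_left hE' (Finset.disjoint_of_subset_right hG hc.dsj)
  refine hq M E Y _ e' V' e'' W' hconf hV' ?_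
  have h1 : C2 ∪ Y ∪ (ed e2 W \ (F2 ∪ ed e'' W')) ∪ (Y \ ed e'' W') =
      C2 ∪ Y ∪ (ed e2 W \ (F2 ∪ ed e'' W')) := by
    ext x
    simp only [Finset.mem_union, Finset.mem_sdiff]
    tauto
  rw [h1]
  omega

/-- The main theorem for rank functions. -/
theorem lc_final.{u} (k : ℕ) : ∃ (w : ℕ) (f : ℕ → ℕ), ∀ c d : ℕ, ∀ {α : Type u} [DecidableEq α]
    (M : RF α) (E C1 C2 : Finset α) (e1 : ℕ → ℕ → α) (V : Finset ℕ) (e2 : ℕ → ℕ → α)
    (W : Finset ℕ), Conf M E C1 C2 e1 V e2 W w → f d ≤ W.card →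
    ∀ (X : Finset α) (e0 : ℕ → ℕ → α) (V0 : Finset ℕ), X ⊆ C1 → ed e0 V0 ⊆ ed e1 V →
    IsK (M.con C1) e0 V0 → f c ≤ V0.card →
    ((M.con X).r (ed e0 V0) ≤ c * V0.card ∨
      ∀ V1 ⊆ V0, V1.card = c + 1 → (M.con X).r (ed e0 V1) < (ed e0 V1).card) →
    M.r (C2 ∪ X ∪ ed e0 V0) + M.r (C2 ∪ ed e2 W) ≤
      M.r C2 + M.r (C2 ∪ X ∪ ed e0 V0 ∪ ed e2 W) + d * W.card → Fin2 M E k := by
  obtain ⟨w, B, hw⟩ := lc_join.{u} k
  choose g hg using hw
  have hm := fun c => lc_main.{u} k c B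
  choose f2 hf2 using hm
  have hl := fun c => lt0.{u} k (c + 1) B
  choose f3 hf3 using hl
  refine ⟨w, fun c => g c + f2 c + f3 c, ?_⟩
  intro c d α _ M E C1 C2 e1 V e2 W hc hWn X e0 V0 hX hE0 hK0 hV0 hcase hcost
  have hWn' : g d + f2 d + f3 d ≤ W.card := hWn
  have hV0' : g c + f2 c + f3 c ≤ V0.card := hV0
  have hXE : X ⊆ E := hX.trans hc.hC1
  have hLift : Lift (M.con X) (M.con C1) e0 V0 := by
    have h1 := lift_con M X C1 e0 V0
    rwa [Finset.union_eq_right.2 hX] at h1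
  have hE0X : ed e0 V0 ⊆ E \ X := by
    intro x hx
    have h1 := Finset.mem_sdiff.1 (hc.hE1 (hE0 hx))
    exact Finset.mem_sdiff.2 ⟨h1.1, fun h2 => h1.2 (hX h2)⟩
  have key : HasM (M.con X) (ed e0 V0) (unif k) ∨
      ∃ (F : Finset α) (V' : Finset ℕ) (e' : ℕ → ℕ → α),
      F ∪ ed e' V' ⊆ ed e0 V0 ∧ Disjoint F (ed e' V') ∧ B ≤ V'.card ∧
      IsK ((M.con X).con F) e' V' ∧ B ≤ (M.con C1).r (ed e' V') := by
    rcases hcase with h | h
    · exact hf2 c (M.con X) (M.con C1) e0 V0 hK0 hLift (by omega) h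
    · rcases hf3 c (M.con X) (M.con C1) e0 V0 hK0 (by omega) hLift h with
        h' | ⟨F, V', e', h1, h2, h3, h4, h5⟩
      · exact Or.inl h'
      · right
        refine ⟨F, V', e', h1, h2, h3, h4, ?_⟩
        have h6 := hLift ∅ F (Finset.empty_subset _) (Finset.subset_union_left.trans h1)
        rw [RF.r_empty, RF.r_empty] at h6
        have h7 := (M.con C1).r_union_le F (ed e' V')
        omega
  rcases key with h | ⟨F, V', e', h1, h2, h3, h4, h5⟩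
  · exact Fin2.of_unif (HasM.of_con hXE hE0X h)
  have hF : F ⊆ ed e0 V0 := Finset.subset_union_left.trans h1
  have hE' : ed e' V' ⊆ ed e0 V0 := Finset.subset_union_right.trans h1
  have hE0E : ed e0 V0 ⊆ E := hE0X.trans Finset.sdiff_subset
  rw [M.con_con_eq] at h4
  refine hg d M E C1 C2 e1 V e2 W hc (by omega) (X ∪ F) e' V'
    (Finset.union_subset hXE (hF.trans hE0E)) (hE'.trans hE0) h4 h3 h5 ?_
  have hsub : C2 ∪ (X ∪ F) ⊆ C2 ∪ X ∪ ed e0 V0 := by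
    intro x hx
    simp only [Finset.mem_union] at hx ⊢
    rcases hx with hx | hx | hx
    · exact Or.inl (Or.inl hx)
    · exact Or.inl (Or.inr hx)
    · exact Or.inr (hF hx)
  have h6 := M.incr hsub (ed e2 W)
  omega

/-- The theorem for connectivity at most linear in the sizes of the cliques. -/
theorem lc_conn.{u} (k : ℕ) : ∃ (w : ℕ) (f : ℕ → ℕ), ∀ c d : ℕ, ∀ {α : Type u} [DecidableEq α]
    (M : RF α) (E C1 C2 : Finset α) (e1 : ℕ → ℕ → α) (V : Finset ℕ) (e2 : ℕ → ℕ → α)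
    (W : Finset ℕ), Conf M E C1 C2 e1 V e2 W w → f c ≤ V.card → f d ≤ W.card →
    (∃ A, ed e1 V ⊆ A ∧ A ⊆ E ∧ Disjoint A (ed e2 W) ∧
      M.r A + M.r (E \ A) ≤ c * V.card + M.r E ∧ M.r A + M.r (E \ A) ≤ d * W.card + M.r E) →
    Fin2 M E k := by
  obtain ⟨w, f, hf⟩ := lc_final.{u} k
  refine ⟨w, fun c => f c + f (c + 1) + 1, ?_⟩
  intro c d α _ M E C1 C2 e1 V e2 W hc hVn hWn ⟨A, hEA, hAE, hAW, hconn1, hconn2⟩
  have hVn' : f c + f (c + 1) + 1 ≤ V.card := hVn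
  have hWn' : f d + f (d + 1) + 1 ≤ W.card := hWn
  have hE2 : ed e2 W ⊆ E := hc.hE2.trans Finset.sdiff_subset
  have hWB : ed e2 W ⊆ E \ A := by
    intro x hx
    exact Finset.mem_sdiff.2 ⟨hE2 hx, fun hxA => Finset.disjoint_left.1 hAW hxA hx⟩
  have hXC : C1 ∩ A ⊆ C1 := Finset.inter_subset_left
  have hXA : C1 ∩ A ⊆ A := Finset.inter_subset_right
  have hVne : V.Nonempty := by
    rw [← Finset.card_pos]
    omega
  refine hf (c + 1) d M E C1 C2 e1 V e2 W hc (by omega) (C1 ∩ A) e1 V hXC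
    (Finset.Subset.refl _) hc.clq (by omega) (Or.inl ?_) ?_
  · have c1 := conn_con hAE hEA (hXC.trans hc.hC1) hconn1
    have hsub : C1 ⊆ (C1 ∩ A) ∪ (E \ A) := by
      intro x hx
      have hxE := hc.hC1 hx
      simp only [Finset.mem_union, Finset.mem_inter, Finset.mem_sdiff]
      tauto
    have c2 := M.incr hsub (ed e1 V)
    have c3 := (M.con_add C1 (ed e1 V))
    have c4 := (M.con_add (C1 ∩ A) (ed e1 V))
    have c5 := hc.clq.rank hVne
    have c6 : C1 ∪ ed e1 V = ed e1 V ∪ C1 := Finset.union_comm _ _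
    have c7 : (C1 ∩ A) ∪ (E \ A) ∪ ed e1 V = ed e1 V ∪ (C1 ∩ A) ∪ (E \ A) := by
      rw [Finset.union_comm, Finset.union_assoc]
    have c8 : (c + 1) * V.card = c * V.card + V.card := by ring
    rw [c6, c7] at c2
    omega
  · have c1 := conn_con hAE (Finset.union_subset hXA hEA) hc.hC2 hconn2
    have hsub : C2 ∪ ed e2 W ⊆ C2 ∪ (E \ A) := Finset.union_subset_union_right hWB
    have c2 := M.incr hsub ((C1 ∩ A) ∪ ed e1 V)
    have c3 : (C1 ∩ A) ∪ ed e1 V ∪ C2 = C2 ∪ (C1 ∩ A) ∪ ed e1 V := by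
      rw [Finset.union_comm, Finset.union_assoc]
    have c4 : C2 ∪ (E \ A) ∪ ((C1 ∩ A) ∪ ed e1 V) = C2 ∪ (C1 ∩ A) ∪ ed e1 V ∪ (E \ A) := by
      ext x
      simp only [Finset.mem_union]
      tauto
    have c5 : C2 ∪ ed e2 W ∪ ((C1 ∩ A) ∪ ed e1 V) = C2 ∪ (C1 ∩ A) ∪ ed e1 V ∪ ed e2 W := by
      ext x
      simp only [Finset.mem_union]
      tauto
    rw [c3] at c1
    rw [c4, c5] at c2
    omega

end Pool.Agent.H.MP_60a1a2_co
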