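import Pool.Agent.H.MP_60a1a2_co.LfD

/-! # Arrays: properties of the contracted array -/

set_option autoImplicit false

namespace Pool.Agent.H.MP_60a1a2_co

theorem LfDProp_mem_psi {a b : ℕ} {X : Finset (ℚ × ℚ)} {z : ℚ × ℚ} :
    z ∈ psi a b X ↔ (z.1 ∈ neg a ∧ (z.2 ∈ neg b ∨ ∃ c ∈ cls X, shr c = z.2)) ∨
      ((∃ g ∈ rws X, shr g = z.1) ∧ z.2 ∈ neg b) := by
  unfold psi
  simp only [Finset.mem_union, Finset.mem_product, Finset.mem_image]

theorem LfDProp_r_empty (A : RF (ℚ × ℚ)) : A.r ∅ = 0 := by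
  have := A.le_card ∅
  simpa using this

theorem LfDProp_image_id {χ : ℚ → ℚ} {Y : Finset ℚ} (h : ∀ y ∈ Y, χ y = y) : Y.image χ = Y := by
  ext x
  simp only [Finset.mem_image]
  constructor
  · rintro ⟨y, hy, rfl⟩
    rw [h y hy]; exact hy
  · intro hx
    exact ⟨x, hx, h x hx⟩

theorem LfDProp_image_shr {χ φ : ℚ → ℚ} {X : Finset ℚ} (h : ∀ x ∈ X, χ (shr x) = shr (φ x)) :
    (X.image shr).image χ = (X.image φ).image shr := by
  rw [Finset.image_image, Finset.image_image]
  exact Finset.image_congr fun x hx => h x hx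

/-- Homogeneity of the contracted array.

Proof.  Let `φ`, `ψ` be strictly increasing on the rows and columns of `X`.  `mono_glue` for
`rws X` and `neg a` (`neg_out`) gives `χ1`, for `cls X` and `neg b` gives `χ2`.  The rows of
`mv shr shr X ∪ psi a b X` are in `(rws X).image shr ∪ neg a`, the columns in
`(cls X).image shr ∪ neg b`, and `mv χ1 χ2` maps this set to
`mv shr shr (mv φ ψ X) ∪ psi a b (mv φ ψ X)` (`mv_union`, `mv_mv`, `mv_congr`, `mv_prod`,
`rws_mv`, `cls_mv`, `Finset.image_union`, `Finset.image_image`); the same for `psi a b X`.  So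
homogeneity of `B` twice and `hD` for `W = X` and for `W = mv φ ψ X`. -/
theorem dd_hom {B D : RF (ℚ × ℚ)} {a b : ℕ} (hB : AHom B)
    (hD : ∀ X W : Finset (ℚ × ℚ), X ⊆ W →
      D.r X + B.r (psi a b W) = B.r (mv shr shr X ∪ psi a b W)) : AHom D := by
  intro X φ ψ h1 h2
  obtain ⟨χ1, m1, e1, f1⟩ := mono_glue h1 (neg_out a)
  obtain ⟨χ2, m2, e2, f2⟩ := mono_glue h2 (neg_out b)
  have hrw : rws (mv shr shr X ∪ psi a b X) ⊆ (rws X).image shr ∪ neg a := by
    intro g hg
    obtain ⟨h, hh⟩ := mem_rws.1 hg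
    rcases Finset.mem_union.1 hh with h3 | h3
    · obtain ⟨x, y, hxy, h4, -⟩ := mem_mv.1 h3
      exact Finset.mem_union_left _ (Finset.mem_image.2 ⟨x, mem_rws.2 ⟨y, hxy⟩, h4⟩)
    · rcases LfDProp_mem_psi.1 h3 with h4 | h4
      · exact Finset.mem_union_right _ h4.1
      · obtain ⟨x, hx, h5⟩ := h4.1
        exact Finset.mem_union_left _ (Finset.mem_image.2 ⟨x, hx, h5⟩)
  have hcl : cls (mv shr shr X ∪ psi a b X) ⊆ (cls X).image shr ∪ neg b := by
    intro g hg
    obtain ⟨h, hh⟩ := mem_cls.1 hg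
    rcases Finset.mem_union.1 hh with h3 | h3
    · obtain ⟨x, y, hxy, -, h4⟩ := mem_mv.1 h3
      exact Finset.mem_union_left _ (Finset.mem_image.2 ⟨y, mem_cls.2 ⟨x, hxy⟩, h4⟩)
    · rcases LfDProp_mem_psi.1 h3 with h4 | h4
      · rcases h4.2 with h5 | ⟨x, hx, h5⟩
        · exact Finset.mem_union_right _ h5
        · exact Finset.mem_union_left _ (Finset.mem_image.2 ⟨x, hx, h5⟩)
      · exact Finset.mem_union_right _ h4.2
  have key1 : mv χ1 χ2 (mv shr shr X) = mv shr shr (mv φ ψ X) := by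
    rw [mv_mv, mv_mv]
    exact mv_congr (fun g hg => e1 g hg) (fun h hh => e2 h hh)
  have key2 : mv χ1 χ2 (psi a b X) = psi a b (mv φ ψ X) := by
    unfold psi
    rw [mv_union, mv_prod, mv_prod, Finset.image_union, LfDProp_image_id f1,
      LfDProp_image_id f2, LfDProp_image_shr e1, LfDProp_image_shr e2, rws_mv, cls_mv]
  have hr1 : rws (psi a b X) ⊆ (rws X).image shr ∪ neg a :=
    (rws_mono Finset.subset_union_right).trans hrw
  have hc1 : cls (psi a b X) ⊆ (cls X).image shr ∪ neg b :=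
    (cls_mono Finset.subset_union_right).trans hcl
  have b1 := hB (mv shr shr X ∪ psi a b X) χ1 χ2
    (m1.mono (Finset.coe_subset.2 hrw)) (m2.mono (Finset.coe_subset.2 hcl))
  have b2 := hB (psi a b X) χ1 χ2
    (m1.mono (Finset.coe_subset.2 hr1)) (m2.mono (Finset.coe_subset.2 hc1))
  rw [mv_union, key1, key2] at b1
  rw [key2] at b2
  have d1 := hD X X le_rfl
  have d2 := hD (mv φ ψ X) (mv φ ψ X) le_rfl
  omega

/-- One element of a column is free.

Proof.  Let `h ∉ cls Z`, `T = {g}` (`Finset.card_eq_one`), `W = insert (g, h) Z`.  Let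
`P = (mv shr shr Z ∪ psi a b W)` without the elements of the column `shr h`.  The elements of
`psi a b W` in the column `shr h` are `neg a ×ˢ {shr h}` (`neg_shr`), and `mv shr shr Z` avoids this
column.  `CI B (a + 1)` for `P`, the column `shr h` and `insert (shr g) (neg a)` gives
`B.r (mv shr shr W ∪ psi a b W) = B.r P + (a + 1)`, `CI B a` gives
`B.r (mv shr shr Z ∪ psi a b W) = B.r P + a`.  Now use `hD` for `W, W` and for `Z, W`. -/
theorem dd_ci {B D : RF (ℚ × ℚ)} {a b : ℕ} (hc : CI B (a + 1))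
    (hD : ∀ X W : Finset (ℚ × ℚ), X ⊆ W →
      D.r X + B.r (psi a b W) = B.r (mv shr shr X ∪ psi a b W)) : CI D 1 := by
  intro h T Z hT hh
  obtain ⟨g, rfl⟩ := Finset.card_eq_one.1 hT
  set W : Finset (ℚ × ℚ) := Z ∪ {g} ×ˢ {h} with hW
  have hZW : Z ⊆ W := Finset.subset_union_left
  have hhW : h ∈ cls W := mem_cls.2 ⟨g, Finset.mem_union_right _ (by simp)⟩
  set P : Finset (ℚ × ℚ) := (mv shr shr Z ∪ psi a b W).filter (fun z => z.2 ≠ shr h) with hP
  have hPc : shr h ∉ cls P := by
    intro hc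
    obtain ⟨x, hx⟩ := mem_cls.1 hc
    exact (Finset.mem_filter.1 hx).2 rfl
  have hnoZ : ∀ z ∈ mv shr shr Z, z.2 ≠ shr h := by
    intro z hz hz2
    obtain ⟨x, y, hxy, -, h4⟩ := mem_mv.1 hz
    rw [← h4] at hz2
    exact hh (mem_cls.2 ⟨x, by rw [← shr_mono.injective hz2]; exact hxy⟩)
  have c1 : mv shr shr Z ∪ psi a b W = P ∪ neg a ×ˢ {shr h} := by
    ext z
    constructor
    · intro hz
      by_cases hz2 : z.2 = shr h
      · apply Finset.mem_union_right
        rcases Finset.mem_union.1 hz with h3 | h3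
        · exact absurd hz2 (hnoZ z h3)
        · rcases LfDProp_mem_psi.1 h3 with h4 | h4
          · exact Finset.mem_product.2 ⟨h4.1, Finset.mem_singleton.2 hz2⟩
          · rw [hz2] at h4
            exact absurd h4.2 (neg_shr b h)
      · exact Finset.mem_union_left _ (Finset.mem_filter.2 ⟨hz, hz2⟩)
    · intro hz
      rcases Finset.mem_union.1 hz with h3 | h3
      · exact (Finset.mem_filter.1 h3).1
      · obtain ⟨h4, h5⟩ := Finset.mem_product.1 h3
        exact Finset.mem_union_right _ (LfDProp_mem_psi.2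
          (Or.inl ⟨h4, Or.inr ⟨h, hhW, (Finset.mem_singleton.1 h5).symm⟩⟩))
  have hmvW : mv shr shr W = mv shr shr Z ∪ {(shr g, shr h)} := by
    rw [hW, mv_union, mv_prod]
    simp
  have c2 : mv shr shr W ∪ psi a b W = P ∪ (insert (shr g) (neg a)) ×ˢ {shr h} := by
    rw [hmvW, Finset.union_right_comm, c1]
    ext ⟨x, y⟩
    simp only [Finset.mem_union, Finset.mem_product, Finset.mem_singleton, Finset.mem_insert,
      Prod.mk.injEq]
    tauto
  have r1 := hc (shr h) (insert (shr g) (neg a)) P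
    (by rw [Finset.card_insert_of_notMem (neg_shr a g), neg_card]) hPc
  have r2 := hc.pred (shr h) (neg a) P (neg_card a) hPc
  have d1 := hD W W le_rfl
  have d2 := hD Z W hZW
  rw [c2, r1] at d1
  rw [c1, r2] at d2
  omega

/-- Two elements of a row are free.

Proof.  As `dd_ci`: let `g ∉ rws Z`, `T.card = 2`, `W = Z ∪ {g} ×ˢ T`, `P` = the set
`mv shr shr Z ∪ psi a b W` without the elements of the row `shr g`; the elements of `psi a b W` in
the row `shr g` are `{shr g} ×ˢ neg b`.  `RI B (b + 2)` for `T.image shr ∪ neg b` (disjoint,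
`b + 2` elements) and `RI B b` (`RI.le`) for `neg b`. -/
theorem dd_ri {B D : RF (ℚ × ℚ)} {a b : ℕ} (hr : RI B (b + 2))
    (hD : ∀ X W : Finset (ℚ × ℚ), X ⊆ W →
      D.r X + B.r (psi a b W) = B.r (mv shr shr X ∪ psi a b W)) : RI D 2 := by
  intro g T Z hT hg
  set W : Finset (ℚ × ℚ) := Z ∪ {g} ×ˢ T with hW
  have hZW : Z ⊆ W := Finset.subset_union_left
  have hTn : T.Nonempty := Finset.card_pos.1 (by omega)
  have hgW : g ∈ rws W := by
    obtain ⟨t, ht⟩ := hTn
    exact mem_rws.2 ⟨t, Finset.mem_union_right _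
      (Finset.mem_product.2 ⟨Finset.mem_singleton_self g, ht⟩)⟩
  set P : Finset (ℚ × ℚ) := (mv shr shr Z ∪ psi a b W).filter (fun z => z.1 ≠ shr g) with hP
  have hPr : shr g ∉ rws P := by
    intro hc
    obtain ⟨x, hx⟩ := mem_rws.1 hc
    exact (Finset.mem_filter.1 hx).2 rfl
  have hnoZ : ∀ z ∈ mv shr shr Z, z.1 ≠ shr g := by
    intro z hz hz2
    obtain ⟨x, y, hxy, h4, -⟩ := mem_mv.1 hz
    rw [← h4] at hz2
    exact hg (mem_rws.2 ⟨y, by rw [← shr_mono.injective hz2]; exact hxy⟩)
  have c1 : mv shr shr Z ∪ psi a b W = P ∪ {shr g} ×ˢ neg b := by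
    ext z
    constructor
    · intro hz
      by_cases hz2 : z.1 = shr g
      · apply Finset.mem_union_right
        rcases Finset.mem_union.1 hz with h3 | h3
        · exact absurd hz2 (hnoZ z h3)
        · rcases LfDProp_mem_psi.1 h3 with h4 | h4
          · rw [hz2] at h4
            exact absurd h4.1 (neg_shr a g)
          · exact Finset.mem_product.2 ⟨Finset.mem_singleton.2 hz2, h4.2⟩
      · exact Finset.mem_union_left _ (Finset.mem_filter.2 ⟨hz, hz2⟩)
    · intro hz
      rcases Finset.mem_union.1 hz with h3 | h3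
      · exact (Finset.mem_filter.1 h3).1
      · obtain ⟨h4, h5⟩ := Finset.mem_product.1 h3
        exact Finset.mem_union_right _ (LfDProp_mem_psi.2
          (Or.inr ⟨⟨g, hgW, (Finset.mem_singleton.1 h4).symm⟩, h5⟩))
  have hmvW : mv shr shr W = mv shr shr Z ∪ {shr g} ×ˢ T.image shr := by
    rw [hW, mv_union, mv_prod, Finset.image_singleton]
  have c2 : mv shr shr W ∪ psi a b W = P ∪ {shr g} ×ˢ (T.image shr ∪ neg b) := by
    rw [hmvW, Finset.union_right_comm, c1]
    ext ⟨x, y⟩
    simp only [Finset.mem_union, Finset.mem_product, Finset.mem_singleton]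
    tauto
  have hcard : (T.image shr ∪ neg b).card = b + 2 := by
    rw [Finset.card_union_of_disjoint, Finset.card_image_of_injective _ shr_mono.injective, hT,
      neg_card, Nat.add_comm]
    rw [Finset.disjoint_left]
    intro x hx hx2
    obtain ⟨t, -, rfl⟩ := Finset.mem_image.1 hx
    exact neg_shr b t hx2
  have r1 := hr (shr g) (T.image shr ∪ neg b) P hcard hPr
  have r2 := (hr.le (show b ≤ b + 2 by omega)) (shr g) (neg b) P (neg_card b) hPr
  have d1 := hD W W le_rfl
  have d2 := hD Z W hZW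
  rw [c2, r1] at d1
  rw [c1, r2] at d2
  omega

/-- The upper bound.

Proof.  Let `W = G ×ˢ H`, `G' = G.image shr`, `H' = H.image shr`.  If `G = ∅` or `H = ∅` the
left side is `0`.  Otherwise `rws W = G`, `cls W = H` and `mv shr shr W ∪ psi a b W` is contained in
`(G' ∪ neg a) ×ˢ (H' ∪ neg b)`, so its rank is at most
`(b + 2) * (G.card + a) + (a + 1) * (H.card + b)`.  And
`B.r (psi a b W) ≥ B.r (neg a ×ˢ H' ∪ G' ×ˢ neg b) = a * H.card + b * G.card` (`CI.add` from `∅`,
then `RI.add`: the rows of `neg a ×ˢ H'` are in `neg a`).  Use `hD`, with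
`c = (b + 2) * a + (a + 1) * b`. -/
theorem dd_bound {B D : RF (ℚ × ℚ)} {a b : ℕ} (hc : CI B (a + 1)) (hr : RI B (b + 2))
    (hU : ∀ G H : Finset ℚ, B.r (G ×ˢ H) ≤ (b + 2) * G.card + (a + 1) * H.card)
    (hD : ∀ X W : Finset (ℚ × ℚ), X ⊆ W →
      D.r X + B.r (psi a b W) = B.r (mv shr shr X ∪ psi a b W)) :
    ∀ G H : Finset ℚ, D.r (G ×ˢ H) ≤ 2 * G.card + H.card + ((b + 2) * a + (a + 1) * b) := by
  intro G H
  rcases G.eq_empty_or_nonempty with rfl | hG
  · rw [Finset.empty_product, LfDProp_r_empty]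
    exact Nat.zero_le _
  rcases H.eq_empty_or_nonempty with rfl | hH
  · rw [Finset.product_empty, LfDProp_r_empty]
    exact Nat.zero_le _
  have d1 := hD (G ×ˢ H) (G ×ˢ H) le_rfl
  have hGc : (G.image shr).card = G.card := Finset.card_image_of_injective _ shr_mono.injective
  have hHc : (H.image shr).card = H.card := Finset.card_image_of_injective _ shr_mono.injective
  have hrwsG : G ⊆ rws (G ×ˢ H) := by
    intro g hg
    obtain ⟨h, hh⟩ := hH
    exact mem_rws.2 ⟨h, Finset.mem_product.2 ⟨hg, hh⟩⟩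
  have hclsH : H ⊆ cls (G ×ˢ H) := by
    intro h hh
    obtain ⟨g, hg⟩ := hG
    exact mem_cls.2 ⟨g, Finset.mem_product.2 ⟨hg, hh⟩⟩
  have up : B.r (mv shr shr (G ×ˢ H) ∪ psi a b (G ×ˢ H)) ≤
      (b + 2) * (G.card + a) + (a + 1) * (H.card + b) := by
    have h1 : mv shr shr (G ×ˢ H) ∪ psi a b (G ×ˢ H) ⊆
        (G.image shr ∪ neg a) ×ˢ (H.image shr ∪ neg b) := by
      intro z hz
      rw [Finset.mem_product]
      rcases Finset.mem_union.1 hz with h3 | h3
      · rw [mv_prod, Finset.mem_product] at h3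
        exact ⟨Finset.mem_union_left _ h3.1, Finset.mem_union_left _ h3.2⟩
      · rcases LfDProp_mem_psi.1 h3 with h4 | h4
        · refine ⟨Finset.mem_union_right _ h4.1, ?_⟩
          rcases h4.2 with h5 | ⟨c, hc, h5⟩
          · exact Finset.mem_union_right _ h5
          · exact Finset.mem_union_left _ (Finset.mem_image.2 ⟨c, cls_prod_sub G H hc, h5⟩)
        · obtain ⟨⟨c, hc, h5⟩, h6⟩ := h4
          exact ⟨Finset.mem_union_left _ (Finset.mem_image.2 ⟨c, rws_prod_sub G H hc, h5⟩),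
            Finset.mem_union_right _ h6⟩
    refine (B.mono h1).trans ((hU _ _).trans ?_)
    have h2 : (G.image shr ∪ neg a).card ≤ G.card + a := by
      refine (Finset.card_union_le _ _).trans ?_
      rw [hGc, neg_card]
    have h3 : (H.image shr ∪ neg b).card ≤ H.card + b := by
      refine (Finset.card_union_le _ _).trans ?_
      rw [hHc, neg_card]
    exact Nat.add_le_add (Nat.mul_le_mul_left _ h2) (Nat.mul_le_mul_left _ h3)
  have lo : a * H.card + b * G.card ≤ B.r (psi a b (G ×ˢ H)) := by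
    have h1 : (∅ ∪ neg a ×ˢ H.image shr) ∪ G.image shr ×ˢ neg b ⊆ psi a b (G ×ˢ H) := by
      intro z hz
      rw [Finset.empty_union] at hz
      apply LfDProp_mem_psi.2
      rcases Finset.mem_union.1 hz with h3 | h3
      · rw [Finset.mem_product] at h3
        obtain ⟨c, hc, h5⟩ := Finset.mem_image.1 h3.2
        exact Or.inl ⟨h3.1, Or.inr ⟨c, hclsH hc, h5⟩⟩
      · rw [Finset.mem_product] at h3
        obtain ⟨c, hc, h5⟩ := Finset.mem_image.1 h3.1
        exact Or.inr ⟨⟨c, hrwsG hc, h5⟩, h3.2⟩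
    have h2 := (hc.le (show a ≤ a + 1 by omega)).add (G := neg a) (H := H.image shr) (Z := ∅)
      (neg_card a) (by rw [cls_empty]; exact Finset.disjoint_empty_right _)
    have h3 := (hr.le (show b ≤ b + 2 by omega)).add (G := G.image shr) (H := neg b)
      (Z := ∅ ∪ neg a ×ˢ H.image shr) (neg_card b) (by
        rw [Finset.disjoint_left]
        intro x hx hx2
        obtain ⟨t, -, rfl⟩ := Finset.mem_image.1 hx
        rw [Finset.empty_union] at hx2
        exact neg_shr a t (rws_prod_sub _ _ hx2))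
    have h4 := B.mono h1
    rw [h3, h2, LfDProp_r_empty, hGc, hHc] at h4
    omega
  have e1 : (b + 2) * (G.card + a) + (a + 1) * (H.card + b) =
      (2 * G.card + H.card + ((b + 2) * a + (a + 1) * b)) + (a * H.card + b * G.card) := by
    ring
  omega

/-- Minors of the contracted array are minors of the array.

Proof.  Let `C`, `f` be given, `W = C ∪ (image of f)`; take `C' = mv shr shr C ∪ psi a b W`,
`f' t = (shr (f t).1, shr (f t).2)`.  The elements of `psi a b W` are not in the unit square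
(a row in `neg a` or a column in `neg b`; `neg_shr`), so `f' t ∉ C'`.  Ranks: `hD` for
`J.image f ∪ C ⊆ W` and for `C ⊆ W`. -/
theorem dd_hasM {B D : RF (ℚ × ℚ)} {a b : ℕ}
    (hD : ∀ X W : Finset (ℚ × ℚ), X ⊆ W →
      D.r X + B.r (psi a b W) = B.r (mv shr shr X ∪ psi a b W)) {k : ℕ}
    (h : ∃ W, HasM D W (unif k)) : ∃ W, HasM B W (unif k) := by
  obtain ⟨W0, C, f, hCW, hf, hfC, hrk⟩ := h
  set W : Finset (ℚ × ℚ) := C ∪ Finset.univ.image f with hW
  set f' : Fin (2 * k) → ℚ × ℚ := fun t => (shr (f t).1, shr (f t).2) with hf'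
  set C' : Finset (ℚ × ℚ) := mv shr shr C ∪ psi a b W with hC'
  have hinj : ∀ x y : ℚ × ℚ, (shr x.1, shr x.2) = (shr y.1, shr y.2) → x = y := by
    intro x y hxy
    rw [Prod.mk.injEq] at hxy
    exact Prod.ext (shr_mono.injective hxy.1) (shr_mono.injective hxy.2)
  refine ⟨C' ∪ Finset.univ.image f', C', f', Finset.subset_union_left, ?_, ?_, ?_⟩
  · intro s t hst
    exact hf (hinj _ _ hst)
  · intro t
    rw [Finset.mem_sdiff]
    refine ⟨Finset.mem_union_right _ (Finset.mem_image_of_mem _ (Finset.mem_univ t)), ?_⟩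
    intro hc
    rcases Finset.mem_union.1 hc with h3 | h3
    · obtain ⟨x, y, hxy, h4, h5⟩ := mem_mv.1 h3
      have h6 : (x, y) = f t := hinj (x, y) (f t) (Prod.ext h4 h5)
      rw [h6] at hxy
      exact (Finset.mem_sdiff.1 (hfC t)).2 hxy
    · rcases LfDProp_mem_psi.1 h3 with h4 | h4
      · exact neg_shr a _ h4.1
      · exact neg_shr b _ h4.2
  · intro J
    have h1 : J.image f ∪ C ⊆ W := by
      apply Finset.union_subset
      · exact (Finset.image_subset_image (Finset.subset_univ J)).trans Finset.subset_union_right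
      · exact Finset.subset_union_left
    have d1 := hD _ W h1
    have d2 := hD C W Finset.subset_union_left
    have h2 : mv shr shr (J.image f ∪ C) ∪ psi a b W = J.image f' ∪ C' := by
      rw [mv_union, Finset.union_assoc, hC']
      congr 1
      unfold mv
      rw [Finset.image_image]
      rfl
    rw [h2] at d1
    rw [← hC'] at d2
    have h3 := hrk J
    omega

end Pool.Agent.H.MP_60a1a2_co
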