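import Pool.Agent.H.MP_60a1a2_co.LfFail

/-! # Arrays: the upper bound for the rank of products -/

set_option autoImplicit false

namespace Pool.Agent.H.MP_60a1a2_co

/-- The upper bound for products inside of the unit square, over a fixed finite set outside.

Proof.  `ci_fail` gives `G1`, `H1`, `T'`; `ri_fail` (for this `H1`) gives `G2`, `H2`, `S`.  Let
`Ω = (G1 ∪ G2) ×ˢ (H1 ∪ H2)`.  Let `G`, `H` be finite subsets of `(0, 1)` and
`B = Ω ∪ G ×ˢ S ∪ T' ×ˢ H`.  For `g ∈ G`, `h ∈ H1`: `A.In B (g, h)` (`in_mono`, because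
`G2 ×ˢ (H2 ∪ H1) ⊆ Ω`).  For `g ∈ G`, `h ∈ H`: `A.In (B ∪ G ×ˢ H1) (g, h)` and so `A.In B (g, h)`
(`in_trans`).  So `A.r (B ∪ G ×ˢ H) = A.r B` (`r_union_of_in`) and
`A.r B ≤ A.r Ω + (G ×ˢ S).card + (T' ×ˢ H).card` (`dual_aux`), `(G ×ˢ S).card = G.card * u`,
`(T' ×ˢ H).card = t * H.card`. -/
theorem arr_U {A : RF (ℚ × ℚ)} (hA : AHom A) {t u : ℕ} (h1 : CI A t) (h2 : ¬ CI A (t + 1))
    (h3 : RI A u) (h4 : ¬ RI A (u + 1)) :
    ∃ Ω : Finset (ℚ × ℚ), (∀ z ∈ Ω, Out01 z.1 ∧ Out01 z.2) ∧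
      ∀ G H : Finset ℚ, (∀ g ∈ G, 0 < g ∧ g < 1) → (∀ h ∈ H, 0 < h ∧ h < 1) →
        A.r (Ω ∪ G ×ˢ H) ≤ A.r Ω + u * G.card + t * H.card := by
  obtain ⟨G1, H1, T', hG1, hH1, hT', hTc, hin1⟩ := ci_fail hA h1 h2
  obtain ⟨G2, H2, S, hG2, hH2, hS, hSc, hin2⟩ := ri_fail hA h3 h4 H1
  refine ⟨(G1 ∪ G2) ×ˢ (H1 ∪ H2), ?_, ?_⟩
  · rintro ⟨x, y⟩ hz
    simp only [Finset.mem_product, Finset.mem_union] at hz
    refine ⟨?_, ?_⟩
    · rcases hz.1 with h | h
      · exact hG1 x h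
      · exact hG2 x h
    · rcases hz.2 with h | h
      · exact hH1 y h
      · exact hH2 y h
  · intro G H hG hH
    set Ω : Finset (ℚ × ℚ) := (G1 ∪ G2) ×ˢ (H1 ∪ H2) with hΩ
    set B : Finset (ℚ × ℚ) := Ω ∪ G ×ˢ S ∪ T' ×ˢ H with hB
    have key1 : ∀ g ∈ G, ∀ h ∈ H1, A.In B (g, h) := by
      intro g hg h hh
      refine A.in_mono (hin2 g (hG g hg).1 (hG g hg).2 h hh) ?_
      rintro ⟨x, y⟩ hz
      simp only [Finset.mem_product, Finset.mem_union, Finset.mem_singleton] at hz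
      simp only [hB, hΩ, Finset.mem_product, Finset.mem_union]
      rcases hz with ⟨hx, hy⟩ | ⟨hx, hy⟩
      · left; left
        exact ⟨Or.inr hx, hy.symm⟩
      · left; right
        subst hx
        exact ⟨hg, hy⟩
    have key2 : ∀ z ∈ G ×ˢ H, A.In B z := by
      rintro ⟨g, h⟩ hz
      simp only [Finset.mem_product] at hz
      have h5 := hin1 g h (hG g hz.1).1 (hG g hz.1).2 (hH h hz.2).1 (hH h hz.2).2
      refine A.in_trans (Y := G1 ×ˢ H1 ∪ {g} ×ˢ H1 ∪ T' ×ˢ {h}) ?_ h5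
      rintro ⟨x, y⟩ hw
      simp only [Finset.mem_product, Finset.mem_union, Finset.mem_singleton] at hw
      rcases hw with (⟨hx, hy⟩ | ⟨hx, hy⟩) | ⟨hx, hy⟩
      · apply A.in_of_mem
        simp only [hB, hΩ, Finset.mem_product, Finset.mem_union]
        left; left
        exact ⟨Or.inl hx, Or.inl hy⟩
      · subst hx
        exact key1 x hz.1 y hy
      · apply A.in_of_mem
        simp only [hB, hΩ, Finset.mem_product, Finset.mem_union]
        right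
        subst hy
        exact ⟨hx, hz.2⟩
    have h6 : A.r (B ∪ G ×ˢ H) = A.r B := A.r_union_of_in key2
    have h7 : A.r (Ω ∪ G ×ˢ H) ≤ A.r (B ∪ G ×ˢ H) := by
      apply A.mono
      apply Finset.union_subset_union_left
      rw [hB, Finset.union_assoc]
      exact Finset.subset_union_left
    have h8 : A.r B ≤ A.r (Ω ∪ G ×ˢ S) + (T' ×ˢ H).card := A.r_union_le_card _ _
    have h9 : A.r (Ω ∪ G ×ˢ S) ≤ A.r Ω + (G ×ˢ S).card := A.r_union_le_card _ _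
    have h10 : (T' ×ˢ H).card = t * H.card := by rw [Finset.card_product, hTc]
    have h11 : (G ×ˢ S).card = u * G.card := by rw [Finset.card_product, hSc, Nat.mul_comm]
    omega

end Pool.Agent.H.MP_60a1a2_co
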