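import Pool.Agent.H.MP_60a1a2_co.LfFamInd

/-! # Arrays: the uniform minor -/

set_option autoImplicit false

namespace Pool.Agent.H.MP_60a1a2_co

theorem LfUnif_empty (A : RF (ℚ × ℚ)) : A.r ∅ = 0 := by
  have h := A.le_card ∅
  rw [Finset.card_empty] at h
  omega

theorem LfUnif_mem {p : ℕ} {S T : Finset ℕ} {x : ℚ × ℚ} :
    x ∈ gs p S T ↔ (∃ d ∈ S, x ∈ Gd p d) ∨ ∃ d ∈ T, x ∈ Ld p d := by
  unfold gs
  rw [Finset.mem_union, Finset.mem_biUnion, Finset.mem_biUnion]

theorem LfUnif_le {A : RF (ℚ × ℚ)} (hc : CI A 1) (hr : RI A 2) (p n : ℕ) :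
    n * (4 * p + 1) ≤ A.r (gs p (Finset.range n) ∅) := by
  have h1 := gs_free hc hr p (S := ∅) (T := Finset.range n) (Finset.disjoint_empty_left _)
    (Z := ∅) (fun d _ i => ⟨by rw [rws_empty]; exact Finset.notMem_empty _,
      by rw [cls_empty]; exact Finset.notMem_empty _⟩)
  rw [Finset.empty_union, Finset.empty_union, Finset.card_range] at h1
  have h2 : gs p ∅ (Finset.range n) ⊆ gs p (Finset.range n) ∅ := by
    intro x hx
    rw [LfUnif_mem] at hx ⊢
    rcases hx with ⟨d, hd, -⟩ | ⟨d, hd, hx⟩
    · exact absurd hd (Finset.notMem_empty _)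
    · exact Or.inl ⟨d, hd, Ld_sub p d hx⟩
  have h3 := A.mono h2
  omega

theorem LfUnif_star {A : RF (ℚ × ℚ)} (hA : AHom A) (hc : CI A 1) (hr : RI A 2) (p : ℕ)
    {S T : Finset ℕ} (hST : Disjoint S T) :
    A.r (gs p S T) = (A.r (gs p (Finset.range S.card) ∅) - S.card * (4 * p + 1)) +
      (S.card + T.card) * (4 * p + 1) := by
  have h1 := gs_free hc hr p hST
    (Z := ∅) (fun d _ i => ⟨by rw [rws_empty]; exact Finset.notMem_empty _,
      by rw [cls_empty]; exact Finset.notMem_empty _⟩)
  rw [Finset.empty_union, Finset.empty_union, gs_hom hA] at h1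
  have h2 := LfUnif_le hc hr p S.card
  have h3 : (S.card + T.card) * (4 * p + 1) = S.card * (4 * p + 1) + T.card * (4 * p + 1) := by
    ring
  rw [h3, h1]
  omega

theorem LfUnif_insert (p d : ℕ) (S T : Finset ℕ) :
    gs p (insert d S) T ⊆ insert (fd p d) (gs p S (insert d T)) := by
  intro x hx
  rw [Finset.mem_insert, LfUnif_mem]
  rw [LfUnif_mem] at hx
  rcases hx with ⟨e, he, hx⟩ | ⟨e, he, hx⟩
  · rcases Finset.mem_insert.mp he with rfl | he
    · rw [Gd_eq] at hx
      rcases Finset.mem_insert.mp hx with hx | hx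
      · exact Or.inl hx
      · exact Or.inr (Or.inr ⟨e, Finset.mem_insert_self _ _, hx⟩)
    · exact Or.inr (Or.inl ⟨e, he, hx⟩)
  · exact Or.inr (Or.inr ⟨e, Finset.mem_insert_of_mem he, hx⟩)

theorem LfUnif_sub (p d : ℕ) (S T : Finset ℕ) :
    gs p S (insert d T) ⊆ gs p (insert d S) T := by
  intro x hx
  rw [LfUnif_mem] at hx ⊢
  rcases hx with ⟨e, he, hx⟩ | ⟨e, he, hx⟩
  · exact Or.inl ⟨e, Finset.mem_insert_of_mem he, hx⟩
  · rcases Finset.mem_insert.mp he with rfl | he
    · exact Or.inl ⟨e, Finset.mem_insert_self _ _, Ld_sub p e hx⟩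
    · exact Or.inr ⟨e, he, hx⟩

theorem LfUnif_fd (p : ℕ) {d d' : ℕ} (h : fd p d = fd p d') : d = d' := by
  unfold fd at h
  exact (pos_inj (Prod.mk.inj h).2).1

/-- A concave sequence with increments `0` and `1` which is bounded.

Proof.  By `h2`, `h3` the increments are non-increasing and in `{0, 1}`; let `r` be the least `n` with
`φ (n + 1) = φ n` (exists because `φ` is bounded); for `n ≤ r`: `φ n = n`, for `n ≥ r`: `φ n = r`.
`k ≤ r` because otherwise `φ k = r < k`. -/
theorem concave_min (φ : ℕ → ℕ) (h0 : φ 0 = 0) (h1 : ∀ n, φ n ≤ φ (n + 1))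
    (h2 : ∀ n, φ (n + 1) ≤ φ n + 1) (h3 : ∀ n, φ (n + 2) + φ n ≤ 2 * φ (n + 1)) {B k : ℕ}
    (hB : ∀ n, φ n ≤ B) (hk : φ k = k) : ∃ r, k ≤ r ∧ ∀ n, φ n = min n r := by
  have hex : ∃ n, φ (n + 1) = φ n := by
    by_contra hcon
    push Not at hcon
    have h4 : ∀ n, φ n = n := by
      intro n
      induction n with
      | zero => exact h0
      | succ n ih =>
        have h5 := h1 n
        have h6 := h2 n
        have h7 := hcon n
        omega
    have h8 := hB (B + 1)
    rw [h4] at h8
    omega
  classical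
  set r := Nat.find hex with hr
  have hr1 : φ (r + 1) = φ r := Nat.find_spec hex
  have hlt : ∀ n, n < r → φ (n + 1) = φ n + 1 := by
    intro n hn
    have h5 := h1 n
    have h6 := h2 n
    have h7 : φ (n + 1) ≠ φ n := Nat.find_min hex hn
    omega
  have hle : ∀ n, n ≤ r → φ n = n := by
    intro n
    induction n with
    | zero => intro _; exact h0
    | succ n ih =>
      intro hn
      rw [hlt n (by omega), ih (by omega)]
  have hge : ∀ m, φ (r + m + 1) = φ (r + m) ∧ φ (r + m) = r := by
    intro m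
    induction m with
    | zero => exact ⟨hr1, hle r le_rfl⟩
    | succ m ih =>
      have h5 := h1 (r + m + 1)
      have h6 := h3 (r + m)
      have h7 : r + (m + 1) = r + m + 1 := by omega
      rw [h7]
      have h8 : φ (r + m + 1 + 1) = φ (r + m + 2) := rfl
      omega
  have hall : ∀ n, φ n = min n r := by
    intro n
    rcases le_total n r with h | h
    · rw [hle n h, min_eq_left h]
    · obtain ⟨m, rfl⟩ := Nat.exists_eq_add_of_le h
      rw [(hge m).2, min_eq_right h]
  refine ⟨r, ?_, hall⟩
  have h9 := hall k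
  rw [hk] at h9
  omega

/-- The uniform minor.

Proof.  Let `p = k`, `φ n = A.r (gs p (range n) ∅) - n * (4 * p + 1)`.  By `gs_free` with `Z = ∅`
(and `gs p ∅ ∅ = ∅`): `A.r (gs p ∅ T) = T.card * (4 * p + 1)`, and by `gs_free`, `gs_hom`, for
disjoint `S`, `T`: `A.r (gs p S T) = φ S.card + (S.card + T.card) * (4 * p + 1)` (`*`)
(`gs p S ∅ ⊇ gs p ∅ S` by `Ld_sub`, so `φ S.card` is a true difference).
`gs p S T ⊆ gs p (insert d S) (T.erase d)` for `d ∈ T`, and this set has one more element
`fd p d` (`Gd_eq`).  So `h1`, `h2` of `concave_min` follow from `(*)` for `S = range n`, `T = {n}`;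
`h3` from submodularity for `S = range n`, `T = {n, n + 1}`:
`gs p (insert n S) {n + 1}` and `gs p (insert (n + 1) S) {n}` have the union
`gs p (range (n + 2)) ∅` and their intersection contains `gs p S {n, n + 1}`.  Bounded:
`gs_bound`.  `φ k = k`: `gs_ind` (`k ≤ 2 * k + 2`).  Let `r ≥ k` be given by `concave_min`.
Let `T1 = range (r - k)`, `C = gs p T1 (Finset.Ico (r - k) (r + k))`, `f t = fd p (r - k + t)` for
`t : Fin (2 * k)`.  `f` is injective (`pos_inj`), `f t ∉ C` (`fd_notMem`, and `fd p d ∉ Gd p d'` for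
`d ≠ d'` by the columns).  For `J` let `S = T1 ∪ J.image (fun t => r - k + t)`,
`T = Ico (r - k) (r + k) \ S`: `J.image f ∪ C = gs p S T` (`Gd_eq`), so by `(*)`
`A.r (J.image f ∪ C) - A.r C = min (r - k + J.card) r - (r - k) = min J.card k = unif k J`. -/
theorem arr_unif {A : RF (ℚ × ℚ)} (hA : AHom A) (hc : CI A 1) (hr : RI A 2) {c : ℕ}
    (hU : ∀ G H : Finset ℚ, A.r (G ×ˢ H) ≤ 2 * G.card + H.card + c) (k : ℕ) :
    ∃ W, HasM A W (unif k) := by
  set L : ℕ := 4 * k + 1 with hL
  set φ : ℕ → ℕ := fun n => A.r (gs k (Finset.range n) ∅) - n * L with hφ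
  have hstar : ∀ S T : Finset ℕ, Disjoint S T →
      A.r (gs k S T) = φ S.card + (S.card + T.card) * L := fun S T hST =>
    LfUnif_star hA hc hr k hST
  have hrange : ∀ n, A.r (gs k (Finset.range n) ∅) = φ n + n * L := by
    intro n
    have h := hstar (Finset.range n) ∅ (Finset.disjoint_empty_right _)
    rw [Finset.card_range, Finset.card_empty, add_zero] at h
    exact h
  have hd1 : ∀ n, Disjoint (Finset.range n) ({n} : Finset ℕ) := fun n => by
    rw [Finset.disjoint_singleton_right, Finset.mem_range]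
    omega
  have hins : ∀ n, insert n (Finset.range n) = Finset.range (n + 1) := fun n =>
    Finset.range_add_one.symm
  have e0 : ∀ n, A.r (gs k (Finset.range n) {n}) = φ n + (n + 1) * L := by
    intro n
    have h := hstar _ _ (hd1 n)
    rw [Finset.card_range, Finset.card_singleton] at h
    exact h
  have h1 : ∀ n, φ n ≤ φ (n + 1) := by
    intro n
    have h4 := A.mono (LfUnif_sub k n (Finset.range n) ∅)
    rw [hins, hrange] at h4
    have h5 := e0 n
    have h6 : (insert n ∅ : Finset ℕ) = {n} := rfl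
    rw [h6, h5] at h4
    omega
  have h2 : ∀ n, φ (n + 1) ≤ φ n + 1 := by
    intro n
    have h4 := A.mono (LfUnif_insert k n (Finset.range n) ∅)
    have h6 : (insert n ∅ : Finset ℕ) = {n} := rfl
    rw [hins, hrange, h6] at h4
    have h5 := A.r_insert_le (fd k n) (gs k (Finset.range n) {n})
    rw [e0] at h5
    omega
  have h3 : ∀ n, φ (n + 2) + φ n ≤ 2 * φ (n + 1) := by
    intro n
    set S := Finset.range n with hS
    have hnS : n ∉ S := by rw [hS, Finset.mem_range]; omega
    have hnS1 : n + 1 ∉ S := by rw [hS, Finset.mem_range]; omega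
    have hcS : S.card = n := by rw [hS, Finset.card_range]
    have g1 := hstar (insert n S) {n + 1} (by
      rw [Finset.disjoint_singleton_right, Finset.mem_insert, not_or]
      exact ⟨by omega, hnS1⟩)
    have g2 := hstar (insert (n + 1) S) {n} (by
      rw [Finset.disjoint_singleton_right, Finset.mem_insert, not_or]
      exact ⟨by omega, hnS⟩)
    have g3 := hstar S {n, n + 1} (by
      rw [Finset.disjoint_right]
      intro a ha
      rw [Finset.mem_insert, Finset.mem_singleton] at ha
      rcases ha with rfl | rfl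
      · exact hnS
      · exact hnS1)
    rw [Finset.card_insert_of_notMem hnS, hcS, Finset.card_singleton] at g1
    rw [Finset.card_insert_of_notMem hnS1, hcS, Finset.card_singleton] at g2
    rw [hcS, Finset.card_pair (by omega)] at g3
    have g4 := hrange (n + 2)
    have g5 := A.submod (gs k (insert n S) {n + 1}) (gs k (insert (n + 1) S) {n})
    have g6 : gs k (Finset.range (n + 2)) ∅ ⊆
        gs k (insert n S) {n + 1} ∪ gs k (insert (n + 1) S) {n} := by
      intro x hx
      rw [Finset.mem_union, LfUnif_mem, LfUnif_mem]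
      rw [LfUnif_mem] at hx
      rcases hx with ⟨d, hd, hx⟩ | ⟨d, hd, -⟩
      · rw [Finset.mem_range] at hd
        by_cases h5 : d = n + 1
        · exact Or.inr (Or.inl ⟨d, by rw [h5]; exact Finset.mem_insert_self _ _, hx⟩)
        · refine Or.inl (Or.inl ⟨d, ?_, hx⟩)
          rw [Finset.mem_insert, hS, Finset.mem_range]
          omega
      · exact absurd hd (Finset.notMem_empty _)
    have g7 : gs k S {n, n + 1} ⊆
        gs k (insert n S) {n + 1} ∩ gs k (insert (n + 1) S) {n} := by
      intro x hx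
      rw [Finset.mem_inter, LfUnif_mem, LfUnif_mem]
      rw [LfUnif_mem] at hx
      rcases hx with ⟨d, hd, hx⟩ | ⟨d, hd, hx⟩
      · exact ⟨Or.inl ⟨d, Finset.mem_insert_of_mem hd, hx⟩,
          Or.inl ⟨d, Finset.mem_insert_of_mem hd, hx⟩⟩
      · rw [Finset.mem_insert, Finset.mem_singleton] at hd
        rcases hd with rfl | rfl
        · exact ⟨Or.inl ⟨d, Finset.mem_insert_self _ _, Ld_sub k d hx⟩,
            Or.inr ⟨d, Finset.mem_singleton_self _, hx⟩⟩
        · exact ⟨Or.inr ⟨n + 1, Finset.mem_singleton_self _, hx⟩,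
            Or.inl ⟨n + 1, Finset.mem_insert_self _ _, Ld_sub k (n + 1) hx⟩⟩
    have g8 := A.mono g6
    have g9 := A.mono g7
    have g10 : (n + 1 + 1) * L = (n + 2) * L := rfl
    rw [g10] at g1 g2
    omega
  have hB : ∀ n, φ n ≤ 2 * k + 4 + c := by
    intro n
    have h4 := gs_bound hU k n
    rw [hrange, ← hL] at h4
    omega
  have hk : φ k = k := by
    have h4 := gs_ind hA hc hr k k (by omega)
    rw [hrange] at h4
    have h5 : k * (4 * k + 2) = k * L + k := by rw [hL]; ring
    omega
  have h00 : φ 0 = 0 := by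
    have h4 : gs k (Finset.range 0) ∅ = ∅ := by
      rw [Finset.range_zero]; rfl
    show A.r (gs k (Finset.range 0) ∅) - 0 * L = 0
    rw [h4, LfUnif_empty, Nat.zero_sub]
  obtain ⟨r, hkr, hφr⟩ := concave_min φ h00 h1 h2 h3 hB hk
  -- the minor
  set T1 := Finset.range (r - k) with hT1
  set I := Finset.Ico (r - k) (r + k) with hI
  set C := gs k T1 I with hC
  set f : Fin (2 * k) → ℚ × ℚ := fun t => fd k (r - k + t) with hf
  have hfinj : Function.Injective f := by
    intro t t' h
    have h4 : r - k + (t : ℕ) = r - k + (t' : ℕ) := LfUnif_fd k h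
    exact Fin.ext (by omega)
  have hfC : ∀ t, f t ∉ C := by
    intro t ht
    rw [hC, LfUnif_mem] at ht
    rcases ht with ⟨d, hd, hx⟩ | ⟨d, hd, hx⟩
    · rw [Gd_eq, Finset.mem_insert] at hx
      rcases hx with hx | hx
      · have h4 : r - k + (t : ℕ) = d := LfUnif_fd k hx
        rw [hT1, Finset.mem_range] at hd
        omega
      · exact fd_notMem k _ d hx
    · exact fd_notMem k _ d hx
  refine ⟨C ∪ Finset.univ.image f, C, f, Finset.subset_union_left, hfinj, fun t => ?_,
    fun J => ?_⟩
  · rw [Finset.mem_sdiff, Finset.mem_union]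
    exact ⟨Or.inr (Finset.mem_image_of_mem f (Finset.mem_univ t)), hfC t⟩
  · set S := T1 ∪ J.image (fun t : Fin (2 * k) => r - k + (t : ℕ)) with hS
    set T := I \ S with hT
    have hJC : J.image f ∪ C = gs k S T := by
      ext x
      rw [Finset.mem_union, Finset.mem_image, hC, LfUnif_mem, LfUnif_mem]
      constructor
      · rintro (⟨t, ht, rfl⟩ | ⟨d, hd, hx⟩ | ⟨d, hd, hx⟩)
        · refine Or.inl ⟨r - k + (t : ℕ), ?_, ?_⟩
          · rw [hS, Finset.mem_union, Finset.mem_image]
            exact Or.inr ⟨t, ht, rfl⟩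
          · rw [Gd_eq]
            exact Finset.mem_insert_self _ _
        · exact Or.inl ⟨d, Finset.mem_union_left _ hd, hx⟩
        · by_cases hdS : d ∈ S
          · exact Or.inl ⟨d, hdS, Ld_sub k d hx⟩
          · exact Or.inr ⟨d, Finset.mem_sdiff.mpr ⟨hd, hdS⟩, hx⟩
      · rintro (⟨d, hd, hx⟩ | ⟨d, hd, hx⟩)
        · rw [hS, Finset.mem_union, Finset.mem_image] at hd
          rcases hd with hd | ⟨t, ht, rfl⟩
          · exact Or.inr (Or.inl ⟨d, hd, hx⟩)
          · rw [Gd_eq, Finset.mem_insert] at hx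
            rcases hx with hx | hx
            · exact Or.inl ⟨t, ht, hx.symm⟩
            · refine Or.inr (Or.inr ⟨r - k + (t : ℕ), ?_, hx⟩)
              rw [hI, Finset.mem_Ico]
              have := t.2
              omega
        · exact Or.inr (Or.inr ⟨d, (Finset.mem_sdiff.mp hd).1, hx⟩)
    have hScard : S.card = (r - k) + J.card := by
      rw [hS, Finset.card_union_of_disjoint, Finset.card_image_of_injective, hT1,
        Finset.card_range]
      · intro t t' h
        exact Fin.ext (by simpa using h)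
      · rw [Finset.disjoint_left]
        intro a ha hb
        rw [hT1, Finset.mem_range] at ha
        obtain ⟨t, -, rfl⟩ := Finset.mem_image.mp hb
        omega
    have hTcard : S.card + T.card = r + k := by
      have h4 : S ∪ T = Finset.range (r + k) := by
        ext a
        rw [hT, Finset.mem_union, Finset.mem_sdiff, hI, Finset.mem_Ico, Finset.mem_range]
        constructor
        · rintro (ha | ⟨ha, -⟩)
          · rw [hS, Finset.mem_union, hT1, Finset.mem_range, Finset.mem_image] at ha
            rcases ha with ha | ⟨t, -, rfl⟩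
            · omega
            · have := t.2
              omega
          · omega
        · intro ha
          by_cases haS : a ∈ S
          · exact Or.inl haS
          · refine Or.inr ⟨⟨?_, ha⟩, haS⟩
            by_contra hcon
            exact haS (Finset.mem_union_left _ (by rw [hT1, Finset.mem_range]; omega))
      rw [← Finset.card_union_of_disjoint (Finset.disjoint_sdiff), h4, Finset.card_range]
    have g1 := hstar S T Finset.disjoint_sdiff
    have g2 := hstar T1 I (by
      rw [Finset.disjoint_left]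
      intro a ha hb
      rw [hT1, Finset.mem_range] at ha
      rw [hI, Finset.mem_Ico] at hb
      omega)
    rw [← hC, hT1, Finset.card_range, hI, Nat.card_Ico] at g2
    have g3 : r - k + (r + k - (r - k)) = r + k := by omega
    rw [g3, hφr] at g2
    rw [hTcard, hScard, hφr] at g1
    rw [hJC, g1, g2]
    unfold unif
    omega

end Pool.Agent.H.MP_60a1a2_co
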