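import Pool.Agent.H.MP_60a1a2_co.LfExist
import Pool.Agent.H.MP_60a1a2_co.LfU
import Pool.Agent.H.MP_60a1a2_co.LfDProp
import Pool.Agent.H.MP_60a1a2_co.LfUnif

/-! # Arrays: the main theorem -/

set_option autoImplicit false

namespace Pool.Agent.H.MP_60a1a2_co

/-- homogeneity for products: the rank depends only on the numbers of rows and columns, in
particular `G`, `H` can be moved into the unit square (`φ = ψ = shr`, `mv_prod`) -/
theorem AHom.shr_prod {A : RF (ℚ × ℚ)} (hA : AHom A) (G H : Finset ℚ) :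
    A.r (G.image shr ×ˢ H.image shr) = A.r (G ×ˢ H) := by
  rw [← mv_prod]
  exact hA _ _ _ (shr_mono.strictMonoOn _) (shr_mono.strictMonoOn _)

/-- The case of two elements in a row.

Proof.  `arr_U` gives `Ω`; `B = inn A Ω` satisfies `AHom`, `CI t`, `RI u` and
`B.r (G ×ˢ H) ≤ u * G.card + t * H.card` (`inn_add`, `mv_prod`, the sets `G.image shr`,
`H.image shr` are in `(0, 1)` and have the same cardinalities).  Let `t = a + 1`, `u = b + 2`;
`exists_dd` (`CI.le`, `RI.le`) gives `D`; `dd_hom`, `dd_ci`, `dd_ri`, `dd_bound`, `arr_unif`,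
`dd_hasM`, `HasM.inn`. -/
theorem arr_two {A : RF (ℚ × ℚ)} (hA : AHom A) {t u : ℕ} (ht : 1 ≤ t) (hu : 2 ≤ u) (h1 : CI A t)
    (h2 : ¬ CI A (t + 1)) (h3 : RI A u) (h4 : ¬ RI A (u + 1)) (k : ℕ) :
    ∃ W, HasM A W (unif k) := by
  obtain ⟨Ω, hΩ, hU⟩ := arr_U hA h1 h2 h3 h4
  have hB : AHom (inn A Ω) := hA.inn hΩ
  have hcB : CI (inn A Ω) t := h1.inn hΩ
  have hrB : RI (inn A Ω) u := h3.inn hΩ
  have hUB : ∀ G H : Finset ℚ, (inn A Ω).r (G ×ˢ H) ≤ u * G.card + t * H.card := by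
    intro G H
    have e1 := inn_add A Ω (G ×ˢ H)
    rw [mv_prod, Finset.union_comm] at e1
    have e2 := hU (G.image shr) (H.image shr)
      (fun g hg => by
        obtain ⟨x, _, rfl⟩ := Finset.mem_image.1 hg
        exact ⟨shr_pos x, shr_lt_one x⟩)
      (fun g hg => by
        obtain ⟨x, _, rfl⟩ := Finset.mem_image.1 hg
        exact ⟨shr_pos x, shr_lt_one x⟩)
    rw [Finset.card_image_of_injective _ shr_mono.injective,
      Finset.card_image_of_injective _ shr_mono.injective] at e2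
    omega
  obtain ⟨a, rfl⟩ : ∃ a, t = a + 1 := ⟨t - 1, by omega⟩
  obtain ⟨b, rfl⟩ : ∃ b, u = b + 2 := ⟨u - 2, by omega⟩
  obtain ⟨D, hD⟩ := exists_dd (hcB.le (Nat.le_succ a)) (hrB.le (Nat.le_add_right b 2))
  exact HasM.inn hΩ (dd_hasM hD (arr_unif (dd_hom hB hD) (dd_ci hcB hD) (dd_ri hrB hD)
    (dd_bound hcB hrB hUB hD) k))

/-- a minor of the transposed array is a minor of the array -/
theorem lfarr_hasM_tr {A : RF (ℚ × ℚ)} {k : ℕ} (h : ∃ W, HasM (tr A) W (unif k)) :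
    ∃ W, HasM A W (unif k) := by
  obtain ⟨W, C, f, hC, hf, hfW, hr⟩ := h
  refine ⟨W.image Prod.swap, C.image Prod.swap, fun t => (f t).swap,
    Finset.image_subset_image hC, fun x y hxy => hf (Prod.swap_injective hxy), ?_, ?_⟩
  · intro t
    have h1 := Finset.mem_sdiff.1 (hfW t)
    refine Finset.mem_sdiff.2 ⟨Finset.mem_image_of_mem _ h1.1, fun h2 => h1.2 ?_⟩
    obtain ⟨x, hx, hxe⟩ := Finset.mem_image.1 h2
    rw [← Prod.swap_injective hxe]
    exact hx
  · intro J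
    have h1 := hr J
    rw [tr_r, tr_r, swap_union, Finset.image_image] at h1
    exact h1

/-- The main theorem on homogeneous arrays.

Proof.  `exists_CI`, `exists_RI` give `t, u ≥ 1`.  If `u ≥ 2`: `arr_two`.  If `t ≥ 2`: `arr_two` for
`tr A` (`AHom.tr`, `RI.tr`, `CI.tr`; the failures by `RI.of_tr`, `CI.of_tr`), and a minor of `tr A`
gives a minor of `A` (`tr_r`: move `C`, `f` with `Prod.swap`).  If `t = u = 1`: `arr_U` and
`AHom.shr_prod`: `A.r (G ×ˢ H) ≤ A.r (Ω ∪ G.image shr ×ˢ H.image shr) ≤ A.r Ω + G.card + H.card`. -/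
theorem arr_main {A : RF (ℚ × ℚ)} (hA : AHom A) (hc : CI A 1) (hr : RI A 1) {G0 H0 : Finset ℚ}
    (h : A.r (G0 ×ˢ H0) < G0.card * H0.card) :
    (∃ c : ℕ, ∀ G H : Finset ℚ, A.r (G ×ˢ H) ≤ G.card + H.card + c) ∨
      ∀ k, ∃ W, HasM A W (unif k) := by
  obtain ⟨t, ht, ht1, ht2⟩ := exists_CI hc h
  obtain ⟨u, hu, hu1, hu2⟩ := exists_RI hr h
  by_cases hu' : 2 ≤ u
  · exact Or.inr fun k => arr_two hA ht hu' ht1 ht2 hu1 hu2 k
  by_cases ht' : 2 ≤ t
  · refine Or.inr fun k => lfarr_hasM_tr (arr_two hA.tr hu ht' hu1.tr ?_ ht1.tr ?_ k)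
    · exact fun h1 => hu2 (RI.of_tr h1)
    · exact fun h1 => ht2 (CI.of_tr h1)
  · left
    have ht3 : t = 1 := by omega
    have hu3 : u = 1 := by omega
    subst ht3
    subst hu3
    obtain ⟨Ω, hΩ, hU⟩ := arr_U hA ht1 ht2 hu1 hu2
    refine ⟨A.r Ω, fun G H => ?_⟩
    have e2 := hU (G.image shr) (H.image shr)
      (fun g hg => by
        obtain ⟨x, _, rfl⟩ := Finset.mem_image.1 hg
        exact ⟨shr_pos x, shr_lt_one x⟩)
      (fun g hg => by
        obtain ⟨x, _, rfl⟩ := Finset.mem_image.1 hg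
        exact ⟨shr_pos x, shr_lt_one x⟩)
    rw [Finset.card_image_of_injective _ shr_mono.injective,
      Finset.card_image_of_injective _ shr_mono.injective] at e2
    have e3 : A.r (G.image shr ×ˢ H.image shr) ≤ A.r (Ω ∪ G.image shr ×ˢ H.image shr) :=
      A.mono Finset.subset_union_right
    rw [← AHom.shr_prod hA G H]
    omega

end Pool.Agent.H.MP_60a1a2_co
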