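import Pool.Agent.H.MP_60a1a2_co.LfDefs

/-! # Arrays: basic lemmas -/

set_option autoImplicit false

namespace Pool.Agent.H.MP_60a1a2_co

theorem mem_rws {X : Finset (ℚ × ℚ)} {g : ℚ} : g ∈ rws X ↔ ∃ h, (g, h) ∈ X := by
  unfold rws
  simp

theorem mem_cls {X : Finset (ℚ × ℚ)} {h : ℚ} : h ∈ cls X ↔ ∃ g, (g, h) ∈ X := by
  unfold cls
  simp

theorem rws_union (X Y : Finset (ℚ × ℚ)) : rws (X ∪ Y) = rws X ∪ rws Y := Finset.image_union _ _

theorem cls_union (X Y : Finset (ℚ × ℚ)) : cls (X ∪ Y) = cls X ∪ cls Y := Finset.image_union _ _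

theorem rws_insert (z : ℚ × ℚ) (X : Finset (ℚ × ℚ)) : rws (insert z X) = insert z.1 (rws X) :=
  Finset.image_insert _ _ _

theorem cls_insert (z : ℚ × ℚ) (X : Finset (ℚ × ℚ)) : cls (insert z X) = insert z.2 (cls X) :=
  Finset.image_insert _ _ _

theorem rws_empty : rws ∅ = ∅ := rfl

theorem cls_empty : cls ∅ = ∅ := rfl

theorem rws_mono {X Y : Finset (ℚ × ℚ)} (h : X ⊆ Y) : rws X ⊆ rws Y := Finset.image_subset_image h

theorem cls_mono {X Y : Finset (ℚ × ℚ)} (h : X ⊆ Y) : cls X ⊆ cls Y := Finset.image_subset_image h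

theorem rws_prod_sub (G H : Finset ℚ) : rws (G ×ˢ H) ⊆ G := by
  intro g hg
  obtain ⟨h, hh⟩ := mem_rws.1 hg
  exact (Finset.mem_product.1 hh).1

theorem cls_prod_sub (G H : Finset ℚ) : cls (G ×ˢ H) ⊆ H := by
  intro h hh
  obtain ⟨g, hg⟩ := mem_cls.1 hh
  exact (Finset.mem_product.1 hg).2

theorem mv_union (φ ψ : ℚ → ℚ) (X Y : Finset (ℚ × ℚ)) : mv φ ψ (X ∪ Y) = mv φ ψ X ∪ mv φ ψ Y :=
  Finset.image_union _ _

theorem mv_insert (φ ψ : ℚ → ℚ) (g h : ℚ) (X : Finset (ℚ × ℚ)) :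
    mv φ ψ (insert (g, h) X) = insert (φ g, ψ h) (mv φ ψ X) := Finset.image_insert _ _ _

theorem mem_mv {φ ψ : ℚ → ℚ} {X : Finset (ℚ × ℚ)} {z : ℚ × ℚ} :
    z ∈ mv φ ψ X ↔ ∃ g h, (g, h) ∈ X ∧ φ g = z.1 ∧ ψ h = z.2 := by
  unfold mv
  simp only [Finset.mem_image, Prod.exists, Prod.map_apply]
  constructor
  · rintro ⟨a, b, h1, h2⟩
    exact ⟨a, b, h1, by rw [← h2], by rw [← h2]⟩
  · rintro ⟨a, b, h1, h2, h3⟩
    exact ⟨a, b, h1, Prod.ext h2 h3⟩

theorem rws_mv (φ ψ : ℚ → ℚ) (X : Finset (ℚ × ℚ)) : rws (mv φ ψ X) = (rws X).image φ := by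
  unfold rws mv
  rw [Finset.image_image, Finset.image_image]
  rfl

theorem cls_mv (φ ψ : ℚ → ℚ) (X : Finset (ℚ × ℚ)) : cls (mv φ ψ X) = (cls X).image ψ := by
  unfold cls mv
  rw [Finset.image_image, Finset.image_image]
  rfl

theorem mv_prod (φ ψ : ℚ → ℚ) (G H : Finset ℚ) :
    mv φ ψ (G ×ˢ H) = G.image φ ×ˢ H.image ψ := by
  ext ⟨a, b⟩
  simp only [mem_mv, Finset.mem_product, Finset.mem_image]
  constructor
  · rintro ⟨g, h, ⟨h1, h2⟩, rfl, rfl⟩
    exact ⟨⟨g, h1, rfl⟩, ⟨h, h2, rfl⟩⟩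
  · rintro ⟨⟨g, h1, rfl⟩, ⟨h, h2, rfl⟩⟩
    exact ⟨g, h, ⟨h1, h2⟩, rfl, rfl⟩

theorem mv_mv (φ ψ φ' ψ' : ℚ → ℚ) (X : Finset (ℚ × ℚ)) :
    mv φ ψ (mv φ' ψ' X) = mv (φ ∘ φ') (ψ ∘ ψ') X := by
  unfold mv
  rw [Finset.image_image]
  rfl

/-- identical maps on the rows and columns of `X` -/
theorem mv_congr {φ ψ φ' ψ' : ℚ → ℚ} {X : Finset (ℚ × ℚ)} (h1 : ∀ g ∈ rws X, φ g = φ' g)
    (h2 : ∀ h ∈ cls X, ψ h = ψ' h) : mv φ ψ X = mv φ' ψ' X := by
  unfold mv
  apply Finset.image_congr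
  rintro ⟨g, h⟩ hx
  simp only [Prod.map_apply]
  rw [h1 g (mem_rws.2 ⟨h, hx⟩), h2 h (mem_cls.2 ⟨g, hx⟩)]

theorem mv_id (X : Finset (ℚ × ℚ)) : mv id id X = X := by
  unfold mv
  simp

/-- independence of fewer elements -/
theorem CI.pred {A : RF (ℚ × ℚ)} {t : ℕ} (h : CI A (t + 1)) : CI A t := by
  intro c T Z hT hc
  obtain ⟨x, hx⟩ := Infinite.exists_notMem_finset T
  have h1 := h c (insert x T) Z (by rw [Finset.card_insert_of_notMem hx, hT]) hc
  have h2 : Z ∪ (insert x T) ×ˢ {c} = insert (x, c) (Z ∪ T ×ˢ {c}) := by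
    ext ⟨a, b⟩
    simp only [Finset.mem_union, Finset.mem_product, Finset.mem_insert, Finset.mem_singleton,
      Prod.mk.injEq]
    tauto
  rw [h2] at h1
  have h3 := A.r_insert_le (x, c) (Z ∪ T ×ˢ {c})
  have h4 := A.dual_aux Z (T ×ˢ {c})
  rw [Finset.card_product, Finset.card_singleton, hT] at h4
  omega

theorem CI.le {A : RF (ℚ × ℚ)} {t s : ℕ} (h : CI A t) (hs : s ≤ t) : CI A s := by
  induction hs with
  | refl => exact h
  | step _ ih => exact ih h.pred

theorem CI.zero (A : RF (ℚ × ℚ)) : CI A 0 := by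
  intro c T Z hT _
  rw [Finset.card_eq_zero.1 hT]
  simp

theorem swap_union (X Y : Finset (ℚ × ℚ)) :
    (X ∪ Y).image Prod.swap = X.image Prod.swap ∪ Y.image Prod.swap := Finset.image_union _ _

theorem swap_prod (G H : Finset ℚ) : (G ×ˢ H).image Prod.swap = H ×ˢ G := by
  ext ⟨a, b⟩
  simp only [Finset.mem_image, Finset.mem_product, Prod.exists, Prod.swap_prod_mk, Prod.mk.injEq]
  constructor
  · rintro ⟨x, y, ⟨h1, h2⟩, rfl, rfl⟩
    exact ⟨h2, h1⟩
  · rintro ⟨h1, h2⟩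
    exact ⟨b, a, ⟨h2, h1⟩, rfl, rfl⟩

theorem swap_swap (X : Finset (ℚ × ℚ)) : (X.image Prod.swap).image Prod.swap = X := by
  rw [Finset.image_image]
  simp

theorem rws_swap (X : Finset (ℚ × ℚ)) : rws (X.image Prod.swap) = cls X := by
  unfold rws cls
  rw [Finset.image_image]
  rfl

theorem cls_swap (X : Finset (ℚ × ℚ)) : cls (X.image Prod.swap) = rws X := by
  unfold rws cls
  rw [Finset.image_image]
  rfl

theorem mv_swap (φ ψ : ℚ → ℚ) (X : Finset (ℚ × ℚ)) :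
    mv φ ψ (X.image Prod.swap) = (mv ψ φ X).image Prod.swap := by
  unfold mv
  rw [Finset.image_image, Finset.image_image]
  rfl

theorem tr_r (A : RF (ℚ × ℚ)) (X : Finset (ℚ × ℚ)) : (tr A).r X = A.r (X.image Prod.swap) := rfl

theorem tr_prod (A : RF (ℚ × ℚ)) (G H : Finset ℚ) : (tr A).r (G ×ˢ H) = A.r (H ×ˢ G) := by
  rw [tr_r, swap_prod]

theorem AHom.tr {A : RF (ℚ × ℚ)} (h : AHom A) : AHom (tr A) := by
  intro X φ ψ h1 h2
  rw [tr_r, tr_r, ← mv_swap]
  apply h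
  · rw [rws_swap]
    exact h2
  · rw [cls_swap]
    exact h1

theorem CI.tr {A : RF (ℚ × ℚ)} {t : ℕ} (h : CI A t) : RI (tr A) t := by
  intro g T Z hT hg
  rw [tr_r, tr_r, swap_union, swap_prod]
  apply h g T _ hT
  rw [cls_swap]
  exact hg

theorem RI.tr {A : RF (ℚ × ℚ)} {t : ℕ} (h : RI A t) : CI (tr A) t := by
  intro g T Z hT hg
  rw [tr_r, tr_r, swap_union, swap_prod]
  apply h g T _ hT
  rw [rws_swap]
  exact hg

theorem tr_tr (A : RF (ℚ × ℚ)) (X : Finset (ℚ × ℚ)) : (Pool.Agent.H.MP_60a1a2_co.tr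
    (Pool.Agent.H.MP_60a1a2_co.tr A)).r X = A.r X := by
  rw [tr_r, tr_r, swap_swap]

theorem RI.of_tr {A : RF (ℚ × ℚ)} {t : ℕ} (h : CI (Pool.Agent.H.MP_60a1a2_co.tr A) t) :
    RI A t := by
  intro g T Z hT hg
  have h1 := h g T (Z.image Prod.swap) hT (by rw [cls_swap]; exact hg)
  rw [tr_r, tr_r, swap_union, swap_prod, swap_swap] at h1
  exact h1

theorem CI.of_tr {A : RF (ℚ × ℚ)} {t : ℕ} (h : RI (Pool.Agent.H.MP_60a1a2_co.tr A) t) :
    CI A t := by
  intro g T Z hT hg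
  have h1 := h g T (Z.image Prod.swap) hT (by rw [rws_swap]; exact hg)
  rw [tr_r, tr_r, swap_union, swap_prod, swap_swap] at h1
  exact h1

theorem RI.le {A : RF (ℚ × ℚ)} {t s : ℕ} (h : RI A t) (hs : s ≤ t) : RI A s :=
  RI.of_tr (h.tr.le hs)

theorem RI.zero (A : RF (ℚ × ℚ)) : RI A 0 := RI.of_tr (CI.zero _)

/-- a fresh column element is free -/
theorem CI.one {A : RF (ℚ × ℚ)} (h : CI A 1) {Z : Finset (ℚ × ℚ)} {g c : ℚ} (hc : c ∉ cls Z) :
    A.r (insert (g, c) Z) = A.r Z + 1 := by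
  have h1 := h c {g} Z (Finset.card_singleton g) hc
  have h2 : Z ∪ {g} ×ˢ {c} = insert (g, c) Z := by
    ext ⟨a, b⟩
    simp only [Finset.mem_union, Finset.mem_product, Finset.mem_insert, Finset.mem_singleton,
      Prod.mk.injEq]
    tauto
  rw [h2] at h1
  exact h1

/-- two elements of a row are free -/
theorem RI.two {A : RF (ℚ × ℚ)} (h : RI A 2) {Z : Finset (ℚ × ℚ)} {g c c' : ℚ} (hg : g ∉ rws Z)
    (hc : c ≠ c') : A.r (insert (g, c) (insert (g, c') Z)) = A.r Z + 2 := by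
  have h1 := h g {c, c'} Z (Finset.card_pair hc) hg
  have h2 : Z ∪ {g} ×ˢ {c, c'} = insert (g, c) (insert (g, c') Z) := by
    ext ⟨a, b⟩
    simp only [Finset.mem_union, Finset.mem_product, Finset.mem_insert, Finset.mem_singleton,
      Prod.mk.injEq]
    tauto
  rw [h2] at h1
  exact h1

/-- `t` elements in every new column -/
theorem CI.add {A : RF (ℚ × ℚ)} {t : ℕ} (h : CI A t) {G H : Finset ℚ} {Z : Finset (ℚ × ℚ)}
    (hG : G.card = t) (hH : Disjoint H (cls Z)) :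
    A.r (Z ∪ G ×ˢ H) = A.r Z + t * H.card := by
  induction H using Finset.induction_on with
  | empty => simp
  | insert c H hc ih =>
    have h1 := ih (Finset.disjoint_of_subset_left (Finset.subset_insert c H) hH)
    have h2 : Z ∪ G ×ˢ (insert c H) = (Z ∪ G ×ˢ H) ∪ G ×ˢ {c} := by
      ext ⟨a, b⟩
      simp only [Finset.mem_union, Finset.mem_product, Finset.mem_insert, Finset.mem_singleton]
      tauto
    have h3 : c ∉ cls (Z ∪ G ×ˢ H) := by
      rw [cls_union, Finset.mem_union]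
      rintro (h4 | h4)
      · exact Finset.disjoint_left.1 hH (Finset.mem_insert_self c H) h4
      · exact hc (cls_prod_sub G H h4)
    rw [h2, h c G _ hG h3, h1, Finset.card_insert_of_notMem hc]
    ring

/-- `t` elements in every new row -/
theorem RI.add {A : RF (ℚ × ℚ)} {t : ℕ} (h : RI A t) {G H : Finset ℚ} {Z : Finset (ℚ × ℚ)}
    (hH : H.card = t) (hG : Disjoint G (rws Z)) :
    A.r (Z ∪ G ×ˢ H) = A.r Z + t * G.card := by
  have h1 := h.tr.add (G := H) (H := G) (Z := Z.image Prod.swap) hH (by rw [cls_swap]; exact hG)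
  rw [tr_r, tr_r, swap_union, swap_prod, swap_swap] at h1
  exact h1

theorem shr_lt {a b : ℚ} (h : a < b) : shr a < shr b := by
  unfold shr
  have ha : 0 < 1 + |a| := by positivity
  have hb : 0 < 1 + |b| := by positivity
  have key : a / (1 + |a|) < b / (1 + |b|) := by
    rw [div_lt_div_iff₀ ha hb]
    rcases le_or_gt 0 a with h1 | h1
    · have h2 : 0 ≤ b := h1.trans h.le
      rw [abs_of_nonneg h1, abs_of_nonneg h2]
      nlinarith
    · rcases le_or_gt 0 b with h2 | h2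
      · rw [abs_of_neg h1, abs_of_nonneg h2]
        nlinarith
      · rw [abs_of_neg h1, abs_of_neg h2]
        nlinarith
  linarith

theorem shr_mono : StrictMono shr := fun _ _ h => shr_lt h

theorem shr_pos (q : ℚ) : 0 < shr q := by
  unfold shr
  have h : 0 < 1 + |q| := by positivity
  have h1 : -1 < q / (1 + |q|) := by
    rw [lt_div_iff₀ h]
    have := neg_abs_le q
    linarith
  linarith

theorem shr_lt_one (q : ℚ) : shr q < 1 := by
  unfold shr
  have h : 0 < 1 + |q| := by positivity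
  have h1 : q / (1 + |q|) < 1 := by
    rw [div_lt_one h]
    have := le_abs_self q
    linarith
  linarith

theorem shr_not_out (q : ℚ) : ¬ Out01 (shr q) := by
  rintro (h | h)
  · exact absurd h (not_le.2 (shr_pos q))
  · exact absurd h (not_le.2 (shr_lt_one q))

/-- moving the rows inside of the interval and fixing the others -/
theorem mono_glue {φ : ℚ → ℚ} {X Y : Finset ℚ} (h : StrictMonoOn φ (X : Set ℚ))
    (hY : ∀ y ∈ Y, Out01 y) :
    ∃ χ : ℚ → ℚ, StrictMonoOn χ ((X.image shr ∪ Y : Finset ℚ) : Set ℚ) ∧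
      (∀ x ∈ X, χ (shr x) = shr (φ x)) ∧ ∀ y ∈ Y, χ y = y := by
  classical
  have hinv : ∀ x : ℚ, ∃ y : ℚ, (∃ z, shr z = x) → shr y = x := by
    intro x
    by_cases hx : ∃ z, shr z = x
    · obtain ⟨z, hz⟩ := hx
      exact ⟨z, fun _ => hz⟩
    · exact ⟨0, fun h => absurd h hx⟩
  choose inv hi using hinv
  have hinv' : ∀ z, inv (shr z) = z := fun z => shr_mono.injective (hi (shr z) ⟨z, rfl⟩)
  refine ⟨fun x => if ∃ z, shr z = x then shr (φ (inv x)) else x, ?_, ?_, ?_⟩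
  · intro x hx y hy hxy
    simp only [Finset.coe_union, Finset.coe_image, Set.mem_union, Set.mem_image,
      Finset.mem_coe] at hx hy
    rcases hx with ⟨a, ha, rfl⟩ | hx <;> rcases hy with ⟨b, hb, rfl⟩ | hy
    · simp only [exists_apply_eq_apply, if_true, hinv']
      exact shr_lt (h ha hb (shr_mono.lt_iff_lt.1 hxy))
    · have h2 : ¬ ∃ z, shr z = y := by
        rintro ⟨z, rfl⟩
        exact shr_not_out z (hY _ hy)
      simp only [exists_apply_eq_apply, if_true, hinv', if_neg h2]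
      rcases hY y hy with h3 | h3
      · have := shr_pos a
        linarith
      · have := shr_lt_one (φ a)
        linarith
    · have h2 : ¬ ∃ z, shr z = x := by
        rintro ⟨z, rfl⟩
        exact shr_not_out z (hY _ hx)
      simp only [exists_apply_eq_apply, if_true, hinv', if_neg h2]
      rcases hY x hx with h3 | h3
      · have := shr_pos (φ b)
        linarith
      · have := shr_lt_one b
        linarith
    · have h2 : ¬ ∃ z, shr z = x := by
        rintro ⟨z, rfl⟩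
        exact shr_not_out z (hY _ hx)
      have h3 : ¬ ∃ z, shr z = y := by
        rintro ⟨z, rfl⟩
        exact shr_not_out z (hY _ hy)
      simp only [if_neg h2, if_neg h3]
      exact hxy
  · intro x _
    simp only [exists_apply_eq_apply, if_true, hinv']
  · intro y hy
    have h3 : ¬ ∃ z, shr z = y := by
      rintro ⟨z, rfl⟩
      exact shr_not_out z (hY _ hy)
    simp only [if_neg h3]

end Pool.Agent.H.MP_60a1a2_co
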