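import Pool.Agent.H.MP_60a1a2_co.TriA

/-! # Cliques from bipartite graphs of small rank -/

set_option autoImplicit false

namespace Pool.Agent.H.MP_60a1a2_co

variable {α : Type*} [DecidableEq α]

/-- `a 0, ..., a (p - 1)`, `b 0, ..., b (q - 1)` are different vertices in `V` -/
structure BOK (V : Finset ℕ) (a b : ℕ → ℕ) (p q : ℕ) : Prop where
  aV : ∀ i < p, a i ∈ V
  bV : ∀ j < q, b j ∈ V
  ainj : ∀ i < p, ∀ i' < p, a i = a i' → i = i'
  binj : ∀ j < q, ∀ j' < q, b j = b j' → j = j'
  ab : ∀ i < p, ∀ j < q, a i ≠ b j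

/-- the edges between the first `g` vertices `a i` and the first `h` vertices `b j` -/
def bp (e : ℕ → ℕ → α) (a b : ℕ → ℕ) (g h : ℕ) : Finset α :=
  (Finset.range g ×ˢ Finset.range h).image (fun p => e (a p.1) (b p.2))

/-- the contracted edges: the edges between the first `g + 1` and the first `h + 1` vertices and a
matching -/
def bF (e : ℕ → ℕ → α) (a b : ℕ → ℕ) (g h N : ℕ) : Finset α :=
  bp e a b (g + 1) (h + 1) ∪ (Finset.range (N + 1)).image (fun t => e (a (g + t)) (b (h + t)))

/-- the edges of the clique after the contraction -/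
def be (e : ℕ → ℕ → α) (a b : ℕ → ℕ) (g h : ℕ) (t t' : ℕ) : α :=
  e (a (g + min t t')) (b (h + max t t'))

theorem mem_bp {e : ℕ → ℕ → α} {a b : ℕ → ℕ} {g h : ℕ} {x : α} :
    x ∈ bp e a b g h ↔ ∃ i < g, ∃ j < h, e (a i) (b j) = x := by
  unfold bp
  simp only [Finset.mem_image, Finset.mem_product, Finset.mem_range, Prod.exists]
  constructor
  · rintro ⟨i, j, ⟨hi, hj⟩, h⟩
    exact ⟨i, hi, j, hj, h⟩
  · rintro ⟨i, hi, j, hj, h⟩
    exact ⟨i, j, ⟨hi, hj⟩, h⟩

theorem LfBip_ab {e : ℕ → ℕ → α} {V : Finset ℕ} (hE : IsE e V) {a b : ℕ → ℕ} {p q : ℕ}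
    (hb : BOK V a b p q) {i i' j j' : ℕ} (hi : i < p) (hi' : i' < p) (hj : j < q) (hj' : j' < q)
    (h : e (a i) (b j) = e (a i') (b j')) : i = i' ∧ j = j' := by
  rcases hE.inj _ (hb.aV i hi) _ (hb.bV j hj) _ (hb.aV i' hi') _ (hb.bV j' hj')
    (hb.ab i hi j hj) (hb.ab i' hi' j' hj') h with h1 | h1
  · exact ⟨hb.ainj i hi i' hi' h1.1, hb.binj j hj j' hj' h1.2⟩
  · exact absurd h1.1 (hb.ab i hi j' hj')

/-- Proof.  `symm`: `min_comm`, `max_comm`.  `inj`: by `IsE.inj` (and `BOK.ab`, `BOK.ainj`,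
`BOK.binj`) `be t t' = be s s'` gives `min t t' = min s s'` and `max t t' = max s s'`. -/
theorem be_isE {e : ℕ → ℕ → α} {V : Finset ℕ} (hE : IsE e V) {a b : ℕ → ℕ} {g h N : ℕ}
    (hb : BOK V a b (g + 1 + N) (h + 1 + N)) :
    IsE (be e a b g h) (Finset.range (N + 1)) := by
  constructor
  · intro i _ j _
    unfold be
    rw [min_comm, max_comm]
  · intro i hi j hj k hk l hl hij hkl heq
    rw [Finset.mem_range] at hi hj hk hl
    unfold be at heq
    have h1 := LfBip_ab hE hb (by omega) (by omega) (by omega) (by omega) heq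
    omega

/-- Proof: `mem_ed`, `mem_bp`; `min t t' ≤ N`, `max t t' ≤ N`. -/
theorem bF_sub {e : ℕ → ℕ → α} {a b : ℕ → ℕ} {g h N : ℕ} :
    bF e a b g h N ∪ ed (be e a b g h) (Finset.range (N + 1)) ⊆
      bp e a b (g + 1 + N) (h + 1 + N) := by
  intro x hx
  rcases Finset.mem_union.1 hx with hx | hx
  · unfold bF at hx
    rcases Finset.mem_union.1 hx with hx | hx
    · obtain ⟨i, hi, j, hj, rfl⟩ := mem_bp.1 hx
      exact mem_bp.2 ⟨i, by omega, j, by omega, rfl⟩
    · obtain ⟨t, ht, rfl⟩ := Finset.mem_image.1 hx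
      rw [Finset.mem_range] at ht
      exact mem_bp.2 ⟨g + t, by omega, h + t, by omega, rfl⟩
  · obtain ⟨t, ht, t', ht', _, rfl⟩ := mem_ed.1 hx
    rw [Finset.mem_range] at ht ht'
    exact mem_bp.2 ⟨g + min t t', by omega, h + max t t', by omega, rfl⟩

/-- Proof: `BOK.aV`, `BOK.bV`, `BOK.ab`. -/
theorem bp_sub {e : ℕ → ℕ → α} {V : Finset ℕ} {a b : ℕ → ℕ} {p q : ℕ} (hb : BOK V a b p q) :
    bp e a b p q ⊆ ed e V := by
  intro x hx
  obtain ⟨i, hi, j, hj, rfl⟩ := mem_bp.1 hx
  exact ed_mem (hb.aV i hi) (hb.bV j hj) (hb.ab i hi j hj)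

/-- Proof.  `be t t'` with `t ≠ t'` is `e (a (g + min)) (b (h + max))` with `min < max`.  If it is
`e (a (g + s)) (b (h + s))` then `min = s = max` (`IsE.inj` and `BOK`).  If it is `e (a i) (b j)`
with `i ≤ g`, `j ≤ h` then `max = 0`. -/
theorem bF_disj {e : ℕ → ℕ → α} {V : Finset ℕ} (hE : IsE e V) {a b : ℕ → ℕ} {g h N : ℕ}
    (hb : BOK V a b (g + 1 + N) (h + 1 + N)) :
    Disjoint (bF e a b g h N) (ed (be e a b g h) (Finset.range (N + 1))) := by
  rw [Finset.disjoint_left]
  intro x hx hx'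
  obtain ⟨t, ht, t', ht', htt, rfl⟩ := mem_ed.1 hx'
  rw [Finset.mem_range] at ht ht'
  unfold bF at hx
  rcases Finset.mem_union.1 hx with hx | hx
  · obtain ⟨i, hi, j, hj, heq⟩ := mem_bp.1 hx
    unfold be at heq
    have h1 := LfBip_ab hE hb (by omega) (by omega) (by omega) (by omega) heq
    omega
  · obtain ⟨s, hs, heq⟩ := Finset.mem_image.1 hx
    rw [Finset.mem_range] at hs
    unfold be at heq
    have h1 := LfBip_ab hE hb (by omega) (by omega) (by omega) (by omega) heq
    omega

/-- The rank of the contracted edges.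

Proof.  Show by induction on `n ≤ N` that the set
`bp e a b (g + 1) (h + 1) ∪ (range (n + 1)).image (fun t => e (a (g + t)) (b (h + t)))` has rank
`K.r (bp e a b (g + 1) (h + 1)) + n`; `n = 0`: the added element is in `bp`.  Step: the vertex
`a (g + n + 1)` is not used by the set for `n`, so `IsK.leaf` and `RF.not_in`. -/
theorem bF_rank {K : RF α} {e : ℕ → ℕ → α} {V : Finset ℕ} (hK : IsK K e V) {a b : ℕ → ℕ}
    {g h N : ℕ} (hb : BOK V a b (g + 1 + N) (h + 1 + N)) :
    K.r (bF e a b g h N) = K.r (bp e a b (g + 1) (h + 1)) + N := by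
  have key : ∀ n ≤ N, K.r (bp e a b (g + 1) (h + 1) ∪
      (Finset.range (n + 1)).image (fun t => e (a (g + t)) (b (h + t)))) =
      K.r (bp e a b (g + 1) (h + 1)) + n := by
    intro n
    induction n with
    | zero =>
      intro _
      have h1 : bp e a b (g + 1) (h + 1) ∪
          (Finset.range (0 + 1)).image (fun t => e (a (g + t)) (b (h + t))) =
          bp e a b (g + 1) (h + 1) := by
        apply Finset.union_eq_left.2
        intro x hx
        obtain ⟨t, ht, rfl⟩ := Finset.mem_image.1 hx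
        rw [Finset.mem_range] at ht
        exact mem_bp.2 ⟨g + t, by omega, h + t, by omega, rfl⟩
      rw [h1, add_zero]
    | succ n ih =>
      intro hn
      have ih' := ih (by omega)
      have h1 : bp e a b (g + 1) (h + 1) ∪
          (Finset.range (n + 1 + 1)).image (fun t => e (a (g + t)) (b (h + t))) =
          insert (e (a (g + (n + 1))) (b (h + (n + 1)))) (bp e a b (g + 1) (h + 1) ∪
          (Finset.range (n + 1)).image (fun t => e (a (g + t)) (b (h + t)))) := by
        rw [Finset.range_add_one, Finset.image_insert, Finset.union_insert]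
      rw [h1]
      have hu : a (g + (n + 1)) ∈ V := hb.aV _ (by omega)
      have hv : b (h + (n + 1)) ∈ V := hb.bV _ (by omega)
      have hne : a (g + (n + 1)) ≠ b (h + (n + 1)) := hb.ab _ (by omega) _ (by omega)
      have hsub : bp e a b (g + 1) (h + 1) ∪
          (Finset.range (n + 1)).image (fun t => e (a (g + t)) (b (h + t))) ⊆
          ed e (V.erase (a (g + (n + 1)))) := by
        have hmem : ∀ i j, i < g + (n + 1) → j < h + 1 + N →
            e (a i) (b j) ∈ ed e (V.erase (a (g + (n + 1)))) := by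
          intro i j hi hj
          refine ed_mem ?_ ?_ (hb.ab i (by omega) j hj)
          · refine Finset.mem_erase.2 ⟨fun h2 => ?_, hb.aV i (by omega)⟩
            have := hb.ainj i (by omega) _ (by omega) h2
            omega
          · exact Finset.mem_erase.2 ⟨(hb.ab _ (by omega) j hj).symm, hb.bV j hj⟩
        intro x hx
        rcases Finset.mem_union.1 hx with hx | hx
        · obtain ⟨i, hi, j, hj, rfl⟩ := mem_bp.1 hx
          exact hmem i j (by omega) (by omega)
        · obtain ⟨t, ht, rfl⟩ := Finset.mem_image.1 hx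
          rw [Finset.mem_range] at ht
          exact hmem (g + t) (h + t) (by omega) (by omega)
      rw [K.not_in (hK.leaf hu hv hne hsub), ih']
      omega
  exact key N le_rfl

end Pool.Agent.H.MP_60a1a2_co
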