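import Pool.Agent.H.MP_60a1a2_co.LfShrink

/-! # Arrays: reduction to the numbers one and two

`B` is an array with `CI B t`, `RI B u` in which the products have rank at most
`u * G.card + t * H.card`.  We contract `t - 1` elements in every column and `u - 2` elements in
every row.  The rows of `neg (t - 1)` and the columns of `neg (u - 2)` are used for this; the
elements of the new array live in the unit square. -/

set_option autoImplicit false

namespace Pool.Agent.H.MP_60a1a2_co

/-- the numbers `-1, ..., -n` -/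
def neg (n : ℕ) : Finset ℚ := (Finset.range n).image (fun i : ℕ => -(i : ℚ) - 1)

/-- the contracted elements for the set `X` (after moving it into the unit square) -/
def psi (a b : ℕ) (X : Finset (ℚ × ℚ)) : Finset (ℚ × ℚ) :=
  neg a ×ˢ (neg b ∪ (cls X).image shr) ∪ (rws X).image shr ×ˢ neg b

/-- The cardinality (`Finset.card_image_of_injective`). -/
theorem neg_card (n : ℕ) : (neg n).card = n := by
  unfold neg
  rw [Finset.card_image_of_injective, Finset.card_range]
  intro i j h
  have h1 : (i : ℚ) = (j : ℚ) := by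
    simp only at h
    linarith
  exact_mod_cast h1

/-- Proof: `-(i : ℚ) - 1 ≤ 0`. -/
theorem neg_out (n : ℕ) : ∀ x ∈ neg n, Out01 x := by
  intro x hx
  unfold neg at hx
  obtain ⟨i, _, rfl⟩ := Finset.mem_image.1 hx
  left
  have h1 : (0 : ℚ) ≤ i := Nat.cast_nonneg i
  linarith

/-- The values of `shr` are positive. -/
theorem neg_shr (n : ℕ) (q : ℚ) : shr q ∉ neg n :=
  fun h => shr_not_out q (neg_out n _ h)

theorem LfD_psi {a b : ℕ} {X W : Finset (ℚ × ℚ)} (hX : X ⊆ W) :
    psi a b W = (psi a b X ∪ neg a ×ˢ ((cls W).image shr \ (cls X).image shr)) ∪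
      ((rws W).image shr \ (rws X).image shr) ×ˢ neg b := by
  have h1 : (cls X).image shr ⊆ (cls W).image shr := Finset.image_subset_image (cls_mono hX)
  have h2 : (rws X).image shr ⊆ (rws W).image shr := Finset.image_subset_image (rws_mono hX)
  unfold psi
  ext ⟨x, y⟩
  have h3 := @h1 y
  have h4 := @h2 x
  simp only [Finset.mem_union, Finset.mem_product, Finset.mem_sdiff]
  tauto

theorem LfD_add {B : RF (ℚ × ℚ)} {a b : ℕ} (hc : CI B a) (hr : RI B b)
    {Y X W : Finset (ℚ × ℚ)} (hY : Y ⊆ X) (hX : X ⊆ W) :
    B.r (mv shr shr Y ∪ psi a b W) = B.r (mv shr shr Y ∪ psi a b X) +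
      a * ((cls W).image shr \ (cls X).image shr).card +
      b * ((rws W).image shr \ (rws X).image shr).card := by
  have h1 : mv shr shr Y ∪ psi a b W = ((mv shr shr Y ∪ psi a b X) ∪
      neg a ×ˢ ((cls W).image shr \ (cls X).image shr)) ∪
      ((rws W).image shr \ (rws X).image shr) ×ˢ neg b := by
    rw [LfD_psi hX, ← Finset.union_assoc, ← Finset.union_assoc]
  have hcls : cls (mv shr shr Y ∪ psi a b X) ⊆ (cls X).image shr ∪ neg b := by
    unfold psi
    rw [cls_union, cls_union, cls_mv]
    apply Finset.union_subset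
    · exact (Finset.image_subset_image (cls_mono hY)).trans Finset.subset_union_left
    · apply Finset.union_subset
      · refine (cls_prod_sub _ _).trans ?_
        rw [Finset.union_comm]
      · exact (cls_prod_sub _ _).trans Finset.subset_union_right
  have hrws : rws ((mv shr shr Y ∪ psi a b X) ∪
      neg a ×ˢ ((cls W).image shr \ (cls X).image shr)) ⊆ (rws X).image shr ∪ neg a := by
    unfold psi
    rw [rws_union, rws_union, rws_union, rws_mv]
    apply Finset.union_subset
    · apply Finset.union_subset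
      · exact (Finset.image_subset_image (rws_mono hY)).trans Finset.subset_union_left
      · apply Finset.union_subset
        · exact (rws_prod_sub _ _).trans Finset.subset_union_right
        · exact (rws_prod_sub _ _).trans Finset.subset_union_left
    · exact (rws_prod_sub _ _).trans Finset.subset_union_right
  have hH : Disjoint ((cls W).image shr \ (cls X).image shr) (cls (mv shr shr Y ∪ psi a b X)) := by
    rw [Finset.disjoint_left]
    intro c h2 h3
    rw [Finset.mem_sdiff] at h2
    rcases Finset.mem_union.1 (hcls h3) with h4 | h4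
    · exact h2.2 h4
    · obtain ⟨q, _, rfl⟩ := Finset.mem_image.1 h2.1
      exact neg_shr b q h4
  have hG : Disjoint ((rws W).image shr \ (rws X).image shr) (rws ((mv shr shr Y ∪ psi a b X) ∪
      neg a ×ˢ ((cls W).image shr \ (cls X).image shr))) := by
    rw [Finset.disjoint_left]
    intro c h2 h3
    rw [Finset.mem_sdiff] at h2
    rcases Finset.mem_union.1 (hrws h3) with h4 | h4
    · exact h2.2 h4
    · obtain ⟨q, _, rfl⟩ := Finset.mem_image.1 h2.1
      exact neg_shr a q h4
  rw [h1, hr.add (neg_card b) hG, hc.add (neg_card a) hH]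

/-- Enlarging the contracted set by fresh rows and columns.

Proof.  `psi a b W = psi a b X ∪ neg a ×ˢ Hn ∪ Gn ×ˢ neg b` with
`Hn = (cls W).image shr \ (cls X).image shr`, `Gn = (rws W).image shr \ (rws X).image shr`.
`CI.add` (with `G = neg a`, `neg_card`) for `Z = mv shr shr Y ∪ psi a b X`: its columns are in
`(cls Y).image shr ∪ neg b ∪ (cls X).image shr`, disjoint from `Hn` (`Y ⊆ X`, `neg_shr`), and then
`RI.add` (with `H = neg b`): the rows of `Z ∪ neg a ×ˢ Hn` are in
`(rws X).image shr ∪ neg a`, disjoint from `Gn`.  This gives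
`B.r (mv shr shr Y ∪ psi a b W) = B.r (mv shr shr Y ∪ psi a b X) + a * Hn.card + b * Gn.card`;
the same with `Y = ∅` (`mv shr shr ∅ = ∅`).  Subtract. -/
theorem psi_enlarge {B : RF (ℚ × ℚ)} {a b : ℕ} (hc : CI B a) (hr : RI B b)
    {Y X W : Finset (ℚ × ℚ)} (hY : Y ⊆ X) (hX : X ⊆ W) :
    B.r (mv shr shr Y ∪ psi a b W) + B.r (psi a b X) =
      B.r (mv shr shr Y ∪ psi a b X) + B.r (psi a b W) := by
  have h1 := LfD_add hc hr hY hX
  have h2 := LfD_add hc hr (Finset.empty_subset X) hX
  have h3 : mv shr shr ∅ = ∅ := rfl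
  rw [h3, Finset.empty_union, Finset.empty_union] at h2
  omega

/-- The contracted array as a rank function.

Proof.  `r X = B.r (mv shr shr X ∪ psi a b X) - B.r (psi a b X)`.  By `psi_enlarge` (with `Y = X`)
`r X + B.r (psi a b W) = B.r (mv shr shr X ∪ psi a b W)` for all `W ⊇ X`.  So for finitely many sets
`X` inside of `W` the function is `X ↦ (B.con (psi a b W)).r (mv shr shr X)` and the axioms follow
from those of `(B.con (psi a b W)).map (Prod.map shr shr)` (take `W = X`, `W = Y`, `W = X ∪ Y`). -/
theorem exists_dd {B : RF (ℚ × ℚ)} {a b : ℕ} (hc : CI B a) (hr : RI B b) :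
    ∃ D : RF (ℚ × ℚ), ∀ X W : Finset (ℚ × ℚ), X ⊆ W →
      D.r X + B.r (psi a b W) = B.r (mv shr shr X ∪ psi a b W) := by
  have key : ∀ X W : Finset (ℚ × ℚ), X ⊆ W →
      (B.r (mv shr shr X ∪ psi a b X) - B.r (psi a b X)) + B.r (psi a b W) =
        B.r (mv shr shr X ∪ psi a b W) := by
    intro X W hX
    have h1 := psi_enlarge hc hr (Finset.Subset.refl X) hX
    have h2 : B.r (psi a b X) ≤ B.r (mv shr shr X ∪ psi a b X) :=
      B.mono Finset.subset_union_right
    omega
  refine ⟨⟨fun X => B.r (mv shr shr X ∪ psi a b X) - B.r (psi a b X), ?_, ?_, ?_⟩, key⟩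
  · intro X
    have h1 := B.dual_aux (psi a b X) (mv shr shr X)
    have h2 : (mv shr shr X).card ≤ X.card := Finset.card_image_le
    rw [Finset.union_comm] at h1
    omega
  · intro X Y h
    have h1 := key X Y h
    have h2 := key Y Y (Finset.Subset.refl Y)
    have h3 : B.r (mv shr shr X ∪ psi a b Y) ≤ B.r (mv shr shr Y ∪ psi a b Y) :=
      B.mono (Finset.union_subset_union_left (Finset.image_subset_image h))
    omega
  · intro X Y
    have h1 := key X (X ∪ Y) Finset.subset_union_left
    have h2 := key Y (X ∪ Y) Finset.subset_union_right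
    have h3 := key (X ∪ Y) (X ∪ Y) (Finset.Subset.refl _)
    have h4 := key (X ∩ Y) (X ∪ Y) (Finset.inter_subset_left.trans Finset.subset_union_left)
    have h5 := B.submod (mv shr shr X ∪ psi a b (X ∪ Y)) (mv shr shr Y ∪ psi a b (X ∪ Y))
    have h6 : (mv shr shr X ∪ psi a b (X ∪ Y)) ∪ (mv shr shr Y ∪ psi a b (X ∪ Y)) =
        mv shr shr (X ∪ Y) ∪ psi a b (X ∪ Y) := by
      rw [mv_union]
      ext z
      simp only [Finset.mem_union]
      tauto
    have h7 : mv shr shr (X ∩ Y) ∪ psi a b (X ∪ Y) ⊆
        (mv shr shr X ∪ psi a b (X ∪ Y)) ∩ (mv shr shr Y ∪ psi a b (X ∪ Y)) := by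
      apply Finset.subset_inter
      · exact Finset.union_subset_union_left (Finset.image_subset_image Finset.inter_subset_left)
      · exact Finset.union_subset_union_left (Finset.image_subset_image Finset.inter_subset_right)
    have h8 := B.mono h7
    rw [h6] at h5
    omega

end Pool.Agent.H.MP_60a1a2_co
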