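import Pool.Agent.H.MP_60a1a2_co.RFBasic

/-! # Arrays: rank functions on the pairs of rational numbers (definitions)

The element `(g, h)` lies in the row `g` and in the column `h`. -/

set_option autoImplicit false

namespace Pool.Agent.H.MP_60a1a2_co

/-- pulling back a rank function along a map -/
def RF.map {α β : Type*} [DecidableEq α] [DecidableEq β] (M : RF α) (f : β → α) : RF β where
  r := fun X => M.r (X.image f)
  le_card := fun X => (M.le_card _).trans Finset.card_image_le
  mono := fun h => M.mono (Finset.image_subset_image h)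
  submod := by
    intro X Y
    have h1 := M.submod (X.image f) (Y.image f)
    have h2 : M.r ((X ∩ Y).image f) ≤ M.r (X.image f ∩ Y.image f) :=
      M.mono (Finset.image_inter_subset _ _ _)
    rw [Finset.image_union]
    omega

theorem RF.map_r {α β : Type*} [DecidableEq α] [DecidableEq β] (M : RF α) (f : β → α)
    (X : Finset β) : (M.map f).r X = M.r (X.image f) := rfl

/-- the rows which contain an element of `X` -/
def rws (X : Finset (ℚ × ℚ)) : Finset ℚ := X.image Prod.fst

/-- the columns which contain an element of `X` -/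
def cls (X : Finset (ℚ × ℚ)) : Finset ℚ := X.image Prod.snd

/-- moving the rows with `φ` and the columns with `ψ` -/
def mv (φ ψ : ℚ → ℚ) (X : Finset (ℚ × ℚ)) : Finset (ℚ × ℚ) := X.image (Prod.map φ ψ)

/-- homogeneity: the rank does not change under strictly increasing maps of the rows and
columns -/
def AHom (A : RF (ℚ × ℚ)) : Prop :=
  ∀ (X : Finset (ℚ × ℚ)) (φ ψ : ℚ → ℚ), StrictMonoOn φ (rws X : Set ℚ) →
    StrictMonoOn ψ (cls X : Set ℚ) → A.r (mv φ ψ X) = A.r X

/-- any `t` elements of a column are independent over every set which avoids the column -/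
def CI (A : RF (ℚ × ℚ)) (t : ℕ) : Prop :=
  ∀ (h : ℚ) (T : Finset ℚ) (Z : Finset (ℚ × ℚ)), T.card = t → h ∉ cls Z →
    A.r (Z ∪ T ×ˢ {h}) = A.r Z + t

/-- any `t` elements of a row are independent over every set which avoids the row -/
def RI (A : RF (ℚ × ℚ)) (t : ℕ) : Prop :=
  ∀ (g : ℚ) (T : Finset ℚ) (Z : Finset (ℚ × ℚ)), T.card = t → g ∉ rws Z →
    A.r (Z ∪ {g} ×ˢ T) = A.r Z + t

/-- exchanging rows and columns -/
def tr (A : RF (ℚ × ℚ)) : RF (ℚ × ℚ) := A.map Prod.swap

/-- `x` lies outside the open interval `(0, 1)` -/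
def Out01 (x : ℚ) : Prop := x ≤ 0 ∨ 1 ≤ x

/-- a strictly increasing map of the rational numbers into `(0, 1)` -/
def shr (q : ℚ) : ℚ := (1 + q / (1 + |q|)) / 2

end Pool.Agent.H.MP_60a1a2_co
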