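import Pool.Agent.H.MP_60a1a2_co.LfBase

/-! # Arrays: the largest numbers of independent elements in columns and rows -/

set_option autoImplicit false

namespace Pool.Agent.H.MP_60a1a2_co

/-- If some product is not independent then `CI` fails for some number.

Proof.  `CI A G.card` and `CI.add` (with `Z = ∅`) give `A.r (G ×ˢ H) = G.card * H.card`
(`A.r_empty`), a contradiction.  So there is a number for which `CI` fails; let `m` be the least
one (`Nat.find`); `m ≠ 0` (`CI.zero`), `m ≠ 1` (`h1`); `t = m - 1`. -/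
theorem exists_CI {A : RF (ℚ × ℚ)} (h1 : CI A 1) {G H : Finset ℚ}
    (h : A.r (G ×ˢ H) < G.card * H.card) : ∃ t, 1 ≤ t ∧ CI A t ∧ ¬ CI A (t + 1) := by
  classical
  have hex : ∃ m, ¬ CI A m := by
    refine ⟨G.card, fun hG => ?_⟩
    have h2 := hG.add (G := G) (H := H) (Z := ∅) rfl (by
      rw [cls_empty]
      exact Finset.disjoint_empty_right _)
    rw [Finset.empty_union, A.r_empty, zero_add] at h2
    omega
  have hm := Nat.find_spec hex
  have hmin : ∀ k, k < Nat.find hex → CI A k := fun k hk => not_not.1 (Nat.find_min hex hk)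
  have hm0 : Nat.find hex ≠ 0 := by
    intro h0
    rw [h0] at hm
    exact hm (CI.zero A)
  have hm1 : Nat.find hex ≠ 1 := by
    intro h0
    rw [h0] at hm
    exact hm h1
  refine ⟨Nat.find hex - 1, by omega, hmin _ (by omega), ?_⟩
  have h3 : Nat.find hex - 1 + 1 = Nat.find hex := by omega
  rw [h3]
  exact hm

/-- The same for rows: use `exists_CI` for `tr A` (`RI.tr`, `tr_prod`, `RI.of_tr`, `CI.tr`). -/
theorem exists_RI {A : RF (ℚ × ℚ)} (h1 : RI A 1) {G H : Finset ℚ}
    (h : A.r (G ×ˢ H) < G.card * H.card) : ∃ t, 1 ≤ t ∧ RI A t ∧ ¬ RI A (t + 1) := by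
  obtain ⟨t, ht, ht1, ht2⟩ := exists_CI (A := tr A) h1.tr (G := H) (H := G) (by
    rw [tr_prod, mul_comm]
    exact h)
  exact ⟨t, ht, RI.of_tr ht1, fun h3 => ht2 h3.tr⟩

end Pool.Agent.H.MP_60a1a2_co
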