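import Pool.Agent.H.MP_60a1a2_co.LfBase

/-! # Arrays: the extension lemma for a row with three ties -/

set_option autoImplicit false

namespace Pool.Agent.H.MP_60a1a2_co

/-- elements in fresh columns can be removed from closures:
if `x ∈ cl (insert (g, c) Z)` and `c` is no column of `Z` and not the column of `x` then
`x ∈ cl Z`.

Proof.  `A.r (insert x (insert (g, c) Z)) = A.r (insert (g, c) Z) = A.r Z + 1` and, by `CI.one` for
`insert x Z`, `A.r (insert (g, c) (insert x Z)) = A.r (insert x Z) + 1`. -/
theorem CI.drop {A : RF (ℚ × ℚ)} (h : CI A 1) {Z : Finset (ℚ × ℚ)} {g c : ℚ} {x : ℚ × ℚ}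
    (hc : c ∉ cls Z) (hx : x.2 ≠ c) (hin : A.In (insert (g, c) Z) x) : A.In Z x := by
  unfold RF.In at hin ⊢
  have h1 := h.one (g := g) hc
  have h2 : c ∉ cls (insert x Z) := by
    rw [cls_insert, Finset.mem_insert, not_or]
    exact ⟨Ne.symm hx, hc⟩
  have h3 := h.one (g := g) h2
  rw [Finset.insert_comm] at h3
  omega

/-- two elements in a fresh row can be removed from closures -/
theorem RI.drop {A : RF (ℚ × ℚ)} (h : RI A 2) {Z : Finset (ℚ × ℚ)} {g c c' : ℚ} {x : ℚ × ℚ}
    (hg : g ∉ rws Z) (hcc : c ≠ c') (hx : x.1 ≠ g)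
    (hin : A.In (insert (g, c) (insert (g, c') Z)) x) : A.In Z x := by
  unfold RF.In at hin ⊢
  have h1 := h.two hg hcc
  have h2 : g ∉ rws (insert x Z) := by
    rw [rws_insert, Finset.mem_insert, not_or]
    exact ⟨Ne.symm hx, hg⟩
  have h3 := h.two h2 hcc
  rw [Finset.insert_comm (g, c') x Z, Finset.insert_comm (g, c) x] at h3
  omega

/-- homogeneity for moving one column inside of an interval which contains no other column:
let no element of `Y` have its column in `(α, β)`; then a statement about the rank of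
`Y` together with elements in columns `c1 < c2 < ...` of the interval depends only on the number of
columns.

Proof.  Take `φ = id` and `ψ` the identity on the columns of `Y` and `ψ (c i) = c' i`; it is
strictly increasing on the union because the columns of `Y` are `≤ α` or `≥ β`.  (For the definition
of `ψ`: `ψ x = if h : ∃ i, c i = x then c' h.choose else x`, `c` is injective.) -/
theorem AHom.move {A : RF (ℚ × ℚ)} (hA : AHom A) {Y : Finset (ℚ × ℚ)} {α β : ℚ}
    (hY : ∀ y ∈ cls Y, y ≤ α ∨ β ≤ y) {n : ℕ} (c c' : Fin n → ℚ) (hc : StrictMono c)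
    (hc' : StrictMono c') (hcα : ∀ i, α < c i ∧ c i < β) (hcα' : ∀ i, α < c' i ∧ c' i < β)
    (E : Finset (ℚ × Fin n)) :
    A.r (Y ∪ E.image (fun e => (e.1, c' e.2))) = A.r (Y ∪ E.image (fun e => (e.1, c e.2))) := by
  classical
  set ψ : ℚ → ℚ := fun x => if h : ∃ i, c i = x then c' h.choose else x with hψ
  have hψc : ∀ i, ψ (c i) = c' i := by
    intro i
    have hex : ∃ k, c k = c i := ⟨i, rfl⟩
    simp only [hψ, dif_pos hex]
    exact congrArg c' (hc.injective hex.choose_spec)
  have hψY : ∀ y ∈ cls Y, ψ y = y := by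
    intro y hy
    have hne : ¬ ∃ i, c i = y := by
      rintro ⟨i, rfl⟩
      rcases hY _ hy with h1 | h1
      · exact absurd (hcα i).1 (not_lt.2 h1)
      · exact absurd (hcα i).2 (not_lt.2 h1)
    simp only [hψ, dif_neg hne]
  have hmv : mv id ψ (Y ∪ E.image (fun e => (e.1, c e.2))) =
      Y ∪ E.image (fun e => (e.1, c' e.2)) := by
    rw [mv_union]
    congr 1
    · have h1 : mv id ψ Y = mv id id Y := mv_congr (fun g _ => rfl) (fun y hy => hψY y hy)
      rw [h1, mv_id]
    · unfold mv
      rw [Finset.image_image]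
      apply Finset.image_congr
      intro e _
      simp only [Function.comp_apply, Prod.map_apply, id_eq, hψc]
  rw [← hmv]
  apply hA
  · intro a _ b _ hab
    exact hab
  · intro a ha b hb hab
    have hcase : ∀ x ∈ (cls (Y ∪ E.image (fun e => (e.1, c e.2))) : Set ℚ),
        x ∈ cls Y ∨ ∃ i, c i = x := by
      intro x hx
      rw [Finset.mem_coe, cls_union, Finset.mem_union] at hx
      rcases hx with hx | hx
      · exact Or.inl hx
      · obtain ⟨g, hg⟩ := mem_cls.1 hx
        obtain ⟨e, _, he⟩ := Finset.mem_image.1 hg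
        exact Or.inr ⟨e.2, congrArg Prod.snd he⟩
    rcases hcase a ha with h1 | ⟨i, rfl⟩ <;> rcases hcase b hb with h2 | ⟨k, rfl⟩
    · rw [hψY a h1, hψY b h2]
      exact hab
    · rw [hψY a h1, hψc]
      rcases hY a h1 with h3 | h3
      · exact lt_of_le_of_lt h3 (hcα' k).1
      · exact absurd (hab.trans (hcα k).2) (not_lt.2 h3)
    · rw [hψY b h2, hψc]
      rcases hY b h2 with h3 | h3
      · exact absurd ((hcα i).1.trans hab) (not_lt.2 h3)
      · exact lt_of_lt_of_le (hcα' i).2 h3
    · rw [hψc, hψc]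
      exact hc' (hc.lt_iff_lt.1 hab)

end Pool.Agent.H.MP_60a1a2_co
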