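import Pool.Agent.H.MP_60a1a2_co.LfExt

/-! # Arrays: the extension lemma, first part -/

set_option autoImplicit false

namespace Pool.Agent.H.MP_60a1a2_co

/-- the six elements of three ties between the row `g` and the rows `g1`, `g2`, `g3` -/
def ties3 (g g1 g2 g3 h1 h2 h3 : ℚ) : Finset (ℚ × ℚ) :=
  {(g, h1), (g1, h1), (g, h2), (g2, h2), (g, h3), (g3, h3)}

section

variable {A : RF (ℚ × ℚ)} {Y : Finset (ℚ × ℚ)} {g g1 g2 g3 α β : ℚ}

theorem LfExt1_notMem (hY : ∀ y ∈ cls Y, y ≤ α ∨ β ≤ y) {t : ℚ} (h1 : α < t) (h2 : t < β) :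
    t ∉ cls Y := by
  intro h
  rcases hY t h with h3 | h3
  · exact absurd h1 (not_lt.2 h3)
  · exact absurd h2 (not_lt.2 h3)

theorem LfExt1_ties (g g1 g2 g3 x1 x2 x3 : ℚ) :
    ({(g, 0), (g1, 0), (g, 1), (g2, 1), (g, 2), (g3, 2)} : Finset (ℚ × Fin 3)).image
      (fun e => (e.1, (![x1, x2, x3] : Fin 3 → ℚ) e.2)) = ties3 g g1 g2 g3 x1 x2 x3 := by
  unfold ties3
  simp only [Finset.image_insert, Finset.image_singleton, Matrix.cons_val_zero,
    Matrix.cons_val_one, Matrix.cons_val_two]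
  rfl

theorem LfExt1_strict {x1 x2 x3 : ℚ} (h1 : x1 < x2) (h2 : x2 < x3) :
    StrictMono (![x1, x2, x3] : Fin 3 → ℚ) := by
  intro i j hij
  fin_cases i <;> fin_cases j <;> simp at hij ⊢ <;> linarith

/-- the rank of the set of three ties -/
theorem LfExt1_rank (hA : AHom A) (hY : ∀ y ∈ cls Y, y ≤ α ∨ β ≤ y) {h1 h2 h3 : ℚ}
    (hα : α < h1) (h12 : h1 < h2) (h23 : h2 < h3) (hβ : h3 < β)
    (hdep : A.r (Y ∪ ties3 g g1 g2 g3 h1 h2 h3) < A.r Y + 6) {x1 x2 x3 : ℚ} (k1 : α < x1)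
    (k12 : x1 < x2) (k23 : x2 < x3) (k3 : x3 < β) :
    A.r (Y ∪ ties3 g g1 g2 g3 x1 x2 x3) < A.r Y + 6 := by
  have h := hA.move hY (![h1, h2, h3] : Fin 3 → ℚ) (![x1, x2, x3] : Fin 3 → ℚ)
    (LfExt1_strict h12 h23) (LfExt1_strict k12 k23)
    (by intro i; fin_cases i <;> simp <;> constructor <;> linarith)
    (by intro i; fin_cases i <;> simp <;> constructor <;> linarith)
    ({(g, 0), (g1, 0), (g, 1), (g2, 1), (g, 2), (g3, 2)} : Finset (ℚ × Fin 3))
  rw [LfExt1_ties, LfExt1_ties] at h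
  rw [h]
  exact hdep

/-- the closures for three ties -/
theorem LfExt1_cl (hA : AHom A) (hc : CI A 1) (hr : RI A 2) (hg : g ∉ rws Y)
    (hg1 : g1 ≠ g) (hg2 : g2 ≠ g) (hg3 : g3 ≠ g) (hY : ∀ y ∈ cls Y, y ≤ α ∨ β ≤ y)
    {h1 h2 h3 : ℚ} (hα : α < h1) (h12 : h1 < h2) (h23 : h2 < h3) (hβ : h3 < β)
    (hdep : A.r (Y ∪ ties3 g g1 g2 g3 h1 h2 h3) < A.r Y + 6) {x1 x2 x3 : ℚ} (k1 : α < x1)
    (k12 : x1 < x2) (k23 : x2 < x3) (k3 : x3 < β) {P : Finset (ℚ × ℚ)}
    (hP : insert (g1, x1) (insert (g2, x2) (insert (g3, x3) Y)) ⊆ P) :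
    A.In (insert (g, x1) (insert (g, x2) P)) (g, x3) := by
  have hr6 := LfExt1_rank hA hY hα h12 h23 hβ hdep k1 k12 k23 k3
  set Q := insert (g1, x1) (insert (g2, x2) (insert (g3, x3) Y)) with hQ
  have n3 : x3 ∉ cls Y := LfExt1_notMem hY (by linarith) k3
  have n2 : x2 ∉ cls (insert (g3, x3) Y) := by
    rw [cls_insert, Finset.mem_insert, not_or]
    exact ⟨k23.ne, LfExt1_notMem hY (by linarith) (by linarith)⟩
  have n1 : x1 ∉ cls (insert (g2, x2) (insert (g3, x3) Y)) := by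
    rw [cls_insert, cls_insert, Finset.mem_insert, Finset.mem_insert, not_or, not_or]
    exact ⟨k12.ne, (k12.trans k23).ne, LfExt1_notMem hY (by linarith) (by linarith)⟩
  have q3 := hc.one (g := g3) n3
  have q2 := hc.one (g := g2) n2
  have q1 := hc.one (g := g1) n1
  rw [← hQ] at q1
  have hgQ : g ∉ rws Q := by
    rw [hQ, rws_insert, rws_insert, rws_insert, Finset.mem_insert, Finset.mem_insert,
      Finset.mem_insert, not_or, not_or, not_or]
    exact ⟨hg1.symm, hg2.symm, hg3.symm, hg⟩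
  have q5 := hr.two (Z := Q) (c := x1) (c' := x2) hgQ k12.ne
  have e : Y ∪ ties3 g g1 g2 g3 x1 x2 x3 =
      insert (g, x3) (insert (g, x1) (insert (g, x2) Q)) := by
    unfold ties3
    rw [hQ]
    ext z
    simp only [Finset.mem_union, Finset.mem_insert, Finset.mem_singleton]
    tauto
  rw [e] at hr6
  have hin : A.In (insert (g, x1) (insert (g, x2) Q)) (g, x3) := by
    by_contra hn
    have := A.not_in hn
    omega
  exact A.in_mono hin (Finset.insert_subset_insert _ (Finset.insert_subset_insert _ hP))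

/-- the closure of two elements of the row `g` -/
theorem LfExt1_two (hA : AHom A) (hc : CI A 1) (hr : RI A 2) (hg : g ∉ rws Y)
    (hg1 : g1 ≠ g) (hg2 : g2 ≠ g) (hg3 : g3 ≠ g) (hY : ∀ y ∈ cls Y, y ≤ α ∨ β ≤ y)
    {h1 h2 h3 : ℚ} (hα : α < h1) (h12 : h1 < h2) (h23 : h2 < h3) (hβ : h3 < β)
    (hdep : A.r (Y ∪ ties3 g g1 g2 g3 h1 h2 h3) < A.r Y + 6) {x1 x2 x3 x3' : ℚ} (k1 : α < x1)
    (k12 : x1 < x2) (k23 : x2 < x3) (k33 : x3 < x3') (k3 : x3' < β) :
    A.In (insert (g, x3) (insert (g, x3') (insert (g1, x1) (insert (g2, x2) (insert (g3, x3)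
      (insert (g3, x3') Y)))))) (g, x1) ∧
    A.In (insert (g, x3) (insert (g, x3') (insert (g1, x1) (insert (g2, x2) (insert (g3, x3)
      (insert (g3, x3') Y)))))) (g, x2) := by
  set P := insert (g1, x1) (insert (g2, x2) (insert (g3, x3) (insert (g3, x3') Y))) with hP
  have s1 : insert (g1, x1) (insert (g2, x2) (insert (g3, x3) Y)) ⊆ P :=
    Finset.insert_subset_insert _ (Finset.insert_subset_insert _
      (Finset.insert_subset_insert _ (Finset.subset_insert _ _)))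
  have s2 : insert (g1, x1) (insert (g2, x2) (insert (g3, x3') Y)) ⊆ P :=
    Finset.insert_subset_insert _ (Finset.insert_subset_insert _
      (Finset.subset_insert _ _))
  have c3 := LfExt1_cl hA hc hr hg hg1 hg2 hg3 hY hα h12 h23 hβ hdep k1 k12 k23 (by linarith) s1
  have c3' := LfExt1_cl hA hc hr hg hg1 hg2 hg3 hY hα h12 h23 hβ hdep k1 k12
    (k23.trans k33) k3 s2
  have hgP : g ∉ rws P := by
    rw [hP, rws_insert, rws_insert, rws_insert, rws_insert, Finset.mem_insert,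
      Finset.mem_insert, Finset.mem_insert, Finset.mem_insert, not_or, not_or, not_or, not_or]
    exact ⟨hg1.symm, hg2.symm, hg3.symm, hg3.symm, hg⟩
  have r1 := hr.two (Z := P) (c := x1) (c' := x2) hgP k12.ne
  have r2 := hr.two (Z := P) (c := x3) (c' := x3') hgP k33.ne
  have hall : ∀ z ∈ insert (g, x1) (insert (g, x2) (insert (g, x3) (insert (g, x3') P))),
      A.In (insert (g, x1) (insert (g, x2) P)) z := by
    intro z hz
    simp only [Finset.mem_insert] at hz
    rcases hz with rfl | rfl | rfl | rfl | hz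
    · exact A.in_of_mem (by simp)
    · exact A.in_of_mem (by simp)
    · exact c3
    · exact c3'
    · exact A.in_of_mem (Finset.mem_insert_of_mem (Finset.mem_insert_of_mem hz))
  have hr1 : A.r (insert (g, x1) (insert (g, x2) (insert (g, x3) (insert (g, x3') P)))) =
      A.r (insert (g, x1) (insert (g, x2) P)) := by
    refine A.r_eq_of_in ?_ hall
    exact Finset.insert_subset_insert _ (Finset.insert_subset_insert _
      ((Finset.subset_insert _ _).trans (Finset.subset_insert _ _)))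
  have hsub : insert (g, x3) (insert (g, x3') P) ⊆
      insert (g, x1) (insert (g, x2) (insert (g, x3) (insert (g, x3') P))) :=
    (Finset.subset_insert _ _).trans (Finset.subset_insert _ _)
  have heq : A.r (insert (g, x1) (insert (g, x2) (insert (g, x3) (insert (g, x3') P)))) =
      A.r (insert (g, x3) (insert (g, x3') P)) := by omega
  exact ⟨A.in_of_r_eq hsub heq (by simp), A.in_of_r_eq hsub heq (by simp)⟩

end

/-- The first consequences of a dependent system of three ties.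

Proof.  Let `α < x1 < x2 < x3 < β`, `a_i = (g, x_i)`, `c_i = (g_i, x_i)`.  By `AHom.move` (with
`n = 3`; `ties3 g g1 g2 g3 x1 x2 x3` is the image of a set in `ℚ × Fin 3`) and the hypothesis
`A.r (Y ∪ ties3 g g1 g2 g3 x1 x2 x3) < A.r Y + 6`.  `CI.one` three times:
`A.r (Y ∪ {c_1, c_2, c_3}) = A.r Y + 3`.  `RI.two` (the row `g` is not used by
`Y ∪ {c_1, c_2, c_3}`): any two of the `a_i` add `2`.  So the rank of the whole set is
`A.r Y + 5` and each `a_i` is in the closure of `Y`, the `c`'s and the other two `a`'s (`CL`).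
Now let `x1 < x2 < x3 < x3'`, `a3' = (g, x3')`, `c3' = (g3, x3')`, `P = Y ∪ {c1, c2, c3, c3'}`.
By `CL` for `x1, x2, x3` and for `x1, x2, x3'`: `a3, a3' ∈ cl (P ∪ {a1, a2})`; so
`A.r (P ∪ {a1, a2, a3, a3'}) ≤ A.r P + 2`, and `A.r (P ∪ {a3, a3'}) = A.r P + 2` (`RI.two`), so
`a1, a2 ∈ cl (P ∪ {a3, a3'})` (`in_of_r_eq`).
(1) `a1 ∈ cl (Y ∪ {c1, c3, c3', a3, a3'})`: `CI.drop` for `c2` (the column `x2` is not used
otherwise).  (2) the same for `a2` with `c2` (drop `c1`).
(3) For `x < x3 < x3'` choose `x1 < x2 < x`, `α < x1`: by `CL` for `x1, x2, x`,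
`(g, x) ∈ cl (Y ∪ {c1, c2, (g3, x), a1, a2})`, and `a1, a2 ∈ cl (P ∪ {a3, a3'})` as before;
`in_trans` gives `(g, x) ∈ cl (Y ∪ {c1, c2, (g3, x), c3, c3', a3, a3'})`, then `CI.drop` for `c1` and
`c2`.  Positions: for (1), (2) and a given `x` take `x1 = x` and `x2` between `x` and `x3`, or
`x2 = x` and `x1` between `α` and `x` (`exists_between`). -/
theorem ext_cl {A : RF (ℚ × ℚ)} (hA : AHom A) (hc : CI A 1) (hr : RI A 2) {Y : Finset (ℚ × ℚ)}
    {g g1 g2 g3 α β h1 h2 h3 : ℚ} (hg : g ∉ rws Y) (hg1 : g1 ≠ g) (hg2 : g2 ≠ g) (hg3 : g3 ≠ g)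
    (hY : ∀ y ∈ cls Y, y ≤ α ∨ β ≤ y) (hα : α < h1) (h12 : h1 < h2) (h23 : h2 < h3) (hβ : h3 < β)
    (hdep : A.r (Y ∪ ties3 g g1 g2 g3 h1 h2 h3) < A.r Y + 6) {x x3 x3' : ℚ} (hx : α < x)
    (hx3 : x < x3) (hx3' : x3 < x3') (hxβ : x3' < β) :
    A.In (Y ∪ {(g1, x), (g3, x3), (g3, x3'), (g, x3), (g, x3')}) (g, x) ∧
    A.In (Y ∪ {(g2, x), (g3, x3), (g3, x3'), (g, x3), (g, x3')}) (g, x) ∧
    A.In (Y ∪ {(g3, x), (g3, x3), (g3, x3'), (g, x3), (g, x3')}) (g, x) := by
  have hnx : ∀ t, α < t → t < β → t ∉ cls Y := fun t => LfExt1_notMem hY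
  refine ⟨?_, ?_, ?_⟩
  · obtain ⟨m, hm1, hm2⟩ := exists_between hx3
    have h := (LfExt1_two hA hc hr hg hg1 hg2 hg3 hY hα h12 h23 hβ hdep hx hm1 hm2 hx3' hxβ).1
    have e : insert (g, x3) (insert (g, x3') (insert (g1, x) (insert (g2, m) (insert (g3, x3)
      (insert (g3, x3') Y))))) = insert (g2, m)
        (Y ∪ {(g1, x), (g3, x3), (g3, x3'), (g, x3), (g, x3')}) := by
      ext z
      simp only [Finset.mem_union, Finset.mem_insert, Finset.mem_singleton]
      tauto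
    rw [e] at h
    refine CI.drop hc ?_ ?_ h
    · rw [mem_cls]
      rintro ⟨a, ha⟩
      simp only [Finset.mem_union, Finset.mem_insert, Finset.mem_singleton, Prod.mk.injEq] at ha
      rcases ha with ha | ⟨-, ha⟩ | ⟨-, ha⟩ | ⟨-, ha⟩ | ⟨-, ha⟩ | ⟨-, ha⟩
      · exact hnx m (by linarith) (by linarith) (mem_cls.2 ⟨a, ha⟩)
      all_goals linarith
    · exact hm1.ne
  · obtain ⟨m, hm1, hm2⟩ := exists_between hx
    have h := (LfExt1_two hA hc hr hg hg1 hg2 hg3 hY hα h12 h23 hβ hdep hm1 hm2 hx3 hx3' hxβ).2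
    have e : insert (g, x3) (insert (g, x3') (insert (g1, m) (insert (g2, x) (insert (g3, x3)
      (insert (g3, x3') Y))))) = insert (g1, m)
        (Y ∪ {(g2, x), (g3, x3), (g3, x3'), (g, x3), (g, x3')}) := by
      ext z
      simp only [Finset.mem_union, Finset.mem_insert, Finset.mem_singleton]
      tauto
    rw [e] at h
    refine CI.drop hc ?_ ?_ h
    · rw [mem_cls]
      rintro ⟨a, ha⟩
      simp only [Finset.mem_union, Finset.mem_insert, Finset.mem_singleton, Prod.mk.injEq] at ha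
      rcases ha with ha | ⟨-, ha⟩ | ⟨-, ha⟩ | ⟨-, ha⟩ | ⟨-, ha⟩ | ⟨-, ha⟩
      · exact hnx m (by linarith) (by linarith) (mem_cls.2 ⟨a, ha⟩)
      all_goals linarith
    · exact hm2.ne'
  · obtain ⟨m2, hm1, hm2⟩ := exists_between hx
    obtain ⟨m1, hn1, hn2⟩ := exists_between hm1
    have hcl := LfExt1_cl hA hc hr hg hg1 hg2 hg3 hY hα h12 h23 hβ hdep hn1 hn2 hm2
      (by linarith) (Finset.Subset.refl _)
    have h := LfExt1_two hA hc hr hg hg1 hg2 hg3 hY hα h12 h23 hβ hdep hn1 hn2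
      (by linarith) hx3' hxβ
    set R := Y ∪ {(g3, x), (g3, x3), (g3, x3'), (g, x3), (g, x3')} with hR
    have hsub : insert (g, x3) (insert (g, x3') (insert (g1, m1) (insert (g2, m2) (insert (g3, x3)
      (insert (g3, x3') Y))))) ⊆ insert (g1, m1) (insert (g2, m2) R) := by
      rw [hR]
      intro z
      simp only [Finset.mem_union, Finset.mem_insert, Finset.mem_singleton]
      tauto
    have hin : A.In (insert (g1, m1) (insert (g2, m2) R)) (g, x) := by
      refine A.in_trans ?_ hcl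
      intro z hz
      simp only [Finset.mem_insert] at hz
      rcases hz with rfl | rfl | rfl | rfl | rfl | hz
      · exact A.in_mono h.1 hsub
      · exact A.in_mono h.2 hsub
      · exact A.in_of_mem (by simp)
      · exact A.in_of_mem (by simp)
      · exact A.in_of_mem (by rw [hR]; simp)
      · exact A.in_of_mem (by
          rw [hR]
          exact Finset.mem_insert_of_mem (Finset.mem_insert_of_mem
            (Finset.mem_union_left _ hz)))
    have hRc : ∀ t, α < t → t < x → t ∉ cls R := by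
      intro t ht1 ht2
      rw [hR, mem_cls]
      rintro ⟨a, ha⟩
      simp only [Finset.mem_union, Finset.mem_insert, Finset.mem_singleton, Prod.mk.injEq] at ha
      rcases ha with ha | ⟨-, ha⟩ | ⟨-, ha⟩ | ⟨-, ha⟩ | ⟨-, ha⟩ | ⟨-, ha⟩
      · exact hnx t (by linarith) (by linarith) (mem_cls.2 ⟨a, ha⟩)
      all_goals linarith
    have hin2 : A.In (insert (g2, m2) R) (g, x) := by
      refine CI.drop hc ?_ (by show x ≠ m1; exact (hn2.trans hm2).ne') hin
      rw [cls_insert, Finset.mem_insert, not_or]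
      exact ⟨hn2.ne, hRc m1 hn1 (hn2.trans hm2)⟩
    exact CI.drop hc (hRc m2 hm1 hm2) (by show x ≠ m2; exact hm2.ne') hin2

end Pool.Agent.H.MP_60a1a2_co
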