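import Pool.Agent.H.MP_60a1a2_co.LfExt1

/-! # Arrays: the extension lemma -/

set_option autoImplicit false

namespace Pool.Agent.H.MP_60a1a2_co

/-- The extension lemma: if three ties at a new row are dependent over `Y` then all the ties
between the three neighbours are dependent over `Y`.

Proof.  Let `x ∈ (α, β)`, choose `x < x3 < x3' < β`.  Let
`K = Y ∪ {(g3, x3), (g3, x3'), (g, x3), (g, x3')}`.  By `ext_cl` `(g, x) ∈ cl (insert (g_i, x) K)` for
`i = 1, 2, 3`.  The column `x` is not used by `K`, so (`CI.one`) `A.r (insert (g, x) K) = A.r K + 1`,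
`A.r (insert (g_i, x) K) = A.r K + 1`, `A.r (insert (g, x) (insert (g_i, x) K)) = A.r K + 1`.  So
`(g_i, x) ∈ cl (insert (g, x) K)` and
`A.r (insert (g_i, x) (insert (g_j, x) K)) ≤ A.r (insert (g, x) K) = A.r K + 1`: that is
`(g_j, x) ∈ cl (insert (g_i, x) K)`.  `RI.drop` for the row `g` and the columns `x3`, `x3'`, and
`CI.drop` for the columns `x3` and `x3'`: `(g_j, x) ∈ cl (insert (g_i, x) Y)`. -/
theorem ext_dep {A : RF (ℚ × ℚ)} (hA : AHom A) (hc : CI A 1) (hr : RI A 2) {Y : Finset (ℚ × ℚ)}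
    {g g1 g2 g3 α β h1 h2 h3 : ℚ} (hg : g ∉ rws Y) (hg1 : g1 ≠ g) (hg2 : g2 ≠ g) (hg3 : g3 ≠ g)
    (hY : ∀ y ∈ cls Y, y ≤ α ∨ β ≤ y) (hα : α < h1) (h12 : h1 < h2) (h23 : h2 < h3) (hβ : h3 < β)
    (hdep : A.r (Y ∪ ties3 g g1 g2 g3 h1 h2 h3) < A.r Y + 6) {x : ℚ} (hx : α < x) (hxβ : x < β)
    {y1 y2 : ℚ} (hy1 : y1 = g1 ∨ y1 = g2 ∨ y1 = g3) (hy2 : y2 = g1 ∨ y2 = g2 ∨ y2 = g3) :
    A.r (Y ∪ {(y1, x), (y2, x)}) ≤ A.r Y + 1 := by
  obtain ⟨x3, hx3, hx3β⟩ := exists_between hxβ
  obtain ⟨x3', hx3', hx3'β⟩ := exists_between hx3β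
  have hy1g : y1 ≠ g := by
    rcases hy1 with rfl | rfl | rfl <;> assumption
  have hy2g : y2 ≠ g := by
    rcases hy2 with rfl | rfl | rfl <;> assumption
  have hcl := ext_cl hA hc hr hg hg1 hg2 hg3 hY hα h12 h23 hβ hdep hx hx3 hx3' hx3'β
  have hinY : ∀ z, α < z → z < β → z ∉ cls Y := by
    intro z hz1 hz2 hz
    rcases hY z hz with h | h
    · exact absurd hz1 (not_lt.2 h)
    · exact absurd hz2 (not_lt.2 h)
  set K : Finset (ℚ × ℚ) := Y ∪ {(g3, x3), (g3, x3'), (g, x3), (g, x3')} with hK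
  have hKi : ∀ y : ℚ, Y ∪ {(y, x), (g3, x3), (g3, x3'), (g, x3), (g, x3')} =
      insert (y, x) K := by
    intro y
    rw [hK]
    ext z
    simp only [Finset.mem_union, Finset.mem_insert, Finset.mem_singleton, or_comm, or_left_comm,
      or_assoc]
  have hin : ∀ y : ℚ, (y = g1 ∨ y = g2 ∨ y = g3) → A.In (insert (y, x) K) (g, x) := by
    intro y hy
    rw [← hKi]
    rcases hy with rfl | rfl | rfl
    · exact hcl.1
    · exact hcl.2.1
    · exact hcl.2.2
  have hxK : x ∉ cls K := by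
    rw [hK, cls_union, Finset.mem_union]
    rintro (h | h)
    · exact hinY x hx hxβ h
    · rw [mem_cls] at h
      obtain ⟨a, ha⟩ := h
      simp only [Finset.mem_insert, Finset.mem_singleton, Prod.mk.injEq] at ha
      rcases ha with ha | ha | ha | ha
      · exact absurd ha.2 hx3.ne
      · exact absurd ha.2 (hx3.trans hx3').ne
      · exact absurd ha.2 hx3.ne
      · exact absurd ha.2 (hx3.trans hx3').ne
  have hg' : A.r (insert (g, x) K) = A.r K + 1 := hc.one hxK
  have hin' : ∀ y : ℚ, (y = g1 ∨ y = g2 ∨ y = g3) → A.In (insert (g, x) K) (y, x) := by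
    intro y hy
    have h4 := hin y hy
    have h5 : A.r (insert (y, x) K) = A.r K + 1 := hc.one hxK
    unfold RF.In at h4 ⊢
    rw [Finset.insert_comm, h4, h5, hg']
  have hin2 : A.In (insert (y1, x) K) (y2, x) := by
    have h4 : A.r (insert (g, x) K ∪ {(y1, x), (y2, x)}) = A.r (insert (g, x) K) := by
      apply A.r_union_of_in
      intro z hz
      simp only [Finset.mem_insert, Finset.mem_singleton] at hz
      rcases hz with rfl | rfl
      · exact hin' y1 hy1
      · exact hin' y2 hy2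
    have h5 : A.r (insert (y1, x) K) = A.r K + 1 := hc.one hxK
    have h6 : A.r (insert (y2, x) (insert (y1, x) K)) ≤
        A.r (insert (g, x) K ∪ {(y1, x), (y2, x)}) := by
      apply A.mono
      intro z hz
      simp only [Finset.mem_union, Finset.mem_insert, Finset.mem_singleton] at hz ⊢
      rcases hz with hz | hz | hz
      · exact Or.inr (Or.inr hz)
      · exact Or.inr (Or.inl hz)
      · exact Or.inl (Or.inr hz)
    have h7 : A.r (insert (y1, x) K) ≤ A.r (insert (y2, x) (insert (y1, x) K)) :=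
      A.mono (Finset.subset_insert _ _)
    unfold RF.In
    omega
  have e1 : insert (y1, x) K = insert (g, x3) (insert (g, x3')
      (insert (g3, x3) (insert (g3, x3') (insert (y1, x) Y)))) := by
    rw [hK]
    ext z
    simp only [Finset.mem_union, Finset.mem_insert, Finset.mem_singleton, or_comm, or_left_comm,
      or_assoc]
  rw [e1] at hin2
  have hin3 := hr.drop (by
    simp only [rws_insert, Finset.mem_insert, not_or]
    exact ⟨hg3.symm, hg3.symm, hy1g.symm, hg⟩) hx3'.ne (by exact hy2g) hin2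
  have hin4 := hc.drop (by
    simp only [cls_insert, Finset.mem_insert, not_or]
    exact ⟨hx3'.ne, hx3.ne', hinY x3 (hx.trans hx3) hx3β⟩) (by exact hx3.ne) hin3
  have hin5 := hc.drop (by
    simp only [cls_insert, Finset.mem_insert, not_or]
    exact ⟨(hx3.trans hx3').ne', hinY x3' (hx.trans (hx3.trans hx3')) hx3'β⟩)
    (by exact (hx3.trans hx3').ne) hin4
  have e2 : Y ∪ {(y1, x), (y2, x)} = insert (y2, x) (insert (y1, x) Y) := by
    ext z
    simp only [Finset.mem_union, Finset.mem_insert, Finset.mem_singleton, or_comm, or_left_comm,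
      or_assoc]
  rw [e2]
  unfold RF.In at hin5
  rw [hin5]
  exact A.r_insert_le _ _

end Pool.Agent.H.MP_60a1a2_co
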