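import Pool.Agent.H.MP_60a1a2_co.LfBase

/-! # Arrays: closures which follow from the failure of `CI` and `RI` -/

set_option autoImplicit false

namespace Pool.Agent.H.MP_60a1a2_co

/-- the moving map: `c` goes to `v`, the smaller numbers below `-m`, the larger ones above
`1 + m` -/
def LfFail_sp (c v m x : ℚ) : ℚ := if x < c then x - c - m else if x = c then v else x - c + 1 + m

/-- the same map outside of `c` -/
def LfFail_sp' (c m x : ℚ) : ℚ := if x < c then x - c - m else x - c + 1 + m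

theorem LfFail_sp_self (c v m : ℚ) : LfFail_sp c v m c = v := by
  unfold LfFail_sp
  rw [if_neg (lt_irrefl c), if_pos rfl]

theorem LfFail_sp_ne {c v m x : ℚ} (h : x ≠ c) : LfFail_sp c v m x = LfFail_sp' c m x := by
  unfold LfFail_sp LfFail_sp'
  rw [if_neg h]

theorem LfFail_sp_strict {c v m : ℚ} (h1 : -m ≤ v) (h2 : v ≤ 1 + m) :
    StrictMono (LfFail_sp c v m) := by
  intro x y hxy
  unfold LfFail_sp
  split_ifs <;> linarith

theorem LfFail_out {c m : ℚ} (hm : 0 ≤ m) (x : ℚ) : Out01 (LfFail_sp' c m x) := by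
  unfold LfFail_sp' Out01
  split_ifs with h
  · left
    linarith
  · right
    have := not_lt.1 h
    linarith

theorem LfFail_card {c m : ℚ} (hm : 0 ≤ m) {T : Finset ℚ} (hc : c ∉ T) :
    (T.image (LfFail_sp' c m)).card = T.card := by
  apply Finset.card_image_of_injOn
  intro x hx y hy hxy
  have hs := (LfFail_sp_strict (c := c) (v := 0) (m := m) (by linarith) (by linarith)).injective
  have h1 : x ≠ c := fun h => hc (h ▸ hx)
  have h2 : y ≠ c := fun h => hc (h ▸ hy)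
  apply hs
  rw [LfFail_sp_ne h1, LfFail_sp_ne h2]
  exact hxy

/-- moving closures -/
theorem LfFail_in {A : RF (ℚ × ℚ)} (hA : AHom A) {W Y : Finset (ℚ × ℚ)} {g0 h0 : ℚ}
    (hW : A.In W (g0, h0)) {φ ψ : ℚ → ℚ} (hφ : StrictMono φ) (hψ : StrictMono ψ)
    (hY : mv φ ψ W ⊆ Y) : A.In Y (φ g0, ψ h0) := by
  refine A.in_mono ?_ hY
  unfold RF.In at hW ⊢
  rw [← mv_insert, hA _ φ ψ (hφ.strictMonoOn _) (hψ.strictMonoOn _),
    hA _ φ ψ (hφ.strictMonoOn _) (hψ.strictMonoOn _)]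
  exact hW

/-- If `CI A (t + 1)` fails then, after moving, every element `(g, h)` of the open unit square is in
the closure of fixed elements outside, elements of its row and `t` elements of its column.

Proof.  Let `h0`, `T`, `Z` with `T.card = t + 1`, `h0 ∉ cls Z` and
`A.r (Z ∪ T ×ˢ {h0}) ≠ A.r Z + (t + 1)`; by `dual_aux` it is `≤ A.r Z + t`
(`(T ×ˢ {h0}).card = t + 1`).  Choose `g0 ∈ T`, `T0 = T.erase g0`.  By `h1`
`A.r (Z ∪ T0 ×ˢ {h0}) = A.r Z + t`, so `A.In (Z ∪ T0 ×ˢ {h0}) (g0, h0)` (`in_of_r_eq` or by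
definition with `mono`).  For `g, h ∈ (0, 1)` let `φ x = x - g0` for `x < g0`, `φ g0 = g`,
`φ x = x - g0 + 1` for `x > g0`, and `ψ y = y - h0` for `y < h0`, `ψ h0 = h`,
`ψ y = y - h0 + 1` for `y > h0`; both are strictly increasing on all of `ℚ`.  With
`φ' x = if x < g0 then x - g0 else x - g0 + 1` (independent of `g`) let
`G1 = ((rws Z ∪ T).erase g0).image φ'`, `H1 = ((cls Z).erase h0).image ψ'`
(here `(cls Z).erase h0 = cls Z`), `T' = T0.image φ'`.  Homogeneity for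
`Z ∪ T0 ×ˢ {h0}` and `insert (g0, h0) (Z ∪ T0 ×ˢ {h0})` gives
`A.In (mv φ ψ (Z ∪ T0 ×ˢ {h0})) (g, h)`, and `mv φ ψ (Z ∪ T0 ×ˢ {h0})` is contained in
`G1 ×ˢ H1 ∪ {g} ×ˢ H1 ∪ T' ×ˢ {h}`; use `in_mono`. -/
theorem ci_fail {A : RF (ℚ × ℚ)} (hA : AHom A) {t : ℕ} (h1 : CI A t) (h2 : ¬ CI A (t + 1)) :
    ∃ G1 H1 T' : Finset ℚ, (∀ x ∈ G1, Out01 x) ∧ (∀ y ∈ H1, Out01 y) ∧ T' ⊆ G1 ∧ T'.card = t ∧
      ∀ g h : ℚ, 0 < g → g < 1 → 0 < h → h < 1 →
        A.In (G1 ×ˢ H1 ∪ {g} ×ˢ H1 ∪ T' ×ˢ {h}) (g, h) := by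
  unfold CI at h2
  push Not at h2
  obtain ⟨h0, T, Z, hT, hh0, hne⟩ := h2
  have hle := A.dual_aux Z (T ×ˢ {h0})
  rw [Finset.card_product, Finset.card_singleton, hT, mul_one] at hle
  have hTne : T.Nonempty := by
    rw [← Finset.card_pos, hT]
    omega
  obtain ⟨g0, hg0⟩ := hTne
  have hT0 : (T.erase g0).card = t := by
    rw [Finset.card_erase_of_mem hg0, hT]
    rfl
  have h3 := h1 h0 (T.erase g0) Z hT0 hh0
  have h4 : insert (g0, h0) (Z ∪ (T.erase g0) ×ˢ {h0}) = Z ∪ T ×ˢ {h0} := by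
    ext ⟨a, b⟩
    simp only [Finset.mem_union, Finset.mem_product, Finset.mem_insert, Finset.mem_singleton,
      Prod.mk.injEq, Finset.mem_erase]
    constructor
    · rintro (⟨rfl, rfl⟩ | h5 | h5)
      · exact Or.inr ⟨hg0, rfl⟩
      · exact Or.inl h5
      · exact Or.inr ⟨h5.1.2, h5.2⟩
    · rintro (h5 | h5)
      · exact Or.inr (Or.inl h5)
      · by_cases h6 : a = g0
        · exact Or.inl ⟨h6, h5.2⟩
        · exact Or.inr (Or.inr ⟨⟨h6, h5.1⟩, h5.2⟩)
  have hW : A.In (Z ∪ (T.erase g0) ×ˢ {h0}) (g0, h0) := by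
    unfold RF.In
    have h5 : A.r (Z ∪ (T.erase g0) ×ˢ {h0}) ≤ A.r (insert (g0, h0) (Z ∪ (T.erase g0) ×ˢ {h0})) :=
      A.mono (Finset.subset_insert _ _)
    rw [h4] at h5 ⊢
    omega
  refine ⟨((rws Z ∪ T).erase g0).image (LfFail_sp' g0 0), (cls Z).image (LfFail_sp' h0 0),
    (T.erase g0).image (LfFail_sp' g0 0), ?_, ?_, ?_, ?_, ?_⟩
  · intro x hx
    obtain ⟨y, -, rfl⟩ := Finset.mem_image.1 hx
    exact LfFail_out le_rfl y
  · intro x hx
    obtain ⟨y, -, rfl⟩ := Finset.mem_image.1 hx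
    exact LfFail_out le_rfl y
  · exact Finset.image_subset_image (Finset.erase_subset_erase _ Finset.subset_union_right)
  · rw [LfFail_card le_rfl (Finset.notMem_erase _ _), hT0]
  · intro g h hg hg' hh hh'
    have hφ : StrictMono (LfFail_sp g0 g 0) := LfFail_sp_strict (by linarith) (by linarith)
    have hψ : StrictMono (LfFail_sp h0 h 0) := LfFail_sp_strict (by linarith) (by linarith)
    have key := LfFail_in hA hW hφ hψ
      (Y := ((rws Z ∪ T).erase g0).image (LfFail_sp' g0 0) ×ˢ (cls Z).image (LfFail_sp' h0 0) ∪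
        {g} ×ˢ (cls Z).image (LfFail_sp' h0 0) ∪ (T.erase g0).image (LfFail_sp' g0 0) ×ˢ {h}) ?_
    · rw [LfFail_sp_self, LfFail_sp_self] at key
      exact key
    · rintro ⟨z1, z2⟩ hz
      obtain ⟨a, b, hab, e1, e2⟩ := mem_mv.1 hz
      simp only at e1 e2
      simp only [Finset.mem_union, Finset.mem_product, Finset.mem_singleton, Finset.mem_image]
      rcases Finset.mem_union.1 hab with hZ | hZ
      · have hb : b ≠ h0 := by
          rintro rfl
          exact hh0 (mem_cls.2 ⟨a, hZ⟩)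
        have hb2 : ∃ y ∈ cls Z, LfFail_sp' h0 0 y = z2 :=
          ⟨b, mem_cls.2 ⟨a, hZ⟩, by rw [← e2, LfFail_sp_ne hb]⟩
        by_cases ha : a = g0
        · left; right
          refine ⟨?_, hb2⟩
          rw [← e1, ha, LfFail_sp_self]
        · left; left
          refine ⟨⟨a, ?_, by rw [← e1, LfFail_sp_ne ha]⟩, hb2⟩
          exact Finset.mem_erase.2 ⟨ha, Finset.mem_union_left _ (mem_rws.2 ⟨b, hZ⟩)⟩
      · obtain ⟨ha, hb⟩ := Finset.mem_product.1 hZ
        simp only at ha hb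
        rw [Finset.mem_singleton] at hb
        right
        refine ⟨⟨a, ha, by rw [← e1, LfFail_sp_ne (Finset.ne_of_mem_erase ha)]⟩, ?_⟩
        rw [← e2, hb, LfFail_sp_self]

/-- If `RI A (u + 1)` fails then, after moving, for every element `g` of the open unit interval and
`h1 ∈ H1` the element `(g, h1)` is in the closure of fixed elements outside and of `u` fixed
elements of the row `g`.

Proof.  Let `g0`, `T`, `Z` with `T.card = u + 1`, `g0 ∉ rws Z` and
`A.r (Z ∪ {g0} ×ˢ T) ≠ A.r Z + (u + 1)`, so `≤ A.r Z + u`.  Let `h0` be the least element of `T`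
(`Finset.min'`) and `T0 = T.erase h0`; by `RI A u`, as in `ci_fail`,
`A.In (Z ∪ {g0} ×ˢ T0) (g0, h0)`.  Let `M` be a natural number with `|y| < M` for all
`y ∈ H1`.  For `g ∈ (0, 1)` and `h1 ∈ H1` let `φ x = x - g0` for `x < g0`, `φ g0 = g`,
`φ x = x - g0 + 1` for `x > g0`, and `ψ y = y - h0 - M` for `y < h0`, `ψ h0 = h1`,
`ψ y = y - h0 + M + 1` for `y > h0`; both are strictly increasing.  Let `φ'`, `ψ'` be the same maps
outside of `g0`, `h0` (independent of `g`, `h1`), `G2 = (rws Z).image φ'` (`g0 ∉ rws Z`),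
`H2 = ((cls Z ∪ T).erase h0).image ψ'`, `S = T0.image ψ'`.  The elements of `G2`, `H2` satisfy
`Out01` (`y - h0 - M < 0`, `y - h0 + M + 1 > 1`).  Homogeneity gives
`A.In (mv φ ψ (Z ∪ {g0} ×ˢ T0)) (g, h1)`, and this set is contained in
`G2 ×ˢ (H2 ∪ H1) ∪ {g} ×ˢ S` (elements of `Z` in the column `h0` go to the column `h1`). -/
theorem ri_fail {A : RF (ℚ × ℚ)} (hA : AHom A) {u : ℕ} (h1 : RI A u) (h2 : ¬ RI A (u + 1))
    (H1 : Finset ℚ) : ∃ G2 H2 S : Finset ℚ, (∀ x ∈ G2, Out01 x) ∧ (∀ y ∈ H2, Out01 y) ∧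
      S ⊆ H2 ∧ S.card = u ∧ ∀ g : ℚ, 0 < g → g < 1 → ∀ h ∈ H1,
        A.In (G2 ×ˢ (H2 ∪ H1) ∪ {g} ×ˢ S) (g, h) := by
  unfold RI at h2
  push Not at h2
  obtain ⟨g0, T, Z, hT, hg0, hne⟩ := h2
  have hle := A.dual_aux Z ({g0} ×ˢ T)
  rw [Finset.card_product, Finset.card_singleton, hT, one_mul] at hle
  have hTne : T.Nonempty := by
    rw [← Finset.card_pos, hT]
    omega
  obtain ⟨h0, hh0⟩ := hTne
  have hT0 : (T.erase h0).card = u := by
    rw [Finset.card_erase_of_mem hh0, hT]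
    rfl
  have h3 := h1 g0 (T.erase h0) Z hT0 hg0
  have h4 : insert (g0, h0) (Z ∪ {g0} ×ˢ (T.erase h0)) = Z ∪ {g0} ×ˢ T := by
    ext ⟨a, b⟩
    simp only [Finset.mem_union, Finset.mem_product, Finset.mem_insert, Finset.mem_singleton,
      Prod.mk.injEq, Finset.mem_erase]
    constructor
    · rintro (⟨rfl, rfl⟩ | h5 | h5)
      · exact Or.inr ⟨rfl, hh0⟩
      · exact Or.inl h5
      · exact Or.inr ⟨h5.1, h5.2.2⟩
    · rintro (h5 | h5)
      · exact Or.inr (Or.inl h5)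
      · by_cases h6 : b = h0
        · exact Or.inl ⟨h5.1, h6⟩
        · exact Or.inr (Or.inr ⟨h5.1, h6, h5.2⟩)
  have hW : A.In (Z ∪ {g0} ×ˢ (T.erase h0)) (g0, h0) := by
    unfold RF.In
    have h5 : A.r (Z ∪ {g0} ×ˢ (T.erase h0)) ≤
        A.r (insert (g0, h0) (Z ∪ {g0} ×ˢ (T.erase h0))) := A.mono (Finset.subset_insert _ _)
    rw [h4] at h5 ⊢
    omega
  have hm : 0 ≤ ∑ y ∈ H1, |y| := Finset.sum_nonneg fun _ _ => abs_nonneg _
  refine ⟨(rws Z).image (LfFail_sp' g0 0), ((cls Z ∪ T).erase h0).image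
    (LfFail_sp' h0 (∑ y ∈ H1, |y|)), (T.erase h0).image (LfFail_sp' h0 (∑ y ∈ H1, |y|)),
    ?_, ?_, ?_, ?_, ?_⟩
  · intro x hx
    obtain ⟨y, -, rfl⟩ := Finset.mem_image.1 hx
    exact LfFail_out le_rfl y
  · intro x hx
    obtain ⟨y, -, rfl⟩ := Finset.mem_image.1 hx
    exact LfFail_out hm y
  · exact Finset.image_subset_image (Finset.erase_subset_erase _ Finset.subset_union_right)
  · rw [LfFail_card hm (Finset.notMem_erase _ _), hT0]
  · intro g hg hg' h hh
    have hhm : |h| ≤ ∑ y ∈ H1, |y| :=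
      Finset.single_le_sum (f := fun y : ℚ => |y|) (fun _ _ => abs_nonneg _) hh
    have hh1 := neg_abs_le h
    have hh2 := le_abs_self h
    have hφ : StrictMono (LfFail_sp g0 g 0) := LfFail_sp_strict (by linarith) (by linarith)
    have hψ : StrictMono (LfFail_sp h0 h (∑ y ∈ H1, |y|)) :=
      LfFail_sp_strict (by linarith) (by linarith)
    have key := LfFail_in hA hW hφ hψ
      (Y := (rws Z).image (LfFail_sp' g0 0) ×ˢ (((cls Z ∪ T).erase h0).image
        (LfFail_sp' h0 (∑ y ∈ H1, |y|)) ∪ H1) ∪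
        {g} ×ˢ (T.erase h0).image (LfFail_sp' h0 (∑ y ∈ H1, |y|))) ?_
    · rw [LfFail_sp_self, LfFail_sp_self] at key
      exact key
    · rintro ⟨z1, z2⟩ hz
      obtain ⟨a, b, hab, e1, e2⟩ := mem_mv.1 hz
      simp only at e1 e2
      simp only [Finset.mem_union, Finset.mem_product, Finset.mem_singleton, Finset.mem_image]
      rcases Finset.mem_union.1 hab with hZ | hZ
      · have ha : a ≠ g0 := by
          rintro rfl
          exact hg0 (mem_rws.2 ⟨b, hZ⟩)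
        left
        refine ⟨⟨a, mem_rws.2 ⟨b, hZ⟩, by rw [← e1, LfFail_sp_ne ha]⟩, ?_⟩
        by_cases hb : b = h0
        · right
          rw [← e2, hb, LfFail_sp_self]
          exact hh
        · left
          refine ⟨b, ?_, by rw [← e2, LfFail_sp_ne hb]⟩
          exact Finset.mem_erase.2 ⟨hb, Finset.mem_union_left _ (mem_cls.2 ⟨a, hZ⟩)⟩
      · obtain ⟨ha, hb⟩ := Finset.mem_product.1 hZ
        simp only at ha hb
        rw [Finset.mem_singleton] at ha
        right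
        refine ⟨?_, ⟨b, hb, by rw [← e2, LfFail_sp_ne (Finset.ne_of_mem_erase hb)]⟩⟩
        rw [← e1, ha, LfFail_sp_self]

end Pool.Agent.H.MP_60a1a2_co
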