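import Pool.Agent.H.MP_60a1a2_co.LfFree

/-! # Arrays: a sequence of gadgets with the same base rows -/

set_option autoImplicit false

namespace Pool.Agent.H.MP_60a1a2_co

/-- positions: `pos d i` is in the interval `[2 * d, 2 * d + 1)`, increases with `i` and is never an
integer -/
def pos (d i : ℕ) : ℚ := 2 * (d : ℚ) + ((i : ℚ) + 1) / ((i : ℚ) + 2)

/-- the `d`-th gadget, base rows `0, 1, ..., p + 1` -/
def Gd (p d : ℕ) : Finset (ℚ × ℚ) :=
  gad p 0 (fun i => (i : ℚ) + 1) (fun i => (p : ℚ) + 2 + pos d i) (fun j => pos d j)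

/-- the `d`-th gadget without its last element -/
def Ld (p d : ℕ) : Finset (ℚ × ℚ) :=
  gadL p 0 (fun i => (i : ℚ) + 1) (fun i => (p : ℚ) + 2 + pos d i) (fun j => pos d j)

/-- the last element of the `d`-th gadget -/
def fd (p d : ℕ) : ℚ × ℚ := ((p : ℚ) + 1, pos d (2 * p))

/-- `(i + 1) / (i + 2) = 1 - 1 / (i + 2)` -/
theorem pos_lt (d : ℕ) {i i' : ℕ} (h : i < i') : pos d i < pos d i' := by
  unfold pos
  have h1 : (i : ℚ) < (i' : ℚ) := by exact_mod_cast h
  have h2 : (0 : ℚ) < (i : ℚ) + 2 := by positivity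
  have h3 : (0 : ℚ) < (i' : ℚ) + 2 := by positivity
  have h4 : ((i : ℚ) + 1) / ((i : ℚ) + 2) < ((i' : ℚ) + 1) / ((i' : ℚ) + 2) := by
    rw [div_lt_div_iff₀ h2 h3]
    nlinarith
  linarith

theorem LfFam_pos_gt (d i : ℕ) : 2 * (d : ℚ) < pos d i := by
  unfold pos
  have h : (0 : ℚ) < ((i : ℚ) + 1) / ((i : ℚ) + 2) := by positivity
  linarith

theorem pos_ge (d i : ℕ) : 2 * (d : ℚ) ≤ pos d i := (LfFam_pos_gt d i).le

theorem pos_lt' (d i : ℕ) : pos d i < 2 * (d : ℚ) + 1 := by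
  unfold pos
  have h2 : (0 : ℚ) < (i : ℚ) + 2 := by positivity
  have h : ((i : ℚ) + 1) / ((i : ℚ) + 2) < 1 := by
    rw [div_lt_one h2]
    linarith
  linarith

/-- positions are not integers -/
theorem LfFam_pos_ne (d i : ℕ) (m : ℤ) : pos d i ≠ (m : ℚ) := by
  intro h
  have h1 := LfFam_pos_gt d i
  have h2 := pos_lt' d i
  rw [h] at h1 h2
  have h3 : (2 * (d : ℤ)) < m := by exact_mod_cast h1
  have h4 : m < 2 * (d : ℤ) + 1 := by exact_mod_cast h2
  omega

theorem pos_lt_of_lt {d d' : ℕ} (h : d < d') (i i' : ℕ) : pos d i < pos d' i' := by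
  have h1 := pos_lt' d i
  have h2 := pos_ge d' i'
  have h3 : (d : ℚ) + 1 ≤ (d' : ℚ) := by exact_mod_cast h
  linarith

/-- positions are different -/
theorem pos_inj {d d' i i' : ℕ} (h : pos d i = pos d' i') : d = d' ∧ i = i' := by
  have hd : d = d' := by
    rcases lt_trichotomy d d' with h1 | h1 | h1
    · exact absurd h (pos_lt_of_lt h1 i i').ne
    · exact h1
    · exact absurd h (pos_lt_of_lt h1 i' i).ne'
  subst hd
  refine ⟨rfl, ?_⟩
  rcases lt_trichotomy i i' with h1 | h1 | h1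
  · exact absurd h (pos_lt d h1).ne
  · exact h1
  · exact absurd h (pos_lt d h1).ne'

/-- `gad_eq_L` -/
theorem Gd_eq (p d : ℕ) : Gd p d = insert (fd p d) (Ld p d) := by
  unfold Gd Ld fd
  exact gad_eq_L p _ _ _ _

/-- `cls_gad`, `rws_gad` -/
theorem Gd_mem (p d : ℕ) : ∀ z ∈ Gd p d, (∃ j ≤ 2 * p, z.2 = pos d j) ∧
    ((∃ i ≤ p + 1, z.1 = (i : ℚ)) ∨ ∃ i < p, z.1 = (p : ℚ) + 2 + pos d i) := by
  intro z hz
  constructor
  · exact cls_gad p _ _ _ _ z.2 (mem_cls.2 ⟨z.1, hz⟩)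
  · rcases rws_gad p _ _ _ _ z.1 (mem_rws.2 ⟨z.2, hz⟩) with h | ⟨i, hi, h⟩ | ⟨i, hi, h⟩
    · exact Or.inl ⟨0, by omega, by rw [h]; simp⟩
    · exact Or.inl ⟨i + 1, by omega, by rw [h]; push_cast; rfl⟩
    · exact Or.inr ⟨i, hi, h⟩

theorem Ld_sub (p d : ℕ) : Ld p d ⊆ Gd p d := by
  rw [Gd_eq]
  exact Finset.subset_insert _ _

theorem LfFam_last (p : ℕ) : ∀ (x : ℚ) (b g h : ℕ → ℚ), x ≠ b p → Function.Injective h →
    (∀ i, g i ≠ b p) → (b p, h (2 * p)) ∉ gadL p x b g h := by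
  induction p with
  | zero =>
    intro x b g h hx _ _ hm
    rw [gadL, Finset.mem_singleton, Prod.mk.injEq] at hm
    exact hx hm.1.symm
  | succ p ih =>
    intro x b g h hx hh hg hm
    rw [gadL, Finset.mem_union] at hm
    rcases hm with hm | hm
    · simp only [Finset.mem_insert, Finset.mem_singleton, Prod.mk.injEq] at hm
      rcases hm with hm | hm | hm | hm
      · have := hh hm.2
        omega
      · have := hh hm.2
        omega
      · have := hh hm.2
        omega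
      · have := hh hm.2
        omega
    · refine ih (g 0) (fun i => b (i + 1)) (fun i => g (i + 1)) (fun i => h (i + 2)) (hg 0) ?_
        (fun i => hg (i + 1)) hm
      intro a c hac
      have := hh hac
      omega

/-- The last element is not in the other gadgets nor in the rest of its gadget.

Proof.  Its column is `pos d (2 * p)`; by `Gd_mem` and `pos_inj` only `Gd p d` uses it.  For
`fd p d ∉ Ld p d`: by induction `(b p, h (2 * p)) ∉ gadL p x b g h` if `x ≠ b p`, `h` is injective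
and no `g i` is equal to `b p`. -/
theorem fd_notMem (p d d' : ℕ) : fd p d ∉ Ld p d' := by
  by_cases hd : d = d'
  · subst hd
    unfold fd Ld
    refine LfFam_last p 0 (fun i => (i : ℚ) + 1) _ (fun j => pos d j) ?_ ?_ ?_
    · have : (0 : ℚ) < (p : ℚ) + 1 := by positivity
      exact this.ne
    · intro a c hac
      exact (pos_inj hac).2
    · intro i h
      have h1 := pos_ge d i
      have h2 : (0 : ℚ) ≤ (d : ℚ) := by positivity
      linarith
  · intro h
    obtain ⟨⟨j, _, hj⟩, _⟩ := Gd_mem p d' _ (Ld_sub p d' h)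
    exact hd (pos_inj hj).1

/-- private with respect to `Z` -/
theorem Gd_gok (p d : ℕ) {Z : Finset (ℚ × ℚ)} (hg : ∀ i, (p : ℚ) + 2 + pos d i ∉ rws Z)
    (hh : ∀ j, pos d j ∉ cls Z) :
    GOK 0 (fun i => (i : ℚ) + 1) (fun i => (p : ℚ) + 2 + pos d i) (fun j => pos d j) Z := by
  refine ⟨?_, ?_, ?_, ?_, hg, hh⟩
  · intro a c hac
    exact pos_lt d hac
  · intro a c hac
    have : (p : ℚ) + 2 + pos d a = (p : ℚ) + 2 + pos d c := hac
    exact (pos_inj (add_left_cancel this)).2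
  · intro i h
    have h1 := pos_ge d i
    have h2 : (0 : ℚ) ≤ (d : ℚ) := by positivity
    have h3 : (0 : ℚ) ≤ (p : ℚ) := by positivity
    linarith
  · intro i j h
    have h' : (p : ℚ) + 2 + pos d i = (j : ℚ) + 1 := h
    apply LfFam_pos_ne d i ((j : ℤ) - (p : ℤ) - 1)
    push_cast
    linarith

end Pool.Agent.H.MP_60a1a2_co
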