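import Pool.Agent.H.MP_60a1a2_co.LfFree
import Pool.Agent.H.MP_60a1a2_co.LfExt2

/-! # Arrays: dependent gadgets -/

set_option autoImplicit false

namespace Pool.Agent.H.MP_60a1a2_co

theorem LfGadDep_move {A : RF (ℚ × ℚ)} (hA : AHom A) {Y : Finset (ℚ × ℚ)} {α β : ℚ}
    (hY : ∀ y ∈ cls Y, y ≤ α ∨ β ≤ y) {c c' : ℚ} (h1 : α < c) (h2 : c < β) (h3 : α < c')
    (h4 : c' < β) (y1 y2 : ℚ) :
    A.r (Y ∪ {(y1, c'), (y2, c')}) = A.r (Y ∪ {(y1, c), (y2, c)}) := by
  have hs : ∀ d : ℚ, StrictMono (fun _ : Fin 1 => d) := by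
    intro d i j hij
    exact absurd hij (by rw [Subsingleton.elim i j]; exact lt_irrefl _)
  have h := AHom.move hA hY (fun _ : Fin 1 => c) (fun _ : Fin 1 => c') (hs c) (hs c')
    (fun _ => ⟨h1, h2⟩) (fun _ => ⟨h3, h4⟩) ({(y1, 0), (y2, 0)} : Finset (ℚ × Fin 1))
  simpa [Finset.image_insert, Finset.image_singleton] using h

theorem LfGadDep_pair_le (A : RF (ℚ × ℚ)) (Y : Finset (ℚ × ℚ)) (y : ℚ × ℚ) :
    A.r (Y ∪ {y, y}) ≤ A.r Y + 1 := by
  rw [Finset.pair_eq_singleton]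
  have h := A.dual_aux Y {y}
  rw [Finset.card_singleton] at h
  exact h

theorem LfGadDep_tie {A : RF (ℚ × ℚ)} (hA : AHom A) {Y : Finset (ℚ × ℚ)} {α β : ℚ}
    (hY : ∀ y ∈ cls Y, y ≤ α ∨ β ≤ y) {c c' : ℚ} (h1 : α < c) (h2 : c < β) (h3 : α < c')
    (h4 : c' < β) {u v : ℚ} (h : A.r (Y ∪ {(u, c), (v, c)}) ≤ A.r Y + 1) {y1 y2 : ℚ}
    (hy1 : y1 = u ∨ y1 = v) (hy2 : y2 = u ∨ y2 = v) :
    A.r (Y ∪ {(y1, c'), (y2, c')}) ≤ A.r Y + 1 := by
  rcases hy1 with rfl | rfl <;> rcases hy2 with rfl | rfl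
  · exact LfGadDep_pair_le A Y _
  · rw [LfGadDep_move hA hY h1 h2 h3 h4]
    exact h
  · rw [Finset.pair_comm, LfGadDep_move hA hY h1 h2 h3 h4]
    exact h
  · exact LfGadDep_pair_le A Y _

/-- If a gadget is dependent over `Y` then all ties between its base rows are dependent over `Y`.

Proof.  Induction on `p` for all `x, b, g, h`.  If `y1 = y2` the claim is `dual_aux` (one element).
`p = 0`: `gad 0 x b g h = {(x, h 0), (b 0, h 0)}` and `{y1, y2} = {x, b 0}`; move the column `h 0`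
to `c` with `AHom.move` (`n = 1`).
`p + 1`: let `b', g', h'` be the shifted sequences, `z = gadZ p b' g'`, `T = gadT p b' g' h'`,
`Y' = Y ∪ T`; `A.r Y' = A.r Y + 4 * p` (`gadT_free`, with `GOK x b' g' h' Y`).  By `gad_eq_T`
`Y ∪ gad (p + 1) x b g h = Y' ∪ ties3 (g 0) x (b 0) z (h 0) (h 1) (h 2)`, of rank
`< A.r Y + (4 * (p + 1) + 2) = A.r Y' + 6`.  The columns of `Y'` are `≤ α` or `≥ h 3` (columns of
`Y` are `≤ α` or `≥ β > h 3`; `cls_gadT`), the row `g 0` is not used by `Y'` (`rws_gadT`),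
`x, b 0, z ≠ g 0`.  So `ext_dep` (with `h 3` instead of `β`):
`A.r (Y' ∪ {(y, c), (y', c)}) ≤ A.r Y' + 1` for all `y, y' ∈ {x, b 0, z}`, `c ∈ (α, h 3)`.
* `y = x`, `y' = z`, `c = h 2`: `Y' ∪ {(x, h 2), (z, h 2)} = Y ∪ gad p x b' g' h'` (`gad_eq_T`), so
  `A.r (Y ∪ gad p x b' g' h') ≤ A.r Y + 4 * p + 1` and the induction hypothesis gives the claim for
  the rows `x, b 1, ..., b (p + 1)`.
* `y = b 0`, `y' = z`: in the same way for the rows `b 0, b 1, ..., b (p + 1)`.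
* `y = x`, `y' = b 0`, `c = h 0`: `gadT_free` over `Y ∪ {(x, h 0), (b 0, h 0)}` gives
  `A.r (Y ∪ {(x, h 0), (b 0, h 0)}) + 4 * p ≤ A.r Y' + 1`, so `≤ A.r Y + 1` for the ties in the
  column `h 0`; move it to `c` with `AHom.move`. -/
theorem gad_dep {A : RF (ℚ × ℚ)} (hA : AHom A) (hc : CI A 1) (hr : RI A 2)
    {Y : Finset (ℚ × ℚ)} {α β : ℚ} (hY : ∀ y ∈ cls Y, y ≤ α ∨ β ≤ y) (p : ℕ) :
    ∀ (x : ℚ) (b g h : ℕ → ℚ), GOK x b g h Y → (∀ j, α < h j ∧ h j < β) →
      A.r (Y ∪ gad p x b g h) < A.r Y + (4 * p + 2) →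
      ∀ y1 y2 : ℚ, (y1 = x ∨ ∃ i ≤ p, y1 = b i) → (y2 = x ∨ ∃ i ≤ p, y2 = b i) →
        ∀ c, α < c → c < β → A.r (Y ∪ {(y1, c), (y2, c)}) ≤ A.r Y + 1 := by
  induction p with
  | zero =>
    intro x b g h hG hh hlt y1 y2 hy1 hy2 c hc1 hc2
    have h0 : A.r (Y ∪ {(x, h 0), (b 0, h 0)}) ≤ A.r Y + 1 := by
      have : gad 0 x b g h = {(x, h 0), (b 0, h 0)} := rfl
      rw [this] at hlt
      omega
    refine LfGadDep_tie hA hY (hh 0).1 (hh 0).2 hc1 hc2 h0 ?_ ?_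
    · rcases hy1 with h1 | ⟨i, hi, h1⟩
      · exact Or.inl h1
      · have : i = 0 := by omega
        subst this
        exact Or.inr h1
    · rcases hy2 with h1 | ⟨i, hi, h1⟩
      · exact Or.inl h1
      · have : i = 0 := by omega
        subst this
        exact Or.inr h1
  | succ p ih =>
    intro x b g h hG hh hlt y1 y2 hy1 hy2 c hc1 hc2
    set b' : ℕ → ℚ := fun i => b (i + 1) with hb'
    set g' : ℕ → ℚ := fun i => g (i + 1) with hg'
    set h' : ℕ → ℚ := fun i => h (i + 2) with hh'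
    have hmono' : StrictMono h' := fun i j hij => hG.hmono (by omega)
    have hinj' : Function.Injective g' := fun i j hij => by
      have := hG.ginj hij
      omega
    have hG1 : GOK x b' g' h' Y :=
      ⟨hmono', hinj', fun i => hG.gx _, fun i j => hG.gb _ _, fun i => hG.gZ _, fun j => hG.hZ _⟩
    have hG2 : GOK (b 0) b' g' h' Y :=
      ⟨hmono', hinj', fun i => hG.gb _ _, fun i j => hG.gb _ _, fun i => hG.gZ _,
        fun j => hG.hZ _⟩
    set z : ℚ := gadZ p b' g' with hz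
    set T : Finset (ℚ × ℚ) := gadT p b' g' h' with hT
    have hrT : A.r (Y ∪ T) = A.r Y + 4 * p := gadT_free hc hr p x b' g' h' Y hG1
    have hrow : g 0 ∉ rws (Y ∪ T) := by
      rw [rws_union, Finset.mem_union]
      rintro (h1 | h1)
      · exact hG.gZ 0 h1
      · rcases rws_gadT p b' g' h' _ h1 with ⟨i, _, h2⟩ | ⟨i, _, h2⟩
        · exact hG.gb 0 (i + 1) h2
        · have := hG.ginj h2
          omega
    have hzg : z ≠ g 0 := by
      rw [hz]
      cases p with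
      | zero => exact fun h1 => hG.gb 0 1 h1.symm
      | succ p =>
        intro h1
        have h2 : g 1 = g 0 := h1
        have := hG.ginj h2
        omega
    have hcol : ∀ y ∈ cls (Y ∪ T), y ≤ α ∨ h 3 ≤ y := by
      intro y hy
      rw [cls_union, Finset.mem_union] at hy
      rcases hy with h1 | h1
      · rcases hY y h1 with h2 | h2
        · exact Or.inl h2
        · exact Or.inr ((hh 3).2.le.trans h2)
      · obtain ⟨j, hj1, _, rfl⟩ := cls_gadT p b' g' h' _ h1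
        exact Or.inr (hG.hmono.monotone (by omega))
    have hset : Y ∪ gad (p + 1) x b g h =
        (Y ∪ T) ∪ ties3 (g 0) x (b 0) z (h 0) (h 1) (h 2) := by
      have h1 : gad (p + 1) x b g h = {(g 0, h 0), (x, h 0), (g 0, h 1), (b 0, h 1)} ∪
          gad p (g 0) b' g' h' := rfl
      rw [h1, gad_eq_T p (g 0) b' g' h']
      have h2 : h' 0 = h 2 := rfl
      rw [h2]
      unfold ties3
      ext e
      simp only [Finset.mem_union, Finset.mem_insert, Finset.mem_singleton]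
      tauto
    have hdep : A.r ((Y ∪ T) ∪ ties3 (g 0) x (b 0) z (h 0) (h 1) (h 2)) < A.r (Y ∪ T) + 6 := by
      rw [← hset, hrT]
      omega
    have key : ∀ {d : ℚ}, α < d → d < h 3 → ∀ {u v : ℚ}, (u = x ∨ u = b 0 ∨ u = z) →
        (v = x ∨ v = b 0 ∨ v = z) → A.r ((Y ∪ T) ∪ {(u, d), (v, d)}) ≤ A.r (Y ∪ T) + 1 := by
      intro d hd1 hd2 u v hu hv
      exact ext_dep hA hc hr hrow (hG.gx 0).symm (hG.gb 0 0).symm hzg hcol (hh 0).1
        (hG.hmono (by omega)) (hG.hmono (by omega)) (hG.hmono (by omega)) hdep hd1 hd2 hu hv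
    have h2lt3 : h 2 < h 3 := hG.hmono (by omega)
    have h0lt3 : h 0 < h 3 := hG.hmono (by omega)
    have hsetx : ∀ u : ℚ, Y ∪ gad p u b' g' h' = (Y ∪ T) ∪ {(u, h 2), (z, h 2)} := by
      intro u
      rw [gad_eq_T p u b' g' h']
      have h2 : h' 0 = h 2 := rfl
      rw [h2]
      ext e
      simp only [Finset.mem_union, Finset.mem_insert, Finset.mem_singleton]
      tauto
    have hP1 : ∀ u v : ℚ, (u = x ∨ ∃ i ≤ p, u = b' i) → (v = x ∨ ∃ i ≤ p, v = b' i) →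
        A.r (Y ∪ {(u, c), (v, c)}) ≤ A.r Y + 1 := by
      intro u v hu hv
      refine ih x b' g' h' hG1 (fun j => hh _) ?_ u v hu hv c hc1 hc2
      have h1 := key (hh 2).1 h2lt3 (Or.inl rfl : x = x ∨ x = b 0 ∨ x = z)
        (Or.inr (Or.inr rfl) : z = x ∨ z = b 0 ∨ z = z)
      rw [hsetx x]
      omega
    have hP2 : ∀ u v : ℚ, (u = b 0 ∨ ∃ i ≤ p, u = b' i) → (v = b 0 ∨ ∃ i ≤ p, v = b' i) →
        A.r (Y ∪ {(u, c), (v, c)}) ≤ A.r Y + 1 := by
      intro u v hu hv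
      refine ih (b 0) b' g' h' hG2 (fun j => hh _) ?_ u v hu hv c hc1 hc2
      have h1 := key (hh 2).1 h2lt3 (Or.inr (Or.inl rfl) : b 0 = x ∨ b 0 = b 0 ∨ b 0 = z)
        (Or.inr (Or.inr rfl) : z = x ∨ z = b 0 ∨ z = z)
      rw [hsetx (b 0)]
      omega
    have hP3 : A.r (Y ∪ {(x, h 0), (b 0, h 0)}) ≤ A.r Y + 1 := by
      have hG3 : GOK x b' g' h' (Y ∪ {(x, h 0), (b 0, h 0)}) := by
        refine ⟨hmono', hinj', fun i => hG.gx _, fun i j => hG.gb _ _, fun i => ?_, fun j => ?_⟩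
        · intro h1
          obtain ⟨k, hk⟩ := mem_rws.1 h1
          simp only [Finset.mem_union, Finset.mem_insert, Finset.mem_singleton,
            Prod.mk.injEq] at hk
          rcases hk with hk | ⟨hk, _⟩ | ⟨hk, _⟩
          · exact hG.gZ (i + 1) (mem_rws.2 ⟨k, hk⟩)
          · exact hG.gx (i + 1) hk
          · exact hG.gb (i + 1) 0 hk
        · intro h1
          obtain ⟨k, hk⟩ := mem_cls.1 h1
          simp only [Finset.mem_union, Finset.mem_insert, Finset.mem_singleton,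
            Prod.mk.injEq] at hk
          have hne : h (j + 2) ≠ h 0 := fun h2 => by
            have := hG.hmono.injective h2
            omega
          rcases hk with hk | ⟨_, hk⟩ | ⟨_, hk⟩
          · exact hG.hZ (j + 2) (mem_cls.2 ⟨k, hk⟩)
          · exact hne hk
          · exact hne hk
      have h1 := gadT_free hc hr p x b' g' h' _ hG3
      have h2 := key (hh 0).1 h0lt3 (Or.inl rfl : x = x ∨ x = b 0 ∨ x = z)
        (Or.inr (Or.inl rfl) : b 0 = x ∨ b 0 = b 0 ∨ b 0 = z)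
      have h3 : (Y ∪ {(x, h 0), (b 0, h 0)}) ∪ gadT p b' g' h' =
          (Y ∪ T) ∪ {(x, h 0), (b 0, h 0)} := by
        rw [← hT]
        ext e
        simp only [Finset.mem_union, Finset.mem_insert, Finset.mem_singleton]
        tauto
      rw [h3] at h1
      omega
    have hcase : ∀ y : ℚ, (y = x ∨ ∃ i ≤ p + 1, y = b i) →
        y = x ∨ y = b 0 ∨ ∃ i ≤ p, y = b' i := by
      rintro y (h1 | ⟨i, hi, h1⟩)
      · exact Or.inl h1
      · cases i with
        | zero => exact Or.inr (Or.inl h1)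
        | succ i => exact Or.inr (Or.inr ⟨i, by omega, h1⟩)
    rcases hcase y1 hy1 with h1 | h1 | h1 <;> rcases hcase y2 hy2 with h2 | h2 | h2
    · exact hP1 _ _ (Or.inl h1) (Or.inl h2)
    · exact LfGadDep_tie hA hY (hh 0).1 (hh 0).2 hc1 hc2 hP3 (Or.inl h1) (Or.inr h2)
    · exact hP1 _ _ (Or.inl h1) (Or.inr h2)
    · exact LfGadDep_tie hA hY (hh 0).1 (hh 0).2 hc1 hc2 hP3 (Or.inr h1) (Or.inl h2)
    · exact hP2 _ _ (Or.inl h1) (Or.inl h2)
    · exact hP2 _ _ (Or.inl h1) (Or.inr h2)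
    · exact hP1 _ _ (Or.inr h1) (Or.inl h2)
    · exact hP2 _ _ (Or.inr h1) (Or.inl h2)
    · exact hP1 _ _ (Or.inr h1) (Or.inr h2)

end Pool.Agent.H.MP_60a1a2_co
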