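import Pool.Agent.H.MP_60a1a2_co.LfFamRank
import Pool.Agent.H.MP_60a1a2_co.LfGadDep

/-! # Arrays: the first gadgets are independent -/

set_option autoImplicit false

namespace Pool.Agent.H.MP_60a1a2_co

theorem LfFamInd_card (p : ℕ) : ∀ (x : ℚ) (b g h : ℕ → ℚ),
    (gad p x b g h).card ≤ 4 * p + 2 := by
  induction p with
  | zero =>
    intro x b g h
    exact Finset.card_le_two
  | succ p ih =>
    intro x b g h
    have h1 := Finset.card_union_le ({(g 0, h 0), (x, h 0), (g 0, h 1), (b 0, h 1)} :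
      Finset (ℚ × ℚ)) (gad p (g 0) (fun i => b (i + 1)) (fun i => g (i + 1)) (fun i => h (i + 2)))
    have h2 := ih (g 0) (fun i => b (i + 1)) (fun i => g (i + 1)) (fun i => h (i + 2))
    have h3 : ({(g 0, h 0), (x, h 0), (g 0, h 1), (b 0, h 1)} : Finset (ℚ × ℚ)).card ≤ 4 :=
      Finset.card_le_four
    show (_ ∪ _ : Finset (ℚ × ℚ)).card ≤ _
    omega

theorem LfFamInd_mem {p n : ℕ} {z : ℚ × ℚ} (hz : z ∈ gs p (Finset.range n) ∅) :
    ∃ d < n, z ∈ Gd p d := by
  unfold gs at hz
  simp only [Finset.biUnion_empty, Finset.union_empty, Finset.mem_biUnion,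
    Finset.mem_range] at hz
  exact hz

theorem LfFamInd_cls {p n : ℕ} {c : ℚ} (hc : c ∈ cls (gs p (Finset.range n) ∅)) :
    ∃ d < n, ∃ j, c = pos d j := by
  obtain ⟨g, hg⟩ := mem_cls.1 hc
  obtain ⟨d, hd, hz⟩ := LfFamInd_mem hg
  obtain ⟨⟨j, -, hj⟩, -⟩ := Gd_mem p d _ hz
  exact ⟨d, hd, j, hj⟩

theorem LfFamInd_rws {p n : ℕ} {g : ℚ} (hc : g ∈ rws (gs p (Finset.range n) ∅)) :
    (∃ i ≤ p + 1, g = (i : ℚ)) ∨ ∃ d < n, ∃ i, g = (p : ℚ) + 2 + pos d i := by
  obtain ⟨c, hg⟩ := mem_rws.1 hc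
  obtain ⟨d, hd, hz⟩ := LfFamInd_mem hg
  obtain ⟨-, h | ⟨i, -, hi⟩⟩ := Gd_mem p d _ hz
  · exact Or.inl h
  · exact Or.inr ⟨d, hd, i, hi⟩

theorem LfFamInd_lt {n d j : ℕ} (hd : d < n) : pos d j < 2 * (n : ℚ) - 1 := by
  have h1 := pos_lt' d j
  have h2 : (d : ℚ) + 1 ≤ n := by exact_mod_cast hd
  linarith

theorem LfFamInd_base {p i : ℕ} (hi : i ≤ p + 1) (d k : ℕ) :
    (i : ℚ) ≠ (p : ℚ) + 2 + pos d k := by
  have h1 := pos_ge d k
  have h2 : (0 : ℚ) ≤ d := Nat.cast_nonneg d
  have h3 : (i : ℚ) ≤ (p : ℚ) + 1 := by exact_mod_cast hi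
  intro h
  linarith

/-- The first gadgets are independent.

Proof.  Induction on `n`; `n = 0`: empty set.  Let `n + 1 ≤ 2 * p + 2`, `Y = gs p (range n) ∅`, so
`A.r Y = n * (4 * p + 2)`.  Suppose `A.r (gs p (range (n + 1)) ∅) ≠ (n + 1) * (4 * p + 2)`; this set
is `Y ∪ Gd p n`, by `dual_aux` (`(Gd p n).card ≤ 4 * p + 2`, by induction from the definition of
`gad`) its rank is `< A.r Y + (4 * p + 2)`.  The columns of `Y` are `< 2 * n - 1`
(`Gd_mem`, `pos_lt'`), so `gad_dep` with `α = 2 * n - 1`, `β = 2 * n + 1` (`Gd_gok`, `pos_ge`,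
`pos_lt'`) gives `A.r (Y ∪ {(y1, c), (y2, c)}) ≤ A.r Y + 1` for all base rows
`y1, y2 ∈ {0, ..., p + 1}` and `c ∈ (2 * n - 1, 2 * n + 1)`.  Let `c1 = 2 * n - 1/2`,
`c2 = 2 * n - 1/3`, `H = {c1, c2}`, `X` = the set of the base rows.  For `y ∈ X`:
`A.r (insert (0, c1) Y) = A.r Y + 1` (`CI.one`), so `A.In (insert (0, c1) Y) (y, c1)`; the same for
`c2`; so `A.r (Y ∪ X ×ˢ H) ≤ A.r Y + 2` (`r_union_of_in` with `insert (0, c1) (insert (0, c2) Y)`).
On the other hand `A.r (X ×ˢ H) = 2 * (p + 2)` (`RI.add` with `Z = ∅`, `t = 2`) and by `gs_free`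
(with `S = ∅`, `T = range n`, `Z = X ×ˢ H`; `gs p ∅ ∅ = ∅`; the columns `c1`, `c2` are not
private columns of `d < n` because these are `< 2 * n - 1`)
`A.r (X ×ˢ H ∪ gs p ∅ (range n)) = 2 * (p + 2) + n * (4 * p + 1)`, and this set is contained in
`Y ∪ X ×ˢ H` (`Ld_sub`).  So `2 * (p + 2) + n * (4 * p + 1) ≤ n * (4 * p + 2) + 2`, so
`2 * p + 2 ≤ n`, a contradiction. -/
theorem gs_ind {A : RF (ℚ × ℚ)} (hA : AHom A) (hc : CI A 1) (hr : RI A 2) (p : ℕ) :
    ∀ n ≤ 2 * p + 2, A.r (gs p (Finset.range n) ∅) = n * (4 * p + 2) := by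
  intro n
  induction n with
  | zero =>
    intro _
    have : gs p (Finset.range 0) ∅ = ∅ := rfl
    rw [this, A.r_empty, zero_mul]
  | succ n ih =>
    intro hn
    have ihn := ih (by omega)
    set Y := gs p (Finset.range n) ∅ with hYd
    have hU : gs p (Finset.range (n + 1)) ∅ = Y ∪ Gd p n := by
      rw [hYd]
      unfold gs
      rw [Finset.range_add_one, Finset.biUnion_insert, Finset.biUnion_empty, Finset.union_empty,
        Finset.union_empty, Finset.union_comm]
    rw [hU]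
    have hcard : (Gd p n).card ≤ 4 * p + 2 := LfFamInd_card _ _ _ _ _
    have hle := A.dual_aux Y (Gd p n)
    by_contra hne
    have hlt : A.r (Y ∪ Gd p n) < A.r Y + (4 * p + 2) := by
      have h1 : A.r (Y ∪ Gd p n) ≠ A.r Y + (4 * p + 2) := by
        intro h
        apply hne
        rw [h, ihn]
        ring
      omega
    have hYc : ∀ y ∈ cls Y, y ≤ 2 * (n : ℚ) - 1 ∨ 2 * (n : ℚ) + 1 ≤ y := by
      intro y hy
      obtain ⟨d, hd, j, rfl⟩ := LfFamInd_cls hy
      exact Or.inl (LfFamInd_lt hd).le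
    have hgok := Gd_gok p n (Z := Y)
      (by
        intro i hi
        rcases LfFamInd_rws hi with ⟨k, hk, h⟩ | ⟨d, hd, k, h⟩
        · exact LfFamInd_base hk n i h.symm
        · have h1 : pos n i = pos d k := by linarith
          have h2 := (pos_inj h1).1
          omega)
      (by
        intro j hj
        obtain ⟨d, hd, k, h⟩ := LfFamInd_cls hj
        have h2 := (pos_inj h).1
        omega)
    have hdep := gad_dep hA hc hr hYc p 0 (fun i => (i : ℚ) + 1)
      (fun i => (p : ℚ) + 2 + pos n i) (fun j => pos n j) hgok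
      (fun j => ⟨by linarith [pos_ge n j], pos_lt' n j⟩) hlt
    have hbase : ∀ i ≤ p + 1, ((i : ℚ) = 0 ∨ ∃ k ≤ p, (i : ℚ) = (k : ℚ) + 1) := by
      intro i hi
      rcases i with _ | k
      · exact Or.inl (by simp)
      · exact Or.inr ⟨k, by omega, by push_cast; ring⟩
    have hcl : ∀ c, 2 * (n : ℚ) - 1 < c → c < 2 * (n : ℚ) + 1 → ∀ i ≤ p + 1,
        A.In (insert (0, c) Y) ((i : ℚ), c) := by
      intro c h1 h2 i hi
      have h3 := hdep 0 (i : ℚ) (Or.inl rfl) (hbase i hi) c h1 h2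
      have h4 : c ∉ cls Y := by
        intro h
        obtain ⟨d, hd, j, rfl⟩ := LfFamInd_cls h
        exact absurd (LfFamInd_lt (j := j) hd) (not_lt.2 h1.le)
      have h5 := hc.one (g := 0) h4
      have h6 : Y ∪ {((0 : ℚ), c), ((i : ℚ), c)} = insert ((i : ℚ), c) (insert (0, c) Y) := by
        ext z
        simp only [Finset.mem_union, Finset.mem_insert, Finset.mem_singleton]
        tauto
      rw [h6] at h3
      unfold RF.In
      have h7 : A.r (insert (0, c) Y) ≤ A.r (insert ((i : ℚ), c) (insert (0, c) Y)) :=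
        A.mono (Finset.subset_insert _ _)
      omega
    set c1 : ℚ := 2 * (n : ℚ) - 1 / 2 with hc1
    set c2 : ℚ := 2 * (n : ℚ) - 1 / 3 with hc2
    have hc12 : c1 ≠ c2 := by
      intro h
      rw [hc1, hc2] at h
      linarith
    set X : Finset ℚ := (Finset.range (p + 2)).image (fun i : ℕ => (i : ℚ)) with hX
    have hXcard : X.card = p + 2 := by
      rw [hX, Finset.card_image_of_injective _ Nat.cast_injective, Finset.card_range]
    have hXmem : ∀ x ∈ X, ∃ i ≤ p + 1, x = (i : ℚ) := by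
      intro x hx
      rw [hX, Finset.mem_image] at hx
      obtain ⟨i, hi, rfl⟩ := hx
      exact ⟨i, by rw [Finset.mem_range] at hi; omega, rfl⟩
    set W : Finset (ℚ × ℚ) := insert (0, c1) (insert (0, c2) Y) with hW
    have hWr : A.r W ≤ A.r Y + 2 := by
      have h1 := A.r_insert_le (0, c1) (insert (0, c2) Y)
      have h2 := A.r_insert_le (0, c2) Y
      rw [hW]
      omega
    have hWX : A.r (W ∪ X ×ˢ {c1, c2}) = A.r W := by
      apply A.r_union_of_in
      rintro ⟨x, c⟩ hz
      obtain ⟨h1, h2⟩ := Finset.mem_product.1 hz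
      obtain ⟨i, hi, h3⟩ := hXmem x h1
      simp only at h2 h3
      rw [h3]
      simp only [Finset.mem_insert, Finset.mem_singleton] at h2
      rcases h2 with h2 | h2
      · rw [h2]
        exact A.in_mono (hcl c1 (by rw [hc1]; linarith) (by rw [hc1]; linarith) i hi)
          (Finset.insert_subset_insert _ (Finset.subset_insert _ _))
      · rw [h2]
        exact A.in_mono (hcl c2 (by rw [hc2]; linarith) (by rw [hc2]; linarith) i hi)
          (Finset.subset_insert _ _)
    have hXr : A.r (X ×ˢ {c1, c2}) = 2 * (p + 2) := by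
      have h1 := hr.add (G := X) (H := {c1, c2}) (Z := ∅) (Finset.card_pair hc12)
        (by rw [rws_empty]; exact Finset.disjoint_empty_right _)
      rw [Finset.empty_union, A.r_empty, hXcard] at h1
      omega
    have hfree := gs_free hc hr p (S := ∅) (T := Finset.range n) (Finset.disjoint_empty_left _)
      (Z := X ×ˢ {c1, c2})
      (by
        intro d hd i
        rw [Finset.mem_range] at hd
        constructor
        · intro h
          obtain ⟨k, hk, h1⟩ := hXmem _ (rws_prod_sub _ _ h)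
          exact LfFamInd_base hk d i h1.symm
        · intro h
          have h1 := cls_prod_sub _ _ h
          have h2 := LfFamInd_lt (j := i) hd
          simp only [Finset.mem_insert, Finset.mem_singleton] at h1
          rcases h1 with h1 | h1
          · rw [h1, hc1] at h2
            linarith
          · rw [h1, hc2] at h2
            linarith)
    have he : gs p ∅ ∅ = ∅ := rfl
    rw [he, Finset.union_empty, hXr, Finset.card_range] at hfree
    have hsub : X ×ˢ {c1, c2} ∪ gs p ∅ (Finset.range n) ⊆ W ∪ X ×ˢ {c1, c2} := by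
      intro z hz
      rcases Finset.mem_union.1 hz with h | h
      · exact Finset.mem_union_right _ h
      · refine Finset.mem_union_left _ ?_
        rw [hW]
        refine Finset.mem_insert_of_mem (Finset.mem_insert_of_mem ?_)
        rw [hYd]
        unfold gs at h ⊢
        simp only [Finset.biUnion_empty, Finset.union_empty, Finset.empty_union,
          Finset.mem_biUnion] at h ⊢
        obtain ⟨d, hd, h⟩ := h
        exact ⟨d, hd, Ld_sub p d h⟩
    have h1 := A.mono hsub
    rw [hWX, hfree] at h1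
    have h2 : 2 * (p + 2) + n * (4 * p + 1) ≤ n * (4 * p + 2) + 2 := by
      rw [← ihn]
      omega
    have h3 : n * (4 * p + 2) = n * (4 * p + 1) + n := by ring
    omega

end Pool.Agent.H.MP_60a1a2_co
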