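import Pool.Agent.H.MP_60a1a2_co.LfFam

/-! # Arrays: ranks of sequences of gadgets -/

set_option autoImplicit false

namespace Pool.Agent.H.MP_60a1a2_co

/-- the gadgets of `S` and the gadgets without the last elements of `T` -/
def gs (p : ℕ) (S T : Finset ℕ) : Finset (ℚ × ℚ) := S.biUnion (Gd p) ∪ T.biUnion (Ld p)

theorem LfFamRank_pos_nonneg (d i : ℕ) : 0 ≤ pos d i := by
  have h1 := pos_ge d i
  have h2 : (0 : ℚ) ≤ (d : ℚ) := Nat.cast_nonneg d
  linarith

theorem LfFamRank_mem {p : ℕ} {S T : Finset ℕ} {z : ℚ × ℚ} (hz : z ∈ gs p S T) :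
    ∃ s, (s ∈ S ∨ s ∈ T) ∧ z ∈ Gd p s := by
  unfold gs at hz
  rcases Finset.mem_union.1 hz with h | h
  · obtain ⟨s, hs, h⟩ := Finset.mem_biUnion.1 h
    exact ⟨s, Or.inl hs, h⟩
  · obtain ⟨s, hs, h⟩ := Finset.mem_biUnion.1 h
    exact ⟨s, Or.inr hs, Ld_sub p s h⟩

theorem LfFamRank_priv {p d : ℕ} {S T : Finset ℕ} (hS : d ∉ S) (hT : d ∉ T) (i : ℕ) :
    (p : ℚ) + 2 + pos d i ∉ rws (gs p S T) ∧ pos d i ∉ cls (gs p S T) := by
  constructor
  · intro h
    obtain ⟨c, hc⟩ := mem_rws.1 h
    obtain ⟨s, hs, hz⟩ := LfFamRank_mem hc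
    have hds : d ≠ s := by
      rintro rfl
      rcases hs with h' | h'
      · exact hS h'
      · exact hT h'
    rcases (Gd_mem p s _ hz).2 with ⟨i', hi', h1⟩ | ⟨i', -, h1⟩
    · have h2 := LfFamRank_pos_nonneg d i
      have h3 : (i' : ℚ) ≤ (p : ℚ) + 1 := by exact_mod_cast hi'
      have h4 : (p : ℚ) + 2 + pos d i = (i' : ℚ) := h1
      linarith
    · have h4 : (p : ℚ) + 2 + pos d i = (p : ℚ) + 2 + pos s i' := h1
      exact hds (pos_inj (by linarith)).1
  · intro h
    obtain ⟨c, hc⟩ := mem_cls.1 h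
    obtain ⟨s, hs, hz⟩ := LfFamRank_mem hc
    have hds : d ≠ s := by
      rintro rfl
      rcases hs with h' | h'
      · exact hS h'
      · exact hT h'
    obtain ⟨j, -, hj⟩ := (Gd_mem p s _ hz).1
    exact hds (pos_inj hj).1

/-- Gadgets without the last elements are free over the other gadgets and over a set `Z` which
avoids private rows and columns.

Proof.  Induction on `T`: `T = insert d T'`: `gadL_free` (with `Gd_gok`) over
`Z ∪ gs p S T'`; the private rows and columns of `d` are not used by it: `Gd_mem`, `pos_inj`,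
`p + 2 + pos d i` is different from the base rows `0, ..., p + 1`. -/
theorem gs_free {A : RF (ℚ × ℚ)} (hc : CI A 1) (hr : RI A 2) (p : ℕ) {S T : Finset ℕ}
    (hST : Disjoint S T) {Z : Finset (ℚ × ℚ)}
    (hZ : ∀ d ∈ T, ∀ i, (p : ℚ) + 2 + pos d i ∉ rws Z ∧ pos d i ∉ cls Z) :
    A.r (Z ∪ gs p S T) = A.r (Z ∪ gs p S ∅) + T.card * (4 * p + 1) := by
  induction T using Finset.induction_on with
  | empty => simp
  | insert d T hd ih =>
    have hdS : d ∉ S := fun h => (Finset.disjoint_left.1 hST h) (Finset.mem_insert_self d T)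
    have hST' : Disjoint S T := Finset.disjoint_of_subset_right (Finset.subset_insert d T) hST
    have ih' := ih hST' (fun e he i => hZ e (Finset.mem_insert_of_mem he) i)
    have h1 : Z ∪ gs p S (insert d T) = (Z ∪ gs p S T) ∪ Ld p d := by
      unfold gs
      ext a
      simp only [Finset.mem_union, Finset.biUnion_insert]
      tauto
    have hZd := hZ d (Finset.mem_insert_self d T)
    have hgok : GOK 0 (fun i => (i : ℚ) + 1) (fun i => (p : ℚ) + 2 + pos d i)
        (fun j => pos d j) (Z ∪ gs p S T) := by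
      apply Gd_gok
      · intro i
        rw [rws_union, Finset.mem_union]
        rintro (h | h)
        · exact (hZd i).1 h
        · exact (LfFamRank_priv hdS hd i).1 h
      · intro i
        rw [cls_union, Finset.mem_union]
        rintro (h | h)
        · exact (hZd i).2 h
        · exact (LfFamRank_priv hdS hd i).2 h
    have h2 := gadL_free hc hr p _ _ _ _ _ hgok
    rw [h1, Finset.card_insert_of_notMem hd]
    unfold Ld
    rw [h2, ih']
    ring

theorem LfFamRank_maps (p : ℕ) (o : ℕ → ℕ) : ∃ φ ψ : ℚ → ℚ,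
    (∀ x : ℚ, x < (p : ℚ) + 2 → φ x = x) ∧
    (∀ d i, φ ((p : ℚ) + 2 + pos d i) = (p : ℚ) + 2 + pos (o d) i) ∧
    ∀ d i, ψ (pos d i) = pos (o d) i := by
  classical
  obtain ⟨ψ, hψ⟩ : ∃ ψ : ℚ → ℚ, ∀ d i, ψ (pos d i) = pos (o d) i := by
    refine ⟨fun x => if h : ∃ t : ℕ × ℕ, x = pos t.1 t.2 then
      pos (o h.choose.1) h.choose.2 else x, fun d i => ?_⟩
    have h : ∃ t : ℕ × ℕ, pos d i = pos t.1 t.2 := ⟨(d, i), rfl⟩
    obtain ⟨h1, h2⟩ := pos_inj h.choose_spec
    simp only [dif_pos h]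
    rw [← h1, ← h2]
  refine ⟨fun x => if x < (p : ℚ) + 2 then x else (p : ℚ) + 2 + ψ (x - ((p : ℚ) + 2)), ψ,
    fun x hx => if_pos hx, fun d i => ?_, hψ⟩
  have h1 := LfFamRank_pos_nonneg d i
  have h2 : ¬ ((p : ℚ) + 2 + pos d i < (p : ℚ) + 2) := by linarith
  have h3 : (p : ℚ) + 2 + pos d i - ((p : ℚ) + 2) = pos d i := by ring
  simp only [if_neg h2, h3, hψ]

theorem LfFamRank_pos_mono {o : ℕ → ℕ} {n : ℕ} (ho : ∀ a b, a < b → b < n → o a < o b)
    {d d' i i' : ℕ} (hd : d < n) (hd' : d' < n) (h : pos d i < pos d' i') :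
    pos (o d) i < pos (o d') i' := by
  rcases lt_trichotomy d d' with h1 | h1 | h1
  · exact pos_lt_of_lt (ho d d' h1 hd') i i'
  · subst h1
    rcases lt_trichotomy i i' with h2 | h2 | h2
    · exact pos_lt _ h2
    · subst h2
      exact absurd h (lt_irrefl _)
    · exact absurd h (not_lt.2 (pos_lt d h2).le)
  · exact absurd h (not_lt.2 (pos_lt_of_lt h1 i' i).le)

/-- The rank of several gadgets depends only on their number.

Proof.  Let `n = S.card` and let `o : ℕ → ℕ` be strictly increasing on `range n` with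
`S = (range n).image o` (`Finset.orderEmbOfFin`).  Let `φ` be the identity on `0, ..., p + 1` and
`φ (p + 2 + pos d i) = p + 2 + pos (o d) i`, `ψ (pos d j) = pos (o d) j` for `d < n` (choose with
`if h : ∃ d i, ... then ... else x`, `pos_inj`); they are strictly increasing on the rows and
columns of `gs p (range n) ∅` (`Gd_mem`, `pos_lt`, `pos_lt_of_lt`).
`mv φ ψ (gs p (range n) ∅) = gs p S ∅` (`mv_gad`, `gad_congr`). -/
theorem gs_hom {A : RF (ℚ × ℚ)} (hA : AHom A) (p : ℕ) (S : Finset ℕ) :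
    A.r (gs p S ∅) = A.r (gs p (Finset.range S.card) ∅) := by
  classical
  obtain ⟨o, hoS, ho⟩ : ∃ o : ℕ → ℕ, (Finset.range S.card).image o = S ∧
      ∀ a b, a < b → b < S.card → o a < o b := by
    refine ⟨fun d => if h : d < S.card then S.orderEmbOfFin rfl ⟨d, h⟩ else 0, ?_, ?_⟩
    · ext x
      rw [Finset.mem_image]
      constructor
      · rintro ⟨d, hd, rfl⟩
        rw [dif_pos (Finset.mem_range.1 hd)]
        exact Finset.orderEmbOfFin_mem S rfl _
      · intro hx
        have h1 : x ∈ Set.range (S.orderEmbOfFin rfl) := by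
          rw [Finset.range_orderEmbOfFin]
          exact hx
        obtain ⟨⟨d, hd⟩, rfl⟩ := h1
        exact ⟨d, Finset.mem_range.2 hd, by rw [dif_pos hd]⟩
    · intro a b hab hb
      simp only [dif_pos hb, dif_pos (hab.trans hb)]
      exact (S.orderEmbOfFin rfl).strictMono hab
  obtain ⟨φ, ψ, h1, h2, h3⟩ := LfFamRank_maps p o
  set n := S.card with hn
  have hfst : ∀ x ∈ rws (gs p (Finset.range n) ∅), (∃ i ≤ p + 1, x = (i : ℚ)) ∨
      ∃ d < n, ∃ i, x = (p : ℚ) + 2 + pos d i := by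
    intro x hx
    obtain ⟨c, hc⟩ := mem_rws.1 hx
    obtain ⟨s, hs, hz⟩ := LfFamRank_mem hc
    have hs' : s < n := by
      rcases hs with h | h
      · exact Finset.mem_range.1 h
      · exact absurd h (Finset.notMem_empty s)
    rcases (Gd_mem p s _ hz).2 with ⟨i, hi, h⟩ | ⟨i, -, h⟩
    · exact Or.inl ⟨i, hi, h⟩
    · exact Or.inr ⟨s, hs', i, h⟩
  have hsnd : ∀ x ∈ cls (gs p (Finset.range n) ∅), ∃ d < n, ∃ i, x = pos d i := by
    intro x hx
    obtain ⟨c, hc⟩ := mem_cls.1 hx
    obtain ⟨s, hs, hz⟩ := LfFamRank_mem hc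
    have hs' : s < n := by
      rcases hs with h | h
      · exact Finset.mem_range.1 h
      · exact absurd h (Finset.notMem_empty s)
    obtain ⟨j, -, h⟩ := (Gd_mem p s _ hz).1
    exact ⟨s, hs', j, h⟩
  have hbase : ∀ i : ℕ, i ≤ p + 1 → φ (i : ℚ) = (i : ℚ) := by
    intro i hi
    apply h1
    have : (i : ℚ) ≤ (p : ℚ) + 1 := by exact_mod_cast hi
    linarith
  have hφ : StrictMonoOn φ (rws (gs p (Finset.range n) ∅) : Set ℚ) := by
    intro x hx y hy hxy
    rcases hfst x (Finset.mem_coe.1 hx) with ⟨i, hi, rfl⟩ | ⟨d, hd, i, rfl⟩ <;>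
      rcases hfst y (Finset.mem_coe.1 hy) with ⟨i', hi', rfl⟩ | ⟨d', hd', i', rfl⟩
    · rw [hbase i hi, hbase i' hi']
      exact hxy
    · rw [hbase i hi, h2]
      have h4 : (i : ℚ) ≤ (p : ℚ) + 1 := by exact_mod_cast hi
      have h5 := LfFamRank_pos_nonneg (o d') i'
      linarith
    · exfalso
      have h4 : (i' : ℚ) ≤ (p : ℚ) + 1 := by exact_mod_cast hi'
      have h5 := LfFamRank_pos_nonneg d i
      linarith
    · rw [h2, h2]
      have := LfFamRank_pos_mono ho hd hd' (i := i) (i' := i') (by linarith)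
      linarith
  have hψ : StrictMonoOn ψ (cls (gs p (Finset.range n) ∅) : Set ℚ) := by
    intro x hx y hy hxy
    obtain ⟨d, hd, i, rfl⟩ := hsnd x (Finset.mem_coe.1 hx)
    obtain ⟨d', hd', i', rfl⟩ := hsnd y (Finset.mem_coe.1 hy)
    rw [h3, h3]
    exact LfFamRank_pos_mono ho hd hd' hxy
  have key : ∀ d, mv φ ψ (Gd p d) = Gd p (o d) := by
    intro d
    unfold Gd
    rw [mv_gad]
    have h0 : φ 0 = 0 := by
      have := hbase 0 (by omega)
      simpa using this
    rw [h0]
    apply gad_congr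
    · intro i hi
      have := hbase (i + 1) (by omega)
      push_cast at this
      exact this
    · intro i _
      exact h2 d i
    · intro i _
      exact h3 d i
  have hmv : mv φ ψ (gs p (Finset.range n) ∅) = gs p S ∅ := by
    unfold gs
    rw [mv_union, Finset.biUnion_empty]
    have h4 : mv φ ψ ((Finset.range n).biUnion (Gd p)) = S.biUnion (Gd p) := by
      unfold mv
      rw [Finset.biUnion_image]
      have h5 : ∀ d, (Gd p d).image (Prod.map φ ψ) = Gd p (o d) := key
      simp only [h5]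
      conv_rhs => rw [← hoS]
      rw [Finset.image_biUnion]
    rw [h4]
    rfl
  rw [← hmv]
  exact hA _ φ ψ hφ hψ

/-- The upper bound.

Proof.  All the elements are in `G ×ˢ H`, `G` = base rows and private rows, at most `p + 2 + p * n`,
`H` at most `(2 * p + 1) * n` columns (`Gd_mem`). -/
theorem gs_bound {A : RF (ℚ × ℚ)} {c : ℕ}
    (hU : ∀ G H : Finset ℚ, A.r (G ×ˢ H) ≤ 2 * G.card + H.card + c) (p n : ℕ) :
    A.r (gs p (Finset.range n) ∅) ≤ n * (4 * p + 1) + (2 * p + 4 + c) := by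
  classical
  set G : Finset ℚ := (Finset.range (p + 2)).image (fun i : ℕ => (i : ℚ)) ∪
    (Finset.range n ×ˢ Finset.range p).image (fun t : ℕ × ℕ => (p : ℚ) + 2 + pos t.1 t.2) with hG
  set H : Finset ℚ := (Finset.range n ×ˢ Finset.range (2 * p + 1)).image
    (fun t : ℕ × ℕ => pos t.1 t.2) with hH
  have hGc : G.card ≤ p + 2 + n * p := by
    refine (Finset.card_union_le _ _).trans ?_
    have h1 := Finset.card_image_le (s := Finset.range (p + 2)) (f := fun i : ℕ => (i : ℚ))
    have h2 := Finset.card_image_le (s := Finset.range n ×ˢ Finset.range p)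
      (f := fun t : ℕ × ℕ => (p : ℚ) + 2 + pos t.1 t.2)
    rw [Finset.card_range] at h1
    rw [Finset.card_product, Finset.card_range, Finset.card_range] at h2
    omega
  have hHc : H.card ≤ n * (2 * p + 1) := by
    have h2 := Finset.card_image_le (s := Finset.range n ×ˢ Finset.range (2 * p + 1))
      (f := fun t : ℕ × ℕ => pos t.1 t.2)
    rw [Finset.card_product, Finset.card_range, Finset.card_range] at h2
    exact h2
  have hsub : gs p (Finset.range n) ∅ ⊆ G ×ˢ H := by
    intro z hz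
    obtain ⟨s, hs, hz'⟩ := LfFamRank_mem hz
    have hs' : s < n := by
      rcases hs with h | h
      · exact Finset.mem_range.1 h
      · exact absurd h (Finset.notMem_empty s)
    obtain ⟨⟨j, hj, h1⟩, h2⟩ := Gd_mem p s z hz'
    rw [Finset.mem_product]
    constructor
    · rw [hG, Finset.mem_union]
      rcases h2 with ⟨i, hi, h3⟩ | ⟨i, hi, h3⟩
      · left
        exact Finset.mem_image.2 ⟨i, Finset.mem_range.2 (by omega), h3.symm⟩
      · right
        exact Finset.mem_image.2 ⟨(s, i), Finset.mem_product.2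
          ⟨Finset.mem_range.2 hs', Finset.mem_range.2 hi⟩, h3.symm⟩
    · exact Finset.mem_image.2 ⟨(s, j), Finset.mem_product.2
        ⟨Finset.mem_range.2 hs', Finset.mem_range.2 (by show j < 2 * p + 1; omega)⟩, h1.symm⟩
  have h1 := A.mono hsub
  have h2 := hU G H
  have h3 : n * (4 * p + 1) + (2 * p + 4 + c) = 2 * (p + 2 + n * p) + n * (2 * p + 1) + c := by
    ring
  omega

end Pool.Agent.H.MP_60a1a2_co
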