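import Pool.Agent.H.MP_60a1a2_co.LfGad

/-! # Arrays: parts of gadgets are free -/

set_option autoImplicit false

namespace Pool.Agent.H.MP_60a1a2_co

/-- the rows and columns of a gadget are private with respect to `Z` -/
structure GOK (x : ℚ) (b g h : ℕ → ℚ) (Z : Finset (ℚ × ℚ)) : Prop where
  hmono : StrictMono h
  ginj : Function.Injective g
  gx : ∀ i, g i ≠ x
  gb : ∀ i j, g i ≠ b j
  gZ : ∀ i, g i ∉ rws Z
  hZ : ∀ j, h j ∉ cls Z

theorem LfFree_shift {x : ℚ} {b g h : ℕ → ℚ} {Z : Finset (ℚ × ℚ)} (H : GOK x b g h Z) :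
    GOK (g 0) (fun i => b (i + 1)) (fun i => g (i + 1)) (fun i => h (i + 2)) Z where
  hmono := fun i j hij => H.hmono (by omega)
  ginj := fun i j hij => by
    have := H.ginj hij
    omega
  gx := fun i hi => by
    have := H.ginj hi
    omega
  gb := fun i j => H.gb _ _
  gZ := fun i => H.gZ _
  hZ := fun j => H.hZ _

theorem LfFree_shift' {x : ℚ} {b g h : ℕ → ℚ} {Z : Finset (ℚ × ℚ)} (H : GOK x b g h Z) :
    GOK (g 0) (fun i => b (i + 1)) (fun i => g (i + 1)) (fun i => h (i + 2))
      (Z ∪ {(g 0, h 0), (x, h 0), (g 0, h 1), (b 0, h 1)}) where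
  hmono := (LfFree_shift H).hmono
  ginj := (LfFree_shift H).ginj
  gx := (LfFree_shift H).gx
  gb := (LfFree_shift H).gb
  gZ := fun i => by
    intro hi
    obtain ⟨c, hc⟩ := mem_rws.1 hi
    simp only [Finset.mem_union, Finset.mem_insert, Finset.mem_singleton, Prod.mk.injEq] at hc
    rcases hc with hc | hc | hc | hc | hc
    · exact H.gZ (i + 1) (mem_rws.2 ⟨c, hc⟩)
    · have := H.ginj hc.1
      omega
    · exact H.gx (i + 1) hc.1
    · have := H.ginj hc.1
      omega
    · exact H.gb (i + 1) 0 hc.1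
  hZ := fun j => by
    intro hj
    obtain ⟨c, hc⟩ := mem_cls.1 hj
    simp only [Finset.mem_union, Finset.mem_insert, Finset.mem_singleton, Prod.mk.injEq] at hc
    rcases hc with hc | hc | hc | hc | hc
    · exact H.hZ (j + 2) (mem_cls.2 ⟨c, hc⟩)
    all_goals
      have := H.hmono.injective hc.2
      omega

theorem LfFree_four {A : RF (ℚ × ℚ)} (hc : CI A 1) (hr : RI A 2) {x : ℚ} {b g h : ℕ → ℚ}
    {Z : Finset (ℚ × ℚ)} (H : GOK x b g h Z) :
    A.r (Z ∪ {(g 0, h 0), (x, h 0), (g 0, h 1), (b 0, h 1)}) = A.r Z + 4 := by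
  have e : Z ∪ {(g 0, h 0), (x, h 0), (g 0, h 1), (b 0, h 1)} =
      insert (g 0, h 0) (insert (g 0, h 1) (insert (x, h 0) (insert (b 0, h 1) Z))) := by
    ext z
    simp only [Finset.mem_union, Finset.mem_insert, Finset.mem_singleton]
    tauto
  have h01 : h 0 ≠ h 1 := by
    intro h2
    have := H.hmono.injective h2
    omega
  have h1 : h 1 ∉ cls Z := H.hZ 1
  have h2 : h 0 ∉ cls (insert (b 0, h 1) Z) := by
    rw [cls_insert, Finset.mem_insert]
    rintro (h3 | h3)
    · exact h01 h3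
    · exact H.hZ 0 h3
  have h3 : g 0 ∉ rws (insert (x, h 0) (insert (b 0, h 1) Z)) := by
    rw [rws_insert, rws_insert, Finset.mem_insert, Finset.mem_insert]
    rintro (h3 | h3 | h3)
    · exact H.gx 0 h3
    · exact H.gb 0 0 h3
    · exact H.gZ 0 h3
  rw [e, hr.two h3 h01, hc.one h2, hc.one h1]

/-- The gadget without its last element is free.

Proof.  Induction on `p` for all `x, b, g, h, Z`.  `p = 0`: `CI.one`.  `p + 1`: let
`Z' = Z ∪ {(g 0, h 0), (x, h 0), (g 0, h 1), (b 0, h 1)}`.  `A.r Z' = A.r Z + 4`: `CI.one` for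
`(x, h 0)` and `(b 0, h 1)`, then `RI.two` for the row `g 0` and the columns `h 0`, `h 1` (the row
`g 0` is not used by `Z`, `x ≠ g 0`, `b 0 ≠ g 0`).  `GOK (g 0) (b ∘ succ) (g ∘ succ) (h ∘ (+ 2)) Z'`
holds, use the induction hypothesis. -/
theorem gadL_free {A : RF (ℚ × ℚ)} (hc : CI A 1) (hr : RI A 2) (p : ℕ) :
    ∀ (x : ℚ) (b g h : ℕ → ℚ) (Z : Finset (ℚ × ℚ)), GOK x b g h Z →
      A.r (Z ∪ gadL p x b g h) = A.r Z + (4 * p + 1) := by
  induction p with
  | zero =>
    intro x b g h Z H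
    simp only [gadL]
    have e : Z ∪ {(x, h 0)} = insert (x, h 0) Z := by
      rw [Finset.union_comm]
      rfl
    rw [e, hc.one (H.hZ 0)]
  | succ p ih =>
    intro x b g h Z H
    simp only [gadL]
    rw [← Finset.union_assoc, ih _ _ _ _ _ (LfFree_shift' H), LfFree_four hc hr H]
    ring

/-- The gadget without its first column is free.

Proof.  Induction on `p` for all `b, g, h, Z` (`x` plays no role).  `p = 0`: trivial.  `p + 1`: let
`b', g', h'` be the shifted sequences, `z = gadZ p b' g'` (`b 1` or `g 1`).  By `gad_eq_T`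
`gadT (p + 1) b g h` is the union of `{(g 0, h 1), (g 0, h 2)}`, `{(b 0, h 1), (z, h 2)}` and
`gadT p b' g' h'`.  Let `P = Z ∪ gadT p b' g' h'`, `A.r P = A.r Z + 4 * p` (induction hypothesis).
The columns of `P` are columns of `Z` or `h j` with `j ≥ 3` (`cls_gadT`), so by `CI.one`
`A.r (insert (b 0, h 1) (insert (z, h 2) P)) = A.r P + 2`; the row `g 0` is not used by this set
(`rws_gadT`), so `RI.two` for the row `g 0` and the columns `h 1`, `h 2`. -/
theorem gadT_free {A : RF (ℚ × ℚ)} (hc : CI A 1) (hr : RI A 2) (p : ℕ) :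
    ∀ (x : ℚ) (b g h : ℕ → ℚ) (Z : Finset (ℚ × ℚ)), GOK x b g h Z →
      A.r (Z ∪ gadT p b g h) = A.r Z + 4 * p := by
  induction p with
  | zero =>
    intro x b g h Z _
    simp [gadT]
  | succ p ih =>
    intro x b g h Z H
    have ihP := ih _ _ _ _ _ (LfFree_shift H)
    set P := Z ∪ gadT p (fun i => b (i + 1)) (fun i => g (i + 1)) (fun i => h (i + 2)) with hP
    set z := gadZ p (fun i => b (i + 1)) (fun i => g (i + 1)) with hz
    have e : Z ∪ gadT (p + 1) b g h =
        insert (g 0, h 1) (insert (g 0, h 2) (insert (b 0, h 1) (insert (z, h 2) P))) := by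
      simp only [gadT]
      rw [gad_eq_T]
      ext y
      simp only [hP, Finset.mem_union, Finset.mem_insert, Finset.mem_singleton, Nat.zero_add]
      tauto
    have hne : ∀ i j : ℕ, i ≠ j → h i ≠ h j := fun i j hij h2 => hij (H.hmono.injective h2)
    have hgne : ∀ i j : ℕ, i ≠ j → g i ≠ g j := fun i j hij h2 => hij (H.ginj h2)
    have hcP : ∀ j, j = 1 ∨ j = 2 → h j ∉ cls P := by
      intro j hj h3
      rw [hP, cls_union, Finset.mem_union] at h3
      rcases h3 with h3 | h3
      · exact H.hZ j h3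
      · obtain ⟨i, hi, -, hi'⟩ := cls_gadT _ _ _ _ _ h3
        exact hne j (i + 2) (by omega) hi'
    have hrP : g 0 ∉ rws P := by
      intro h3
      rw [hP, rws_union, Finset.mem_union] at h3
      rcases h3 with h3 | h3
      · exact H.gZ 0 h3
      · rcases rws_gadT _ _ _ _ _ h3 with ⟨i, -, hi⟩ | ⟨i, -, hi⟩
        · exact H.gb 0 _ hi
        · exact hgne 0 (i + 1) (by omega) hi
    have hgz : g 0 ≠ z := by
      rw [hz]
      cases p with
      | zero => exact H.gb 0 _
      | succ p => exact hgne 0 1 (by omega)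
    have h1 : h 2 ∉ cls P := hcP 2 (Or.inr rfl)
    have h2 : h 1 ∉ cls (insert (z, h 2) P) := by
      rw [cls_insert, Finset.mem_insert]
      rintro (h3 | h3)
      · exact hne 1 2 (by omega) h3
      · exact hcP 1 (Or.inl rfl) h3
    have h3 : g 0 ∉ rws (insert (b 0, h 1) (insert (z, h 2) P)) := by
      rw [rws_insert, rws_insert, Finset.mem_insert, Finset.mem_insert]
      rintro (h3 | h3 | h3)
      · exact H.gb 0 0 h3
      · exact hgz h3
      · exact hrP h3
    rw [e, hr.two h3 (hne 1 2 (by omega)), hc.one h2, hc.one h1, ihP]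
    ring

end Pool.Agent.H.MP_60a1a2_co
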