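import Pool.Agent.H.MP_60a1a2_co.LfBase

/-! # Arrays: gadgets

`gad p x b g h`: rows `x, b 0, ..., b p` (base), `g 0, ..., g (p - 1)` (private), columns
`h 0, ..., h (2 * p)` (private). -/

set_option autoImplicit false

namespace Pool.Agent.H.MP_60a1a2_co

/-- the gadget -/
def gad : ℕ → ℚ → (ℕ → ℚ) → (ℕ → ℚ) → (ℕ → ℚ) → Finset (ℚ × ℚ)
  | 0, x, b, _, h => {(x, h 0), (b 0, h 0)}
  | p + 1, x, b, g, h => {(g 0, h 0), (x, h 0), (g 0, h 1), (b 0, h 1)} ∪
      gad p (g 0) (fun i => b (i + 1)) (fun i => g (i + 1)) (fun i => h (i + 2))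

/-- the gadget without its last element `(b p, h (2 * p))` -/
def gadL : ℕ → ℚ → (ℕ → ℚ) → (ℕ → ℚ) → (ℕ → ℚ) → Finset (ℚ × ℚ)
  | 0, x, _, _, h => {(x, h 0)}
  | p + 1, x, b, g, h => {(g 0, h 0), (x, h 0), (g 0, h 1), (b 0, h 1)} ∪
      gadL p (g 0) (fun i => b (i + 1)) (fun i => g (i + 1)) (fun i => h (i + 2))

/-- the gadget without the two elements of its first column -/
def gadT : ℕ → (ℕ → ℚ) → (ℕ → ℚ) → (ℕ → ℚ) → Finset (ℚ × ℚ)
  | 0, _, _, _ => ∅
  | p + 1, b, g, h => {(g 0, h 1), (b 0, h 1)} ∪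
      gad p (g 0) (fun i => b (i + 1)) (fun i => g (i + 1)) (fun i => h (i + 2))

/-- the other row of the first column -/
def gadZ : ℕ → (ℕ → ℚ) → (ℕ → ℚ) → ℚ
  | 0, b, _ => b 0
  | _ + 1, _, g => g 0

/-- Proof: cases on `p`. -/
theorem gad_eq_T (p : ℕ) (x : ℚ) (b g h : ℕ → ℚ) :
    gad p x b g h = {(x, h 0), (gadZ p b g, h 0)} ∪ gadT p b g h := by
  cases p with
  | zero =>
    simp [gad, gadZ, gadT]
  | succ p =>
    ext z
    simp only [gad, gadZ, gadT, Finset.mem_union, Finset.mem_insert, Finset.mem_singleton]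
    tauto

/-- Proof: induction on `p`. -/
theorem gad_eq_L (p : ℕ) : ∀ (x : ℚ) (b g h : ℕ → ℚ),
    gad p x b g h = insert (b p, h (2 * p)) (gadL p x b g h) := by
  induction p with
  | zero =>
    intro x b g h
    simp only [gad, gadL, Nat.mul_zero]
    exact Finset.pair_comm _ _
  | succ p ih =>
    intro x b g h
    have h2 : 2 * (p + 1) = 2 * p + 2 := by ring
    simp only [gad, gadL]
    rw [ih, h2]
    ext z
    simp only [Finset.mem_union, Finset.mem_insert, Finset.mem_singleton]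
    tauto

/-- The columns of the gadget: induction on `p`. -/
theorem cls_gad (p : ℕ) : ∀ (x : ℚ) (b g h : ℕ → ℚ), ∀ c ∈ cls (gad p x b g h),
    ∃ j ≤ 2 * p, c = h j := by
  induction p with
  | zero =>
    intro x b g h c hc
    obtain ⟨a, ha⟩ := mem_cls.1 hc
    simp only [gad, Finset.mem_insert, Finset.mem_singleton, Prod.mk.injEq] at ha
    refine ⟨0, Nat.zero_le _, ?_⟩
    rcases ha with ha | ha
    · exact ha.2
    · exact ha.2
  | succ p ih =>
    intro x b g h c hc
    simp only [gad] at hc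
    rw [cls_union, Finset.mem_union] at hc
    rcases hc with hc | hc
    · obtain ⟨a, ha⟩ := mem_cls.1 hc
      simp only [Finset.mem_insert, Finset.mem_singleton, Prod.mk.injEq] at ha
      rcases ha with ha | ha | ha | ha
      · exact ⟨0, Nat.zero_le _, ha.2⟩
      · exact ⟨0, Nat.zero_le _, ha.2⟩
      · exact ⟨1, by omega, ha.2⟩
      · exact ⟨1, by omega, ha.2⟩
    · obtain ⟨j, hj, hj'⟩ := ih _ _ _ _ c hc
      exact ⟨j + 2, by omega, hj'⟩

/-- The rows of the gadget: induction on `p`. -/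
theorem rws_gad (p : ℕ) : ∀ (x : ℚ) (b g h : ℕ → ℚ), ∀ r ∈ rws (gad p x b g h),
    r = x ∨ (∃ i ≤ p, r = b i) ∨ ∃ i < p, r = g i := by
  induction p with
  | zero =>
    intro x b g h c hc
    obtain ⟨a, ha⟩ := mem_rws.1 hc
    simp only [gad, Finset.mem_insert, Finset.mem_singleton, Prod.mk.injEq] at ha
    rcases ha with ha | ha
    · exact Or.inl ha.1
    · exact Or.inr (Or.inl ⟨0, le_rfl, ha.1⟩)
  | succ p ih =>
    intro x b g h c hc
    simp only [gad] at hc
    rw [rws_union, Finset.mem_union] at hc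
    rcases hc with hc | hc
    · obtain ⟨a, ha⟩ := mem_rws.1 hc
      simp only [Finset.mem_insert, Finset.mem_singleton, Prod.mk.injEq] at ha
      rcases ha with ha | ha | ha | ha
      · exact Or.inr (Or.inr ⟨0, by omega, ha.1⟩)
      · exact Or.inl ha.1
      · exact Or.inr (Or.inr ⟨0, by omega, ha.1⟩)
      · exact Or.inr (Or.inl ⟨0, Nat.zero_le _, ha.1⟩)
    · rcases ih _ _ _ _ c hc with h1 | ⟨i, hi, hi'⟩ | ⟨i, hi, hi'⟩
      · exact Or.inr (Or.inr ⟨0, by omega, h1⟩)
      · exact Or.inr (Or.inl ⟨i + 1, by omega, hi'⟩)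
      · exact Or.inr (Or.inr ⟨i + 1, by omega, hi'⟩)

/-- The columns of `gadT`: cases on `p`. -/
theorem cls_gadT (p : ℕ) (b g h : ℕ → ℚ) : ∀ c ∈ cls (gadT p b g h),
    ∃ j, 0 < j ∧ j ≤ 2 * p ∧ c = h j := by
  cases p with
  | zero =>
    intro c hc
    obtain ⟨a, ha⟩ := mem_cls.1 hc
    simp [gadT] at ha
  | succ p =>
    intro c hc
    simp only [gadT] at hc
    rw [cls_union, Finset.mem_union] at hc
    rcases hc with hc | hc
    · obtain ⟨a, ha⟩ := mem_cls.1 hc
      simp only [Finset.mem_insert, Finset.mem_singleton, Prod.mk.injEq] at ha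
      rcases ha with ha | ha
      · exact ⟨1, by omega, by omega, ha.2⟩
      · exact ⟨1, by omega, by omega, ha.2⟩
    · obtain ⟨j, hj, hj'⟩ := cls_gad _ _ _ _ _ c hc
      exact ⟨j + 2, by omega, by omega, hj'⟩

/-- The rows of `gadT`: cases on `p`. -/
theorem rws_gadT (p : ℕ) (b g h : ℕ → ℚ) : ∀ r ∈ rws (gadT p b g h),
    (∃ i ≤ p, r = b i) ∨ ∃ i < p, r = g i := by
  cases p with
  | zero =>
    intro c hc
    obtain ⟨a, ha⟩ := mem_rws.1 hc
    simp [gadT] at ha
  | succ p =>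
    intro c hc
    simp only [gadT] at hc
    rw [rws_union, Finset.mem_union] at hc
    rcases hc with hc | hc
    · obtain ⟨a, ha⟩ := mem_rws.1 hc
      simp only [Finset.mem_insert, Finset.mem_singleton, Prod.mk.injEq] at ha
      rcases ha with ha | ha
      · exact Or.inr ⟨0, by omega, ha.1⟩
      · exact Or.inl ⟨0, by omega, ha.1⟩
    · rcases rws_gad _ _ _ _ _ c hc with h1 | ⟨i, hi, hi'⟩ | ⟨i, hi, hi'⟩
      · exact Or.inr ⟨0, by omega, h1⟩
      · exact Or.inl ⟨i + 1, by omega, hi'⟩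
      · exact Or.inr ⟨i + 1, by omega, hi'⟩

/-- Moving a gadget: induction on `p`. -/
theorem mv_gad (φ ψ : ℚ → ℚ) (p : ℕ) : ∀ (x : ℚ) (b g h : ℕ → ℚ),
    mv φ ψ (gad p x b g h) =
      gad p (φ x) (fun i => φ (b i)) (fun i => φ (g i)) (fun i => ψ (h i)) := by
  induction p with
  | zero =>
    intro x b g h
    simp only [gad, mv_insert]
    simp [mv]
  | succ p ih =>
    intro x b g h
    simp only [gad, mv_union, mv_insert, ih]
    simp [mv]

/-- gadgets which agree on the used rows and columns: induction on `p`. -/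
theorem gad_congr (p : ℕ) : ∀ (x : ℚ) (b g h b' g' h' : ℕ → ℚ), (∀ i ≤ p, b i = b' i) →
    (∀ i < p, g i = g' i) → (∀ i ≤ 2 * p, h i = h' i) → gad p x b g h = gad p x b' g' h' := by
  induction p with
  | zero =>
    intro x b g h b' g' h' hb hg hh
    simp only [gad]
    rw [hb 0 le_rfl, hh 0 (by omega)]
  | succ p ih =>
    intro x b g h b' g' h' hb hg hh
    simp only [gad]
    rw [hb 0 (by omega), hh 0 (by omega), hh 1 (by omega), hg 0 (by omega)]
    rw [ih (g' 0) (fun i => b (i + 1)) (fun i => g (i + 1)) (fun i => h (i + 2))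
      (fun i => b' (i + 1)) (fun i => g' (i + 1)) (fun i => h' (i + 2))
      (fun i hi => hb (i + 1) (by omega)) (fun i hi => hg (i + 1) (by omega))
      (fun i hi => hh (i + 2) (by omega))]

end Pool.Agent.H.MP_60a1a2_co
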