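import Pool.Agent.H.MP_60a1a2_co.Pre

/-! # Connectivity between two sets -/

set_option autoImplicit false

namespace Pool.Agent.H.MP_60a1a2_co

variable {α : Type*} [DecidableEq α]

/-- the connectivity between `A` and `B` in `M`, on the ground set `E`, is at least `n` -/
def Kap (M : RF α) (E A B : Finset α) (n : ℕ) : Prop :=
  ∀ X, A ⊆ X → X ⊆ E → Disjoint X B → n + M.r E ≤ M.r X + M.r (E \ X)

theorem Kap.le {M : RF α} {E A B : Finset α} {n n' : ℕ} (h : Kap M E A B n) (hn : n' ≤ n) :
    Kap M E A B n' := by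
  intro X h1 h2 h3
  have := h X h1 h2 h3
  omega

theorem lfKap_zero (M : RF α) (E X : Finset α) (hX : X ⊆ E) :
    M.r E ≤ M.r X + M.r (E \ X) := by
  have h := M.r_union_le X (E \ X)
  rwa [Finset.union_sdiff_of_subset hX] at h

theorem lfKap_nonempty {N : RF α} {F : Finset α} {e : ℕ → ℕ → α} {V : Finset ℕ} {q : ℕ}
    (hF : F ⊆ ed e V) (hq : q ≤ N.r F) (h0 : 0 < q) : V.Nonempty := by
  rcases V.eq_empty_or_nonempty with h1 | h1
  · exfalso
    subst h1
    have h2 : F = ∅ := by
      have h3 : ed e ∅ = ∅ := by simp [ed]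
      rw [h3] at hF
      exact Finset.subset_empty.1 hF
    rw [h2, N.r_empty] at hq
    omega
  · exact h1

/-- Parts of a clique with large rank are highly connected.

Proof.  (Compare the proof of `pre` in `Pre.lean`.)  If `q = 0` use `r_union_le`.  Let `q > 0`, so
`V` is nonempty.  Let `F ⊆ X ⊆ E` be disjoint from `B` and suppose
`M.r X + M.r (E \ X) < q + M.r E`.  Let `K = M.con C`.  `minor_conn'` (with `E1 = ed e V`, `A = X`)
gives `K.r (X ∩ ed e V) + K.r (ed e V \ X) < q + K.r (ed e V) = q + V.card - 1`.  By `IsK.compl` one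
of the two sets has rank `V.card - 1`; if it is `ed e V \ X` then `K.r (X ∩ ed e V) < q`, but
`F ⊆ X ∩ ed e V` has rank at least `q`.  So `K.r (ed e V \ X) < q`; by `IsK.touched` and `ed_card_le`
`(ed e V \ X).card ≤ (2 * q) * (2 * q)`.  Apply `hk` to `X ∪ ed e V = X ∪ (ed e V \ X)`:
`n + M.r E ≤ M.r X + 4 * q * q + M.r (E \ X) < 4 * q * q + q + M.r E`, a contradiction. -/
theorem kap_sub {M : RF α} {E C B F : Finset α} {e : ℕ → ℕ → α} {V : Finset ℕ} {n q : ℕ}
    (hC : C ⊆ E) (hE : ed e V ⊆ E \ C) (hK : IsK (M.con C) e V) (hd : Disjoint (ed e V) B)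
    (hk : Kap M E (ed e V) B n) (hF : F ⊆ ed e V) (hq : q ≤ (M.con C).r F)
    (hn : 4 * q * q + q ≤ n) : Kap M E F B q := by
  intro X hX hXE hXd
  rcases Nat.eq_zero_or_pos q with h0 | h0
  · subst h0
    have := lfKap_zero M E X hXE
    omega
  · by_contra hcon
    have hcon' := not_le.1 hcon
    have hVne : V.Nonempty := lfKap_nonempty hF hq h0
    have hKr := hK.rank hVne
    have hm1 := minor_conn' M E C (ed e V) X hC hE hXE
    set K := M.con C with hKdef
    have hsub : F ⊆ X ∩ ed e V := Finset.subset_inter hX hF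
    have hmon := K.mono hsub
    have hsd : ed e V \ (X ∩ ed e V) = ed e V \ X := by
      ext a; simp only [Finset.mem_sdiff, Finset.mem_inter]; tauto
    have hcomp := hK.compl hVne (Z := X ∩ ed e V) Finset.inter_subset_right
    rw [hsd] at hcomp
    have hsmall : K.r (ed e V \ X) ≤ q := by
      rcases hcomp with h2 | h2
      · omega
      · omega
    obtain ⟨T, hT, hTc, hTs⟩ := hK.touched (Z := ed e V \ X) Finset.sdiff_subset
    have hc1 : (ed e V \ X).card ≤ (2 * q) * (2 * q) :=
      (Finset.card_le_card hTs).trans ((ed_card_le e T).trans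
        (Nat.mul_le_mul (by omega) (by omega)))
    have hc2 : (2 * q) * (2 * q) = 4 * q * q := by ring
    have hX' := hk (X ∪ ed e V) Finset.subset_union_right
      (Finset.union_subset hXE (hE.trans Finset.sdiff_subset))
      (Finset.disjoint_union_left.2 ⟨hXd, hd⟩)
    have hu : X ∪ ed e V = X ∪ (ed e V \ X) := by
      ext a; simp only [Finset.mem_union, Finset.mem_sdiff]; tauto
    have h3 : M.r (X ∪ ed e V) ≤ M.r X + (ed e V \ X).card := by
      rw [hu]
      exact M.r_union_le_card _ _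
    have h4 : M.r (E \ (X ∪ ed e V)) ≤ M.r (E \ X) :=
      M.mono (Finset.sdiff_subset_sdiff (Finset.Subset.refl E) Finset.subset_union_left)
    omega

/-- The dual statement.

Proof.  As `kap_sub` with `minor_conn` (from `MinConn.lean`) and `D = (M.con C).dual (ed e W)` in the
place of `K`.  Let `A ⊆ X ⊆ E` be disjoint from `F` and `M.r X + M.r (E \ X) < q + M.r E`, then
`D.r (X ∩ ed e W) + D.r (ed e W \ X) < q + D.r (ed e W)`.  `F ⊆ ed e W \ X`, so the second number is
at least `q`; so by `IsK.compl` the second set has rank `W.card - 1` and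
`D.r (X ∩ ed e W) < q`, `(X ∩ ed e W).card ≤ (2 * q) * (2 * q)`.  Apply `hk` to `X \ ed e W`
(`A ⊆ X \ ed e W` by `hd`): `M.r (X \ ed e W) ≤ M.r X` and
`M.r (E \ (X \ ed e W)) ≤ M.r (E \ X) + (X ∩ ed e W).card`. -/
theorem kap_sub_dual {M : RF α} {E C A F : Finset α} {e : ℕ → ℕ → α} {W : Finset ℕ} {n q : ℕ}
    (hC : C ⊆ E) (hE : ed e W ⊆ E \ C) (hK : IsK ((M.con C).dual (ed e W)) e W)
    (hd : Disjoint A (ed e W)) (hk : Kap M E A (ed e W) n) (hF : F ⊆ ed e W)
    (hq : q ≤ ((M.con C).dual (ed e W)).r F) (hn : 4 * q * q + q ≤ n) : Kap M E A F q := by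
  intro X hX hXE hXd
  rcases Nat.eq_zero_or_pos q with h0 | h0
  · subst h0
    have := lfKap_zero M E X hXE
    omega
  · by_contra hcon
    have hcon' := not_le.1 hcon
    have hWne : W.Nonempty := lfKap_nonempty hF hq h0
    have hKr := hK.rank hWne
    have hm1 := minor_conn M E C (ed e W) X hC hE hXE
    set D := (M.con C).dual (ed e W) with hDdef
    have hsub : F ⊆ ed e W \ X := by
      intro x hx
      rw [Finset.mem_sdiff]
      exact ⟨hF hx, fun h => Finset.disjoint_left.1 hXd h hx⟩
    have hmon := D.mono hsub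
    have hsd : ed e W \ (X ∩ ed e W) = ed e W \ X := by
      ext a; simp only [Finset.mem_sdiff, Finset.mem_inter]; tauto
    have hcomp := hK.compl hWne (Z := X ∩ ed e W) Finset.inter_subset_right
    rw [hsd] at hcomp
    have hsmall : D.r (X ∩ ed e W) ≤ q := by
      rcases hcomp with h2 | h2
      · omega
      · omega
    obtain ⟨T, hT, hTc, hTs⟩ := hK.touched (Z := X ∩ ed e W) Finset.inter_subset_right
    have hc1 : (X ∩ ed e W).card ≤ (2 * q) * (2 * q) :=
      (Finset.card_le_card hTs).trans ((ed_card_le e T).trans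
        (Nat.mul_le_mul (by omega) (by omega)))
    have hc2 : (2 * q) * (2 * q) = 4 * q * q := by ring
    have hX' := hk (X \ ed e W) (by
        intro x hx
        rw [Finset.mem_sdiff]
        exact ⟨hX hx, fun h => Finset.disjoint_left.1 hd hx h⟩)
      (Finset.sdiff_subset.trans hXE)
      Finset.sdiff_disjoint
    have h3 : M.r (X \ ed e W) ≤ M.r X := M.mono Finset.sdiff_subset
    have h4 : M.r (E \ (X \ ed e W)) ≤ M.r (E \ X) + (X ∩ ed e W).card := by
      refine (M.mono ?_).trans (M.r_union_le_card _ _)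
      intro a
      simp only [Finset.mem_union, Finset.mem_sdiff, Finset.mem_inter]
      tauto
    omega

/-- Contraction of a part of the first set.

Proof.  For `A ⊆ X ⊆ E \ F` disjoint from `B`: by `con_add`
`(M.con F).r X + M.r F = M.r (X ∪ F)`, `(M.con F).r ((E \ F) \ X) + M.r F =
M.r (((E \ F) \ X) ∪ F) ≥ M.r (E \ (X ∪ F))`, `(M.con F).r (E \ F) + M.r F = M.r E`; apply `hk` to
`X ∪ F`. -/
theorem kap_con {M : RF α} {E F A B : Finset α} {m : ℕ} (hF : F ⊆ E) (hFB : Disjoint F B)
    (hk : Kap M E (F ∪ A) B (M.r F + m)) : Kap (M.con F) (E \ F) A B m := by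
  intro X hX hXE hXd
  have a1 := M.con_add F X
  have a2 := M.con_add F ((E \ F) \ X)
  have a3 := M.con_add F (E \ F)
  rw [Finset.sdiff_union_of_subset hF] at a3
  have h1 := hk (X ∪ F) (by
      intro x hx
      rw [Finset.mem_union] at hx ⊢
      rcases hx with hx | hx
      · exact Or.inr hx
      · exact Or.inl (hX hx))
    (Finset.union_subset (hXE.trans Finset.sdiff_subset) hF)
    (Finset.disjoint_union_left.2 ⟨hXd, hFB⟩)
  have h2 : M.r (E \ (X ∪ F)) ≤ M.r (((E \ F) \ X) ∪ F) := by
    apply M.mono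
    intro a
    simp only [Finset.mem_union, Finset.mem_sdiff]
    tauto
  omega

end Pool.Agent.H.MP_60a1a2_co
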