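import Pool.Agent.H.MP_60a1a2_co.LfLTz
import Pool.Agent.H.MP_60a1a2_co.LfCocl
import Pool.Agent.H.MP_60a1a2_co.LfKap
import Pool.Agent.H.MP_60a1a2_co.LfFin

/-! # The lift theorem for rank functions -/

set_option autoImplicit false

namespace Pool.Agent.H.MP_60a1a2_co

/-- The lift theorem: the conclusion holds if the edges of every `s` vertices of the clique are
dependent in `M`.

Proof.  `n1` from `mainRF k 0`, `a0` from `lt0 k s n1`, `q = a0 * a0 + n1`, `B = 4 * q * q + q`, `nW`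
from `con_cocl k (a0 * a0) (B + n1 + 1)`, `n = a0 + nW + (4 * B * B + B)`.
Let the configuration be given (`Conf.kap` is `Kap M E (ed e1 V) (ed e2 W) n`).  Let `V0 ⊆ V` with
`V0.card = a0` (`Finset.exists_subset_card_eq`).  `Lift M (M.con C1) e1 V0`: as in `pre` (`Pre.lean`).
`lt0` for `L = M`, `K = M.con C1`, `V0` (`IsK.sub`): if `HasM M (ed e1 V0) (unif k)` then `HasM.mono`
and `Fin2.of_unif`.  Otherwise we have `F`, `V'`, `e'`; `F.card ≤ a0 * a0` (`ed_card_le`), so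
`M.r F ≤ a0 * a0`.  `con_cocl` for `D = F` (disjoint from `ed e2 W` because `F ⊆ ed e1 V`): if
`HasM M E (unif k)` then `Fin2.of_unif`; otherwise `F2`, `W3`.
`Kap M E (ed e1 V) (ed e2 W3) B` by `kap_sub_dual` (the rank of `ed e2 W3` in the dual is
`W3.card - 1 ≥ B`, `IsK.sub`, `IsK.rank`).  `Kap M E (F ∪ ed e' V') (ed e2 W3) (M.r F + n1)` by
`kap_sub` (`M.r F + n1 ≤ q`, so `4 * .. + .. ≤ B`).  `kap_con` gives
`Kap (M.con F) (E \ F) (ed e' V') (ed e2 W3) n1`.  So
`Conf (M.con F) (E \ F) ∅ ((C2 ∪ (ed e2 W \ (F2 ∪ ed e2 W3))) \ F) e' V' e2 W3 n1`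
(`Reduce_con_empty`; `(M.con F).con (X \ F) = M.con (F ∪ X)` by `con_con_eq`, this set is
`C2 ∪ F ∪ (ed e2 W \ (F2 ∪ ed e2 W3))`).  `mainRF` (with `Finset.card_empty`) gives
`Fin2 (M.con F) (E \ F) k`, use `Fin2.of_con`. -/
theorem lift_main.{u} (k s : ℕ) : ∃ n : ℕ, ∀ {α : Type u} [DecidableEq α] (M : RF α)
    (E C1 C2 : Finset α) (e1 : ℕ → ℕ → α) (V : Finset ℕ) (e2 : ℕ → ℕ → α) (W : Finset ℕ),
    Conf M E C1 C2 e1 V e2 W n → n ≤ V.card →
    (∀ V0 ⊆ V, V0.card = s → M.r (ed e1 V0) < (ed e1 V0).card) → Fin2 M E k := by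
  obtain ⟨n1, hn1⟩ := mainRF.{u} k 0
  obtain ⟨a0, ha0⟩ := lt0.{u} k s n1
  obtain ⟨nW, hnW⟩ := con_cocl.{u} k (a0 * a0)
    ((4 * (a0 * a0 + n1) * (a0 * a0 + n1) + (a0 * a0 + n1)) + n1 + 1)
  refine ⟨a0 + nW + (4 * (4 * (a0 * a0 + n1) * (a0 * a0 + n1) + (a0 * a0 + n1)) *
    (4 * (a0 * a0 + n1) * (a0 * a0 + n1) + (a0 * a0 + n1)) +
    (4 * (a0 * a0 + n1) * (a0 * a0 + n1) + (a0 * a0 + n1))), ?_⟩
  intro α _ M E C1 C2 e1 V e2 W hc hV hs
  generalize hB : 4 * (a0 * a0 + n1) * (a0 * a0 + n1) + (a0 * a0 + n1) = B at hnW hc hV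
  have hcW := hc.cardW
  obtain ⟨V0, hV0, hV0c⟩ := Finset.exists_subset_card_eq (s := V) (n := a0) (by omega)
  have hE1E : ed e1 V ⊆ E := hc.hE1.trans Finset.sdiff_subset
  have hE2E : ed e2 W ⊆ E := hc.hE2.trans Finset.sdiff_subset
  have hL : Lift M (M.con C1) e1 V0 := by
    intro X Y hXY hY
    have b1 := M.con_add C1 X
    have b2 := M.con_add C1 Y
    have b4 := M.incr hXY C1
    omega
  rcases ha0 M (M.con C1) e1 V0 (hc.clq.sub hV0) (by omega) hL
    (fun U hU hUc => hs U (hU.trans hV0) hUc) with h | ⟨F, V', e', hFV, hFd, hV', hclq, hrk⟩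
  · exact Fin2.of_unif (HasM.mono ((ed_mono hV0).trans hE1E) h)
  · have hF1 : F ⊆ ed e1 V0 := Finset.subset_union_left.trans hFV
    have hF2 : F ⊆ ed e1 V := hF1.trans (ed_mono hV0)
    have he' : ed e' V' ⊆ ed e1 V := (Finset.subset_union_right.trans hFV).trans (ed_mono hV0)
    have hFE : F ⊆ E := hF2.trans hE1E
    have hFc : F.card ≤ a0 * a0 := by
      have h1 := (Finset.card_le_card hF1).trans (ed_card_le e1 V0)
      rwa [hV0c] at h1
    have hFr : M.r F ≤ a0 * a0 := (M.le_card F).trans hFc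
    have hFW : Disjoint F (ed e2 W) := Finset.disjoint_of_subset_left hF2 hc.dsj
    rcases hnW M E C2 F e2 W hc.hC2 hc.hE2 hc.cocl (by omega) hFE hFW hFc with
      h | ⟨F2, W3, hW3, hW3c, hF2W, hF2d, hF2c, hcoc⟩
    · exact Fin2.of_unif h
    · have hW3s : ed e2 W3 ⊆ ed e2 W := ed_mono hW3
      have hW3ne : W3.Nonempty := by
        rw [← Finset.card_pos]; omega
      have hrW3 := (hc.cocl.sub hW3).rank hW3ne
      have hk1 : Kap M E (ed e1 V) (ed e2 W3) B :=
        kap_sub_dual hc.hC2 hc.hE2 hc.cocl hc.dsj hc.kap hW3s (by omega) (by omega)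
      have hq : M.r F + n1 ≤ a0 * a0 + n1 := by omega
      have hk2 : Kap M E (F ∪ ed e' V') (ed e2 W3) (M.r F + n1) := by
        refine kap_sub hc.hC1 hc.hE1 hc.clq (Finset.disjoint_of_subset_right hW3s hc.dsj) hk1
          (hFV.trans (ed_mono hV0)) hrk ?_
        rw [← hB]
        exact Nat.add_le_add (Nat.mul_le_mul (Nat.mul_le_mul_left 4 hq) hq) hq
      have hFW3 : Disjoint F (ed e2 W3) := Finset.disjoint_of_subset_right hW3s hFW
      have hk3 : Kap (M.con F) (E \ F) (ed e' V') (ed e2 W3) n1 := kap_con hFE hFW3 hk2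
      have hset : F ∪ ((C2 ∪ (ed e2 W \ (F2 ∪ ed e2 W3))) \ F) =
          C2 ∪ F ∪ (ed e2 W \ (F2 ∪ ed e2 W3)) := by
        ext x
        simp only [Finset.mem_union, Finset.mem_sdiff]
        tauto
      have hconf : Conf (M.con F) (E \ F) ∅ ((C2 ∪ (ed e2 W \ (F2 ∪ ed e2 W3))) \ F) e' V'
          e2 W3 n1 := by
        refine ⟨Finset.empty_subset _, ?_, ?_, ?_, ?_, ?_, ?_, hk3, by omega⟩
        · rw [Finset.sdiff_empty]
          intro x hx
          rw [Finset.mem_sdiff]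
          exact ⟨hE1E (he' hx), fun h => Finset.disjoint_left.1 hFd h hx⟩
        · rw [Reduce_con_empty]
          exact hclq
        · refine Finset.sdiff_subset_sdiff (Finset.union_subset hc.hC2
            (Finset.sdiff_subset.trans hE2E)) (Finset.Subset.refl F)
        · intro x hx
          have h1 := Finset.mem_sdiff.1 (hc.hE2 (hW3s hx))
          rw [Finset.mem_sdiff, Finset.mem_sdiff]
          refine ⟨⟨h1.1, fun h => Finset.disjoint_left.1 hFW3 h hx⟩, fun h => ?_⟩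
          rcases Finset.mem_union.1 (Finset.mem_sdiff.1 h).1 with h2 | h2
          · exact h1.2 h2
          · exact (Finset.mem_sdiff.1 h2).2 (Finset.mem_union_right _ hx)
        · rw [RF.con_con_eq, hset]
          exact hcoc
        · exact Finset.disjoint_of_subset_left he' (Finset.disjoint_of_subset_right hW3s hc.dsj)
      exact Fin2.of_con hFE (hn1 (M.con F) (E \ F) ∅ _ e' V' e2 W3 hconf
        (by rw [Finset.card_empty]))

end Pool.Agent.H.MP_60a1a2_co
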