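import Pool.Agent.H.MP_60a1a2_co.LfRam

/-! # Limits of rank functions -/

set_option autoImplicit false

namespace Pool.Agent.H.MP_60a1a2_co

/-- The ultrafilter limit of a sequence of rank functions.

Proof.  Let `U = Filter.hyperfilter ℕ` (compare the proof of `limAS` in `LimAS.lean`).  For every `X`
the values `(g n).r X` are `≤ X.card`, so there is exactly one `v` with `(g n).r X = v` for
`U`-almost all `n`; let `R.r X` be this `v`.  Every axiom concerns finitely many sets, for almost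
all `n` all the values agree.  The last statement: for almost all `n` all values for `X ∈ S` agree,
and `n ≥ N` for almost all `n`. -/
theorem limRF {β : Type} [DecidableEq β] (g : ℕ → RF β) :
    ∃ R : RF β, ∀ (S : Finset (Finset β)) (N : ℕ), ∃ n, N ≤ n ∧ ∀ X ∈ S, (g n).r X = R.r X := by
  let U : Ultrafilter ℕ := Filter.hyperfilter ℕ
  have hU : (U : Filter ℕ) ≤ Filter.atTop := by
    rw [← Nat.cofinite_eq_atTop]
    exact Filter.hyperfilter_le_cofinite
  have hex : ∀ X : Finset β, ∃ v, ∀ᶠ n in (U : Filter ℕ), (g n).r X = v := by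
    intro X
    by_contra hcon
    push Not at hcon
    have h1 : ∀ᶠ n in (U : Filter ℕ), ∀ v ∈ Finset.range (X.card + 1), ¬ (g n).r X = v := by
      rw [Filter.eventually_all_finset]
      intro v _
      exact hcon v
    obtain ⟨n, hn1⟩ := h1.exists
    exact hn1 ((g n).r X) (Finset.mem_range.2 (Nat.lt_succ_of_le ((g n).le_card X))) rfl
  choose v hv using hex
  have key : ∀ (S : Finset (Finset β)) (N : ℕ), ∃ n, N ≤ n ∧ ∀ X ∈ S, (g n).r X = v X := by
    intro S N
    have h1 : ∀ᶠ n in (U : Filter ℕ), ∀ X ∈ S, (g n).r X = v X := by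
      rw [Filter.eventually_all_finset]
      intro X _
      exact hv X
    have h2 : ∀ᶠ n in (U : Filter ℕ), N ≤ n := (Filter.eventually_ge_atTop N).filter_mono hU
    obtain ⟨n, hn1, hn2⟩ := (h1.and h2).exists
    exact ⟨n, hn2, hn1⟩
  refine ⟨⟨v, ?_, ?_, ?_⟩, key⟩
  · intro X
    obtain ⟨n, -, hn⟩ := key {X} 0
    rw [← hn X (Finset.mem_singleton_self _)]
    exact (g n).le_card X
  · intro X Y hXY
    obtain ⟨n, -, hn⟩ := key {X, Y} 0
    rw [← hn X (by simp), ← hn Y (by simp)]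
    exact (g n).mono hXY
  · intro X Y
    obtain ⟨n, -, hn⟩ := key {X ∪ Y, X ∩ Y, X, Y} 0
    rw [← hn X (by simp), ← hn Y (by simp), ← hn (X ∪ Y) (by simp), ← hn (X ∩ Y) (by simp)]
    exact (g n).submod X Y

/-- The homogeneous limit.

Proof.  Let `R1` be the limit of `R` (`limRF`).  For every `N` let `H N` be the infinite set of
`hom_level R1 N` and `o N : ℕ → ℕ` strictly increasing with values in `H N`
(`Nat.orderEmbeddingOfSet` or `Nat.nth`).  Let `R'` be the limit of the sequence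
`g N = R1.map (Prod.map (o N) (o N))`, so `(g N).r X = R1.r (mp (o N) X)`.
* `PHom R'`: for `X`, `φ` let `N0` be larger than all elements of `vs X`; `limRF` for
  `S = {X, mp φ X}` and `N0` gives `n ≥ N0` with `R'.r X = R1.r (mp (o n) X)` and
  `R'.r (mp φ X) = R1.r (mp (o n ∘ φ) X)` (`mp_mp`); the two are equal by the choice of `H n`
  (`X ⊆ prs (range n)` by `Up.sub_prs`; `o n` and `o n ∘ φ` are strictly increasing on `vs X` with
  values in `H n`).
* the last statement: `limRF` for `S` gives `n1` with `(g n1).r X = R'.r X` for `X ∈ S`; let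
  `η = o n1`; `limRF` for `R1` with the sets `mp η X`, `X ∈ S`, and a number larger than `N` and all
  `η i`, `i < m`, gives `n`. -/
theorem exists_hom (R : ℕ → RF (ℕ × ℕ)) :
    ∃ R' : RF (ℕ × ℕ), PHom R' ∧ ∀ (S : Finset (Finset (ℕ × ℕ))) (N m : ℕ),
      ∃ (n : ℕ) (η : ℕ → ℕ), N ≤ n ∧ StrictMono η ∧ (∀ i < m, η i < n) ∧
        ∀ X ∈ S, (R n).r (mp η X) = R'.r X := by
  classical
  obtain ⟨R1, h1⟩ := limRF R
  choose H hHinf hHom using hom_level R1
  obtain ⟨o, ho, hoH⟩ : ∃ o : ℕ → ℕ → ℕ, (∀ N, StrictMono (o N)) ∧ ∀ N i, o N i ∈ H N :=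
    ⟨fun N => Nat.nth (· ∈ H N), fun N => Nat.nth_strictMono (hHinf N),
      fun N i => Nat.nth_mem_of_infinite (hHinf N) i⟩
  obtain ⟨R', h2⟩ := limRF (fun N => R1.map (Prod.map (o N) (o N)))
  have h2' : ∀ (S : Finset (Finset (ℕ × ℕ))) (N : ℕ), ∃ n, N ≤ n ∧
      ∀ X ∈ S, R1.r (mp (o n) X) = R'.r X := h2
  refine ⟨R', ?_, ?_⟩
  · intro X φ hX hφ
    obtain ⟨n, hn, hn2⟩ := h2' {X, mp φ X} ((vs X).sup id + 1)
    have hsub : X ⊆ prs (Finset.range n) := by
      apply hX.sub_prs
      intro x hx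
      have h3 : id x ≤ (vs X).sup id := Finset.le_sup hx
      rw [Finset.mem_range]
      exact lt_of_lt_of_le (Nat.lt_succ_of_le h3) hn
    rw [← hn2 X (by simp), ← hn2 (mp φ X) (by simp), mp_mp]
    exact hHom n X hsub (o n ∘ φ) (o n) (fun a ha b hb hab => ho n (hφ ha hb hab))
      ((ho n).strictMonoOn _) (fun x _ => hoH n _) (fun x _ => hoH n _)
  · intro S N m
    obtain ⟨n1, -, hn1⟩ := h2' S 0
    obtain ⟨n, hn, hn2⟩ := h1 (S.image (mp (o n1))) (max N ((Finset.range m).sup (o n1) + 1))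
    refine ⟨n, o n1, (le_max_left _ _).trans hn, ho n1, ?_, ?_⟩
    · intro i hi
      have h3 : o n1 i ≤ (Finset.range m).sup (o n1) := Finset.le_sup (Finset.mem_range.2 hi)
      exact lt_of_lt_of_le (Nat.lt_succ_of_le h3) ((le_max_right _ _).trans hn)
    · intro X hX
      rw [hn2 _ (Finset.mem_image_of_mem _ hX)]
      exact hn1 X hX

end Pool.Agent.H.MP_60a1a2_co
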