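import Pool.Agent.H.MP_60a1a2_co.LfPDefs

/-! # Dependent pairs give dependent rectangles -/

set_option autoImplicit false

namespace Pool.Agent.H.MP_60a1a2_co

/-- If the rank is smaller than the cardinality then some element is in the closure of the others
(`exists_basis`, `in_of_r_eq`, `in_mono`). -/
theorem nf_exists {R : RF (ℕ × ℕ)} {X : Finset (ℕ × ℕ)} (h : R.r X < X.card) :
    ∃ p ∈ X, R.In (X.erase p) p := by
  obtain ⟨B, hB, _, h3⟩ := R.exists_basis X
  obtain ⟨p, hp, hpB⟩ : ∃ p ∈ X, p ∉ B := by
    by_contra hcon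
    push Not at hcon
    have h4 := Finset.card_le_card (show X ⊆ B from hcon)
    omega
  have h5 : R.r X = R.r B := by omega
  exact ⟨p, hp, R.in_mono (R.in_of_r_eq hB h5 hp) (Finset.subset_erase.2 ⟨hB, hpB⟩)⟩

/-- the maps used in the proof -/
theorem LfNF_lt {N x y a b : ℕ} (hxy : x < y) (ha : a ≤ N) :
    x * (N + 1) + a < y * (N + 1) + b := by
  have h1 : (x + 1) * (N + 1) ≤ y * (N + 1) := Nat.mul_le_mul_right _ hxy
  have h2 : (x + 1) * (N + 1) = x * (N + 1) + (N + 1) := by ring
  omega

/-- If the pairs of `s` vertices are dependent then large rectangles are dependent.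

Proof.  Let `X = prs (range s)` and `p = (u, v) ∈ X` with `R.In (X.erase p) p` (`nf_exists`), `u < v`.
Let `N = s * s + 1` (so `X.card ≤ N`, `1 ≤ N`).  For `a, b < N` let
`φ a b x = x * (N + 1) + (if x = u then a else if x = v then b else 0)`, a strictly increasing map.
Homogeneity for `X.erase p` and for `X = insert p (X.erase p)` gives
`R.In (mp (φ a b) (X.erase p)) (u * (N + 1) + a, v * (N + 1) + b)`.
Let `m a x = x * (N + 1) + (if x = u ∨ x = v then a else 0)` and
`B = (X.erase p).biUnion (fun q => (range N).image (fun a => (m a q.1, m a q.2)))`,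
`B.card ≤ (X.card - 1) * N`.  A pair `q ∈ X.erase p` contains at most one of `u`, `v` (it is
increasing and different from `(u, v)`), so `mp (φ a b) (X.erase p) ⊆ B` for all `a, b < N` (use `a` if
`q` contains `u`, `b` if it contains `v`, and `0` otherwise).  So the set
`D = {(u * (N + 1) + a, v * (N + 1) + b) | a, b < N}` satisfies
`R.r D ≤ R.r (B ∪ D) = R.r B ≤ B.card < N * N`.  `D = mp χ (rect N N)` for `χ x = u * (N + 1) + x` if
`x < N` and `χ x = v * (N + 1) + (x - N)` if `x ≥ N`, strictly increasing on `range (2 * N)`; so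
`R.r (rect N N) = R.r D` (homogeneity). -/
theorem pair_nf {R : RF (ℕ × ℕ)} (hR : PHom R) {s : ℕ}
    (h : R.r (prs (Finset.range s)) < (prs (Finset.range s)).card) :
    ∃ N, R.r (rect N N) < N * N := by
  obtain ⟨⟨u, v⟩, hp, hin⟩ := nf_exists h
  have hp1 := mem_prs.1 hp
  simp only [Finset.mem_range] at hp1
  obtain ⟨hus, hvs, huv⟩ := hp1
  set X := prs (Finset.range s) with hX
  have hXc : X.card ≤ s * s := by
    have h1 : X ⊆ Finset.range s ×ˢ Finset.range s := by
      intro q hq
      have := mem_prs.1 hq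
      exact Finset.mem_product.2 ⟨this.1, this.2.1⟩
    have h2 := Finset.card_le_card h1
    rwa [Finset.card_product, Finset.card_range] at h2
  set Y := X.erase (u, v) with hY
  have hYc : Y.card + 1 = X.card := Finset.card_erase_add_one hp
  obtain ⟨N, hN⟩ : ∃ N, N = s * s + 1 := ⟨_, rfl⟩
  have hins : insert (u, v) Y = X := Finset.insert_erase hp
  have hUX : Up X := up_prs _
  have hUY : Up Y := hUX.sub (Finset.erase_subset _ _)
  let φ : ℕ → ℕ → ℕ → ℕ := fun a b x =>
    x * (N + 1) + (if x = u then a else if x = v then b else 0)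
  have hφm : ∀ a b, a < N → b < N → StrictMono (φ a b) := by
    intro a b ha hb x y hxy
    show x * (N + 1) + _ < y * (N + 1) + _
    apply LfNF_lt hxy
    split_ifs <;> omega
  let m : ℕ → ℕ → ℕ := fun a x => x * (N + 1) + (if x = u ∨ x = v then a else 0)
  let B : Finset (ℕ × ℕ) :=
    Y.biUnion (fun q => (Finset.range N).image (fun a => (m a q.1, m a q.2)))
  have hBc : B.card ≤ Y.card * N := by
    apply Finset.card_biUnion_le_card_mul
    intro q _
    exact Finset.card_image_le.trans (Finset.card_range N).le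
  have hBlt : B.card < N * N := by
    refine hBc.trans_lt ?_
    apply Nat.mul_lt_mul_of_pos_right <;> omega
  have hsub : ∀ a b, a < N → b < N → mp (φ a b) Y ⊆ B := by
    intro a b ha hb z hz
    obtain ⟨q, hq, h1, h2⟩ := mem_mp.1 hz
    have hqne : ¬ (q.1 = u ∧ q.2 = v) := by
      rintro ⟨e1, e2⟩
      exact Finset.ne_of_mem_erase hq (Prod.ext e1 e2)
    have hqlt := hUY q hq
    have key : ∃ c, c < N ∧ m c q.1 = φ a b q.1 ∧ m c q.2 = φ a b q.2 := by
      have hm : ∀ c x, m c x = x * (N + 1) + (if x = u ∨ x = v then c else 0) :=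
        fun _ _ => rfl
      have hf : ∀ x, φ a b x = x * (N + 1) + (if x = u then a else if x = v then b else 0) :=
        fun _ => rfl
      by_cases c1 : q.1 = u ∨ q.2 = u
      · refine ⟨a, ha, ?_, ?_⟩
        · rw [hm, hf]
          congr 1
          split_ifs <;> omega
        · rw [hm, hf]
          congr 1
          split_ifs <;> omega
      · by_cases c2 : q.1 = v ∨ q.2 = v
        · refine ⟨b, hb, ?_, ?_⟩
          · rw [hm, hf]
            congr 1
            split_ifs <;> omega
          · rw [hm, hf]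
            congr 1
            split_ifs <;> omega
        · refine ⟨0, by omega, ?_, ?_⟩
          · rw [hm, hf]
            congr 1
            split_ifs <;> omega
          · rw [hm, hf]
            congr 1
            split_ifs <;> omega
    obtain ⟨c, hc, e1, e2⟩ := key
    refine Finset.mem_biUnion.2 ⟨q, hq, Finset.mem_image.2 ⟨c, Finset.mem_range.2 hc, ?_⟩⟩
    exact Prod.ext (e1.trans h1) (e2.trans h2)
  have hD : ∀ a b, a < N → b < N → R.In B (u * (N + 1) + a, v * (N + 1) + b) := by
    intro a b ha hb
    apply R.in_mono _ (hsub a b ha hb)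
    have h1 := hR (insert (u, v) Y) (φ a b) (by rw [hins]; exact hUX)
      ((hφm a b ha hb).strictMonoOn _)
    have h2 := hR Y (φ a b) hUY ((hφm a b ha hb).strictMonoOn _)
    rw [mp_insert] at h1
    have h3 : φ a b u = u * (N + 1) + a := by
      show u * (N + 1) + (if u = u then a else if u = v then b else 0) = _
      rw [if_pos rfl]
    have h4 : φ a b v = v * (N + 1) + b := by
      show v * (N + 1) + (if v = u then a else if v = v then b else 0) = _
      rw [if_neg (by omega), if_pos rfl]
    unfold RF.In at hin ⊢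
    simp only at h1
    rw [h3, h4] at h1
    rw [h1, h2, hin]
  refine ⟨N, ?_⟩
  let χ : ℕ → ℕ := fun x => if x < N then u * (N + 1) + x else v * (N + 1) + (x - N)
  have hχ : ∀ x, χ x = if x < N then u * (N + 1) + x else v * (N + 1) + (x - N) := fun _ => rfl
  have huv2 : u * (N + 1) + N < v * (N + 1) := LfNF_lt (b := 0) huv le_rfl
  have hχm : StrictMono χ := by
    intro x y hxy
    rw [hχ, hχ]
    split_ifs <;> omega
  have h1 := hR (rect N N) χ (up_rect N N) (hχm.strictMonoOn _)
  have h2 : ∀ y ∈ mp χ (rect N N), R.In B y := by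
    intro y hy
    obtain ⟨q, hq, e1, e2⟩ := mem_mp.1 hy
    unfold rect at hq
    rw [Finset.mem_product, Finset.mem_range, Finset.mem_Ico] at hq
    have h3 := hD q.1 (q.2 - N) hq.1 (by omega)
    rw [hχ, if_pos hq.1] at e1
    rw [hχ, if_neg (by omega)] at e2
    rw [e1, e2] at h3
    exact h3
  rw [← h1]
  calc R.r (mp χ (rect N N)) ≤ R.r (B ∪ mp χ (rect N N)) := R.mono Finset.subset_union_right
    _ = R.r B := R.r_union_of_in h2
    _ ≤ B.card := R.le_card B
    _ < N * N := hBlt

end Pool.Agent.H.MP_60a1a2_co
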