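import Pool.Agent.H.MP_60a1a2_co.LfNest
import Pool.Agent.H.MP_60a1a2_co.LfQuot
import Pool.Agent.H.MP_60a1a2_co.LfFin

/-! # Nested contraction sets -/

set_option autoImplicit false

namespace Pool.Agent.H.MP_60a1a2_co

/-- The theorem for nested contraction sets.

Proof.  `w` from `main3 k`, `n0` from this for `c = max w ((w + 1) * (w + 1))`,
`n = n0 + (4 * w * w + w) + (w + 1)`.  Let `W2 ⊆ W` with `W2.card = w + 1`
(`Finset.exists_subset_card_eq`), `C2' = C2 ∪ (ed e2 W \ ed e2 W2)`;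
`IsK ((M.con C2').dual (ed e2 W2)) e2 W2` by `IsK.sub` and `cocl_sub`, `C2' ⊆ A`,
`ed e2 W2 ⊆ A \ C2'`.  `Kap M E (ed e1 V) (ed e2 W2) w` by `kap_sub_dual` (the rank of `ed e2 W2` is
`w`, `IsK.rank`).  `nest_step` gives `Z`, `C`.  Then
`Conf (M.con Z) (E \ Z) (A \ Z) (C \ Z) e1 V e2 W2 w` (`(M.con Z).con (A \ Z) = M.con A` by
`con_con_eq` and `Z ⊆ C ⊆ A`, the same for `C`), and
`(M.con Z).r (ed e1 V) ≤ V.card + max w ((w + 1) * (w + 1))` (`ed_card_le`).  `main3` and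
`Fin2.of_con`. -/
theorem nested0.{u} (k : ℕ) : ∃ n : ℕ, ∀ {α : Type u} [DecidableEq α] (M : RF α)
    (E A C2 : Finset α) (e1 : ℕ → ℕ → α) (V : Finset ℕ) (e2 : ℕ → ℕ → α) (W : Finset ℕ),
    A ⊆ E → ed e1 V ⊆ E \ A → IsK (M.con A) e1 V → C2 ⊆ A → ed e2 W ⊆ A \ C2 →
    IsK ((M.con C2).dual (ed e2 W)) e2 W → Kap M E (ed e1 V) (ed e2 W) n → n ≤ V.card →
    n ≤ W.card → Fin2 M E k := by
  obtain ⟨w, hw⟩ := main3.{u} k
  obtain ⟨n0, hn0⟩ := hw (max w ((w + 1) * (w + 1)))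
  refine ⟨n0 + (4 * w * w + w) + (w + 1), ?_⟩
  intro α _ M E A C2 e1 V e2 W hA hE1 hKA hC2 hE2 hD hk hV hW
  obtain ⟨W2, hW2s, hW2c⟩ := Finset.exists_subset_card_eq (s := W) (n := w + 1) (by omega)
  have hes : ed e2 W2 ⊆ ed e2 W := ed_mono hW2s
  have hD2 : IsK ((M.con (C2 ∪ (ed e2 W \ ed e2 W2))).dual (ed e2 W2)) e2 W2 :=
    cocl_sub hes (hD.sub hW2s)
  have hC2' : C2 ∪ (ed e2 W \ ed e2 W2) ⊆ A := by
    intro x hx
    rcases Finset.mem_union.1 hx with h1 | h1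
    · exact hC2 h1
    · exact (Finset.mem_sdiff.1 (hE2 (Finset.mem_sdiff.1 h1).1)).1
  have hE2' : ed e2 W2 ⊆ A \ (C2 ∪ (ed e2 W \ ed e2 W2)) := by
    intro x hx
    have h1 := Finset.mem_sdiff.1 (hE2 (hes hx))
    refine Finset.mem_sdiff.2 ⟨h1.1, ?_⟩
    intro h2
    rcases Finset.mem_union.1 h2 with h3 | h3
    · exact h1.2 h3
    · exact (Finset.mem_sdiff.1 h3).2 hx
  have hdis : Disjoint (ed e1 V) (ed e2 W) := by
    rw [Finset.disjoint_left]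
    intro x hx hx'
    exact (Finset.mem_sdiff.1 (hE1 hx)).2 (Finset.mem_sdiff.1 (hE2 hx')).1
  have hW2ne : W2.Nonempty := by
    rw [← Finset.card_pos]
    omega
  have hrk := (hD.sub hW2s).rank hW2ne
  have hk2 : Kap M E (ed e1 V) (ed e2 W2) w :=
    kap_sub_dual (hC2.trans hA) (hE2.trans (Finset.sdiff_subset_sdiff hA (Finset.Subset.refl _))) hD
      hdis hk hes (by omega) (by omega)
  obtain ⟨Z, C, hZC, hCA, hDC, hkZ, hr⟩ := nest_step hA hE1 hKA hC2' hE2' hD2 hk2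
  have hCA' : C ⊆ A := hCA.trans Finset.sdiff_subset
  have hZA : Z ⊆ A := hZC.trans hCA'
  have hZE : Z ⊆ E := hZA.trans hA
  refine Fin2.of_con hZE (hn0 (M.con Z) (E \ Z) (A \ Z) (C \ Z) e1 V e2 W2 ?_ (by omega) ?_)
  · refine ⟨Finset.sdiff_subset_sdiff hA (Finset.Subset.refl _), ?_, ?_,
      Finset.sdiff_subset_sdiff (hCA'.trans hA) (Finset.Subset.refl _), ?_, ?_,
      Finset.disjoint_of_subset_right hes hdis, hkZ, by omega⟩
    · intro x hx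
      have h1 := Finset.mem_sdiff.1 (hE1 hx)
      exact Finset.mem_sdiff.2 ⟨Finset.mem_sdiff.2 ⟨h1.1, fun h2 => h1.2 (hZA h2)⟩,
        fun h2 => h1.2 (Finset.mem_sdiff.1 h2).1⟩
    · rw [RF.con_con_eq, Finset.union_sdiff_of_subset hZA]
      exact hKA
    · intro x hx
      have h1 := Finset.mem_sdiff.1 (hE2 (hes hx))
      have h2 : x ∉ C := fun h3 => (Finset.mem_sdiff.1 (hCA h3)).2 hx
      exact Finset.mem_sdiff.2 ⟨Finset.mem_sdiff.2 ⟨hA h1.1, fun h3 => h2 (hZC h3)⟩,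
        fun h3 => h2 (Finset.mem_sdiff.1 h3).1⟩
    · rw [RF.con_con_eq, Finset.union_sdiff_of_subset hZC]
      exact hDC
  · have h1 := ed_card_le e2 W2
    rw [hW2c] at h1
    have h2 : max w (ed e2 W2).card ≤ max w ((w + 1) * (w + 1)) := max_le_max le_rfl h1
    omega


/-- The edges of a clique in a contraction are not in the contracted set.

Proof.  By `IsK.leaf` with `I = ∅` the element `e i j` (`i ≠ j`) is not in the closure of the empty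
set in `M.con A`, but the elements of `A` are (`con_in`, `in_of_mem`). -/
theorem ed_disj_con {α : Type*} [DecidableEq α] {M : RF α} {A : Finset α} {e : ℕ → ℕ → α}
    {V : Finset ℕ} (h : IsK (M.con A) e V) : Disjoint (ed e V) A := by
  rw [Finset.disjoint_left]
  intro x hx hxA
  obtain ⟨i, hi, j, hj, hij, rfl⟩ := mem_ed.1 hx
  refine h.leaf hi hj hij (I := ∅) (Finset.empty_subset _) ?_
  rw [RF.con_in]
  exact M.in_of_mem (Finset.mem_union_right _ hxA)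

/-- The theorem if the rank of `C1 ∪ C2 ∪ ed e2 W` exceeds the rank of `C1` by a bounded number.

Proof.  `n0` from `nested0 k`, `n = (4 * n0 * n0 + n0) + n0 + c + 1`.  Let `A = C1 ∪ C2 ∪ ed e2 W`,
`K = M.con C1`, `Q = M.con A`.  `Lift K Q e1 V` by `lift_con` (`A = C1 ∪ (C2 ∪ ed e2 W)`), and
`K.r (ed e1 V) ≤ Q.r (ed e1 V) + c` (`con_add`, `M.r A ≤ M.r C1 + c`, mono).  `quot_clique` gives
`V1 ⊆ V` with `V.card ≤ V1.card + c`, `IsK Q e1 V1`; `ed e1 V1 ⊆ E \ A` by `ed_disj_con`.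
`Kap M E (ed e1 V1) (ed e2 W) n0` by `kap_sub` (the rank of `ed e1 V1` in `K` is `V1.card - 1 ≥ n0`).
Apply `nested0`. -/
theorem nc_main.{u} (k c : ℕ) : ∃ n : ℕ, ∀ {α : Type u} [DecidableEq α] (M : RF α)
    (E C1 C2 : Finset α) (e1 : ℕ → ℕ → α) (V : Finset ℕ) (e2 : ℕ → ℕ → α) (W : Finset ℕ),
    Conf M E C1 C2 e1 V e2 W n → n ≤ V.card →
    M.r (C1 ∪ C2 ∪ ed e2 W) ≤ M.r C1 + c → Fin2 M E k := by
  obtain ⟨n0, hn0⟩ := nested0.{u} k
  refine ⟨(4 * n0 * n0 + n0) + n0 + c + 1, ?_⟩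
  intro α _ M E C1 C2 e1 V e2 W h hV hr
  have hL : Lift (M.con C1) (M.con (C1 ∪ (C2 ∪ ed e2 W))) e1 V := lift_con M C1 _ e1 V
  rw [← Finset.union_assoc] at hL
  have hc : (M.con C1).r (ed e1 V) ≤ (M.con (C1 ∪ C2 ∪ ed e2 W)).r (ed e1 V) + c := by
    have h1 := M.con_add C1 (ed e1 V)
    have h2 := M.con_add (C1 ∪ C2 ∪ ed e2 W) (ed e1 V)
    have h3 : M.r (ed e1 V ∪ C1) ≤ M.r (ed e1 V ∪ (C1 ∪ C2 ∪ ed e2 W)) := by
      apply M.mono
      intro x hx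
      simp only [Finset.mem_union] at hx ⊢
      tauto
    omega
  obtain ⟨V1, hV1, hVc, hQ⟩ := quot_clique h.clq hL hc
  have hdA := ed_disj_con hQ
  have hV1ne : V1.Nonempty := by
    rw [← Finset.card_pos]
    omega
  have hrk := (h.clq.sub hV1).rank hV1ne
  have hcW := h.cardW
  have hk : Kap M E (ed e1 V1) (ed e2 W) n0 :=
    kap_sub h.hC1 h.hE1 h.clq h.dsj h.kap (ed_mono hV1) (by omega) (by omega)
  have hE2 := h.hE2
  have hE1 := h.hE1
  refine hn0 M E (C1 ∪ C2 ∪ ed e2 W) C2 e1 V1 e2 W ?_ ?_ hQ ?_ ?_ h.cocl hk (by omega) (by omega)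
  · intro x hx
    simp only [Finset.mem_union] at hx
    rcases hx with (h1 | h1) | h1
    · exact h.hC1 h1
    · exact h.hC2 h1
    · exact (Finset.mem_sdiff.1 (hE2 h1)).1
  · intro x hx
    exact Finset.mem_sdiff.2 ⟨(Finset.mem_sdiff.1 (hE1 (ed_mono hV1 hx))).1,
      Finset.disjoint_left.1 hdA hx⟩
  · intro x hx
    simp only [Finset.mem_union]
    tauto
  · intro x hx
    exact Finset.mem_sdiff.2 ⟨Finset.mem_union_right _ hx, (Finset.mem_sdiff.1 (hE2 hx)).2⟩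

end Pool.Agent.H.MP_60a1a2_co
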