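import Pool.Agent.H.MP_60a1a2_co.LfY

/-! # Nested contraction sets: reduction to bounded excess -/

set_option autoImplicit false

namespace Pool.Agent.H.MP_60a1a2_co

variable {α : Type*} [DecidableEq α]

/-- An element which is in the closure of `C` or not in the closure of `C ∪ ed e W` can be added
to `C`.

Proof.  For `X ⊆ G = ed e W` the numbers `(M.con (insert c C)).r X` and `(M.con C).r X` are equal
(`con_add`; in the first case the ranks do not change, in the second case all the ranks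
`M.r (X ∪ insert c C)` are larger by one: `in_mono`, `not_in`), so the duals on `G` have the same
ranks (`dual_add`), `IsK.congr`. -/
theorem nest_add {M : RF α} {C : Finset α} {e : ℕ → ℕ → α} {W : Finset ℕ} {c : α}
    (h : IsK ((M.con C).dual (ed e W)) e W) (hc : M.In C c ∨ ¬ M.In (C ∪ ed e W) c) :
    IsK ((M.con (insert c C)).dual (ed e W)) e W := by
  have key : ∀ Y ⊆ ed e W, (M.con (insert c C)).r Y = (M.con C).r Y := by
    intro Y hY
    have h1 := M.con_add (insert c C) Y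
    have h2 := M.con_add C Y
    rw [Finset.union_insert] at h1
    rcases hc with hc | hc
    · have h3 : M.In (Y ∪ C) c := M.in_mono hc Finset.subset_union_right
      unfold RF.In at hc h3
      rw [hc, h3] at h1
      omega
    · have h3 : ¬ M.In (Y ∪ C) c := by
        intro h4
        refine hc (M.in_mono h4 ?_)
        rw [Finset.union_comm]
        exact Finset.union_subset_union_right hY
      have h5 : ¬ M.In C c := fun h4 => hc (M.in_mono h4 Finset.subset_union_left)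
      rw [M.not_in h3, M.not_in h5] at h1
      omega
  refine h.congr ?_
  intro X hX
  have h1 := (M.con (insert c C)).dual_add hX
  have h2 := (M.con C).dual_add hX
  rw [key _ (Finset.Subset.refl _), key _ Finset.sdiff_subset] at h1
  omega

/-- The bound from a set given by `lemY`. -/
theorem LfNest_bd {M : RF α} {A B F Z Y : Finset α} {e1 : ℕ → ℕ → α} {V : Finset ℕ} {w : ℕ}
    (hK : IsK (M.con A) e1 V) (hA : ∀ x ∈ A, M.In (Y ∪ Z ∪ F) x)
    (hY : (M.con Z).r (ed e1 V) + (M.con Z).r Y ≤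
      (M.con Z).r (ed e1 V ∪ Y) + max w ((M.con Z).r B)) :
    (M.con Z).r (ed e1 V) ≤ V.card + (max w B.card + F.card) := by
  have h1 := M.r_union_of_in hA
  have h2 := M.incr (X := A) (Y := Y ∪ Z ∪ F ∪ A) Finset.subset_union_right (ed e1 V)
  have h3 := M.con_add A (ed e1 V)
  have h4 : (M.con A).r (ed e1 V) ≤ V.card := by
    rcases V.eq_empty_or_nonempty with h0 | h0
    · subst h0
      have h5 : ed e1 (∅ : Finset ℕ) = ∅ := by simp [ed]
      rw [h5, (M.con A).r_empty]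
      exact Nat.zero_le _
    · have := hK.rank h0
      omega
  have h6 := M.con_add Z (ed e1 V ∪ Y)
  have h7 := M.con_add Z Y
  have h8 : M.r (ed e1 V ∪ Y ∪ Z) ≤ M.r (Y ∪ Z ∪ F ∪ A ∪ ed e1 V) := by
    apply M.mono
    intro a
    simp only [Finset.mem_union]
    tauto
  have h9 := M.r_union_le_card (Y ∪ Z) F
  have h10 := (M.con Z).le_card B
  have h11 : A ∪ ed e1 V = ed e1 V ∪ A := Finset.union_comm _ _
  rw [h11] at h2
  have h12 : max w ((M.con Z).r B) ≤ max w B.card := max_le_max le_rfl h10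
  omega

/-- The main step for nested contraction sets.

Proof.  Let `P Z` be the statement: there is `C` with `Z ⊆ C ⊆ A \ ed e2 W`,
`IsK ((M.con C).dual (ed e2 W)) e2 W` and `Kap (M.con Z) (E \ Z) (ed e1 V) (ed e2 W) w`.
`P ∅` holds with `C = C2` (`Reduce_con_empty` in `Reduce.lean`: `M.con ∅ = M`; `E \ ∅ = E`).
Let `Z ⊆ A` be a set with `P Z` of maximal cardinality, with `C`.  Apply `lemY` to `M.con Z`,
`E \ Z`, `S = ed e1 V`, `B = ed e2 W`; get `Y`.  Claim: every `c ∈ A` is in the closure of `Y ∪ Z`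
in `M`.  For `c ∈ Z` and `c ∈ ed e2 W ⊆ Y` this is clear.  Let `c ∈ A` be another element.
(1) If `c ∈ C` then `insert c Z` satisfies all but the last condition (with `C`), so by maximality
`¬ Kap (M.con (insert c Z)) (E \ insert c Z) ..`; `M.con (insert c Z) = (M.con Z).con {c}`
(`con_con_eq`), `E \ insert c Z = (E \ Z).erase c`; so `c ∈ Y`.
(2) If `c ∉ C` and `c ∉ Y` then `Kap ((M.con Z).con {c}) ((E \ Z).erase c) ..` holds, so by maximality
`insert c C` is not possible, and by `nest_add` `M.In (C ∪ ed e2 W) c`; `C ∪ ed e2 W ⊆ Y ∪ Z` by (1).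
So `M.r (Y ∪ Z ∪ A) = M.r (Y ∪ Z)`, and with `S = ed e1 V`, by `incr` for `A ⊆ Y ∪ Z ∪ A`:
`M.r (S ∪ (Y ∪ Z)) - M.r (Y ∪ Z) ≤ M.r (S ∪ A) - M.r A = (M.con A).r S ≤ V.card`
(`IsK.rank`; `V = ∅`: `S = ∅`).  By `con_add`
`(M.con Z).r (S ∪ Y) - (M.con Z).r Y = M.r (S ∪ Y ∪ Z) - M.r (Y ∪ Z)`, so `lemY` and
`(M.con Z).r B ≤ B.card` give the last claim. -/
theorem nest_step {M : RF α} {E A C2 : Finset α} {e1 : ℕ → ℕ → α} {V : Finset ℕ}
    {e2 : ℕ → ℕ → α} {W : Finset ℕ} {w : ℕ} (hA : A ⊆ E) (hE1 : ed e1 V ⊆ E \ A)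
    (hK : IsK (M.con A) e1 V) (hC2 : C2 ⊆ A) (hE2 : ed e2 W ⊆ A \ C2)
    (hD : IsK ((M.con C2).dual (ed e2 W)) e2 W) (hk : Kap M E (ed e1 V) (ed e2 W) w) :
    ∃ Z C : Finset α, Z ⊆ C ∧ C ⊆ A \ ed e2 W ∧ IsK ((M.con C).dual (ed e2 W)) e2 W ∧
      Kap (M.con Z) (E \ Z) (ed e1 V) (ed e2 W) w ∧
      (M.con Z).r (ed e1 V) ≤ V.card + max w (ed e2 W).card := by
  classical
  set S := ed e1 V with hS
  set B := ed e2 W with hB
  have hne : (A.powerset.filter (fun Z => (∃ C : Finset α, Z ⊆ C ∧ C ⊆ A \ B ∧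
      IsK ((M.con C).dual B) e2 W) ∧ Kap (M.con Z) (E \ Z) S B w)).Nonempty := by
    refine ⟨∅, ?_⟩
    rw [Finset.mem_filter]
    refine ⟨by simp, ⟨C2, by simp, ?_, hD⟩, ?_⟩
    · intro x hx
      rw [Finset.mem_sdiff]
      refine ⟨hC2 hx, fun hxB => ?_⟩
      exact (Finset.mem_sdiff.1 (hE2 hxB)).2 hx
    · rw [Reduce_con_empty, Finset.sdiff_empty]
      exact hk
  obtain ⟨Z, hZ, hmax⟩ := Finset.exists_max_image _ (fun Z => Z.card) hne
  rw [Finset.mem_filter, Finset.mem_powerset] at hZ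
  obtain ⟨hZA, ⟨C, hZC, hCA, hCK⟩, hZK⟩ := hZ
  -- a larger set does not satisfy the conditions
  have hno : ∀ c ∈ A, c ∉ Z → (∃ C : Finset α, insert c Z ⊆ C ∧ C ⊆ A \ B ∧
      IsK ((M.con C).dual B) e2 W) → ¬ Kap ((M.con Z).con {c}) ((E \ Z).erase c) S B w := by
    intro c hc hcZ hex hkap
    have e1 : (M.con Z).con {c} = M.con (insert c Z) := by
      rw [M.con_con_eq, Finset.union_comm, ← Finset.insert_eq]
    have e2 : (E \ Z).erase c = E \ insert c Z := by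
      ext a
      simp only [Finset.mem_erase, Finset.mem_sdiff, Finset.mem_insert, not_or]
      tauto
    rw [e1, e2] at hkap
    have h1 := hmax (insert c Z) (by
      rw [Finset.mem_filter, Finset.mem_powerset]
      exact ⟨Finset.insert_subset hc hZA, hex, hkap⟩)
    rw [Finset.card_insert_of_notMem hcZ] at h1
    omega
  have hSZ : S ⊆ E \ Z := fun x hx => by
    have h1 := Finset.mem_sdiff.1 (hE1 hx)
    exact Finset.mem_sdiff.2 ⟨h1.1, fun h2 => h1.2 (hZA h2)⟩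
  have hBZ : B ⊆ E \ Z := fun x hx => by
    have h1 := Finset.mem_sdiff.1 (hE2 hx)
    exact Finset.mem_sdiff.2 ⟨hA h1.1, fun h2 =>
      (Finset.mem_sdiff.1 (hCA (hZC h2))).2 hx⟩
  have hdis : Disjoint S B := by
    rw [Finset.disjoint_left]
    intro x hx hxB
    exact (Finset.mem_sdiff.1 (hE1 hx)).2 (Finset.mem_sdiff.1 (hE2 hxB)).1
  obtain ⟨Y, hBY, hYE, hYr, hcrit⟩ := lemY hSZ hBZ hdis hZK
  have hin : ∀ c ∈ A, c ∉ Z → c ∉ B → c ∉ Y →
      Kap ((M.con Z).con {c}) ((E \ Z).erase c) S B w := by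
    intro c hc hcZ hcB hcY
    by_contra hcon
    refine hcY (hcrit c ?_ hcon)
    rw [Finset.mem_sdiff, Finset.mem_sdiff, Finset.mem_union, not_or]
    exact ⟨⟨hA hc, hcZ⟩, fun hcS => (Finset.mem_sdiff.1 (hE1 hcS)).2 hc, hcB⟩
  have hCY : ∀ c ∈ C, c ∈ Y ∪ Z := by
    intro c hc
    rw [Finset.mem_union]
    by_contra hcon
    rw [not_or] at hcon
    have h1 := Finset.mem_sdiff.1 (hCA hc)
    exact hno c h1.1 hcon.2 ⟨C, Finset.insert_subset hc hZC, hCA, hCK⟩
      (hin c h1.1 hcon.2 h1.2 hcon.1)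
  have hcl : ∀ c ∈ A, M.In (Y ∪ Z ∪ ∅) c := by
    intro c hc
    rw [Finset.union_empty]
    by_cases hcY : c ∈ Y ∪ Z
    · exact M.in_of_mem hcY
    rw [Finset.mem_union, not_or] at hcY
    have hcB : c ∉ B := fun h1 => hcY.1 (hBY h1)
    by_cases hcC : c ∈ C
    · exact M.in_of_mem (hCY c hcC)
    have h1 : ¬ (M.In C c ∨ ¬ M.In (C ∪ B) c) := by
      intro h2
      refine hno c hc hcY.2 ⟨insert c C, Finset.insert_subset_insert c hZC, ?_,
        nest_add hCK h2⟩ (hin c hc hcY.2 hcB hcY.1)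
      exact Finset.insert_subset (Finset.mem_sdiff.2 ⟨hc, hcB⟩) hCA
    rw [not_or, not_not] at h1
    refine M.in_mono h1.2 (Finset.union_subset (fun x hx => hCY x hx) ?_)
    exact fun x hx => Finset.mem_union_left _ (hBY hx)
  refine ⟨Z, C, hZC, hCA, hCK, hZK, ?_⟩
  have h1 := LfNest_bd hK hcl hYr
  rw [Finset.card_empty] at h1
  exact h1

/-- The main step when the contraction set of the clique is in the closure of the contraction set
of the coclique, up to a bounded set `F2`.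

Proof.  Let `Z ⊆ C1 \ ed e2 W` be a set of maximal cardinality such that all `x ∈ Z` satisfy
`M.In C2 x` and `Kap (M.con Z) (E \ Z) (ed e1 V) (ed e2 W) w` (`Z = ∅` is possible).  Apply `lemY` to
`M.con Z`, `E \ Z`, `S = ed e1 V`, `B = ed e2 W`; get `Y`.  As in `nest_step`, every `x ∈ C1` with
`M.In C2 x`, `x ∉ Z`, `x ∉ ed e2 W` is critical, so in `Y`.  So `C1 ⊆ Y ∪ Z ∪ F2` (`ed e2 W ⊆ Y`).
`M.r (S ∪ Y ∪ Z) ≤ M.r (S ∪ (Y ∪ Z ∪ F2))`, `M.r (Y ∪ Z ∪ F2) ≤ M.r (Y ∪ Z) + F2.card`, and by `incr`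
for `C1 ⊆ Y ∪ Z ∪ F2`
`M.r (S ∪ (Y ∪ Z ∪ F2)) - M.r (Y ∪ Z ∪ F2) ≤ M.r (S ∪ C1) - M.r C1 ≤ V.card`; so with
`con_add` and `lemY` `(M.con Z).r S ≤ V.card + F2.card + max w B.card`. -/
theorem ac_step {M : RF α} {E C1 C2 F2 : Finset α} {e1 : ℕ → ℕ → α} {V : Finset ℕ}
    {e2 : ℕ → ℕ → α} {W : Finset ℕ} {w : ℕ} (hC1 : C1 ⊆ E) (hE1 : ed e1 V ⊆ E \ C1)
    (hK : IsK (M.con C1) e1 V) (hE2 : ed e2 W ⊆ E) (hd : Disjoint (ed e1 V) (ed e2 W))
    (hcl : ∀ x ∈ C1, M.In C2 x ∨ x ∈ F2 ∪ ed e2 W) (hk : Kap M E (ed e1 V) (ed e2 W) w) :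
    ∃ Z ⊆ C1 \ ed e2 W, (∀ x ∈ Z, M.In C2 x) ∧ Kap (M.con Z) (E \ Z) (ed e1 V) (ed e2 W) w ∧
      (M.con Z).r (ed e1 V) ≤ V.card + (max w (ed e2 W).card + F2.card) := by
  classical
  set S := ed e1 V with hS
  set B := ed e2 W with hB
  have hne : ((C1 \ B).powerset.filter (fun Z => (∀ x ∈ Z, M.In C2 x) ∧
      Kap (M.con Z) (E \ Z) S B w)).Nonempty := by
    refine ⟨∅, ?_⟩
    rw [Finset.mem_filter]
    refine ⟨by simp, by simp, ?_⟩
    rw [Reduce_con_empty, Finset.sdiff_empty]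
    exact hk
  obtain ⟨Z, hZ, hmax⟩ := Finset.exists_max_image _ (fun Z => Z.card) hne
  rw [Finset.mem_filter, Finset.mem_powerset] at hZ
  obtain ⟨hZC, hZin, hZK⟩ := hZ
  have hno : ∀ c ∈ C1 \ B, c ∉ Z → M.In C2 c →
      ¬ Kap ((M.con Z).con {c}) ((E \ Z).erase c) S B w := by
    intro c hc hcZ hcin hkap
    have e1 : (M.con Z).con {c} = M.con (insert c Z) := by
      rw [M.con_con_eq, Finset.union_comm, ← Finset.insert_eq]
    have e2 : (E \ Z).erase c = E \ insert c Z := by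
      ext a
      simp only [Finset.mem_erase, Finset.mem_sdiff, Finset.mem_insert, not_or]
      tauto
    rw [e1, e2] at hkap
    have h1 := hmax (insert c Z) (by
      rw [Finset.mem_filter, Finset.mem_powerset]
      refine ⟨Finset.insert_subset hc hZC, ?_, hkap⟩
      intro x hx
      rcases Finset.mem_insert.1 hx with rfl | hx
      · exact hcin
      · exact hZin x hx)
    rw [Finset.card_insert_of_notMem hcZ] at h1
    omega
  have hSZ : S ⊆ E \ Z := fun x hx => by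
    have h1 := Finset.mem_sdiff.1 (hE1 hx)
    exact Finset.mem_sdiff.2 ⟨h1.1, fun h2 => h1.2 (Finset.mem_sdiff.1 (hZC h2)).1⟩
  have hBZ : B ⊆ E \ Z := fun x hx =>
    Finset.mem_sdiff.2 ⟨hE2 hx, fun h2 => (Finset.mem_sdiff.1 (hZC h2)).2 hx⟩
  obtain ⟨Y, hBY, hYE, hYr, hcrit⟩ := lemY hSZ hBZ hd hZK
  have hcl' : ∀ c ∈ C1, M.In (Y ∪ Z ∪ F2) c := by
    intro c hc
    apply M.in_of_mem
    rw [Finset.mem_union, Finset.mem_union]
    by_contra hcon
    rw [not_or, not_or] at hcon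
    have hcB : c ∉ B := fun h1 => hcon.1.1 (hBY h1)
    have hcin : M.In C2 c := by
      rcases hcl c hc with h1 | h1
      · exact h1
      · rcases Finset.mem_union.1 h1 with h1 | h1
        · exact absurd h1 hcon.2
        · exact absurd h1 hcB
    refine hcon.1.1 (hcrit c ?_ (hno c (Finset.mem_sdiff.2 ⟨hc, hcB⟩) hcon.1.2 hcin))
    rw [Finset.mem_sdiff, Finset.mem_sdiff, Finset.mem_union, not_or]
    exact ⟨⟨hC1 hc, hcon.1.2⟩, fun hcS => (Finset.mem_sdiff.1 (hE1 hcS)).2 hc, hcB⟩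
  exact ⟨Z, hZC, hZin, hZK, LfNest_bd hK hcl' hYr⟩

end Pool.Agent.H.MP_60a1a2_co
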