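import Pool.Agent.H.MP_60a1a2_co.LfPDefs
import Pool.Agent.H.MP_60a1a2_co.LfBase

/-! # From homogeneous rank functions on pairs to arrays: codes -/

set_option autoImplicit false

namespace Pool.Agent.H.MP_60a1a2_co

/-- `φ` and `ψ` embed the rows and columns of `X`, the rows come before the columns -/
structure Cd (X : Finset (ℚ × ℚ)) (φ ψ : ℚ → ℕ) : Prop where
  row : StrictMonoOn φ (rws X : Set ℚ)
  col : StrictMonoOn ψ (cls X : Set ℚ)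
  lt : ∀ x ∈ rws X, ∀ y ∈ cls X, φ x < ψ y

/-- the encoded set -/
def enc (φ ψ : ℚ → ℕ) (X : Finset (ℚ × ℚ)) : Finset (ℕ × ℕ) := X.image (Prod.map φ ψ)

theorem enc_union (φ ψ : ℚ → ℕ) (X Y : Finset (ℚ × ℚ)) : enc φ ψ (X ∪ Y) = enc φ ψ X ∪ enc φ ψ Y :=
  Finset.image_union _ _

theorem enc_mono (φ ψ : ℚ → ℕ) {X Y : Finset (ℚ × ℚ)} (h : X ⊆ Y) : enc φ ψ X ⊆ enc φ ψ Y :=
  Finset.image_subset_image h

theorem mem_enc {φ ψ : ℚ → ℕ} {X : Finset (ℚ × ℚ)} {q : ℕ × ℕ} :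
    q ∈ enc φ ψ X ↔ ∃ g h, (g, h) ∈ X ∧ φ g = q.1 ∧ ψ h = q.2 := by
  unfold enc
  simp only [Finset.mem_image, Prod.exists]
  constructor
  · rintro ⟨a, b, h1, h2⟩
    exact ⟨a, b, h1, by rw [← h2]; rfl, by rw [← h2]; rfl⟩
  · rintro ⟨a, b, h1, h2, h3⟩
    exact ⟨a, b, h1, Prod.ext h2 h3⟩

theorem Cd.sub {X Y : Finset (ℚ × ℚ)} {φ ψ : ℚ → ℕ} (h : Cd Y φ ψ) (hX : X ⊆ Y) : Cd X φ ψ :=
  ⟨h.row.mono (Finset.coe_subset.2 (rws_mono hX)), h.col.mono (Finset.coe_subset.2 (cls_mono hX)),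
    fun x hx y hy => h.lt x (rws_mono hX hx) y (cls_mono hX hy)⟩

/-- Proof.  `φ x = ((rws X).filter (· < x)).card`,
`ψ y = (rws X).card + ((cls X).filter (· < y)).card`.  Strictly increasing: for `x < x'` with
`x ∈ rws X` the set for `x'` contains the set for `x` and in addition `x`; `φ x < (rws X).card` for
`x ∈ rws X` because `x` is not in its set. -/
theorem exists_cd (X : Finset (ℚ × ℚ)) : ∃ φ ψ : ℚ → ℕ, Cd X φ ψ := by
  have key : ∀ (S : Finset ℚ) (x y : ℚ), x ∈ S → x < y →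
      (S.filter (· < x)).card < (S.filter (· < y)).card := by
    intro S x y hx hxy
    apply Finset.card_lt_card
    rw [Finset.ssubset_iff_of_subset]
    · refine ⟨x, Finset.mem_filter.2 ⟨hx, hxy⟩, ?_⟩
      intro h
      exact lt_irrefl _ (Finset.mem_filter.1 h).2
    · intro z hz
      have h1 := Finset.mem_filter.1 hz
      exact Finset.mem_filter.2 ⟨h1.1, h1.2.trans hxy⟩
  refine ⟨fun x => ((rws X).filter (· < x)).card,
    fun y => (rws X).card + ((cls X).filter (· < y)).card, ?_, ?_, ?_⟩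
  · intro x hx y _ hxy
    exact key (rws X) x y hx hxy
  · intro x hx y _ hxy
    have h1 := key (cls X) x y hx hxy
    show (rws X).card + _ < (rws X).card + _
    omega
  · intro x hx y _
    have h1 : ((rws X).filter (· < x)).card < (rws X).card := by
      apply Finset.card_lt_card
      rw [Finset.ssubset_iff_of_subset (Finset.filter_subset _ _)]
      refine ⟨x, hx, ?_⟩
      intro h
      exact lt_irrefl _ (Finset.mem_filter.1 h).2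
    show ((rws X).filter (· < x)).card < (rws X).card + _
    omega

theorem Cd.up {X : Finset (ℚ × ℚ)} {φ ψ : ℚ → ℕ} (h : Cd X φ ψ) : Up (enc φ ψ X) := by
  intro q hq
  obtain ⟨a, b, h1, h2, h3⟩ := mem_enc.1 hq
  rw [← h2, ← h3]
  exact h.lt a (mem_rws.2 ⟨b, h1⟩) b (mem_cls.2 ⟨a, h1⟩)

/-- The encoding is injective. -/
theorem Cd.inj {X : Finset (ℚ × ℚ)} {φ ψ : ℚ → ℕ} (h : Cd X φ ψ) {z z' : ℚ × ℚ} (hz : z ∈ X)
    (hz' : z' ∈ X) (he : Prod.map φ ψ z = Prod.map φ ψ z') : z = z' := by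
  obtain ⟨a, b⟩ := z
  obtain ⟨a', b'⟩ := z'
  have h1 : φ a = φ a' := congrArg Prod.fst he
  have h2 : ψ b = ψ b' := congrArg Prod.snd he
  have h3 : a = a' := h.row.injOn (mem_rws.2 ⟨b, hz⟩) (mem_rws.2 ⟨b', hz'⟩) h1
  have h4 : b = b' := h.col.injOn (mem_cls.2 ⟨a, hz⟩) (mem_cls.2 ⟨a', hz'⟩) h2
  rw [h3, h4]

/-- Different codes give the same rank.

Proof.  Define `χ : ℕ → ℕ` by `χ a = φ' x` if `a = φ x` for some `x ∈ rws X`, otherwise `χ a = ψ' y`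
if `a = ψ y` for some `y ∈ cls X`, otherwise `0` (`φ`, `ψ` are injective on `rws X`, `cls X` and
`φ x ≠ ψ y`).  Then `mp χ (enc φ ψ X) = enc φ' ψ' X` and `χ` is strictly increasing on
`vs (enc φ ψ X)`: a vertex is `φ x` or `ψ y`; if `φ x < φ x'` then `x < x'`
(`StrictMonoOn.lt_iff_lt`), so `φ' x < φ' x'`; `φ' x < ψ' y` always; `ψ y < φ x` is impossible.
Use `PHom` for `enc φ ψ X` (`Cd.up`). -/
theorem Cd.eq {R : RF (ℕ × ℕ)} (hR : PHom R) {X : Finset (ℚ × ℚ)} {φ ψ φ' ψ' : ℚ → ℕ}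
    (h : Cd X φ ψ) (h' : Cd X φ' ψ') : R.r (enc φ ψ X) = R.r (enc φ' ψ' X) := by
  classical
  obtain ⟨χ, hχr, hχc⟩ : ∃ χ : ℕ → ℕ, (∀ x ∈ rws X, χ (φ x) = φ' x) ∧
      (∀ y ∈ cls X, χ (ψ y) = ψ' y) := by
    have hex : ∀ a : ℕ, ∃ b : ℕ, (∀ x ∈ rws X, φ x = a → b = φ' x) ∧
        (∀ y ∈ cls X, ψ y = a → b = ψ' y) := by
      intro a
      by_cases h1 : ∃ x ∈ rws X, φ x = a
      · obtain ⟨x, hx, hxa⟩ := h1
        refine ⟨φ' x, ?_, ?_⟩
        · intro x' hx' hxa'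
          rw [h.row.injOn hx hx' (hxa.trans hxa'.symm)]
        · intro y hy hya
          have h2 := h.lt x hx y hy
          omega
      · by_cases h2 : ∃ y ∈ cls X, ψ y = a
        · obtain ⟨y, hy, hya⟩ := h2
          refine ⟨ψ' y, ?_, ?_⟩
          · intro x hx hxa
            exact absurd ⟨x, hx, hxa⟩ h1
          · intro y' hy' hya'
            rw [h.col.injOn hy hy' (hya.trans hya'.symm)]
        · refine ⟨0, ?_, ?_⟩
          · intro x hx hxa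
            exact absurd ⟨x, hx, hxa⟩ h1
          · intro y hy hya
            exact absurd ⟨y, hy, hya⟩ h2
    choose χ hχ using hex
    exact ⟨χ, fun x hx => (hχ (φ x)).1 x hx rfl, fun y hy => (hχ (ψ y)).2 y hy rfl⟩
  have hmp : mp χ (enc φ ψ X) = enc φ' ψ' X := by
    unfold mp enc
    rw [Finset.image_image]
    apply Finset.image_congr
    rintro ⟨a, b⟩ hab
    show (χ (φ a), χ (ψ b)) = (φ' a, ψ' b)
    rw [hχr a (mem_rws.2 ⟨b, hab⟩), hχc b (mem_cls.2 ⟨a, hab⟩)]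
  have hvs : ∀ v ∈ vs (enc φ ψ X), (∃ x ∈ rws X, φ x = v) ∨ (∃ y ∈ cls X, ψ y = v) := by
    intro v hv
    obtain ⟨p, hp, h1⟩ := mem_vs.1 hv
    obtain ⟨a, b, h2, h3, h4⟩ := mem_enc.1 hp
    rcases h1 with h1 | h1
    · exact Or.inl ⟨a, mem_rws.2 ⟨b, h2⟩, h3.trans h1⟩
    · exact Or.inr ⟨b, mem_cls.2 ⟨a, h2⟩, h4.trans h1⟩
  rw [← hmp]
  refine (hR (enc φ ψ X) χ h.up ?_).symm
  intro v hv w hw hvw
  rcases hvs v hv with ⟨x, hx, rfl⟩ | ⟨y, hy, rfl⟩ <;> rcases hvs w hw with ⟨x', hx', rfl⟩ | ⟨y', hy', rfl⟩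
  · rw [hχr x hx, hχr x' hx']
    exact h'.row hx hx' ((h.row.lt_iff_lt hx hx').1 hvw)
  · rw [hχr x hx, hχc y' hy']
    exact h'.lt x hx y' hy'
  · have h1 := h.lt x' hx' y hy
    omega
  · rw [hχc y hy, hχc y' hy']
    exact h'.col hy hy' ((h.col.lt_iff_lt hy hy').1 hvw)

/-- The array of a homogeneous rank function on pairs.

Proof.  Choose a code for every `X` (`exists_cd`) and let `A.r X = R.r (enc φ_X ψ_X X)`; by `Cd.eq`
this is `R.r (enc φ ψ X)` for every code of `X`, in particular for the code of a larger set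
(`Cd.sub`).  The axioms of `RF` for `X`, `Y` follow with the code of `X ∪ Y` (`enc_union`,
`enc_mono`, `Finset.image_inter_subset`). -/
theorem exists_arr {R : RF (ℕ × ℕ)} (hR : PHom R) :
    ∃ A : RF (ℚ × ℚ), ∀ (X : Finset (ℚ × ℚ)) (φ ψ : ℚ → ℕ), Cd X φ ψ →
      A.r X = R.r (enc φ ψ X) := by
  choose Φ Ψ hΦ using exists_cd
  have key : ∀ (X Y : Finset (ℚ × ℚ)), X ⊆ Y →
      R.r (enc (Φ X) (Ψ X) X) = R.r (enc (Φ Y) (Ψ Y) X) := fun X Y h =>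
    Cd.eq hR (hΦ X) ((hΦ Y).sub h)
  refine ⟨⟨fun X => R.r (enc (Φ X) (Ψ X) X), ?_, ?_, ?_⟩, ?_⟩
  · intro X
    exact (R.le_card _).trans Finset.card_image_le
  · intro X Y h
    show R.r (enc (Φ X) (Ψ X) X) ≤ R.r (enc (Φ Y) (Ψ Y) Y)
    rw [key X Y h]
    exact R.mono (enc_mono _ _ h)
  · intro X Y
    show R.r (enc (Φ (X ∪ Y)) (Ψ (X ∪ Y)) (X ∪ Y)) + R.r (enc (Φ (X ∩ Y)) (Ψ (X ∩ Y)) (X ∩ Y)) ≤
      R.r (enc (Φ X) (Ψ X) X) + R.r (enc (Φ Y) (Ψ Y) Y)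
    have h1 : X ∩ Y ⊆ X ∪ Y := fun a ha => Finset.mem_union_left _ (Finset.mem_inter.1 ha).1
    rw [key (X ∩ Y) (X ∪ Y) h1, key X (X ∪ Y) Finset.subset_union_left,
      key Y (X ∪ Y) Finset.subset_union_right, enc_union]
    have h2 := R.submod (enc (Φ (X ∪ Y)) (Ψ (X ∪ Y)) X) (enc (Φ (X ∪ Y)) (Ψ (X ∪ Y)) Y)
    have h3 : R.r (enc (Φ (X ∪ Y)) (Ψ (X ∪ Y)) (X ∩ Y)) ≤
        R.r (enc (Φ (X ∪ Y)) (Ψ (X ∪ Y)) X ∩ enc (Φ (X ∪ Y)) (Ψ (X ∪ Y)) Y) :=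
      R.mono (Finset.image_inter_subset _ _ _)
    omega
  · intro X φ ψ h
    exact Cd.eq hR (hΦ X) h

end Pool.Agent.H.MP_60a1a2_co
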