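import Pool.Agent.H.MP_60a1a2_co.LfPArr

/-! # From homogeneous rank functions on pairs to arrays: properties -/

set_option autoImplicit false

namespace Pool.Agent.H.MP_60a1a2_co

/-- Homogeneity.

Proof.  Let `φ'`, `ψ'` be a code of `mv φ ψ X` (`exists_cd`); then `φ' ∘ φ`, `ψ' ∘ ψ` is a code of
`X` (`rws_mv`, `cls_mv`) and `enc (φ' ∘ φ) (ψ' ∘ ψ) X = enc φ' ψ' (mv φ ψ X)`. -/
theorem arr_hom {R : RF (ℕ × ℕ)} {A : RF (ℚ × ℚ)}
    (hA : ∀ (X : Finset (ℚ × ℚ)) (φ ψ : ℚ → ℕ), Cd X φ ψ → A.r X = R.r (enc φ ψ X)) : AHom A := by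
  intro X φ ψ h1 h2
  obtain ⟨φ', ψ', hc⟩ := exists_cd (mv φ ψ X)
  have hc1 := hc.row
  have hc2 := hc.col
  have hc3 := hc.lt
  rw [rws_mv] at hc1 hc3
  rw [cls_mv] at hc2 hc3
  have hX : Cd X (φ' ∘ φ) (ψ' ∘ ψ) := by
    refine ⟨?_, ?_, ?_⟩
    · intro x hx y hy hxy
      exact hc1 (by simpa using ⟨x, hx, rfl⟩) (by simpa using ⟨y, hy, rfl⟩) (h1 hx hy hxy)
    · intro x hx y hy hxy
      exact hc2 (by simpa using ⟨x, hx, rfl⟩) (by simpa using ⟨y, hy, rfl⟩) (h2 hx hy hxy)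
    · intro x hx y hy
      exact hc3 _ (Finset.mem_image_of_mem _ hx) _ (Finset.mem_image_of_mem _ hy)
  rw [hA _ _ _ hc, hA _ _ _ hX]
  congr 1
  unfold enc mv
  rw [Finset.image_image]
  rfl

/-- a vertex of the new column is not used -/
private theorem LfPArr2_col {Z : Finset (ℚ × ℚ)} {g h : ℚ} {φ ψ : ℚ → ℕ}
    (hc : Cd (insert (g, h) Z) φ ψ) (hh : h ∉ cls Z) : ψ h ∉ vs (enc φ ψ Z) := by
  intro hv
  obtain ⟨p, hp, h1⟩ := mem_vs.1 hv
  obtain ⟨a, b, hab, h2, h3⟩ := mem_enc.1 hp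
  have hhc : h ∈ cls (insert (g, h) Z) := by
    rw [cls_insert]
    exact Finset.mem_insert_self _ _
  rcases h1 with h1 | h1
  · have ha : a ∈ rws (insert (g, h) Z) := by
      rw [rws_insert]
      exact Finset.mem_insert_of_mem (mem_rws.2 ⟨b, hab⟩)
    have := hc.lt a ha h hhc
    omega
  · have hb : b ∈ cls Z := mem_cls.2 ⟨a, hab⟩
    have hb' : b ∈ cls (insert (g, h) Z) := by
      rw [cls_insert]
      exact Finset.mem_insert_of_mem hb
    have : b = h := hc.col.injOn hb' hhc (by omega)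
    exact hh (this ▸ hb)

/-- a vertex of the new row is not used -/
private theorem LfPArr2_row {Z : Finset (ℚ × ℚ)} {g h : ℚ} {φ ψ : ℚ → ℕ}
    (hc : Cd (insert (g, h) Z) φ ψ) (hg : g ∉ rws Z) : φ g ∉ vs (enc φ ψ Z) := by
  intro hv
  obtain ⟨p, hp, h1⟩ := mem_vs.1 hv
  obtain ⟨a, b, hab, h2, h3⟩ := mem_enc.1 hp
  have hgr : g ∈ rws (insert (g, h) Z) := by
    rw [rws_insert]
    exact Finset.mem_insert_self _ _
  rcases h1 with h1 | h1
  · have ha : a ∈ rws Z := mem_rws.2 ⟨b, hab⟩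
    have ha' : a ∈ rws (insert (g, h) Z) := by
      rw [rws_insert]
      exact Finset.mem_insert_of_mem ha
    have : a = g := hc.row.injOn ha' hgr (by omega)
    exact hg (this ▸ ha)
  · have hb : b ∈ cls (insert (g, h) Z) := by
      rw [cls_insert]
      exact Finset.mem_insert_of_mem (mem_cls.2 ⟨a, hab⟩)
    have := hc.lt g hgr b hb
    omega

private theorem LfPArr2_ins {R : RF (ℕ × ℕ)} (hf : Pf R) {A : RF (ℚ × ℚ)}
    (hA : ∀ (X : Finset (ℚ × ℚ)) (φ ψ : ℚ → ℕ), Cd X φ ψ → A.r X = R.r (enc φ ψ X))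
    {Z : Finset (ℚ × ℚ)} {g h : ℚ} (hgh : g ∉ rws Z ∨ h ∉ cls Z) :
    A.r (insert (g, h) Z) = A.r Z + 1 := by
  obtain ⟨φ, ψ, hc⟩ := exists_cd (insert (g, h) Z)
  have hcZ : Cd Z φ ψ := hc.sub (Finset.subset_insert _ _)
  rw [hA _ _ _ hc, hA _ _ _ hcZ]
  have h1 : enc φ ψ (insert (g, h) Z) = insert (φ g, ψ h) (enc φ ψ Z) := Finset.image_insert _ _ _
  rw [h1]
  apply hf _ _ hcZ.up
  · apply hc.lt
    · rw [rws_insert]
      exact Finset.mem_insert_self _ _
    · rw [cls_insert]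
      exact Finset.mem_insert_self _ _
  · rcases hgh with hg | hh
    · exact Or.inl (LfPArr2_row hc hg)
    · exact Or.inr (LfPArr2_col hc hh)

/-- Elements in a fresh column are free.

Proof.  `T = {g}`; let `φ`, `ψ` be a code of `insert (g, h) Z`.
`enc φ ψ (insert (g, h) Z) = insert (φ g, ψ h) (enc φ ψ Z)`; the vertex `ψ h` is not a vertex of
`enc φ ψ Z`: it is different from `φ x` (`Cd.lt`) and from `ψ y` for `y ∈ cls Z` (`ψ` is injective,
`h ∉ cls Z`).  Use `Pf` (`φ g < ψ h`). -/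
theorem arr_ci {R : RF (ℕ × ℕ)} (hf : Pf R) {A : RF (ℚ × ℚ)}
    (hA : ∀ (X : Finset (ℚ × ℚ)) (φ ψ : ℚ → ℕ), Cd X φ ψ → A.r X = R.r (enc φ ψ X)) : CI A 1 := by
  intro h T Z hT hh
  obtain ⟨g, rfl⟩ := Finset.card_eq_one.1 hT
  have h2 : Z ∪ {g} ×ˢ {h} = insert (g, h) Z := by
    ext ⟨a, b⟩
    simp only [Finset.mem_union, Finset.mem_product, Finset.mem_insert, Finset.mem_singleton,
      Prod.mk.injEq]
    tauto
  rw [h2]
  exact LfPArr2_ins hf hA (Or.inr hh)

/-- Elements in a fresh row are free: the same with the vertex `φ g`. -/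
theorem arr_ri {R : RF (ℕ × ℕ)} (hf : Pf R) {A : RF (ℚ × ℚ)}
    (hA : ∀ (X : Finset (ℚ × ℚ)) (φ ψ : ℚ → ℕ), Cd X φ ψ → A.r X = R.r (enc φ ψ X)) : RI A 1 := by
  intro g T Z hT hg
  obtain ⟨h, rfl⟩ := Finset.card_eq_one.1 hT
  have h2 : Z ∪ {g} ×ˢ {h} = insert (g, h) Z := by
    ext ⟨a, b⟩
    simp only [Finset.mem_union, Finset.mem_product, Finset.mem_insert, Finset.mem_singleton,
      Prod.mk.injEq]
    tauto
  rw [h2]
  exact LfPArr2_ins hf hA (Or.inl hg)

/-- the position in `G` -/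
private theorem LfPArr2_pos {G : Finset ℚ} {x y : ℚ} (hx : x ∈ G) (hxy : x < y) :
    (G.filter (· < x)).card < (G.filter (· < y)).card := by
  apply Finset.card_lt_card
  rw [Finset.ssubset_iff_of_subset]
  · exact ⟨x, Finset.mem_filter.2 ⟨hx, hxy⟩, fun h => lt_irrefl x (Finset.mem_filter.1 h).2⟩
  · intro z hz
    rw [Finset.mem_filter] at hz ⊢
    exact ⟨hz.1, hz.2.trans hxy⟩

private theorem LfPArr2_pos_lt {G : Finset ℚ} {x : ℚ} (hx : x ∈ G) :
    (G.filter (· < x)).card < G.card := by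
  apply Finset.card_lt_card
  rw [Finset.ssubset_iff_of_subset (Finset.filter_subset _ _)]
  exact ⟨x, hx, fun h => lt_irrefl x (Finset.mem_filter.1 h).2⟩

private theorem LfPArr2_image (G : Finset ℚ) (c : ℕ) :
    G.image (fun x => c + (G.filter (· < x)).card) = Finset.Ico c (c + G.card) := by
  apply Finset.eq_of_subset_of_card_le
  · intro m hm
    obtain ⟨x, hx, rfl⟩ := Finset.mem_image.1 hm
    have := LfPArr2_pos_lt hx
    rw [Finset.mem_Ico]
    omega
  · rw [Finset.card_image_of_injOn, Nat.card_Ico]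
    · omega
    · intro x hx y hy hxy
      simp only at hxy
      rcases lt_trichotomy x y with h | h | h
      · have := LfPArr2_pos hx h
        omega
      · exact h
      · have := LfPArr2_pos hy h
        omega

/-- The rank of products.

Proof.  Use the code `φ x = (G.filter (· < x)).card`, `ψ y = G.card + (H.filter (· < y)).card` of
`G ×ˢ H` (as in `exists_cd`; `rws_prod_sub`, `cls_prod_sub`).
`enc φ ψ (G ×ˢ H) = G.image φ ×ˢ H.image ψ`, `G.image φ = range G.card` (injective on `G`, values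
`< G.card`, compare cardinalities) and `H.image ψ = Ico G.card (G.card + H.card)`. -/
theorem arr_prod {R : RF (ℕ × ℕ)} {A : RF (ℚ × ℚ)}
    (hA : ∀ (X : Finset (ℚ × ℚ)) (φ ψ : ℚ → ℕ), Cd X φ ψ → A.r X = R.r (enc φ ψ X))
    (G H : Finset ℚ) : A.r (G ×ˢ H) = R.r (rect G.card H.card) := by
  have hc : Cd (G ×ˢ H) (fun x => 0 + (G.filter (· < x)).card)
      (fun y => G.card + (H.filter (· < y)).card) := by
    refine ⟨?_, ?_, ?_⟩
    · intro x hx y hy hxy
      have := LfPArr2_pos (rws_prod_sub G H hx) hxy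
      simp only
      omega
    · intro x hx y hy hxy
      have := LfPArr2_pos (cls_prod_sub G H hx) hxy
      simp only
      omega
    · intro x hx y hy
      have := LfPArr2_pos_lt (rws_prod_sub G H hx)
      show 0 + (G.filter (· < x)).card < G.card + (H.filter (· < y)).card
      omega
  rw [hA _ _ _ hc]
  congr 1
  have h1 := LfPArr2_image G 0
  have h2 := LfPArr2_image H G.card
  rw [zero_add] at h1
  unfold rect
  rw [Finset.range_eq_Ico, ← h1, ← h2]
  unfold enc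
  exact Finset.prodMap_image_product _ _ _ _

/-- Minors of the array are minors of the rank function on pairs.

Proof.  Let `C`, `f` be given, `W = C ∪ univ.image f`, let `φ`, `ψ` be a code of `W`, take
`C' = enc φ ψ C`, `f' t = (φ (f t).1, ψ (f t).2)` and `n` larger than all vertices of `enc φ ψ W`
(`Up.sub_prs`, `Cd.up`).  `f'` is injective and `f' t ∉ C'` by `Cd.inj`; ranks: `hA` for
`J.image f ∪ C` and for `C` (`Cd.sub`). -/
theorem arr_minor {R : RF (ℕ × ℕ)} {A : RF (ℚ × ℚ)}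
    (hA : ∀ (X : Finset (ℚ × ℚ)) (φ ψ : ℚ → ℕ), Cd X φ ψ → A.r X = R.r (enc φ ψ X)) {k : ℕ}
    (h : ∃ W, HasM A W (unif k)) : ∃ n, HasM R (prs (Finset.range n)) (unif k) := by
  obtain ⟨W0, C, f, hC, hf, hfC, hr⟩ := h
  obtain ⟨φ, ψ, hc⟩ := exists_cd (C ∪ Finset.univ.image f)
  have hCW : C ⊆ C ∪ Finset.univ.image f := Finset.subset_union_left
  have hfW : ∀ t, f t ∈ C ∪ Finset.univ.image f := fun t =>
    Finset.mem_union_right _ (Finset.mem_image_of_mem _ (Finset.mem_univ _))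
  refine ⟨(vs (enc φ ψ (C ∪ Finset.univ.image f))).sup id + 1, enc φ ψ C,
    fun t => Prod.map φ ψ (f t), ?_, ?_, ?_, ?_⟩
  · refine (enc_mono φ ψ hCW).trans (hc.up.sub_prs ?_)
    intro x hx
    rw [Finset.mem_range]
    exact Nat.lt_succ_of_le (Finset.le_sup (f := id) hx)
  · intro s t hst
    exact hf (hc.inj (hfW s) (hfW t) hst)
  · intro t
    rw [Finset.mem_sdiff]
    constructor
    · have h1 : Prod.map φ ψ (f t) ∈ enc φ ψ (C ∪ Finset.univ.image f) :=
        Finset.mem_image_of_mem _ (hfW t)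
      refine (hc.up.sub_prs ?_) h1
      intro x hx
      rw [Finset.mem_range]
      exact Nat.lt_succ_of_le (Finset.le_sup (f := id) hx)
    · intro h1
      obtain ⟨z, hz, h2⟩ := Finset.mem_image.1 h1
      have h3 := hc.inj (hCW hz) (hfW t) h2
      exact (Finset.mem_sdiff.1 (hfC t)).2 (h3 ▸ hz)
  · intro J
    have h1 : J.image (fun t => Prod.map φ ψ (f t)) ∪ enc φ ψ C = enc φ ψ (J.image f ∪ C) := by
      rw [enc_union]
      congr 1
      unfold enc
      rw [Finset.image_image]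
      rfl
    have hJ : J.image f ∪ C ⊆ C ∪ Finset.univ.image f := by
      intro z hz
      rcases Finset.mem_union.1 hz with h2 | h2
      · obtain ⟨t, _, rfl⟩ := Finset.mem_image.1 h2
        exact hfW t
      · exact hCW h2
    rw [h1, ← hA _ _ _ (hc.sub hJ), ← hA _ _ _ (hc.sub hCW)]
    exact hr J

end Pool.Agent.H.MP_60a1a2_co
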