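import Pool.Agent.H.MP_60a1a2_co.LfArr
import Pool.Agent.H.MP_60a1a2_co.LfPArr2
import Pool.Agent.H.MP_60a1a2_co.LfNF

/-! # The main theorem on homogeneous rank functions on pairs -/

set_option autoImplicit false

namespace Pool.Agent.H.MP_60a1a2_co

/-- A function on pairs of natural numbers with values bounded by `g + h + c` is a maximum of
`F g h - g - h` somewhere.

Proof.  Consider the least possible value of `g + h + c - F g h` (`Nat.find` or well-foundedness),
a natural number which measures `F g h - g - h` (all `F g h ≤ g + h + c`). -/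
theorem exists_max (F : ℕ → ℕ → ℕ) (c : ℕ) (h : ∀ g h, F g h ≤ g + h + c) :
    ∃ g0 h0, ∀ g h, F g h + g0 + h0 ≤ F g0 h0 + g + h := by
  classical
  have hex : ∃ n, ∃ a b, a + b + c = n + F a b :=
    ⟨0 + 0 + c - F 0 0, 0, 0, by have := h 0 0; omega⟩
  obtain ⟨a, b, hab⟩ := Nat.find_spec hex
  refine ⟨a, b, fun g k => ?_⟩
  have h1 : Nat.find hex ≤ g + k + c - F g k :=
    Nat.find_min' hex ⟨g, k, by have := h g k; omega⟩
  have h2 := h g k
  omega

/-- a set of `n` rational numbers -/
theorem lfpmain_card (n : ℕ) : ((Finset.range n).image (fun i : ℕ => (i : ℚ))).card = n := by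
  rw [Finset.card_image_of_injective _ Nat.cast_injective, Finset.card_range]

/-- The dichotomy for homogeneous rank functions on pairs.

Proof.  Let `A` be the array of `exists_arr`; `arr_hom`, `arr_ci`, `arr_ri`.  `pair_nf` gives `N` with
`R.r (rect N N) < N * N`; for a set `G0` of `N` rational numbers (`(range N).image (fun i => (i : ℚ))`)
`arr_prod` gives `A.r (G0 ×ˢ G0) < G0.card * G0.card`.  `arr_main`: either all `U_{k,2k}` are minors
of `A`, use `arr_minor`; or `A.r (G ×ˢ H) ≤ G.card + H.card + c` for all `G`, `H`, so (`arr_prod`)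
`R.r (rect g h) ≤ g + h + c`; `exists_max` for `F g h = R.r (rect (g + 1) (h + 1))` (constant `c + 2`)
gives `g`, `h` with `F (g + N) (h + N) + g + h ≤ F g h + (g + N) + (h + N)`. -/
theorem pair_main {R : RF (ℕ × ℕ)} (hR : PHom R) (hf : Pf R) {s : ℕ}
    (h : R.r (prs (Finset.range s)) < (prs (Finset.range s)).card) :
    (∃ g h : ℕ, ∀ N, R.r (rect (g + 1 + N) (h + 1 + N)) ≤ R.r (rect (g + 1) (h + 1)) + 2 * N) ∨
      ∀ k, ∃ n, HasM R (prs (Finset.range n)) (unif k) := by
  obtain ⟨A, hA⟩ := exists_arr hR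
  obtain ⟨N, hN⟩ := pair_nf hR h
  have h0 : A.r (((Finset.range N).image (fun i : ℕ => (i : ℚ))) ×ˢ
      ((Finset.range N).image (fun i : ℕ => (i : ℚ)))) <
      ((Finset.range N).image (fun i : ℕ => (i : ℚ))).card *
        ((Finset.range N).image (fun i : ℕ => (i : ℚ))).card := by
    rw [arr_prod hA, lfpmain_card]
    exact hN
  rcases arr_main (arr_hom hA) (arr_ci hf hA) (arr_ri hf hA) h0 with ⟨c, hc⟩ | hU
  · left
    have hrect : ∀ g k, R.r (rect g k) ≤ g + k + c := by
      intro g k
      have h1 := hc ((Finset.range g).image (fun i : ℕ => (i : ℚ)))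
        ((Finset.range k).image (fun i : ℕ => (i : ℚ)))
      rw [arr_prod hA, lfpmain_card, lfpmain_card] at h1
      exact h1
    obtain ⟨g, k, hgk⟩ := exists_max (fun g k => R.r (rect (g + 1) (k + 1))) (c + 2)
      (fun g k => by have := hrect (g + 1) (k + 1); omega)
    refine ⟨g, k, fun M => ?_⟩
    have h1 := hgk (g + M) (k + M)
    rw [show g + M + 1 = g + 1 + M by omega, show k + M + 1 = k + 1 + M by omega] at h1
    omega
  · right
    exact fun k => arr_minor hA (hU k)

end Pool.Agent.H.MP_60a1a2_co
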