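import Pool.Agent.H.MP_60a1a2_co.LfLim
import Pool.Agent.H.MP_60a1a2_co.LfPMain

/-! # Sequences of counterexamples -/

set_option autoImplicit false

namespace Pool.Agent.H.MP_60a1a2_co

/-- the transfer property of the homogeneous limit -/
def Trf (R : ℕ → RF (ℕ × ℕ)) (R' : RF (ℕ × ℕ)) : Prop :=
  ∀ (S : Finset (Finset (ℕ × ℕ))) (N m : ℕ),
    ∃ (n : ℕ) (η : ℕ → ℕ), N ≤ n ∧ StrictMono η ∧ (∀ i < m, η i < n) ∧
      ∀ X ∈ S, (R n).r (mp η X) = R'.r X

theorem LfPCore_mp_prs {η : ℕ → ℕ} (hη : StrictMono η) (V : Finset ℕ) :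
    mp η (prs V) = prs (V.image η) := by
  ext q
  rw [mem_mp, mem_prs, Finset.mem_image, Finset.mem_image]
  constructor
  · rintro ⟨p, hp, h1, h2⟩
    obtain ⟨a1, a2, a3⟩ := mem_prs.1 hp
    refine ⟨⟨p.1, a1, h1⟩, ⟨p.2, a2, h2⟩, ?_⟩
    rw [← h1, ← h2]
    exact hη a3
  · rintro ⟨⟨a, ha, h1⟩, ⟨b, hb, h2⟩, h3⟩
    refine ⟨(a, b), mem_prs.2 ⟨ha, hb, ?_⟩, h1, h2⟩
    rw [← h1, ← h2] at h3
    exact hη.lt_iff_lt.1 h3

theorem LfPCore_inj {η : ℕ → ℕ} (hη : StrictMono η) : Function.Injective (Prod.map η η) :=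
  hη.injective.prodMap hη.injective

theorem LfPCore_sub {η : ℕ → ℕ} (hη : StrictMono η) {X : Finset (ℕ × ℕ)} (hX : Up X) {n : ℕ}
    (h : ∀ x ∈ vs X, η x < n) : mp η X ⊆ prs (Finset.range n) := by
  refine (hX.mp (hη.strictMonoOn _)).sub_prs ?_
  rw [vs_mp]
  intro y hy
  obtain ⟨x, hx, rfl⟩ := Finset.mem_image.1 hy
  exact Finset.mem_range.2 (h x hx)

/-- Proof.  Use `Trf` for `S = {X, insert p X}`, `m` larger than all vertices of `insert p X`.
`mp η X ⊆ prs (range n)` (`Up.sub_prs`, `vs_mp`, `Up.mp`), `mp η (insert p X) =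
insert (η p.1, η p.2) (mp η X)`, and `η p.1 ∉ vs (mp η X)` or `η p.2 ∉ vs (mp η X)` by injectivity
(`vs_mp`).  Use `Cex.fresh`. -/
theorem core_pf {R : ℕ → RF (ℕ × ℕ)} {R' : RF (ℕ × ℕ)} {s k : ℕ} (h : ∀ n, Cex (R n) n s k)
    (ht : Trf R R') : Pf R' := by
  intro X p hX hp hfr
  set V := vs (insert p X) with hV
  have hm : ∀ x ∈ V, x < V.sup id + 1 := fun x hx =>
    Nat.lt_succ_of_le (Finset.le_sup (f := id) hx)
  obtain ⟨n, η, -, hη, hlt, hr⟩ := ht {X, insert p X} 0 (V.sup id + 1)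
  have h1 : ∀ x ∈ V, η x < n := fun x hx => hlt x (hm x hx)
  have hsub : mp η X ⊆ prs (Finset.range n) :=
    LfPCore_sub hη hX fun x hx => h1 x (vs_mono (Finset.subset_insert p X) hx)
  have hpm : (η p.1, η p.2) ∈ prs (Finset.range n) :=
    mem_prs.2 ⟨Finset.mem_range.2 (h1 _ (vs_fst (Finset.mem_insert_self p X))),
      Finset.mem_range.2 (h1 _ (vs_snd (Finset.mem_insert_self p X))), hη hp⟩
  have hfr' : η p.1 ∉ vs (mp η X) ∨ η p.2 ∉ vs (mp η X) := by
    rw [vs_mp]
    rcases hfr with hf | hf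
    · left
      intro hc
      obtain ⟨x, hx, hx2⟩ := Finset.mem_image.1 hc
      exact hf (hη.injective hx2 ▸ hx)
    · right
      intro hc
      obtain ⟨x, hx, hx2⟩ := Finset.mem_image.1 hc
      exact hf (hη.injective hx2 ▸ hx)
  have h2 := (h n).fresh (mp η X) hsub (η p.1, η p.2) hpm hfr'
  rw [← mp_insert, hr (insert p X) (by simp), hr X (by simp)] at h2
  exact h2

/-- Proof.  `Trf` for `S = {prs (range s)}`, `m = s`; `mp η (prs (range s)) = prs ((range s).image η)`,
`η` is injective (the cardinality does not change), use `Cex.dep`. -/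
theorem core_dep {R : ℕ → RF (ℕ × ℕ)} {R' : RF (ℕ × ℕ)} {s k : ℕ} (h : ∀ n, Cex (R n) n s k)
    (ht : Trf R R') : R'.r (prs (Finset.range s)) < (prs (Finset.range s)).card := by
  obtain ⟨n, η, -, hη, hlt, hr⟩ := ht {prs (Finset.range s)} 0 s
  have h1 := (h n).dep ((Finset.range s).image η) (by
    intro y hy
    obtain ⟨x, hx, rfl⟩ := Finset.mem_image.1 hy
    exact Finset.mem_range.2 (hlt x (Finset.mem_range.1 hx)))
    (by rw [Finset.card_image_of_injective _ hη.injective, Finset.card_range])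
  rw [← LfPCore_mp_prs hη, hr _ (Finset.mem_singleton_self _)] at h1
  have h2 : (mp η (prs (Finset.range s))).card = (prs (Finset.range s)).card :=
    Finset.card_image_of_injective _ (LfPCore_inj hη)
  rwa [h2] at h1

/-- Proof.  Let `C`, `f` be given for `R'`.  `Trf` for the set `S` of all subsets of `prs (range m)`
(this contains `J.image f ∪ C` and `C`) gives `n`, `η`; take `C' = mp η C`,
`f' t = (η (f t).1, η (f t).2)`; `η` is injective; `f' t ∈ prs (range n)`, `C' ⊆ prs (range n)` by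
`η i < n` for `i < m`.  Contradiction to `Cex.nou`. -/
theorem core_nou {R : ℕ → RF (ℕ × ℕ)} {R' : RF (ℕ × ℕ)} {s k : ℕ} (h : ∀ n, Cex (R n) n s k)
    (ht : Trf R R') (m : ℕ) : ¬ HasM R' (prs (Finset.range m)) (unif k) := by
  rintro ⟨C, f, hC, hf, hfm, hJ⟩
  obtain ⟨n, η, -, hη, hlt, hr⟩ := ht (prs (Finset.range m)).powerset 0 m
  have hinj := LfPCore_inj hη
  have hin : ∀ X : Finset (ℕ × ℕ), X ⊆ prs (Finset.range m) → mp η X ⊆ prs (Finset.range n) := by
    intro X hX
    refine LfPCore_sub hη ((up_prs _).sub hX) fun x hx => hlt x ?_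
    exact Finset.mem_range.1 (vs_prs_sub _ (vs_mono hX hx))
  refine (h n).nou ⟨mp η C, fun t => Prod.map η η (f t), hin C hC, hinj.comp hf, fun t => ?_,
    fun J => ?_⟩
  · obtain ⟨h1, h2⟩ := Finset.mem_sdiff.1 (hfm t)
    refine Finset.mem_sdiff.2 ⟨?_, ?_⟩
    · have h3 := hin {f t} (Finset.singleton_subset_iff.2 h1)
      refine h3 ?_
      unfold mp
      rw [Finset.image_singleton]
      exact Finset.mem_singleton_self _
    · intro h3
      unfold mp at h3
      obtain ⟨x, hx, hx2⟩ := Finset.mem_image.1 h3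
      exact h2 (hinj hx2 ▸ hx)
  · have hsubJ : J.image f ∪ C ⊆ prs (Finset.range m) := by
      refine Finset.union_subset ?_ hC
      intro x hx
      obtain ⟨t, -, rfl⟩ := Finset.mem_image.1 hx
      exact (Finset.mem_sdiff.1 (hfm t)).1
    have h1 : J.image (fun t => Prod.map η η (f t)) ∪ mp η C = mp η (J.image f ∪ C) := by
      rw [mp_union]
      congr 1
      unfold mp
      rw [Finset.image_image]
      rfl
    rw [h1, hr _ (Finset.mem_powerset.2 hsubJ), hr _ (Finset.mem_powerset.2 hC)]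
    exact hJ J

/-- Rectangles of small rank in some counterexample.

Proof.  `exists_hom R` gives `R'`, `PHom R'`, `Trf R R'`.  `pair_main` with `core_pf`, `core_dep`; the
second alternative is impossible by `core_nou`.  So we have `g`, `h`.  For `N` let
`P = rect (g + 1 + N) (h + 1 + N)`, `Q = range (g + 1) ×ˢ Ico (g + 1 + N) (g + 1 + N + (h + 1))`.
`R'.r Q = R'.r (rect (g + 1) (h + 1))` (homogeneity with `φ i = i` for `i < g + 1` and
`φ i = i + N` for `i ≥ g + 1`).  `Trf` for `S = {P, Q}` and `m = g + 1 + N + (h + 1 + N)`. -/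
theorem pair_core {s k : ℕ} {R : ℕ → RF (ℕ × ℕ)} (hR : ∀ n, Cex (R n) n s k) :
    ∃ g h : ℕ, ∀ N, ∃ (n : ℕ) (η : ℕ → ℕ), StrictMono η ∧
      (∀ i < g + 1 + N + (h + 1 + N), η i < n) ∧
      (R n).r (mp η (rect (g + 1 + N) (h + 1 + N))) ≤
        (R n).r (mp η (Finset.range (g + 1) ×ˢ
          Finset.Ico (g + 1 + N) (g + 1 + N + (h + 1)))) + 2 * N := by
  obtain ⟨R', hP, ht⟩ := exists_hom R
  have ht' : Trf R R' := ht
  rcases pair_main hP (core_pf hR ht') (core_dep hR ht') with ⟨g, h, hgh⟩ | hk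
  · refine ⟨g, h, fun N => ?_⟩
    set P := rect (g + 1 + N) (h + 1 + N) with hPdef
    set Q := Finset.range (g + 1) ×ˢ
      Finset.Ico (g + 1 + N) (g + 1 + N + (h + 1)) with hQdef
    obtain ⟨n, η, -, hη, hlt, hr⟩ := ht {P, Q} 0 (g + 1 + N + (h + 1 + N))
    refine ⟨n, η, hη, hlt, ?_⟩
    rw [hr P (by simp), hr Q (by simp)]
    have hQ : R'.r Q = R'.r (rect (g + 1) (h + 1)) := by
      set φ : ℕ → ℕ := fun i => if i < g + 1 then i else i + N with hφ
      have hmono : StrictMono φ := by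
        intro a b hab
        simp only [hφ]
        split_ifs <;> omega
      have hQm : mp φ (rect (g + 1) (h + 1)) = Q := by
        ext q
        rw [mem_mp, hQdef, Finset.mem_product, Finset.mem_range, Finset.mem_Ico]
        constructor
        · rintro ⟨p, hp, h1, h2⟩
          unfold rect at hp
          rw [Finset.mem_product, Finset.mem_range, Finset.mem_Ico] at hp
          simp only [hφ] at h1 h2
          rw [if_pos hp.1] at h1
          rw [if_neg (by omega)] at h2
          omega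
        · rintro ⟨h1, h2, h3⟩
          refine ⟨(q.1, q.2 - N), ?_, ?_, ?_⟩
          · unfold rect
            rw [Finset.mem_product, Finset.mem_range, Finset.mem_Ico]
            refine ⟨h1, ?_, ?_⟩
            · show g + 1 ≤ q.2 - N
              omega
            · show q.2 - N < g + 1 + (h + 1)
              omega
          · show φ q.1 = q.1
            simp only [hφ]
            rw [if_pos h1]
          · show φ (q.2 - N) = q.2
            simp only [hφ]
            rw [if_neg (by omega)]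
            omega
      rw [← hQm]
      exact hP _ φ (up_rect _ _) (hmono.strictMonoOn _)
    rw [hQ]
    exact hgh N
  · obtain ⟨m, hm⟩ := hk k
    exact absurd hm (core_nou hR ht' m)

end Pool.Agent.H.MP_60a1a2_co
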