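import Pool.Agent.H.MP_60a1a2_co.Defs

/-! # The infinite Ramsey theorem for finite sets of a fixed size -/

set_option autoImplicit false

namespace Pool.Agent.H.MP_60a1a2_co

theorem RamInf_step (r : ℕ) (ih : ∀ (c : Finset ℕ → Prop) (H : Set ℕ), H.Infinite →
    ∃ H' ⊆ H, H'.Infinite ∧ ((∀ s : Finset ℕ, (s : Set ℕ) ⊆ H' → s.card = r → c s) ∨
      (∀ s : Finset ℕ, (s : Set ℕ) ⊆ H' → s.card = r → ¬ c s))) (c : Finset ℕ → Prop)
    (S : Set ℕ) (hS : S.Infinite) :
    ∃ (a : ℕ) (T : Set ℕ), a ∈ S ∧ T ⊆ S ∧ T.Infinite ∧ (∀ x ∈ T, a < x) ∧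
      ((∀ s : Finset ℕ, (s : Set ℕ) ⊆ T → s.card = r → c (insert a s)) ∨
        (∀ s : Finset ℕ, (s : Set ℕ) ⊆ T → s.card = r → ¬ c (insert a s))) := by
  obtain ⟨a, ha⟩ := hS.nonempty
  have h1 : (S ∩ {x | a < x}).Infinite := by
    refine (hS.sdiff (Set.finite_Iic a)).mono ?_
    rintro x ⟨h1, h2⟩
    exact ⟨h1, by simpa using h2⟩
  obtain ⟨T, hT, hTinf, hcol⟩ := ih (fun s => c (insert a s)) _ h1
  exact ⟨a, T, ha, fun x hx => (hT hx).1, hTinf, fun x hx => (hT hx).2, hcol⟩

/-- Infinite Ramsey theorem (two colours).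

Proof by induction on `r`, for all `c` and `H`.  `r = 0`: only `s = ∅`, take `H' = H`.
`r + 1`: construct recursively elements `a_0 < a_1 < ...` of `H` and infinite sets
`H = S_0 ⊇ S_1 ⊇ ...` with `a_n ∈ S_n`, all elements of `S_{n+1}` larger than `a_n` and
`S_{n+1} ⊆ S_n` homogeneous for the colouring `s ↦ c (insert a_n s)` of the `r`-sets (induction
hypothesis, applied to `{x ∈ S_n | a_n < x}`); let `b_n` be the colour (true if `c` holds).
For infinitely many `n` the value `b_n` is the same; `H' = {a_n | b_n = b}`.  A set `s ⊆ H'` with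
`r + 1` elements is `insert a_n s'` with `a_n = min s` and `s' ⊆ S_{n+1}`.
(Alternative: with the ultrafilter `Filter.hyperfilter ℕ` on an enumeration of `H`.) -/
theorem ramsey_inf (r : ℕ) : ∀ (c : Finset ℕ → Prop) (H : Set ℕ), H.Infinite →
    ∃ H' ⊆ H, H'.Infinite ∧ ((∀ s : Finset ℕ, (s : Set ℕ) ⊆ H' → s.card = r → c s) ∨
      (∀ s : Finset ℕ, (s : Set ℕ) ⊆ H' → s.card = r → ¬ c s)) := by
  induction r with
  | zero =>
    intro c H hH
    refine ⟨H, Set.Subset.refl H, hH, ?_⟩
    by_cases h : c ∅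
    · left
      intro s _ hs
      rw [Finset.card_eq_zero.1 hs]
      exact h
    · right
      intro s _ hs
      rw [Finset.card_eq_zero.1 hs]
      exact h
  | succ r ih =>
    intro c H hH
    choose a T ha hTS hTinf haT hcol using RamInf_step r ih c
    let S : ℕ → {S : Set ℕ // S.Infinite} := fun n =>
      Nat.rec ⟨H, hH⟩ (fun _ S => ⟨T S.1 S.2, hTinf S.1 S.2⟩) n
    let α : ℕ → ℕ := fun n => a (S n).1 (S n).2
    have hα : ∀ n, α n ∈ (S n).1 := fun n => ha _ _
    have hSS : ∀ n, (S (n + 1)).1 ⊆ (S n).1 := fun n => hTS _ _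
    have hanti : Antitone fun n => (S n).1 := antitone_nat_of_succ_le hSS
    have hlt : ∀ n, ∀ x ∈ (S (n + 1)).1, α n < x := fun n => haT _ _
    have hmono : StrictMono α := strictMono_nat_of_lt_succ fun n => hlt n _ (hα (n + 1))
    have hcol' : ∀ n, (∀ s : Finset ℕ, (s : Set ℕ) ⊆ (S (n + 1)).1 → s.card = r →
        c (insert (α n) s)) ∨ (∀ s : Finset ℕ, (s : Set ℕ) ⊆ (S (n + 1)).1 → s.card = r →
        ¬ c (insert (α n) s)) := fun n => hcol _ _
    have fin : ∀ (D : Finset ℕ → Prop) (I : Set ℕ), I.Infinite →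
        (∀ n ∈ I, ∀ s : Finset ℕ, (s : Set ℕ) ⊆ (S (n + 1)).1 → s.card = r →
          D (insert (α n) s)) → α '' I ⊆ H ∧ (α '' I).Infinite ∧
        ∀ s : Finset ℕ, (s : Set ℕ) ⊆ α '' I → s.card = r + 1 → D s := by
      intro D I hI hD
      refine ⟨?_, hI.image hmono.injective.injOn, ?_⟩
      · rintro x ⟨n, _, rfl⟩
        exact hanti (Nat.zero_le n) (hα n)
      · intro s hs hcard
        have hne : s.Nonempty := Finset.card_pos.1 (by omega)
        have hmin := Finset.min'_mem s hne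
        obtain ⟨n, hn, hnm⟩ := hs hmin
        have h1 : insert (α n) (s.erase (α n)) = s := by
          apply Finset.insert_erase
          rw [hnm]
          exact hmin
        have h2 := hD n hn (s.erase (α n)) (by
          intro x hx
          rw [Finset.mem_coe, Finset.mem_erase] at hx
          obtain ⟨k, hk, rfl⟩ := hs hx.2
          have h3 : α n ≤ α k := by
            rw [hnm]
            exact Finset.min'_le s _ hx.2
          have h4 : α n < α k := lt_of_le_of_ne h3 (Ne.symm hx.1)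
          have h5 : n < k := hmono.lt_iff_lt.1 h4
          exact hanti (Nat.succ_le_of_lt h5) (hα k)) (by
          rw [Finset.card_erase_of_mem (by rw [hnm]; exact hmin)]
          omega)
        rw [h1] at h2
        exact h2
    by_cases hinf : {n | ∀ s : Finset ℕ, (s : Set ℕ) ⊆ (S (n + 1)).1 → s.card = r →
        c (insert (α n) s)}.Infinite
    · obtain ⟨h1, h2, h3⟩ := fin c _ hinf (fun n hn => hn)
      exact ⟨_, h1, h2, Or.inl h3⟩
    · have hinf2 : {n | ∀ s : Finset ℕ, (s : Set ℕ) ⊆ (S (n + 1)).1 → s.card = r →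
          c (insert (α n) s)}ᶜ.Infinite := (Set.not_infinite.1 hinf).infinite_compl
      obtain ⟨h1, h2, h3⟩ := fin (fun s => ¬ c s) _ hinf2 (fun n hn =>
        (hcol' n).resolve_left hn)
      exact ⟨_, h1, h2, Or.inr h3⟩

end Pool.Agent.H.MP_60a1a2_co
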