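import Pool.Agent.H.MP_60a1a2_co.LfPDefs
import Pool.Agent.H.MP_60a1a2_co.RamInf

/-! # Ramsey theorem for patterns of pairs -/

set_option autoImplicit false

namespace Pool.Agent.H.MP_60a1a2_co

/-- two strictly increasing maps on a finite set with the same image are equal.

Proof.  For example by `Finset.orderEmbOfFin_unique`: with `o = s.orderEmbOfFin rfl`, `η ∘ o` and
`η' ∘ o` are strictly increasing maps of `Fin s.card` with values in `s.image η = s.image η'`, which
has `s.card` elements. -/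
theorem ram_unique {s : Finset ℕ} {η η' : ℕ → ℕ} (h : StrictMonoOn η (s : Set ℕ))
    (h' : StrictMonoOn η' (s : Set ℕ)) (he : s.image η = s.image η') : ∀ x ∈ s, η x = η' x := by
  intro x hx
  have hcard : (s.image η).card = s.card := Finset.card_image_of_injOn h.injOn
  have h1 : (η ∘ s.orderEmbOfFin rfl) = (s.image η).orderEmbOfFin hcard := by
    apply Finset.orderEmbOfFin_unique
    · intro i
      exact Finset.mem_image_of_mem _ (Finset.orderEmbOfFin_mem s rfl i)
    · intro i j hij
      exact h (Finset.orderEmbOfFin_mem s rfl i) (Finset.orderEmbOfFin_mem s rfl j)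
        ((s.orderEmbOfFin rfl).strictMono hij)
  have h2 : (η' ∘ s.orderEmbOfFin rfl) = (s.image η).orderEmbOfFin hcard := by
    apply Finset.orderEmbOfFin_unique
    · intro i
      rw [he]
      exact Finset.mem_image_of_mem _ (Finset.orderEmbOfFin_mem s rfl i)
    · intro i j hij
      exact h' (Finset.orderEmbOfFin_mem s rfl i) (Finset.orderEmbOfFin_mem s rfl j)
        ((s.orderEmbOfFin rfl).strictMono hij)
  have h3 : x ∈ Set.range (s.orderEmbOfFin rfl) := by
    rw [Finset.range_orderEmbOfFin]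
    exact hx
  obtain ⟨i, rfl⟩ := h3
  exact congrFun (h1.trans h2.symm) i

/-- Ramsey theorem for one pattern.

Proof.  Show by induction on `m` that there is an infinite `H' ⊆ H` such that for all `v < m` the
statement `R.r (mp η X) = v` holds for all or for no strictly increasing `η` on `vs X` with values in
`H'`: step: `ramsey_inf` with `r = (vs X).card` and the colouring
`c s := ∃ η, StrictMonoOn η (vs X) ∧ (vs X).image η = s ∧ R.r (mp η X) = m`
(by `ram_unique` and `mp_congr` the rank `R.r (mp η X)` depends only on `s = (vs X).image η`, and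
`((vs X).image η).card = (vs X).card` because `η` is injective on `vs X`).
Take `m = X.card + 1`: for `η`, `η'` let `v = R.r (mp η X) ≤ X.card` (`le_card`,
`Finset.card_image_le`). -/
theorem ram_pat (R : RF (ℕ × ℕ)) (X : Finset (ℕ × ℕ)) (H : Set ℕ) (hH : H.Infinite) :
    ∃ H' ⊆ H, H'.Infinite ∧ ∀ η η' : ℕ → ℕ, StrictMonoOn η (vs X : Set ℕ) →
      StrictMonoOn η' (vs X : Set ℕ) → (∀ x ∈ vs X, η x ∈ H') → (∀ x ∈ vs X, η' x ∈ H') →
        R.r (mp η X) = R.r (mp η' X) := by
  have key : ∀ m : ℕ, ∃ H' ⊆ H, H'.Infinite ∧ ∀ v < m,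
      (∀ η : ℕ → ℕ, StrictMonoOn η (vs X : Set ℕ) → (∀ x ∈ vs X, η x ∈ H') →
        R.r (mp η X) = v) ∨
      (∀ η : ℕ → ℕ, StrictMonoOn η (vs X : Set ℕ) → (∀ x ∈ vs X, η x ∈ H') →
        R.r (mp η X) ≠ v) := by
    intro m
    induction m with
    | zero => exact ⟨H, Set.Subset.refl H, hH, fun v hv => absurd hv (Nat.not_lt_zero v)⟩
    | succ m ih =>
      obtain ⟨H1, hH1, hinf1, h1⟩ := ih
      obtain ⟨H2, hH2, hinf2, h2⟩ := ramsey_inf (vs X).card (fun s => ∃ η : ℕ → ℕ,
        StrictMonoOn η (vs X : Set ℕ) ∧ (vs X).image η = s ∧ R.r (mp η X) = m) H1 hinf1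
      refine ⟨H2, hH2.trans hH1, hinf2, fun v hv => ?_⟩
      rcases Nat.lt_succ_iff_lt_or_eq.1 hv with hv | rfl
      · rcases h1 v hv with h3 | h3
        · exact Or.inl fun η hη hx => h3 η hη fun x hx1 => hH2 (hx x hx1)
        · exact Or.inr fun η hη hx => h3 η hη fun x hx1 => hH2 (hx x hx1)
      · have himg : ∀ η : ℕ → ℕ, (∀ x ∈ vs X, η x ∈ H2) →
            (((vs X).image η : Finset ℕ) : Set ℕ) ⊆ H2 := by
          intro η hx y hy
          rw [Finset.mem_coe, Finset.mem_image] at hy
          obtain ⟨x, hx1, rfl⟩ := hy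
          exact hx x hx1
        rcases h2 with h2 | h2
        · left
          intro η hη hx
          obtain ⟨η0, hη0, he, hr⟩ := h2 ((vs X).image η) (himg η hx)
            (Finset.card_image_of_injOn hη.injOn)
          rw [← hr, mp_congr (ram_unique hη hη0 he.symm)]
        · right
          intro η hη hx hr
          exact h2 ((vs X).image η) (himg η hx) (Finset.card_image_of_injOn hη.injOn)
            ⟨η, hη, rfl, hr⟩
  obtain ⟨H', hH', hinf, h⟩ := key (X.card + 1)
  refine ⟨H', hH', hinf, fun η η' hη hη' hx hx' => ?_⟩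
  have hv : R.r (mp η X) < X.card + 1 :=
    Nat.lt_succ_of_le ((R.le_card _).trans Finset.card_image_le)
  rcases h _ hv with h1 | h1
  · exact (h1 η' hη' hx').symm
  · exact absurd rfl (h1 η hη hx)

/-- Ramsey theorem for all patterns on `N` vertices.

Proof.  Induction on a finite set of patterns (`Finset.induction_on`) with `ram_pat`: for every
finite set `S` of patterns there is an infinite `H` which is good for all `X ∈ S`; take
`S = (prs (range N)).powerset`. -/
theorem hom_level (R : RF (ℕ × ℕ)) (N : ℕ) :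
    ∃ H : Set ℕ, H.Infinite ∧ ∀ X ⊆ prs (Finset.range N), ∀ η η' : ℕ → ℕ,
      StrictMonoOn η (vs X : Set ℕ) → StrictMonoOn η' (vs X : Set ℕ) → (∀ x ∈ vs X, η x ∈ H) →
        (∀ x ∈ vs X, η' x ∈ H) → R.r (mp η X) = R.r (mp η' X) := by
  have key : ∀ S : Finset (Finset (ℕ × ℕ)), ∃ H : Set ℕ, H.Infinite ∧ ∀ X ∈ S, ∀ η η' : ℕ → ℕ,
      StrictMonoOn η (vs X : Set ℕ) → StrictMonoOn η' (vs X : Set ℕ) → (∀ x ∈ vs X, η x ∈ H) →
        (∀ x ∈ vs X, η' x ∈ H) → R.r (mp η X) = R.r (mp η' X) := by
    intro S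
    classical
    induction S using Finset.induction_on with
    | empty => exact ⟨Set.univ, Set.infinite_univ, fun X hX => absurd hX (Finset.notMem_empty X)⟩
    | insert X S _ ih =>
      obtain ⟨H, hH, h⟩ := ih
      obtain ⟨H', hH', hinf, h'⟩ := ram_pat R X H hH
      refine ⟨H', hinf, fun Y hY η η' hη hη' hx hx' => ?_⟩
      rcases Finset.mem_insert.1 hY with rfl | hY
      · exact h' η η' hη hη' hx hx'
      · exact h Y hY η η' hη hη' (fun x hx1 => hH' (hx x hx1)) (fun x hx1 => hH' (hx' x hx1))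
  obtain ⟨H, hH, h⟩ := key (prs (Finset.range N)).powerset
  exact ⟨H, hH, fun X hX => h X (Finset.mem_powerset.2 hX)⟩

end Pool.Agent.H.MP_60a1a2_co
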