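import Pool.Agent.H.MP_60a1a2_co.LfBase

/-! # Arrays: contraction of elements outside of the unit square -/

set_option autoImplicit false

namespace Pool.Agent.H.MP_60a1a2_co

/-- the array inside of the unit square, over `Ω` -/
def inn (A : RF (ℚ × ℚ)) (Ω : Finset (ℚ × ℚ)) : RF (ℚ × ℚ) :=
  (A.con Ω).map (Prod.map shr shr)

theorem inn_add (A : RF (ℚ × ℚ)) (Ω X : Finset (ℚ × ℚ)) :
    (inn A Ω).r X + A.r Ω = A.r (mv shr shr X ∪ Ω) := A.con_add Ω (mv shr shr X)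

theorem lfShrink_out_rws {Ω : Finset (ℚ × ℚ)} (hΩ : ∀ z ∈ Ω, Out01 z.1 ∧ Out01 z.2) :
    ∀ y ∈ rws Ω, Out01 y := by
  intro y hy
  obtain ⟨h, hh⟩ := mem_rws.1 hy
  exact (hΩ _ hh).1

theorem lfShrink_out_cls {Ω : Finset (ℚ × ℚ)} (hΩ : ∀ z ∈ Ω, Out01 z.1 ∧ Out01 z.2) :
    ∀ y ∈ cls Ω, Out01 y := by
  intro y hy
  obtain ⟨g, hg⟩ := mem_cls.1 hy
  exact (hΩ _ hg).2

theorem lfShrink_cls {Ω Z : Finset (ℚ × ℚ)} (hΩ : ∀ z ∈ Ω, Out01 z.1 ∧ Out01 z.2) {h : ℚ}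
    (hh : h ∉ cls Z) : shr h ∉ cls (mv shr shr Z ∪ Ω) := by
  rw [cls_union, cls_mv, Finset.mem_union, Finset.mem_image]
  rintro (⟨x, hx, hxh⟩ | h1)
  · rw [shr_mono.injective hxh] at hx
    exact hh hx
  · exact shr_not_out h (lfShrink_out_cls hΩ _ h1)

theorem lfShrink_rws {Ω Z : Finset (ℚ × ℚ)} (hΩ : ∀ z ∈ Ω, Out01 z.1 ∧ Out01 z.2) {g : ℚ}
    (hg : g ∉ rws Z) : shr g ∉ rws (mv shr shr Z ∪ Ω) := by
  rw [rws_union, rws_mv, Finset.mem_union, Finset.mem_image]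
  rintro (⟨x, hx, hxh⟩ | h1)
  · rw [shr_mono.injective hxh] at hx
    exact hg hx
  · exact shr_not_out g (lfShrink_out_rws hΩ _ h1)

/-- Proof.  For strictly increasing `φ`, `ψ` on the rows and columns of `X` take `χ1`, `χ2` from
`mono_glue` (for `rws X` and `rws Ω`, for `cls X` and `cls Ω`; `hΩ` gives `Out01` for the elements
of `rws Ω`, `cls Ω` by `mem_rws`, `mem_cls`).  `mv χ1 χ2 (mv shr shr X ∪ Ω) =
mv shr shr (mv φ ψ X) ∪ Ω` (`mv_union`, `mv_mv`, `mv_congr`, `mv_id`), so homogeneity of `A` for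
`mv shr shr X ∪ Ω` (rows `(rws X).image shr ∪ rws Ω`: `rws_union`, `rws_mv`) and `inn_add` twice. -/
theorem AHom.inn {A : RF (ℚ × ℚ)} (hA : AHom A) {Ω : Finset (ℚ × ℚ)}
    (hΩ : ∀ z ∈ Ω, Out01 z.1 ∧ Out01 z.2) : AHom (inn A Ω) := by
  intro X φ ψ hφ hψ
  obtain ⟨χ1, a1, a2, a3⟩ := mono_glue hφ (lfShrink_out_rws hΩ)
  obtain ⟨χ2, b1, b2, b3⟩ := mono_glue hψ (lfShrink_out_cls hΩ)
  have e1 : mv χ1 χ2 (mv shr shr X ∪ Ω) = mv shr shr (mv φ ψ X) ∪ Ω := by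
    rw [mv_union, mv_mv, mv_mv]
    congr 1
    · exact mv_congr (fun g hg => a2 g hg) (fun h hh => b2 h hh)
    · rw [mv_congr (φ' := id) (ψ' := id) (fun g hg => a3 g hg) (fun h hh => b3 h hh), mv_id]
  have e2 := hA (mv shr shr X ∪ Ω) χ1 χ2 (by rw [rws_union, rws_mv]; exact a1)
    (by rw [cls_union, cls_mv]; exact b1)
  rw [e1] at e2
  have e3 := inn_add A Ω (mv φ ψ X)
  have e4 := inn_add A Ω X
  omega

/-- Proof.  `mv shr shr (Z ∪ T ×ˢ {h}) ∪ Ω = (mv shr shr Z ∪ Ω) ∪ (T.image shr) ×ˢ {shr h}`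
(`mv_union`, `mv_prod`, `Finset.image_singleton`), `(T.image shr).card = T.card`
(`shr_mono.injective`), the column `shr h` is not used by `mv shr shr Z` (injectivity) nor by `Ω`
(`shr_not_out`).  `inn_add` twice. -/
theorem CI.inn {A : RF (ℚ × ℚ)} {t : ℕ} (h : CI A t) {Ω : Finset (ℚ × ℚ)}
    (hΩ : ∀ z ∈ Ω, Out01 z.1 ∧ Out01 z.2) : CI (inn A Ω) t := by
  intro c T Z hT hc
  have e1 : mv shr shr (Z ∪ T ×ˢ {c}) ∪ Ω = (mv shr shr Z ∪ Ω) ∪ (T.image shr) ×ˢ {shr c} := by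
    rw [mv_union, mv_prod, Finset.image_singleton]
    exact Finset.union_right_comm _ _ _
  have e2 := h (shr c) (T.image shr) (mv shr shr Z ∪ Ω)
    (by rw [Finset.card_image_of_injective _ shr_mono.injective, hT]) (lfShrink_cls hΩ hc)
  have e3 := inn_add A Ω (Z ∪ T ×ˢ {c})
  have e4 := inn_add A Ω Z
  rw [e1] at e3
  omega

/-- The same for rows (or by symmetry). -/
theorem RI.inn {A : RF (ℚ × ℚ)} {t : ℕ} (h : RI A t) {Ω : Finset (ℚ × ℚ)}
    (hΩ : ∀ z ∈ Ω, Out01 z.1 ∧ Out01 z.2) : RI (inn A Ω) t := by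
  intro c T Z hT hc
  have e1 : mv shr shr (Z ∪ {c} ×ˢ T) ∪ Ω = (mv shr shr Z ∪ Ω) ∪ {shr c} ×ˢ (T.image shr) := by
    rw [mv_union, mv_prod, Finset.image_singleton]
    exact Finset.union_right_comm _ _ _
  have e2 := h (shr c) (T.image shr) (mv shr shr Z ∪ Ω)
    (by rw [Finset.card_image_of_injective _ shr_mono.injective, hT]) (lfShrink_rws hΩ hc)
  have e3 := inn_add A Ω (Z ∪ {c} ×ˢ T)
  have e4 := inn_add A Ω Z
  rw [e1] at e3
  omega

/-- Minors of the inner array are minors of the array.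

Proof.  Let `C`, `f` be given for `inn A Ω`.  Take `C' = mv shr shr C ∪ Ω`,
`f' t = (shr (f t).1, shr (f t).2)` and a large `W'`, for example `C'` together with the image of
`f'`.  `f'` is injective because `shr` is; `f' t ∉ Ω` (`shr_not_out`), `f' t ∉ mv shr shr C`
(injectivity).  `inn_add` for `J.image f ∪ C` and for `C`. -/
theorem HasM.inn {A : RF (ℚ × ℚ)} {Ω : Finset (ℚ × ℚ)} (hΩ : ∀ z ∈ Ω, Out01 z.1 ∧ Out01 z.2)
    {k : ℕ} (h : ∃ W, HasM (inn A Ω) W (unif k)) : ∃ W, HasM A W (unif k) := by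
  obtain ⟨W, C, f, _, hinj, hf, hr⟩ := h
  have hpinj : Function.Injective (Prod.map shr shr : ℚ × ℚ → ℚ × ℚ) :=
    shr_mono.injective.prodMap shr_mono.injective
  refine ⟨(mv shr shr C ∪ Ω) ∪ Finset.univ.image (fun t => Prod.map shr shr (f t)),
    mv shr shr C ∪ Ω, fun t => Prod.map shr shr (f t), Finset.subset_union_left,
    hpinj.comp hinj, ?_, ?_⟩
  · intro t
    rw [Finset.mem_sdiff]
    refine ⟨Finset.mem_union_right _ (Finset.mem_image_of_mem _ (Finset.mem_univ t)), ?_⟩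
    rw [Finset.mem_union]
    rintro (h1 | h1)
    · obtain ⟨y, hy, hy2⟩ := Finset.mem_image.1 h1
      rw [hpinj hy2] at hy
      exact (Finset.mem_sdiff.1 (hf t)).2 hy
    · exact shr_not_out _ (hΩ _ h1).1
  · intro J
    have e1 := inn_add A Ω (J.image f ∪ C)
    have e2 := inn_add A Ω C
    have e3 := hr J
    have e4 : mv shr shr (J.image f ∪ C) ∪ Ω =
        J.image (fun t => Prod.map shr shr (f t)) ∪ (mv shr shr C ∪ Ω) := by
      rw [mv_union, Finset.union_assoc]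
      congr 1
      unfold mv
      rw [Finset.image_image]
      rfl
    rw [e4] at e1
    omega

end Pool.Agent.H.MP_60a1a2_co
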