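import Pool.Agent.H.MP_60a1a2_co.LfKap

/-! # Critical elements -/

set_option autoImplicit false

namespace Pool.Agent.H.MP_60a1a2_co

variable {α : Type*} [DecidableEq α]

theorem LfY_sdiff_sdiff {E Y : Finset α} (h : Y ⊆ E) : E \ (E \ Y) = Y := by
  ext a
  simp only [Finset.mem_sdiff]
  have := @h a
  tauto

/-- The union of tight sets is tight.

Proof.  Submodularity for `Y`, `Y'` and for `E \ Y`, `E \ Y'` (`E \ (Y ∪ Y') = (E \ Y) ∩ (E \ Y')`,
`E \ (Y ∩ Y') = (E \ Y) ∪ (E \ Y')`); `hk` for `X = E \ (Y ∩ Y')` and for `X = E \ (Y ∪ Y')`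
(`E \ X = Y ∩ Y'`, `E \ X = Y ∪ Y'`). -/
theorem tight_union2 {M : RF α} {E S B : Finset α} {w : ℕ} (hS : S ⊆ E) (hk : Kap M E S B w)
    {Y Y' : Finset α} (hY : Y ⊆ E \ S) (hY' : Y' ⊆ E \ S) (hB : B ⊆ Y) (hB' : B ⊆ Y')
    (h : M.r (E \ Y) + M.r Y = w + M.r E) (h' : M.r (E \ Y') + M.r Y' = w + M.r E) :
    M.r (E \ (Y ∪ Y')) + M.r (Y ∪ Y') = w + M.r E := by
  have hYE : Y ⊆ E := hY.trans Finset.sdiff_subset
  have hYE' : Y' ⊆ E := hY'.trans Finset.sdiff_subset
  have h1 := hk (E \ (Y ∩ Y')) (by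
    intro a ha
    have h3 := @hY a
    simp only [Finset.mem_sdiff, Finset.mem_inter] at *
    exact ⟨hS ha, fun h4 => (h3 h4.1).2 ha⟩) Finset.sdiff_subset (by
    rw [Finset.disjoint_left]
    intro a ha hb
    simp only [Finset.mem_sdiff, Finset.mem_inter] at ha
    exact ha.2 ⟨hB hb, hB' hb⟩)
  have h2 := hk (E \ (Y ∪ Y')) (by
    intro a ha
    have h3 := @hY a
    have h4 := @hY' a
    simp only [Finset.mem_sdiff, Finset.mem_union] at *
    refine ⟨hS ha, ?_⟩
    rintro (h5 | h5)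
    · exact (h3 h5).2 ha
    · exact (h4 h5).2 ha) Finset.sdiff_subset (by
    rw [Finset.disjoint_left]
    intro a ha hb
    simp only [Finset.mem_sdiff, Finset.mem_union] at ha
    exact ha.2 (Or.inl (hB hb)))
  rw [LfY_sdiff_sdiff (Finset.inter_subset_left.trans hYE)] at h1
  rw [LfY_sdiff_sdiff (Finset.union_subset hYE hYE')] at h2
  have s1 := M.submod Y Y'
  have s2 := M.submod (E \ Y) (E \ Y')
  have e1 : (E \ Y) ∪ (E \ Y') = E \ (Y ∩ Y') := by
    ext a
    simp only [Finset.mem_sdiff, Finset.mem_union, Finset.mem_inter]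
    tauto
  have e2 : (E \ Y) ∩ (E \ Y') = E \ (Y ∪ Y') := by
    ext a
    simp only [Finset.mem_sdiff, Finset.mem_union, Finset.mem_inter]
    tauto
  rw [e1, e2] at s2
  omega

/-- A critical element is in a tight set.

Proof.  There is `X` with `S ⊆ X ⊆ E.erase c`, disjoint from `B`, and
`(M.con {c}).r X + (M.con {c}).r (E.erase c \ X) < w + (M.con {c}).r (E.erase c)`.  Let `Y = E \ X`;
`c ∈ Y`, `E.erase c \ X ∪ {c} = Y`, `E.erase c ∪ {c} = E`, so by `con_add`
`M.r (X ∪ {c}) + M.r Y < w + M.r E + M.r {c} ≤ w + M.r E + 1`.  With `M.r X ≤ M.r (X ∪ {c})` and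
`hk` for `X` we get equality (`E \ Y = X`). -/
theorem crit_tight {M : RF α} {E S B : Finset α} {w : ℕ} (hB : B ⊆ E) (hk : Kap M E S B w) {c : α}
    (hc : c ∈ E \ (S ∪ B)) (h : ¬ Kap (M.con {c}) (E.erase c) S B w) :
    ∃ Y, B ⊆ Y ∧ Y ⊆ E \ S ∧ c ∈ Y ∧ M.r (E \ Y) + M.r Y = w + M.r E := by
  unfold Kap at h
  push Not at h
  obtain ⟨X, hSX, hXE, hXB, hlt⟩ := h
  have hXE' : X ⊆ E := hXE.trans (Finset.erase_subset _ _)
  have hcE : c ∈ E := (Finset.mem_sdiff.1 hc).1
  have hcX : c ∉ X := fun h1 => (Finset.mem_erase.1 (hXE h1)).1 rfl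
  have a1 := M.con_add {c} X
  have a2 := M.con_add {c} (E.erase c \ X)
  have a3 := M.con_add {c} (E.erase c)
  have e2 : E.erase c \ X ∪ {c} = E \ X := by
    ext a
    simp only [Finset.mem_sdiff, Finset.mem_union, Finset.mem_erase, Finset.mem_singleton]
    constructor
    · rintro (⟨⟨_, h2⟩, h3⟩ | h1)
      · exact ⟨h2, h3⟩
      · rw [h1]
        exact ⟨hcE, hcX⟩
    · rintro ⟨h1, h2⟩
      by_cases h3 : a = c
      · exact Or.inr h3
      · exact Or.inl ⟨⟨h3, h1⟩, h2⟩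
  have e3 : E.erase c ∪ {c} = E := by
    ext a
    simp only [Finset.mem_union, Finset.mem_erase, Finset.mem_singleton]
    constructor
    · rintro (⟨_, h2⟩ | h1)
      · exact h2
      · rw [h1]
        exact hcE
    · intro h1
      by_cases h3 : a = c
      · exact Or.inr h3
      · exact Or.inl ⟨h3, h1⟩
  rw [e2] at a2
  rw [e3] at a3
  have hc1 : M.r {c} ≤ 1 := by
    have := M.le_card {c}
    simpa using this
  have hm : M.r X ≤ M.r (X ∪ {c}) := M.mono Finset.subset_union_left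
  have hkX := hk X hSX hXE' hXB
  refine ⟨E \ X, ?_, ?_, ?_, ?_⟩
  · intro a ha
    exact Finset.mem_sdiff.2 ⟨hB ha, fun h1 => (Finset.disjoint_left.1 hXB) h1 ha⟩
  · intro a ha
    rw [Finset.mem_sdiff] at ha ⊢
    exact ⟨ha.1, fun h1 => ha.2 (hSX h1)⟩
  · exact Finset.mem_sdiff.2 ⟨hcE, hcX⟩
  · rw [LfY_sdiff_sdiff hXE']
    omega

/-- There is a set which contains all critical elements and has small local connectivity to `S`.

Proof.  Let `T` be the set of all `Y ⊆ E \ S` with `B ⊆ Y` and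
`M.r (E \ Y) + M.r Y = w + M.r E` (a filter of the power set).  If `T` is empty there are no critical
elements (`crit_tight`) and we take `Y = B` (`M.r S ≤ M.r (S ∪ B)`).  Otherwise let `Y ∈ T` have
maximal cardinality; by `tight_union2` every `Y' ∈ T` is contained in `Y`, so `Y` contains all
critical elements (`crit_tight`).  `incr` for `S ⊆ E \ Y` and `U = Y`:
`M.r ((E \ Y) ∪ Y) - M.r (E \ Y) ≤ M.r (S ∪ Y) - M.r S`, and `(E \ Y) ∪ Y = E`, so
`M.r S + M.r Y ≤ M.r (S ∪ Y) + w`. -/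
theorem lemY {M : RF α} {E S B : Finset α} {w : ℕ} (hS : S ⊆ E) (hB : B ⊆ E)
    (hd : Disjoint S B) (hk : Kap M E S B w) :
    ∃ Y, B ⊆ Y ∧ Y ⊆ E \ S ∧ M.r S + M.r Y ≤ M.r (S ∪ Y) + max w (M.r B) ∧
      ∀ c ∈ E \ (S ∪ B), ¬ Kap (M.con {c}) (E.erase c) S B w → c ∈ Y := by
  classical
  by_cases hT : ((E \ S).powerset.filter
      (fun Y => B ⊆ Y ∧ M.r (E \ Y) + M.r Y = w + M.r E)).Nonempty
  · obtain ⟨Y, hY, hmax⟩ := Finset.exists_max_image _ (fun Y => Y.card) hT
    simp only [Finset.mem_filter, Finset.mem_powerset] at hY hmax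
    obtain ⟨hYS, hBY, htight⟩ := hY
    have hYE : Y ⊆ E := hYS.trans Finset.sdiff_subset
    refine ⟨Y, hBY, hYS, ?_, ?_⟩
    · have hSY : S ⊆ E \ Y := by
        intro a ha
        exact Finset.mem_sdiff.2 ⟨hS ha, fun h1 => (Finset.mem_sdiff.1 (hYS h1)).2 ha⟩
      have h1 := M.incr hSY Y
      have e1 : (E \ Y) ∪ Y = E := Finset.sdiff_union_of_subset hYE
      rw [e1] at h1
      have h2 : w ≤ max w (M.r B) := le_max_left _ _
      omega
    · intro c hc hcr
      obtain ⟨Y', hBY', hYS', hcY', ht'⟩ := crit_tight hB hk hc hcr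
      have h1 := tight_union2 hS hk hYS hYS' hBY hBY' htight ht'
      have h2 := hmax (Y ∪ Y') ⟨Finset.union_subset hYS hYS',
        hBY.trans Finset.subset_union_left, h1⟩
      have h3 : Y = Y ∪ Y' := Finset.eq_of_subset_of_card_le Finset.subset_union_left h2
      rw [h3]
      exact Finset.mem_union_right _ hcY'
  · refine ⟨B, Finset.Subset.refl B, ?_, ?_, ?_⟩
    · intro a ha
      exact Finset.mem_sdiff.2 ⟨hB ha, fun h1 => (Finset.disjoint_left.1 hd) h1 ha⟩
    · have h1 : M.r S ≤ M.r (S ∪ B) := M.mono Finset.subset_union_left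
      have h2 : M.r B ≤ max w (M.r B) := le_max_right _ _
      omega
    · intro c hc hcr
      exfalso
      obtain ⟨Y', hBY', hYS', _, ht'⟩ := crit_tight hB hk hc hcr
      apply hT
      exact ⟨Y', by
        simp only [Finset.mem_filter, Finset.mem_powerset]
        exact ⟨hYS', hBY', ht'⟩⟩

end Pool.Agent.H.MP_60a1a2_co
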