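import Pool.Agent.H.MP_60a1a2_co.ADefs
import Pool.Agent.H.MP_60a1a2_co.MinConn
import Pool.Agent.H.MP_60a1a2_co.TriB

/-! # From bounded lifts to bounded contractions -/

set_option autoImplicit false

namespace Pool.Agent.H.MP_60a1a2_co

/-- the connectivity of a minor, primal form -/
theorem minor_conn' {α : Type*} [DecidableEq α] (M : RF α) (E C E1 A : Finset α) (hC : C ⊆ E)
    (h1 : E1 ⊆ E \ C) (hA : A ⊆ E) :
    (M.con C).r (A ∩ E1) + (M.con C).r (E1 \ A) + M.r E ≤
      M.r A + M.r (E \ A) + (M.con C).r E1 := by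
  have h := minor_conn M E C E1 A hC h1 hA
  have a1 := (M.con C).dual_add (E := E1) (X := A ∩ E1) Finset.inter_subset_right
  have a2 := (M.con C).dual_add (E := E1) (X := E1 \ A) Finset.sdiff_subset
  have a3 := (M.con C).dual_add (Finset.Subset.refl E1)
  have e1 : E1 \ (A ∩ E1) = E1 \ A := by
    ext a; simp only [Finset.mem_sdiff, Finset.mem_inter]; tauto
  have e2 : E1 \ (E1 \ A) = A ∩ E1 := by
    ext a; simp only [Finset.mem_sdiff, Finset.mem_inter]; tauto
  rw [e1] at a1
  rw [e2] at a2
  rw [Finset.sdiff_self, (M.con C).r_empty] at a3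
  have c1 : (A ∩ E1).card + (E1 \ A).card = E1.card := by
    have := Finset.card_sdiff_add_card_inter E1 A
    rw [Finset.inter_comm] at this
    omega
  omega

theorem ed_card_le {α : Type*} [DecidableEq α] (e : ℕ → ℕ → α) (T : Finset ℕ) :
    (ed e T).card ≤ T.card * T.card := by
  unfold ed
  refine Finset.card_image_le.trans ?_
  rw [Finset.offDiag_card]
  omega

/-- If the rank of the clique in `M` is larger than its rank in the minor by a bounded number then
we find a uniform minor or another clique (on some of the vertices) after the contraction of a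
bounded number of elements. -/
theorem pre.{u} (k c n1 : ℕ) : ∃ n : ℕ, ∀ {α : Type u} [DecidableEq α] (M : RF α)
    (E C1 C2 : Finset α) (e1 : ℕ → ℕ → α) (V : Finset ℕ) (e2 : ℕ → ℕ → α) (W : Finset ℕ),
    Conf M E C1 C2 e1 V e2 W n → n ≤ V.card → M.r (ed e1 V) ≤ V.card + c →
    HasM M E (unif k) ∨ ∃ (F : Finset α) (V' : Finset ℕ), F.card ≤ 3 * k ∧
      Conf M E F C2 e1 V' e2 W n1 := by
  obtain ⟨n0, hn0⟩ := tri_ramsey.{u} k (c + 1) (2 * n1 + 2)
  refine ⟨n0 + (4 * n1 * n1 + n1) + 1, ?_⟩
  intro α _ M E C1 C2 e1 V e2 W h hV hr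
  have hK := h.clq
  have hVne : V.Nonempty := by
    rw [← Finset.card_pos]
    omega
  have hKr := hK.rank hVne
  have hL : Lift M (M.con C1) e1 V := by
    intro X Y hXY hY
    have b1 := M.con_add C1 X
    have b2 := M.con_add C1 Y
    have b3 := M.incr (X := Y) (Y := Y) (Finset.Subset.refl Y) C1
    have b4 := M.incr hXY C1
    omega
  rcases hn0 M (M.con C1) e1 V hK (by omega) hL (by omega) with h1 | ⟨F, V', hV', hm, hF, hFd, hFc,
    hclq⟩
  · left
    exact HasM.mono (h.hE1.trans Finset.sdiff_subset) h1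
  · right
    refine ⟨F, V', hFc, ⟨?_, ?_, hclq, h.hC2, h.hE2, h.cocl, ?_, ?_, ?_⟩⟩
    · exact hF.trans (h.hE1.trans Finset.sdiff_subset)
    · intro x hx
      rw [Finset.mem_sdiff]
      refine ⟨(Finset.mem_sdiff.1 (h.hE1 (ed_mono hV' hx))).1, fun hxF => ?_⟩
      exact Finset.disjoint_left.1 hFd hxF hx
    · exact Finset.disjoint_of_subset_left (ed_mono hV') h.dsj
    · intro X hX hXE hXd
      by_contra hcon
      have hcon' := not_le.1 hcon
      have hm1 := minor_conn' M E C1 (ed e1 V) X h.hC1 h.hE1 hXE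
      set K := M.con C1 with hKdef
      have hsub : ed e1 V' ⊆ X ∩ ed e1 V :=
        Finset.subset_inter hX (ed_mono hV')
      have hV'ne : V'.Nonempty := by
        rw [← Finset.card_pos]
        omega
      have hKV' := (hK.sub hV').rank hV'ne
      have hmon := K.mono hsub
      have hsd : ed e1 V \ (X ∩ ed e1 V) = ed e1 V \ X := by
        ext a; simp only [Finset.mem_sdiff, Finset.mem_inter]; tauto
      have hcomp := hK.compl hVne (Z := X ∩ ed e1 V) Finset.inter_subset_right
      rw [hsd] at hcomp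
      have hsmall : K.r (ed e1 V \ X) ≤ n1 := by
        rcases hcomp with h2 | h2
        · omega
        · omega
      obtain ⟨T, hT, hTc, hTs⟩ := hK.touched (Z := ed e1 V \ X) Finset.sdiff_subset
      have hc1 : (ed e1 V \ X).card ≤ (2 * n1) * (2 * n1) :=
        (Finset.card_le_card hTs).trans ((ed_card_le e1 T).trans
          (Nat.mul_le_mul (by omega) (by omega)))
      have hc2 : (2 * n1) * (2 * n1) = 4 * n1 * n1 := by ring
      have hX' := h.kap (X ∪ ed e1 V) Finset.subset_union_right
        (Finset.union_subset hXE (h.hE1.trans Finset.sdiff_subset))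
        (Finset.disjoint_union_left.2 ⟨hXd, h.dsj⟩)
      have hu : X ∪ ed e1 V = X ∪ (ed e1 V \ X) := by
        ext a; simp only [Finset.mem_union, Finset.mem_sdiff]; tauto
      have h3 : M.r (X ∪ ed e1 V) ≤ M.r X + (ed e1 V \ X).card := by
        rw [hu]
        exact M.r_union_le_card _ _
      have h4 : M.r (E \ (X ∪ ed e1 V)) ≤ M.r (E \ X) :=
        M.mono (Finset.sdiff_subset_sdiff (Finset.Subset.refl E) Finset.subset_union_left)
      omega
    · have := h.cardW
      omega

end Pool.Agent.H.MP_60a1a2_co
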