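import Pool.Agent.H.MP_60a1a2_co.MainRF
import Pool.Agent.H.MP_60a1a2_co.Pre

/-! # The main theorem for rank functions, bounded excess of the rank -/

set_option autoImplicit false

namespace Pool.Agent.H.MP_60a1a2_co

/-- the main theorem for rank functions: the rank of the clique in `M` exceeds its rank in the
minor by a bounded number -/
theorem main2.{u} (k c : ℕ) : ∃ n : ℕ, ∀ {α : Type u} [DecidableEq α] (M : RF α)
    (E C1 C2 : Finset α) (e1 : ℕ → ℕ → α) (V : Finset ℕ) (e2 : ℕ → ℕ → α) (W : Finset ℕ),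
    Conf M E C1 C2 e1 V e2 W n → n ≤ V.card → M.r (ed e1 V) ≤ V.card + c →
    (HasM M E (unif k) ∨ HasPG M E k) ∧
      ∀ M' : RF α, (∀ X ⊆ E, M.r X = (M'.dual E).r X) → HasM M' E (unif k) ∨ HasPG M' E k := by
  obtain ⟨n1, hn1⟩ := mainRF.{u} k (3 * k)
  obtain ⟨n, hn⟩ := pre.{u} k c n1
  refine ⟨n, ?_⟩
  intro α _ M E C1 C2 e1 V e2 W hconf hV hr
  rcases hn M E C1 C2 e1 V e2 W hconf hV hr with h | ⟨F, V', hF, hC⟩
  · refine ⟨Or.inl h, ?_⟩
    intro M' hM'
    left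
    exact HasM.unif_dual (Finset.Subset.refl E) (h.congr (fun X hX => (hM' X hX).symm))
  · exact hn1 M E F C2 e1 V' e2 W hC hF

end Pool.Agent.H.MP_60a1a2_co
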