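import Pool.Agent.H.MP_60a1a2_co.GR

/-! # Spanning trees with one special edge for every member of a family; conversion to minors -/

set_option autoImplicit false

namespace Pool.Agent.H.MP_60a1a2_co

variable {α : Type*} [DecidableEq α]

/-- two members of a disjoint family with a common element are equal -/
theorem TreeC_eq {P : ℕ → Prop} {G : Finset (Finset ℕ)} (hG : DF P G) {A B : Finset ℕ}
    (hA : A ∈ G) (hB : B ∈ G) {x : ℕ} (hxA : x ∈ A) (hxB : x ∈ B) : A = B := by
  by_contra hne
  exact Finset.disjoint_left.1 (hG.2 A hA B hB hne) hxA hxB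

theorem TreeC_DF_subset {P : ℕ → Prop} {G H : Finset (Finset ℕ)} (hG : DF P G) (h : H ⊆ G) :
    DF P H :=
  ⟨fun A hA => hG.1 A (h hA), fun A hA B hB => hG.2 A (h hA) B (h hB)⟩

/-- The tree.

Proof.  Choose `a A ∈ A` for `A ∈ G`.  Let the parent of `x ∈ W`, `x ≠ w0`, be `a A` if `x ∈ A ∈ G` and
`x ≠ a A`, and `w0` otherwise.  `T = {e (parent x) x | x ∈ W, x ≠ w0}`, `ε A = e w0 (a A)`.
`ε A ∈ T` (the parent of `a A` is `w0`: `a A` is in no other member).  `ε` is injective on `G`
(`IsE.inj`, the members are disjoint).  Let `J ⊆ G`, `T' = T \ J.image ε`: it contains `e (parent x) x`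
for all `x` which are not `a A` with `A ∈ J` (an edge `e (parent x) x` equal to `e w0 (a A)` has
`x = a A` by `IsE.inj`).  `T' ⊆ Zed e W J`: for such `x`, `x` and its parent are in the same
members of `J`: if the parent is `a A`, `x ∈ A`, clear by disjointness; if it is `w0`: `x` is in no
member of `G`, or `x = a A` with `A ∉ J`, so `x` is in no member of `J`.
`Zed e W J` is in the closure of `T'`: let `i ≠ j` be in the same part for `J`.  If they are in
`A ∈ J`: `i = a A` or `e (a A) i ∈ T'`, the same for `j`; `Tri.trans`.  If they are in no member of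
`J`: for `x` in no member of `J`, `x ≠ w0`, `e w0 x` is in the closure of `T'`: `x` in no member of
`G`: in `T'`; `x = a A`, `A ∉ J`: in `T'`; `x ∈ A`, `x ≠ a A`, `A ∉ J`: `e w0 (a A)`, `e (a A) x` are in
`T'`; then `Tri.trans` through `w0`.  Use `RF.r_eq_of_in`. -/
theorem tree {R : RF α} {e : ℕ → ℕ → α} {W : Finset ℕ} {w0 : ℕ} (hE : IsE e W)
    (hT : Tri R e W) (hw0 : w0 ∈ W) {G : Finset (Finset ℕ)}
    (hG : DF (fun x => x ∈ W ∧ x ≠ w0) G) :
    ∃ (T : Finset α) (ε : Finset ℕ → α), T ⊆ ed e W ∧ (∀ A ∈ G, ε A ∈ T) ∧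
      (∀ A ∈ G, ∀ B ∈ G, ε A = ε B → A = B) ∧
      ∀ J ⊆ G, R.r (T \ J.image ε) = R.r (Zed e W J) := by
  classical
  obtain ⟨a, ha⟩ : ∃ a : Finset ℕ → ℕ, ∀ A ∈ G, a A ∈ A := by
    refine ⟨fun A => if h : A.Nonempty then h.choose else 0, fun A hA => ?_⟩
    have h := (hG.1 A hA).1
    simp only [h, dif_pos]
    exact h.choose_spec
  have haW : ∀ A ∈ G, a A ∈ W := fun A hA => ((hG.1 A hA).2 _ (ha A hA)).1
  have haw : ∀ A ∈ G, a A ≠ w0 := fun A hA => ((hG.1 A hA).2 _ (ha A hA)).2
  obtain ⟨par, hp1, hp2⟩ : ∃ par : ℕ → ℕ, (∀ A ∈ G, ∀ x ∈ A, x ≠ a A → par x = a A) ∧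
      (∀ x, (¬ ∃ A ∈ G, x ∈ A ∧ x ≠ a A) → par x = w0) := by
    refine ⟨fun x => if h : ∃ A ∈ G, x ∈ A ∧ x ≠ a A then a h.choose else w0, ?_, ?_⟩
    · intro A hA x hx hxa
      have h : ∃ A ∈ G, x ∈ A ∧ x ≠ a A := ⟨A, hA, hx, hxa⟩
      have h1 := h.choose_spec
      have h2 : h.choose = A := TreeC_eq hG h1.1 hA h1.2.1 hx
      simp only [h, dif_pos, h2]
    · intro x h
      simp only [h, dif_neg, not_false_eq_true]
  have hpa : ∀ A ∈ G, par (a A) = w0 := by
    intro A hA
    apply hp2
    rintro ⟨B, hB, hAB, hne⟩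
    have : A = B := TreeC_eq hG hA hB (ha A hA) hAB
    rw [this] at hne
    exact hne rfl
  have hpW : ∀ x, par x ∈ W := by
    intro x
    by_cases h : ∃ A ∈ G, x ∈ A ∧ x ≠ a A
    · obtain ⟨A, hA, hx, hxa⟩ := h
      rw [hp1 A hA x hx hxa]
      exact haW A hA
    · rw [hp2 x h]
      exact hw0
  have hpne : ∀ x, x ≠ w0 → par x ≠ x := by
    intro x hxw
    by_cases h : ∃ A ∈ G, x ∈ A ∧ x ≠ a A
    · obtain ⟨A, hA, hx, hxa⟩ := h
      rw [hp1 A hA x hx hxa]
      exact Ne.symm hxa
    · rw [hp2 x h]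
      exact Ne.symm hxw
  have hTmem : ∀ x ∈ W, x ≠ w0 →
      e (par x) x ∈ (W.erase w0).image (fun x => e (par x) x) := by
    intro x hx hxw
    exact Finset.mem_image.2 ⟨x, Finset.mem_erase.2 ⟨hxw, hx⟩, rfl⟩
  refine ⟨(W.erase w0).image (fun x => e (par x) x), fun A => e w0 (a A), ?_, ?_, ?_, ?_⟩
  · intro y hy
    obtain ⟨x, hx, rfl⟩ := Finset.mem_image.1 hy
    obtain ⟨hxw, hxW⟩ := Finset.mem_erase.1 hx
    exact ed_mem (hpW x) hxW (hpne x hxw)
  · intro A hA
    have h := hTmem (a A) (haW A hA) (haw A hA)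
    rw [hpa A hA] at h
    exact h
  · intro A hA B hB hAB
    rcases hE.inj w0 hw0 (a A) (haW A hA) w0 hw0 (a B) (haW B hB) (Ne.symm (haw A hA))
      (Ne.symm (haw B hB)) hAB with h | h
    · apply TreeC_eq hG hA hB (ha A hA)
      rw [h.2]
      exact ha B hB
    · exact absurd h.2 (haw A hA)
  · intro J hJ
    have F1 : ∀ x ∈ W, x ≠ w0 → (∀ A ∈ J, x ≠ a A) →
        e (par x) x ∈ (W.erase w0).image (fun x => e (par x) x) \
          J.image (fun A => e w0 (a A)) := by
      intro x hxW hxw hx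
      refine Finset.mem_sdiff.2 ⟨hTmem x hxW hxw, ?_⟩
      intro hc
      obtain ⟨A, hA, hAx⟩ := Finset.mem_image.1 hc
      rcases hE.inj w0 hw0 (a A) (haW A (hJ hA)) (par x) (hpW x) x hxW
        (Ne.symm (haw A (hJ hA))) (hpne x hxw) hAx with h | h
      · exact hx A hA h.2.symm
      · exact hxw h.1.symm
    symm
    apply R.r_eq_of_in
    · intro y hy
      obtain ⟨hy1, hy2⟩ := Finset.mem_sdiff.1 hy
      obtain ⟨x, hx, rfl⟩ := Finset.mem_image.1 hy1
      obtain ⟨hxw, hxW⟩ := Finset.mem_erase.1 hx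
      refine mem_Zed.2 ⟨par x, hpW x, x, hxW, hpne x hxw, ?_, rfl⟩
      intro A hA
      by_cases h : ∃ B ∈ G, x ∈ B ∧ x ≠ a B
      · obtain ⟨B, hB, hxB, hxa⟩ := h
        rw [hp1 B hB x hxB hxa]
        constructor
        · intro h1
          have h2 : A = B := TreeC_eq hG (hJ hA) hB h1 (ha B hB)
          rw [h2]
          exact hxB
        · intro h1
          have h2 : A = B := TreeC_eq hG (hJ hA) hB h1 hxB
          rw [h2]
          exact ha B hB
      · rw [hp2 x h]
        constructor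
        · intro h1
          exact absurd rfl ((hG.1 A (hJ hA)).2 w0 h1).2
        · intro h1
          exfalso
          apply hy2
          have h3 : x = a A := by
            by_contra hc
            exact h ⟨A, hJ hA, h1, hc⟩
          refine Finset.mem_image.2 ⟨A, hA, ?_⟩
          show e w0 (a A) = e (par x) x
          rw [hp2 x h, ← h3]
    · intro y hy
      obtain ⟨i, hi, j, hj, hij, hA, rfl⟩ := mem_Zed.1 hy
      by_cases hc : ∃ A ∈ J, i ∈ A
      · obtain ⟨A, hAJ, hiA⟩ := hc
        have hjA : j ∈ A := (hA A hAJ).1 hiA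
        have hAG : A ∈ G := hJ hAJ
        have F3 : ∀ z ∈ A, z ≠ a A →
            R.In ((W.erase w0).image (fun x => e (par x) x) \
              J.image (fun A => e w0 (a A))) (e (a A) z) := by
          intro z hz hza
          have hzW := ((hG.1 A hAG).2 z hz)
          have h := F1 z hzW.1 hzW.2 (by
            intro B hB hzB
            have h1 : A = B := TreeC_eq hG hAG (hJ hB) hz (by rw [hzB]; exact ha B (hJ hB))
            rw [← h1] at hzB
            exact hza hzB)
          rw [hp1 A hAG z hz hza] at h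
          exact R.in_of_mem h
        by_cases h1 : i = a A
        · rw [h1]
          apply F3 j hjA
          intro h2
          exact hij (h1.trans h2.symm)
        · by_cases h2 : j = a A
          · rw [hE.symm i hi j hj, h2]
            exact F3 i hiA h1
          · apply hT.trans hi (haW A hAG) hj h1 (Ne.symm h2) hij
            · rw [hE.symm i hi (a A) (haW A hAG)]
              exact F3 i hiA h1
            · exact F3 j hjA h2
      · have hi0 : ∀ A ∈ J, i ∉ A := fun A hAJ hiA => hc ⟨A, hAJ, hiA⟩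
        have hj0 : ∀ A ∈ J, j ∉ A := fun A hAJ hjA => hi0 A hAJ ((hA A hAJ).2 hjA)
        have F2 : ∀ z ∈ W, z ≠ w0 → (∀ A ∈ J, z ∉ A) →
            R.In ((W.erase w0).image (fun x => e (par x) x) \
              J.image (fun A => e w0 (a A))) (e w0 z) := by
          intro z hzW hzw hz
          have h1 := F1 z hzW hzw (by
            intro A hAJ hza
            apply hz A hAJ
            rw [hza]
            exact ha A (hJ hAJ))
          by_cases h : ∃ B ∈ G, z ∈ B ∧ z ≠ a B
          · obtain ⟨B, hB, hzB, hza⟩ := h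
            rw [hp1 B hB z hzB hza] at h1
            have h2 := F1 (a B) (haW B hB) (haw B hB) (by
              intro A hAJ hab
              have h3 : A = B := TreeC_eq hG (hJ hAJ) hB
                (by rw [hab]; exact ha A (hJ hAJ)) (ha B hB)
              exact hz A hAJ (by rw [h3]; exact hzB))
            rw [hpa B hB] at h2
            exact hT.trans hw0 (haW B hB) hzW (Ne.symm (haw B hB)) (Ne.symm hza) (Ne.symm hzw)
              (R.in_of_mem h2) (R.in_of_mem h1)
          · rw [hp2 z h] at h1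
            exact R.in_of_mem h1
        by_cases h1 : i = w0
        · rw [h1]
          apply F2 j hj _ hj0
          intro h2
          exact hij (h1.trans h2.symm)
        · by_cases h2 : j = w0
          · rw [hE.symm i hi j hj, h2]
            exact F2 i hi h1 hi0
          · apply hT.trans hi hw0 hj h1 (Ne.symm h2) hij
            · rw [hE.symm i hi w0 hw0]
              exact F2 i hi h1 hi0
            · exact F2 j hj h2 hj0

/-- Minors of the system are minors of the matroid.

Proof.  Let `M' = M.con Q`, `E2 = ed e W`, `R = M'.dual E2`; `F`, `B` from `ho`,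
`G = F ∪ univ.image B`, `T`, `ε` from `tree`.  Take `C = Q ∪ ((E2 \ T) ∪ F.image ε)` and
`f t = ε (B t)` (injective; `B t ∉ F` gives `f t ∉ F.image ε`; `f t ∈ T ⊆ E2`, and `Q` is disjoint
from `E2`).  For `J' ⊆ G` let `X = T \ J'.image ε`: `E2 \ X = (E2 \ T) ∪ J'.image ε`,
`X.card + J'.card = T.card`, so by `dual_add`
`R.r (Zed e W J') + M'.r E2 + J'.card = T.card + M'.r ((E2 \ T) ∪ J'.image ε)`, and with `gR_add`
`gR R e W J' + R.r E2 + M'.r E2 = T.card + M'.r ((E2 \ T) ∪ J'.image ε)`.
Apply this to `J' = F ∪ J.image B` and to `J' = F` and subtract: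
`M'.r (J.image f ∪ ((E2 \ T) ∪ F.image ε)) - M'.r ((E2 \ T) ∪ F.image ε) =
gR (F ∪ J.image B) - gR F = h J`; finally `con_add` for `Q`. -/
theorem out_hasM {M : RF α} {Q : Finset α} {e : ℕ → ℕ → α} {W : Finset ℕ} {w0 : ℕ}
    (hE : IsE e W) (hT : Tri ((M.con Q).dual (ed e W)) e W) (hw0 : w0 ∈ W)
    (hQ : Disjoint Q (ed e W)) {τ : Type} [DecidableEq τ] [Fintype τ] {h : Finset τ → ℕ}
    (ho : Out (fun x => x ∈ W ∧ x ≠ w0) (gR ((M.con Q).dual (ed e W)) e W) h) :
    HasM M (Q ∪ ed e W) h := by
  obtain ⟨F, B, hBinj, hBF, hDF, hg⟩ := ho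
  obtain ⟨T, ε, hTE, hεT, hεinj, hrk⟩ := tree hE hT hw0 hDF
  have hFT : F.image ε ⊆ T := by
    intro y hy
    obtain ⟨A, hA, rfl⟩ := Finset.mem_image.1 hy
    exact hεT A (Finset.mem_union_left _ hA)
  have hBG : ∀ t, B t ∈ F ∪ Finset.univ.image B := fun t =>
    Finset.mem_union_right _ (Finset.mem_image_of_mem B (Finset.mem_univ t))
  have key : ∀ J' ⊆ F ∪ Finset.univ.image B,
      gR ((M.con Q).dual (ed e W)) e W J' + ((M.con Q).dual (ed e W)).r (ed e W)
        + (M.con Q).r (ed e W) = T.card + (M.con Q).r ((ed e W \ T) ∪ J'.image ε) := by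
    intro J' hJ'
    have hJT : J'.image ε ⊆ T := by
      intro y hy
      obtain ⟨A, hA, rfl⟩ := Finset.mem_image.1 hy
      exact hεT A (hJ' hA)
    have h1 := hrk J' hJ'
    have h2 := (M.con Q).dual_add (E := ed e W) (X := T \ J'.image ε)
      (Finset.sdiff_subset.trans hTE)
    have h3 : ed e W \ (T \ J'.image ε) = (ed e W \ T) ∪ J'.image ε := by
      ext y
      simp only [Finset.mem_sdiff, Finset.mem_union]
      have q1 := @hTE y
      have q2 := @hJT y
      tauto
    have h4 : (T \ J'.image ε).card + (J'.image ε).card = T.card :=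
      Finset.card_sdiff_add_card_eq_card hJT
    have h5 : (J'.image ε).card = J'.card := by
      apply Finset.card_image_of_injOn
      intro A hA A' hA' hAA
      exact hεinj A (hJ' hA) A' (hJ' hA') hAA
    have h6 := gR_add hE hT hw0 (TreeC_DF_subset hDF hJ')
    rw [h3] at h2
    omega
  refine ⟨Q ∪ ((ed e W \ T) ∪ F.image ε), fun t => ε (B t), ?_, ?_, ?_, ?_⟩
  · apply Finset.union_subset Finset.subset_union_left
    apply Finset.union_subset
    · exact Finset.sdiff_subset.trans Finset.subset_union_right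
    · exact (hFT.trans hTE).trans Finset.subset_union_right
  · intro s t hst
    exact hBinj (hεinj _ (hBG s) _ (hBG t) hst)
  · intro t
    have ht : ε (B t) ∈ T := hεT _ (hBG t)
    refine Finset.mem_sdiff.2 ⟨Finset.mem_union_right _ (hTE ht), ?_⟩
    intro hc
    rcases Finset.mem_union.1 hc with hc | hc
    · exact Finset.disjoint_left.1 hQ hc (hTE ht)
    · rcases Finset.mem_union.1 hc with hc | hc
      · exact (Finset.mem_sdiff.1 hc).2 ht
      · obtain ⟨A, hA, hAt⟩ := Finset.mem_image.1 hc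
        have : A = B t := hεinj A (Finset.mem_union_left _ hA) _ (hBG t) hAt
        rw [this] at hA
        exact hBF t hA
  · intro J
    have hJs : F ∪ J.image B ⊆ F ∪ Finset.univ.image B :=
      Finset.union_subset_union_right (Finset.image_subset_image (Finset.subset_univ J))
    have k1 := key (F ∪ J.image B) hJs
    have k2 := key F Finset.subset_union_left
    have k3 := hg J
    have c1 := M.con_add Q ((ed e W \ T) ∪ (F ∪ J.image B).image ε)
    have c2 := M.con_add Q ((ed e W \ T) ∪ F.image ε)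
    have e1 : ((ed e W \ T) ∪ (F ∪ J.image B).image ε) ∪ Q
        = J.image (fun t => ε (B t)) ∪ (Q ∪ ((ed e W \ T) ∪ F.image ε)) := by
      rw [Finset.image_union, Finset.image_image]
      ext y
      simp only [Finset.mem_union]
      have : (Finset.image (ε ∘ B) J) = J.image (fun t => ε (B t)) := rfl
      rw [this]
      tauto
    have e2 : ((ed e W \ T) ∪ F.image ε) ∪ Q = Q ∪ ((ed e W \ T) ∪ F.image ε) :=
      Finset.union_comm _ _
    rw [e1] at c1
    rw [e2] at c2
    omega

end Pool.Agent.H.MP_60a1a2_co
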