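import Pool.Agent.H.MP_60a1a2_co.TypeIFat
import Pool.Agent.H.MP_60a1a2_co.TreeC
import Pool.Agent.H.MP_60a1a2_co.Core
import Pool.Agent.H.MP_60a1a2_co.UnifDual

/-! # Part B: configurations of type I have uniform minors or projective geometries -/

set_option autoImplicit false

namespace Pool.Agent.H.MP_60a1a2_co

open Classical in
/-- `M` has a `PG(k,p)`-minor for some prime number `p` -/
def HasPG {α : Type*} [DecidableEq α] (M : RF α) (G : Finset α) (k : ℕ) : Prop :=
  ∃ (p : ℕ) (_ : Fact p.Prime), HasM M G (pg p k)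

theorem HasPG.mono {α : Type*} [DecidableEq α] {M : RF α} {G G' : Finset α} (hG : G ⊆ G')
    {k : ℕ} (h : HasPG M G k) : HasPG M G' k := by
  classical
  obtain ⟨p, hp, h⟩ := h
  exact ⟨p, hp, HasM.mono hG h⟩

theorem HasPG.of_con {α : Type*} [DecidableEq α] {M : RF α} {C0 G G' : Finset α}
    (hC : C0 ⊆ G') (hG : G ⊆ G' \ C0) {k : ℕ} (h : HasPG (M.con C0) G k) : HasPG M G' k := by
  classical
  obtain ⟨p, hp, h⟩ := h
  exact ⟨p, hp, HasM.of_con hC hG h⟩

theorem HasPG.congr {α : Type*} [DecidableEq α] {M M' : RF α} {G : Finset α}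
    (hr : ∀ X ⊆ G, M'.r X = M.r X) {k : ℕ} (h : HasPG M G k) : HasPG M' G k := by
  classical
  obtain ⟨p, hp, h⟩ := h
  exact ⟨p, hp, HasM.congr hr h⟩

theorem hasM_zero {α : Type*} [DecidableEq α] (M : RF α) (G : Finset α) :
    HasM M G (unif 0) := by
  refine ⟨∅, fun t => absurd t.2 (by simp), by simp, ?_, ?_, ?_⟩
  · intro a
    exact absurd a.2 (by simp)
  · intro a
    exact absurd a.2 (by simp)
  · intro J
    have hJ : J = ∅ := by
      apply Finset.eq_empty_of_forall_notMem
      intro a
      exact absurd a.2 (by simp)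
    subst hJ
    simp [unif]

/-- configurations of type I -/
theorem partB.{u} (k : ℕ) : ∃ L : ℕ, ∀ {α : Type u} [DecidableEq α] (M : RF α)
    (e1 : ℕ → ℕ → α) (V : Finset ℕ) (e2 : ℕ → ℕ → α) (W : Finset ℕ),
    TypeI M e1 V e2 W L →
    HasM M (ed e1 V ∪ ed e2 W) (unif k) ∨ HasPG M (ed e1 V ∪ ed e2 W) k := by
  classical
  rcases Nat.eq_zero_or_pos k with hk | hk
  · subst hk
    exact ⟨0, fun M e1 V e2 W _ => Or.inl (hasM_zero M _)⟩
  · obtain ⟨C, hC⟩ := coreFin k hk
    obtain ⟨L, hL⟩ := typeI_fat.{u} (2 * k) C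
    refine ⟨L, ?_⟩
    intro α _ M e1 V e2 W hT
    obtain ⟨Q, hQ, w0, hw0, ℓ, h1, h2, h3, h4, h5⟩ := hL M e1 V e2 W L hT le_rfl
    set R := (M.con Q).dual (ed e2 W) with hR
    have hE : IsE e2 W := hT.cocl.isE
    have hAS := AS_gR hE h3 hw0 (K := 2 * k) (by omega)
    have hQd : Disjoint Q (ed e2 W) := Finset.disjoint_of_subset_left hQ hT.dsj
    have hcom := hAS.comap ℓ (fun x : Fin (2 * k) × ℕ => x.2 < C) (fun x y hx hy => h2 x y hx hy)
      (fun x hx => h1 x hx)
    have hrow : ∀ c < C, gR R e2 W (mapF ℓ (row (2 * k) c)) = 2 * k := by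
      intro c hc
      have hfam : mapF ℓ (row (2 * k) c) =
          Finset.univ.image (fun i : Fin (2 * k) => ({ℓ (i, c)} : Finset ℕ)) := by
        unfold mapF row
        rw [Finset.image_image]
        apply Finset.image_congr
        intro i _
        simp
      have hDF : DF (fun x => x ∈ W ∧ x ≠ w0) (mapF ℓ (row (2 * k) c)) := by
        rw [hfam]
        constructor
        · intro A hA
          rw [Finset.mem_image] at hA
          obtain ⟨i, _, rfl⟩ := hA
          refine ⟨Finset.singleton_nonempty _, ?_⟩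
          intro x hx
          rw [Finset.mem_singleton] at hx
          rw [hx]
          exact h1 (i, c) hc
        · intro A hA B hB hAB
          rw [Finset.mem_image] at hA hB
          obtain ⟨i, _, rfl⟩ := hA
          obtain ⟨j, _, rfl⟩ := hB
          rw [Finset.disjoint_singleton]
          intro h
          exact hAB (by rw [h])
      have hcard : (mapF ℓ (row (2 * k) c)).card = 2 * k := by
        rw [hfam, Finset.card_image_of_injective, Finset.card_univ, Fintype.card_fin]
        intro i j hij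
        simp only [Finset.singleton_inj] at hij
        have := h2 (i, c) (j, c) hc hc hij
        exact (Prod.mk.inj this).1
      have hZ : R.r (Zed e2 W (mapF ℓ (row (2 * k) c))) = R.r (ed e2 W) := by
        apply le_antisymm
        · rw [← Zed_empty]
          exact R.mono (Zed_anti e2 W (by simp))
        · rw [← h5 c hc]
          apply R.mono
          intro x hx
          obtain ⟨i, hi, j, hj, hij, rfl⟩ := mem_ed.1 hx
          rw [Finset.mem_sdiff, Finset.mem_image] at hi hj
          refine mem_Zed.2 ⟨i, hi.1, j, hj.1, hij, ?_, rfl⟩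
          intro A hA
          rw [hfam, Finset.mem_image] at hA
          obtain ⟨t, _, rfl⟩ := hA
          rw [Finset.mem_singleton, Finset.mem_singleton]
          constructor
          · intro h
            exact absurd ⟨t, Finset.mem_univ t, h.symm⟩ hi.2
          · intro h
            exact absurd ⟨t, Finset.mem_univ t, h.symm⟩ hj.2
      have := gR_add hE h3 hw0 hDF
      rw [hcard, hZ] at this
      omega
    have hgood := hC _ hcom hrow
    have hgood2 := Good.map (P := fun x => x ∈ W ∧ x ≠ w0) (g := gR R e2 W) ℓ (fun x : Fin (2 * k) × ℕ => x.2 < C)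
      (fun x y hx hy => h2 x y hx hy) (fun x hx => h1 x hx) hgood
    have hsub : Q ∪ ed e2 W ⊆ ed e1 V ∪ ed e2 W := Finset.union_subset_union_left hQ
    rcases hgood2 with h | ⟨p, hp, hfin, h⟩
    · left
      exact HasM.mono hsub (out_hasM hE h3 hw0 hQd h)
    · right
      exact ⟨p, hp, HasM.mono hsub (out_hasM hE h3 hw0 hQd h)⟩

end Pool.Agent.H.MP_60a1a2_co
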