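import Pool.Agent.H.MP_60a1a2_co.RFBasic

/-! # Duality for configurations of type I -/

set_option autoImplicit false

namespace Pool.Agent.H.MP_60a1a2_co

variable {α : Type*} [DecidableEq α]

/-- the ground set minus a subset of the second part -/
theorem TIDual_sdiff {A B X : Finset α} (hd : Disjoint A B) (hX : X ⊆ B) :
    (A ∪ B) \ X = (B \ X) ∪ A := by
  ext a
  simp only [Finset.mem_sdiff, Finset.mem_union]
  have q1 := @hX a
  have q2 : a ∈ A → a ∉ B := fun h => Finset.disjoint_left.1 hd h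
  tauto

/-- first part: ranks of the dual on subsets of `B` -/
theorem TIDual_clq {M : RF α} {A B X : Finset α} (hd : Disjoint A B) (hX : X ⊆ B) :
    (M.dual (A ∪ B)).r X = ((M.con A).dual B).r X := by
  have h1 := M.dual_add (E := A ∪ B) (X := X) (hX.trans Finset.subset_union_right)
  have h2 := (M.con A).dual_add (E := B) (X := X) hX
  have h3 := M.con_add A B
  have h4 := M.con_add A (B \ X)
  rw [TIDual_sdiff hd hX] at h1
  rw [Finset.union_comm B A] at h3
  omega

/-- second part: ranks of the dual of the contraction of the dual on subsets of `A` -/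
theorem TIDual_cocl {M : RF α} {A B X : Finset α} (hd : Disjoint A B) (hX : X ⊆ A) :
    (((M.dual (A ∪ B)).con B).dual A).r X = M.r X := by
  have h1 := ((M.dual (A ∪ B)).con B).dual_add (E := A) (X := X) hX
  have h2 := (M.dual (A ∪ B)).con_add B A
  have h3 := (M.dual (A ∪ B)).con_add B (A \ X)
  have h4 := M.dual_add (E := A ∪ B) (X := A ∪ B) (Finset.Subset.refl _)
  have h5 := M.dual_add (E := A ∪ B) (X := (A \ X) ∪ B)
    (Finset.union_subset_union_left Finset.sdiff_subset)
  have e1 : (A ∪ B) \ ((A \ X) ∪ B) = X := by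
    ext a
    simp only [Finset.mem_sdiff, Finset.mem_union]
    have q1 := @hX a
    have q2 : a ∈ A → a ∉ B := fun h => Finset.disjoint_left.1 hd h
    tauto
  have e2 : ((A \ X) ∪ B).card = (A \ X).card + B.card :=
    Finset.card_union_of_disjoint (Finset.disjoint_of_subset_left Finset.sdiff_subset hd)
  have e3 : (A ∪ B).card = A.card + B.card := Finset.card_union_of_disjoint hd
  have e4 : (A \ X).card + X.card = A.card := Finset.card_sdiff_add_card_eq_card hX
  rw [Finset.sdiff_self, M.r_empty] at h4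
  rw [e1] at h5
  omega

/-- The dual of a configuration of type I.

Proof.  Let `A = ed e1 V`, `B = ed e2 W`, `G = A ∪ B`, `M' = M.dual G`.
`clq`: for `X ⊆ B` by `dual_add` `M'.r X = X.card + M.r (G \ X) - M.r G` and
`((M.con A).dual B).r X = X.card + (M.con A).r (B \ X) - (M.con A).r B =
X.card + M.r ((B \ X) ∪ A) - M.r (B ∪ A)`; `G \ X = (B \ X) ∪ A`; `IsK.congr`.
`cocl`: for `X ⊆ A`: `((M'.con B).dual A).r X = X.card + M'.r ((A \ X) ∪ B) - M'.r (A ∪ B)`, with
`M'.r ((A \ X) ∪ B) = (A \ X).card + B.card + M.r X - M.r G` and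
`M'.r (A ∪ B) = A.card + B.card - M.r G`; so it is `M.r X`; `IsK.congr` from `h.clq`.
`lam`: `M'.r B = B.card + M.r A - M.r G`, `M'.r A = A.card + M.r B - M.r G`,
`M'.r G = A.card + B.card - M.r G`. -/
theorem TypeI.dual {M : RF α} {e1 : ℕ → ℕ → α} {V : Finset ℕ} {e2 : ℕ → ℕ → α} {W : Finset ℕ}
    {L : ℕ} (h : TypeI M e1 V e2 W L) :
    TypeI (M.dual (ed e1 V ∪ ed e2 W)) e2 W e1 V L := by
  have hd := h.dsj
  refine ⟨?_, hd.symm, ?_, ?_⟩
  · exact h.cocl.congr (fun X hX => TIDual_clq hd hX)
  · exact h.clq.congr (fun X hX => TIDual_cocl hd hX)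
  · have hl := h.lam
    have h1 := M.dual_add (E := ed e1 V ∪ ed e2 W) (X := ed e1 V) Finset.subset_union_left
    have h2 := M.dual_add (E := ed e1 V ∪ ed e2 W) (X := ed e2 W) Finset.subset_union_right
    have h3 := M.dual_add (E := ed e1 V ∪ ed e2 W) (X := ed e1 V ∪ ed e2 W)
      (Finset.Subset.refl _)
    have e1' : (ed e1 V ∪ ed e2 W) \ ed e1 V = ed e2 W := by
      ext a
      simp only [Finset.mem_sdiff, Finset.mem_union]
      have q2 : a ∈ ed e1 V → a ∉ ed e2 W := fun h => Finset.disjoint_left.1 hd h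
      tauto
    have e2' : (ed e1 V ∪ ed e2 W) \ ed e2 W = ed e1 V := by
      ext a
      simp only [Finset.mem_sdiff, Finset.mem_union]
      have q2 : a ∈ ed e1 V → a ∉ ed e2 W := fun h => Finset.disjoint_left.1 hd h
      tauto
    have e3 : (ed e1 V ∪ ed e2 W).card = (ed e1 V).card + (ed e2 W).card :=
      Finset.card_union_of_disjoint hd
    rw [e1'] at h1
    rw [e2'] at h2
    rw [Finset.sdiff_self, M.r_empty] at h3
    rw [Finset.union_comm (ed e2 W) (ed e1 V)]
    omega

/-- `((M^* / C) | G)^*` is `(M / (E \ C \ G)) | G`.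

Proof: `RF.dual_con` for the matroid `M.dual E`, and `RF.dual_dual` for the sets
`X ∪ ((E \ C) \ G)` and `(E \ C) \ G` (`con_add`). -/
theorem dual_con_dual {M : RF α} {E C G X : Finset α} (hC : C ⊆ E) (hG : G ⊆ E \ C)
    (hX : X ⊆ G) :
    (((M.dual E).con C).dual G).r X = (M.con ((E \ C) \ G)).r X := by
  rw [(M.dual E).dual_con hC hG hX]
  have hD : (E \ C) \ G ⊆ E := Finset.sdiff_subset.trans Finset.sdiff_subset
  have hXE : X ∪ ((E \ C) \ G) ⊆ E :=
    Finset.union_subset (hX.trans (hG.trans Finset.sdiff_subset)) hD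
  have h1 := ((M.dual E).dual E).con_add ((E \ C) \ G) X
  have h2 := M.con_add ((E \ C) \ G) X
  have h3 := M.dual_dual hD
  have h4 := M.dual_dual hXE
  omega

end Pool.Agent.H.MP_60a1a2_co
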