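import Pool.Agent.H.MP_60a1a2_co.PartA
import Pool.Agent.H.MP_60a1a2_co.PartB
import Pool.Agent.H.MP_60a1a2_co.TIDual

/-! # The main theorem for rank functions -/

set_option autoImplicit false

namespace Pool.Agent.H.MP_60a1a2_co

/-- the main theorem for rank functions: minors of the matroid and of its dual -/
theorem mainRF.{u} (k c : ℕ) : ∃ n : ℕ, ∀ {α : Type u} [DecidableEq α] (M : RF α)
    (E C1 C2 : Finset α) (e1 : ℕ → ℕ → α) (V : Finset ℕ) (e2 : ℕ → ℕ → α) (W : Finset ℕ),
    Conf M E C1 C2 e1 V e2 W n → C1.card ≤ c →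
    (HasM M E (unif k) ∨ HasPG M E k) ∧
      ∀ M' : RF α, (∀ X ⊆ E, M.r X = (M'.dual E).r X) → HasM M' E (unif k) ∨ HasPG M' E k := by
  obtain ⟨L, hL⟩ := partB.{u} k
  obtain ⟨n, hn⟩ := partA.{u} c L k
  refine ⟨n, ?_⟩
  intro α _ M E C1 C2 e1 V e2 W hconf hc
  rcases hn M E C1 C2 e1 V e2 W hconf hc with h | ⟨C, V', W', hC, hG, hT⟩
  · refine ⟨Or.inl h, ?_⟩
    intro M' hM'
    left
    exact HasM.unif_dual (Finset.Subset.refl E) (h.congr (fun X hX => (hM' X hX).symm))
  · set G := ed e1 V' ∪ ed e2 W' with hGdef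
    constructor
    · rcases hL (M.con C) e1 V' e2 W' hT with h | h
      · exact Or.inl (HasM.of_con hC hG h)
      · exact Or.inr (HasPG.of_con hC hG h)
    · intro M' hM'
      have hGE : G ⊆ E := hG.trans Finset.sdiff_subset
      have hcon : ∀ X ⊆ E, (M.con C).r X = ((M'.dual E).con C).r X := by
        intro X hX
        have a1 := M.con_add C X
        have a2 := (M'.dual E).con_add C X
        rw [hM' _ (Finset.union_subset hX hC), hM' _ hC] at a1
        omega
      have hr : ∀ X ⊆ G, (M'.con ((E \ C) \ G)).r X = ((M.con C).dual G).r X := by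
        intro X hX
        rw [← dual_con_dual hC hG hX]
        have b1 := (M.con C).dual_add hX
        have b2 := ((M'.dual E).con C).dual_add hX
        rw [hcon _ hGE, hcon _ (Finset.sdiff_subset.trans hGE)] at b1
        omega
      have hsub : ed e2 W' ∪ ed e1 V' ⊆ G := by
        rw [Finset.union_comm]
      have hC2 : (E \ C) \ G ⊆ E := Finset.sdiff_subset.trans Finset.sdiff_subset
      have hG2 : G ⊆ E \ ((E \ C) \ G) := by
        intro x hx
        rw [Finset.mem_sdiff]
        exact ⟨hGE hx, fun h => (Finset.mem_sdiff.1 h).2 hx⟩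
      rcases hL _ e2 W' e1 V' hT.dual with h | h
      · exact Or.inl (HasM.of_con hC2 hG2 (HasM.congr hr (HasM.mono hsub h)))
      · exact Or.inr (HasPG.of_con hC2 hG2 (HasPG.congr hr (HasPG.mono hsub h)))

end Pool.Agent.H.MP_60a1a2_co
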