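import Pool.Agent.H.MP_60a1a2_co.Reduce
import Pool.Agent.H.MP_60a1a2_co.MinConn

/-! # Uncrossing of tight sets -/

set_option autoImplicit false

namespace Pool.Agent.H.MP_60a1a2_co

variable {α : Type*} [DecidableEq α]

/-- The union of two tight sets is tight.

Proof.  `K = (M.con C2).dual (ed e2 W)`.  `A ∩ A'` contains `X` and
`K.r ((A ∩ A') ∩ ed e2 W) ≤ N`, so by `kst` `N + M.r E ≤ M.r (A ∩ A') + M.r (E \ (A ∩ A'))`.
Submodularity for `A, A'` and for `E \ A, E \ A'` gives
`M.r (A ∪ A') + M.r (E \ (A ∪ A')) ≤ N + M.r E`.  `K.r ((A ∪ A') ∩ ed e2 W) ≤ 2 * N`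
(`r_union_le`), so `small_of_conn` gives `K.r ((A ∪ A') ∩ ed e2 W) ≤ N`. -/
theorem tight_union {M : RF α} {E X C2 : Finset α} {e2 : ℕ → ℕ → α} {W : Finset ℕ} {N : ℕ}
    (h : St M E X C2 e2 W N) (hW : 2 * N + 1 < W.card) {A A' : Finset α}
    (hA : Tight M E X C2 e2 W N A) (hA' : Tight M E X C2 e2 W N A') :
    Tight M E X C2 e2 W N (A ∪ A') := by
  obtain ⟨a1, a2, a3, a4⟩ := hA
  obtain ⟨b1, b2, b3, b4⟩ := hA'
  have k1 := h.kst (A ∩ A') (Finset.subset_inter a1 b1) (Finset.inter_subset_left.trans a2)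
    ((((M.con C2).dual (ed e2 W)).mono
      (Finset.inter_subset_inter_right Finset.inter_subset_left)).trans a3)
  have s1 := M.submod A A'
  have s2 := M.submod (E \ A) (E \ A')
  have e1 : (E \ A) ∪ (E \ A') = E \ (A ∩ A') := by
    ext a; simp only [Finset.mem_union, Finset.mem_sdiff, Finset.mem_inter]; tauto
  have e3 : (E \ A) ∩ (E \ A') = E \ (A ∪ A') := by
    ext a; simp only [Finset.mem_union, Finset.mem_sdiff, Finset.mem_inter]; tauto
  rw [e1, e3] at s2
  have hc : M.r (A ∪ A') + M.r (E \ (A ∪ A')) ≤ N + M.r E := by omega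
  have hu := ((M.con C2).dual (ed e2 W)).r_union_le (A ∩ ed e2 W) (A' ∩ ed e2 W)
  rw [← Finset.union_inter_distrib_right] at hu
  have hWne : W.Nonempty := Finset.card_pos.1 (by omega)
  have hAE : A ∪ A' ⊆ E := Finset.union_subset a2 b2
  refine ⟨a1.trans Finset.subset_union_left, hAE, ?_, hc⟩
  exact small_of_conn M E C2 (A ∪ A') e2 W N h.hC h.hE h.cocl hAE hc hWne
    (Or.inl ⟨by omega, hW⟩)

/-- adding elements outside `S` does not change the intersection with `S` -/
theorem uncross_inter (T E S : Finset α) : (T ∪ (E \ S)) ∩ S = T ∩ S := by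
  ext a; simp only [Finset.mem_union, Finset.mem_sdiff, Finset.mem_inter]; tauto

/-- In an irreducible state everything outside the edges is in a set of bounded connectivity.

Proof.  If no tight set exists: all `x ∈ E` outside `ed e2 W` are in the closure of `X` (members of
`X` trivially); `A = X ∪ (E \ ed e2 W)`, `M.r A = M.r X ≤ y` (`r_eq_of_in`),
`M.r (E \ A) ≤ M.r E`; `A ∩ ed e2 W = X ∩ ed e2 W`.
If tight sets exist let `T` be the union of all tight sets (the finite set
`E.powerset.filter (Tight ..)`, induction with `tight_union`: a nonempty finite union of tight sets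
is tight; or take a tight set of maximal cardinality, then it contains all others).  Then every
`x ∈ E \ ed e2 W` is in `T` or in the closure of `X ⊆ T`.  `A = T ∪ (E \ ed e2 W)`: `M.r A = M.r T`,
`E \ A ⊆ E \ T`, `A ∩ ed e2 W = T ∩ ed e2 W`, so the connectivity is at most `N ≤ y`. -/
theorem uncross {M : RF α} {E X C2 : Finset α} {e2 : ℕ → ℕ → α} {W : Finset ℕ} {N y : ℕ}
    (h : St M E X C2 e2 W N) (hW : 2 * N + 1 < W.card) (hX : M.r X ≤ y) (hN : N ≤ y)
    (hXs : ((M.con C2).dual (ed e2 W)).r (X ∩ ed e2 W) ≤ N)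
    (hirr : ∀ x ∈ E, x ∉ ed e2 W → x ∉ X → M.In X x ∨ ∃ A, x ∈ A ∧ Tight M E X C2 e2 W N A) :
    ∃ A, X ⊆ A ∧ A ⊆ E ∧ E \ ed e2 W ⊆ A ∧
      ((M.con C2).dual (ed e2 W)).r (A ∩ ed e2 W) ≤ N ∧ M.r A + M.r (E \ A) ≤ y + M.r E := by
  classical
  rcases (E.powerset.filter (fun A => Tight M E X C2 e2 W N A)).eq_empty_or_nonempty with
    hem | hne
  · have hno : ∀ A, ¬ Tight M E X C2 e2 W N A := by
      intro A hA
      have hmem : A ∈ E.powerset.filter (fun A => Tight M E X C2 e2 W N A) :=
        Finset.mem_filter.2 ⟨Finset.mem_powerset.2 hA.2.1, hA⟩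
      rw [hem] at hmem
      exact Finset.notMem_empty _ hmem
    refine ⟨X ∪ (E \ ed e2 W), Finset.subset_union_left,
      Finset.union_subset h.hX Finset.sdiff_subset, Finset.subset_union_right, ?_, ?_⟩
    · rw [uncross_inter]
      exact hXs
    · have h1 : M.r (X ∪ (E \ ed e2 W)) = M.r X := by
        apply M.r_union_of_in
        intro x hx
        rw [Finset.mem_sdiff] at hx
        by_cases hxX : x ∈ X
        · exact M.in_of_mem hxX
        · rcases hirr x hx.1 hx.2 hxX with h2 | ⟨A, _, hA⟩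
          · exact h2
          · exact absurd hA (hno A)
      have h2 : M.r (E \ (X ∪ (E \ ed e2 W))) ≤ M.r E := M.mono Finset.sdiff_subset
      omega
  · obtain ⟨T, hT, hmax⟩ := Finset.exists_max_image _ (fun B : Finset α => B.card) hne
    have hTt : Tight M E X C2 e2 W N T := (Finset.mem_filter.1 hT).2
    have hall : ∀ A, Tight M E X C2 e2 W N A → A ⊆ T := by
      intro A hA
      have hu := tight_union h hW hTt hA
      have h1 := hmax (T ∪ A) (Finset.mem_filter.2 ⟨Finset.mem_powerset.2 hu.2.1, hu⟩)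
      have h2 : T = T ∪ A := Finset.eq_of_subset_of_card_le Finset.subset_union_left h1
      rw [h2]
      exact Finset.subset_union_right
    obtain ⟨t1, t2, t3, t4⟩ := hTt
    refine ⟨T ∪ (E \ ed e2 W), t1.trans Finset.subset_union_left,
      Finset.union_subset t2 Finset.sdiff_subset, Finset.subset_union_right, ?_, ?_⟩
    · rw [uncross_inter]
      exact t3
    · have h1 : M.r (T ∪ (E \ ed e2 W)) = M.r T := by
        apply M.r_union_of_in
        intro x hx
        rw [Finset.mem_sdiff] at hx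
        by_cases hxX : x ∈ X
        · exact M.in_of_mem (t1 hxX)
        · rcases hirr x hx.1 hx.2 hxX with h2 | ⟨A, hxA, hA⟩
          · exact M.in_mono h2 t1
          · exact M.in_of_mem (hall A hA hxA)
      have h2 : M.r (E \ (T ∪ (E \ ed e2 W))) ≤ M.r (E \ T) :=
        M.mono (Finset.sdiff_subset_sdiff (Finset.Subset.refl E) Finset.subset_union_left)
      omega

end Pool.Agent.H.MP_60a1a2_co
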