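import Pool.Agent.H.MP_60a1a2_co.AInit
import Pool.Agent.H.MP_60a1a2_co.AMid
import Pool.Agent.H.MP_60a1a2_co.AEnd
import Pool.Agent.H.MP_60a1a2_co.Uncross

/-! # Part A: reduction to configurations of type I -/

set_option autoImplicit false

namespace Pool.Agent.H.MP_60a1a2_co

/-- reduction to configurations of type I -/
theorem partA.{u} (c L k : ℕ) : ∃ n : ℕ, ∀ {α : Type u} [DecidableEq α] (M : RF α)
    (E C1 C2 : Finset α) (e1 : ℕ → ℕ → α) (V : Finset ℕ) (e2 : ℕ → ℕ → α) (W : Finset ℕ),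
    Conf M E C1 C2 e1 V e2 W n → C1.card ≤ c →
    HasM M E (unif k) ∨ ∃ (C : Finset α) (V' W' : Finset ℕ), C ⊆ E ∧
      ed e1 V' ∪ ed e2 W' ⊆ E \ C ∧ TypeI (M.con C) e1 V' e2 W' L := by
  set N1 := L + 3 * k + c with hN1
  set y := 2 * (4 * N1 ^ 2 + N1) + c with hy
  obtain ⟨n0, hn0⟩ := midStep.{u} N1 y k (N1 + 2)
  refine ⟨n0 + (4 * N1 ^ 2 + N1) + (2 * N1 + 2), ?_⟩
  intro α _ M E C1 C2 e1 V e2 W hconf hc
  obtain ⟨V', hV', hst, hr⟩ := initState hconf (N1 := N1) (c := c) (by omega) hc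
  have hW := hconf.cardW
  have hXW : (ed e1 V' ∪ C1) ∩ ed e2 W ⊆ C1 := by
    intro x hx
    rw [Finset.mem_inter, Finset.mem_union] at hx
    rcases hx.1 with h1 | h1
    · exact absurd hx.2 (Finset.disjoint_left.1 hconf.dsj (ed_mono hV' h1))
    · exact h1
  obtain ⟨C', E', hC', hE', hst', hr', hirr⟩ := reduce e2 W N1 E.card M E (ed e1 V' ∪ C1) C2 rfl
    hst
  have hXs : (((M.con C').con (C2 \ C')).dual (ed e2 W)).r ((ed e1 V' ∪ C1) ∩ ed e2 W) ≤ N1 := by
    refine ((RF.le_card _ _).trans (Finset.card_le_card hXW)).trans ?_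
    omega
  have hrX : (M.con C').r (ed e1 V' ∪ C1) ≤ y := by
    rw [hr' _ (Finset.Subset.refl _)]
    exact hr
  obtain ⟨A, hXA, hAE, hEA, hAs, hAc⟩ := uncross hst' (by omega) hrX (by omega) hXs hirr
  rcases hn0 (M.con C') E' (C2 \ C') A e2 W hst'.hC hst'.hE hst'.cocl (by omega) hAE hEA hAs hAc
    with h1 | ⟨F, W3, hW3, hm, hF, hFB, hAF, hAB, hFc, hK⟩
  · left
    exact HasM.of_con (hC'.trans (Finset.sdiff_subset.trans hconf.hC2)) hE' h1
  · right
    have hCE : C' ⊆ E := hC'.trans (Finset.sdiff_subset.trans hconf.hC2)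
    have hclq : IsK ((M.con C').con C1) e1 V' := by
      apply (hconf.clq.sub hV').congr
      intro X hX
      have a1 := (M.con C').con_add C1 X
      have a2 := M.con_add C1 X
      rw [hr' (X ∪ C1) (Finset.union_subset_union_left hX),
        hr' C1 Finset.subset_union_right] at a1
      omega
    have hdC1 : Disjoint (ed e1 V') C1 := by
      rw [Finset.disjoint_left]
      intro x hx hx1
      exact (Finset.mem_sdiff.1 (hconf.hE1 (ed_mono hV' hx))).2 hx1
    obtain ⟨C, hC, hAB', hT⟩ := endStep hst' hW3 (by omega) hdC1 hc hF hFc hFB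
      (Finset.disjoint_of_subset_left hXA hAF) (Finset.disjoint_of_subset_left hXA hAB) hclq hK
    refine ⟨C' ∪ C, V', W3, Finset.union_subset hCE ((hC.trans hE').trans Finset.sdiff_subset),
      ?_, ?_⟩
    · intro x hx
      have h2 := hAB' hx
      rw [Finset.mem_sdiff] at h2
      have h3 := hE' h2.1
      rw [Finset.mem_sdiff] at h3
      rw [Finset.mem_sdiff, Finset.mem_union]
      exact ⟨h3.1, fun h4 => h4.elim h3.2 h2.2⟩
    · rw [← RF.con_con_eq]
      exact hT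

end Pool.Agent.H.MP_60a1a2_co
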