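import Pool.Agent.H.MP_60a1a2_co.Defs

/-! # Basic lemmas on rank functions -/

set_option autoImplicit false

namespace Pool.Agent.H.MP_60a1a2_co

namespace RF

variable {α : Type*} [DecidableEq α] (M : RF α)

theorem r_empty : M.r ∅ = 0 := by
  have := M.le_card ∅
  simpa using this

theorem r_union_le (X Y : Finset α) : M.r (X ∪ Y) ≤ M.r X + M.r Y := by
  have := M.submod X Y
  omega

theorem r_union_le_card (X Y : Finset α) : M.r (X ∪ Y) ≤ M.r X + Y.card := M.dual_aux X Y

theorem r_insert_le (x : α) (X : Finset α) : M.r (insert x X) ≤ M.r X + 1 := by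
  have h := M.dual_aux X {x}
  have h2 : X ∪ {x} = insert x X := by
    ext a; simp [or_comm]
  rw [h2] at h
  simpa using h

theorem r_le_sdiff (X Y : Finset α) : M.r X ≤ M.r (X \ Y) + Y.card := by
  have h1 : X ⊆ (X \ Y) ∪ Y := by
    intro a; simp only [Finset.mem_union, Finset.mem_sdiff]; tauto
  exact (M.mono h1).trans (M.dual_aux _ _)

/-- diminishing increments -/
theorem incr {X Y : Finset α} (h : X ⊆ Y) (U : Finset α) :
    M.r (Y ∪ U) + M.r X ≤ M.r Y + M.r (X ∪ U) := by
  have h1 := M.submod Y (X ∪ U)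
  have h2 : Y ∪ (X ∪ U) = Y ∪ U := by
    ext a
    simp only [Finset.mem_union]
    have := @h a
    tauto
  have h3 : X ⊆ Y ∩ (X ∪ U) := fun a ha =>
    Finset.mem_inter.2 ⟨h ha, Finset.mem_union_left _ ha⟩
  have h4 := M.mono h3
  rw [h2] at h1
  omega

theorem in_of_mem {X : Finset α} {x : α} (h : x ∈ X) : M.In X x := by
  unfold In
  rw [Finset.insert_eq_self.2 h]

theorem not_in {X : Finset α} {x : α} (h : ¬ M.In X x) : M.r (insert x X) = M.r X + 1 := by
  have h1 := M.r_insert_le x X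
  have h2 : M.r X ≤ M.r (insert x X) := M.mono (Finset.subset_insert x X)
  unfold In at h
  omega

theorem in_mono {X Y : Finset α} {x : α} (h : M.In X x) (hXY : X ⊆ Y) : M.In Y x := by
  unfold In at *
  have h1 := M.incr hXY {x}
  have h2 : Y ∪ {x} = insert x Y := by ext a; simp [or_comm]
  have h3 : X ∪ {x} = insert x X := by ext a; simp [or_comm]
  rw [h2, h3] at h1
  have h4 : M.r Y ≤ M.r (insert x Y) := M.mono (Finset.subset_insert x Y)
  omega

theorem r_union_of_in {X Y : Finset α} (h : ∀ y ∈ Y, M.In X y) : M.r (X ∪ Y) = M.r X := by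
  induction Y using Finset.induction_on with
  | empty => simp
  | insert a Y _ ih =>
    have h1 := ih (fun y hy => h y (Finset.mem_insert_of_mem hy))
    have h2 : M.In (X ∪ Y) a := M.in_mono (h a (Finset.mem_insert_self a Y))
      Finset.subset_union_left
    rw [Finset.union_insert, ← h1]
    exact h2

theorem r_eq_of_in {X Y : Finset α} (hXY : X ⊆ Y) (h : ∀ y ∈ Y, M.In X y) : M.r Y = M.r X := by
  rw [← M.r_union_of_in h, Finset.union_eq_right.2 hXY]

theorem in_of_r_eq {X Y : Finset α} (hXY : X ⊆ Y) (h : M.r Y = M.r X) {y : α} (hy : y ∈ Y) :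
    M.In X y := by
  unfold In
  have h1 : M.r (insert y X) ≤ M.r Y := M.mono (Finset.insert_subset hy hXY)
  have h2 : M.r X ≤ M.r (insert y X) := M.mono (Finset.subset_insert y X)
  omega

/-- transitivity of the closure -/
theorem in_trans {X Y : Finset α} {z : α} (h : ∀ y ∈ Y, M.In X y) (hz : M.In Y z) :
    M.In X z := by
  have h1 : M.In (X ∪ Y) z := M.in_mono hz Finset.subset_union_right
  have h2 := M.r_union_of_in h
  unfold In at *
  have h3 : M.r (insert z X) ≤ M.r (insert z (X ∪ Y)) :=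
    M.mono (Finset.insert_subset_insert z Finset.subset_union_left)
  have h4 : M.r X ≤ M.r (insert z X) := M.mono (Finset.subset_insert z X)
  omega

theorem ind_subset {I J : Finset α} (hIJ : I ⊆ J) (hJ : M.r J = J.card) : M.r I = I.card := by
  have h1 := M.r_le_sdiff J (J \ I)
  have h2 : J \ (J \ I) = I := by
    ext a
    simp only [Finset.mem_sdiff]
    have := @hIJ a
    tauto
  rw [h2] at h1
  have h3 := Finset.card_sdiff_add_card_eq_card hIJ
  have h4 := M.le_card I
  omega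

/-- extension to a basis of `X` -/
theorem exists_ext {I X : Finset α} (hI : I ⊆ X) (h : M.r I = I.card) :
    ∃ B, I ⊆ B ∧ B ⊆ X ∧ M.r B = B.card ∧ B.card = M.r X := by
  classical
  have hne : (X.powerset.filter (fun B => I ⊆ B ∧ M.r B = B.card)).Nonempty :=
    ⟨I, by simp [hI, h]⟩
  obtain ⟨B, hB, hmax⟩ := Finset.exists_max_image _ (fun B => B.card) hne
  simp only [Finset.mem_filter, Finset.mem_powerset] at hB hmax
  refine ⟨B, hB.2.1, hB.1, hB.2.2, ?_⟩
  rw [← hB.2.2]
  symm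
  apply M.r_eq_of_in hB.1
  intro y hy
  by_contra hcon
  have h1 := M.not_in hcon
  have hyB : y ∉ B := fun hyB => hcon (M.in_of_mem hyB)
  have h2 := hmax (insert y B) ⟨Finset.insert_subset hy hB.1,
    hB.2.1.trans (Finset.subset_insert y B), by
      rw [h1, hB.2.2, Finset.card_insert_of_notMem hyB]⟩
  rw [Finset.card_insert_of_notMem hyB] at h2
  omega

theorem exists_basis (X : Finset α) : ∃ B, B ⊆ X ∧ M.r B = B.card ∧ B.card = M.r X := by
  obtain ⟨B, _, h2, h3, h4⟩ := M.exists_ext (I := ∅) (X := X) (by simp) (by simp [M.r_empty])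
  exact ⟨B, h2, h3, h4⟩

/-- independent subsets of every smaller size -/
theorem exists_ind {X : Finset α} {n : ℕ} (h : n ≤ M.r X) :
    ∃ I, I ⊆ X ∧ M.r I = I.card ∧ I.card = n := by
  obtain ⟨B, h1, h2, h3⟩ := M.exists_basis X
  obtain ⟨I, hI, hIn⟩ := Finset.exists_subset_card_eq (s := B) (n := n) (by omega)
  exact ⟨I, hI.trans h1, M.ind_subset hI h2, hIn⟩

/-! ## Contraction -/

theorem con_add (C X : Finset α) : (M.con C).r X + M.r C = M.r (X ∪ C) := by
  show M.r (X ∪ C) - M.r C + M.r C = M.r (X ∪ C)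
  have : M.r C ≤ M.r (X ∪ C) := M.mono Finset.subset_union_right
  omega

theorem con_empty (X : Finset α) : (M.con ∅).r X = M.r X := by
  have := M.con_add ∅ X
  rw [M.r_empty] at this
  simpa using this

theorem con_con (C D X : Finset α) : ((M.con C).con D).r X = (M.con (C ∪ D)).r X := by
  have h1 := (M.con C).con_add D X
  have h2 := M.con_add C D
  have h3 := M.con_add C (X ∪ D)
  have h4 := M.con_add (C ∪ D) X
  have h5 : X ∪ D ∪ C = X ∪ (C ∪ D) := by
    ext a; simp only [Finset.mem_union]; tauto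
  have h6 : D ∪ C = C ∪ D := Finset.union_comm _ _
  rw [h5] at h3
  rw [h6] at h2
  omega

theorem con_con_eq (C D : Finset α) : (M.con C).con D = M.con (C ∪ D) := by
  have h : ((M.con C).con D).r = (M.con (C ∪ D)).r := funext (M.con_con C D)
  cases h1 : (M.con C).con D
  cases h2 : M.con (C ∪ D)
  rw [h1, h2] at h
  simp only at h
  subst h
  rfl

theorem con_in {C X : Finset α} {x : α} : (M.con C).In X x ↔ M.In (X ∪ C) x := by
  unfold In
  have h1 := M.con_add C (insert x X)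
  have h2 := M.con_add C X
  rw [Finset.insert_union] at h1
  constructor
  · intro h; omega
  · intro h; omega

/-! ## Dual -/

theorem dual_add {E X : Finset α} (h : X ⊆ E) :
    (M.dual E).r X + M.r E = X.card + M.r (E \ X) := by
  show (X ∩ E).card + M.r (E \ X) - M.r E + M.r E = _
  rw [Finset.inter_eq_left.2 h]
  have h1 : M.r E ≤ M.r (E \ X) + X.card := M.r_le_sdiff E X
  omega

theorem dual_dual {E X : Finset α} (h : X ⊆ E) : ((M.dual E).dual E).r X = M.r X := by
  have h1 := (M.dual E).dual_add h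
  have h2 := M.dual_add (Finset.Subset.refl E)
  have h3 := M.dual_add (E := E) (X := E \ X) Finset.sdiff_subset
  have h4 : E \ (E \ X) = X := by
    ext a
    simp only [Finset.mem_sdiff]
    have := @h a
    tauto
  have h5 := Finset.card_sdiff_add_card_eq_card h
  rw [h4] at h3
  simp only [Finset.sdiff_self] at h2
  rw [M.r_empty] at h2
  omega

/-- the dual of a contraction, on subsets of `E2`: `(M/C restricted to E2)^*` is
`M^* / (E \ C \ E2)` -/
theorem dual_con {E C E2 X : Finset α} (hC : C ⊆ E) (h2 : E2 ⊆ E \ C) (hX : X ⊆ E2) :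
    ((M.con C).dual E2).r X = ((M.dual E).con ((E \ C) \ E2)).r X := by
  have hE2 : E2 ⊆ E := h2.trans Finset.sdiff_subset
  have a1 := (M.con C).dual_add hX
  have a2 := M.con_add C E2
  have a3 := M.con_add C (E2 \ X)
  have b1 := (M.dual E).con_add ((E \ C) \ E2) X
  have b2 := M.dual_add (E := E) (X := (E \ C) \ E2)
    (Finset.sdiff_subset.trans Finset.sdiff_subset)
  have hXD : X ∪ ((E \ C) \ E2) ⊆ E := Finset.union_subset (hX.trans hE2)
    (Finset.sdiff_subset.trans Finset.sdiff_subset)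
  have b3 := M.dual_add hXD
  have e1 : E \ ((E \ C) \ E2) = E2 ∪ C := by
    ext a
    simp only [Finset.mem_sdiff, Finset.mem_union]
    have q1 := @hC a
    have q2 := @hE2 a
    tauto
  have e2 : E \ (X ∪ ((E \ C) \ E2)) = (E2 \ X) ∪ C := by
    ext a
    simp only [Finset.mem_sdiff, Finset.mem_union]
    have q1 := @hC a
    have q2 := @hE2 a
    have q3 := @h2 a
    have q4 := @hX a
    simp only [Finset.mem_sdiff] at q3
    tauto
  have e3 : (X ∪ ((E \ C) \ E2)).card = X.card + ((E \ C) \ E2).card := by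
    apply Finset.card_union_of_disjoint
    rw [Finset.disjoint_left]
    intro a ha hb
    simp only [Finset.mem_sdiff] at hb
    exact hb.2 (hX ha)
  rw [e1] at b2
  rw [e2, e3] at b3
  omega

end RF

variable {α : Type*} [DecidableEq α]

/-! ## Edges -/

theorem mem_ed {e : ℕ → ℕ → α} {V : Finset ℕ} {x : α} :
    x ∈ ed e V ↔ ∃ i ∈ V, ∃ j ∈ V, i ≠ j ∧ e i j = x := by
  unfold ed
  simp only [Finset.mem_image, Finset.mem_offDiag, Prod.exists]
  constructor
  · rintro ⟨i, j, ⟨h1, h2, h3⟩, h4⟩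
    exact ⟨i, h1, j, h2, h3, h4⟩
  · rintro ⟨i, h1, j, h2, h3, h4⟩
    exact ⟨i, j, ⟨h1, h2, h3⟩, h4⟩

theorem ed_mem {e : ℕ → ℕ → α} {V : Finset ℕ} {i j : ℕ} (hi : i ∈ V) (hj : j ∈ V)
    (hij : i ≠ j) : e i j ∈ ed e V := mem_ed.2 ⟨i, hi, j, hj, hij, rfl⟩

theorem ed_mono {e : ℕ → ℕ → α} {V W : Finset ℕ} (h : V ⊆ W) : ed e V ⊆ ed e W := by
  intro x hx
  obtain ⟨i, hi, j, hj, hij, rfl⟩ := mem_ed.1 hx
  exact ed_mem (h hi) (h hj) hij

theorem mem_star {e : ℕ → ℕ → α} {V : Finset ℕ} {w : ℕ} {x : α} :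
    x ∈ star e w V ↔ ∃ j ∈ V, j ≠ w ∧ e w j = x := by
  unfold star
  simp only [Finset.mem_image, Finset.mem_erase]
  constructor
  · rintro ⟨j, ⟨h1, h2⟩, h3⟩
    exact ⟨j, h2, h1, h3⟩
  · rintro ⟨j, h2, h1, h3⟩
    exact ⟨j, ⟨h1, h2⟩, h3⟩

theorem star_subset {e : ℕ → ℕ → α} {V : Finset ℕ} {w : ℕ} (hw : w ∈ V) :
    star e w V ⊆ ed e V := by
  intro x hx
  obtain ⟨j, hj, hjw, rfl⟩ := mem_star.1 hx
  exact ed_mem hw hj (Ne.symm hjw)

theorem IsE.mono {e : ℕ → ℕ → α} {V W : Finset ℕ} (h : IsE e W) (hV : V ⊆ W) : IsE e V :=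
  ⟨fun i hi j hj => h.symm i (hV hi) j (hV hj), fun i hi j hj k hk l hl =>
    h.inj i (hV hi) j (hV hj) k (hV hk) l (hV hl)⟩

theorem star_card {e : ℕ → ℕ → α} {V : Finset ℕ} (h : IsE e V) {w : ℕ} (hw : w ∈ V) :
    (star e w V).card + 1 = V.card := by
  unfold star
  rw [Finset.card_image_of_injOn, Finset.card_erase_add_one hw]
  intro i hi j hj hij
  simp only [Finset.coe_erase, Set.mem_diff, Finset.mem_coe, Set.mem_singleton_iff] at hi hj
  rcases h.inj w hw i hi.1 w hw j hj.1 (Ne.symm hi.2) (Ne.symm hj.2) hij with h1 | h1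
  · exact h1.2
  · exact absurd h1.1.symm hj.2

theorem Tri.mono {M : RF α} {e : ℕ → ℕ → α} {V W : Finset ℕ} (h : Tri M e W) (hV : V ⊆ W) :
    Tri M e V := fun i hi j hj k hk => h i (hV hi) j (hV hj) k (hV hk)

theorem Tri.con {M : RF α} {e : ℕ → ℕ → α} {V : Finset ℕ} (h : Tri M e V) (C : Finset α) :
    Tri (M.con C) e V := fun i hi j hj k hk h1 h2 h3 =>
  M.con_in.2 (M.in_mono (h i hi j hj k hk h1 h2 h3) Finset.subset_union_left)

/-- the closure relation on the vertices is transitive -/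
theorem Tri.trans {M : RF α} {e : ℕ → ℕ → α} {V : Finset ℕ} (h : Tri M e V) {X : Finset α}
    {i j k : ℕ} (hi : i ∈ V) (hj : j ∈ V) (hk : k ∈ V) (hij : i ≠ j) (hjk : j ≠ k)
    (hik : i ≠ k) (h1 : M.In X (e i j)) (h2 : M.In X (e j k)) : M.In X (e i k) := by
  apply M.in_trans (Y := {e i j, e j k}) _ (h i hi j hj k hk hij hjk hik)
  intro y hy
  simp only [Finset.mem_insert, Finset.mem_singleton] at hy
  rcases hy with rfl | rfl
  · exact h1
  · exact h2

/-- the star spans the clique -/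
theorem Tri.star_spans {M : RF α} {e : ℕ → ℕ → α} {V : Finset ℕ} (h : Tri M e V) (hE : IsE e V)
    {w : ℕ} (hw : w ∈ V) {X : Finset α} (hX : ∀ j ∈ V, j ≠ w → M.In X (e w j)) :
    ∀ x ∈ ed e V, M.In X x := by
  intro x hx
  obtain ⟨i, hi, j, hj, hij, rfl⟩ := mem_ed.1 hx
  by_cases h1 : i = w
  · subst h1
    exact hX j hj (Ne.symm hij)
  · by_cases h2 : j = w
    · subst h2
      rw [hE.symm i hi j hj]
      exact hX i hi h1
    · apply h.trans hi hw hj h1 (Ne.symm h2) hij
      · rw [hE.symm i hi w hw]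
        exact hX i hi h1
      · exact hX j hj h2

theorem Tri.rank_star {M : RF α} {e : ℕ → ℕ → α} {V : Finset ℕ} (h : Tri M e V) (hE : IsE e V)
    {w : ℕ} (hw : w ∈ V) : M.r (ed e V) = M.r (star e w V) :=
  M.r_eq_of_in (star_subset hw) (h.star_spans hE hw (fun j hj hjw =>
    M.in_of_mem (mem_star.2 ⟨j, hj, hjw, rfl⟩)))

theorem Tri.rank_le {M : RF α} {e : ℕ → ℕ → α} {V : Finset ℕ} (h : Tri M e V) (hE : IsE e V)
    (hV : V.Nonempty) : M.r (ed e V) + 1 ≤ V.card := by
  obtain ⟨w, hw⟩ := hV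
  rw [h.rank_star hE hw, ← star_card hE hw]
  have := M.le_card (star e w V)
  omega

theorem IsK.rank {M : RF α} {e : ℕ → ℕ → α} {V : Finset ℕ} (h : IsK M e V) (hV : V.Nonempty) :
    M.r (ed e V) + 1 = V.card := by
  have h1 := h.tri.rank_le h.isE hV
  have h2 := h.rk
  omega

theorem IsK.star_ind {M : RF α} {e : ℕ → ℕ → α} {V : Finset ℕ} (h : IsK M e V) {w : ℕ}
    (hw : w ∈ V) : M.r (star e w V) = (star e w V).card := by
  have h1 := h.rank ⟨w, hw⟩
  rw [h.tri.rank_star h.isE hw] at h1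
  have h2 := star_card h.isE hw
  omega

/-- sub-cliques -/
theorem IsK.sub {M : RF α} {e : ℕ → ℕ → α} {V W : Finset ℕ} (h : IsK M e W) (hV : V ⊆ W) :
    IsK M e V := by
  refine ⟨h.isE.mono hV, h.tri.mono hV, ?_⟩
  rcases V.eq_empty_or_nonempty with h0 | ⟨w, hw⟩
  · rw [h0]
    simp
  · have h1 : star e w V ⊆ star e w W := by
      intro x hx
      obtain ⟨j, hj, hjw, rfl⟩ := mem_star.1 hx
      exact mem_star.2 ⟨j, hV hj, hjw, rfl⟩
    have h2 := M.ind_subset h1 (h.star_ind (hV hw))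
    rw [(h.tri.mono hV).rank_star (h.isE.mono hV) hw, h2, star_card (h.isE.mono hV) hw]

/-- only the ranks of sets of edges matter -/
theorem IsK.congr {M M' : RF α} {e : ℕ → ℕ → α} {V : Finset ℕ} (h : IsK M e V)
    (hr : ∀ X ⊆ ed e V, M'.r X = M.r X) : IsK M' e V := by
  refine ⟨h.isE, ?_, ?_⟩
  · intro i hi j hj k hk h1 h2 h3
    have h4 := h.tri i hi j hj k hk h1 h2 h3
    have m1 := ed_mem (e := e) hi hj h1
    have m2 := ed_mem (e := e) hj hk h2
    have m3 := ed_mem (e := e) hi hk h3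
    unfold RF.In at *
    rw [hr _ (by
      intro x hx
      simp only [Finset.mem_insert, Finset.mem_singleton] at hx
      rcases hx with rfl | rfl | rfl <;> assumption), hr _ (by
      intro x hx
      simp only [Finset.mem_insert, Finset.mem_singleton] at hx
      rcases hx with rfl | rfl <;> assumption)]
    exact h4
  · rw [hr _ (Finset.Subset.refl _)]
    exact h.rk

/-- an edge to an untouched vertex is not in the closure -/
theorem IsK.leaf {M : RF α} {e : ℕ → ℕ → α} {W : Finset ℕ} (h : IsK M e W) {u v : ℕ}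
    (hu : u ∈ W) (hv : v ∈ W) (huv : u ≠ v) {I : Finset α} (hI : I ⊆ ed e (W.erase u)) :
    ¬ M.In I (e u v) := by
  intro hin
  have h1 : M.In (ed e (W.erase u)) (e u v) := M.in_mono hin hI
  have hv' : v ∈ W.erase u := Finset.mem_erase.2 ⟨Ne.symm huv, hv⟩
  have h2 : ∀ x ∈ ed e W, M.In (ed e (W.erase u)) x := by
    apply h.tri.star_spans h.isE hv
    intro j hj hjv
    by_cases hju : j = u
    · subst hju
      rw [h.isE.symm v hv j hj]
      exact h1
    · exact M.in_of_mem (ed_mem hv' (Finset.mem_erase.2 ⟨hju, hj⟩) (Ne.symm hjv))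
  have h3 : M.r (ed e W) = M.r (ed e (W.erase u)) :=
    M.r_eq_of_in (ed_mono (Finset.erase_subset u W)) h2
  have h4 := h.rank ⟨u, hu⟩
  have h5 := (h.tri.mono (Finset.erase_subset u W)).rank_le
    (h.isE.mono (Finset.erase_subset u W)) ⟨v, hv'⟩
  rw [Finset.card_erase_of_mem hu] at h5
  omega

end Pool.Agent.H.MP_60a1a2_co
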