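import Pool.Agent.H.MP_60a1a2_co.RFBasic

/-! # Reduction to an irreducible state -/

set_option autoImplicit false

namespace Pool.Agent.H.MP_60a1a2_co

variable {α : Type*} [DecidableEq α]

/-- a state of the reduction: `M` on the ground set `E`, the set `X` is fixed, `C2` is contracted
in the coclique minor; sets containing `X` which meet the edges in a small set have connectivity
at least `N` -/
structure St (M : RF α) (E X C2 : Finset α) (e2 : ℕ → ℕ → α) (W : Finset ℕ) (N : ℕ) :
    Prop where
  hX : X ⊆ E
  hC : C2 ⊆ E
  hE : ed e2 W ⊆ E \ C2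
  cocl : IsK ((M.con C2).dual (ed e2 W)) e2 W
  kst : ∀ A, X ⊆ A → A ⊆ E → ((M.con C2).dual (ed e2 W)).r (A ∩ ed e2 W) ≤ N →
    N + M.r E ≤ M.r A + M.r (E \ A)

/-- tight sets -/
def Tight (M : RF α) (E X C2 : Finset α) (e2 : ℕ → ℕ → α) (W : Finset ℕ) (N : ℕ)
    (A : Finset α) : Prop :=
  X ⊆ A ∧ A ⊆ E ∧ ((M.con C2).dual (ed e2 W)).r (A ∩ ed e2 W) ≤ N ∧
    M.r A + M.r (E \ A) ≤ N + M.r E

theorem Reduce_con_empty (M : RF α) : M.con ∅ = M := by
  have h : (M.con ∅).r = M.r := funext (M.con_empty)
  cases h1 : M.con ∅
  cases h2 : M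
  rw [h1, h2] at h
  simp only at h
  subst h
  rfl

theorem Reduce_singleton (M : RF α) {X Y : Finset α} {x : α} (h : ¬ M.In X x) (hY : Y ⊆ X) :
    (M.con {x}).r Y = M.r Y := by
  have h1 : ¬ M.In Y x := fun h2 => h (M.in_mono h2 hY)
  have h2 : ¬ M.In ∅ x := fun h3 => h (M.in_mono h3 (Finset.empty_subset X))
  have h3 := M.not_in h1
  have h4 := M.not_in h2
  have h5 := M.con_add {x} Y
  have h6 : Y ∪ {x} = insert x Y := by ext a; simp [or_comm]
  have h7 : (insert x (∅ : Finset α)) = {x} := by ext a; simp
  rw [h6] at h5
  rw [h7, M.r_empty] at h4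
  omega

/-- Every state can be reduced (by contraction of a subset `C'` of `C2 \ X` and deletion) to an
irreducible one.

Proof by strong induction on `n = E.card`.  If every `x ∈ E` outside `ed e2 W` and `X` satisfies
`M.In X x` or lies in a tight set, take `C' = ∅`, `E' = E` (`M.con ∅` has the same ranks as `M`;
`RF.con_con_eq`, or prove `M.con ∅ = M` first).  Otherwise let `x ∈ E` be outside `ed e2 W` and
`X`, not in the closure of `X` and not in a tight set.
Case `x ∈ C2`.  `M1 = M.con {x}`, `E1 = E.erase x`, `C1 = C2.erase x`.  `M1.con C1 = M.con C2`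
(`con_con_eq`, `{x} ∪ C2.erase x = C2`), so the matroid `K` of the clique is unchanged.  State:
let `X ⊆ A ⊆ E1` with `K.r (A ∩ ed e2 W) ≤ N`, and suppose
`M1.r A + M1.r (E1 \ A) < N + M1.r E1`.  By `con_add`: `M1.r Y + M.r {x} = M.r (insert x Y)`,
`M.r {x} ≤ 1`; so `M.r (insert x A) + M.r (E \ A) < N + M.r {x} + M.r E`, hence
`insert x A` is tight: `E \ insert x A ⊆ E \ A`, `insert x A ∩ ed e2 W = A ∩ ed e2 W`.
Contradiction.  So the new state is valid, and `M1.r Y = M.r Y` for `Y ⊆ X` (`x` not in the closure
of `X`, so not in the closure of `Y` and of `∅`).  Apply the induction hypothesis, get `C''`;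
`C' = insert x C''`, `(M.con {x}).con C'' = M.con C'`, `C1 \ C'' = C2 \ C'`.
Case `x ∉ C2`.  `M` and `C2` unchanged, `E1 = E.erase x`.  If the state is not valid there is `A`
with `X ⊆ A ⊆ E1`, `K.r (A ∩ ed e2 W) ≤ N`, `M.r A + M.r (E1 \ A) < N + M.r E1`; then
`insert x A` is tight: `M.r (insert x A) ≤ M.r A + 1`, `E \ insert x A = E1 \ A`,
`M.r E1 ≤ M.r E`.  Contradiction.  Apply the induction hypothesis. -/
theorem reduce (e2 : ℕ → ℕ → α) (W : Finset ℕ) (N : ℕ) (n : ℕ) :
    ∀ (M : RF α) (E X C2 : Finset α), E.card = n → St M E X C2 e2 W N →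
    ∃ C' E' : Finset α, C' ⊆ C2 \ X ∧ E' ⊆ E \ C' ∧ St (M.con C') E' X (C2 \ C') e2 W N ∧
      (∀ Y ⊆ X, (M.con C').r Y = M.r Y) ∧
      ∀ x ∈ E', x ∉ ed e2 W → x ∉ X →
        (M.con C').In X x ∨ ∃ A, x ∈ A ∧ Tight (M.con C') E' X (C2 \ C') e2 W N A := by
  induction n using Nat.strong_induction_on with
  | _ n ih =>
  intro M E X C2 hn hst
  by_cases hall : ∀ x ∈ E, x ∉ ed e2 W → x ∉ X →
      M.In X x ∨ ∃ A, x ∈ A ∧ Tight M E X C2 e2 W N A
  · refine ⟨∅, E, Finset.empty_subset _, by simp, ?_, ?_, ?_⟩
    · rw [Reduce_con_empty, Finset.sdiff_empty]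
      exact hst
    · intro Y _
      rw [Reduce_con_empty]
    · rw [Reduce_con_empty, Finset.sdiff_empty]
      exact hall
  · push Not at hall
    obtain ⟨x, hx, hxe, hxX, hxIn, hxT⟩ := hall
    have hcard : (E.erase x).card < n := by
      rw [Finset.card_erase_of_mem hx, hn]
      have : 0 < E.card := Finset.card_pos.2 ⟨x, hx⟩
      omega
    have hX1 : X ⊆ E.erase x := fun a ha =>
      Finset.mem_erase.2 ⟨fun h => hxX (h ▸ ha), hst.hX ha⟩
    have hins : ∀ A : Finset α, insert x A ∩ ed e2 W = A ∩ ed e2 W := by
      intro A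
      ext a
      simp only [Finset.mem_inter, Finset.mem_insert]
      constructor
      · rintro ⟨h1, h2⟩
        rcases h1 with h1 | h1
        · exact absurd (h1 ▸ h2) hxe
        · exact ⟨h1, h2⟩
      · rintro ⟨h1, h2⟩
        exact ⟨Or.inr h1, h2⟩
    by_cases hxC : x ∈ C2
    · have hcup : {x} ∪ C2.erase x = C2 := by
        ext a
        simp only [Finset.mem_union, Finset.mem_singleton, Finset.mem_erase]
        constructor
        · rintro (h | h)
          · exact h ▸ hxC
          · exact h.2
        · intro h
          by_cases hax : a = x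
          · exact Or.inl hax
          · exact Or.inr ⟨hax, h⟩
      have hcon : (M.con {x}).con (C2.erase x) = M.con C2 := by
        rw [RF.con_con_eq, hcup]
      have hst1 : St (M.con {x}) (E.erase x) X (C2.erase x) e2 W N := by
        refine ⟨hX1, Finset.erase_subset_erase x hst.hC, ?_, ?_, ?_⟩
        · intro y hy
          have h1 := hst.hE hy
          rw [Finset.mem_sdiff] at h1 ⊢
          have hyx : y ≠ x := fun h => hxe (h ▸ hy)
          exact ⟨Finset.mem_erase.2 ⟨hyx, h1.1⟩, fun h => h1.2 (Finset.mem_of_mem_erase h)⟩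
        · rw [hcon]
          exact hst.cocl
        · intro A hXA hAE hr
          rw [hcon] at hr
          by_contra hlt
          apply hxT (insert x A) (Finset.mem_insert_self x A)
          have a1 := M.con_add {x} A
          have a2 := M.con_add {x} (E.erase x \ A)
          have a3 := M.con_add {x} (E.erase x)
          have e1 : A ∪ {x} = insert x A := by ext a; simp [or_comm]
          have e2' : E.erase x ∪ {x} = E := by
            ext a
            simp only [Finset.mem_union, Finset.mem_singleton, Finset.mem_erase]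
            constructor
            · rintro (h | h)
              · exact h.2
              · exact h ▸ hx
            · intro h
              by_cases hax : a = x
              · exact Or.inr hax
              · exact Or.inl ⟨hax, h⟩
          have e3 : E \ insert x A ⊆ (E.erase x \ A) ∪ {x} := by
            intro a
            simp only [Finset.mem_union, Finset.mem_singleton, Finset.mem_erase,
              Finset.mem_sdiff, Finset.mem_insert]
            tauto
          have e4 := M.mono e3
          have e5 := M.le_card {x}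
          rw [Finset.card_singleton] at e5
          rw [e1] at a1
          rw [e2'] at a3
          refine ⟨hXA.trans (Finset.subset_insert x A), ?_, ?_, ?_⟩
          · exact Finset.insert_subset hx (hAE.trans (Finset.erase_subset x E))
          · rw [hins]
            exact hr
          · omega
      obtain ⟨C'', E'', h1, h2, h3, h4, h5⟩ :=
        ih (E.erase x).card hcard (M.con {x}) (E.erase x) X (C2.erase x) rfl hst1
      have hc1 : (M.con {x}).con C'' = M.con (insert x C'') := by
        rw [RF.con_con_eq]
        congr 1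
      have hc2 : C2.erase x \ C'' = C2 \ insert x C'' := by
        ext a
        simp only [Finset.mem_erase, Finset.mem_sdiff, Finset.mem_insert]
        tauto
      rw [hc1, hc2] at h3
      rw [hc1] at h4
      rw [hc1, hc2] at h5
      refine ⟨insert x C'', E'', ?_, ?_, h3, ?_, h5⟩
      · intro a ha
        rw [Finset.mem_insert] at ha
        rw [Finset.mem_sdiff]
        rcases ha with ha | ha
        · rw [ha]
          exact ⟨hxC, hxX⟩
        · have := h1 ha
          rw [Finset.mem_sdiff] at this
          exact ⟨Finset.mem_of_mem_erase this.1, this.2⟩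
      · intro a ha
        have := h2 ha
        simp only [Finset.mem_sdiff, Finset.mem_erase, Finset.mem_insert] at this ⊢
        tauto
      · intro Y hY
        rw [h4 Y hY]
        exact Reduce_singleton M hxIn hY
    · have hst1 : St M (E.erase x) X C2 e2 W N := by
        refine ⟨hX1, ?_, ?_, hst.cocl, ?_⟩
        · intro a ha
          exact Finset.mem_erase.2 ⟨fun h => hxC (h ▸ ha), hst.hC ha⟩
        · intro y hy
          have h1 := hst.hE hy
          rw [Finset.mem_sdiff] at h1 ⊢
          have hyx : y ≠ x := fun h => hxe (h ▸ hy)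
          exact ⟨Finset.mem_erase.2 ⟨hyx, h1.1⟩, h1.2⟩
        · intro A hXA hAE hr
          by_contra hlt
          apply hxT (insert x A) (Finset.mem_insert_self x A)
          have e3 : E \ insert x A = E.erase x \ A := by
            ext a
            simp only [Finset.mem_erase, Finset.mem_sdiff, Finset.mem_insert]
            tauto
          have e4 : M.r (E.erase x) ≤ M.r E := M.mono (Finset.erase_subset x E)
          have e5 := M.r_insert_le x A
          refine ⟨hXA.trans (Finset.subset_insert x A), ?_, ?_, ?_⟩
          · exact Finset.insert_subset hx (hAE.trans (Finset.erase_subset x E))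
          · rw [hins]
            exact hr
          · rw [e3]
            omega
      obtain ⟨C'', E'', h1, h2, h3, h4, h5⟩ :=
        ih (E.erase x).card hcard M (E.erase x) X C2 rfl hst1
      refine ⟨C'', E'', h1, ?_, h3, h4, h5⟩
      intro a ha
      have := h2 ha
      simp only [Finset.mem_sdiff, Finset.mem_erase] at this ⊢
      exact ⟨this.1.2, this.2⟩

end Pool.Agent.H.MP_60a1a2_co
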