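import Pool.Agent.H.MP_60a1a2_co.RFBasic
import Pool.Agent.H.MP_60a1a2_co.Color

/-! # Contraction of colour classes -/

set_option autoImplicit false

namespace Pool.Agent.H.MP_60a1a2_co

/-- the monochromatic edges -/
def mcol {α : Type*} [DecidableEq α] (e : ℕ → ℕ → α) (V : Finset ℕ) {K : ℕ}
    (χ : ℕ → Fin (K + 1)) : Finset α :=
  (V.offDiag.filter (fun q => χ q.1 = χ q.2)).image (fun q => e q.1 q.2)

/-- Rank of the monochromatic edges of a surjective colouring.

Proof.  Choose `ρ i ∈ V` with `χ (ρ i) = i`.  Let `Q = mcol e V χ`.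
`≥`: `Q` together with the `K` edges `e (ρ 0) (ρ i)`, `i ≠ 0`, spans `ed e V`: for `v ∈ V`, `v ≠ ρ 0`,
with `χ v = i`: if `i = 0` then `e (ρ 0) v ∈ Q`; otherwise `v = ρ i` or `e (ρ i) v ∈ Q`, use
`Tri.trans`; `Tri.star_spans`.  So `V.card - 1 ≤ N.r Q + K`.
`≤`: the set of the edges `e (ρ (χ v)) v` for `v ∈ V`, `v ≠ ρ (χ v)` spans `Q` (`Tri.trans`, same
colour); it has at most `V.card - (K + 1)` elements. -/
theorem mcol_rank {α : Type*} [DecidableEq α] {N : RF α} {e : ℕ → ℕ → α} {V : Finset ℕ}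
    (h : IsK N e V) {K : ℕ} (χ : ℕ → Fin (K + 1)) (hχ : ∀ i, ∃ v ∈ V, χ v = i) :
    N.r (mcol e V χ) + K + 1 = V.card := by
  classical
  choose ρ hρV hρ using hχ
  have hne : V.Nonempty := ⟨ρ 0, hρV 0⟩
  have hrk := h.rank hne
  have hmem : ∀ {u v : ℕ}, u ∈ V → v ∈ V → u ≠ v → χ u = χ v → e u v ∈ mcol e V χ := by
    intro u v hu hv huv hc
    unfold mcol
    rw [Finset.mem_image]
    exact ⟨(u, v), Finset.mem_filter.2 ⟨Finset.mem_offDiag.2 ⟨hu, hv, huv⟩, hc⟩, rfl⟩
  -- lower bound
  have hlow : N.r (ed e V) ≤ N.r (mcol e V χ) + K := by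
    set S : Finset α := ((Finset.univ : Finset (Fin (K + 1))).erase 0).image
      (fun i => e (ρ 0) (ρ i)) with hS
    have hScard : S.card ≤ K := by
      refine Finset.card_image_le.trans ?_
      rw [Finset.card_erase_of_mem (Finset.mem_univ _), Finset.card_univ, Fintype.card_fin]
      omega
    have hin : ∀ j ∈ V, j ≠ ρ 0 → N.In (mcol e V χ ∪ S) (e (ρ 0) j) := by
      intro j hj hj0
      by_cases hc : χ j = 0
      · apply N.in_of_mem
        apply Finset.mem_union_left
        exact hmem (hρV 0) hj (Ne.symm hj0) (by rw [hρ 0, hc])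
      · have h1 : N.In (mcol e V χ ∪ S) (e (ρ 0) (ρ (χ j))) := by
          apply N.in_of_mem
          apply Finset.mem_union_right
          rw [hS, Finset.mem_image]
          exact ⟨χ j, Finset.mem_erase.2 ⟨hc, Finset.mem_univ _⟩, rfl⟩
        by_cases hjr : ρ (χ j) = j
        · rwa [hjr] at h1
        · have h2 : N.In (mcol e V χ ∪ S) (e (ρ (χ j)) j) := by
            apply N.in_of_mem
            apply Finset.mem_union_left
            exact hmem (hρV _) hj hjr (hρ _)
          have h3 : ρ 0 ≠ ρ (χ j) := by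
            intro h4
            apply hc
            rw [← hρ (χ j), ← h4, hρ 0]
          exact h.tri.trans (hρV 0) (hρV _) hj h3 hjr (Ne.symm hj0) h1 h2
    have hall := h.tri.star_spans h.isE (hρV 0) hin
    have h1 := N.r_union_of_in hall
    have h2 : N.r (ed e V) ≤ N.r ((mcol e V χ ∪ S) ∪ ed e V) := N.mono Finset.subset_union_right
    have h3 := N.r_union_le_card (mcol e V χ) S
    omega
  -- upper bound
  have hup : N.r (mcol e V χ) + (K + 1) ≤ V.card := by
    set R : Finset ℕ := V.filter (fun v => v ≠ ρ (χ v)) with hR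
    set B : Finset α := R.image (fun v => e (ρ (χ v)) v) with hB
    have hinB : ∀ v ∈ V, v ≠ ρ (χ v) → N.In B (e (ρ (χ v)) v) := by
      intro v hv hvr
      apply N.in_of_mem
      rw [hB, Finset.mem_image]
      exact ⟨v, Finset.mem_filter.2 ⟨hv, hvr⟩, rfl⟩
    have hin : ∀ x ∈ mcol e V χ, N.In B x := by
      intro x hx
      unfold mcol at hx
      obtain ⟨⟨u, v⟩, huv, rfl⟩ := Finset.mem_image.1 hx
      obtain ⟨h1, hc⟩ := Finset.mem_filter.1 huv
      obtain ⟨hu, hv, hne'⟩ := Finset.mem_offDiag.1 h1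
      simp only at hu hv hne' hc ⊢
      by_cases h2 : u = ρ (χ u)
      · have h3 : v ≠ ρ (χ v) := by
          rw [← hc, ← h2]
          exact Ne.symm hne'
        have h4 := hinB v hv h3
        rwa [← hc, ← h2] at h4
      · have h5 := hinB u hu h2
        rw [h.isE.symm _ (hρV _) _ hu] at h5
        by_cases h3 : v = ρ (χ v)
        · have h6 : ρ (χ u) = v := by rw [hc, ← h3]
          rwa [h6] at h5
        · have h4 := hinB v hv h3
          rw [← hc] at h4 h3
          exact h.tri.trans hu (hρV _) hv h2 (Ne.symm h3) hne' h5 h4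
    have h1 := N.r_union_of_in hin
    have h2 : N.r (mcol e V χ) ≤ N.r (B ∪ mcol e V χ) := N.mono Finset.subset_union_right
    have h3 := N.le_card B
    have h4 : B.card ≤ R.card := Finset.card_image_le
    have hρinj : Function.Injective ρ := by
      intro i i' hii
      rw [← hρ i, ← hρ i', hii]
    have h5 : R.card + (K + 1) ≤ V.card := by
      have h6 : ((Finset.univ : Finset (Fin (K + 1))).image ρ).card = K + 1 := by
        rw [Finset.card_image_of_injective _ hρinj, Finset.card_univ, Fintype.card_fin]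
      have h7 : Disjoint R ((Finset.univ : Finset (Fin (K + 1))).image ρ) := by
        rw [Finset.disjoint_left]
        intro v hv hv'
        obtain ⟨i, -, rfl⟩ := Finset.mem_image.1 hv'
        apply (Finset.mem_filter.1 hv).2
        rw [hρ i]
      rw [← h6, ← Finset.card_union_of_disjoint h7]
      apply Finset.card_le_card
      apply Finset.union_subset (Finset.filter_subset _ _)
      intro v hv
      obtain ⟨i, -, rfl⟩ := Finset.mem_image.1 hv
      exact hρV i
    omega
  omega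

/-- A set of edges of corank `K` such that every large subset of `T` still spans.

Proof.  `L0` from `ineq K t` (and at least such that `V` is nonempty, automatic).  Fix `v1 ∈ V`.
For `T' ⊆ T` with `T'.card ≤ t` and `f ⊆ ed e V` with `f.card ≤ t` let
`S(T', f) = {v ∈ V | v = v1 ∨ N.In ((T \ T') ∪ f) (e v1 v)}`, and let `S` be the set of those
`S(T', f)` which are not `V`; they contain `v1`.  `S.card ≤ (L + 1) ^ t * ((L + 1) ^ 2 + 1) ^ t`
(`card_small`; `(ed e V).card ≤ V.card ^ 2`).  `coloring` gives `χ`; let `Q = mcol e V χ`,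
`mcol_rank`.  Let `T' ⊆ T`, `T'.card ≤ t`, `X = (T \ T') ∪ Q`; `N.r X ≤ L`
(`X ⊆ ed e V ∪ T`).  `T \ T'` is independent (`RF.ind_subset`); by `RF.exists_ext` there is a basis
`B` of `X` with `T \ T' ⊆ B`; `f = B \ (T \ T') ⊆ Q`, `f.card = N.r X - (T \ T').card ≤
L - (L - t) = t`.  `(T \ T') ∪ f = B` and `B` has the same closure as `X`
(`RF.in_of_r_eq`, `RF.in_trans`, `RF.in_mono`).  Suppose that `S(T', f) ≠ V`.  There are
`u ∈ S(T', f)`, `v ∈ V`, `v ∉ S(T', f)` with `χ u = χ v`, so `e u v ∈ Q ⊆ X`, and `u = v1` or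
`N.In X (e v1 u)`; by `Tri.trans` `N.In X (e v1 v)`, so `N.In B (e v1 v)`, a contradiction.
So `S(T', f) = V`: all edges at `v1` are in the closure of `X`, so all of `ed e V`
(`Tri.star_spans`), so `N.r X ≥ N.r (ed e V) = L`. -/
theorem spread.{u} (K t : ℕ) : ∃ L0 : ℕ, ∀ {α : Type u} [DecidableEq α] (N : RF α)
    (e : ℕ → ℕ → α) (V : Finset ℕ) (T : Finset α) (L : ℕ), L0 ≤ L → IsK N e V →
    V.card = L + 1 → T.card = L → N.r T = L → N.r (ed e V ∪ T) = L →
    ∃ Q ⊆ ed e V, N.r Q + K = L ∧ ∀ T' ⊆ T, T'.card ≤ t → N.r ((T \ T') ∪ Q) = L := by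
  classical
  obtain ⟨L0, hL0⟩ := ineq K t
  refine ⟨L0, ?_⟩
  intro α _ N e V T L hL h hV hT hTr hsp
  have hne : V.Nonempty := Finset.card_pos.1 (by omega)
  obtain ⟨v1, hv1⟩ := hne
  have hrk := h.rank ⟨v1, hv1⟩
  set Sf : Finset α × Finset α → Finset ℕ := fun p =>
    V.filter (fun v => v = v1 ∨ N.In ((T \ p.1) ∪ p.2) (e v1 v)) with hSf
  set S : Finset (Finset ℕ) := (((T.powerset.filter (fun s => s.card ≤ t)) ×ˢ
    ((ed e V).powerset.filter (fun s => s.card ≤ t))).image Sf).filter (fun A => A ≠ V) with hS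
  have hed : (ed e V).card ≤ (L + 1) ^ 2 := by
    unfold ed
    refine Finset.card_image_le.trans ?_
    rw [Finset.offDiag_card, hV, pow_two]
    exact Nat.sub_le _ _
  have hScard : S.card ≤ (L + 1) ^ t * ((L + 1) ^ 2 + 1) ^ t := by
    refine (Finset.card_filter_le _ _).trans (Finset.card_image_le.trans ?_)
    rw [Finset.card_product]
    apply Nat.mul_le_mul
    · have h1 := card_small T t
      rwa [hT] at h1
    · have h1 := card_small (ed e V) t
      exact h1.trans (Nat.pow_le_pow_left (by omega) t)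
  have hSprop : ∀ A ∈ S, A ⊆ V ∧ A.Nonempty ∧ A ≠ V := by
    intro A hA
    obtain ⟨hA1, hA2⟩ := Finset.mem_filter.1 hA
    obtain ⟨p, -, rfl⟩ := Finset.mem_image.1 hA1
    exact ⟨Finset.filter_subset _ _, ⟨v1, Finset.mem_filter.2 ⟨hv1, Or.inl rfl⟩⟩, hA2⟩
  have hcard : S.card * (2 ^ (K + 1) * K ^ V.card) + (K + 1) * K ^ V.card < (K + 1) ^ V.card := by
    rw [hV]
    have h1 := hL0 L hL
    have h2 : S.card * (2 ^ (K + 1) * K ^ (L + 1)) ≤
        ((L + 1) ^ t * ((L + 1) ^ 2 + 1) ^ t) * (2 ^ (K + 1) * K ^ (L + 1)) :=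
      Nat.mul_le_mul_right _ hScard
    omega
  obtain ⟨χ, hχ, hsep⟩ := coloring K V S hSprop hcard
  have hQ := mcol_rank h χ hχ
  have hQsub : mcol e V χ ⊆ ed e V := by
    intro x hx
    unfold mcol at hx
    obtain ⟨⟨u, v⟩, huv, rfl⟩ := Finset.mem_image.1 hx
    obtain ⟨hu, hv, hne'⟩ := Finset.mem_offDiag.1 (Finset.mem_filter.1 huv).1
    exact ed_mem hu hv hne'
  refine ⟨mcol e V χ, hQsub, by omega, ?_⟩
  intro T' hT' hT't
  set X : Finset α := (T \ T') ∪ mcol e V χ with hX
  have hXle : N.r X ≤ L := by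
    rw [← hsp]
    apply N.mono
    intro x hx
    rcases Finset.mem_union.1 hx with h1 | h1
    · exact Finset.mem_union_right _ (Finset.sdiff_subset h1)
    · exact Finset.mem_union_left _ (hQsub h1)
  have hind : N.r (T \ T') = (T \ T').card :=
    N.ind_subset Finset.sdiff_subset (by rw [hTr, hT])
  obtain ⟨B, hB1, hB2, hB3, hB4⟩ := N.exists_ext (I := T \ T') (X := X)
    Finset.subset_union_left hind
  set f : Finset α := B \ (T \ T') with hf
  have hfQ : f ⊆ mcol e V χ := by
    intro x hx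
    obtain ⟨h1, h2⟩ := Finset.mem_sdiff.1 hx
    rcases Finset.mem_union.1 (hB2 h1) with h3 | h3
    · exact absurd h3 h2
    · exact h3
  have hTc : (T \ T').card + T'.card = T.card := Finset.card_sdiff_add_card_eq_card hT'
  have hfc : f.card + (T \ T').card = B.card := Finset.card_sdiff_add_card_eq_card hB1
  have hft : f.card ≤ t := by omega
  have hBf : (T \ T') ∪ f = B := by
    rw [hf, Finset.union_sdiff_of_subset hB1]
  have hXB : N.r X = N.r B := by rw [hB3, hB4]
  have hSV : Sf (T', f) = V := by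
    by_contra hcon
    have hmem : Sf (T', f) ∈ S := by
      apply Finset.mem_filter.2
      refine ⟨Finset.mem_image.2 ⟨(T', f), ?_, rfl⟩, hcon⟩
      rw [Finset.mem_product]
      exact ⟨Finset.mem_filter.2 ⟨Finset.mem_powerset.2 hT', hT't⟩,
        Finset.mem_filter.2 ⟨Finset.mem_powerset.2 (hfQ.trans hQsub), hft⟩⟩
    obtain ⟨u, hu, v, hv, huv⟩ := hsep _ hmem
    obtain ⟨hvV, hvS⟩ := Finset.mem_sdiff.1 hv
    obtain ⟨huV, huS⟩ := Finset.mem_filter.1 hu
    simp only [hBf] at huS
    have hne1 : u ≠ v := by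
      rintro rfl
      exact hvS hu
    have hv1v : v ≠ v1 := by
      rintro rfl
      exact hvS (Finset.mem_filter.2 ⟨hv1, Or.inl rfl⟩)
    have hvin : ¬ N.In B (e v1 v) := by
      intro h1
      apply hvS
      refine Finset.mem_filter.2 ⟨hvV, Or.inr ?_⟩
      simp only [hBf]
      exact h1
    have huvQ : e u v ∈ mcol e V χ := by
      unfold mcol
      rw [Finset.mem_image]
      exact ⟨(u, v), Finset.mem_filter.2 ⟨Finset.mem_offDiag.2 ⟨huV, hvV, hne1⟩, huv⟩, rfl⟩
    have huvB : N.In B (e u v) :=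
      N.in_of_r_eq hB2 hXB (Finset.mem_union_right _ huvQ)
    apply hvin
    rcases huS with rfl | huS
    · exact huvB
    · by_cases hu1 : u = v1
      · subst hu1
        exact huvB
      · exact h.tri.trans hv1 huV hvV (Ne.symm hu1) hne1 (Ne.symm hv1v) huS huvB
  have hall : ∀ x ∈ ed e V, N.In B x := by
    apply h.tri.star_spans h.isE hv1
    intro j hj hj1
    have h1 : j ∈ Sf (T', f) := by
      rw [hSV]
      exact hj
    obtain ⟨-, h2⟩ := Finset.mem_filter.1 h1
    simp only [hBf] at h2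
    rcases h2 with h2 | h2
    · exact absurd h2 hj1
    · exact h2
  have h1 := N.r_union_of_in hall
  have h2 : N.r (ed e V) ≤ N.r (B ∪ ed e V) := N.mono Finset.subset_union_right
  omega

end Pool.Agent.H.MP_60a1a2_co
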