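import Pool.Agent.H.MP_60a1a2_co.Vec

/-! # Independent types and their orders -/

set_option autoImplicit false

namespace Pool.Agent.H.MP_60a1a2_co

variable {β κ : Type} [DecidableEq β] [DecidableEq κ] [Fintype κ] {P : β → Prop} {ty : β → κ}
  {K : ℕ} {g : Finset (Finset β) → ℕ}

/-- the unit vector of a type -/
def E1 (i : κ) : κ → ℕ := Pi.single i 1

/-- independent types: if the unit vectors of the types in `S` are in the closure of `F` then the
rank of `F` is at least the number of these types -/
def Ind {n : ℕ} (P : β → Prop) (ty : β → κ) (g : Finset (Finset β) → ℕ) (τ : Fin n → κ) :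
    Prop :=
  ∀ F, DF P F → ∀ S : Finset (Fin n), (∀ i ∈ S, Lam P ty g F (E1 (τ i))) → S.card ≤ g F


theorem tors_df1 {A : Finset β} (hA : A.Nonempty) (hP : ∀ x ∈ A, P x) : DF P ({A} : Finset (Finset β)) := by
  have h1 : DF P (insert A ∅) := DF.insert_iff.2 ⟨DF.empty, hA, hP, by simp⟩
  simpa using h1

theorem tors_df2 {A B : Finset β} (hA : A.Nonempty) (hPA : ∀ x ∈ A, P x) (hB : B.Nonempty)
    (hPB : ∀ x ∈ B, P x) (hd : Disjoint A B) : DF P ({A, B} : Finset (Finset β)) := by
  refine DF.insert_iff.2 ⟨tors_df1 hB hPB, hA, hPA, ?_⟩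
  intro C hC _
  rw [Finset.mem_singleton] at hC
  rw [hC]
  exact hd

theorem tors_E1_ne (i : κ) : E1 i ≠ 0 := by
  intro h0
  have h1 := congrFun h0 i
  simp [E1] at h1

/-- a fresh realization of a vector -/
theorem tors_fresh (h : Ex P ty K g) {v : κ → ℕ} (hv : v ≠ 0) {F : Finset (Finset β)}
    (hF : DF P F) (X : Finset β) :
    ∃ A : Finset β, cnt ty A = v ∧ A.Nonempty ∧ (∀ x ∈ A, P x) ∧ Disjoint A X ∧
      (∀ B ∈ F, Disjoint A B) ∧ DF P (insert A F) ∧ A ∉ F := by
  obtain ⟨A, h1, h2, h3, h4⟩ := h.real1 v hv (X ∪ F.biUnion id)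
  have h5 : ∀ B ∈ F, Disjoint A B := by
    intro B hB
    refine Finset.disjoint_of_subset_right ?_ h4
    intro x hx
    exact Finset.mem_union_right _ (Finset.mem_biUnion.2 ⟨B, hB, hx⟩)
  refine ⟨A, h1, h2, h3, Finset.disjoint_of_subset_right Finset.subset_union_left h4, h5, ?_, ?_⟩
  · exact DF.insert_iff.2 ⟨hF, h2, h3, fun B hB _ => h5 B hB⟩
  · intro hAF
    have := h5 A hAF
    rw [disjoint_self] at this
    exact h2.ne_empty this

/-- if a multiple of `v` is in the closure of `F`, but not in the closure of the empty family,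
then `v` is in the closure of `F` -/
theorem tors_div (h : Ex P ty K g) {F : Finset (Finset β)} (hF : DF P F) {v : κ → ℕ} {m : ℕ}
    (hl : Lam P ty g F (m • v)) (hn : ¬ Lam P ty g ∅ (m • v)) : Lam P ty g F v := by
  have hne : m • v ≠ 0 := fun h0 => hn (Or.inl h0)
  obtain ⟨D, h1, h2, h3, _, _, h6, _⟩ := tors_fresh h hne hF ∅
  have hu : insert D F = F ∪ {D} := by
    rw [Finset.union_comm, Finset.insert_eq]
  rw [hu] at h6
  have hp : Lam P ty g {D} v := Lam.par h h1 h3 hn
  have hm : Lam P ty g (F ∪ {D}) v := Lam.mono h h6 Finset.subset_union_right hp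
  refine Lam.trans h h6 ?_ hm
  intro A hA
  rw [Finset.mem_singleton] at hA
  rw [hA, h1]
  exact hl

/-- Independent representatives give independent types.

Proof.  Let `Xs = S.image (fun i => {x i})`; `g Xs = S.card` (`AS.ind_subset` with `F = ∅`).  By
`Ex.real` choose fresh elements `y i` (sets with `cnt = E1 (τ i)`; work with these sets directly)
disjoint from the members of `F` and from all `x j`; `Ys` is the family of these sets for `i ∈ S`.
`g (F ∪ Ys) = g F` (`Lam.fam`), `g Ys ≤ g (F ∪ Ys)`, and `g Ys = g (Ys ∪ Xs) = g Xs` by `Lam.fam`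
twice (`cnt ty {x i} = E1 (τ i)` is in the closure of `Ys` by `Lam.mem`, and conversely). -/
theorem ind_of_rep (h : Ex P ty K g) {n : ℕ} {τ : Fin n → κ} (hτ : Function.Injective τ)
    (x : Fin n → β) (hx : ∀ i, P (x i) ∧ ty (x i) = τ i)
    (hg : g (Finset.univ.image (fun i => ({x i} : Finset β))) = n) : Ind P ty g τ := by
  intro F hF S hS
  have hxinj : Function.Injective x := by
    intro i j hij
    apply hτ
    rw [← (hx i).2, ← (hx j).2, hij]
  have hsinj : Function.Injective (fun i => ({x i} : Finset β)) := by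
    intro i j hij
    exact hxinj (Finset.singleton_injective hij)
  -- the family of all representatives
  have hDI : DF P (Finset.univ.image (fun i => ({x i} : Finset β))) := by
    constructor
    · intro A hA
      rw [Finset.mem_image] at hA
      obtain ⟨i, _, rfl⟩ := hA
      refine ⟨Finset.singleton_nonempty _, ?_⟩
      intro y hy
      rw [Finset.mem_singleton] at hy
      rw [hy]
      exact (hx i).1
    · intro A hA B hB hAB
      rw [Finset.mem_image] at hA hB
      obtain ⟨i, _, rfl⟩ := hA
      obtain ⟨j, _, rfl⟩ := hB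
      rw [Finset.disjoint_singleton]
      intro hij
      exact hAB (by rw [hij])
  have hgX : g (S.image (fun i => ({x i} : Finset β))) = S.card := by
    have h1 : g (∅ ∪ Finset.univ.image (fun i => ({x i} : Finset β))) =
        g ∅ + (Finset.univ.image (fun i => ({x i} : Finset β))).card := by
      rw [Finset.empty_union, hg, h.as.zero, zero_add, Finset.card_image_of_injective _ hsinj,
        Finset.card_univ, Fintype.card_fin]
    have h2 : DF P (∅ ∪ Finset.univ.image (fun i => ({x i} : Finset β))) := by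
      rw [Finset.empty_union]
      exact hDI
    have h3 := AS.ind_subset h.as h2 h1
      (Finset.image_subset_image (f := fun i => ({x i} : Finset β)) (Finset.subset_univ S))
    rw [Finset.empty_union, h.as.zero, zero_add, Finset.card_image_of_injective _ hsinj] at h3
    exact h3
  -- fresh sets
  obtain ⟨B, hB, hBd⟩ := h.real (τ := Fin n) (fun i => E1 (τ i)) (F.biUnion id ∪ Finset.univ.image x)
  have hBne : ∀ i, (B i).Nonempty := by
    intro i
    rw [Finset.nonempty_iff_ne_empty]
    intro h0
    have h1 := (hB i).1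
    rw [h0, cnt_empty] at h1
    exact tors_E1_ne _ h1.symm
  have hBF : ∀ i, ∀ A ∈ F, Disjoint (B i) A := by
    intro i A hA
    refine Finset.disjoint_of_subset_right ?_ (hB i).2.2
    intro y hy
    exact Finset.mem_union_left _ (Finset.mem_biUnion.2 ⟨A, hA, hy⟩)
  have hBx : ∀ i j, Disjoint (B i) {x j} := by
    intro i j
    refine Finset.disjoint_of_subset_right ?_ (hB i).2.2
    intro y hy
    rw [Finset.mem_singleton] at hy
    rw [hy]
    exact Finset.mem_union_right _ (Finset.mem_image_of_mem _ (Finset.mem_univ j))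
  have hDY : DF P (S.image B) := by
    constructor
    · intro A hA
      rw [Finset.mem_image] at hA
      obtain ⟨i, _, rfl⟩ := hA
      exact ⟨hBne i, (hB i).2.1⟩
    · intro A hA C hC hAC
      rw [Finset.mem_image] at hA hC
      obtain ⟨i, _, rfl⟩ := hA
      obtain ⟨j, _, rfl⟩ := hC
      refine hBd i j ?_
      intro hij
      exact hAC (by rw [hij])
  have hDX : DF P (S.image (fun i => ({x i} : Finset β))) :=
    hDI.subset (Finset.image_subset_image (Finset.subset_univ S))
  have hun : ∀ G G' : Finset (Finset β), DF P G → DF P G' →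
      (∀ A ∈ G, ∀ C ∈ G', Disjoint A C) → DF P (G ∪ G') := by
    intro G G' hG hG' hd
    constructor
    · intro A hA
      rw [Finset.mem_union] at hA
      rcases hA with hA | hA
      · exact hG.1 A hA
      · exact hG'.1 A hA
    · intro A hA C hC hAC
      rw [Finset.mem_union] at hA hC
      rcases hA with hA | hA
      · rcases hC with hC | hC
        · exact hG.2 A hA C hC hAC
        · exact hd A hA C hC
      · rcases hC with hC | hC
        · exact (hd C hC A hA).symm
        · exact hG'.2 A hA C hC hAC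
  have hFY : DF P (F ∪ S.image B) := by
    refine hun _ _ hF hDY ?_
    intro A hA C hC
    rw [Finset.mem_image] at hC
    obtain ⟨i, _, rfl⟩ := hC
    exact (hBF i A hA).symm
  have hYX : DF P (S.image B ∪ S.image (fun i => ({x i} : Finset β))) := by
    refine hun _ _ hDY hDX ?_
    intro A hA C hC
    rw [Finset.mem_image] at hA hC
    obtain ⟨i, _, rfl⟩ := hA
    obtain ⟨j, _, rfl⟩ := hC
    exact hBx i j
  have hcx : ∀ i, cnt ty ({x i} : Finset β) = E1 (τ i) := by
    intro i
    funext c
    unfold cnt E1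
    rw [Finset.filter_singleton, (hx i).2]
    by_cases hc : τ i = c
    · subst hc
      simp
    · rw [if_neg hc, Finset.card_empty, Pi.single_eq_of_ne (Ne.symm hc)]
  have e1 : g (F ∪ S.image B) = g F := by
    refine Lam.fam h hFY ?_
    intro A hA
    rw [Finset.mem_image] at hA
    obtain ⟨i, hi, rfl⟩ := hA
    rw [(hB i).1]
    exact hS i hi
  have e2 : g (S.image B) ≤ g (F ∪ S.image B) := AS.mono' h.as hFY Finset.subset_union_right
  have e3 : g (S.image B ∪ S.image (fun i => ({x i} : Finset β))) = g (S.image B) := by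
    refine Lam.fam h hYX ?_
    intro A hA
    rw [Finset.mem_image] at hA
    obtain ⟨i, hi, rfl⟩ := hA
    have h1 := Lam.mem h hDY (Finset.mem_image_of_mem B hi)
    rw [(hB i).1] at h1
    rw [hcx i]
    exact h1
  have e4 : g (S.image (fun i => ({x i} : Finset β)) ∪ S.image B) =
      g (S.image (fun i => ({x i} : Finset β))) := by
    refine Lam.fam h (by rw [Finset.union_comm]; exact hYX) ?_
    intro A hA
    rw [Finset.mem_image] at hA
    obtain ⟨i, hi, rfl⟩ := hA
    have h1 := Lam.mem h hDX (Finset.mem_image_of_mem (fun i => ({x i} : Finset β)) hi)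
    rw [hcx i] at h1
    rw [(hB i).1]
    exact h1
  rw [Finset.union_comm] at e4
  omega

/-- Two different types have the same multiples in the closure of the empty family.

Proof.  `m = 0` is trivial.  Let `A` realize `E1 (τ i) + E1 (τ j)`.  In the closure of `{A}` are:
`m • (E1 (τ i) + E1 (τ j))` (`Lam.mem`, `Lam.smul`), `m • E1 (τ i)` (`Lam.mono`), so
`m • E1 (τ j)` (`Lam.cancel`).  Suppose `m • E1 (τ j)` is not in the closure of `∅`.  Let `D` be a
realization of it disjoint from `A`.  By `Lam.par` `E1 (τ j)` is in the closure of `{D}`, hence of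
`{A} ∪ {D}` (`Lam.mono`), hence of `{A}` (`Lam.trans`).  Then `E1 (τ i)` is in the closure of
`{A}` (`Lam.cancel`, with `Lam.mem` for `A`).  By `Ind` for `S = {i, j}`: `2 ≤ g {A} ≤ 1`
(`AS.one`). -/
theorem tors_trans (h : Ex P ty K g) {n : ℕ} {τ : Fin n → κ}
    (hI : Ind P ty g τ) {i j : Fin n} (hij : i ≠ j) {m : ℕ}
    (hm : Lam P ty g ∅ (m • E1 (τ i))) : Lam P ty g ∅ (m • E1 (τ j)) := by
  by_contra hn
  have hne : E1 (τ i) + E1 (τ j) ≠ 0 := by
    intro h0
    have h1 := congrFun h0 (τ i)
    simp [E1] at h1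
  obtain ⟨A, h1, h2, h3, _⟩ := h.real1 _ hne ∅
  have hD := tors_df1 h2 h3
  have l1 : Lam P ty g {A} (E1 (τ i) + E1 (τ j)) := by
    have := Lam.mem h hD (Finset.mem_singleton_self A)
    rw [h1] at this
    exact this
  have l2 : Lam P ty g {A} (m • E1 (τ i) + m • E1 (τ j)) := by
    rw [← smul_add]
    exact Lam.smul h hD l1 m
  have l3 : Lam P ty g {A} (m • E1 (τ i)) := Lam.mono h hD (Finset.empty_subset _) hm
  have l4 : Lam P ty g {A} (m • E1 (τ j)) := Lam.cancel h hD l3 l2
  have l5 : Lam P ty g {A} (E1 (τ j)) := tors_div h hD l4 hn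
  have l6 : Lam P ty g {A} (E1 (τ i)) := by
    rw [add_comm] at l1
    exact Lam.cancel h hD l5 l1
  have h7 := hI {A} hD {i, j} (by
    intro l hl
    rw [Finset.mem_insert, Finset.mem_singleton] at hl
    rcases hl with rfl | rfl
    · exact l6
    · exact l5)
  rw [Finset.card_pair hij] at h7
  have h8 := AS.one h.as h2 h3
  omega

/-- The order is a prime number.

Proof.  Let `i ≠ j` and let `m ≥ 1` be minimal with `m • E1 (τ i)` in the closure of `∅`; by
`tors_trans` (both directions) for `0 < s < m` neither `s • E1 (τ i)` nor `s • E1 (τ j)` is in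
the closure of `∅`, and `m • E1 (τ j)` is.  `m ≠ 1` by `Ind` (`S = {i}`, `F = ∅`).  If `m` is not
prime write `m = a * b` with `1 < a < m`, `1 < b < m`.  Let `A`, `B` be disjoint realizations of
`x = E1 (τ i) + E1 (τ j)` and `x' = E1 (τ i) + (1 + b) • E1 (τ j) = x + b • E1 (τ j)`.
(i) In the closure of `{A, B}` are `x`, `x'`, so `b • E1 (τ j)`; let `D` be a fresh realization of
it; by `Lam.par` and `Lam.trans` `E1 (τ j)` is in the closure of `{A, B}`, and then `E1 (τ i)`.
By `Ind`: `2 ≤ g {A, B}`.
(ii) `a • x' = a • x + m • E1 (τ j)` is in the closure of `{A}` and of `{B}`.  If it is not in the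
closure of `∅` let `D` be a fresh realization of it: by `Lam.swap` `x` and `x'` are in the closure
of `{D}`, so `g {A, B} ≤ g ({D} ∪ {A, B}) = g {D} ≤ 1` (`Lam.fam`), contradicting (i).  So
`a • x'` is in the closure of `∅`, and by `Lam.cancel` also `a • x`.
(iii) Let `D1`, `D2` be disjoint realizations of `a • E1 (τ i)`, `a • E1 (τ j)`.  `D1 ∪ D2` realizes
`a • x`, so it is in the closure of `∅` (`Lam.z`), and `D2` is in the closure of `{D1}`
(`AS.zmove`).  `E1 (τ i)` is in the closure of `{D1}` and `E1 (τ j)` in the closure of `{D2}`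
(`Lam.par`), so both are in the closure of `{D1}` (`Lam.mono`, `Lam.trans`).  By `Ind`
`2 ≤ g {D1} ≤ 1`, a contradiction. -/
theorem tors_prime (h : Ex P ty K g) {n : ℕ} {τ : Fin n → κ}
    (hI : Ind P ty g τ) {i j : Fin n} (hij : i ≠ j) {m : ℕ} (hm0 : 1 ≤ m)
    (hm : Lam P ty g ∅ (m • E1 (τ i)))
    (hmin : ∀ s, 1 ≤ s → s < m → ¬ Lam P ty g ∅ (s • E1 (τ i))) : m.Prime := by
  have hmj : Lam P ty g ∅ (m • E1 (τ j)) := tors_trans h hI hij hm
  have hminj : ∀ s, 1 ≤ s → s < m → ¬ Lam P ty g ∅ (s • E1 (τ j)) := by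
    intro s hs1 hs2 hs3
    exact hmin s hs1 hs2 (tors_trans h hI hij.symm hs3)
  have hm1 : m ≠ 1 := by
    intro h1
    rw [h1, one_smul] at hm
    have h2 := hI ∅ DF.empty {i} (by
      intro l hl
      rw [Finset.mem_singleton] at hl
      rw [hl]
      exact hm)
    rw [Finset.card_singleton, h.as.zero] at h2
    omega
  by_contra hnp
  obtain ⟨a, b, hab, ha1, ha2, hb1, hb2⟩ : ∃ a b : ℕ, m = a * b ∧ 1 < a ∧ a < m ∧ 1 < b ∧ b < m := by
    have hf := Nat.minFac_prime hm1
    obtain ⟨b, hb⟩ := Nat.minFac_dvd m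
    have hf2 := hf.two_le
    have hfm : m.minFac ≠ m := by
      intro h0
      rw [h0] at hf
      exact hnp hf
    have hfle := Nat.minFac_le hm0
    have hb0 : b ≠ 0 := by
      rintro rfl
      omega
    have hb1 : b ≠ 1 := by
      rintro rfl
      rw [mul_one] at hb
      exact hfm hb.symm
    refine ⟨m.minFac, b, hb, by omega, by omega, by omega, ?_⟩
    calc b = 1 * b := (one_mul b).symm
      _ < m.minFac * b := Nat.mul_lt_mul_of_pos_right (by omega) (by omega)
      _ = m := hb.symm
  set u := E1 (τ i) with hu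
  set v := E1 (τ j) with hv
  have hune : u ≠ 0 := tors_E1_ne _
  have hune' : ∀ w : κ → ℕ, u + w ≠ 0 := by
    intro w h0
    have h1 := congrFun h0 (τ i)
    simp [hu, E1] at h1
  obtain ⟨A, hA1, hA2, hA3, _⟩ := h.real1 (u + v) (hune' v) ∅
  obtain ⟨B, hB1, hB2, hB3, hB4⟩ := h.real1 (u + (1 + b) • v) (hune' _) A
  have hDA := tors_df1 hA2 hA3
  have hDB := tors_df1 hB2 hB3
  have hDAB := tors_df2 hA2 hA3 hB2 hB3 hB4.symm
  have hx' : u + (1 + b) • v = (u + v) + b • v := by
    rw [add_smul, one_smul, add_assoc]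
  -- (i)
  have i1 : Lam P ty g {A, B} (u + v) := by
    have := Lam.mem h hDAB (Finset.mem_insert_self A {B})
    rw [hA1] at this
    exact this
  have i2 : Lam P ty g {A, B} (u + (1 + b) • v) := by
    have := Lam.mem h hDAB (Finset.mem_insert_of_mem (Finset.mem_singleton_self B))
    rw [hB1] at this
    exact this
  have i3 : Lam P ty g {A, B} (b • v) := by
    rw [hx'] at i2
    exact Lam.cancel h hDAB i1 i2
  have i4 : Lam P ty g {A, B} v := tors_div h hDAB i3 (hminj b (by omega) hb2)
  have i5 : Lam P ty g {A, B} u := by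
    rw [add_comm] at i1
    exact Lam.cancel h hDAB i4 i1
  have i6 : 2 ≤ g {A, B} := by
    have h7 := hI {A, B} hDAB {i, j} (by
      intro l hl
      rw [Finset.mem_insert, Finset.mem_singleton] at hl
      rcases hl with rfl | rfl
      · exact i5
      · exact i4)
    rw [Finset.card_pair hij] at h7
    exact h7
  -- (ii)
  have hax' : a • (u + (1 + b) • v) = a • (u + v) + m • v := by
    rw [hx', smul_add, hab, mul_smul]
  have j1 : Lam P ty g {A} (a • (u + (1 + b) • v)) := by
    rw [hax']
    refine Lam.add h hDA (Lam.smul h hDA ?_ a) (Lam.mono h hDA (Finset.empty_subset _) hmj)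
    have := Lam.mem h hDA (Finset.mem_singleton_self A)
    rw [hA1] at this
    exact this
  have j2 : Lam P ty g {B} (a • (u + (1 + b) • v)) := by
    refine Lam.smul h hDB ?_ a
    have := Lam.mem h hDB (Finset.mem_singleton_self B)
    rw [hB1] at this
    exact this
  have j3 : Lam P ty g ∅ (a • (u + (1 + b) • v)) := by
    by_contra hn
    have hne : a • (u + (1 + b) • v) ≠ 0 := fun h0 => hn (Or.inl h0)
    obtain ⟨D, hD1, hD2, hD3, _, hD5, hD6, hD7⟩ := tors_fresh h hne hDAB ∅
    have hDdA : Disjoint D A := hD5 A (Finset.mem_insert_self A {B})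
    have hDdB : Disjoint D B := hD5 B (Finset.mem_insert_of_mem (Finset.mem_singleton_self B))
    have hneA : D ≠ A := by
      intro h0
      rw [h0] at hD7
      exact hD7 (Finset.mem_insert_self A {B})
    have hneB : D ≠ B := by
      intro h0
      rw [h0] at hD7
      exact hD7 (Finset.mem_insert_of_mem (Finset.mem_singleton_self B))
    have sw : ∀ C : Finset β, DF P (insert D {C}) → D ≠ C →
        Lam P ty g {C} (a • (u + (1 + b) • v)) → Lam P ty g {D} (cnt ty C) := by
      intro C hC1 hC2 hC3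
      have := Lam.swap h (F := ∅) (A := C) (B := D) (by simpa using hC1) (by simp)
        (by simpa using hC2) (by rw [hD1]; simpa using hC3) (by rw [hD1]; exact hn)
      simpa using this
    have s1 : Lam P ty g {D} (cnt ty A) :=
      sw A (tors_df2 hD2 hD3 hA2 hA3 hDdA) hneA j1
    have s2 : Lam P ty g {D} (cnt ty B) :=
      sw B (tors_df2 hD2 hD3 hB2 hB3 hDdB) hneB j2
    have hun : insert D ({A, B} : Finset (Finset β)) = {D} ∪ {A, B} := Finset.insert_eq _ _
    have s3 : g ({D} ∪ {A, B}) = g {D} := by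
      refine Lam.fam h (by rw [← hun]; exact hD6) ?_
      intro C hC
      rw [Finset.mem_insert, Finset.mem_singleton] at hC
      rcases hC with rfl | rfl
      · exact s1
      · exact s2
    have s4 : g {A, B} ≤ g ({D} ∪ {A, B}) :=
      AS.mono' h.as (by rw [← hun]; exact hD6) Finset.subset_union_right
    have s5 := AS.one h.as hD2 hD3
    omega
  have j4 : Lam P ty g ∅ (a • (u + v)) := by
    rw [hax', add_comm] at j3
    exact Lam.cancel h DF.empty hmj j3
  -- (iii)
  have hau : a • u ≠ 0 := fun h0 => hmin a (by omega) ha2 (Or.inl h0)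
  obtain ⟨D, hD1, hD2, hD3, _⟩ := h.real1 (a • u) hau ∅
  have hDD := tors_df1 hD2 hD3
  have k1 : Lam P ty g {D} (a • u) := by
    have := Lam.mem h hDD (Finset.mem_singleton_self D)
    rw [hD1] at this
    exact this
  have k2 : Lam P ty g {D} (a • u + a • v) := by
    rw [← smul_add]
    exact Lam.mono h hDD (Finset.empty_subset _) j4
  have k3 : Lam P ty g {D} (a • v) := Lam.cancel h hDD k1 k2
  have k4 : Lam P ty g {D} v := tors_div h hDD k3 (hminj a (by omega) ha2)
  have k5 : Lam P ty g {D} u := tors_div h hDD k1 (hmin a (by omega) ha2)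
  have h7 := hI {D} hDD {i, j} (by
    intro l hl
    rw [Finset.mem_insert, Finset.mem_singleton] at hl
    rcases hl with rfl | rfl
    · exact k5
    · exact k4)
  rw [Finset.card_pair hij] at h7
  have h8 := AS.one h.as hD2 hD3
  omega

/-- Either no type has a finite order or all types have the same prime order. -/
theorem tors_dich (h : Ex P ty K g) {n : ℕ} (hn : 2 ≤ n) {τ : Fin n → κ}
    (hI : Ind P ty g τ) :
    (∀ i, ∀ m, 1 ≤ m → ¬ Lam P ty g ∅ (m • E1 (τ i))) ∨
      ∃ p : ℕ, p.Prime ∧ ∀ i, Lam P ty g ∅ (p • E1 (τ i)) := by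
  classical
  by_cases hall : ∀ i, ∀ m, 1 ≤ m → ¬ Lam P ty g ∅ (m • E1 (τ i))
  · exact Or.inl hall
  · right
    push Not at hall
    obtain ⟨i, hi⟩ := hall
    have hex : ∃ m, 1 ≤ m ∧ Lam P ty g ∅ (m • E1 (τ i)) := hi
    obtain ⟨j, hij⟩ : ∃ j : Fin n, i ≠ j := by
      have : Nontrivial (Fin n) := Fin.nontrivial_iff_two_le.2 hn
      obtain ⟨j, hj⟩ := exists_ne i
      exact ⟨j, Ne.symm hj⟩
    have hp := tors_prime h hI hij (Nat.find_spec hex).1 (Nat.find_spec hex).2
      (fun s hs1 hs2 hs3 => Nat.find_min hex hs2 ⟨hs1, hs3⟩)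
    refine ⟨Nat.find hex, hp, ?_⟩
    intro l
    by_cases hl : i = l
    · rw [← hl]
      exact (Nat.find_spec hex).2
    · exact tors_trans h hI hl (Nat.find_spec hex).2

end Pool.Agent.H.MP_60a1a2_co
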