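import Pool.Agent.H.MP_60a1a2_co.KLib

/-! # Triangles: the uniform minor -/

set_option autoImplicit false

namespace Pool.Agent.H.MP_60a1a2_co

variable {α : Type*} [DecidableEq α]

/-- the edges of a triangle -/
def tri3 (e : ℕ → ℕ → α) (u : Fin 3 → ℕ) : Finset α := {e (u 0) (u 1), e (u 1) (u 2), e (u 0) (u 2)}

/-- the union of the triangles with index in `J` -/
def tris (e : ℕ → ℕ → α) {n : ℕ} (T : Fin n → Fin 3 → ℕ) (J : Finset (Fin n)) : Finset α :=
  J.biUnion (fun i => tri3 e (T i))

/-- `L` is a lift of the clique matroid `K`: the increments of `L` are at least those of `K` -/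
def Lift (L K : RF α) (e : ℕ → ℕ → α) (W : Finset ℕ) : Prop :=
  ∀ X Y, X ⊆ Y → Y ⊆ ed e W → K.r Y + L.r X ≤ K.r X + L.r Y

theorem tria_edge {K : RF α} {e : ℕ → ℕ → α} {W : Finset ℕ} (hK : IsK K e W) {n : ℕ}
    {T : Fin n → Fin 3 → ℕ} (hT : ∀ i t, T i t ∈ W)
    (hinj : ∀ i i' t t', T i t = T i' t' → i = i' ∧ t = t') {i i' : Fin n} {s t s' t' : Fin 3}
    (hst : s ≠ t) (hst' : s' ≠ t') (h : e (T i s) (T i t) = e (T i' s') (T i' t')) :
    i = i' ∧ ((s = s' ∧ t = t') ∨ (s = t' ∧ t = s')) := by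
  have h1 : T i s ≠ T i t := fun h1 => hst (hinj _ _ _ _ h1).2
  have h2 : T i' s' ≠ T i' t' := fun h2 => hst' (hinj _ _ _ _ h2).2
  rcases hK.isE.inj _ (hT i s) _ (hT i t) _ (hT i' s') _ (hT i' t') h1 h2 h with h3 | h3
  · exact ⟨(hinj _ _ _ _ h3.1).1, Or.inl ⟨(hinj _ _ _ _ h3.1).2, (hinj _ _ _ _ h3.2).2⟩⟩
  · exact ⟨(hinj _ _ _ _ h3.1).1, Or.inr ⟨(hinj _ _ _ _ h3.1).2, (hinj _ _ _ _ h3.2).2⟩⟩

theorem tria_ed {e : ℕ → ℕ → α} {W : Finset ℕ} (hE : IsE e W) {n : ℕ}
    {T : Fin n → Fin 3 → ℕ} (hT : ∀ i t, T i t ∈ W)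
    (hinj : ∀ i i' t t', T i t = T i' t' → i = i' ∧ t = t') (i : Fin n) :
    ed e (Finset.univ.image (T i)) = tri3 e (T i) := by
  have hne : ∀ s t, s ≠ t → T i s ≠ T i t := fun s t hst h => hst (hinj _ _ _ _ h).2
  ext x
  constructor
  · intro hx
    obtain ⟨a, ha, b, hb, hab, rfl⟩ := mem_ed.1 hx
    obtain ⟨s, _, rfl⟩ := Finset.mem_image.1 ha
    obtain ⟨t, _, rfl⟩ := Finset.mem_image.1 hb
    have hsymm : e (T i s) (T i t) = e (T i t) (T i s) := hE.symm _ (hT i s) _ (hT i t)
    unfold tri3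
    simp only [Finset.mem_insert, Finset.mem_singleton]
    fin_cases s <;> fin_cases t <;> first
      | exact absurd rfl hab
      | exact Or.inl rfl
      | exact Or.inr (Or.inl rfl)
      | exact Or.inr (Or.inr rfl)
      | exact Or.inl hsymm
      | exact Or.inr (Or.inl hsymm)
      | exact Or.inr (Or.inr hsymm)
  · intro hx
    unfold tri3 at hx
    simp only [Finset.mem_insert, Finset.mem_singleton] at hx
    have hm : ∀ s, T i s ∈ Finset.univ.image (T i) := fun s =>
      Finset.mem_image_of_mem _ (Finset.mem_univ s)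
    rcases hx with rfl | rfl | rfl
    · exact ed_mem (hm 0) (hm 1) (hne 0 1 (by decide))
    · exact ed_mem (hm 1) (hm 2) (hne 1 2 (by decide))
    · exact ed_mem (hm 0) (hm 2) (hne 0 2 (by decide))

theorem tria_insert (e : ℕ → ℕ → α) {n : ℕ} (T : Fin n → Fin 3 → ℕ) (i : Fin n)
    (J : Finset (Fin n)) : tris e T (insert i J) = tris e T J ∪ tri3 e (T i) := by
  unfold tris
  rw [Finset.biUnion_insert, Finset.union_comm]

theorem tria_mono (e : ℕ → ℕ → α) {n : ℕ} (T : Fin n → Fin 3 → ℕ) {J J' : Finset (Fin n)}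
    (h : J ⊆ J') : tris e T J ⊆ tris e T J' :=
  Finset.biUnion_subset_biUnion_of_subset_left _ h

theorem tria_sub {e : ℕ → ℕ → α} {W : Finset ℕ} (hE : IsE e W) {n : ℕ}
    {T : Fin n → Fin 3 → ℕ} (hT : ∀ i t, T i t ∈ W)
    (hinj : ∀ i i' t t', T i t = T i' t' → i = i' ∧ t = t') (J : Finset (Fin n)) :
    tris e T J ⊆ ed e W := by
  intro x hx
  obtain ⟨i, _, hi⟩ := Finset.mem_biUnion.1 hx
  rw [← tria_ed hE hT hinj] at hi
  refine ed_mono ?_ hi
  intro a ha
  obtain ⟨s, _, rfl⟩ := Finset.mem_image.1 ha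
  exact hT i s

theorem tria_card (e : ℕ → ℕ → α) {n : ℕ} (T : Fin n → Fin 3 → ℕ) (J : Finset (Fin n)) :
    (tris e T J).card ≤ 3 * J.card := by
  rw [mul_comm]
  apply Finset.card_biUnion_le_card_mul
  intro i _
  exact Finset.card_le_three

/-- rank of vertex-disjoint triangles in `K`

Proof: induction on `J`; the new triangle is `ed e U` for `U = univ.image (T i)` (3 elements), the
others are in `ed e (W \ U)`; use `IsK.add_clique`. -/
theorem tris_rank {K : RF α} {e : ℕ → ℕ → α} {W : Finset ℕ} (hK : IsK K e W) {n : ℕ}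
    (T : Fin n → Fin 3 → ℕ) (hT : ∀ i t, T i t ∈ W)
    (hinj : ∀ i i' t t', T i t = T i' t' → i = i' ∧ t = t') (J : Finset (Fin n)) :
    K.r (tris e T J) = 2 * J.card := by
  induction J using Finset.induction_on with
  | empty =>
    unfold tris
    rw [Finset.biUnion_empty, K.r_empty, Finset.card_empty]
  | insert i J hi ih =>
    have hU : Finset.univ.image (T i) ⊆ W := by
      intro a ha
      obtain ⟨s, _, rfl⟩ := Finset.mem_image.1 ha
      exact hT i s
    have hne : (Finset.univ.image (T i)).Nonempty :=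
      ⟨T i 0, Finset.mem_image_of_mem _ (Finset.mem_univ 0)⟩
    have hcard : (Finset.univ.image (T i)).card = 3 := by
      rw [Finset.card_image_of_injective _ (fun s t h => (hinj _ _ _ _ h).2)]
      simp
    have hI : tris e T J ⊆ ed e (W \ Finset.univ.image (T i)) := by
      intro x hx
      obtain ⟨i', hi', hx'⟩ := Finset.mem_biUnion.1 hx
      rw [← tria_ed hK.isE hT hinj] at hx'
      refine ed_mono ?_ hx'
      intro a ha
      obtain ⟨s, _, rfl⟩ := Finset.mem_image.1 ha
      rw [Finset.mem_sdiff]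
      refine ⟨hT i' s, fun h => ?_⟩
      obtain ⟨t, _, ht⟩ := Finset.mem_image.1 h
      have := (hinj _ _ _ _ ht).1
      rw [this] at hi
      exact hi hi'
    have h1 := hK.add_clique hU hne hI
    rw [hcard, tria_ed hK.isE hT hinj, ← tria_insert] at h1
    rw [Finset.card_insert_of_notMem hi]
    omega

/-- the two sides of all triangles -/
def tria_P (e : ℕ → ℕ → α) {n : ℕ} (T : Fin n → Fin 3 → ℕ) : Finset α :=
  Finset.univ.biUnion (fun i => {e (T i 0) (T i 1), e (T i 1) (T i 2)})

/-- the third side -/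
def tria_f (e : ℕ → ℕ → α) {n : ℕ} (T : Fin n → Fin 3 → ℕ) (i : Fin n) : α :=
  e (T i 0) (T i 2)

theorem tria_union (e : ℕ → ℕ → α) {n : ℕ} (T : Fin n → Fin 3 → ℕ) (J : Finset (Fin n)) :
    J.image (tria_f e T) ∪ tria_P e T = tris e T J ∪ tria_P e T := by
  ext x
  unfold tria_P tria_f tris tri3
  simp only [Finset.mem_union, Finset.mem_image, Finset.mem_biUnion, Finset.mem_insert,
    Finset.mem_singleton, Finset.mem_univ, true_and]
  constructor
  · rintro (⟨i, hi, rfl⟩ | h)
    · exact Or.inl ⟨i, hi, Or.inr (Or.inr rfl)⟩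
    · exact Or.inr h
  · rintro (⟨i, hi, h | h | h⟩ | h)
    · exact Or.inr ⟨i, Or.inl h⟩
    · exact Or.inr ⟨i, Or.inr h⟩
    · exact Or.inl ⟨i, hi, h.symm⟩
    · exact Or.inr h

theorem tria_P_sub (e : ℕ → ℕ → α) {n : ℕ} (T : Fin n → Fin 3 → ℕ) :
    tria_P e T ⊆ tris e T Finset.univ := by
  intro x hx
  unfold tria_P at hx
  unfold tris tri3
  simp only [Finset.mem_biUnion, Finset.mem_insert, Finset.mem_singleton, Finset.mem_univ,
    true_and] at hx ⊢
  obtain ⟨i, h | h⟩ := hx
  · exact ⟨i, Or.inl h⟩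
  · exact ⟨i, Or.inr (Or.inl h)⟩

theorem tria_P_rank {K : RF α} {e : ℕ → ℕ → α} {W : Finset ℕ} (hK : IsK K e W) {n : ℕ}
    (T : Fin n → Fin 3 → ℕ) (hT : ∀ i t, T i t ∈ W)
    (hinj : ∀ i i' t t', T i t = T i' t' → i = i' ∧ t = t') : K.r (tria_P e T) = 2 * n := by
  have h1 := tris_rank hK T hT hinj Finset.univ
  rw [Finset.card_univ, Fintype.card_fin] at h1
  rw [← h1]
  symm
  apply K.r_eq_of_in (tria_P_sub e T)
  intro x hx
  obtain ⟨i, _, hi⟩ := Finset.mem_biUnion.1 hx
  have hne : ∀ s t, s ≠ t → T i s ≠ T i t := fun s t hst h => hst (hinj _ _ _ _ h).2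
  have m1 : e (T i 0) (T i 1) ∈ tria_P e T := by
    unfold tria_P
    exact Finset.mem_biUnion.2 ⟨i, Finset.mem_univ i, Finset.mem_insert_self _ _⟩
  have m2 : e (T i 1) (T i 2) ∈ tria_P e T := by
    unfold tria_P
    exact Finset.mem_biUnion.2 ⟨i, Finset.mem_univ i,
      Finset.mem_insert_of_mem (Finset.mem_singleton_self _)⟩
  unfold tri3 at hi
  simp only [Finset.mem_insert, Finset.mem_singleton] at hi
  rcases hi with rfl | rfl | rfl
  · exact K.in_of_mem m1
  · exact K.in_of_mem m2
  · exact hK.tri.trans (hT i 0) (hT i 1) (hT i 2) (hne 0 1 (by decide)) (hne 1 2 (by decide))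
      (hne 0 2 (by decide)) (K.in_of_mem m1) (K.in_of_mem m2)

/-- parts (a) and (b) -/
theorem tria_ab {L K : RF α} {e : ℕ → ℕ → α} {W : Finset ℕ} (hK : IsK K e W)
    (hL : Lift L K e W) (ρ k : ℕ) (T : Fin (ρ + k) → Fin 3 → ℕ)
    (hT : ∀ i t, T i t ∈ W) (hinj : ∀ i i' t t', T i t = T i' t' → i = i' ∧ t = t')
    (h1 : ∀ J : Finset (Fin (ρ + k)), J.card = ρ → L.r (tris e T J) = 3 * ρ)
    (h2 : ∀ J : Finset (Fin (ρ + k)), J.card = ρ + 1 → L.r (tris e T J) < 3 * (ρ + 1))
    (J : Finset (Fin (ρ + k))) : L.r (tris e T J) = 2 * J.card + min J.card ρ := by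
  by_cases hJ : J.card ≤ ρ
  · rw [min_eq_left hJ]
    obtain ⟨J', hJJ', _, hJ'⟩ := Finset.exists_subsuperset_card_eq (Finset.subset_univ J) hJ
      (by rw [Finset.card_univ, Fintype.card_fin]; omega)
    have e1 := h1 J' hJ'
    have e2 : tris e T J' ⊆ tris e T J ∪ tris e T (J' \ J) := by
      intro x hx
      obtain ⟨i, hi, hx'⟩ := Finset.mem_biUnion.1 hx
      by_cases hiJ : i ∈ J
      · exact Finset.mem_union_left _ (Finset.mem_biUnion.2 ⟨i, hiJ, hx'⟩)
      · exact Finset.mem_union_right _ (Finset.mem_biUnion.2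
          ⟨i, Finset.mem_sdiff.2 ⟨hi, hiJ⟩, hx'⟩)
    have e3 := L.mono e2
    have e4 := L.r_union_le_card (tris e T J) (tris e T (J' \ J))
    have e5 := tria_card e T (J' \ J)
    have e6 := Finset.card_sdiff_add_card_eq_card hJJ'
    have e7 := L.le_card (tris e T J)
    have e8 := tria_card e T J
    omega
  · rw [min_eq_right (by omega)]
    have key : ∀ m : ℕ, ∀ J : Finset (Fin (ρ + k)), J.card = ρ + m →
        L.r (tris e T J) = 2 * J.card + ρ := by
      intro m
      induction m with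
      | zero =>
        intro J hJ
        rw [h1 J hJ, hJ]
        omega
      | succ m ih =>
        intro J hJ
        have hne : J.Nonempty := by
          rw [← Finset.card_pos]
          omega
        obtain ⟨i, hi⟩ := hne
        have hJ1 : (J.erase i).card = ρ + m := by
          rw [Finset.card_erase_of_mem hi]
          omega
        have e1 := ih (J.erase i) hJ1
        have hins : insert i (J.erase i) = J := Finset.insert_erase hi
        -- lower bound
        have e2 := hL (tris e T (J.erase i)) (tris e T J) (tria_mono e T (Finset.erase_subset i J))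
          (tria_sub hK.isE hT hinj J)
        rw [tris_rank hK T hT hinj, tris_rank hK T hT hinj] at e2
        -- upper bound
        obtain ⟨J0, hJ0, hJ0c⟩ := Finset.exists_subset_card_eq (s := J.erase i) (n := ρ)
          (by omega)
        have hiJ0 : i ∉ J0 := fun h => Finset.notMem_erase i J (hJ0 h)
        have e3 := L.incr (tria_mono e T hJ0) (tri3 e (T i))
        rw [← tria_insert, ← tria_insert, hins] at e3
        have e4 := h2 (insert i J0) (by rw [Finset.card_insert_of_notMem hiJ0, hJ0c])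
        have e5 := h1 J0 hJ0c
        omega
    exact key (J.card - ρ) J (by omega)

/-- parts (c) and (d) -/
theorem tria_cd {L K : RF α} {e : ℕ → ℕ → α} {W : Finset ℕ} (hK : IsK K e W)
    (hL : Lift L K e W) (ρ k : ℕ) (T : Fin (ρ + k) → Fin 3 → ℕ)
    (hT : ∀ i t, T i t ∈ W) (hinj : ∀ i i' t t', T i t = T i' t' → i = i' ∧ t = t')
    (h1 : ∀ J : Finset (Fin (ρ + k)), J.card = ρ → L.r (tris e T J) = 3 * ρ)
    (h2 : ∀ J : Finset (Fin (ρ + k)), J.card = ρ + 1 → L.r (tris e T J) < 3 * (ρ + 1))
    (J : Finset (Fin (ρ + k))) :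
    L.r (J.image (tria_f e T) ∪ tria_P e T) = 2 * (ρ + k) + min J.card ρ := by
  have hab := tria_ab hK hL ρ k T hT hinj h1 h2
  have hPc : (tria_P e T).card ≤ 2 * (ρ + k) := by
    have h : (tria_P e T).card ≤ (Finset.univ : Finset (Fin (ρ + k))).card * 2 := by
      apply Finset.card_biUnion_le_card_mul
      intro i _
      exact Finset.card_le_two
    rw [Finset.card_univ, Fintype.card_fin] at h
    omega
  have hPL := L.le_card (tria_P e T)
  have hsubU : J.image (tria_f e T) ∪ tria_P e T ⊆ tris e T Finset.univ := by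
    rw [tria_union]
    exact Finset.union_subset (tria_mono e T (Finset.subset_univ J)) (tria_P_sub e T)
  have u1 := L.mono hsubU
  have u2 := hab Finset.univ
  rw [Finset.card_univ, Fintype.card_fin] at u2
  have u3 := L.r_union_le_card (tria_P e T) (J.image (tria_f e T))
  rw [Finset.union_comm] at u3
  have u4 : (J.image (tria_f e T)).card ≤ J.card := Finset.card_image_le
  -- lower bound
  have l1 := hL (tris e T J) (J.image (tria_f e T) ∪ tria_P e T)
    (by rw [tria_union]; exact Finset.subset_union_left)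
    (hsubU.trans (tria_sub hK.isE hT hinj Finset.univ))
  have l2 : 2 * (ρ + k) ≤ K.r (J.image (tria_f e T) ∪ tria_P e T) := by
    rw [← tria_P_rank hK T hT hinj]
    exact K.mono Finset.subset_union_right
  rw [tris_rank hK T hT hinj, hab J] at l1
  rcases le_total J.card ρ with h | h
  · rw [min_eq_left h] at l1 ⊢
    omega
  · rw [min_eq_right h] at l1 ⊢
    rw [min_eq_right (by omega)] at u2
    omega

/-- If any `ρ` of the `ρ + k` triangles are independent in the lift `L` and any `ρ + 1` are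
dependent, then `L` has a `U_{k,2k}`-minor (`k ≤ ρ`).

Proof.  Let `n = ρ + k`.
(a) For `J.card ≤ ρ`: `L.r (tris e T J) = 3 * J.card` (a subset of an independent set of `ρ`
triangles, `RF.ind_subset`; the cardinality of `tris e T J` is `3 * J.card`).
(b) For `J.card = j ≥ ρ`: `L.r (tris e T J) = 2 * j + ρ`: by induction on `j`; `j = ρ` is (a).  Adding a
triangle `i ∉ J` to `J`: the increment is at least the increment `2` of `K` (`Lift`, `tris_rank`),
and for `J0 ⊆ J` with `J0.card = ρ` it is at most `L.r (tris e T (insert i J0)) -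
L.r (tris e T J0) ≤ 3 * ρ + 2 - 3 * ρ = 2` (`RF.incr`).
Let `P` be the set of the edges `e (T i 0) (T i 1)`, `e (T i 1) (T i 2)` for all `i`, and
`f i = e (T i 0) (T i 2)`.  `K.r P = 2 * n`: (`P` spans all triangles in `K`, by `Tri`, so
`K.r P = K.r (tris e T univ) = 2 * n`), so `L.r P ≥ 2 * n = P.card` (`Lift` with `X = ∅`), hence
`L.r P = 2 * n`.
(c) For `J`: `P ∪ J.image f = tris e T J ∪ P`.  `L.r (tris e T J ∪ P) ≥ L.r (tris e T J) +
(K.r (tris e T univ) - K.r (tris e T J))` (`Lift`; `tris e T J ∪ P` spans `tris e T univ` in `K`)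
`= L.r (tris e T J) + 2 * (n - J.card)`.  For `J.card ≤ ρ` this is `2 * n + J.card`, which is also
an upper bound.  For `J.card ≥ ρ`: lower bound from a subset of size `ρ`: `2 * n + ρ`; upper bound
`L.r (tris e T univ) = 2 * n + ρ` by (b).
So `L.r (J.image f ∪ P) = L.r P + min J.card ρ`.
Finally contract also the elements `f i`, `i < ρ - k`: `C = P ∪ {f i | i < ρ - k}`, and use the
`2 * k` elements `f i`, `ρ - k ≤ i < ρ + k`: the rank is `min (ρ - k + j) ρ - (ρ - k) = min j k`. -/
theorem tri_unif {L K : RF α} {e : ℕ → ℕ → α} {W : Finset ℕ} (hK : IsK K e W)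
    (hL : Lift L K e W) (ρ k : ℕ) (hk : k ≤ ρ) (T : Fin (ρ + k) → Fin 3 → ℕ)
    (hT : ∀ i t, T i t ∈ W) (hinj : ∀ i i' t t', T i t = T i' t' → i = i' ∧ t = t')
    (h1 : ∀ J : Finset (Fin (ρ + k)), J.card = ρ → L.r (tris e T J) = 3 * ρ)
    (h2 : ∀ J : Finset (Fin (ρ + k)), J.card = ρ + 1 → L.r (tris e T J) < 3 * (ρ + 1)) :
    HasM L (ed e W) (unif k) := by
  have hcd := tria_cd hK hL ρ k T hT hinj h1 h2
  have hfinj : Function.Injective (tria_f e T) := by
    intro i i' h
    exact (tria_edge hK hT hinj (s := 0) (t := 2) (s' := 0) (t' := 2) (by decide) (by decide)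
      h).1
  have hfP : ∀ i, tria_f e T i ∉ tria_P e T := by
    intro i hi
    obtain ⟨i', _, hi'⟩ := Finset.mem_biUnion.1 hi
    simp only [Finset.mem_insert, Finset.mem_singleton] at hi'
    rcases hi' with h | h
    · have := (tria_edge hK hT hinj (s := 0) (t := 2) (s' := 0) (t' := 1) (by decide)
        (by decide) h).2
      revert this
      decide
    · have := (tria_edge hK hT hinj (s := 0) (t := 2) (s' := 1) (t' := 2) (by decide)
        (by decide) h).2
      revert this
      decide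
  have hsub : ∀ J : Finset (Fin (ρ + k)), J.image (tria_f e T) ∪ tria_P e T ⊆ ed e W := by
    intro J
    rw [tria_union]
    exact (Finset.union_subset (tria_mono e T (Finset.subset_univ J)) (tria_P_sub e T)).trans
      (tria_sub hK.isE hT hinj Finset.univ)
  let sh : Fin (2 * k) → Fin (ρ + k) := fun t => ⟨ρ - k + t.val, by omega⟩
  have hsh : Function.Injective sh := by
    intro t t' h
    have := congrArg Fin.val h
    apply Fin.ext
    simp only [sh] at this
    omega
  let J0 : Finset (Fin (ρ + k)) := Finset.univ.filter (fun i => i.val < ρ - k)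
  have hJ0 : J0.card = ρ - k := by
    have h : J0 = (Finset.univ : Finset (Fin (ρ - k))).image
        (fun t => (⟨t.val, by omega⟩ : Fin (ρ + k))) := by
      ext i
      simp only [J0, Finset.mem_filter, Finset.mem_univ, true_and, Finset.mem_image]
      constructor
      · intro hi
        exact ⟨⟨i.val, hi⟩, Fin.ext rfl⟩
      · rintro ⟨t, rfl⟩
        exact t.2
    rw [h, Finset.card_image_of_injective, Finset.card_univ, Fintype.card_fin]
    intro t t' htt
    simp only [Fin.mk.injEq] at htt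
    exact Fin.ext htt
  have hshJ0 : ∀ t, sh t ∉ J0 := by
    intro t ht
    simp only [J0, sh, Finset.mem_filter, Finset.mem_univ, true_and] at ht
    omega
  refine ⟨J0.image (tria_f e T) ∪ tria_P e T, fun t => tria_f e T (sh t), hsub J0,
    hfinj.comp hsh, ?_, ?_⟩
  · intro t
    rw [Finset.mem_sdiff]
    constructor
    · have : tria_f e T (sh t) ∈ ({sh t} : Finset (Fin (ρ + k))).image (tria_f e T) ∪
          tria_P e T :=
        Finset.mem_union_left _ (Finset.mem_image_of_mem _ (Finset.mem_singleton_self _))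
      exact hsub _ this
    · intro h
      rcases Finset.mem_union.1 h with h | h
      · obtain ⟨i, hi, hi2⟩ := Finset.mem_image.1 h
        have := hfinj hi2
        rw [this] at hi
        exact hshJ0 t hi
      · exact hfP _ h
  · intro J
    have e1 : J.image (fun t => tria_f e T (sh t)) ∪ (J0.image (tria_f e T) ∪ tria_P e T) =
        (J.image sh ∪ J0).image (tria_f e T) ∪ tria_P e T := by
      rw [Finset.image_union, Finset.image_image, Finset.union_assoc]
      rfl
    have e2 : (J.image sh ∪ J0).card = J.card + (ρ - k) := by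
      rw [Finset.card_union_of_disjoint, Finset.card_image_of_injective _ hsh, hJ0]
      rw [Finset.disjoint_left]
      intro a ha hb
      obtain ⟨t, _, rfl⟩ := Finset.mem_image.1 ha
      exact hshJ0 t hb
    rw [e1, hcd, hcd, e2, hJ0]
    unfold unif
    rcases le_total J.card k with h | h
    · rw [min_eq_left h, min_eq_left (by omega), min_eq_left (by omega)]
      omega
    · rw [min_eq_right h, min_eq_right (by omega), min_eq_left (by omega)]
      omega

end Pool.Agent.H.MP_60a1a2_co
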