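import Pool.Agent.H.MP_60a1a2_co.Fat

/-! # Configurations of type I: many disjoint spanning transversals -/

set_option autoImplicit false

namespace Pool.Agent.H.MP_60a1a2_co

/-- the closure in the dual -/
theorem TypeIFat_dual_in {α : Type*} [DecidableEq α] (N : RF α) {E Y : Finset α} {x : α}
    (hY : Y ⊆ E) (hx : x ∈ E) (hxY : x ∉ Y) :
    (N.dual E).In Y x ↔ ¬ N.In (E \ insert x Y) x := by
  have h1 := N.dual_add (E := E) (X := insert x Y) (Finset.insert_subset hx hY)
  have h2 := N.dual_add hY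
  have h3 : insert x (E \ insert x Y) = E \ Y := by
    ext a
    simp only [Finset.mem_insert, Finset.mem_sdiff, not_or]
    constructor
    · rintro (rfl | ⟨h, _, h'⟩)
      · exact ⟨hx, hxY⟩
      · exact ⟨h, h'⟩
    · rintro ⟨h, h'⟩
      by_cases hax : a = x
      · exact Or.inl hax
      · exact Or.inr ⟨h, hax, h'⟩
  rw [Finset.card_insert_of_notMem hxY] at h1
  have h4 := N.r_insert_le x (E \ insert x Y)
  have h5 : N.r (E \ insert x Y) ≤ N.r (insert x (E \ insert x Y)) :=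
    N.mono (Finset.subset_insert _ _)
  unfold RF.In
  rw [h3] at h4 h5 ⊢
  constructor
  · intro h; omega
  · intro h; omega

/-- The system obtained from a configuration of type I.

Proof.  Let `E1 = ed e1 V`, `E2 = ed e2 W`, `KK = (M.con E1).dual E2` (so `IsK KK e2 W`).  `L0` =
(the number from `fat K C`) `+ 1`.  `V` and `W` are nonempty because `L ≥ 1` (if `V = ∅` then
`E1 = ∅`, and `lam` says `L + M.r E2 ≤ 0 + M.r E2`; same for `W`).  Let `w0 ∈ W`,
`T0 = star e2 w0 W`, `T0.card + 1 = W.card`, `KK.r T0 = T0.card` (`IsK.star_ind`).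
(1) `dual_add` for `E2`: `KK.r E2 + (M.con E1).r E2 = E2.card`, `KK.r E2 = T0.card`; `dual_add` for
`T0`: `KK.r T0 + (M.con E1).r E2 = T0.card + (M.con E1).r (E2 \ T0)`.  So
`(M.con E1).r (E2 \ T0) = (M.con E1).r E2 = E2.card - T0.card = (E2 \ T0).card`.  Put
`D = E2 \ T0`.  Hence `M.r (E1 ∪ D) = M.r E1 + D.card = M.r (E1 ∪ E2)` (`con_add`).
(2) For `Y ⊆ E1`: `M.r (Y ∪ D) = M.r Y + D.card` (`RF.incr`: the increment of `D` over `Y` is at
least that over `E1`; at most `D.card`).  In particular `M.r D = D.card`.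
(3) `N = M.con D`: `N.r Y = M.r Y` for `Y ⊆ E1`, so `IsK N e1 V` (`IsK.congr`);
`N.r (E1 ∪ T0) = M.r (E1 ∪ E2) - D.card = M.r E1 = N.r E1`; `N.r T0 = M.r E2 - D.card ≥ L`
by `lam` and (1).
(4) `fat` for `N, e1, V, T0` gives `Q ⊆ E1` and the sets `T c`.  `M.r Q = N.r Q = M.r E1 - K`;
`M.r (T c ∪ Q ∪ D) = M.r E1 + D.card = M.r (E1 ∪ E2)`.
(5) `R = (M.con Q).dual E2`.  For `c < C` (if `C = 0` use instead that `E2 ∪ Q` spans: take `fat` for
`max C 1`): `M.r (Q ∪ E2) = M.r (E1 ∪ E2)`.  `R.r E2 = E2.card - (M.con Q).r E2 =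
E2.card - (M.r (Q ∪ E2) - M.r Q) = E2.card - (D.card + K) = T0.card - K`; so
`R.r E2 + K + 1 = W.card`.
(6) `Tri R e2 W`: let `x` be the third edge of a triangle and `Y` the set of the other two;
`KK.In Y x`.  If `x ∈ Y` trivial.  By `dual_add` `KK.In Y x` says
`(M.con E1).r (E2 \ Y) = (M.con E1).r (E2 \ insert x Y) + 1`, i.e. `x` is not in the closure of
`E2 \ insert x Y` in `M.con E1`; so it is not in its closure in `M.con Q` (`Q ⊆ E1`, `con_in`,
`in_mono`), which gives `R.In Y x`.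
(7) `T c ⊆ T0 = star e2 w0 W`, so `T c = {e2 w0 x | x ∈ X c}` with `X c ⊆ W`, `w0 ∉ X c`,
`(X c).card = K` (injectivity); let `ℓ (·, c)` be an enumeration of `X c`, for `c < C`; the `X c` are
pairwise disjoint because the `T c` are.
(8) `R.r (ed e2 (W \ X c)) = R.r E2`: `T0 \ T c ⊆ ed e2 (W \ X c)` and by `dual_add`
`R.r (T0 \ T c) = (T0 \ T c).card + (M.con Q).r (E2 \ (T0 \ T c)) - (M.con Q).r E2`; here
`E2 \ (T0 \ T c) = D ∪ T c` has the same rank in `M.con Q` as `E2` by (4), so this is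
`T0.card - K = R.r E2`. -/
theorem typeI_fat.{u} (K C : ℕ) : ∃ L0 : ℕ, ∀ {α : Type u} [DecidableEq α] (M : RF α)
    (e1 : ℕ → ℕ → α) (V : Finset ℕ) (e2 : ℕ → ℕ → α) (W : Finset ℕ) (L : ℕ),
    TypeI M e1 V e2 W L → L0 ≤ L →
    ∃ Q ⊆ ed e1 V, ∃ w0 ∈ W, ∃ ℓ : Fin K × ℕ → ℕ,
      (∀ x, x.2 < C → ℓ x ∈ W ∧ ℓ x ≠ w0) ∧
      (∀ x y, x.2 < C → y.2 < C → ℓ x = ℓ y → x = y) ∧
      Tri ((M.con Q).dual (ed e2 W)) e2 W ∧
      ((M.con Q).dual (ed e2 W)).r (ed e2 W) + K + 1 = W.card ∧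
      ∀ c < C, ((M.con Q).dual (ed e2 W)).r
          (ed e2 (W \ Finset.univ.image (fun i => ℓ (i, c)))) =
        ((M.con Q).dual (ed e2 W)).r (ed e2 W) := by
  obtain ⟨L0', hfat⟩ := fat.{u} K (max C 1)
  refine ⟨L0' + 1, ?_⟩
  intro α _ M e1 V e2 W L hT hL
  classical
  set E1 := ed e1 V with hE1
  set E2 := ed e2 W with hE2
  have hlam := hT.lam
  rw [← hE1, ← hE2] at hlam
  have hVne : V.Nonempty := by
    rw [Finset.nonempty_iff_ne_empty]
    intro h0
    have h1 : E1 = ∅ := by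
      rw [hE1, h0]
      simp [ed]
    rw [h1, Finset.empty_union, M.r_empty] at hlam
    omega
  have hWne : W.Nonempty := by
    rw [Finset.nonempty_iff_ne_empty]
    intro h0
    have h1 : E2 = ∅ := by
      rw [hE2, h0]
      simp [ed]
    rw [h1, Finset.union_empty, M.r_empty] at hlam
    omega
  obtain ⟨w0, hw0⟩ := hWne
  have hcocl := hT.cocl
  set T0 := star e2 w0 W with hT0
  have hT0E2 : T0 ⊆ E2 := star_subset hw0
  have c1 : T0.card + 1 = W.card := star_card hcocl.isE hw0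
  have c2 := hcocl.star_ind hw0
  have c3 := hcocl.rank ⟨w0, hw0⟩
  rw [← hE1, ← hE2] at c2 c3
  rw [← hT0] at c2
  have c4 := (M.con E1).dual_add (Finset.Subset.refl E2)
  rw [Finset.sdiff_self, RF.r_empty] at c4
  have c5 := (M.con E1).dual_add hT0E2
  set D := E2 \ T0 with hD
  have c6 : D.card + T0.card = E2.card := Finset.card_sdiff_add_card_eq_card hT0E2
  have c7 := M.con_add E1 D
  have c8 := M.con_add E1 E2
  have hDE1 : M.r (D ∪ E1) = M.r E1 + D.card := by omega
  have hE2E1 : M.r (E2 ∪ E1) = M.r E1 + D.card := by omega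
  have hE12 : M.r (E1 ∪ E2) = M.r E1 + D.card := by rw [Finset.union_comm]; exact hE2E1
  have key : ∀ Y ⊆ E1, M.r (Y ∪ D) = M.r Y + D.card := by
    intro Y hY
    have h1 := M.incr hY D
    have h2 := M.r_union_le_card Y D
    rw [Finset.union_comm E1 D] at h1
    omega
  have hrD : M.r D = D.card := by
    have h1 := key ∅ (Finset.empty_subset _)
    rw [Finset.empty_union, M.r_empty] at h1
    omega
  have hN : ∀ Y ⊆ E1, (M.con D).r Y = M.r Y := by
    intro Y hY
    have h1 := M.con_add D Y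
    rw [key Y hY] at h1
    omega
  have hNK : IsK (M.con D) e1 V := hT.clq.congr (fun X hX => hN X hX)
  have hT0D : T0 ∪ D = E2 := by
    rw [hD, Finset.union_sdiff_of_subset hT0E2]
  have hN1 : (M.con D).r (E1 ∪ T0) = (M.con D).r E1 := by
    have h1 := M.con_add D (E1 ∪ T0)
    rw [Finset.union_assoc, hT0D, hE12] at h1
    rw [hN E1 (Finset.Subset.refl _)]
    omega
  have hN2 : L0' ≤ (M.con D).r T0 := by
    have h1 := M.con_add D T0
    rw [hT0D] at h1
    omega
  obtain ⟨Q, hQ, hQr, T, hT1, hT2⟩ := hfat (M.con D) e1 V T0 hNK hN1 hN2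
  rw [← hE1] at hQ hQr
  have hQM : M.r Q + K = M.r E1 := by
    rw [hN Q hQ, hN E1 (Finset.Subset.refl _)] at hQr
    exact hQr
  have hTr : ∀ c < max C 1, M.r (T c ∪ Q ∪ D) = M.r E1 + D.card := by
    intro c hc
    have h1 := (hT1 c hc).2.2
    rw [← hE1, hN E1 (Finset.Subset.refl _)] at h1
    have h2 := M.con_add D (T c ∪ Q)
    omega
  have hE2Q : M.r (E2 ∪ Q) = M.r E1 + D.card := by
    have h0 : 0 < max C 1 := by
      rw [lt_max_iff]; right; omega
    have h1 := hTr 0 h0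
    have h2 : T 0 ∪ Q ∪ D ⊆ E2 ∪ Q := by
      intro a ha
      simp only [Finset.mem_union] at ha
      rw [Finset.mem_union]
      rcases ha with (ha | ha) | ha
      · exact Or.inl (hT0E2 ((hT1 0 h0).1 ha))
      · exact Or.inr ha
      · exact Or.inl (Finset.mem_sdiff.1 ha).1
    have h3 : E2 ∪ Q ⊆ E2 ∪ E1 := Finset.union_subset_union_right hQ
    have h4 := M.mono h2
    have h5 := M.mono h3
    omega
  have d1 := (M.con Q).dual_add (Finset.Subset.refl E2)
  rw [Finset.sdiff_self, RF.r_empty] at d1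
  have d2 := M.con_add Q E2
  have hR : ((M.con Q).dual E2).r E2 + K = T0.card := by omega
  -- the sets of vertices
  have hwj : ∀ i ∈ W, ∀ j ∈ W, i ≠ w0 → j ≠ w0 → e2 w0 i = e2 w0 j → i = j := by
    intro i hi j hj hi0 hj0 hij
    rcases hcocl.isE.inj w0 hw0 i hi w0 hw0 j hj (Ne.symm hi0) (Ne.symm hj0) hij with h1 | h1
    · exact h1.2
    · exact absurd h1.1.symm hj0
  set X : ℕ → Finset ℕ := fun c => (W.erase w0).filter (fun x => e2 w0 x ∈ T c) with hX
  have hmemX : ∀ c x, x ∈ X c ↔ (x ∈ W ∧ x ≠ w0 ∧ e2 w0 x ∈ T c) := by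
    intro c x
    rw [hX]
    simp only [Finset.mem_filter, Finset.mem_erase]
    tauto
  have hlt : ∀ c, c < C → c < max C 1 := fun c hc => lt_max_of_lt_left hc
  have hXcard : ∀ c < C, (X c).card = K := by
    intro c hc
    rw [← (hT1 c (hlt c hc)).2.1]
    have h1 : (X c).image (e2 w0) = T c := by
      ext y
      rw [Finset.mem_image]
      constructor
      · rintro ⟨x, hx, rfl⟩
        exact ((hmemX c x).1 hx).2.2
      · intro hy
        obtain ⟨j, hj, hjw, hjy⟩ := mem_star.1 ((hT1 c (hlt c hc)).1 hy)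
        exact ⟨j, (hmemX c j).2 ⟨hj, hjw, by rw [hjy]; exact hy⟩, hjy⟩
    rw [← h1]
    symm
    apply Finset.card_image_of_injOn
    intro a ha b hb hab
    have ha' := (hmemX c a).1 ha
    have hb' := (hmemX c b).1 hb
    exact hwj a ha'.1 b hb'.1 ha'.2.1 hb'.2.1 hab
  have hf : ∀ c, ∃ f : Fin K → ℕ, c < C →
      (Function.Injective f ∧ Finset.univ.image f = X c) := by
    intro c
    by_cases hc : c < C
    · refine ⟨fun i => (X c).orderEmbOfFin (hXcard c hc) i, fun _ => ⟨?_, ?_⟩⟩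
      · exact ((X c).orderEmbOfFin (hXcard c hc)).injective
      · ext y
        rw [Finset.mem_image]
        constructor
        · rintro ⟨i, _, rfl⟩
          exact Finset.orderEmbOfFin_mem _ _ _
        · intro hy
          have h1 := Finset.range_orderEmbOfFin (X c) (hXcard c hc)
          have h2 : y ∈ Set.range ((X c).orderEmbOfFin (hXcard c hc)) := by
            rw [h1]; exact hy
          obtain ⟨i, hi⟩ := h2
          exact ⟨i, Finset.mem_univ i, hi⟩
    · exact ⟨fun _ => 0, fun h => absurd h hc⟩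
  choose f hf1 using hf
  have hfmem : ∀ c < C, ∀ i, f c i ∈ X c := by
    intro c hc i
    rw [← (hf1 c hc).2]
    exact Finset.mem_image_of_mem _ (Finset.mem_univ i)
  refine ⟨Q, hQ, w0, hw0, fun x => f x.2 x.1, ?_, ?_, ?_, ?_, ?_⟩
  · intro x hx
    have h1 := (hmemX _ _).1 (hfmem x.2 hx x.1)
    exact ⟨h1.1, h1.2.1⟩
  · rintro ⟨i, c⟩ ⟨j, d⟩ hc hd hxy
    simp only at hc hd hxy
    by_cases hcd : c = d
    · subst hcd
      rw [(hf1 c hc).1 hxy]
    · exfalso
      have h1 := ((hmemX _ _).1 (hfmem c hc i)).2.2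
      have h2 := ((hmemX _ _).1 (hfmem d hd j)).2.2
      rw [hxy] at h1
      exact Finset.disjoint_left.1 (hT2 c (hlt c hc) d (hlt d hd) hcd) h1 h2
  · intro i hi j hj k hk h1 h2 h3
    have h4 := hcocl.tri i hi j hj k hk h1 h2 h3
    by_cases hxY : e2 i k ∈ ({e2 i j, e2 j k} : Finset α)
    · exact RF.in_of_mem _ hxY
    · have hYE : ({e2 i j, e2 j k} : Finset α) ⊆ E2 := by
        intro y hy
        simp only [Finset.mem_insert, Finset.mem_singleton] at hy
        rcases hy with rfl | rfl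
        · exact ed_mem hi hj h1
        · exact ed_mem hj hk h2
      have hxE : e2 i k ∈ E2 := ed_mem hi hk h3
      rw [TypeIFat_dual_in _ hYE hxE hxY] at h4 ⊢
      intro h5
      apply h4
      rw [RF.con_in] at h5 ⊢
      exact M.in_mono h5 (Finset.union_subset_union_right hQ)
  · rw [← c1]
    omega
  · intro c hc
    have hc' := hlt c hc
    have himg : Finset.univ.image (fun i => f (i, c).2 (i, c).1) = X c := (hf1 c hc).2
    rw [himg]
    have hTc := hT1 c hc'
    have s1 : T0 \ T c ⊆ ed e2 (W \ X c) := by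
      intro y hy
      obtain ⟨hy1, hy2⟩ := Finset.mem_sdiff.1 hy
      obtain ⟨j, hj, hjw, rfl⟩ := mem_star.1 hy1
      refine ed_mem (Finset.mem_sdiff.2 ⟨hw0, fun h => ?_⟩) (Finset.mem_sdiff.2 ⟨hj, fun h => ?_⟩)
        (Ne.symm hjw)
      · exact ((hmemX _ _).1 h).2.1 rfl
      · exact hy2 ((hmemX _ _).1 h).2.2
    have s2 : ed e2 (W \ X c) ⊆ E2 := ed_mono Finset.sdiff_subset
    have s3 : T0 \ T c ⊆ E2 := Finset.sdiff_subset.trans hT0E2
    have s4 := (M.con Q).dual_add s3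
    have s5 : E2 \ (T0 \ T c) = D ∪ T c := by
      ext a
      simp only [hD, Finset.mem_sdiff, Finset.mem_union, not_and, not_not]
      constructor
      · rintro ⟨ha, hb⟩
        by_cases hc0 : a ∈ T0
        · exact Or.inr (hb hc0)
        · exact Or.inl ⟨ha, hc0⟩
      · rintro (⟨ha, hb⟩ | ha)
        · exact ⟨ha, fun h => absurd h hb⟩
        · exact ⟨hT0E2 (hTc.1 ha), fun _ => ha⟩
    have s6 := M.con_add Q (D ∪ T c)
    have s7 : D ∪ T c ∪ Q = T c ∪ Q ∪ D := by
      ext a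
      simp only [Finset.mem_union]
      tauto
    rw [s7, hTr c hc'] at s6
    rw [s5] at s4
    have s8 := Finset.card_sdiff_add_card_eq_card hTc.1
    have s9 := ((M.con Q).dual E2).mono s1
    have s10 := ((M.con Q).dual E2).mono s2
    have s11 := hTc.2.1
    omega

end Pool.Agent.H.MP_60a1a2_co
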