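import Pool.Agent.H.MP_60a1a2_co.Exch

/-! # The closure of a family as a set of vectors -/

set_option autoImplicit false

namespace Pool.Agent.H.MP_60a1a2_co

variable {β κ : Type} [DecidableEq β] [DecidableEq κ] [Fintype κ] {P : β → Prop} {ty : β → κ}
  {K : ℕ} {g : Finset (Finset β) → ℕ}

theorem cnt_union (ty : β → κ) {A B : Finset β} (h : Disjoint A B) :
    cnt ty (A ∪ B) = cnt ty A + cnt ty B := by
  funext i
  unfold cnt
  rw [Finset.filter_union, Finset.card_union_of_disjoint (Finset.disjoint_filter_filter h)]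
  rfl

theorem cnt_ne_zero (ty : β → κ) {A : Finset β} (h : A.Nonempty) : cnt ty A ≠ 0 := by
  obtain ⟨x, hx⟩ := h
  intro h0
  have h1 := congrFun h0 (ty x)
  unfold cnt at h1
  simp only [Pi.zero_apply, Finset.card_eq_zero] at h1
  have : x ∈ A.filter (fun y => ty y = ty x) := Finset.mem_filter.2 ⟨hx, rfl⟩
  rw [h1] at this
  simp at this

theorem cnt_empty (ty : β → κ) : cnt ty (∅ : Finset β) = 0 := by
  funext i
  simp [cnt]

/-- A fresh realization of one vector (from `Ex.real` with `τ = Unit`). -/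
theorem Ex.real1 (h : Ex P ty K g) (v : κ → ℕ) (hv : v ≠ 0) (X : Finset β) :
    ∃ A : Finset β, cnt ty A = v ∧ A.Nonempty ∧ (∀ x ∈ A, P x) ∧ Disjoint A X := by
  obtain ⟨B, hB, _⟩ := h.real (τ := Unit) (fun _ => v) X
  obtain ⟨h1, h2, h3⟩ := hB ()
  refine ⟨B (), h1, ?_, h2, h3⟩
  rw [Finset.nonempty_iff_ne_empty]
  intro h0
  rw [h0, cnt_empty] at h1
  exact hv h1.symm

/-- A fresh realization, disjoint from the members of a family and from a given set. -/
private theorem Vec_real (h : Ex P ty K g) {F : Finset (Finset β)} (hF : DF P F) (v : κ → ℕ)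
    (hv : v ≠ 0) (X : Finset β) :
    ∃ B : Finset β, cnt ty B = v ∧ B.Nonempty ∧ (∀ x ∈ B, P x) ∧ Disjoint B X ∧
      DF P (insert B F) ∧ B ∉ F := by
  obtain ⟨B, h1, h2, h3, h4⟩ := h.real1 v hv (X ∪ F.biUnion id)
  rw [Finset.disjoint_union_right] at h4
  have h5 : ∀ C ∈ F, Disjoint B C := by
    intro C hC
    exact Finset.disjoint_of_subset_right (Finset.subset_biUnion_of_mem id hC) h4.2
  refine ⟨B, h1, h2, h3, h4.1, DF.insert_iff.2 ⟨hF, h2, h3, fun C hC _ => h5 C hC⟩, ?_⟩
  intro hB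
  have := h5 B hB
  rw [disjoint_self] at this
  rw [this] at h2
  exact Finset.not_nonempty_empty h2

/-- Every realization of a vector in the closure is in the closure.

Proof: `cnt ty A ≠ 0` because `A` is nonempty; `Ex.cnt_congr`. -/
theorem Lam.z (h : Ex P ty K g) {F : Finset (Finset β)} {A : Finset β}
    (hA : DF P (insert A F)) (hAF : A ∉ F) (hl : Lam P ty g F (cnt ty A)) : Z P g F A := by
  rcases hl with h0 | ⟨A', h1, h2⟩
  · exact absurd h0 (cnt_ne_zero ty (DF.insert_iff.1 hA).2.1)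
  · exact h.cnt_congr h2 h1 hA hAF

theorem Z.lam {F : Finset (Finset β)} {A : Finset β} (hA : Z P g F A) :
    Lam P ty g F (cnt ty A) := Or.inr ⟨A, rfl, hA⟩

/-- Sums.

Proof.  If `v = 0` or `w = 0` this is trivial.  `A` realizes `v` in the closure.  Let `B` be a
realization of `w` disjoint from `A` and from all members of `F` (`Ex.real1`); it is in the closure by
`Lam.z`; `AS.zunion`, `cnt_union`. -/
theorem Lam.add (h : Ex P ty K g) {F : Finset (Finset β)} (hF : DF P F) {v w : κ → ℕ}
    (hv : Lam P ty g F v) (hw : Lam P ty g F w) : Lam P ty g F (v + w) := by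
  by_cases h0 : w = 0
  · rw [h0, add_zero]; exact hv
  rcases hv with rfl | ⟨A, hA1, hA2⟩
  · rw [zero_add]; exact hw
  obtain ⟨B, b1, b2, b3, b4, b5, b6⟩ := Vec_real h hF w h0 A
  have hZ : Z P g F B := Lam.z h b5 b6 (by rw [b1]; exact hw)
  right
  refine ⟨A ∪ B, ?_, h.as.zunion hA2 hZ b4.symm⟩
  rw [cnt_union ty b4.symm, hA1, b1]

/-- Cancellation.

Proof.  Trivial if `v = 0` or `w = 0`.  Let `A` be a realization of `v` in the closure, `B` a fresh
realization of `w` (disjoint from `A` and the members of `F`).  `A ∪ B` realizes `v + w`, so it is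
in the closure (`Lam.z`); `AS.zdiff`. -/
theorem Lam.cancel (h : Ex P ty K g) {F : Finset (Finset β)} (hF : DF P F) {v w : κ → ℕ}
    (hv : Lam P ty g F v) (hw : Lam P ty g F (v + w)) : Lam P ty g F w := by
  by_cases h0 : w = 0
  · left; exact h0
  rcases hv with rfl | ⟨A, hA1, hA2⟩
  · rw [zero_add] at hw; exact hw
  obtain ⟨B, b1, b2, b3, b4, b5, b6⟩ := Vec_real h hF w h0 A
  obtain ⟨a1, a2, a3⟩ := hA2
  have ha := DF.insert_iff.1 a1
  have hb := DF.insert_iff.1 b5
  have hD : DF P (insert (A ∪ B) F) := by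
    refine DF.insert_iff.2 ⟨hF, ha.2.1.mono Finset.subset_union_left, ?_, ?_⟩
    · intro x hx
      rcases Finset.mem_union.1 hx with hx | hx
      · exact ha.2.2.1 x hx
      · exact b3 x hx
    · intro C hC _
      rw [Finset.disjoint_union_left]
      exact ⟨ha.2.2.2 C hC (fun e => a2 (e ▸ hC)), hb.2.2.2 C hC (fun e => b6 (e ▸ hC))⟩
  have hn : A ∪ B ∉ F := by
    intro hAB
    have h1 := hb.2.2.2 (A ∪ B) hAB (fun e => b6 (by rw [e]; exact hAB))
    have h2 : Disjoint B B := Finset.disjoint_of_subset_right Finset.subset_union_right h1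
    rw [disjoint_self] at h2
    rw [h2] at b2
    exact Finset.not_nonempty_empty b2
  have hZ : Z P g F (A ∪ B) := Lam.z h hD hn (by rw [cnt_union ty b4.symm, hA1, b1]; exact hw)
  right
  exact ⟨B, b1, h.as.zdiff ⟨a1, a2, a3⟩ hZ b4.symm b2⟩

/-- Members of the family (`Ex.real1` for a fresh copy, `Ex.copy`). -/
theorem Lam.mem (h : Ex P ty K g) {F : Finset (Finset β)} (hF : DF P F) {A : Finset β}
    (hA : A ∈ F) : Lam P ty g F (cnt ty A) := by
  obtain ⟨B, b1, b2, b3, b4, b5, b6⟩ := Vec_real h hF (cnt ty A) (cnt_ne_zero ty (hF.1 A hA).1) ∅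
  right
  exact ⟨B, b1, h.copy hA b1.symm b5 b6⟩

/-- Monotonicity: take a fresh realization (disjoint from the members of `G`) of `v`; it is in the
closure of `F` (`Lam.z`), use `AS.zmono`. -/
theorem Lam.mono (h : Ex P ty K g) {F G : Finset (Finset β)} (hG : DF P G) (hFG : F ⊆ G)
    {v : κ → ℕ} (hv : Lam P ty g F v) : Lam P ty g G v := by
  by_cases h0 : v = 0
  · left; exact h0
  obtain ⟨B, b1, b2, b3, b4, b5, b6⟩ := Vec_real h hG v h0 ∅
  have hZ : Z P g F B := Lam.z h (b5.subset (Finset.insert_subset_insert B hFG))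
    (fun e => b6 (hFG e)) (by rw [b1]; exact hv)
  right
  exact ⟨B, b1, h.as.zmono hZ hFG b5 b6⟩

/-- Adding sets whose vectors are in the closure (`AS.zfam`, `Lam.z`). -/
theorem Lam.fam (h : Ex P ty K g) {F G : Finset (Finset β)} (hFG : DF P (F ∪ G))
    (hG : ∀ A ∈ G, Lam P ty g F (cnt ty A)) : g (F ∪ G) = g F := by
  apply h.as.zfam hFG
  intro A hA
  by_cases hAF : A ∈ F
  · left; exact hAF
  · right
    refine Lam.z h (hFG.subset ?_) hAF (hG A hA)
    exact Finset.insert_subset (Finset.mem_union_right F hA) Finset.subset_union_left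

theorem Lam.smul (h : Ex P ty K g) {F : Finset (Finset β)} (hF : DF P F) {v : κ → ℕ}
    (hv : Lam P ty g F v) (n : ℕ) : Lam P ty g F (n • v) := by
  induction n with
  | zero => left; simp
  | succ n ih =>
    rw [succ_nsmul]
    exact Lam.add h hF ih hv

theorem Lam.sum (h : Ex P ty K g) {F : Finset (Finset β)} (hF : DF P F) {ι : Type}
    (s : Finset ι) (v : ι → κ → ℕ) (hv : ∀ i ∈ s, Lam P ty g F (v i)) :
    Lam P ty g F (∑ i ∈ s, v i) := by
  classical
  induction s using Finset.induction_on with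
  | empty => left; simp
  | insert a s ha ih =>
    rw [Finset.sum_insert ha]
    exact Lam.add h hF (hv a (Finset.mem_insert_self a s))
      (ih (fun i hi => hv i (Finset.mem_insert_of_mem hi)))

/-- Transitivity (`AS.ztrans`, `Lam.z`). -/
theorem Lam.trans (h : Ex P ty K g) {F G : Finset (Finset β)} (hFG : DF P (F ∪ G))
    (hG : ∀ A ∈ G, Lam P ty g F (cnt ty A)) {v : κ → ℕ} (hv : Lam P ty g (F ∪ G) v) :
    Lam P ty g F v := by
  by_cases h0 : v = 0
  · left; exact h0
  obtain ⟨B, b1, b2, b3, b4, b5, b6⟩ := Vec_real h hFG v h0 ∅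
  have hZ : Z P g (F ∪ G) B := Lam.z h b5 b6 (by rw [b1]; exact hv)
  right
  refine ⟨B, b1, h.as.ztrans ?_ hZ⟩
  intro A hA
  by_cases hAF : A ∈ F
  · left; exact hAF
  · right
    refine Lam.z h (hFG.subset ?_) hAF (hG A hA)
    exact Finset.insert_subset (Finset.mem_union_right F hA) Finset.subset_union_left

/-- Exchange.

Proof: `B` is in the closure of `insert A F` (`Lam.z`), and not in the closure of `F`
(`Z.lam`); `AS.zswap`, `Z.lam`. -/
theorem Lam.swap (h : Ex P ty K g) {F : Finset (Finset β)} {A B : Finset β}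
    (hD : DF P (insert B (insert A F))) (hAF : A ∉ F) (hB : B ∉ insert A F)
    (hl : Lam P ty g (insert A F) (cnt ty B)) (hn : ¬ Lam P ty g F (cnt ty B)) :
    Lam P ty g (insert B F) (cnt ty A) := by
  exact (h.as.zswap hAF (Lam.z h hD hB hl) (fun hZ => hn hZ.lam)).lam

/-- the rank of one set is at most one -/
theorem AS.one (h : AS P K g) {A : Finset β} (hA : A.Nonempty) (hP : ∀ x ∈ A, P x) :
    g {A} ≤ 1 := by
  have h1 : DF P (insert A ∅) := DF.insert_iff.2 ⟨DF.empty, hA, hP, by simp⟩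
  have h2 := h.unit A ∅ h1
  rw [h.zero] at h2
  simpa using h2

/-- Rank one vectors: if `m v` (a multiple of `v`, `m ≠ 0`) is not in the closure of the empty family
then every realization `D` of `m v` has `v` in its closure.

Proof: let `Y` be a fresh realization of `v` (`v ≠ 0` since `m • v ≠ 0`); `Lam {Y} (m • v)`
(`Lam.mem`, `Lam.smul`); `Lam.swap` with `F = ∅`, `A = Y`, `B = D` (disjoint nonempty sets are
different). -/
theorem Lam.par (h : Ex P ty K g) {D : Finset β} {v : κ → ℕ} {m : ℕ} (hD : cnt ty D = m • v)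
    (hP : ∀ x ∈ D, P x) (hn : ¬ Lam P ty g ∅ (m • v)) : Lam P ty g {D} v := by
  have h1 : m • v ≠ 0 := fun e => hn (Or.inl e)
  have h2 : v ≠ 0 := by
    intro e
    rw [e, smul_zero] at h1
    exact h1 rfl
  have h3 : D.Nonempty := by
    rw [Finset.nonempty_iff_ne_empty]
    intro e
    rw [e, cnt_empty] at hD
    exact h1 hD.symm
  obtain ⟨Y, b1, b2, b3, b4⟩ := h.real1 v h2 D
  have hY : DF P (insert Y ∅) := DF.insert_iff.2 ⟨DF.empty, b2, b3, by simp⟩
  have l1 : Lam P ty g (insert Y ∅) v := by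
    have := Lam.mem h hY (Finset.mem_insert_self Y ∅)
    rwa [b1] at this
  have l2 : Lam P ty g (insert Y ∅) (cnt ty D) := by
    rw [hD]
    exact Lam.smul h hY l1 m
  have hDY : D ≠ Y := by
    intro e
    rw [e, disjoint_self] at b4
    rw [b4] at b2
    exact Finset.not_nonempty_empty b2
  have hDD : DF P (insert D (insert Y ∅)) := by
    refine DF.insert_iff.2 ⟨hY, h3, hP, ?_⟩
    intro B hB _
    rw [Finset.mem_insert] at hB
    rcases hB with rfl | hB
    · exact b4.symm
    · simp at hB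
  have h5 := Lam.swap h hDD (by simp) (by simpa using hDY) l2 (by rw [hD]; exact hn)
  rw [b1] at h5
  exact h5

end Pool.Agent.H.MP_60a1a2_co
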